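import Pool.Agent.Lib_helper63.JO.Defs2
/-!
# Project JO, part E, block CRD: coordinates of `SL₂(ℝ)`
-/

namespace Pool.Agent.JO

open Complex MeasureTheory Filter Topology UpperHalfPlane ModularGroup
open scoped MatrixGroups Modular ENNReal ComplexConjugate ContDiff

variable {N : ℕ}

/-! ### entries -/

theorem crd_gg00 (z : ℍ) (a : ℝ) :
    gg z a 0 0 = √z.im * Real.cos a - z.re * Real.sin a / √z.im := rfl

theorem crd_gg01 (z : ℍ) (a : ℝ) :
    gg z a 0 1 = √z.im * Real.sin a + z.re * Real.cos a / √z.im := rfl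

theorem crd_gg10 (z : ℍ) (a : ℝ) : gg z a 1 0 = -Real.sin a / √z.im := rfl

theorem crd_gg11 (z : ℍ) (a : ℝ) : gg z a 1 1 = Real.cos a / √z.im := rfl

theorem crd_mul_apply (g h : SL(2, ℝ)) (i j : Fin 2) :
    (g * h) i j = g i 0 * h 0 j + g i 1 * h 1 j := by
  rw [Matrix.SpecialLinearGroup.coe_mul, Matrix.mul_apply, Fin.sum_univ_two]

theorem crd_ext {g h : SL(2, ℝ)} (h00 : g 0 0 = h 0 0) (h01 : g 0 1 = h 0 1)
    (h10 : g 1 0 = h 1 0) (h11 : g 1 1 = h 1 1) : g = h := by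
  ext i j
  fin_cases i <;> fin_cases j
  · exact h00
  · exact h01
  · exact h10
  · exact h11

theorem crd_det (g : SL(2, ℝ)) : g 0 0 * g 1 1 - g 0 1 * g 1 0 = 1 := by
  have := g.2
  rw [Matrix.det_fin_two] at this
  exact this

/-- `c z + d` -/
noncomputable def crdj (g : SL(2, ℝ)) (z : ℍ) : ℂ :=
  ((g 1 0 : ℝ) : ℂ) * (z : ℂ) + ((g 1 1 : ℝ) : ℂ)

theorem crd_smul_coe (g : SL(2, ℝ)) (z : ℍ) :
    ((g • z : ℍ) : ℂ) = (((g 0 0 : ℝ) : ℂ) * (z : ℂ) + ((g 0 1 : ℝ) : ℂ)) / crdj g z := by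
  rw [UpperHalfPlane.coe_specialLinearGroup_apply]
  rfl

theorem crdj_ne (g : SL(2, ℝ)) (z : ℍ) : crdj g z ≠ 0 := by
  intro h
  rw [crdj] at h
  have h1 := congrArg Complex.im h
  have h2 := congrArg Complex.re h
  simp only [Complex.add_im, Complex.mul_im, Complex.ofReal_re, Complex.ofReal_im, zero_mul,
    add_zero, Complex.zero_im, UpperHalfPlane.coe_im, Complex.add_re, Complex.mul_re, sub_zero,
    Complex.zero_re, UpperHalfPlane.coe_re] at h1 h2
  have h3 : g 1 0 = 0 := by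
    rcases mul_eq_zero.1 h1 with h | h
    · exact h
    · exact absurd h z.im_pos.ne'
  rw [h3, zero_mul, zero_add] at h2
  have h4 := crd_det g
  rw [h3, h2] at h4
  simp at h4

/-- the rotation on the right -/
theorem crd_rot (z : ℍ) (b : ℝ) (r : SL(2, ℝ)) (a : ℝ) (h00 : r 0 0 = Real.cos a)
    (h01 : r 0 1 = Real.sin a) (h10 : r 1 0 = -Real.sin a) (h11 : r 1 1 = Real.cos a) :
    gg z b * r = gg z (a + b) := by
  have hs0 : √z.im ≠ 0 := (Real.sqrt_pos.2 z.im_pos).ne'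
  apply crd_ext
  · rw [crd_mul_apply, h00, h10, crd_gg00, crd_gg01, crd_gg00, Real.cos_add, Real.sin_add]
    field_simp
    ring
  · rw [crd_mul_apply, h01, h11, crd_gg00, crd_gg01, crd_gg01, Real.cos_add, Real.sin_add]
    field_simp
    ring
  · rw [crd_mul_apply, h00, h10, crd_gg10, crd_gg11, crd_gg10, Real.sin_add]
    field_simp
    ring
  · rw [crd_mul_apply, h01, h11, crd_gg10, crd_gg11, crd_gg11, Real.cos_add]
    field_simp
    ring

theorem gg_I (z : ℍ) (a : ℝ) : gg z a • UpperHalfPlane.I = z := by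
  apply UpperHalfPlane.ext
  have h := crd_smul_coe (gg z a) UpperHalfPlane.I
  have hne := crdj_ne (gg z a) UpperHalfPlane.I
  rw [h, div_eq_iff hne, crdj, UpperHalfPlane.coe_I, crd_gg00, crd_gg01, crd_gg10, crd_gg11]
  have hy : 0 < z.im := z.im_pos
  have hs : (√z.im) * (√z.im) = z.im := Real.mul_self_sqrt hy.le
  have hs0 : √z.im ≠ 0 := (Real.sqrt_pos.2 hy).ne'
  have hz : (z : ℂ) = (z.re : ℂ) + (z.im : ℂ) * Complex.I := by
    apply Complex.ext <;> simp
  have hs0' : ((√z.im : ℝ) : ℂ) ≠ 0 := by exact_mod_cast hs0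
  have hsC : ((√z.im : ℝ) : ℂ) * ((√z.im : ℝ) : ℂ) = (z.im : ℂ) := by exact_mod_cast hs
  rw [hz]
  push_cast
  field_simp
  linear_combination (Complex.I * Complex.cos a + Complex.sin a) * hsC +
    (z.im : ℂ) * Complex.sin a * Complex.I_sq

theorem crd_normSq (g : SL(2, ℝ)) : 0 < g 1 0 ^ 2 + g 1 1 ^ 2 := by
  rcases eq_or_ne (g 1 0) 0 with h | h
  · have h2 : g 1 1 ≠ 0 := by
      intro h3
      have h4 := crd_det g
      rw [h, h3] at h4
      simp at h4
    positivity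
  · positivity

theorem crd_smul_I (g : SL(2, ℝ)) :
    (g • UpperHalfPlane.I : ℍ).im = (g 1 0 ^ 2 + g 1 1 ^ 2)⁻¹ ∧
      (g • UpperHalfPlane.I : ℍ).re =
        (g 0 0 * g 1 0 + g 0 1 * g 1 1) * (g 1 0 ^ 2 + g 1 1 ^ 2)⁻¹ := by
  have h := crd_smul_coe g UpperHalfPlane.I
  rw [crdj, UpperHalfPlane.coe_I] at h
  have hD := crd_normSq g
  have hdet := crd_det g
  have h2 : ((g 1 0 : ℝ) : ℂ) * Complex.I + ((g 1 1 : ℝ) : ℂ) ≠ 0 := by
    have := crdj_ne g UpperHalfPlane.I
    rwa [crdj, UpperHalfPlane.coe_I] at this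
  have h3 : ((g • UpperHalfPlane.I : ℍ) : ℂ) =
      (((g 0 0 * g 1 0 + g 0 1 * g 1 1) * (g 1 0 ^ 2 + g 1 1 ^ 2)⁻¹ : ℝ) : ℂ) +
        (((g 1 0 ^ 2 + g 1 1 ^ 2)⁻¹ : ℝ) : ℂ) * Complex.I := by
    rw [h, div_eq_iff h2]
    have h4 : ((g 1 0 : ℝ) : ℂ) ^ 2 + ((g 1 1 : ℝ) : ℂ) ^ 2 ≠ 0 := by exact_mod_cast hD.ne'
    have h5 : ((g 0 0 : ℝ) : ℂ) * ((g 1 1 : ℝ) : ℂ) - ((g 0 1 : ℝ) : ℂ) * ((g 1 0 : ℝ) : ℂ) = 1 := by
      exact_mod_cast hdet
    push_cast
    field_simp
    linear_combination (Complex.I * ((g 1 1 : ℝ) : ℂ) - ((g 1 0 : ℝ) : ℂ)) * h5 -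
      ((g 1 0 : ℝ) : ℂ) * Complex.I_sq
  constructor
  · have := congrArg Complex.im h3
    rw [Complex.add_im, Complex.ofReal_im, Complex.im_ofReal_mul, Complex.I_im, mul_one,
      zero_add] at this
    exact this
  · have := congrArg Complex.re h3
    rw [Complex.add_re, Complex.ofReal_re, Complex.re_ofReal_mul, Complex.I_re, mul_zero,
      add_zero] at this
    exact this

theorem gg_surj (g : SL(2, ℝ)) : ∃ a ∈ Set.Ioc (0 : ℝ) (2 * Real.pi),
    gg (g • UpperHalfPlane.I) a = g := by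
  have hD := crd_normSq g
  have hdet := crd_det g
  obtain ⟨him, hre⟩ := crd_smul_I g
  set z : ℍ := g • UpperHalfPlane.I with hz
  have hy : 0 < z.im := z.im_pos
  have hs : (√z.im) * (√z.im) = z.im := Real.mul_self_sqrt hy.le
  have hs0 : 0 < √z.im := Real.sqrt_pos.2 hy
  set w : ℂ := (((√z.im * g 1 1 : ℝ) : ℂ)) + (((-(√z.im * g 1 0) : ℝ) : ℂ)) * Complex.I with hw
  have hwn : ‖w‖ = 1 := by
    have h1 : ‖w‖ ^ 2 = 1 := by
      rw [← Complex.normSq_eq_norm_sq, Complex.normSq_apply, hw]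
      simp only [Complex.add_re, Complex.ofReal_re, Complex.mul_re, Complex.I_re, mul_zero,
        Complex.ofReal_im, Complex.I_im, mul_one, sub_self, add_zero, Complex.add_im,
        Complex.mul_im, zero_add]
      have h2 : z.im * (g 1 0 ^ 2 + g 1 1 ^ 2) = 1 := by
        rw [him, inv_mul_cancel₀ hD.ne']
      linear_combination h2 + (g 1 0 ^ 2 + g 1 1 ^ 2) * hs
    have h3 : 0 ≤ ‖w‖ := norm_nonneg _
    nlinarith
  -- the angle
  set a : ℝ := toIocMod Real.two_pi_pos 0 w.arg with ha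
  have ha1 : a ∈ Set.Ioc (0 : ℝ) (2 * Real.pi) := by
    have := toIocMod_mem_Ioc Real.two_pi_pos 0 w.arg
    rwa [zero_add] at this
  have ha2 : cexp (a * Complex.I) = w := by
    have h1 : a = w.arg - (toIocDiv Real.two_pi_pos 0 w.arg) * (2 * Real.pi) := by
      rw [ha, toIocMod, zsmul_eq_mul]
    have h2 : cexp (a * Complex.I) = cexp (w.arg * Complex.I) := by
      rw [h1, Complex.exp_eq_exp_iff_exists_int]
      refine ⟨-(toIocDiv Real.two_pi_pos 0 w.arg), ?_⟩
      push_cast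
      ring
    rw [h2]
    have h3 := Complex.norm_mul_exp_arg_mul_I w
    rwa [hwn, Complex.ofReal_one, one_mul] at h3
  have hcos : Real.cos a = √z.im * g 1 1 := by
    have := congrArg Complex.re ha2
    rw [Complex.exp_ofReal_mul_I_re, hw] at this
    simpa using this
  have hsin : Real.sin a = -(√z.im * g 1 0) := by
    have := congrArg Complex.im ha2
    rw [Complex.exp_ofReal_mul_I_im, hw] at this
    simpa using this
  refine ⟨a, ha1, ?_⟩
  have hs1 : √z.im ≠ 0 := hs0.ne'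
  have h10 : g 1 0 ^ 2 + g 1 1 ^ 2 ≠ 0 := hD.ne'
  apply crd_ext
  · rw [crd_gg00, hcos, hsin]
    have e : √z.im * (√z.im * g 1 1) - z.re * -(√z.im * g 1 0) / √z.im =
        z.im * g 1 1 + z.re * g 1 0 := by
      field_simp
      linear_combination g 1 1 * hs
    rw [e, him, hre]
    field_simp
    linear_combination (-g 1 1) * hdet
  · rw [crd_gg01, hcos, hsin]
    have e : √z.im * -(√z.im * g 1 0) + z.re * (√z.im * g 1 1) / √z.im =
        -(z.im * g 1 0) + z.re * g 1 1 := by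
      field_simp
      linear_combination (-g 1 0) * hs
    rw [e, him, hre]
    field_simp
    linear_combination (g 1 0) * hdet
  · rw [crd_gg10, hsin]
    field_simp
  · rw [crd_gg11, hcos]
    field_simp

theorem gg_mul (g : SL(2, ℝ)) (z : ℍ) :
    ∃ b : ℝ, ∀ a : ℝ, g * gg z a = gg (g • z) (a + b) := by
  obtain ⟨b, -, hb⟩ := gg_surj (g * gg z 0)
  rw [mul_smul, gg_I] at hb
  refine ⟨b, fun a => ?_⟩
  set r : SL(2, ℝ) := ⟨!![Real.cos a, Real.sin a; -Real.sin a, Real.cos a], by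
    rw [Matrix.det_fin_two_of]
    nlinarith [Real.sin_sq_add_cos_sq a]⟩ with hr
  have h1 : gg z 0 * r = gg z a := by
    have := crd_rot z 0 r a rfl rfl rfl rfl
    rwa [add_zero] at this
  rw [← h1, ← mul_assoc, ← hb]
  exact crd_rot (g • z) b r a rfl rfl rfl rfl

theorem gg_per (z : ℍ) (a : ℝ) :
    gg z (a + 2 * Real.pi) = gg z a ∧ gg z (a + Real.pi) = -gg z a := by
  constructor
  · apply crd_ext <;>
    simp only [crd_gg00, crd_gg01, crd_gg10, crd_gg11, Real.cos_add_two_pi, Real.sin_add_two_pi]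
  · have hneg : ∀ i j : Fin 2, (-gg z a) i j = -(gg z a i j) := fun i j => by
      rw [Matrix.SpecialLinearGroup.coe_neg, Matrix.neg_apply]
    apply crd_ext
    · rw [hneg, crd_gg00, crd_gg00, Real.cos_add_pi, Real.sin_add_pi]
      ring
    · rw [hneg, crd_gg01, crd_gg01, Real.cos_add_pi, Real.sin_add_pi]
      ring
    · rw [hneg, crd_gg10, crd_gg10, Real.sin_add_pi]
      ring
    · rw [hneg, crd_gg11, crd_gg11, Real.cos_add_pi]
      ring

theorem gg_cont : Continuous (fun p : ℍ × ℝ => gg p.1 p.2) := by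
  have hre : Continuous fun p : ℍ × ℝ => p.1.re := UpperHalfPlane.continuous_re.comp continuous_fst
  have him : Continuous fun p : ℍ × ℝ => √p.1.im :=
    Real.continuous_sqrt.comp (UpperHalfPlane.continuous_im.comp continuous_fst)
  have hc : Continuous fun p : ℍ × ℝ => Real.cos p.2 := Real.continuous_cos.comp continuous_snd
  have hs : Continuous fun p : ℍ × ℝ => Real.sin p.2 := Real.continuous_sin.comp continuous_snd
  have hne : ∀ p : ℍ × ℝ, √p.1.im ≠ 0 := fun p => (Real.sqrt_pos.2 p.1.im_pos).ne'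
  refine Continuous.subtype_mk (continuous_matrix fun i j => ?_) _
  fin_cases i <;> fin_cases j
  · exact (him.mul hc).sub ((hre.mul hs).div him hne)
  · exact (him.mul hs).add ((hre.mul hc).div him hne)
  · exact hs.neg.div him hne
  · exact hc.div him hne

/-! ### the coordinates `gx` -/

theorem crd_gx {x : ℂ} (hx : x ≠ 0) (t : ℝ) :
    gx x t 0 0 = x.im / Complex.normSq x + t * x.re ∧
    gx x t 0 1 = -x.re / Complex.normSq x + t * x.im ∧
    gx x t 1 0 = x.re ∧ gx x t 1 1 = x.im := by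
  have h : Complex.normSq x ≠ 0 := by
    rwa [Ne, Complex.normSq_eq_zero]
  have e : gx x t = ⟨!![x.im / Complex.normSq x + t * x.re, -x.re / Complex.normSq x + t * x.im;
      x.re, x.im], by
    rw [Matrix.det_fin_two_of]
    have h2 : Complex.normSq x = x.re * x.re + x.im * x.im := Complex.normSq_apply x
    field_simp
    rw [h2]
    ring⟩ := dif_neg hx
  rw [e]
  exact ⟨rfl, rfl, rfl, rfl⟩

theorem gx_eq_gg (z : ℍ) (a : ℝ) :
    gg z a = gx (Complex.I * cexp (a * Complex.I) / ((√z.im : ℝ) : ℂ)) z.re := by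
  have hy : 0 < z.im := z.im_pos
  have hs : (√z.im) * (√z.im) = z.im := Real.mul_self_sqrt hy.le
  have hs0 : √z.im ≠ 0 := (Real.sqrt_pos.2 hy).ne'
  have hs0' : ((√z.im : ℝ) : ℂ) ≠ 0 := by exact_mod_cast hs0
  set x : ℂ := Complex.I * cexp (a * Complex.I) / ((√z.im : ℝ) : ℂ) with hx
  have hx0 : x ≠ 0 := div_ne_zero (mul_ne_zero Complex.I_ne_zero (Complex.exp_ne_zero _)) hs0'
  have hre : x.re = -Real.sin a / √z.im := by
    rw [hx, Complex.div_ofReal_re, Complex.mul_re, Complex.exp_ofReal_mul_I_re,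
      Complex.exp_ofReal_mul_I_im, Complex.I_re, Complex.I_im]
    ring
  have him : x.im = Real.cos a / √z.im := by
    rw [hx, Complex.div_ofReal_im, Complex.mul_im, Complex.exp_ofReal_mul_I_re,
      Complex.exp_ofReal_mul_I_im, Complex.I_re, Complex.I_im]
    ring
  have hn : Complex.normSq x = (z.im)⁻¹ := by
    rw [Complex.normSq_apply, hre, him]
    calc -Real.sin a / √z.im * (-Real.sin a / √z.im) + Real.cos a / √z.im * (Real.cos a / √z.im)
        = (Real.sin a ^ 2 + Real.cos a ^ 2) / (√z.im * √z.im) := by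
          field_simp
      _ = (z.im)⁻¹ := by rw [Real.sin_sq_add_cos_sq, hs, one_div]
  obtain ⟨h00, h01, h10, h11⟩ := crd_gx hx0 z.re
  apply crd_ext
  · rw [h00, crd_gg00, hn, hre, him]
    field_simp
    linear_combination (Real.cos a) * hs
  · rw [h01, crd_gg01, hn, hre, him]
    field_simp
    linear_combination (Real.sin a) * hs
  · rw [h10, crd_gg10, hre]
  · rw [h11, crd_gg11, him]

theorem gx_T (x : ℂ) (hx : x ≠ 0) (t : ℝ) (j : ℤ) :
    toR (ModularGroup.T ^ j) * gx x t = gx x (t + j) := by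
  obtain ⟨h00, h01, h10, h11⟩ := crd_gx hx t
  obtain ⟨k00, k01, k10, k11⟩ := crd_gx hx (t + j)
  have e : ∀ i l : Fin 2, toR (ModularGroup.T ^ j) i l = (((ModularGroup.T ^ j) i l : ℤ) : ℝ) :=
    fun i l => rfl
  have m : ∀ i l : Fin 2, (ModularGroup.T ^ j) i l = (!![1, j; 0, 1] : Matrix (Fin 2) (Fin 2) ℤ) i l := by
    intro i l
    rw [← ModularGroup.coe_T_zpow]
  apply crd_ext
  · rw [crd_mul_apply, e, e, m, m, h00, h10, k00]
    simp
    ring
  · rw [crd_mul_apply, e, e, m, m, h01, h11, k01]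
    simp
    ring
  · rw [crd_mul_apply, e, e, m, m, h00, h10, k10]
    simp
  · rw [crd_mul_apply, e, e, m, m, h01, h11, k11]
    simp

theorem gx_neg (x : ℂ) (hx : x ≠ 0) (t : ℝ) : gx (-x) t = -gx x t := by
  obtain ⟨h00, h01, h10, h11⟩ := crd_gx hx t
  obtain ⟨k00, k01, k10, k11⟩ := crd_gx (neg_ne_zero.2 hx) t
  have hneg : ∀ i j : Fin 2, (-gx x t) i j = -(gx x t i j) := fun i j => by
    rw [Matrix.SpecialLinearGroup.coe_neg, Matrix.neg_apply]
  rw [Complex.normSq_neg, Complex.neg_im, Complex.neg_re] at k00 k01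
  rw [Complex.neg_re] at k10
  rw [Complex.neg_im] at k11
  apply crd_ext
  · rw [hneg, k00, h00]
    ring
  · rw [hneg, k01, h01]
    ring
  · rw [hneg, k10, h10]
  · rw [hneg, k11, h11]

theorem gx_cont : ContinuousOn (fun q : ℂ × ℝ => gx q.1 q.2) {q | q.1 ≠ 0} := by
  rw [continuousOn_iff_continuous_domRestrict]
  have hre : Continuous fun q : {q : ℂ × ℝ | q.1 ≠ 0} => q.1.1.re :=
    Complex.continuous_re.comp (continuous_fst.comp continuous_subtype_val)
  have him : Continuous fun q : {q : ℂ × ℝ | q.1 ≠ 0} => q.1.1.im :=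
    Complex.continuous_im.comp (continuous_fst.comp continuous_subtype_val)
  have hn : Continuous fun q : {q : ℂ × ℝ | q.1 ≠ 0} => Complex.normSq q.1.1 :=
    Complex.continuous_normSq.comp (continuous_fst.comp continuous_subtype_val)
  have ht : Continuous fun q : {q : ℂ × ℝ | q.1 ≠ 0} => q.1.2 :=
    continuous_snd.comp continuous_subtype_val
  have hn0 : ∀ q : {q : ℂ × ℝ | q.1 ≠ 0}, Complex.normSq q.1.1 ≠ 0 := fun q => by
    rw [Ne, Complex.normSq_eq_zero]
    exact q.2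
  refine continuous_induced_rng.2 (continuous_matrix fun i j => ?_)
  fin_cases i <;> fin_cases j
  · refine ((him.div hn hn0).add (ht.mul hre)).congr fun q => ?_
    exact (crd_gx q.2 q.1.2).1.symm
  · refine ((hre.neg.div hn hn0).add (ht.mul him)).congr fun q => ?_
    exact (crd_gx q.2 q.1.2).2.1.symm
  · refine hre.congr fun q => ?_
    exact (crd_gx q.2 q.1.2).2.2.1.symm
  · refine him.congr fun q => ?_
    exact (crd_gx q.2 q.1.2).2.2.2.symm

end Pool.Agent.JO
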