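import Pool.Agent.Lib_helper63.JO.Defs2
import Pool.Agent.Lib_helper63.JOE.CRD
/-!
# Block CF1: first properties of the constant term
-/

namespace Pool.Agent.JO

open Complex MeasureTheory Filter Topology UpperHalfPlane ModularGroup
open scoped MatrixGroups Modular ENNReal ComplexConjugate ContDiff

variable {N : ℕ}

/-! ## measurability -/

/-- the point `t + i/|x|²` -/
noncomputable def cf1_z (x : ℂ) (t : ℝ) : ℍ :=
  ⟨(t : ℂ) + ((if x = 0 then 1 else (Complex.normSq x)⁻¹ : ℝ) : ℂ) * Complex.I, by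
    have h : (0 : ℝ) < if x = 0 then 1 else (Complex.normSq x)⁻¹ := by
      split_ifs with h
      · exact one_pos
      · exact inv_pos.2 (Complex.normSq_pos.2 h)
    simpa using h⟩

theorem cf1_z_meas : Measurable (fun q : ℂ × ℝ => cf1_z q.1 q.2) := by
  rw [← measurableEmbedding_coe.measurable_comp_iff]
  have h1 : Measurable (fun q : ℂ × ℝ => (if q.1 = 0 then (1 : ℝ) else (Complex.normSq q.1)⁻¹)) := by
    refine Measurable.ite ?_ measurable_const ?_
    · exact measurable_fst (measurableSet_singleton (0 : ℂ))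
    · exact ((Complex.continuous_normSq.measurable.comp measurable_fst)).inv
  have h2 : Measurable (fun q : ℂ × ℝ => ((q.2 : ℝ) : ℂ) +
      (((if q.1 = 0 then (1 : ℝ) else (Complex.normSq q.1)⁻¹) : ℝ) : ℂ) * Complex.I) :=
    (Complex.measurable_ofReal.comp measurable_snd).add
      ((Complex.measurable_ofReal.comp h1).mul measurable_const)
  exact h2

theorem cf1_gx {x : ℂ} (hx : x ≠ 0) (t : ℝ) :
    gx x t = gg (cf1_z x t) (Complex.arg (-Complex.I * x)) := by
  have him : (cf1_z x t).im = (Complex.normSq x)⁻¹ := by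
    show ((t : ℂ) + ((if x = 0 then 1 else (Complex.normSq x)⁻¹ : ℝ) : ℂ) * Complex.I).im = _
    rw [if_neg hx]
    simp
  have hre : (cf1_z x t).re = t := by
    show ((t : ℂ) + ((if x = 0 then 1 else (Complex.normSq x)⁻¹ : ℝ) : ℂ) * Complex.I).re = _
    simp
  rw [gx_eq_gg, hre, him]
  congr 1
  have hs : √((Complex.normSq x)⁻¹) = ‖x‖⁻¹ := by
    rw [Real.sqrt_inv, Complex.normSq_eq_norm_sq, Real.sqrt_sq (norm_nonneg x)]
  rw [hs]
  have h2 : (‖-Complex.I * x‖ : ℂ) * cexp (Complex.arg (-Complex.I * x) * Complex.I) =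
      -Complex.I * x := Complex.norm_mul_exp_arg_mul_I _
  have h3 : ‖-Complex.I * x‖ = ‖x‖ := by
    rw [norm_mul, norm_neg, Complex.norm_I, one_mul]
  rw [h3] at h2
  rw [Complex.ofReal_inv, div_inv_eq_mul]
  calc x = Complex.I * (-Complex.I * x) := by
        rw [← mul_assoc, mul_neg, Complex.I_mul_I, neg_neg, one_mul]
    _ = Complex.I * ((‖x‖ : ℂ) * cexp (Complex.arg (-Complex.I * x) * Complex.I)) := by rw [h2]
    _ = _ := by ring

theorem CF_meas [NeZero N] {F : QN N → SL(2, ℝ) → ℂ} (hF : MF F) (v : ZMod N × ZMod N) :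
    Measurable (fun x : ℂ => if x = 0 then 0 else CF F x v) := by
  have hm : ∀ s : QN N, Measurable (fun q : ℂ × ℝ =>
      F s (gg (cf1_z q.1 q.2) (Complex.arg (-Complex.I * q.1)))) := by
    intro s
    have h0 : Measurable (fun q : ℂ × ℝ => -Complex.I * q.1) :=
      (measurable_const_mul (-Complex.I)).comp measurable_fst
    have h1 : Measurable (fun q : ℂ × ℝ => Complex.arg (-Complex.I * q.1)) :=
      Complex.measurable_arg.comp h0
    have h2 : Measurable (fun q : ℂ × ℝ => (cf1_z q.1 q.2, Complex.arg (-Complex.I * q.1))) :=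
      cf1_z_meas.prodMk h1
    have h3 : Measurable (fun p : ℍ × ℝ => F s (gg p.1 p.2)) := hF.2 s
    have h4 : Measurable ((fun p : ℍ × ℝ => F s (gg p.1 p.2)) ∘
      (fun q : ℂ × ℝ => (cf1_z q.1 q.2, Complex.arg (-Complex.I * q.1)))) := h3.comp h2
    have h5 : ((fun p : ℍ × ℝ => F s (gg p.1 p.2)) ∘
      (fun q : ℂ × ℝ => (cf1_z q.1 q.2, Complex.arg (-Complex.I * q.1)))) =
      fun q : ℂ × ℝ => F s (gg (cf1_z q.1 q.2) (Complex.arg (-Complex.I * q.1))) := rfl
    rw [h5] at h4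
    exact h4
  have hi : ∀ s : QN N, Measurable (fun x : ℂ => if bot s = v then
      ∫ t in (0 : ℝ)..1, F s (gg (cf1_z x t) (Complex.arg (-Complex.I * x))) else 0) := by
    intro s
    by_cases hs : bot s = v
    · simp only [if_pos hs]
      simp only [intervalIntegral.integral_of_le zero_le_one]
      exact ((hm s).stronglyMeasurable.integral_prod_right
        (ν := volume.restrict (Set.Ioc (0 : ℝ) 1))).measurable
    · simp only [if_neg hs]
      exact measurable_const
  have hs : Measurable (fun x : ℂ => (N : ℂ)⁻¹ * ∑ s : QN N, if bot s = v then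
      ∫ t in (0 : ℝ)..1, F s (gg (cf1_z x t) (Complex.arg (-Complex.I * x))) else 0) :=
    (Finset.measurable_sum _ fun s _ => hi s).const_mul _
  have he : (fun x : ℂ => if x = 0 then 0 else CF F x v) = fun x : ℂ => if x = 0 then 0 else
      ((N : ℂ)⁻¹ * ∑ s : QN N, if bot s = v then
        ∫ t in (0 : ℝ)..1, F s (gg (cf1_z x t) (Complex.arg (-Complex.I * x))) else 0) := by
    funext x
    by_cases hx : x = 0
    · rw [if_pos hx, if_pos hx]
    · rw [if_neg hx, if_neg hx, CF]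
      congr 1
      refine Finset.sum_congr rfl fun s _ => ?_
      congr 1
      refine intervalIntegral.integral_congr fun t _ => ?_
      show F s (gx x t) = _
      rw [cf1_gx hx]
  rw [he]
  exact Measurable.ite (measurableSet_singleton (0 : ℂ)) measurable_const hs

/-! ## evenness -/

theorem cf1_red_neg : red N (-1) = -1 := by
  ext i j
  simp [red]

theorem cf1_toR_neg : toR (-1) = -1 := by
  ext i j
  simp [toR]

theorem cf1_neg {F : QN N → SL(2, ℝ) → ℂ} (hF : Fam F) (s : QN N) (g : SL(2, ℝ)) :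
    F s (-g) = F (-s) g := by
  have h := hF (-1) (-s) g
  rw [cf1_red_neg, cf1_toR_neg, neg_one_mul, neg_neg, neg_one_mul] at h
  exact h

theorem cf1_bot_neg (s : QN N) : bot (-s) = -bot s := by
  simp [bot]

theorem CF_even [NeZero N] {F : QN N → SL(2, ℝ) → ℂ} (hF : Fam F) {x : ℂ} (hx : x ≠ 0)
    (v : ZMod N × ZMod N) : CF F (-x) (-v) = CF F x v := by
  unfold CF
  congr 1
  rw [← Equiv.sum_comp (Equiv.neg (QN N))]
  refine Finset.sum_congr rfl fun s _ => ?_
  rw [Equiv.neg_apply, cf1_bot_neg]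
  have h1 : (-bot s = -v) = (bot s = v) := propext neg_inj
  simp only [h1]
  congr 1
  refine intervalIntegral.integral_congr fun t _ => ?_
  show F (-s) (gx (-x) t) = F s (gx x t)
  rw [gx_neg x hx, cf1_neg hF, neg_neg]

/-! ## the elements with given bottom row -/

/-- `(1 j; 0 1)` -/
def cf1_u (j : ZMod N) : QN N := ⟨!![1, j; 0, 1], by rw [Matrix.det_fin_two_of]; ring⟩

theorem cf1_bot_u (j : ZMod N) (s : QN N) : bot (cf1_u j * s) = bot s := by
  have h : ∀ i, (cf1_u j * s) 1 i = s 1 i := by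
    intro i
    rw [Matrix.SpecialLinearGroup.coe_mul, Matrix.mul_apply, Fin.sum_univ_two]
    show (0 : ZMod N) * s 0 i + 1 * s 1 i = s 1 i
    ring
  show ((cf1_u j * s) 1 0, (cf1_u j * s) 1 1) = (s 1 0, s 1 1)
  rw [h, h]

theorem cf1_u_inj (s : QN N) : Function.Injective (fun j => cf1_u j * s) := by
  intro i j h
  have h2 : cf1_u i = cf1_u j := mul_right_cancel h
  have h3 := congrArg (fun g : QN N => g 0 1) h2
  simpa [cf1_u] using h3

theorem cf1_u_surj {s s' : QN N} (h : bot s' = bot s) : ∃ j, cf1_u j * s = s' := by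
  refine ⟨(s' * s⁻¹) 0 1, ?_⟩
  have h1 : (s' * s⁻¹) 1 0 = 0 := by
    have e1 : s' 1 0 = s 1 0 := congrArg Prod.fst h
    have e2 : s' 1 1 = s 1 1 := congrArg Prod.snd h
    rw [Matrix.SpecialLinearGroup.coe_mul, Matrix.mul_apply, Fin.sum_univ_two,
      Matrix.SpecialLinearGroup.coe_inv, Matrix.adjugate_fin_two, e1, e2]
    simp
    ring
  have h2 : (s' * s⁻¹) 1 1 = 1 := by
    have e1 : s' 1 0 = s 1 0 := congrArg Prod.fst h
    have e2 : s' 1 1 = s 1 1 := congrArg Prod.snd h
    have hd : s 0 0 * s 1 1 - s 0 1 * s 1 0 = 1 := by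
      have := s.det_coe
      rwa [Matrix.det_fin_two] at this
    rw [Matrix.SpecialLinearGroup.coe_mul, Matrix.mul_apply, Fin.sum_univ_two,
      Matrix.SpecialLinearGroup.coe_inv, Matrix.adjugate_fin_two, e1, e2]
    simp
    linear_combination hd
  have h3 : (s' * s⁻¹) 0 0 = 1 := by
    have hd : (s' * s⁻¹) 0 0 * (s' * s⁻¹) 1 1 - (s' * s⁻¹) 0 1 * (s' * s⁻¹) 1 0 = 1 := by
      have := (s' * s⁻¹).det_coe
      rwa [Matrix.det_fin_two] at this
    rw [h1, h2] at hd
    linear_combination hd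
  have h4 : cf1_u ((s' * s⁻¹) 0 1) = s' * s⁻¹ := by
    ext i j
    fin_cases i <;> fin_cases j
    · exact h3.symm
    · rfl
    · exact h1.symm
    · exact h2.symm
  rw [h4, inv_mul_cancel_right]

/-- sums over the elements with given bottom row -/
theorem cf1_sum [NeZero N] (s : QN N) (f : QN N → ℂ) :
    ∑ s' : QN N, (if bot s' = bot s then f s' else 0) = ∑ j : ZMod N, f (cf1_u j * s) := by
  rw [← Finset.sum_filter]
  symm
  refine Finset.sum_bij (fun j _ => cf1_u j * s) ?_ ?_ ?_ ?_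
  · intro j _
    exact Finset.mem_filter.2 ⟨Finset.mem_univ _, cf1_bot_u j s⟩
  · intro i _ j _ h
    exact cf1_u_inj s h
  · intro s' hs'
    obtain ⟨j, hj⟩ := cf1_u_surj (Finset.mem_filter.1 hs').2
    exact ⟨j, Finset.mem_univ _, hj⟩
  · intro j _
    rfl

theorem CF_one [NeZero N] {x : ℂ} {v : ZMod N × ZMod N} (hv : v ∈ PV N) :
    CF (fun (_ : QN N) _ => (1 : ℂ)) x v = 1 := by
  obtain ⟨s, -, rfl⟩ := Finset.mem_image.1 hv
  have hN : (N : ℂ) ≠ 0 := Nat.cast_ne_zero.2 (NeZero.ne N)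
  rw [CF, cf1_sum s (fun _ => ∫ t in (0 : ℝ)..1, (1 : ℂ))]
  rw [intervalIntegral.integral_const, sub_zero, one_smul, Finset.sum_const, Finset.card_univ,
    ZMod.card, nsmul_eq_mul, mul_one, inv_mul_cancel₀ hN]

/-! ## the constant term as an average of one component -/

theorem cf1_red_T (n : ℤ) : red N (ModularGroup.T ^ n) = cf1_u (n : ZMod N) := by
  ext i j
  rw [red, Matrix.SpecialLinearGroup.map_apply_coe, ModularGroup.coe_T_zpow]
  fin_cases i <;> fin_cases j <;> simp [cf1_u]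

theorem cf1_shift {F : QN N → SL(2, ℝ) → ℂ} (hF : Fam F) {x : ℂ} (hx : x ≠ 0) (s : QN N) (n : ℕ)
    (t : ℝ) : F (cf1_u (-(n : ZMod N)) * s) (gx x t) = F s (gx x (t + n)) := by
  have h := hF (ModularGroup.T ^ (-(n : ℤ))) s (gx x (t + n))
  rw [gx_T x hx, cf1_red_T] at h
  rw [← h]
  congr 2
  · push_cast
    rfl
  · push_cast
    ring_nf

theorem CF_eq [NeZero N] {F : QN N → SL(2, ℝ) → ℂ} (hF : Fam F) {x : ℂ} (hx : x ≠ 0) (s : QN N)
    (hi : ∀ s' : QN N, IntervalIntegrable (fun t => F s' (gx x t)) volume 0 1) :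
    CF F x (bot s) = (N : ℂ)⁻¹ * ∫ t in (0 : ℝ)..N, F s (gx x t) := by
  rw [CF, cf1_sum s (fun s' => ∫ t in (0 : ℝ)..1, F s' (gx x t))]
  congr 1
  have h1 : ∑ j : ZMod N, ∫ t in (0 : ℝ)..1, F (cf1_u j * s) (gx x t) =
      ∑ n ∈ Finset.range N, ∫ t in (0 : ℝ)..1, F s (gx x (t + n)) := by
    rw [← Equiv.sum_comp (Equiv.neg (ZMod N))]
    symm
    refine Finset.sum_bij (fun n _ => (n : ZMod N)) (fun _ _ => Finset.mem_univ _) ?_ ?_ ?_
    · intro i hi j hj hij
      have h2 := (ZMod.natCast_eq_natCast_iff' i j N).1 hij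
      rwa [Nat.mod_eq_of_lt (Finset.mem_range.1 hi), Nat.mod_eq_of_lt (Finset.mem_range.1 hj)] at h2
    · intro j _
      exact ⟨j.val, Finset.mem_range.2 (ZMod.val_lt j), ZMod.natCast_zmod_val j⟩
    · intro n _
      refine intervalIntegral.integral_congr fun t _ => ?_
      show F s (gx x (t + n)) = F (cf1_u (-(n : ZMod N)) * s) (gx x t)
      rw [cf1_shift hF hx]
  rw [h1]
  have h3 : ∀ n : ℕ, ∫ t in (0 : ℝ)..1, F s (gx x (t + n)) =
      ∫ t in ((n : ℕ) : ℝ)..((n + 1 : ℕ) : ℝ), F s (gx x t) := by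
    intro n
    rw [intervalIntegral.integral_comp_add_right (fun t => F s (gx x t)) (n : ℝ)]
    push_cast
    rw [zero_add, add_comm (1 : ℝ)]
  rw [Finset.sum_congr rfl fun n _ => h3 n, intervalIntegral.sum_integral_adjacent_intervals]
  · rw [Nat.cast_zero]
  · intro n _
    have h4 := hi (cf1_u (-(n : ZMod N)) * s)
    have h5 : (fun t => F (cf1_u (-(n : ZMod N)) * s) (gx x t)) =
        fun t => F s (gx x (t + n)) := funext fun t => cf1_shift hF hx s n t
    rw [h5] at h4
    have h6 := h4.comp_sub_right (n : ℝ)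
    simp only [sub_add_cancel, zero_add] at h6
    push_cast
    rwa [add_comm (n : ℝ)]

end Pool.Agent.JO
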