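import Pool.Agent.Lib_helper63.JO.Defs2
/-! JO part E, block ROW: rows -/

namespace Pool.Agent.JO

open Complex MeasureTheory Filter Topology UpperHalfPlane ModularGroup
open scoped MatrixGroups Modular ENNReal ComplexConjugate ContDiff

variable {N : ℕ}

theorem row_toR (γ : SL(2, ℤ)) (i j : Fin 2) : (toR γ) i j = (γ i j : ℝ) := by
  unfold toR
  simp [Matrix.SpecialLinearGroup.map_apply_coe]

theorem row_red (γ : SL(2, ℤ)) (i j : Fin 2) : (red N γ) i j = (γ i j : ZMod N) := by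
  unfold red
  simp [Matrix.SpecialLinearGroup.map_apply_coe]

theorem row_mul {R : Type} [CommRing R] (A B : SL(2, R)) (i j : Fin 2) :
    (A * B) i j = A i 0 * B 0 j + A i 1 * B 1 j := by
  have : (A * B) i j = (A.1 * B.1) i j := by
    rw [← Matrix.SpecialLinearGroup.coe_mul]
  rw [this, Matrix.mul_apply, Fin.sum_univ_two]

theorem row_det {R : Type} [CommRing R] (A : SL(2, R)) : A 0 0 * A 1 1 - A 0 1 * A 1 0 = 1 := by
  have := A.2
  rwa [Matrix.det_fin_two] at this

theorem rg_toR (γ : SL(2, ℤ)) (v : ℤ × ℤ) (g : SL(2, ℝ)) :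
    rg v (toR γ * g) = rg (v.1 * γ 0 0 + v.2 * γ 1 0, v.1 * γ 0 1 + v.2 * γ 1 1) g := by
  unfold rg
  simp only [row_mul, row_toR]
  congr 1
  · congr 1
    push_cast
    ring
  · congr 2
    push_cast
    ring

theorem rs_red (γ : SL(2, ℤ)) (v : ℤ × ℤ) (s : QN N) :
    rs v (red N γ * s) = rs (v.1 * γ 0 0 + v.2 * γ 1 0, v.1 * γ 0 1 + v.2 * γ 1 1) s := by
  unfold rs
  simp only [row_mul, row_red]
  ext
  · push_cast
    ring
  · push_cast
    ring

theorem rg_sy (u v : ℤ × ℤ) (g : SL(2, ℝ)) :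
    (conj (rg u g) * rg v g).im = u.1 * v.2 - u.2 * v.1 := by
  have hd := row_det g
  have h : (conj (rg u g) * rg v g).im =
      (u.1 * g 0 0 + u.2 * g 1 0) * (v.1 * g 0 1 + v.2 * g 1 1) -
      (u.1 * g 0 1 + u.2 * g 1 1) * (v.1 * g 0 0 + v.2 * g 1 0) := by
    unfold rg
    simp only [Complex.mul_im, Complex.conj_re, Complex.conj_im, Complex.add_re, Complex.add_im,
      Complex.ofReal_re, Complex.ofReal_im, Complex.mul_re, Complex.I_re, Complex.I_im]
    ring
  rw [h]
  linear_combination ((u.1 : ℝ) * v.2 - u.2 * v.1) * hd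

theorem rs_sy (u v : ℤ × ℤ) (s : QN N) :
    sy (rs u s) (rs v s) = ((u.1 * v.2 - u.2 * v.1 : ℤ) : ZMod N) := by
  have hd := row_det s
  unfold sy rs
  push_cast
  linear_combination ((u.1 : ZMod N) * v.2 - u.2 * v.1) * hd

theorem rg_gg (v : ℤ × ℤ) (z : ℍ) (a : ℝ) : rg v (gg z a) =
    Complex.I * cexp (a * Complex.I) * conj ((v.1 : ℂ) * (z : ℂ) + v.2) / ((√z.im : ℝ) : ℂ) := by
  have hy : (0 : ℝ) < √z.im := Real.sqrt_pos.2 z.im_pos
  have hyy : √z.im * √z.im = z.im := Real.mul_self_sqrt z.im_pos.le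
  have hyc : ((√z.im : ℝ) : ℂ) ≠ 0 := by exact_mod_cast hy.ne'
  rw [eq_div_iff hyc]
  have e00 : (gg z a) 0 0 = √z.im * Real.cos a - z.re * Real.sin a / √z.im := rfl
  have e01 : (gg z a) 0 1 = √z.im * Real.sin a + z.re * Real.cos a / √z.im := rfl
  have e10 : (gg z a) 1 0 = -Real.sin a / √z.im := rfl
  have e11 : (gg z a) 1 1 = Real.cos a / √z.im := rfl
  unfold rg
  rw [e00, e01, e10, e11, Complex.exp_mul_I, ← Complex.ofReal_cos, ← Complex.ofReal_sin]
  have hre : (z : ℂ).re = z.re := rfl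
  have him : (z : ℂ).im = z.im := rfl
  apply Complex.ext
  · simp only [Complex.mul_re, Complex.mul_im, Complex.conj_re, Complex.conj_im, Complex.add_re,
      Complex.add_im, Complex.ofReal_re, Complex.ofReal_im, Complex.I_re, Complex.I_im,
      Complex.intCast_re, Complex.intCast_im, hre, him]
    field_simp
    linear_combination (v.1 : ℝ) * Real.cos a * √z.im * hyy
  · simp only [Complex.mul_re, Complex.mul_im, Complex.conj_re, Complex.conj_im, Complex.add_re,
      Complex.add_im, Complex.ofReal_re, Complex.ofReal_im, Complex.I_re, Complex.I_im,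
      Complex.intCast_re, Complex.intCast_im, hre, him]
    field_simp
    linear_combination (v.1 : ℝ) * Real.sin a * √z.im * hyy

theorem norm_rg_gg (v : ℤ × ℤ) (z : ℍ) (a : ℝ) :
    ‖rg v (gg z a)‖ ^ 2 = ‖(v.1 : ℂ) * (z : ℂ) + v.2‖ ^ 2 / z.im := by
  rw [rg_gg, norm_div, norm_mul, norm_mul, Complex.norm_I, Complex.norm_exp_ofReal_mul_I,
    one_mul, one_mul, Complex.norm_conj, Complex.norm_real, Real.norm_eq_abs,
    abs_of_nonneg (Real.sqrt_nonneg _), div_pow, Real.sq_sqrt z.im_pos.le]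

theorem rg_gx {x : ℂ} (hx : x ≠ 0) (t : ℝ) (v : ℤ × ℤ) :
    rg v (gx x t) = ((v.1 * t + v.2 : ℝ) : ℂ) * x - v.1 * Complex.I / conj x := by
  have hn : Complex.normSq x ≠ 0 := by rwa [Ne, Complex.normSq_eq_zero]
  obtain ⟨pf, hgx⟩ : ∃ pf, gx x t = (⟨!![x.im / Complex.normSq x + t * x.re,
      -x.re / Complex.normSq x + t * x.im; x.re, x.im], pf⟩ : SL(2, ℝ)) := ⟨_, dif_neg hx⟩
  have e00 : (gx x t) 0 0 = x.im / Complex.normSq x + t * x.re := by rw [hgx]; rfl
  have e01 : (gx x t) 0 1 = -x.re / Complex.normSq x + t * x.im := by rw [hgx]; rfl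
  have e10 : (gx x t) 1 0 = x.re := by rw [hgx]; rfl
  have e11 : (gx x t) 1 1 = x.im := by rw [hgx]; rfl
  have hc : (v.1 : ℂ) * Complex.I / conj x = (v.1 : ℂ) * Complex.I * x / (Complex.normSq x : ℂ) := by
    have hcx : conj x ≠ 0 := (map_ne_zero _).2 hx
    have hnc : (Complex.normSq x : ℂ) ≠ 0 := by exact_mod_cast hn
    rw [div_eq_div_iff hcx hnc, mul_assoc ((v.1 : ℂ) * Complex.I) x, Complex.mul_conj]
  unfold rg
  rw [e00, e01, e10, e11, hc]
  apply Complex.ext
  · simp only [Complex.mul_re, Complex.mul_im, Complex.add_re, Complex.sub_re, Complex.div_ofReal_re,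
      Complex.add_im, Complex.ofReal_re, Complex.ofReal_im, Complex.I_re, Complex.I_im,
      Complex.intCast_re, Complex.intCast_im]
    field_simp
    ring
  · simp only [Complex.mul_re, Complex.mul_im, Complex.add_re, Complex.sub_im, Complex.div_ofReal_im,
      Complex.add_im, Complex.ofReal_re, Complex.ofReal_im, Complex.I_re, Complex.I_im,
      Complex.intCast_re, Complex.intCast_im]
    field_simp
    ring

theorem rs_one (s : QN N) : rs (0, 1) s = bot s := by
  unfold rs bot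
  simp

theorem row_mem_PV [NeZero N] (v : ZMod N × ZMod N) :
    v ∈ PV N ↔ ∃ a b : ZMod N, a * v.1 + b * v.2 = 1 := by
  unfold PV
  rw [Finset.mem_image]
  constructor
  · rintro ⟨s, -, rfl⟩
    refine ⟨-(s 0 1), s 0 0, ?_⟩
    have := row_det s
    unfold bot
    linear_combination this
  · rintro ⟨a, b, hab⟩
    refine ⟨⟨!![b, -a; v.1, v.2], ?_⟩, Finset.mem_univ _, rfl⟩
    rw [Matrix.det_fin_two_of]
    linear_combination hab

theorem rs_mem [NeZero N] {p : ℤ × ℤ} (hp : IsCoprime p.1 p.2) (s : QN N) : rs p s ∈ PV N := by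
  obtain ⟨a, b, hab⟩ := hp
  rw [row_mem_PV]
  have hd := row_det s
  have hab' : (a : ZMod N) * p.1 + b * p.2 = 1 := by
    have := congrArg (fun t : ℤ => (t : ZMod N)) hab
    push_cast at this
    exact this
  -- the row `(a, b) s⁻¹` up to transposition
  refine ⟨(a : ZMod N) * s 1 1 - b * s 0 1, (b : ZMod N) * s 0 0 - a * s 1 0, ?_⟩
  unfold rs
  simp only
  linear_combination ((a : ZMod N) * p.1 + b * p.2) * hd + hab'

/-- `m v` is primitive iff `v` is primitive and `m` is prime to `N` -/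
theorem mul_mem_PV [NeZero N] (v : ZMod N × ZMod N) (m : ℕ) :
    (((m : ZMod N) * v.1, (m : ZMod N) * v.2) ∈ PV N) ↔ v ∈ PV N ∧ m.Coprime N := by
  rw [row_mem_PV, row_mem_PV, ← ZMod.isUnit_iff_coprime]
  constructor
  · rintro ⟨a, b, hab⟩
    refine ⟨⟨a * m, b * m, ?_⟩, ?_⟩
    · linear_combination hab
    · refine IsUnit.of_mul_eq_one (a * v.1 + b * v.2) ?_
      linear_combination hab
  · rintro ⟨⟨a, b, hab⟩, hu⟩
    obtain ⟨u, hu'⟩ := hu.exists_right_inv
    refine ⟨a * u, b * u, ?_⟩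
    show a * u * ((m : ZMod N) * v.1) + b * u * ((m : ZMod N) * v.2) = 1
    linear_combination (a * v.1 + b * v.2) * hu' + hab

example : type_of% @rg_toR := @rg_toR
example : type_of% @rs_red := @rs_red
example : type_of% @rg_sy := @rg_sy
example : type_of% @rs_sy := @rs_sy
example : type_of% @rg_gg := @rg_gg
example : type_of% @norm_rg_gg := @norm_rg_gg
example : type_of% @rg_gx := @rg_gx
example : type_of% @rs_one := @rs_one
example : type_of% @rs_mem := @rs_mem
example : type_of% @mul_mem_PV := @mul_mem_PV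

end Pool.Agent.JO
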