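import Pool.Agent.Lib_helper63.JO.Defs2
import Pool.Agent.Lib_helper63.JOE.CRD
import Pool.Agent.Lib_helper63.JOE.ROW
/-! Project JO, part E, block CN1 (helper47): counting rows. -/


namespace Pool.Agent.JO

open Complex MeasureTheory Filter Topology UpperHalfPlane ModularGroup
open scoped MatrixGroups Modular ENNReal ComplexConjugate ContDiff

variable {N : ℕ}

theorem rows_low {z : ℍ} (hz : z ∈ 𝒟) (a : ℝ) (v : ℤ × ℤ) :
    ((v.1 : ℝ) ^ 2 * z.im + (v.2 : ℝ) ^ 2 / z.im) / 2 ≤ ‖rg v (gg z a)‖ ^ 2 := by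
  rw [norm_rg_gg]
  have hy : 0 < z.im := z.im_pos
  obtain ⟨h1, h2⟩ := hz
  have hns : Complex.normSq (z : ℂ) = z.re ^ 2 + z.im ^ 2 := by
    rw [Complex.normSq_apply]
    have e1 : (z : ℂ).re = z.re := rfl
    have e2 : (z : ℂ).im = z.im := rfl
    rw [e1, e2]
    ring
  rw [hns] at h1
  have hx : z.re ^ 2 ≤ 1 / 4 := by
    have := abs_le.1 h2
    nlinarith
  have hn : ‖(v.1 : ℂ) * (z : ℂ) + v.2‖ ^ 2 = ((v.1 : ℝ) * z.re + v.2) ^ 2 + ((v.1 : ℝ) * z.im) ^ 2 := by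
    rw [← Complex.normSq_eq_norm_sq, Complex.normSq_apply]
    simp
    ring
  rw [hn, le_div_iff₀ hy]
  have e : ((v.1 : ℝ) ^ 2 * z.im + (v.2 : ℝ) ^ 2 / z.im) / 2 * z.im =
      ((v.1 : ℝ) ^ 2 * z.im ^ 2 + (v.2 : ℝ) ^ 2) / 2 := by
    field_simp
  rw [e]
  nlinarith [sq_nonneg ((v.2 : ℝ) + 2 * v.1 * z.re), mul_nonneg (sq_nonneg (v.1 : ℝ))
    (show (0 : ℝ) ≤ z.im ^ 2 / 2 - z.re ^ 2 by nlinarith)]

theorem cn1_box (g : SL(2, ℝ)) (v : ℤ × ℤ) :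
    |(v.1 : ℝ)| ≤ ‖rg v g‖ * (|g 1 1| + |g 1 0|) ∧ |(v.2 : ℝ)| ≤ ‖rg v g‖ * (|g 0 0| + |g 0 1|) := by
  have hdet : g 0 0 * g 1 1 - g 0 1 * g 1 0 = 1 := by
    have := g.det_coe
    rw [Matrix.det_fin_two] at this
    exact this
  have hre : (rg v g).re = v.1 * g 0 0 + v.2 * g 1 0 := by
    unfold rg; simp
  have him : (rg v g).im = v.1 * g 0 1 + v.2 * g 1 1 := by
    unfold rg; simp
  have h1 : (v.1 : ℝ) = (rg v g).re * g 1 1 - (rg v g).im * g 1 0 := by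
    rw [hre, him]
    linear_combination (-(v.1 : ℝ)) * hdet
  have h2 : (v.2 : ℝ) = (rg v g).im * g 0 0 - (rg v g).re * g 0 1 := by
    rw [hre, him]
    linear_combination (-(v.2 : ℝ)) * hdet
  have a1 := Complex.abs_re_le_norm (rg v g)
  have a2 := Complex.abs_im_le_norm (rg v g)
  constructor
  · rw [h1]
    calc |(rg v g).re * g 1 1 - (rg v g).im * g 1 0| ≤
          |(rg v g).re * g 1 1| + |(rg v g).im * g 1 0| := abs_sub _ _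
      _ ≤ _ := by
        rw [abs_mul, abs_mul, mul_add]
        exact add_le_add (mul_le_mul_of_nonneg_right a1 (abs_nonneg _))
          (mul_le_mul_of_nonneg_right a2 (abs_nonneg _))
  · rw [h2]
    calc |(rg v g).im * g 0 0 - (rg v g).re * g 0 1| ≤
          |(rg v g).im * g 0 0| + |(rg v g).re * g 0 1| := abs_sub _ _
      _ ≤ _ := by
        rw [abs_mul, abs_mul, mul_add]
        exact add_le_add (mul_le_mul_of_nonneg_right a2 (abs_nonneg _))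
          (mul_le_mul_of_nonneg_right a1 (abs_nonneg _))

theorem rows_finite (g : SL(2, ℝ)) (R : ℝ) : {v : ℤ × ℤ | ‖rg v g‖ ≤ R}.Finite := by
  set A := R * (|g 1 1| + |g 1 0|) with hA
  set B := R * (|g 0 0| + |g 0 1|) with hB
  apply Set.Finite.subset (Set.Finite.prod (Set.finite_Icc (-⌊A⌋) ⌊A⌋) (Set.finite_Icc (-⌊B⌋) ⌊B⌋))
  intro v hv
  have hv : ‖rg v g‖ ≤ R := hv
  obtain ⟨h1, h2⟩ := cn1_box g v
  have h3 : |(v.1 : ℝ)| ≤ A := h1.trans (mul_le_mul_of_nonneg_right hv (by positivity))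
  have h4 : |(v.2 : ℝ)| ≤ B := h2.trans (mul_le_mul_of_nonneg_right hv (by positivity))
  have key : ∀ (n : ℤ) (X : ℝ), |(n : ℝ)| ≤ X → n ∈ Set.Icc (-⌊X⌋) ⌊X⌋ := by
    intro n X h
    have h5 : |n| ≤ ⌊X⌋ := by
      apply Int.le_floor.2
      push_cast
      exact h
    exact abs_le.1 h5
  exact ⟨key _ _ h3, key _ _ h4⟩

theorem cn1_fd {R : ℝ} {z : ℍ} (hz : z ∈ 𝒟) (a : ℝ) {p : ℤ × ℤ} (hp : IsCoprime p.1 p.2)
    (hR : ‖rg p (gg z a)‖ ≤ R) : |(p.1 : ℝ)| ≤ 2 * R ^ 2 + 1 ∧ |(p.2 : ℝ)| ≤ 2 * R ^ 2 + 1 := by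
  have hy : 0 < z.im := z.im_pos
  have h1 := rows_low hz a p
  have hR0 : 0 ≤ R := (norm_nonneg _).trans hR
  have h2 : ‖rg p (gg z a)‖ ^ 2 ≤ R ^ 2 := pow_le_pow_left₀ (norm_nonneg _) hR 2
  have h3 : (p.1 : ℝ) ^ 2 * z.im + (p.2 : ℝ) ^ 2 / z.im ≤ 2 * R ^ 2 := by linarith
  have h4 : 0 ≤ (p.2 : ℝ) ^ 2 / z.im := by positivity
  have h5 : 0 ≤ (p.1 : ℝ) ^ 2 * z.im := by positivity
  have hy2 : 1 / 2 ≤ z.im := by
    obtain ⟨g1, g2⟩ := hz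
    have hns : Complex.normSq (z : ℂ) = z.re ^ 2 + z.im ^ 2 := by
      rw [Complex.normSq_apply]
      have e1 : (z : ℂ).re = z.re := rfl
      have e2 : (z : ℂ).im = z.im := rfl
      rw [e1, e2]
      ring
    rw [hns] at g1
    have hx : z.re ^ 2 ≤ 1 / 4 := by
      have := abs_le.1 g2
      nlinarith
    nlinarith
  have hc : (p.1 : ℝ) ^ 2 ≤ 4 * R ^ 2 := by nlinarith [sq_nonneg (p.1 : ℝ)]
  have hc' : |(p.1 : ℝ)| ≤ 2 * R ^ 2 + 1 := by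
    have : |(p.1 : ℝ)| ≤ 2 * R := by
      apply abs_le_of_sq_le_sq _ (by linarith)
      nlinarith
    nlinarith [sq_nonneg (R - 1)]
  refine ⟨hc', ?_⟩
  rcases le_or_gt z.im (2 * R ^ 2) with h | h
  · have h6 : (p.2 : ℝ) ^ 2 ≤ 2 * R ^ 2 * z.im := by
      have : (p.2 : ℝ) ^ 2 / z.im ≤ 2 * R ^ 2 := by linarith
      rwa [div_le_iff₀ hy] at this
    have h7 : (p.2 : ℝ) ^ 2 ≤ (2 * R ^ 2) ^ 2 := by nlinarith [sq_nonneg R]
    have h8 : |(p.2 : ℝ)| ≤ 2 * R ^ 2 := abs_le_of_sq_le_sq h7 (by positivity)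
    linarith
  · have h6 : (p.1 : ℝ) ^ 2 < 1 := by
      by_contra hcon
      rw [not_lt] at hcon
      nlinarith
    have h7 : p.1 = 0 := by
      have : (p.1 ^ 2 : ℤ) < 1 := by exact_mod_cast h6
      nlinarith [sq_nonneg p.1, Int.emod_emod_of_dvd p.1 (dvd_refl 2), sq_nonneg (p.1 - 1), sq_nonneg (p.1 + 1)]
    rw [h7, isCoprime_zero_left, Int.isUnit_iff] at hp
    rcases hp with hp | hp <;> rw [hp] <;> norm_num <;> positivity

theorem cn1_inj {g : SL(2, ℝ)} {u v : ℤ × ℤ} (h : rg u g = rg v g) : u = v := by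
  have hdet : g 0 0 * g 1 1 - g 0 1 * g 1 0 = 1 := by
    have := g.det_coe
    rw [Matrix.det_fin_two] at this
    exact this
  have hre : ∀ w : ℤ × ℤ, (rg w g).re = w.1 * g 0 0 + w.2 * g 1 0 := by
    intro w; unfold rg; simp
  have him : ∀ w : ℤ × ℤ, (rg w g).im = w.1 * g 0 1 + w.2 * g 1 1 := by
    intro w; unfold rg; simp
  have h1 : ∀ w : ℤ × ℤ, (w.1 : ℝ) = (rg w g).re * g 1 1 - (rg w g).im * g 1 0 := by
    intro w
    rw [hre, him]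
    linear_combination (-(w.1 : ℝ)) * hdet
  have h2 : ∀ w : ℤ × ℤ, (w.2 : ℝ) = (rg w g).im * g 0 0 - (rg w g).re * g 0 1 := by
    intro w
    rw [hre, him]
    linear_combination (-(w.2 : ℝ)) * hdet
  apply Prod.ext
  · have : (u.1 : ℝ) = v.1 := by rw [h1 u, h1 v, h]
    exact_mod_cast this
  · have : (u.2 : ℝ) = v.2 := by rw [h2 u, h2 v, h]
    exact_mod_cast this

theorem cn1_toR_inv (γ : SL(2, ℤ)) (g : SL(2, ℝ)) : toR γ⁻¹ * (toR γ * g) = g := by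
  unfold toR
  rw [← mul_assoc, ← map_mul, inv_mul_cancel, map_one, one_mul]

theorem cn1_smul (γ : SL(2, ℤ)) (z : ℍ) : toR γ • z = γ • z := rfl

theorem prim_count (R : ℝ) : ∃ C : ℕ, ∀ g : SL(2, ℝ),
    {p : ℤ × ℤ | IsCoprime p.1 p.2 ∧ ‖rg p g‖ ≤ R}.encard ≤ C := by
  set K : ℤ := ⌊2 * R ^ 2 + 1⌋ with hK
  set B : Finset (ℤ × ℤ) := Finset.Icc (-K) K ×ˢ Finset.Icc (-K) K with hB
  refine ⟨B.card, fun g => ?_⟩
  obtain ⟨a, -, ha⟩ := gg_surj g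
  obtain ⟨γ, hγ⟩ := ModularGroup.exists_smul_mem_fd (g • UpperHalfPlane.I)
  obtain ⟨b, hb⟩ := gg_mul (toR γ) (g • UpperHalfPlane.I)
  have hg : toR γ * g = gg (γ • (g • UpperHalfPlane.I)) (a + b) := by
    have := hb a
    rw [ha, cn1_smul] at this
    exact this
  set φ : ℤ × ℤ → ℤ × ℤ := fun p => (p.1 * γ⁻¹ 0 0 + p.2 * γ⁻¹ 1 0, p.1 * γ⁻¹ 0 1 + p.2 * γ⁻¹ 1 1)
    with hφ
  have hrg : ∀ p, rg p g = rg (φ p) (toR γ * g) := by
    intro p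
    have := rg_toR γ⁻¹ p (toR γ * g)
    rw [cn1_toR_inv] at this
    exact this
  have hinj : Function.Injective φ := by
    intro p q h
    apply cn1_inj (g := g)
    rw [hrg p, hrg q, h]
  have hdet : γ⁻¹ 0 0 * γ⁻¹ 1 1 - γ⁻¹ 0 1 * γ⁻¹ 1 0 = 1 := by
    have := (γ⁻¹).det_coe
    rw [Matrix.det_fin_two] at this
    exact this
  have himg : φ '' {p : ℤ × ℤ | IsCoprime p.1 p.2 ∧ ‖rg p g‖ ≤ R} ⊆ (B : Set (ℤ × ℤ)) := by
    rintro q ⟨p, ⟨hp, hpR⟩, rfl⟩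
    have hcop : IsCoprime (φ p).1 (φ p).2 := by
      obtain ⟨u, v, huv⟩ := hp
      refine ⟨u * γ⁻¹ 1 1 - v * γ⁻¹ 0 1, -u * γ⁻¹ 1 0 + v * γ⁻¹ 0 0, ?_⟩
      simp only [hφ]
      linear_combination huv + (u * p.1 + v * p.2) * hdet
    rw [hrg p, hg] at hpR
    obtain ⟨h1, h2⟩ := cn1_fd hγ (a + b) hcop hpR
    have key : ∀ n : ℤ, |(n : ℝ)| ≤ 2 * R ^ 2 + 1 → n ∈ Finset.Icc (-K) K := by
      intro n h
      have h5 : |n| ≤ K := by
        apply Int.le_floor.2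
        push_cast
        exact h
      exact Finset.mem_Icc.2 (abs_le.1 h5)
    rw [Finset.mem_coe, hB, Finset.mem_product]
    exact ⟨key _ h1, key _ h2⟩
  calc {p : ℤ × ℤ | IsCoprime p.1 p.2 ∧ ‖rg p g‖ ≤ R}.encard =
        (φ '' {p : ℤ × ℤ | IsCoprime p.1 p.2 ∧ ‖rg p g‖ ≤ R}).encard :=
          (hinj.encard_image _).symm
    _ ≤ (B : Set (ℤ × ℤ)).encard := Set.encard_le_encard himg
    _ = B.card := Set.encard_coe_eq_coe_finsetCard B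

end Pool.Agent.JO
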