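import Pool.Agent.Lib_helper63.JO.Defs2
/-! Block COS: primitive rows are the bottom rows of a fundamental system of `SL₂(ℤ)` (helper12). -/

namespace Pool.Agent.JO

open Complex MeasureTheory Filter Topology UpperHalfPlane ModularGroup
open scoped MatrixGroups Modular ENNReal ComplexConjugate ContDiff

variable {N : ℕ}

theorem cos_equiv (z : ℍ) :
    ∃ e : {g : SL(2, ℤ) // 0 ≤ (g • z).re ∧ (g • z).re < 1} ≃
      {v : ℤ × ℤ // IsCoprime v.1 v.2}, ∀ g, (e g : ℤ × ℤ) = (g.1 1 0, g.1 1 1) := by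
  refine ⟨Equiv.ofBijective (fun g => ⟨(g.1 1 0, g.1 1 1), ?_⟩) ⟨?_, ?_⟩, fun g => rfl⟩
  · exact bottom_row_coprime g.1
  · rintro ⟨g, hg⟩ ⟨g', hg'⟩ h
    simp only [Subtype.mk.injEq, Prod.mk.injEq] at h
    obtain ⟨hc, hd⟩ := h
    have h10 : (g' * g⁻¹) 1 0 = 0 := by
      rw [Matrix.SpecialLinearGroup.coe_mul, Matrix.mul_apply, Fin.sum_univ_two,
        Matrix.SpecialLinearGroup.SL2_inv_expl]
      simp [← hc, ← hd]
      ring
    have h11 : (g' * g⁻¹) 1 1 = 1 := by
      have hdet := g.det_coe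
      rw [Matrix.det_fin_two] at hdet
      rw [Matrix.SpecialLinearGroup.coe_mul, Matrix.mul_apply, Fin.sum_univ_two,
        Matrix.SpecialLinearGroup.SL2_inv_expl]
      simp [← hc, ← hd]
      linarith
    have h00 : (g' * g⁻¹) 0 0 = 1 := by
      have hdet := (g' * g⁻¹).det_coe
      rw [Matrix.det_fin_two, h10, h11] at hdet
      linarith
    have hT : g' * g⁻¹ = ModularGroup.T ^ ((g' * g⁻¹) 0 1) := by
      ext i j
      fin_cases i <;> fin_cases j
      · simpa [coe_T_zpow] using h00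
      · simp [coe_T_zpow]
      · simpa [coe_T_zpow] using h10
      · simpa [coe_T_zpow] using h11
    set n := (g' * g⁻¹) 0 1 with hn
    have h0 : g' = ModularGroup.T ^ n * g := by
      rw [← hT]; simp
    have h1 : g' • z = ModularGroup.T ^ n • (g • z) := by
      rw [← mul_smul, ← h0]
    have h2 : (g' • z).re = (g • z).re + n := by
      rw [h1, re_T_zpow_smul]
    have h3 := hg
    have h4 := hg'
    rw [h2] at h4
    have h5 : n = 0 := by
      have h6 : (n : ℝ) < 1 := by linarith [h3.1, h4.2]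
      have h7 : (-1 : ℝ) < n := by linarith [h3.2, h4.1]
      have h8 : n < 1 := by exact_mod_cast h6
      have h9 : -1 < n := by exact_mod_cast h7
      omega
    rw [h5] at h0
    simp at h0
    exact Subtype.ext h0.symm
  · rintro ⟨v, hv1⟩
    obtain ⟨g, _, hg⟩ := bottom_row_surj (R := ℤ) (a := ![v.1, v.2]) (by simpa using hv1)
    have hg0 : g 1 0 = v.1 := by
      have := congrFun hg 0
      simpa using this
    have hg1 : g 1 1 = v.2 := by
      have := congrFun hg 1
      simpa using this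
    set n : ℤ := ⌊(g • z).re⌋ with hn
    have hre : (ModularGroup.T ^ (-n) • (g • z)).re = (g • z).re - n := by
      rw [re_T_zpow_smul]; push_cast; ring
    refine ⟨⟨ModularGroup.T ^ (-n) * g, ?_, ?_⟩, ?_⟩
    · rw [mul_smul, hre]
      linarith [Int.floor_le (g • z).re]
    · rw [mul_smul, hre]
      linarith [Int.lt_floor_add_one (g • z).re]
    · apply Subtype.ext
      have h10 : (ModularGroup.T ^ (-n) * g) 1 0 = v.1 := by
        rw [Matrix.SpecialLinearGroup.coe_mul, Matrix.mul_apply, Fin.sum_univ_two]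
        simp [coe_T_zpow, hg0]
      have h11 : (ModularGroup.T ^ (-n) * g) 1 1 = v.2 := by
        rw [Matrix.SpecialLinearGroup.coe_mul, Matrix.mul_apply, Fin.sum_univ_two]
        simp [coe_T_zpow, hg1]
      exact Prod.ext h10 h11

theorem cos_aux {M : Type*} [AddCommMonoid M] [TopologicalSpace M] (z : ℍ) (f : ℤ × ℤ → M) :
    ∑' γ : SL(2, ℤ), (if 0 ≤ (γ • z).re ∧ (γ • z).re < 1 then f (γ 1 0, γ 1 1) else 0) =
      ∑' p : ℤ × ℤ, open scoped Classical in if IsCoprime p.1 p.2 then f p else 0 := by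
  classical
  obtain ⟨e, he⟩ := cos_equiv z
  have h1 : ∑' γ : SL(2, ℤ),
      (if 0 ≤ (γ • z).re ∧ (γ • z).re < 1 then f (γ 1 0, γ 1 1) else 0) =
      ∑' γ : {g : SL(2, ℤ) // 0 ≤ (g • z).re ∧ (g • z).re < 1}, f (γ.1 1 0, γ.1 1 1) := by
    have := tsum_subtype {g : SL(2, ℤ) | 0 ≤ (g • z).re ∧ (g • z).re < 1}
      (fun γ : SL(2, ℤ) => f (γ 1 0, γ 1 1))
    refine Eq.trans ?_ this.symm
    congr 1
    funext γ
    rw [Set.indicator_apply]
    rfl
  have h2 : ∑' p : ℤ × ℤ, (if IsCoprime p.1 p.2 then f p else 0) =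
      ∑' p : {v : ℤ × ℤ // IsCoprime v.1 v.2}, f p.1 := by
    have := tsum_subtype {v : ℤ × ℤ | IsCoprime v.1 v.2} f
    refine Eq.trans ?_ this.symm
    congr 1
    funext γ
    rw [Set.indicator_apply]
    rfl
  rw [h1]
  refine Eq.trans ?_ h2.symm
  rw [← e.tsum_eq]
  congr 1
  funext g
  rw [he]

/-- every primitive row is the bottom row of exactly one `γ` with `0 ≤ Re γz < 1` -/
theorem coset_sum (z : ℍ) (f : ℤ × ℤ → ℝ≥0∞) :
    ∑' γ : SL(2, ℤ), (if 0 ≤ (γ • z).re ∧ (γ • z).re < 1 then f (γ 1 0, γ 1 1) else 0) =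
      ∑' p : ℤ × ℤ, open scoped Classical in if IsCoprime p.1 p.2 then f p else 0 :=
  cos_aux z f

/-- the sum over primitive rows as a sum over `SL₂(ℤ)`, complex version -/
theorem coset_sumC (z : ℍ) (f : ℤ × ℤ → ℂ) :
    ∑' γ : SL(2, ℤ), (if 0 ≤ (γ • z).re ∧ (γ • z).re < 1 then f (γ 1 0, γ 1 1) else 0) =
      ∑' p : ℤ × ℤ, open scoped Classical in if IsCoprime p.1 p.2 then f p else 0 :=
  cos_aux z f

end Pool.Agent.JO
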