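import Mathlib

/-! Unfolding over the modular group: copied from Pool/Agent/Lib_helper68/GL2/{RSA,B7}.lean -/

namespace Pool.Agent.JO.JLIB

open Complex MeasureTheory Filter Topology UpperHalfPlane ModularGroup
open scoped MatrixGroups Modular ENNReal

instance RSA_countable : Countable SL(2, ℤ) := by
  have : Countable (Matrix (Fin 2) (Fin 2) ℤ) := inferInstanceAs (Countable (Fin 2 → Fin 2 → ℤ))
  exact inferInstanceAs (Countable {A : Matrix (Fin 2) (Fin 2) ℤ // A.det = 1})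

/-- each element of `SL₂(ℤ)` preserves the invariant measure -/
theorem RSA_mp (g : SL(2, ℤ)) : MeasurePreserving (fun z : ℍ => g • z) volume volume := by
  have := measurePreserving_smul (Matrix.SpecialLinearGroup.mapGL ℝ g) (volume : Measure ℍ)
  exact this

theorem RSA_null_frontier : volume (𝒟 \ 𝒟ᵒ) = 0 := by
  rw [volume_eq_lintegral]
  apply MeasureTheory.setLIntegral_measure_zero
  have hsub : ((↑) '' (𝒟 \ 𝒟ᵒ) : Set ℂ) ⊆ {z : ℂ | z.re = 1 / 2} ∪ {z : ℂ | z.re = -(1 / 2)} ∪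
      Metric.sphere (0 : ℂ) 1 := by
    rintro _ ⟨w, ⟨h1, h2⟩, rfl⟩
    obtain ⟨h3, h4⟩ := h1
    by_cases h5 : 1 < normSq (w : ℂ)
    · left
      have h6 : ¬ |w.re| < 1 / 2 := fun h => h2 ⟨h5, h⟩
      have h7 : |w.re| = 1 / 2 := le_antisymm h4 (not_lt.mp h6)
      rcases (abs_eq (by norm_num : (0 : ℝ) ≤ 1 / 2)).mp h7 with h | h
      · left; exact h
      · right; exact h
    · right
      have h6 : normSq (w : ℂ) = 1 := le_antisymm (not_lt.mp h5) h3
      rw [mem_sphere_zero_iff_norm]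
      rw [Complex.normSq_eq_norm_sq] at h6
      have h7 : (0 : ℝ) ≤ ‖(w : ℂ)‖ := norm_nonneg _
      nlinarith
  refine measure_mono_null hsub ?_
  have hline : ∀ c : ℝ, volume {z : ℂ | z.re = c} = 0 := by
    intro c
    have h := (convex_halfSpace_re_le c).addHaar_frontier (volume : Measure ℂ)
    rwa [Complex.frontier_setOfPred_re_le] at h
  rw [measure_union_null_iff, measure_union_null_iff]
  exact ⟨⟨hline _, hline _⟩, Measure.addHaar_sphere _ _ _⟩

theorem RSA_count_ae : ∀ᵐ w : ℍ, ∑' g : SL(2, ℤ), (𝒟ᵒ.indicator (fun _ => (1 : ℝ≥0∞)) (g • w)) = 2 := by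
  have hnull : ∀ᵐ w : ℍ, ∀ g : SL(2, ℤ), g • w ∉ 𝒟 \ 𝒟ᵒ := by
    rw [ae_all_iff]
    intro g
    have h := (RSA_mp g).quasiMeasurePreserving.preimage_null RSA_null_frontier
    rw [ae_iff]
    convert h using 2
    ext w
    simp only [Set.mem_ofPred_eq, not_not, Set.mem_preimage]
  filter_upwards [hnull] with w hw
  obtain ⟨g, hg⟩ := exists_smul_mem_fd w
  have hg' : g • w ∈ 𝒟ᵒ := by
    by_contra h
    exact hw g ⟨hg, h⟩
  have hne : g ≠ -g := by
    intro h
    have h1 : (g : Matrix (Fin 2) (Fin 2) ℤ) = -(g : Matrix (Fin 2) (Fin 2) ℤ) := by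
      have := congrArg (fun x : SL(2, ℤ) => (x : Matrix (Fin 2) (Fin 2) ℤ)) h
      simpa using this
    have h2 : ∀ i j, (g : Matrix (Fin 2) (Fin 2) ℤ) i j = 0 := by
      intro i j
      have := congrFun (congrFun h1 i) j
      simp only [Matrix.neg_apply] at this
      omega
    have h3 := g.det_coe
    rw [Matrix.det_fin_two, h2 0 0, h2 0 1] at h3
    simp at h3
  have hmem : ∀ g' : SL(2, ℤ), g' • w ∈ 𝒟ᵒ → g' = g ∨ g' = -g := by
    intro g' h
    have h1 : (g' * g⁻¹) • (g • w) ∈ 𝒟ᵒ := by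
      rw [← mul_smul]
      simpa using h
    rcases eq_one_or_neg_one_of_mem_fdo_mem_fdo hg' h1 with h2 | h2
    · left
      exact mul_inv_eq_one.mp h2
    · right
      have : g' = (g' * g⁻¹) * g := by simp
      rw [this, h2]
      simp
  rw [tsum_eq_sum (s := {g, -g})]
  · rw [Finset.sum_pair hne]
    have h2 : (-g) • w ∈ 𝒟ᵒ := by rw [SL_neg_smul]; exact hg'
    rw [Set.indicator_of_mem hg', Set.indicator_of_mem h2]
    norm_num
  · intro g' hg''
    apply Set.indicator_of_notMem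
    intro h
    apply hg''
    simpa using hmem g' h

/-- unfolding -/
theorem RSA_unfold (G : ℍ → ℝ≥0∞) (hG : Measurable G) :
    ∫⁻ z in 𝒟ᵒ, ∑' g : SL(2, ℤ), G (g • z) = 2 * ∫⁻ w : ℍ, G w := by
  have hmo : MeasurableSet (𝒟ᵒ : Set ℍ) := isOpen_fdo.measurableSet
  have hms : ∀ g : SL(2, ℤ), Measurable (fun z : ℍ => g • z) := fun g => (RSA_mp g).measurable
  have hstep : ∀ g : SL(2, ℤ), ∫⁻ z in 𝒟ᵒ, G (g • z) =
      ∫⁻ w : ℍ, G w * 𝒟ᵒ.indicator (fun _ => (1 : ℝ≥0∞)) (g⁻¹ • w) := by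
    intro g
    have h1 : ∫⁻ w : ℍ, G w * 𝒟ᵒ.indicator (fun _ => (1 : ℝ≥0∞)) (g⁻¹ • w) =
        ∫⁻ z : ℍ, G (g • z) * 𝒟ᵒ.indicator (fun _ => (1 : ℝ≥0∞)) (g⁻¹ • (g • z)) := by
      rw [← (RSA_mp g).lintegral_comp (f := fun w => G w * 𝒟ᵒ.indicator (fun _ => (1 : ℝ≥0∞)) (g⁻¹ • w))]
      exact hG.mul ((measurable_const.indicator hmo).comp (hms g⁻¹))
    rw [h1, ← lintegral_indicator hmo]
    congr 1
    ext z
    rw [inv_smul_smul]
    by_cases hz : z ∈ 𝒟ᵒ
    · rw [Set.indicator_of_mem hz, Set.indicator_of_mem hz, mul_one]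
    · rw [Set.indicator_of_notMem hz, Set.indicator_of_notMem hz, mul_zero]
  rw [lintegral_tsum (f := fun (g : SL(2, ℤ)) (z : ℍ) => G (g • z))
    (fun g => (hG.comp (hms g)).aemeasurable)]
  simp_rw [hstep]
  rw [← lintegral_tsum]
  · rw [← lintegral_const_mul _ hG]
    apply lintegral_congr_ae
    filter_upwards [RSA_count_ae] with w hw
    rw [ENNReal.tsum_mul_left, mul_comm]
    congr 1
    rw [← hw]
    exact (Equiv.inv SL(2, ℤ)).tsum_eq (fun g => 𝒟ᵒ.indicator (fun _ => (1 : ℝ≥0∞)) (g • w))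
  · intro g
    exact (hG.mul ((measurable_const.indicator hmo).comp (hms g⁻¹))).aemeasurable


theorem RSA_lint (F : ℂ → ℝ≥0∞) :
    ∫⁻ w : ℍ, F w = ∫⁻ z in {z : ℂ | 0 < z.im}, F z * ENNReal.ofReal (1 / z.im ^ 2) := by
  have hrange : Set.range UpperHalfPlane.coe = {z : ℂ | 0 < z.im} := by
    ext z
    constructor
    · rintro ⟨w, rfl⟩
      exact w.im_pos
    · intro hz
      exact ⟨⟨z, hz⟩, rfl⟩
  rw [volume_def]
  rw [lintegral_withDensity_eq_lintegral_mul_non_measurable]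
  · have h1 := measurableEmbedding_coe.lintegral_map (μ := volume.comap UpperHalfPlane.coe)
      (f := fun z : ℂ => F z * ENNReal.ofReal (1 / z.im ^ 2))
    rw [measurableEmbedding_coe.map_comap, hrange] at h1
    rw [h1]
    apply lintegral_congr
    intro w
    rw [Pi.mul_apply, mul_comm]
    congr 1
    rw [ENNReal.coe_nnreal_eq]
    congr 1
    push_cast
    rw [div_pow, one_pow]
    rfl
  · have h2 : Continuous (fun z : ℍ => (1 / NNReal.mk z.im z.im_pos.le : NNReal) ^ 2) := by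
      refine .pow (.div₀ continuous_const ?_ ?_) _
      · exact continuous_im.subtype_mk _
      · exact fun x ↦ NNReal.ne_iff.mp x.im_ne_zero
    exact h2.measurable.coe_nnreal_ennreal
  · exact Eventually.of_forall (fun z => ENNReal.coe_lt_top)

/-- the standard fundamental domain -/
def FD : Set ℂ := {z : ℂ | 0 < z.im ∧ 1 < ‖z‖ ∧ |z.re| < 1 / 2}

theorem RSA_lint_fd (F : ℂ → ℝ≥0∞) :
    ∫⁻ w in 𝒟ᵒ, F (w : ℍ) = ∫⁻ z in FD, F z * ENNReal.ofReal (1 / z.im ^ 2) := by
  have hmo : MeasurableSet (𝒟ᵒ : Set ℍ) := isOpen_fdo.measurableSet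
  have hFD : MeasurableSet FD := by
    have : FD = (↑) '' 𝒟ᵒ := by rw [coe_fdo]; rfl
    rw [this]
    exact measurableEmbedding_coe.measurableSet_image.mpr hmo
  rw [← lintegral_indicator hmo]
  have h1 : ∀ w : ℍ, (𝒟ᵒ : Set ℍ).indicator (fun w : ℍ => F w) w = FD.indicator F (w : ℂ) := by
    intro w
    have h2 : (w : ℂ) ∈ FD ↔ w ∈ 𝒟ᵒ := by
      have : FD = (↑) '' 𝒟ᵒ := by rw [coe_fdo]; rfl
      rw [this]
      constructor
      · rintro ⟨v, hv, hvw⟩
        rwa [← UpperHalfPlane.ext hvw]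
      · intro h
        exact ⟨w, h, rfl⟩
    by_cases hw : w ∈ 𝒟ᵒ
    · rw [Set.indicator_of_mem hw, Set.indicator_of_mem (h2.mpr hw)]
    · rw [Set.indicator_of_notMem hw, Set.indicator_of_notMem (fun h => hw (h2.mp h))]
  rw [lintegral_congr h1, RSA_lint, ← lintegral_indicator hFD, ← lintegral_indicator]
  · apply lintegral_congr
    intro z
    by_cases hz : z ∈ FD
    · have hz' : z ∈ {z : ℂ | 0 < z.im} := hz.1
      rw [Set.indicator_of_mem hz', Set.indicator_of_mem hz, Set.indicator_of_mem hz]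
    · rw [Set.indicator_of_notMem hz]
      by_cases hz' : z ∈ {z : ℂ | 0 < z.im}
      · rw [Set.indicator_of_mem hz', Set.indicator_of_notMem hz, zero_mul]
      · rw [Set.indicator_of_notMem hz']
  · exact (isOpen_lt continuous_const Complex.continuous_im).measurableSet

theorem b7_range : Set.range UpperHalfPlane.coe = {z : ℂ | 0 < z.im} := by
  ext z
  constructor
  · rintro ⟨w, rfl⟩
    exact w.im_pos
  · intro hz
    exact ⟨⟨z, hz⟩, rfl⟩

/-- Bochner integral on `ℍ` as an integral on `ℂ` -/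
theorem b7_int (F : ℂ → ℂ) :
    ∫ w : ℍ, F w = ∫ z in {z : ℂ | 0 < z.im}, (((1 / z.im ^ 2 : ℝ)) : ℂ) * F z := by
  rw [volume_def]
  have h2 : Continuous (fun z : ℍ => (1 / NNReal.mk z.im z.im_pos.le : NNReal) ^ 2) := by
    refine .pow (.div₀ continuous_const ?_ ?_) _
    · exact continuous_im.subtype_mk _
    · exact fun x ↦ NNReal.ne_iff.mp x.im_ne_zero
  rw [integral_withDensity_eq_integral_smul h2.measurable]
  have h1 := measurableEmbedding_coe.integral_map (μ := volume.comap UpperHalfPlane.coe)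
    (fun z : ℂ => (((1 / z.im ^ 2 : ℝ)) : ℂ) * F z)
  rw [measurableEmbedding_coe.map_comap, b7_range] at h1
  rw [h1]
  apply integral_congr_ae
  apply Eventually.of_forall
  intro w
  simp only
  rw [NNReal.smul_def, Complex.real_smul]
  congr 2
  push_cast
  rw [div_pow, one_pow]
  rfl

theorem b7_vol_fdo : (volume : Measure ℍ) 𝒟ᵒ < ∞ := by
  have h1 := RSA_lint_fd (fun _ => 1)
  rw [setLIntegral_one] at h1
  rw [h1]
  -- bound by the integral over a strip
  have hsub : FD ⊆ {z : ℂ | z.re ∈ Set.Icc (-1 : ℝ) 1 ∧ z.im ∈ Set.Ioi (1 / 2 : ℝ)} := by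
    rintro z ⟨hz1, hz2, hz3⟩
    have h3 := abs_lt.mp hz3
    refine ⟨⟨by linarith [h3.1], by linarith [h3.2]⟩, ?_⟩
    have h4 : 1 < ‖z‖ ^ 2 := by nlinarith
    rw [← Complex.normSq_eq_norm_sq, Complex.normSq_apply] at h4
    show 1 / 2 < z.im
    nlinarith
  refine lt_of_le_of_lt (lintegral_mono_set hsub) ?_
  have hms : MeasurableSet {z : ℂ | z.re ∈ Set.Icc (-1 : ℝ) 1 ∧ z.im ∈ Set.Ioi (1 / 2 : ℝ)} :=
    (Complex.measurable_re measurableSet_Icc).inter (Complex.measurable_im measurableSet_Ioi)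
  rw [← lintegral_indicator hms, (Complex.volume_preserving_equiv_real_prod.symm).lintegral_map_equiv]
  have h2 : ∀ p : ℝ × ℝ, {z : ℂ | z.re ∈ Set.Icc (-1 : ℝ) 1 ∧ z.im ∈ Set.Ioi (1 / 2 : ℝ)}.indicator
      (fun z : ℂ => 1 * ENNReal.ofReal (1 / z.im ^ 2)) (Complex.measurableEquivRealProd.symm p) =
      (Set.Icc (-1 : ℝ) 1).indicator (fun _ => (1 : ℝ≥0∞)) p.1 *
      (Set.Ioi (1 / 2 : ℝ)).indicator (fun y => ENNReal.ofReal (1 / y ^ 2)) p.2 := by
    rintro ⟨x, y⟩
    have e : Complex.measurableEquivRealProd.symm (x, y) = (⟨x, y⟩ : ℂ) := rfl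
    rw [e]
    by_cases hx : x ∈ Set.Icc (-1 : ℝ) 1
    · by_cases hy : y ∈ Set.Ioi (1 / 2 : ℝ)
      · rw [Set.indicator_of_mem (by exact ⟨hx, hy⟩), Set.indicator_of_mem hx,
          Set.indicator_of_mem hy]
      · rw [Set.indicator_of_notMem (by exact fun h => hy h.2), Set.indicator_of_notMem hy, mul_zero]
    · rw [Set.indicator_of_notMem (by exact fun h => hx h.1), Set.indicator_of_notMem hx, zero_mul]
  rw [lintegral_congr h2, Measure.volume_eq_prod, lintegral_prod_mul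
    (measurable_const.indicator measurableSet_Icc).aemeasurable
    ((by fun_prop : Measurable (fun y : ℝ => ENNReal.ofReal (1 / y ^ 2))).indicator
      measurableSet_Ioi).aemeasurable, lintegral_indicator measurableSet_Icc,
    lintegral_indicator measurableSet_Ioi]
  apply ENNReal.mul_lt_top
  · rw [setLIntegral_one]
    simp
  · have h3 : IntegrableOn (fun y : ℝ => y ^ (-2 : ℝ)) (Set.Ioi (1 / 2)) :=
      integrableOn_Ioi_rpow_of_lt (by norm_num) (by norm_num)
    have h4 : IntegrableOn (fun y : ℝ => 1 / y ^ 2) (Set.Ioi (1 / 2)) := by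
      apply h3.congr_fun _ measurableSet_Ioi
      intro y hy
      have hy0 : (0 : ℝ) < y := lt_trans (by norm_num) hy
      simp only
      rw [Real.rpow_neg hy0.le, one_div]
      norm_cast
    exact h4.lintegral_lt_top

def b7_str (a b : ℝ) : Set ℂ := {z : ℂ | (0 ≤ z.re ∧ z.re < 1) ∧ a ≤ z.im ∧ z.im < b}

end Pool.Agent.JO.JLIB
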