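import Pool.Agent.Lib_helper63.JO.Defs2
/-! JO, part E, block POL: polar coordinates -/

namespace Pool.Agent.JO

open Complex MeasureTheory Filter Topology UpperHalfPlane ModularGroup
open scoped MatrixGroups Modular ENNReal ComplexConjugate ContDiff

variable {N : ℕ}

theorem pol_lint (F : ℂ → ℝ≥0∞) :
    ∫⁻ w : ℍ, F w = ∫⁻ z in {z : ℂ | 0 < z.im}, F z * ENNReal.ofReal (1 / z.im ^ 2) := by
  have hrange : Set.range UpperHalfPlane.coe = {z : ℂ | 0 < z.im} := by
    ext z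
    constructor
    · rintro ⟨w, rfl⟩
      exact w.im_pos
    · intro hz
      exact ⟨⟨z, hz⟩, rfl⟩
  rw [volume_def]
  rw [lintegral_withDensity_eq_lintegral_mul_non_measurable]
  · have h1 := measurableEmbedding_coe.lintegral_map (μ := volume.comap UpperHalfPlane.coe)
      (f := fun z : ℂ => F z * ENNReal.ofReal (1 / z.im ^ 2))
    rw [measurableEmbedding_coe.map_comap, hrange] at h1
    rw [h1]
    apply lintegral_congr
    intro w
    rw [Pi.mul_apply, mul_comm]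
    congr 1
    rw [ENNReal.coe_nnreal_eq]
    congr 1
    push_cast
    rw [div_pow, one_pow]
    rfl
  · have h2 : Continuous (fun z : ℍ => (1 / NNReal.mk z.im z.im_pos.le : NNReal) ^ 2) := by
      refine .pow (.div₀ continuous_const ?_ ?_) _
      · exact continuous_im.subtype_mk _
      · exact fun x ↦ NNReal.ne_iff.mp x.im_ne_zero
    exact h2.measurable.coe_nnreal_ennreal
  · exact Eventually.of_forall (fun z => ENNReal.coe_lt_top)

/-- the angle -/
theorem pol_angle (f : ℝ → ℝ≥0∞) (hf : ∀ x, f (x + 2 * Real.pi) = f x) :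
    ∫⁻ a in Set.Ioc (0 : ℝ) (2 * Real.pi), f (a + Real.pi / 2) =
      ∫⁻ θ in Set.Ioo (-Real.pi) Real.pi, f θ := by
  have hpi := Real.two_pi_pos
  have h0 : ∀ (g : AddSubgroup.zmultiples (2 * Real.pi)) (x : ℝ), f (g +ᵥ x) = f x := by
    rintro ⟨g, hg⟩ x
    obtain ⟨n, rfl⟩ := AddSubgroup.mem_zmultiples_iff.1 hg
    show f (n • (2 * Real.pi) + x) = f x
    have hper : Function.Periodic f (2 * Real.pi) := hf
    rw [add_comm]
    exact (hper.zsmul n) x
  have h1 : ∫⁻ a in Set.Ioc (0 : ℝ) (2 * Real.pi), f (a + Real.pi / 2) =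
      ∫⁻ a in Set.Ioc (Real.pi / 2) (Real.pi / 2 + 2 * Real.pi), f a := by
    have h2 := (measurePreserving_add_right (volume : Measure ℝ) (Real.pi / 2)).setLIntegral_comp_preimage_emb
      (measurableEmbedding_addRight (Real.pi / 2)) f
      (Set.Ioc (Real.pi / 2) (Real.pi / 2 + 2 * Real.pi))
    rw [← h2]
    congr 2
    ext a
    simp only [Set.mem_preimage, Set.mem_Ioc]
    constructor
    · rintro ⟨h3, h4⟩
      constructor <;> linarith
    · rintro ⟨h3, h4⟩
      constructor <;> linarith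
  rw [h1]
  have h2 := (isAddFundamentalDomain_Ioc hpi (Real.pi / 2) volume).setLIntegral_eq
    (isAddFundamentalDomain_Ioc hpi (-Real.pi) volume) f h0
  rw [h2]
  have h3 : -Real.pi + 2 * Real.pi = Real.pi := by ring
  rw [h3]
  exact setLIntegral_congr Ioo_ae_eq_Ioc.symm

/-- the radius -/
theorem pol_radius (Ψ : ℝ → ℝ≥0∞) :
    ∫⁻ y in Set.Ioi (0 : ℝ), Ψ (1 / √y) * ENNReal.ofReal (1 / y ^ 2) =
      2 * ∫⁻ ρ in Set.Ioi (0 : ℝ), ENNReal.ofReal ρ * Ψ ρ := by
  have himg : (fun ρ : ℝ => (ρ ^ 2)⁻¹) '' Set.Ioi 0 = Set.Ioi 0 := by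
    ext y
    simp only [Set.mem_image, Set.mem_Ioi]
    constructor
    · rintro ⟨ρ, hρ, rfl⟩
      positivity
    · intro hy
      refine ⟨(√y)⁻¹, by positivity, ?_⟩
      rw [inv_pow, inv_inv, Real.sq_sqrt hy.le]
  have hinj : Set.InjOn (fun ρ : ℝ => (ρ ^ 2)⁻¹) (Set.Ioi 0) := by
    intro a ha b hb hab
    have h1 := inv_injective hab
    exact (sq_eq_sq₀ (le_of_lt ha) (le_of_lt hb)).1 h1
  have hder : ∀ ρ ∈ Set.Ioi (0 : ℝ), HasDerivWithinAt (fun ρ : ℝ => (ρ ^ 2)⁻¹)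
      (-(2 * ρ) / (ρ ^ 2) ^ 2) (Set.Ioi 0) ρ := by
    intro ρ hρ
    have h1 : HasDerivAt (fun ρ : ℝ => ρ ^ 2) (2 * ρ) ρ := by
      simpa using hasDerivAt_pow 2 ρ
    exact (h1.inv (pow_ne_zero 2 (ne_of_gt hρ))).hasDerivWithinAt
  have key := lintegral_image_eq_lintegral_abs_deriv_mul measurableSet_Ioi hder hinj
    (fun y => Ψ (1 / √y) * ENNReal.ofReal (1 / y ^ 2))
  rw [himg] at key
  rw [key, ← lintegral_const_mul' _ _ (by norm_num)]
  refine setLIntegral_congr_fun measurableSet_Ioi fun ρ hρ => ?_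
  have hρ' : (0 : ℝ) < ρ := hρ
  have h1 : (1 : ℝ) / √((ρ ^ 2)⁻¹) = ρ := by
    rw [Real.sqrt_inv, Real.sqrt_sq hρ'.le, one_div, inv_inv]
  have h2 : |-(2 * ρ) / (ρ ^ 2) ^ 2| = 2 * ρ / (ρ ^ 2) ^ 2 := by
    rw [neg_div, abs_neg, abs_of_pos (by positivity)]
  rw [h1, h2, mul_comm (Ψ ρ), ← mul_assoc, ← ENNReal.ofReal_mul (by positivity), ← mul_assoc]
  congr 1
  rw [show (2 : ℝ≥0∞) = ENNReal.ofReal 2 by norm_num, ← ENNReal.ofReal_mul (by norm_num)]
  congr 1
  field_simp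

/-- the coordinate plane -/
theorem pol_plane (g : ℂ → ℝ≥0∞) (hg : Measurable g) :
    ∫⁻ y in Set.Ioi (0 : ℝ), (∫⁻ a in Set.Ioc (0 : ℝ) (2 * Real.pi),
      g (Complex.I * cexp (a * Complex.I) / ((√y : ℝ) : ℂ))) * ENNReal.ofReal (1 / y ^ 2) =
      2 * ∫⁻ x : ℂ, g x := by
  have h1 : ∀ y : ℝ, (∫⁻ a in Set.Ioc (0 : ℝ) (2 * Real.pi),
      g (Complex.I * cexp (a * Complex.I) / ((√y : ℝ) : ℂ))) =
      ∫⁻ θ in Set.Ioo (-Real.pi) Real.pi, g (((1 / √y : ℝ) : ℂ) * cexp (θ * Complex.I)) := by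
    intro y
    rw [← pol_angle (fun θ => g (((1 / √y : ℝ) : ℂ) * cexp (θ * Complex.I)))]
    · refine lintegral_congr fun a => ?_
      congr 1
      have h2 : cexp (((a + Real.pi / 2 : ℝ) : ℂ) * Complex.I) =
          Complex.I * cexp (a * Complex.I) := by
        push_cast
        rw [add_mul, Complex.exp_add, mul_comm]
        congr 1
        exact Complex.exp_pi_div_two_mul_I
      rw [h2]
      push_cast
      ring
    · intro x
      congr 2
      push_cast
      rw [add_mul, Complex.exp_add, Complex.exp_two_pi_mul_I, mul_one]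
  simp_rw [h1]
  rw [pol_radius (fun ρ => ∫⁻ θ in Set.Ioo (-Real.pi) Real.pi, g ((ρ : ℂ) * cexp (θ * Complex.I)))]
  congr 1
  rw [← Complex.lintegral_comp_polarCoord_symm g]
  have hmeas : Measurable (fun p : ℝ × ℝ => ENNReal.ofReal p.1 • g (Complex.polarCoord.symm p)) := by
    refine (ENNReal.measurable_ofReal.comp measurable_fst).smul (hg.comp ?_)
    have : Continuous (fun p : ℝ × ℝ => (p.1 : ℂ) * ((Real.cos p.2 : ℂ) + (Real.sin p.2 : ℂ) * Complex.I)) := by
      fun_prop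
    have heq : (fun p : ℝ × ℝ => Complex.polarCoord.symm p) =
        fun p : ℝ × ℝ => (p.1 : ℂ) * ((Real.cos p.2 : ℂ) + (Real.sin p.2 : ℂ) * Complex.I) := by
      funext p
      rw [Complex.polarCoord_symm_apply]
    have h9 := this.measurable
    rw [← heq] at h9
    exact h9
  rw [polarCoord_target, Measure.volume_eq_prod, setLIntegral_prod _ hmeas.aemeasurable]
  refine setLIntegral_congr_fun measurableSet_Ioi fun ρ _ => ?_
  rw [← lintegral_const_mul']
  · refine lintegral_congr fun θ => ?_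
    rw [smul_eq_mul]
    congr 2
    rw [Complex.polarCoord_symm_apply, Complex.exp_mul_I]
    push_cast
    rfl
  · exact ENNReal.ofReal_ne_top

theorem polar_ch (h : ℂ × ℝ → ℝ≥0∞) (hh : Measurable h) :
    ∫⁻ p : ℍ × ℝ, h (Complex.I * cexp (p.2 * Complex.I) / ((√p.1.im : ℝ) : ℂ), p.1.re)
        ∂((volume : Measure ℍ).prod (volume.restrict (Set.Ioc 0 (2 * Real.pi)))) =
      2 * ∫⁻ q : ℂ × ℝ, h q ∂((volume : Measure ℂ).prod (volume : Measure ℝ)) := by
  set Φ : ℂ → ℝ≥0∞ := fun z => ∫⁻ a in Set.Ioc (0 : ℝ) (2 * Real.pi),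
    h (Complex.I * cexp (a * Complex.I) / ((√z.im : ℝ) : ℂ), z.re) with hΦ
  have hm2 : Measurable (fun q : (ℝ × ℝ) × ℝ =>
      h (Complex.I * cexp (q.2 * Complex.I) / ((√q.1.2 : ℝ) : ℂ), q.1.1)) := by
    refine hh.comp (Measurable.prodMk ?_ ?_)
    · refine Measurable.div ?_ ?_
      · have : Continuous (fun q : (ℝ × ℝ) × ℝ => Complex.I * cexp (q.2 * Complex.I)) := by
          fun_prop
        exact this.measurable
      · have : Continuous (fun q : (ℝ × ℝ) × ℝ => ((√q.1.2 : ℝ) : ℂ)) := by fun_prop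
        exact this.measurable
    · exact measurable_fst.comp measurable_fst
  have hm1 : Measurable (fun p : ℍ × ℝ =>
      h (Complex.I * cexp (p.2 * Complex.I) / ((√p.1.im : ℝ) : ℂ), p.1.re)) := by
    have hg : Measurable (fun p : ℍ × ℝ => (((p.1.re, p.1.im), p.2) : (ℝ × ℝ) × ℝ)) := by
      refine Measurable.prodMk (Measurable.prodMk ?_ ?_) measurable_snd
      · exact (UpperHalfPlane.continuous_re.measurable).comp measurable_fst
      · exact (UpperHalfPlane.continuous_im.measurable).comp measurable_fst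
    exact hm2.comp hg
  have hΨ : Measurable (fun q : ℝ × ℝ => ∫⁻ a in Set.Ioc (0 : ℝ) (2 * Real.pi),
      h (Complex.I * cexp (a * Complex.I) / ((√q.2 : ℝ) : ℂ), q.1)) := hm2.lintegral_prod_right'
  rw [lintegral_prod _ hm1.aemeasurable]
  have e1 : ∫⁻ z : ℍ, ∫⁻ a : ℝ in Set.Ioc 0 (2 * Real.pi),
      h (Complex.I * cexp (a * Complex.I) / ((√z.im : ℝ) : ℂ), z.re) = ∫⁻ z : ℍ, Φ (z : ℂ) := rfl
  rw [e1, pol_lint]
  -- pass to `ℝ × ℝ`
  have e2 : ∫⁻ z in {z : ℂ | 0 < z.im}, Φ z * ENNReal.ofReal (1 / z.im ^ 2) =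
      ∫⁻ q in (Set.univ : Set ℝ) ×ˢ Set.Ioi (0 : ℝ),
        (∫⁻ a in Set.Ioc (0 : ℝ) (2 * Real.pi),
          h (Complex.I * cexp (a * Complex.I) / ((√q.2 : ℝ) : ℂ), q.1)) *
          ENNReal.ofReal (1 / q.2 ^ 2) := by
    have h3 := Complex.volume_preserving_equiv_real_prod.setLIntegral_comp_preimage_emb
      Complex.measurableEquivRealProd.measurableEmbedding
      (fun q : ℝ × ℝ => (∫⁻ a in Set.Ioc (0 : ℝ) (2 * Real.pi),
          h (Complex.I * cexp (a * Complex.I) / ((√q.2 : ℝ) : ℂ), q.1)) *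
          ENNReal.ofReal (1 / q.2 ^ 2)) ((Set.univ : Set ℝ) ×ˢ Set.Ioi (0 : ℝ))
    rw [← h3]
    have h4 : (Complex.measurableEquivRealProd ⁻¹' ((Set.univ : Set ℝ) ×ˢ Set.Ioi (0 : ℝ))) =
        {z : ℂ | 0 < z.im} := by
      ext z
      simp [Complex.measurableEquivRealProd_apply]
    rw [h4]
    rfl
  rw [e2, Measure.volume_eq_prod, setLIntegral_prod]
  · rw [Measure.restrict_univ, lintegral_prod_symm _ hh.aemeasurable,
      ← lintegral_const_mul' _ _ (by norm_num)]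
    refine lintegral_congr fun t => ?_
    exact pol_plane (fun x => h (x, t)) (hh.comp (measurable_id.prodMk measurable_const))
  · refine (hΨ.mul ?_).aemeasurable
    have : Measurable (fun q : ℝ × ℝ => 1 / q.2 ^ 2) := by fun_prop
    exact ENNReal.measurable_ofReal.comp this

end Pool.Agent.JO
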