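import Pool.Agent.Lib_helper63.JO.Defs2
import Pool.Agent.Lib_helper63.JOE.COS
import Pool.Agent.Lib_helper63.JOE.CRD
import Pool.Agent.Lib_helper63.JOE.LIB
import Pool.Agent.Lib_helper63.JOE.POL
import Pool.Agent.Lib_helper63.JOE.ROW
/-! Project JO, part E, block UNL: unfolding (helper6). Uses the landed file
`Lib_helper68.GL2.RSA` (`RSA_unfold`, `RSA_mp`, `RSA_countable`). -/

namespace Pool.Agent.JO

open Complex MeasureTheory Filter Topology UpperHalfPlane ModularGroup
open scoped MatrixGroups Modular ENNReal ComplexConjugate ContDiff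

variable {N : ℕ}

/-! ## the action -/

theorem unl_smul (γ : SL(2, ℤ)) (z : ℍ) : toR γ • z = γ • z := by
  ext1
  rw [coe_specialLinearGroup_apply, coe_specialLinearGroup_apply]
  simp [toR]

theorem unl_gg_congr (z : ℍ) {a b : ℝ} (h1 : Real.cos a = Real.cos b)
    (h2 : Real.sin a = Real.sin b) : gg z a = gg z b := by
  apply Subtype.ext
  simp only [gg, h1, h2]

theorem unl_row (z : ℍ) (a : ℝ) : rg (0, 1) (gg z a) =
    Complex.I * cexp (a * Complex.I) / ((√z.im : ℝ) : ℂ) := by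
  rw [rg_gg]
  simp

/-- the angle -/
noncomputable def unl_b (γ : SL(2, ℤ)) (z : ℍ) : ℝ :=
  Complex.arg (conj ((γ 1 0 : ℂ) * (z : ℂ) + (γ 1 1 : ℂ)))

theorem unl_mul (γ : SL(2, ℤ)) (z : ℍ) (a : ℝ) :
    toR γ * gg z a = gg (γ • z) (a + unl_b γ z) := by
  obtain ⟨b', hb'⟩ := gg_mul (toR γ) z
  rw [unl_smul] at hb'
  have h0 := hb' 0
  rw [zero_add] at h0
  have h1 : rg (0, 1) (toR γ * gg z 0) = rg (0, 1) (gg (γ • z) b') := by rw [h0]
  rw [unl_row, rg_toR, rg_gg] at h1
  simp only [zero_mul, one_mul, zero_add, Complex.ofReal_zero,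
    Complex.exp_zero, mul_one] at h1
  set w : ℂ := conj ((γ 1 0 : ℂ) * (z : ℂ) + (γ 1 1 : ℂ)) with hw
  have hy : (0 : ℝ) < √z.im := Real.sqrt_pos.2 z.im_pos
  have hy' : (0 : ℝ) < √(γ • z).im := Real.sqrt_pos.2 (γ • z).im_pos
  have hyc : ((√z.im : ℝ) : ℂ) ≠ 0 := by exact_mod_cast hy.ne'
  have hyc' : ((√(γ • z).im : ℝ) : ℂ) ≠ 0 := by exact_mod_cast hy'.ne'
  have h2 : w = ((√z.im / √(γ • z).im : ℝ) : ℂ) * cexp (b' * Complex.I) := by
    have h3 : Complex.I * w / ((√z.im : ℝ) : ℂ) =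
        Complex.I * cexp (b' * Complex.I) / ((√(γ • z).im : ℝ) : ℂ) := h1
    rw [div_eq_div_iff hyc hyc'] at h3
    have h4 : w * ((√(γ • z).im : ℝ) : ℂ) = cexp (b' * Complex.I) * ((√z.im : ℝ) : ℂ) := by
      apply mul_left_cancel₀ Complex.I_ne_zero
      linear_combination h3
    push_cast
    field_simp
    linear_combination h4
  have hr : 0 < √z.im / √(γ • z).im := by positivity
  have h5 : cexp (unl_b γ z * Complex.I) = cexp (b' * Complex.I) := by
    have h6 : (‖w‖ : ℂ) * cexp (unl_b γ z * Complex.I) = w := Complex.norm_mul_exp_arg_mul_I w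
    have h7 : ‖w‖ = √z.im / √(γ • z).im := by
      rw [h2, norm_mul, Complex.norm_exp_ofReal_mul_I, mul_one, Complex.norm_real,
        Real.norm_eq_abs, abs_of_pos hr]
    rw [h7] at h6
    have h8 : ((√z.im / √(γ • z).im : ℝ) : ℂ) ≠ 0 := by exact_mod_cast hr.ne'
    apply mul_left_cancel₀ h8
    rw [h6, ← h2]
  rw [hb' a]
  have h9 : cexp ((a + unl_b γ z : ℝ) * Complex.I) = cexp ((a + b' : ℝ) * Complex.I) := by
    push_cast
    rw [add_mul, add_mul, Complex.exp_add, Complex.exp_add, h5]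
  apply unl_gg_congr
  · have := congrArg Complex.re h9
    rw [Complex.exp_ofReal_mul_I_re, Complex.exp_ofReal_mul_I_re] at this
    exact this.symm
  · have := congrArg Complex.im h9
    rw [Complex.exp_ofReal_mul_I_im, Complex.exp_ofReal_mul_I_im] at this
    exact this.symm

theorem unl_b_meas (γ : SL(2, ℤ)) : Measurable (unl_b γ) := by
  unfold unl_b
  refine Complex.measurable_arg.comp ?_
  refine Complex.continuous_conj.measurable.comp ?_
  exact (measurable_const.mul measurable_coe).add measurable_const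

theorem unl_smul_meas (γ : SL(2, ℤ)) : Measurable (fun z : ℍ => γ • z) :=
  (JLIB.RSA_mp γ).measurable

theorem unl_mul_meas {β : Type} [MeasurableSpace β] (K : SL(2, ℝ) → β)
    (hm : Measurable (fun p : ℍ × ℝ => K (gg p.1 p.2))) (γ : SL(2, ℤ)) :
    Measurable (fun p : ℍ × ℝ => K (toR γ * gg p.1 p.2)) := by
  have h1 : (fun p : ℍ × ℝ => K (toR γ * gg p.1 p.2)) = (fun p : ℍ × ℝ => K (gg p.1 p.2)) ∘
      (fun p : ℍ × ℝ => (γ • p.1, p.2 + unl_b γ p.1)) := by
    funext p
    simp only [Function.comp_apply, unl_mul]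
  rw [h1]
  refine hm.comp ?_
  exact ((unl_smul_meas γ).comp measurable_fst).prodMk
    (measurable_snd.add ((unl_b_meas γ).comp measurable_fst))

/-! ## the integral over the angle -/

theorem unl_shift (f : ℝ → ℝ≥0∞) (hf : Function.Periodic f (2 * Real.pi)) (hfm : Measurable f)
    (b : ℝ) : ∫⁻ a in Set.Ioc 0 (2 * Real.pi), f (a + b) =
      ∫⁻ a in Set.Ioc 0 (2 * Real.pi), f a := by
  have h1 : ∫⁻ a in Set.Ioc 0 (2 * Real.pi), f (a + b) =
      ∫⁻ a in Set.Ioc b (b + 2 * Real.pi), f a := by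
    have h2 := (measurePreserving_add_right (volume : Measure ℝ) b).setLIntegral_comp_preimage
      (s := Set.Ioc b (b + 2 * Real.pi)) measurableSet_Ioc hfm
    rw [← h2]
    congr 2
    ext a
    simp only [Set.mem_Ioc, Set.mem_preimage]
    constructor <;> rintro ⟨h3, h4⟩ <;> constructor <;> linarith
  rw [h1]
  have h5 := isAddFundamentalDomain_Ioc Real.two_pi_pos b (volume : Measure ℝ)
  have h6 := isAddFundamentalDomain_Ioc Real.two_pi_pos 0 (volume : Measure ℝ)
  rw [zero_add] at h6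
  refine h5.setLIntegral_eq h6 f ?_
  intro g x
  exact hf.map_vadd_zmultiples g x

theorem unl_K_per {β : Type} (K : SL(2, ℝ) → β) (z : ℍ) :
    Function.Periodic (fun a => K (gg z a)) (2 * Real.pi) := by
  intro a
  simp only [(gg_per z a).1]

/-- integration over the angle -/
noncomputable def unl_L (K : SL(2, ℝ) → ℝ≥0∞) (z : ℍ) : ℝ≥0∞ :=
  ∫⁻ a in Set.Ioc 0 (2 * Real.pi), K (gg z a)

theorem unl_L_meas {K : SL(2, ℝ) → ℝ≥0∞} (hm : Measurable (fun p : ℍ × ℝ => K (gg p.1 p.2))) :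
    Measurable (unl_L K) :=
  hm.lintegral_prod_right'

theorem unl_L_mul {K : SL(2, ℝ) → ℝ≥0∞} (hm : Measurable (fun p : ℍ × ℝ => K (gg p.1 p.2)))
    (γ : SL(2, ℤ)) (z : ℍ) :
    ∫⁻ a in Set.Ioc 0 (2 * Real.pi), K (toR γ * gg z a) = unl_L K (γ • z) := by
  simp only [unl_mul]
  exact unl_shift (fun a => K (gg (γ • z) a)) (unl_K_per K _)
    (hm.comp (measurable_const.prodMk measurable_id)) _

/-! ## coordinates -/

/-- the point `t + i/|x|²` -/
noncomputable def unl_z (q : ℂ × ℝ) : ℍ :=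
  ⟨(q.2 : ℂ) + (((if q.1 = 0 then 1 else 1 / Complex.normSq q.1) : ℝ) : ℂ) * Complex.I, by
    simp only [Complex.add_im, Complex.ofReal_im, Complex.mul_im, Complex.ofReal_re,
      Complex.I_im, mul_one, Complex.I_re, mul_zero, zero_add, add_zero]
    split_ifs with h
    · exact one_pos
    · exact one_div_pos.2 (Complex.normSq_pos.2 h)⟩

theorem unl_z_meas : Measurable unl_z := by
  rw [← measurableEmbedding_coe.measurable_comp_iff]
  have h1 : (UpperHalfPlane.coe ∘ unl_z) = fun q : ℂ × ℝ => (q.2 : ℂ) +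
    (((if q.1 = 0 then 1 else 1 / Complex.normSq q.1) : ℝ) : ℂ) * Complex.I := rfl
  rw [h1]
  refine (Complex.measurable_ofReal.comp measurable_snd).add (Measurable.mul ?_ measurable_const)
  refine Complex.measurable_ofReal.comp ?_
  refine Measurable.ite (measurable_fst (measurableSet_singleton (0 : ℂ))) measurable_const ?_
  exact measurable_const.div (Complex.continuous_normSq.measurable.comp measurable_fst)

theorem unl_gx (q : ℂ × ℝ) (h : q.1 ≠ 0) :
    gx q.1 q.2 = gg (unl_z q) (Complex.arg (-Complex.I * q.1)) := by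
  rw [gx_eq_gg]
  have h0 : 0 < Complex.normSq q.1 := Complex.normSq_pos.2 h
  have h1 : (unl_z q).im = 1 / Complex.normSq q.1 := by
    change ((unl_z q : ℍ) : ℂ).im = _
    simp [unl_z, h]
  have h2 : (unl_z q).re = q.2 := by
    change ((unl_z q : ℍ) : ℂ).re = _
    simp [unl_z]
  rw [h2]
  congr 1
  have h3 : √(1 / Complex.normSq q.1) = 1 / ‖q.1‖ := by
    rw [Complex.normSq_eq_norm_sq, Real.sqrt_div' _ (by positivity), Real.sqrt_one,
      Real.sqrt_sq (norm_nonneg _)]
  rw [h1, h3]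
  have h4 : (‖-Complex.I * q.1‖ : ℂ) * cexp (Complex.arg (-Complex.I * q.1) * Complex.I) =
    -Complex.I * q.1 := Complex.norm_mul_exp_arg_mul_I _
  have h5 : ‖-Complex.I * q.1‖ = ‖q.1‖ := by simp
  rw [h5] at h4
  have h6 : (‖q.1‖ : ℂ) ≠ 0 := by exact_mod_cast (norm_ne_zero_iff.2 h)
  push_cast
  rw [div_div_eq_mul_div, div_one]
  have h7 : Complex.I * cexp (Complex.arg (-Complex.I * q.1) * Complex.I) * (‖q.1‖ : ℂ) = q.1 := by
    calc _ = Complex.I * ((‖q.1‖ : ℂ) * cexp (Complex.arg (-Complex.I * q.1) * Complex.I)) := by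
          ring
      _ = -(Complex.I * Complex.I) * q.1 := by rw [h4]; ring
      _ = q.1 := by rw [Complex.I_mul_I]; ring
  rw [h7]

theorem unl_gx_meas {K : SL(2, ℝ) → ℝ≥0∞}
    (hm : Measurable (fun p : ℍ × ℝ => K (gg p.1 p.2))) :
    Measurable (fun q : ℂ × ℝ => K (gx q.1 q.2)) := by
  have h1 : (fun q : ℂ × ℝ => K (gx q.1 q.2)) = fun q : ℂ × ℝ => if q.1 = 0 then K 1 else
      (fun p : ℍ × ℝ => K (gg p.1 p.2)) (unl_z q, Complex.arg (-Complex.I * q.1)) := by
    funext q
    split_ifs with h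
    · simp [gx, h]
    · simp only
      rw [unl_gx q h]
  rw [h1]
  refine Measurable.ite (measurable_fst (measurableSet_singleton (0 : ℂ))) measurable_const ?_
  refine hm.comp (unl_z_meas.prodMk ?_)
  exact Complex.measurable_arg.comp (measurable_const.mul measurable_fst)

theorem unl_re_meas : Measurable (fun z : ℍ => z.re) :=
  Complex.measurable_re.comp measurable_coe

theorem unf_gen [NeZero N] (K : QN N → SL(2, ℝ) → ℝ≥0∞)
    (hm : ∀ s, Measurable (fun p : ℍ × ℝ => K s (gg p.1 p.2))) :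
    ∑ s : QN N, ∫⁻ p : ℍ × ℝ, (∑' γ : SL(2, ℤ), if 0 ≤ (γ • p.1).re ∧ (γ • p.1).re < 1 then
        K (red N γ * s) (toR γ * gg p.1 p.2) else 0) ∂muG =
      4 * ∑ s : QN N, ∫⁻ q : ℂ × ℝ, K s (gx q.1 q.2)
        ∂((volume : Measure ℂ).prod (volume.restrict (Set.Ico (0 : ℝ) 1))) := by
  classical
  have : Countable SL(2, ℤ) := JLIB.RSA_countable
  have hcond : ∀ γ : SL(2, ℤ), MeasurableSet {z : ℍ | 0 ≤ (γ • z).re ∧ (γ • z).re < 1} := by
    intro γ
    have h := unl_re_meas.comp (unl_smul_meas γ)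
    exact (measurableSet_le measurable_const h).inter (measurableSet_lt h measurable_const)
  have hterm : ∀ (s : QN N) (γ : SL(2, ℤ)), Measurable (fun p : ℍ × ℝ =>
      if 0 ≤ (γ • p.1).re ∧ (γ • p.1).re < 1 then
        K (red N γ * s) (toR γ * gg p.1 p.2) else 0) := by
    intro s γ
    exact Measurable.ite (measurable_fst (hcond γ)) (unl_mul_meas _ (hm _) γ) measurable_const
  -- the left side, one `s`
  have h1 : ∀ s : QN N, ∫⁻ p : ℍ × ℝ, (∑' γ : SL(2, ℤ), if 0 ≤ (γ • p.1).re ∧ (γ • p.1).re < 1 then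
        K (red N γ * s) (toR γ * gg p.1 p.2) else 0) ∂muG =
      ∫⁻ z in (𝒟ᵒ : Set ℍ), ∑' γ : SL(2, ℤ), if 0 ≤ (γ • z).re ∧ (γ • z).re < 1 then
        unl_L (K (red N γ * s)) (γ • z) else 0 := by
    intro s
    rw [muG, lintegral_prod _ (Measurable.tsum (hterm s)).aemeasurable]
    refine lintegral_congr fun z => ?_
    rw [lintegral_tsum]
    · refine tsum_congr fun γ => ?_
      by_cases hc : 0 ≤ (γ • z).re ∧ (γ • z).re < 1
      · simp only [hc, and_self, if_true]
        exact unl_L_mul (hm _) γ z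
      · simp only [hc, if_false, lintegral_zero]
    · intro γ
      exact ((hterm s γ).comp (measurable_const.prodMk measurable_id)).aemeasurable
  rw [Finset.sum_congr rfl fun s _ => h1 s]
  have hLm : ∀ s : QN N, Measurable (unl_L (K s)) := fun s => unl_L_meas (hm s)
  rw [← lintegral_finsetSum]
  swap
  · intro s _
    refine Measurable.tsum fun γ => ?_
    exact Measurable.ite (hcond γ) ((hLm _).comp (unl_smul_meas γ)) measurable_const
  set Gf : ℍ → ℝ≥0∞ := fun w => if 0 ≤ w.re ∧ w.re < 1 then ∑ s : QN N, unl_L (K s) w else 0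
    with hGf
  have hGm : Measurable Gf := by
    refine Measurable.ite ?_ ?_ measurable_const
    · exact (measurableSet_le measurable_const unl_re_meas).inter
        (measurableSet_lt unl_re_meas measurable_const)
    · exact Finset.measurable_fun_sum _ fun s _ => hLm s
  have h2 : ∀ z : ℍ, ∑ s : QN N, (∑' γ : SL(2, ℤ), if 0 ≤ (γ • z).re ∧ (γ • z).re < 1 then
        unl_L (K (red N γ * s)) (γ • z) else 0) = ∑' γ : SL(2, ℤ), Gf (γ • z) := by
    intro z
    rw [← Summable.tsum_finsetSum (fun s _ => ENNReal.summable)]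
    refine tsum_congr fun γ => ?_
    by_cases hc : 0 ≤ (γ • z).re ∧ (γ • z).re < 1
    · simp only [hGf, hc, and_self, if_true]
      exact Fintype.sum_equiv (Equiv.mulLeft (red N γ)) _ _ (fun s => rfl)
    · simp only [hGf, hc, if_false, Finset.sum_const_zero]
  simp only [h2]
  rw [JLIB.RSA_unfold Gf hGm]
  -- the right side
  have h3 : ∫⁻ w : ℍ, Gf w = ∑ s : QN N, ∫⁻ p : ℍ × ℝ,
      (fun q : ℂ × ℝ => if 0 ≤ q.2 ∧ q.2 < 1 then K s (gx q.1 q.2) else 0)
        (Complex.I * cexp (p.2 * Complex.I) / ((√p.1.im : ℝ) : ℂ), p.1.re)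
        ∂((volume : Measure ℍ).prod (volume.restrict (Set.Ioc 0 (2 * Real.pi)))) := by
    have h4 : ∀ s : QN N, ∫⁻ p : ℍ × ℝ,
      (fun q : ℂ × ℝ => if 0 ≤ q.2 ∧ q.2 < 1 then K s (gx q.1 q.2) else 0)
        (Complex.I * cexp (p.2 * Complex.I) / ((√p.1.im : ℝ) : ℂ), p.1.re)
        ∂((volume : Measure ℍ).prod (volume.restrict (Set.Ioc 0 (2 * Real.pi)))) =
        ∫⁻ w : ℍ, if 0 ≤ w.re ∧ w.re < 1 then unl_L (K s) w else 0 := by
      intro s
      have h5 : ∀ p : ℍ × ℝ, (fun q : ℂ × ℝ => if 0 ≤ q.2 ∧ q.2 < 1 then K s (gx q.1 q.2) else 0)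
          (Complex.I * cexp (p.2 * Complex.I) / ((√p.1.im : ℝ) : ℂ), p.1.re) =
          if 0 ≤ p.1.re ∧ p.1.re < 1 then K s (gg p.1 p.2) else 0 := by
        intro p
        simp only
        rw [← gx_eq_gg]
      simp only [h5]
      rw [lintegral_prod]
      · refine lintegral_congr fun z => ?_
        by_cases hc : 0 ≤ z.re ∧ z.re < 1
        · simp only [hc, and_self, if_true]
          rfl
        · simp only [hc, if_false, lintegral_zero]
      · refine (Measurable.ite ?_ (hm s) measurable_const).aemeasurable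
        exact (measurableSet_le measurable_const (unl_re_meas.comp measurable_fst)).inter
          (measurableSet_lt (unl_re_meas.comp measurable_fst) measurable_const)
    rw [Finset.sum_congr rfl fun s _ => h4 s, ← lintegral_finsetSum]
    · refine lintegral_congr fun w => ?_
      by_cases hc : 0 ≤ w.re ∧ w.re < 1
      · simp only [hGf, hc, and_self, if_true]
      · simp only [hGf, hc, if_false, Finset.sum_const_zero]
    · intro s _
      refine Measurable.ite ?_ (hLm s) measurable_const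
      exact (measurableSet_le measurable_const unl_re_meas).inter
        (measurableSet_lt unl_re_meas measurable_const)
  have hS : MeasurableSet {q : ℂ × ℝ | 0 ≤ q.2 ∧ q.2 < 1} :=
    (measurableSet_le measurable_const measurable_snd).inter
      (measurableSet_lt measurable_snd measurable_const)
  have h6 : ∀ s : QN N, ∫⁻ p : ℍ × ℝ,
      (fun q : ℂ × ℝ => if 0 ≤ q.2 ∧ q.2 < 1 then K s (gx q.1 q.2) else 0)
        (Complex.I * cexp (p.2 * Complex.I) / ((√p.1.im : ℝ) : ℂ), p.1.re)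
        ∂((volume : Measure ℍ).prod (volume.restrict (Set.Ioc 0 (2 * Real.pi)))) =
      2 * ∫⁻ q : ℂ × ℝ, K s (gx q.1 q.2)
        ∂((volume : Measure ℂ).prod (volume.restrict (Set.Ico (0 : ℝ) 1))) := by
    intro s
    have hKm := unl_gx_meas (hm s)
    rw [polar_ch (fun q : ℂ × ℝ => if 0 ≤ q.2 ∧ q.2 < 1 then K s (gx q.1 q.2) else 0)
      (Measurable.ite hS hKm measurable_const)]
    congr 1
    rw [← Measure.restrict_univ (μ := (volume : Measure ℂ)), Measure.prod_restrict,
      Measure.restrict_univ, ← lintegral_indicator (MeasurableSet.univ.prod measurableSet_Ico)]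
    refine lintegral_congr fun q => ?_
    by_cases hc : 0 ≤ q.2 ∧ q.2 < 1
    · rw [if_pos hc, Set.indicator_of_mem]
      exact ⟨Set.mem_univ _, hc⟩
    · rw [if_neg hc, Set.indicator_of_notMem]
      exact fun h => hc h.2
  rw [h3, Finset.sum_congr rfl fun s _ => h6 s, ← Finset.mul_sum, ← mul_assoc]
  norm_num

theorem unf_lint [NeZero N] (F : QN N → SL(2, ℝ) → ℝ≥0∞)
    (hF : ∀ (γ : SL(2, ℤ)) (s : QN N) (g : SL(2, ℝ)), F (red N γ * s) (toR γ * g) = F s g)
    (hm : ∀ s, Measurable (fun p : ℍ × ℝ => F s (gg p.1 p.2)))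
    (α : ℂ → ZMod N × ZMod N → ℝ≥0∞) (hα : ∀ v, Measurable (fun x => α x v)) :
    ∑ s : QN N, ∫⁻ p : ℍ × ℝ, F s (gg p.1 p.2) *
        (∑' q : ℤ × ℤ, open scoped Classical in
          if IsCoprime q.1 q.2 then α (rg q (gg p.1 p.2)) (rs q s) else 0) ∂muG =
      4 * ∑ s : QN N, ∫⁻ q : ℂ × ℝ, F s (gx q.1 q.2) * α q.1 (bot s)
        ∂((volume : Measure ℂ).prod (volume.restrict (Set.Ico (0 : ℝ) 1))) := by
  classical
  have hrow : Measurable (fun p : ℍ × ℝ => rg (0, 1) (gg p.1 p.2)) := by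
    simp only [unl_row]
    refine (measurable_const.mul ?_).div ?_
    · exact Complex.measurable_exp.comp
        ((Complex.measurable_ofReal.comp measurable_snd).mul measurable_const)
    · refine Complex.measurable_ofReal.comp (Real.continuous_sqrt.measurable.comp ?_)
      exact (Complex.measurable_im.comp measurable_coe).comp measurable_fst
  have h := unf_gen (fun s g => F s g * α (rg (0, 1) g) (bot s))
    (fun s => (hm s).mul ((hα (bot s)).comp hrow))
  have hL : ∀ (s : QN N) (p : ℍ × ℝ), (∑' γ : SL(2, ℤ),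
      if 0 ≤ (γ • p.1).re ∧ (γ • p.1).re < 1 then
        F (red N γ * s) (toR γ * gg p.1 p.2) * α (rg (0, 1) (toR γ * gg p.1 p.2))
          (bot (red N γ * s)) else 0) =
      F s (gg p.1 p.2) * (∑' q : ℤ × ℤ,
          if IsCoprime q.1 q.2 then α (rg q (gg p.1 p.2)) (rs q s) else 0) := by
    intro s p
    have h1 := coset_sum p.1 (fun q => F s (gg p.1 p.2) * α (rg q (gg p.1 p.2)) (rs q s))
    rw [← ENNReal.tsum_mul_left]
    simp only [mul_ite, mul_zero]
    rw [← h1]
    refine tsum_congr fun γ => ?_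
    by_cases hc : 0 ≤ (γ • p.1).re ∧ (γ • p.1).re < 1
    · rw [if_pos hc, if_pos hc, hF, rg_toR, ← rs_one, rs_red]
      simp
    · rw [if_neg hc, if_neg hc]
  simp only [hL] at h
  rw [h]
  congr 1
  refine Finset.sum_congr rfl fun s _ => ?_
  have hae : ∀ᵐ q : ℂ × ℝ ∂((volume : Measure ℂ).prod (volume.restrict (Set.Ico (0 : ℝ) 1))),
      q.1 ≠ 0 := by
    rw [ae_iff]
    have : {q : ℂ × ℝ | ¬ q.1 ≠ 0} = ({0} : Set ℂ) ×ˢ (Set.univ : Set ℝ) := by
      ext q
      simp
    rw [this, Measure.prod_prod]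
    simp
  refine lintegral_congr_ae ?_
  filter_upwards [hae] with q hq
  rw [rg_gx hq]
  simp

end Pool.Agent.JO
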