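import Pool.Agent.Lib_helper63.JO.Defs2
import Pool.Agent.Lib_helper63.JOE.CF1
import Pool.Agent.Lib_helper63.JOE.CN1
import Pool.Agent.Lib_helper63.JOE.CRD
import Pool.Agent.Lib_helper63.JOE.UNL
/-!
# Part E, block CF2: the local `L²` bound of the constant term
-/

namespace Pool.Agent.JO

open Complex MeasureTheory Filter Topology UpperHalfPlane ModularGroup
open scoped MatrixGroups Modular ENNReal ComplexConjugate ContDiff

variable {N : ℕ}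

open scoped Classical in
/-- the imaginary part -/
noncomputable def cf2_im (x : ℂ) : ℝ := if x = 0 then 1 else (Complex.normSq x)⁻¹

theorem cf2_im_pos (x : ℂ) : 0 < cf2_im x := by
  unfold cf2_im
  split_ifs with h
  · exact one_pos
  · exact inv_pos.2 (Complex.normSq_pos.2 h)

theorem cf2_im_meas : Measurable cf2_im := by
  unfold cf2_im
  exact Measurable.ite (measurableSet_singleton 0) measurable_const
    (Complex.continuous_normSq.measurable.inv)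

/-- the coordinates of `gx x t` -/
noncomputable def cf2_psi (q : ℂ × ℝ) : ℍ × ℝ :=
  (⟨⟨q.2, cf2_im q.1⟩, cf2_im_pos q.1⟩, Complex.arg (-(Complex.I * q.1)))

theorem cf2_psi_meas : Measurable cf2_psi := by
  unfold cf2_psi
  refine Measurable.prodMk ?_ ?_
  · rw [← UpperHalfPlane.measurableEmbedding_coe.measurable_comp_iff]
    have h : (UpperHalfPlane.coe ∘ fun q : ℂ × ℝ =>
        (⟨⟨q.2, cf2_im q.1⟩, cf2_im_pos q.1⟩ : ℍ)) =
        fun q : ℂ × ℝ => (q.2 : ℂ) + (cf2_im q.1 : ℂ) * Complex.I := by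
      funext q
      show (⟨q.2, cf2_im q.1⟩ : ℂ) = _
      rw [Complex.mk_eq_add_mul_I]
    rw [h]
    exact (Complex.measurable_ofReal.comp measurable_snd).add
      ((Complex.measurable_ofReal.comp (cf2_im_meas.comp measurable_fst)).mul measurable_const)
  · exact Complex.measurable_arg.comp (measurable_const.mul measurable_fst).neg

theorem cf2_gx {x : ℂ} (hx : x ≠ 0) (t : ℝ) :
    gx x t = gg (cf2_psi (x, t)).1 (cf2_psi (x, t)).2 := by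
  set z : ℍ := (cf2_psi (x, t)).1 with hz
  have hzim : z.im = (Complex.normSq x)⁻¹ := by
    show cf2_im x = _
    unfold cf2_im
    rw [if_neg hx]
  have hzre : z.re = t := rfl
  have hsq : (√z.im : ℝ) = ‖x‖⁻¹ := by
    rw [hzim, Complex.normSq_eq_norm_sq, ← inv_pow, Real.sqrt_sq (by positivity)]
  have h := gx_eq_gg z (Complex.arg (-(Complex.I * x)))
  have hx2 : Complex.I * cexp ((Complex.arg (-(Complex.I * x)) : ℝ) * Complex.I) /
      ((√z.im : ℝ) : ℂ) = x := by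
    have h1 := Complex.norm_mul_exp_arg_mul_I (-(Complex.I * x))
    have h2 : ‖-(Complex.I * x)‖ = ‖x‖ := by simp
    rw [h2] at h1
    have h3 : (‖x‖ : ℂ) ≠ 0 := by
      exact_mod_cast norm_ne_zero_iff.2 hx
    rw [hsq]
    push_cast
    rw [div_inv_eq_mul, mul_assoc, mul_comm (cexp _) _, h1]
    linear_combination (-x) * Complex.I_sq
  rw [hx2, hzre] at h
  exact h.symm

theorem cf2_ae_ne {μ : Measure ℂ} (hμ : ∀ᵐ x ∂μ, x ≠ 0) (ν : Measure ℝ) [SFinite ν]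
    [SFinite μ] : ∀ᵐ q : ℂ × ℝ ∂(μ.prod ν), q.1 ≠ 0 :=
  Measure.quasiMeasurePreserving_fst.ae hμ

theorem cf2_ae_vol : ∀ᵐ x : ℂ, x ≠ 0 := by
  have h : (volume : Measure ℂ) {0} = 0 := measure_singleton 0
  exact compl_mem_ae_iff.2 h

theorem cf2_G_meas {F : QN N → SL(2, ℝ) → ℂ} (hF : MF F) (s : QN N) :
    Measurable (fun q : ℂ × ℝ => F s (gg (cf2_psi q).1 (cf2_psi q).2)) :=
  (hF.2 s).comp cf2_psi_meas

/-- the bound by the norm -/
theorem cf2_main [NeZero N] {R : ℝ} {C₀ : ℕ} (hC : ∀ g : SL(2, ℝ),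
    {p : ℤ × ℤ | IsCoprime p.1 p.2 ∧ ‖rg p g‖ ≤ R}.encard ≤ C₀)
    {F : QN N → SL(2, ℝ) → ℂ} (hF : MF F) :
    4 * ∑ s : QN N, ∫⁻ q : ℂ × ℝ, ‖F s (gx q.1 q.2)‖ₑ ^ 2
      ∂((volume.restrict (Metric.closedBall (0 : ℂ) R)).prod
        (volume.restrict (Set.Ioc (0 : ℝ) 1))) ≤
      C₀ * ∑ s : QN N, ∫⁻ p : ℍ × ℝ, ‖F s (gg p.1 p.2)‖ₑ ^ 2 ∂muG := by
  classical
  have h := unf_lint (N := N) (fun s g => ‖F s g‖ₑ ^ 2)
    (fun γ s g => by rw [hF.1 γ s g])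
    (fun s => ((hF.2 s).enorm).pow_const 2)
    (fun x _ => if ‖x‖ ≤ R then 1 else 0)
    (fun _ => Measurable.ite (measurableSet_le measurable_norm measurable_const)
      measurable_const measurable_const)
  have e1 : ∀ s : QN N, ∫⁻ q : ℂ × ℝ, ‖F s (gx q.1 q.2)‖ₑ ^ 2 * (if ‖q.1‖ ≤ R then 1 else 0)
      ∂((volume : Measure ℂ).prod (volume.restrict (Set.Ico (0 : ℝ) 1))) =
      ∫⁻ q : ℂ × ℝ, ‖F s (gx q.1 q.2)‖ₑ ^ 2
      ∂((volume.restrict (Metric.closedBall (0 : ℂ) R)).prod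
        (volume.restrict (Set.Ioc (0 : ℝ) 1))) := by
    intro s
    have e2 : (volume : Measure ℝ).restrict (Set.Ico (0 : ℝ) 1) =
        volume.restrict (Set.Ioc (0 : ℝ) 1) := Measure.restrict_congr_set Ico_ae_eq_Ioc
    rw [e2]
    have e3 : ((volume : Measure ℂ).restrict (Metric.closedBall (0 : ℂ) R)).prod
        ((volume : Measure ℝ).restrict (Set.Ioc (0 : ℝ) 1)) =
        ((volume : Measure ℂ).prod ((volume : Measure ℝ).restrict (Set.Ioc (0 : ℝ) 1))).restrict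
          (Metric.closedBall (0 : ℂ) R ×ˢ Set.univ) := by
      rw [← Measure.prod_restrict, Measure.restrict_univ]
    have hms : MeasurableSet (Metric.closedBall (0 : ℂ) R ×ˢ (Set.univ : Set ℝ)) :=
      (Metric.isClosed_closedBall.measurableSet).prod MeasurableSet.univ
    rw [e3, ← lintegral_indicator hms]
    refine lintegral_congr fun q => ?_
    by_cases hq : ‖q.1‖ ≤ R
    · rw [if_pos hq, mul_one, Set.indicator_of_mem]
      exact ⟨by simpa using hq, Set.mem_univ _⟩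
    · rw [if_neg hq, mul_zero, Set.indicator_of_notMem]
      rintro ⟨h1, -⟩
      exact hq (by simpa using h1)
  simp only [e1] at h
  rw [← h, Finset.mul_sum]
  refine Finset.sum_le_sum fun s _ => ?_
  rw [← lintegral_const_mul _ (((hF.2 s).enorm).pow_const 2)]
  refine lintegral_mono fun p => ?_
  show ‖F s (gg p.1 p.2)‖ₑ ^ 2 * _ ≤ C₀ * ‖F s (gg p.1 p.2)‖ₑ ^ 2
  rw [mul_comm]
  refine mul_le_mul' ?_ le_rfl
  have e4 : ∀ q : ℤ × ℤ, (if IsCoprime q.1 q.2 then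
      (if ‖rg q (gg p.1 p.2)‖ ≤ R then (1 : ℝ≥0∞) else 0) else 0) =
      Set.indicator {p' : ℤ × ℤ | IsCoprime p'.1 p'.2 ∧ ‖rg p' (gg p.1 p.2)‖ ≤ R}
        (fun _ => (1 : ℝ≥0∞)) q := by
    intro q
    by_cases h1 : IsCoprime q.1 q.2
    · by_cases h2 : ‖rg q (gg p.1 p.2)‖ ≤ R
      · rw [if_pos h1, if_pos h2, Set.indicator_of_mem]
        exact ⟨h1, h2⟩
      · rw [if_pos h1, if_neg h2, Set.indicator_of_notMem]
        exact fun h => h2 h.2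
    · rw [if_neg h1, Set.indicator_of_notMem]
      exact fun h => h1 h.1
  have e5 : (∑' q : ℤ × ℤ, if IsCoprime q.1 q.2 then
      (if ‖rg q (gg p.1 p.2)‖ ≤ R then (1 : ℝ≥0∞) else 0) else 0) ≤ C₀ := by
    rw [tsum_congr e4, ← tsum_subtype, ENNReal.tsum_set_one]
    exact_mod_cast hC (gg p.1 p.2)
  convert e5

/-- the Cauchy-Schwarz inequality for the average -/
theorem cf2_cs {f : ℝ → ℂ} (hf : Measurable f) :
    ‖∫ t in (0 : ℝ)..1, f t‖ₑ ^ 2 ≤ ∫⁻ t in Set.Ioc (0 : ℝ) 1, ‖f t‖ₑ ^ 2 := by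
  have h1 : ‖∫ t in (0 : ℝ)..1, f t‖ₑ ≤ ∫⁻ t in Set.Ioc (0 : ℝ) 1, ‖f t‖ₑ := by
    rw [intervalIntegral.integral_of_le zero_le_one]
    exact enorm_integral_le_lintegral_enorm _
  have h2 := ENNReal.lintegral_mul_le_Lp_mul_Lq (volume.restrict (Set.Ioc (0 : ℝ) 1))
    Real.HolderConjugate.two_two (f := fun t => ‖f t‖ₑ) (g := fun _ => 1)
    hf.enorm.aemeasurable aemeasurable_const
  simp only [Pi.mul_apply, mul_one, ENNReal.one_rpow, lintegral_const, Measure.restrict_apply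
    MeasurableSet.univ, Set.univ_inter, Real.volume_Ioc, sub_zero, ENNReal.ofReal_one] at h2
  have h3 : (∫⁻ t in Set.Ioc (0 : ℝ) 1, ‖f t‖ₑ) ^ 2 ≤ ∫⁻ t in Set.Ioc (0 : ℝ) 1, ‖f t‖ₑ ^ 2 := by
    have h4 := pow_le_pow_left' h2 2
    refine h4.trans (le_of_eq ?_)
    rw [← ENNReal.rpow_natCast, ← ENNReal.rpow_mul]
    norm_num
  exact (pow_le_pow_left' h1 2).trans h3

theorem cf2_CF_le [NeZero N] {F : QN N → SL(2, ℝ) → ℂ} (hF : MF F) {x : ℂ} (hx : x ≠ 0)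
    (v : ZMod N × ZMod N) : ‖CF F x v‖ₑ ^ 2 ≤ (Fintype.card (QN N) : ℝ≥0∞) *
      ∑ s : QN N, ∫⁻ t in Set.Ioc (0 : ℝ) 1, ‖F s (gx x t)‖ₑ ^ 2 := by
  classical
  have hN : 1 ≤ N := Nat.one_le_iff_ne_zero.2 (NeZero.ne N)
  have hmeas : ∀ s, Measurable (fun t : ℝ => F s (gx x t)) := by
    intro s
    have h1 : (fun t : ℝ => F s (gx x t)) =
        (fun q : ℂ × ℝ => F s (gg (cf2_psi q).1 (cf2_psi q).2)) ∘ (fun t => (x, t)) := by
      funext t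
      simp only [Function.comp]
      rw [cf2_gx hx]
    rw [h1]
    exact (cf2_G_meas hF s).comp measurable_prodMk_left
  have h1 : ‖CF F x v‖ₑ ≤ ∑ s : QN N, ‖∫ t in (0 : ℝ)..1, F s (gx x t)‖ₑ := by
    unfold CF
    rw [enorm_mul]
    have h2 : ‖(N : ℂ)⁻¹‖ₑ ≤ 1 := by
      rw [← ofReal_norm, norm_inv, Complex.norm_natCast]
      rw [ENNReal.ofReal_le_one]
      exact inv_le_one_of_one_le₀ (by exact_mod_cast hN)
    calc ‖(N : ℂ)⁻¹‖ₑ * ‖∑ s : QN N, if bot s = v then ∫ t in (0 : ℝ)..1, F s (gx x t) else 0‖ₑ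
        ≤ 1 * ‖∑ s : QN N, if bot s = v then ∫ t in (0 : ℝ)..1, F s (gx x t) else 0‖ₑ :=
          mul_le_mul' h2 le_rfl
      _ ≤ ∑ s : QN N, ‖if bot s = v then ∫ t in (0 : ℝ)..1, F s (gx x t) else 0‖ₑ := by
          rw [one_mul]
          exact enorm_sum_le _ _
      _ ≤ ∑ s : QN N, ‖∫ t in (0 : ℝ)..1, F s (gx x t)‖ₑ := by
          refine Finset.sum_le_sum fun s _ => ?_
          split_ifs
          · exact le_rfl
          · simp
  have h3 := ENNReal.rpow_sum_le_const_mul_sum_rpow (Finset.univ : Finset (QN N))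
    (fun s => ‖∫ t in (0 : ℝ)..1, F s (gx x t)‖ₑ) (p := 2) (by norm_num)
  have h4 : (2 : ℝ) - 1 = 1 := by norm_num
  rw [h4, ENNReal.rpow_one, Finset.card_univ] at h3
  simp only [ENNReal.rpow_two] at h3
  calc ‖CF F x v‖ₑ ^ 2 ≤ (∑ s : QN N, ‖∫ t in (0 : ℝ)..1, F s (gx x t)‖ₑ) ^ 2 :=
        pow_le_pow_left' h1 2
    _ ≤ _ := h3
    _ ≤ _ := by
        refine mul_le_mul' le_rfl (Finset.sum_le_sum fun s _ => cf2_cs (hmeas s))

/-- local `L²` bound -/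
theorem CF_loc [NeZero N] (R : ℝ) : ∃ C : ℝ, 0 ≤ C ∧ ∀ F : QN N → SL(2, ℝ) → ℂ, SqF F →
    (∀ s : QN N, Integrable (fun q : ℂ × ℝ => ‖F s (gx q.1 q.2)‖ ^ 2)
      ((volume.restrict (Metric.closedBall (0 : ℂ) R)).prod
        (volume.restrict (Set.Ioc (0 : ℝ) 1)))) ∧
    (∀ v ∈ PV N, IntegrableOn (fun x => ‖CF F x v‖ ^ 2) (Metric.closedBall (0 : ℂ) R)) ∧
    ∑ v ∈ PV N, ∫ x in Metric.closedBall (0 : ℂ) R, ‖CF F x v‖ ^ 2 ≤ C * (ip F F).re := by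
  classical
  obtain ⟨C₀, hC₀⟩ := prim_count R
  set K : ℕ := Fintype.card (QN N) with hK
  refine ⟨(PV N).card * (K * C₀ / 4), by positivity, fun F hF => ?_⟩
  have hmain := cf2_main hC₀ hF.mf
  set μ := ((volume : Measure ℂ).restrict (Metric.closedBall (0 : ℂ) R)).prod
    ((volume : Measure ℝ).restrict (Set.Ioc (0 : ℝ) 1)) with hμ
  -- the norm
  have hip : (ip F F).re = ∑ s : QN N, ∫ p : ℍ × ℝ, ‖F s (gg p.1 p.2)‖ ^ 2 ∂muG := by
    unfold ip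
    rw [Complex.re_sum]
    refine Finset.sum_congr rfl fun s _ => ?_
    have h1 : ∀ p : ℍ × ℝ, F s (gg p.1 p.2) * conj (F s (gg p.1 p.2)) =
        ((‖F s (gg p.1 p.2)‖ ^ 2 : ℝ) : ℂ) := fun p => by
      rw [Complex.mul_conj, Complex.normSq_eq_norm_sq]
    simp only [h1]
    have h2 : ∫ p : ℍ × ℝ, ((‖F s (gg p.1 p.2)‖ ^ 2 : ℝ) : ℂ) ∂muG =
        ((∫ p : ℍ × ℝ, ‖F s (gg p.1 p.2)‖ ^ 2 ∂muG : ℝ) : ℂ) := integral_ofReal
    rw [h2, Complex.ofReal_re]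
  have hsq : ∀ y : ℂ, ENNReal.ofReal (‖y‖ ^ 2) = ‖y‖ₑ ^ 2 := fun y => by
    rw [ENNReal.ofReal_pow (norm_nonneg _), ofReal_norm]
  have hnorm : ∑ s : QN N, ∫⁻ p : ℍ × ℝ, ‖F s (gg p.1 p.2)‖ₑ ^ 2 ∂muG =
      ENNReal.ofReal (ip F F).re := by
    rw [hip, ENNReal.ofReal_sum_of_nonneg (fun s _ => integral_nonneg fun p => by positivity)]
    refine Finset.sum_congr rfl fun s _ => ?_
    rw [ofReal_integral_eq_lintegral_ofReal (hF.sq s) (ae_of_all _ fun p => by positivity)]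
    exact lintegral_congr fun p => (hsq _).symm
  have hip0 : 0 ≤ (ip F F).re := by
    rw [hip]
    exact Finset.sum_nonneg fun s _ => integral_nonneg fun p => by positivity
  rw [hnorm] at hmain
  -- finiteness
  have hfin4 : 4 * ∑ s : QN N, ∫⁻ q : ℂ × ℝ, ‖F s (gx q.1 q.2)‖ₑ ^ 2 ∂μ < ⊤ :=
    lt_of_le_of_lt hmain (ENNReal.mul_lt_top (by simp) ENNReal.ofReal_lt_top)
  have hfin : ∑ s : QN N, ∫⁻ q : ℂ × ℝ, ‖F s (gx q.1 q.2)‖ₑ ^ 2 ∂μ < ⊤ := by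
    refine lt_of_le_of_lt ?_ hfin4
    conv_lhs => rw [← one_mul (∑ s : QN N, ∫⁻ q : ℂ × ℝ, ‖F s (gx q.1 q.2)‖ₑ ^ 2 ∂μ)]
    exact mul_le_mul' (by norm_num) le_rfl
  have hae : ∀ᵐ x ∂((volume : Measure ℂ).restrict (Metric.closedBall (0 : ℂ) R)), x ≠ 0 :=
    ae_restrict_of_ae cf2_ae_vol
  have hae2 : ∀ᵐ q : ℂ × ℝ ∂μ, q.1 ≠ 0 := cf2_ae_ne hae _
  have hcongr : ∀ s, (fun q : ℂ × ℝ => F s (gg (cf2_psi q).1 (cf2_psi q).2)) =ᵐ[μ]
      (fun q : ℂ × ℝ => F s (gx q.1 q.2)) := fun s => by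
    filter_upwards [hae2] with q hq
    rw [cf2_gx hq]
  have haem : ∀ s, AEStronglyMeasurable (fun q : ℂ × ℝ => F s (gx q.1 q.2)) μ := fun s =>
    ((cf2_G_meas hF.mf s).aestronglyMeasurable).congr (hcongr s)
  have hint : ∀ s, Integrable (fun q : ℂ × ℝ => ‖F s (gx q.1 q.2)‖ ^ 2) μ := by
    intro s
    refine ⟨(haem s).norm.pow 2, ?_⟩
    unfold HasFiniteIntegral
    have h1 : ∀ q : ℂ × ℝ, ‖‖F s (gx q.1 q.2)‖ ^ 2‖ₑ = ‖F s (gx q.1 q.2)‖ₑ ^ 2 := fun q => by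
      rw [← hsq, ← ofReal_norm, norm_pow, norm_norm]
    simp only [h1]
    exact lt_of_le_of_lt (Finset.single_le_sum (f := fun s : QN N =>
      ∫⁻ q : ℂ × ℝ, ‖F s (gx q.1 q.2)‖ₑ ^ 2 ∂μ) (fun _ _ => bot_le) (Finset.mem_univ s)) hfin
  -- the constant term
  have hCFl : ∀ v, ∫⁻ x in Metric.closedBall (0 : ℂ) R, ‖CF F x v‖ₑ ^ 2 ≤
      (K : ℝ≥0∞) * ∑ s : QN N, ∫⁻ q : ℂ × ℝ, ‖F s (gx q.1 q.2)‖ₑ ^ 2 ∂μ := by
    intro v
    have h1 : ∫⁻ x in Metric.closedBall (0 : ℂ) R, ‖CF F x v‖ₑ ^ 2 ≤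
        ∫⁻ x in Metric.closedBall (0 : ℂ) R, (K : ℝ≥0∞) *
          ∑ s : QN N, ∫⁻ t in Set.Ioc (0 : ℝ) 1,
            ‖F s (gg (cf2_psi (x, t)).1 (cf2_psi (x, t)).2)‖ₑ ^ 2 := by
      refine lintegral_mono_ae ?_
      filter_upwards [hae] with x hx
      refine (cf2_CF_le hF.mf hx v).trans (le_of_eq ?_)
      rw [← hK]
      simp only [cf2_gx hx]
    have hms : ∀ s : QN N, Measurable (fun q : ℂ × ℝ =>
        ‖F s (gg (cf2_psi q).1 (cf2_psi q).2)‖ₑ ^ 2) := fun s =>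
      ((cf2_G_meas hF.mf s).enorm).pow_const 2
    refine h1.trans (le_of_eq ?_)
    rw [lintegral_const_mul]
    · congr 1
      rw [lintegral_finsetSum]
      · refine Finset.sum_congr rfl fun s _ => ?_
        rw [hμ]
        rw [← lintegral_prod (fun q : ℂ × ℝ => ‖F s (gg (cf2_psi q).1 (cf2_psi q).2)‖ₑ ^ 2)
          (hms s).aemeasurable]
        refine lintegral_congr_ae ?_
        filter_upwards [hcongr s] with q hq
        rw [hq]
      · intro s _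
        exact (hms s).lintegral_prod_right'
    · exact Finset.measurable_sum _ fun s _ => (hms s).lintegral_prod_right'
  have hCF4 : ∀ v, 4 * ∫⁻ x in Metric.closedBall (0 : ℂ) R, ‖CF F x v‖ₑ ^ 2 ≤
      ENNReal.ofReal (K * C₀ * (ip F F).re) := by
    intro v
    calc 4 * ∫⁻ x in Metric.closedBall (0 : ℂ) R, ‖CF F x v‖ₑ ^ 2
        ≤ 4 * ((K : ℝ≥0∞) * ∑ s : QN N, ∫⁻ q : ℂ × ℝ, ‖F s (gx q.1 q.2)‖ₑ ^ 2 ∂μ) :=
          mul_le_mul' le_rfl (hCFl v)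
      _ = (K : ℝ≥0∞) * (4 * ∑ s : QN N, ∫⁻ q : ℂ × ℝ, ‖F s (gx q.1 q.2)‖ₑ ^ 2 ∂μ) := by ring
      _ ≤ (K : ℝ≥0∞) * (C₀ * ENNReal.ofReal (ip F F).re) := mul_le_mul' le_rfl hmain
      _ = ENNReal.ofReal (K * C₀ * (ip F F).re) := by
          rw [mul_assoc (K : ℝ), ENNReal.ofReal_mul (by positivity),
            ENNReal.ofReal_mul (by positivity), ENNReal.ofReal_natCast, ENNReal.ofReal_natCast]
  have hCFm : ∀ v, AEStronglyMeasurable (fun x => CF F x v)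
      ((volume : Measure ℂ).restrict (Metric.closedBall (0 : ℂ) R)) := by
    intro v
    refine (CF_meas hF.mf v).aestronglyMeasurable.congr ?_
    filter_upwards [hae] with x hx
    rw [if_neg hx]
  have hCFfin : ∀ v, ∫⁻ x in Metric.closedBall (0 : ℂ) R, ‖CF F x v‖ₑ ^ 2 < ⊤ := by
    intro v
    refine lt_of_le_of_lt ?_ (lt_of_le_of_lt (hCF4 v) ENNReal.ofReal_lt_top)
    conv_lhs => rw [← one_mul (∫⁻ x in Metric.closedBall (0 : ℂ) R, ‖CF F x v‖ₑ ^ 2)]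
    exact mul_le_mul' (by norm_num) le_rfl
  have hCFi : ∀ v, IntegrableOn (fun x => ‖CF F x v‖ ^ 2) (Metric.closedBall (0 : ℂ) R) := by
    intro v
    refine ⟨(hCFm v).norm.pow 2, ?_⟩
    unfold HasFiniteIntegral
    have h1 : ∀ x : ℂ, ‖‖CF F x v‖ ^ 2‖ₑ = ‖CF F x v‖ₑ ^ 2 := fun x => by
      rw [← hsq, ← ofReal_norm, norm_pow, norm_norm]
    simp only [h1]
    exact hCFfin v
  refine ⟨hint, fun v _ => hCFi v, ?_⟩
  have hone : ∀ v ∈ PV N, ∫ x in Metric.closedBall (0 : ℂ) R, ‖CF F x v‖ ^ 2 ≤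
      K * C₀ / 4 * (ip F F).re := by
    intro v _
    have h1 := ofReal_integral_eq_lintegral_ofReal (hCFi v) (ae_of_all _ fun x => by positivity)
    simp only [hsq] at h1
    have h2 := hCF4 v
    rw [← h1] at h2
    have h3 : (4 : ℝ≥0∞) = ENNReal.ofReal 4 := by norm_num
    rw [h3, ← ENNReal.ofReal_mul (by norm_num), ENNReal.ofReal_le_ofReal_iff (by positivity)] at h2
    linarith
  refine (Finset.sum_le_sum hone).trans (le_of_eq ?_)
  rw [Finset.sum_const, nsmul_eq_mul]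
  ring

end Pool.Agent.JO
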