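import Pool.Agent.Lib_helper63.JO.Defs2
import Pool.Agent.Lib_helper63.JOE.CN1
import Pool.Agent.Lib_helper63.JOE.CRD
import Pool.Agent.Lib_helper63.JOE.ROW
/-!
# Part E, block CN2: absolute convergence of theta series
-/

namespace Pool.Agent.JO

open Complex MeasureTheory Filter Topology UpperHalfPlane ModularGroup
open scoped MatrixGroups Modular ENNReal ComplexConjugate ContDiff

variable {N : ℕ}

theorem cn2_partial {h : ℝ} (hh : 0 < h) (M : ℕ) :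
    ∑ n ∈ Finset.range (M + 1), ((1 + h * n) ^ 2)⁻¹ ≤ 1 + h⁻¹ * (1 - (1 + h * M)⁻¹) := by
  induction M with
  | zero => simp
  | succ M ih =>
    rw [Finset.sum_range_succ]
    have h1 : (0 : ℝ) < 1 + h * M := by positivity
    have h2 : (0 : ℝ) < 1 + h * ((M + 1 : ℕ) : ℝ) := by positivity
    have h3 : ((1 + h * ((M + 1 : ℕ) : ℝ)) ^ 2)⁻¹ ≤
        h⁻¹ * ((1 + h * M)⁻¹ - (1 + h * ((M + 1 : ℕ) : ℝ))⁻¹) := by
      have e : h⁻¹ * ((1 + h * M)⁻¹ - (1 + h * ((M + 1 : ℕ) : ℝ))⁻¹) =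
          ((1 + h * M) * (1 + h * ((M + 1 : ℕ) : ℝ)))⁻¹ := by
        push_cast at h2 ⊢
        field_simp
        ring
      rw [e, sq]
      apply inv_anti₀ (by positivity)
      apply mul_le_mul_of_nonneg_right _ h2.le
      push_cast
      nlinarith
    have h4 : h⁻¹ * (1 - (1 + h * M)⁻¹) + h⁻¹ * ((1 + h * M)⁻¹ - (1 + h * ((M + 1 : ℕ) : ℝ))⁻¹) =
        h⁻¹ * (1 - (1 + h * ((M + 1 : ℕ) : ℝ))⁻¹) := by ring
    linarith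

theorem cn2_partial' {h : ℝ} (hh : 0 < h) (M : ℕ) :
    ∑ n ∈ Finset.range M, ((1 + h * n) ^ 2)⁻¹ ≤ 1 + h⁻¹ := by
  have h1 : ∑ n ∈ Finset.range M, ((1 + h * n) ^ 2)⁻¹ ≤
      ∑ n ∈ Finset.range (M + 1), ((1 + h * n) ^ 2)⁻¹ := by
    rw [Finset.sum_range_succ]
    have : (0 : ℝ) ≤ ((1 + h * M) ^ 2)⁻¹ := by positivity
    linarith
  have h2 := cn2_partial hh M
  have h3 : h⁻¹ * (1 - (1 + h * M)⁻¹) ≤ h⁻¹ := by
    have : (0 : ℝ) < h⁻¹ := by positivity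
    have h4 : (0 : ℝ) ≤ (1 + h * M)⁻¹ := by positivity
    nlinarith
  linarith

theorem cn2_nat {h : ℝ} (hh : 0 < h) : Summable (fun n : ℕ => ((1 + h * n) ^ 2)⁻¹) ∧
    ∑' n : ℕ, ((1 + h * n) ^ 2)⁻¹ ≤ 1 + h⁻¹ := by
  have hs := summable_of_sum_range_le (f := fun n : ℕ => ((1 + h * n) ^ 2)⁻¹) (c := 1 + h⁻¹)
    (fun n => by positivity) (fun M => cn2_partial' hh M)
  exact ⟨hs, hs.tsum_le_of_sum_range_le fun M => cn2_partial' hh M⟩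

theorem cn2_int {h : ℝ} (hh : 0 < h) : Summable (fun n : ℤ => ((1 + h * |(n : ℝ)|) ^ 2)⁻¹) ∧
    ∑' n : ℤ, ((1 + h * |(n : ℝ)|) ^ 2)⁻¹ ≤ 2 * (1 + h⁻¹) := by
  obtain ⟨h1, h2⟩ := cn2_nat hh
  have e1 : (fun n : ℕ => ((1 + h * |((n : ℤ) : ℝ)|) ^ 2)⁻¹) =
      fun n : ℕ => ((1 + h * n) ^ 2)⁻¹ := by
    funext n
    simp
  have e2 : (fun n : ℕ => ((1 + h * |((-((n : ℤ) + 1) : ℤ) : ℝ)|) ^ 2)⁻¹) =
      fun n : ℕ => ((1 + h * ((n + 1 : ℕ) : ℝ)) ^ 2)⁻¹ := by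
    funext n
    have : |((-((n : ℤ) + 1) : ℤ) : ℝ)| = ((n + 1 : ℕ) : ℝ) := by
      push_cast
      rw [abs_neg, abs_of_nonneg (by positivity)]
    rw [this]
  have h1' : Summable (fun n : ℕ => ((1 + h * ((n + 1 : ℕ) : ℝ)) ^ 2)⁻¹) :=
    (summable_nat_add_iff 1).2 h1
  have h2' : ∑' n : ℕ, ((1 + h * ((n + 1 : ℕ) : ℝ)) ^ 2)⁻¹ ≤ 1 + h⁻¹ := by
    refine le_trans ?_ h2
    have h3 := h1.tsum_eq_zero_add
    rw [h3]
    have : (0 : ℝ) ≤ ((1 + h * ((0 : ℕ) : ℝ)) ^ 2)⁻¹ := by positivity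
    linarith
  have hs1 : Summable (fun n : ℕ => ((1 + h * |((n : ℤ) : ℝ)|) ^ 2)⁻¹) := by rw [e1]; exact h1
  have hs2 : Summable (fun n : ℕ => ((1 + h * |((-((n : ℤ) + 1) : ℤ) : ℝ)|) ^ 2)⁻¹) := by
    rw [e2]; exact h1'
  have hs := Summable.of_nat_of_neg_add_one (f := fun n : ℤ => ((1 + h * |(n : ℝ)|) ^ 2)⁻¹) hs1 hs2
  refine ⟨hs, ?_⟩
  have ht := tsum_of_nat_of_neg_add_one (f := fun n : ℤ => ((1 + h * |(n : ℝ)|) ^ 2)⁻¹) hs1 hs2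
  rw [ht, e1, e2]
  linarith

theorem cn2_bound {z : ℍ} (hz : z ∈ 𝒟) (a : ℝ) (v : ℤ × ℤ) :
    (1 + ‖rg v (gg z a)‖) ^ (-4 : ℝ) ≤
      ((1 + (√z.im / 2) * |(v.1 : ℝ)|) ^ 2)⁻¹ * ((1 + (2 * √z.im)⁻¹ * |(v.2 : ℝ)|) ^ 2)⁻¹ := by
  have hy : 0 < z.im := z.im_pos
  have hsy : 0 < √z.im := Real.sqrt_pos.2 hy
  have hsq : √z.im ^ 2 = z.im := Real.sq_sqrt hy.le
  set A : ℝ := √z.im * |(v.1 : ℝ)| with hA
  set B : ℝ := |(v.2 : ℝ)| / √z.im with hB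
  have hA0 : 0 ≤ A := by positivity
  have hB0 : 0 ≤ B := by positivity
  have hlow := rows_low hz a v
  have hAB : ((v.1 : ℝ) ^ 2 * z.im + (v.2 : ℝ) ^ 2 / z.im) = A ^ 2 + B ^ 2 := by
    rw [hA, hB, mul_pow, div_pow, sq_abs, sq_abs, hsq]
    ring
  rw [hAB] at hlow
  set r : ℝ := ‖rg v (gg z a)‖ with hr
  have hr0 : 0 ≤ r := norm_nonneg _
  have hrAB : (A + B) / 2 ≤ r := by
    apply le_of_sq_le_sq _ hr0
    nlinarith [sq_nonneg (A - B)]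
  have e1 : (√z.im / 2) * |(v.1 : ℝ)| = A / 2 := by rw [hA]; ring
  have e2 : (2 * √z.im)⁻¹ * |(v.2 : ℝ)| = B / 2 := by
    rw [hB]
    field_simp
  rw [e1, e2, ← mul_inv, Real.rpow_neg (by positivity), show (4 : ℝ) = ((4 : ℕ) : ℝ) by norm_num,
    Real.rpow_natCast]
  apply inv_anti₀ (by positivity)
  have h1 : (1 + A / 2) * (1 + B / 2) ≤ (1 + r) ^ 2 := by
    nlinarith [mul_nonneg hA0 hB0]
  calc (1 + A / 2) ^ 2 * (1 + B / 2) ^ 2 = ((1 + A / 2) * (1 + B / 2)) ^ 2 := by ring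
    _ ≤ ((1 + r) ^ 2) ^ 2 := by
        apply pow_le_pow_left₀ (by positivity) h1
    _ = (1 + r) ^ 4 := by ring

/-- absolute convergence of theta series -/
theorem rows_sum : ∃ C : ℝ, ∀ (z : ℍ) (a : ℝ), z ∈ 𝒟 →
    Summable (fun v : ℤ × ℤ => (1 + ‖rg v (gg z a)‖) ^ (-4 : ℝ)) ∧
      ∑' v : ℤ × ℤ, (1 + ‖rg v (gg z a)‖) ^ (-4 : ℝ) ≤ C * √z.im := by
  refine ⟨80, fun z a hz => ?_⟩
  have hy : 0 < z.im := z.im_pos
  have hsy : 0 < √z.im := Real.sqrt_pos.2 hy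
  have hsq : √z.im ^ 2 = z.im := Real.sq_sqrt hy.le
  have hhalf : 1 / 2 ≤ √z.im := by
    have h3 := ModularGroup.three_le_four_mul_im_sq_of_mem_fd hz
    apply Real.le_sqrt_of_sq_le
    nlinarith
  obtain ⟨s1, t1⟩ := cn2_int (h := √z.im / 2) (by positivity)
  obtain ⟨s2, t2⟩ := cn2_int (h := (2 * √z.im)⁻¹) (by positivity)
  have s12 := s1.mul_of_nonneg s2 (fun n => by positivity) (fun n => by positivity)
  have hs : Summable (fun v : ℤ × ℤ => (1 + ‖rg v (gg z a)‖) ^ (-4 : ℝ)) :=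
    Summable.of_nonneg_of_le (fun v => by positivity) (fun v => cn2_bound hz a v) s12
  refine ⟨hs, ?_⟩
  calc ∑' v : ℤ × ℤ, (1 + ‖rg v (gg z a)‖) ^ (-4 : ℝ)
      ≤ ∑' v : ℤ × ℤ, ((1 + (√z.im / 2) * |(v.1 : ℝ)|) ^ 2)⁻¹ *
          ((1 + (2 * √z.im)⁻¹ * |(v.2 : ℝ)|) ^ 2)⁻¹ :=
        hs.tsum_le_tsum (fun v => cn2_bound hz a v) s12
    _ = (∑' n : ℤ, ((1 + (√z.im / 2) * |(n : ℝ)|) ^ 2)⁻¹) *
          ∑' n : ℤ, ((1 + (2 * √z.im)⁻¹ * |(n : ℝ)|) ^ 2)⁻¹ :=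
        (s1.tsum_mul_tsum s2 s12).symm
    _ ≤ (2 * (1 + (√z.im / 2)⁻¹)) * (2 * (1 + ((2 * √z.im)⁻¹)⁻¹)) := by
        apply mul_le_mul t1 t2 (tsum_nonneg fun n => by positivity) (by positivity)
    _ ≤ 80 * √z.im := by
        rw [inv_inv]
        have h5 : (√z.im / 2)⁻¹ ≤ 4 := by
          rw [inv_div, div_le_iff₀ hsy]
          linarith
        have h6 : 0 ≤ (√z.im / 2)⁻¹ := by positivity
        nlinarith

theorem cn2_inj (γ : SL(2, ℤ)) : Function.Injective (fun v : ℤ × ℤ =>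
    ((v.1 * γ 0 0 + v.2 * γ 1 0, v.1 * γ 0 1 + v.2 * γ 1 1) : ℤ × ℤ)) := by
  intro v w h
  have h1 : v.1 * γ 0 0 + v.2 * γ 1 0 = w.1 * γ 0 0 + w.2 * γ 1 0 := congrArg Prod.fst h
  have h2 : v.1 * γ 0 1 + v.2 * γ 1 1 = w.1 * γ 0 1 + w.2 * γ 1 1 := congrArg Prod.snd h
  have hd : γ 0 0 * γ 1 1 - γ 0 1 * γ 1 0 = 1 := by
    have := γ.det_coe
    rwa [Matrix.det_fin_two] at this
  apply Prod.ext
  · linear_combination (γ 1 1) * h1 - (γ 1 0) * h2 - (v.1 - w.1) * hd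
  · linear_combination (γ 0 0) * h2 - (γ 0 1) * h1 - (v.2 - w.2) * hd

theorem rows_sum_all (g : SL(2, ℝ)) :
    Summable (fun v : ℤ × ℤ => (1 + ‖rg v g‖) ^ (-4 : ℝ)) := by
  obtain ⟨γ, hγ⟩ := ModularGroup.exists_smul_mem_fd (g • UpperHalfPlane.I)
  obtain ⟨b, -, hb⟩ := gg_surj (toR γ * g)
  have hγ' : (toR γ * g) • UpperHalfPlane.I ∈ 𝒟 := by
    rw [mul_smul]
    exact hγ
  obtain ⟨C, hC⟩ := rows_sum
  have hs := (hC _ b hγ').1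
  rw [hb] at hs
  have h2 := hs.comp_injective (cn2_inj γ⁻¹)
  refine h2.congr fun v => ?_
  show (1 + ‖rg (v.1 * γ⁻¹ 0 0 + v.2 * γ⁻¹ 1 0, v.1 * γ⁻¹ 0 1 + v.2 * γ⁻¹ 1 1)
    (toR γ * g)‖) ^ (-4 : ℝ) = _
  rw [← rg_toR, ← mul_assoc]
  have h3 : toR γ⁻¹ * toR γ = 1 := by
    unfold toR
    rw [← map_mul, inv_mul_cancel, map_one]
  rw [h3, one_mul]

end Pool.Agent.JO
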