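import Pool.Agent.Lib_helper63.JO.Defs2
import Pool.Agent.Lib_helper63.JOE.ROW
namespace Pool.Agent.JO

open Complex MeasureTheory Filter Topology UpperHalfPlane ModularGroup
open scoped MatrixGroups Modular ENNReal ComplexConjugate ContDiff

variable {N : ℕ}

theorem fam_det (γ : SL(2, ℤ)) : γ 0 0 * γ 1 1 - γ 0 1 * γ 1 0 = 1 := by
  have := γ.det_coe
  rwa [Matrix.det_fin_two] at this

/-- the action on rows -/
def fam_e (γ : SL(2, ℤ)) : ℤ × ℤ ≃ ℤ × ℤ where
  toFun v := (v.1 * γ 0 0 + v.2 * γ 1 0, v.1 * γ 0 1 + v.2 * γ 1 1)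
  invFun v := (v.1 * γ 1 1 - v.2 * γ 1 0, -v.1 * γ 0 1 + v.2 * γ 0 0)
  left_inv v := by
    have h := fam_det γ
    ext
    · simp only
      linear_combination v.1 * h
    · simp only
      linear_combination v.2 * h
  right_inv v := by
    have h := fam_det γ
    ext
    · simp only
      linear_combination v.1 * h
    · simp only
      linear_combination v.2 * h

theorem fam_cop (γ : SL(2, ℤ)) (v : ℤ × ℤ) :
    IsCoprime (v.1 * γ 0 0 + v.2 * γ 1 0) (v.1 * γ 0 1 + v.2 * γ 1 1) ↔ IsCoprime v.1 v.2 := by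
  have h := fam_det γ
  constructor
  · rintro ⟨x, y, hxy⟩
    exact ⟨x * γ 0 0 + y * γ 0 1, x * γ 1 0 + y * γ 1 1, by linear_combination hxy⟩
  · rintro ⟨x, y, hxy⟩
    exact ⟨x * γ 1 1 - y * γ 0 1, -x * γ 1 0 + y * γ 0 0, by linear_combination hxy + (x * v.1 + y * v.2) * h⟩

theorem fam_liftH {f : QN N → ℍ → ℂ} (hf : FamH f) : Fam (liftH f) := by
  intro γ s g
  unfold liftH
  rw [mul_smul]
  exact hf γ s (g • UpperHalfPlane.I)

theorem fam_EE (α : ℂ → ZMod N × ZMod N → ℂ) : Fam (EE α) := by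
  classical
  intro γ s g
  unfold EE
  congr 1
  rw [← (fam_e γ).tsum_eq (fun p : ℤ × ℤ => if IsCoprime p.1 p.2 then α (rg p g) (rs p s) else 0)]
  refine tsum_congr fun p => ?_
  refine if_congr (fam_cop γ p).symm ?_ rfl
  rw [rg_toR, rs_red]
  rfl

theorem fam_Th (w : ℂ → ZMod N × ZMod N → ℂ) : Fam (Th w) := by
  intro γ s g
  unfold Th
  rw [← (fam_e γ).tsum_eq (fun v : ℤ × ℤ => w (rg v g) (rs v s))]
  refine tsum_congr fun p => ?_
  rw [rg_toR, rs_red]
  rfl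

end Pool.Agent.JO
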