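import Pool.Agent.Lib_helper63.JO.Defs2
import Pool.Agent.Lib_helper97.JO.HKN
/-!
# Project JO, part E, block FTM: `T_{m²}` maps families to families
-/

namespace Pool.Agent.JO

open Complex MeasureTheory Filter Topology UpperHalfPlane ModularGroup
open scoped MatrixGroups Modular ENNReal ComplexConjugate ContDiff

variable {N : ℕ}

theorem fam_Tm {m : ℕ} (hm : m.Coprime N) (hm0 : m ≠ 0) {F : QN N → SL(2, ℝ) → ℂ}
    (hF : Fam F) : Fam (Tm m F) :=
  hk_fam_Tm (Nat.pos_of_ne_zero hm0) hm hF

end Pool.Agent.JO
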