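import Pool.Agent.Lib_helper63.JO.Defs2
import Pool.Agent.Lib_helper63.JOE.LIB
/-!
# JO part E, block HI1: the inner product of families
(uses the landed `JLIB.b7_vol_fdo`, `Lib_helper68/GL2/B7.lean`)
-/

namespace Pool.Agent.JO

open Complex MeasureTheory Filter Topology UpperHalfPlane ModularGroup
open scoped MatrixGroups Modular ENNReal ComplexConjugate ContDiff

variable {N : ℕ}

theorem hi1_fin : IsFiniteMeasure muG := by
  have h : IsFiniteMeasure ((volume : Measure ℍ).restrict (𝒟ᵒ : Set ℍ)) :=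
    ⟨by rw [Measure.restrict_apply_univ]; exact JLIB.b7_vol_fdo⟩
  unfold muG
  infer_instance

theorem hi1_open_pos {U : Set ℍ} (hU : IsOpen U) (hne : U.Nonempty) : 0 < volume U := by
  have hop : IsOpen ((fun z : ℍ => (z : ℂ)) '' U) := isOpenEmbedding_coe.isOpenMap U hU
  rw [volume_eq_lintegral]
  rw [lintegral_pos_iff_support]
  · rw [Measure.restrict_apply']
    · have h1 : ((fun z : ℍ => (z : ℂ)) '' U) ⊆
          (Function.support fun z : ℂ => (((1 / ‖z.im‖₊) ^ 2 : NNReal) : ℝ≥0∞)) ∩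
            ((fun z : ℍ => (z : ℂ)) '' U) := by
        rintro z ⟨w, hw, rfl⟩
        refine ⟨?_, ⟨w, hw, rfl⟩⟩
        rw [Function.mem_support]
        have h2 : ‖(w : ℂ).im‖₊ ≠ 0 := by
          rw [nnnorm_ne_zero_iff]
          exact w.im_pos.ne'
        rw [ENNReal.coe_ne_zero]
        positivity
      exact lt_of_lt_of_le (hop.measure_pos volume (hne.image _)) (measure_mono h1)
    · exact hop.measurableSet
  · have : Measurable (fun z : ℂ => ((1 / ‖z.im‖₊) ^ 2 : NNReal)) := by fun_prop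
    exact this.coe_nnreal_ennreal

theorem hi1_volpos : (0 : ℝ≥0∞) < (volume : Measure ℍ) (𝒟ᵒ : Set ℍ) := by
  refine hi1_open_pos isOpen_fdo ⟨⟨2 * Complex.I, by simp⟩, ?_⟩
  refine ⟨?_, ?_⟩
  · simp [Complex.normSq_apply]
    norm_num
  · simp [UpperHalfPlane.re]

theorem hi1_pos : 0 < muG.real Set.univ := by
  have := hi1_fin
  rw [Measure.real, ENNReal.toReal_pos_iff]
  refine ⟨?_, measure_lt_top _ _⟩
  unfold muG
  rw [← Set.univ_prod_univ, Measure.prod_prod, Measure.restrict_apply_univ,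
    Measure.restrict_apply_univ]
  refine ENNReal.mul_pos hi1_volpos.ne' ?_
  rw [Real.volume_Ioc]
  simp [Real.pi_pos]

theorem ip_one [NeZero N] :
    ∃ V : ℝ, 0 < V ∧ ip (N := N) (fun _ _ => 1) (fun _ _ => 1) = V := by
  have := hi1_fin
  refine ⟨Fintype.card (QN N) * muG.real Set.univ, ?_, ?_⟩
  · have h1 : 0 < Fintype.card (QN N) := Fintype.card_pos
    have h2 := hi1_pos
    positivity
  · unfold ip
    simp

theorem hi1_re [NeZero N] (F : QN N → SL(2, ℝ) → ℂ) :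
    (ip F F).re = ∑ s : QN N, ∫ p : ℍ × ℝ, ‖F s (gg p.1 p.2)‖ ^ 2 ∂muG := by
  unfold ip
  rw [Complex.re_sum]
  refine Finset.sum_congr rfl fun s _ => ?_
  have h : ∀ p : ℍ × ℝ, F s (gg p.1 p.2) * conj (F s (gg p.1 p.2)) =
      ((‖F s (gg p.1 p.2)‖ ^ 2 : ℝ) : ℂ) := fun p => by
    rw [Complex.mul_conj, Complex.normSq_eq_norm_sq]
  simp_rw [h]
  rw [integral_complex_ofReal, Complex.ofReal_re]

theorem hi1_memLp [NeZero N] {F : QN N → SL(2, ℝ) → ℂ} (hF : SqF F) (s : QN N) :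
    MemLp (fun p : ℍ × ℝ => F s (gg p.1 p.2)) 2 muG :=
  (memLp_two_iff_integrable_sq_norm (hF.mf.2 s).aestronglyMeasurable).2 (hF.sq s)

theorem ip_cs [NeZero N] {F G : QN N → SL(2, ℝ) → ℂ} (hF : SqF F) (hG : SqF G) :
    (∀ s, Integrable (fun p : ℍ × ℝ => F s (gg p.1 p.2) * conj (G s (gg p.1 p.2))) muG) ∧
      ‖ip F G‖ ^ 2 ≤ (ip F F).re * (ip G G).re := by
  have hG' : ∀ s, MemLp (fun p : ℍ × ℝ => conj (G s (gg p.1 p.2))) 2 muG := fun s =>
    (hi1_memLp hG s).star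
  have hint : ∀ s, Integrable (fun p : ℍ × ℝ => F s (gg p.1 p.2) * conj (G s (gg p.1 p.2))) muG :=
    fun s => (hi1_memLp hF s).integrable_mul (hG' s)
  refine ⟨hint, ?_⟩
  rw [hi1_re, hi1_re]
  have hb : ∀ s, ‖∫ p : ℍ × ℝ, F s (gg p.1 p.2) * conj (G s (gg p.1 p.2)) ∂muG‖ ≤
      √(∫ p : ℍ × ℝ, ‖F s (gg p.1 p.2)‖ ^ 2 ∂muG) *
        √(∫ p : ℍ × ℝ, ‖G s (gg p.1 p.2)‖ ^ 2 ∂muG) := by
    intro s
    refine (norm_integral_le_integral_norm _).trans ?_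
    have h3 := integral_mul_norm_le_Lp_mul_Lq (μ := muG) (f := fun p : ℍ × ℝ => F s (gg p.1 p.2))
      (g := fun p : ℍ × ℝ => G s (gg p.1 p.2)) (p := 2) (q := 2) Real.HolderConjugate.two_two
      (by simpa using hi1_memLp hF s) (by simpa using hi1_memLp hG s)
    simp only [norm_mul, RCLike.norm_conj]
    refine h3.trans (le_of_eq ?_)
    rw [Real.sqrt_eq_rpow, Real.sqrt_eq_rpow]
    simp only [Real.rpow_two]
  have h1 : ‖ip F G‖ ≤ ∑ s : QN N, √(∫ p : ℍ × ℝ, ‖F s (gg p.1 p.2)‖ ^ 2 ∂muG) *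
        √(∫ p : ℍ × ℝ, ‖G s (gg p.1 p.2)‖ ^ 2 ∂muG) := by
    unfold ip
    exact (norm_sum_le _ _).trans (Finset.sum_le_sum fun s _ => hb s)
  have h2 := Finset.sum_mul_sq_le_sq_mul_sq (Finset.univ : Finset (QN N))
    (fun s => √(∫ p : ℍ × ℝ, ‖F s (gg p.1 p.2)‖ ^ 2 ∂muG))
    (fun s => √(∫ p : ℍ × ℝ, ‖G s (gg p.1 p.2)‖ ^ 2 ∂muG))
  have h4 : ∀ (K : QN N → SL(2, ℝ) → ℂ) (s : QN N),
      √(∫ p : ℍ × ℝ, ‖K s (gg p.1 p.2)‖ ^ 2 ∂muG) ^ 2 =
        ∫ p : ℍ × ℝ, ‖K s (gg p.1 p.2)‖ ^ 2 ∂muG := fun K s =>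
    Real.sq_sqrt (integral_nonneg fun p => by positivity)
  simp only [h4] at h2
  refine le_trans ?_ h2
  exact pow_le_pow_left₀ (norm_nonneg _) h1 2

theorem SqF_lin [NeZero N] {F G : QN N → SL(2, ℝ) → ℂ} (hF : SqF F) (hG : SqF G) (a b : ℂ) :
    SqF (fun s g => a * F s g + b * G s g) := by
  have hm : ∀ s, Measurable (fun p : ℍ × ℝ => a * F s (gg p.1 p.2) + b * G s (gg p.1 p.2)) :=
    fun s => ((hF.mf.2 s).const_mul a).add ((hG.mf.2 s).const_mul b)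
  refine ⟨⟨fun γ s g => ?_, hm⟩, fun s => ?_⟩
  · simp only [hF.mf.1 γ s g, hG.mf.1 γ s g]
  · exact (memLp_two_iff_integrable_sq_norm (hm s).aestronglyMeasurable).1
      (((hi1_memLp hF s).const_mul a).add ((hi1_memLp hG s).const_mul b))

end Pool.Agent.JO
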