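import Pool.Agent.Lib_helper63.JO.Defs2
import Pool.Agent.Lib_helper63.JOE.HI1
/-! JO, part E, block HI2: completeness -/

namespace Pool.Agent.JO

open Complex MeasureTheory Filter Topology UpperHalfPlane ModularGroup
open scoped MatrixGroups Modular ENNReal ComplexConjugate ContDiff

variable {N : ℕ}

/-- a family in coordinates -/
noncomputable def hi2_f (F : QN N → SL(2, ℝ) → ℂ) (s : QN N) (p : ℍ × ℝ) : ℂ :=
  F s (gg p.1 p.2)

theorem hi2_ip [NeZero N] (D : QN N → SL(2, ℝ) → ℂ) :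
    (ip D D).re = ∑ s : QN N, ∫ p : ℍ × ℝ, ‖hi2_f D s p‖ ^ 2 ∂muG := by
  unfold ip
  rw [Complex.re_sum]
  refine Finset.sum_congr rfl fun s _ => ?_
  have h1 : ∀ p : ℍ × ℝ, D s (gg p.1 p.2) * conj (D s (gg p.1 p.2)) =
      ((‖hi2_f D s p‖ ^ 2 : ℝ) : ℂ) := by
    intro p
    rw [Complex.mul_conj, Complex.normSq_eq_norm_sq]
    rfl
  rw [integral_congr_ae (Eventually.of_forall h1), integral_complex_ofReal, Complex.ofReal_re]

theorem hi2_memLp [NeZero N] {F : QN N → SL(2, ℝ) → ℂ} (hF : SqF F) (s : QN N) :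
    MemLp (hi2_f F s) 2 muG := by
  have hm : AEStronglyMeasurable (hi2_f F s) muG := (hF.mf.2 s).aestronglyMeasurable
  rw [memLp_two_iff_integrable_sq_norm hm]
  exact hF.sq s

theorem hi2_bridge {f : ℍ × ℝ → ℂ} (hf : MemLp f 2 muG) :
    eLpNorm f 2 muG ^ 2 = ENNReal.ofReal (∫ p, ‖f p‖ ^ 2 ∂muG) := by
  have hi : Integrable (fun p => ‖f p‖ ^ 2) muG :=
    (memLp_two_iff_integrable_sq_norm hf.1).1 hf
  rw [ofReal_integral_eq_lintegral_ofReal hi (Eventually.of_forall fun p => by positivity)]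
  have h1 := eLpNorm_nnreal_pow_eq_lintegral (μ := muG) (f := f) (p := 2) (by norm_num)
  have h2 : ((2 : NNReal) : ℝ≥0∞) = 2 := by norm_num
  have h3 : ((2 : NNReal) : ℝ) = 2 := by norm_num
  rw [h2, h3] at h1
  have h4 : eLpNorm f 2 muG ^ (2 : ℝ) = eLpNorm f 2 muG ^ 2 := by
    rw [← ENNReal.rpow_natCast]
    norm_num
  rw [← h4, h1]
  refine lintegral_congr fun p => ?_
  rw [← ofReal_norm, ENNReal.ofReal_rpow_of_nonneg (norm_nonneg _) (by norm_num)]
  congr 1
  norm_num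

theorem SqF_complete [NeZero N] (F : ℕ → QN N → SL(2, ℝ) → ℂ) (hF : ∀ j, SqF (F j))
    (h : ∀ e : ℝ, 0 < e → ∃ J, ∀ i ≥ J, ∀ j ≥ J,
      (ip (fun s g => F i s g - F j s g) (fun s g => F i s g - F j s g)).re ≤ e) :
    ∃ G : QN N → SL(2, ℝ) → ℂ, SqF G ∧
      Tendsto (fun j => (ip (fun s g => F j s g - G s g) (fun s g => F j s g - G s g)).re)
        atTop (𝓝 0) := by
  classical
  -- differences
  have hsub : ∀ {A B : QN N → SL(2, ℝ) → ℂ}, SqF A → SqF B → SqF (fun s g => A s g - B s g) := by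
    intro A B hA hB
    have := SqF_lin hA hB 1 (-1)
    simpa [sub_eq_add_neg] using this
  have hle : ∀ (e : ℝ) (i j : ℕ),
      (ip (fun s g => F i s g - F j s g) (fun s g => F i s g - F j s g)).re ≤ e → ∀ s : QN N,
      eLpNorm (hi2_f (F i) s - hi2_f (F j) s) 2 muG ^ 2 ≤ ENNReal.ofReal e := by
    intro e i j hij s
    have h1 : hi2_f (F i) s - hi2_f (F j) s = hi2_f (fun s g => F i s g - F j s g) s := rfl
    rw [h1, hi2_bridge (hi2_memLp (hsub (hF i) (hF j)) s)]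
    refine ENNReal.ofReal_le_ofReal (le_trans ?_ hij)
    rw [hi2_ip]
    exact Finset.single_le_sum (f := fun s : QN N => ∫ p : ℍ × ℝ,
      ‖hi2_f (fun s g => F i s g - F j s g) s p‖ ^ 2 ∂muG)
      (fun s _ => integral_nonneg fun p => by positivity) (Finset.mem_univ s)
  -- a fast subsequence
  choose J hJ using fun k : ℕ => h (((1 / 2 : ℝ) ^ (k + 1)) ^ 2) (by positivity)
  set φ : ℕ → ℕ := fun n => n + ∑ k ∈ Finset.range (n + 1), J k with hφ
  have hφJ : ∀ K n : ℕ, K ≤ n → J K ≤ φ n := by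
    intro K n hKn
    have h1 : J K ≤ ∑ k ∈ Finset.range (n + 1), J k :=
      Finset.single_le_sum (f := J) (fun _ _ => Nat.zero_le _)
        (Finset.mem_range.2 (Nat.lt_succ_of_le hKn))
    exact h1.trans (Nat.le_add_left _ _)
  have hφn : ∀ n : ℕ, n ≤ φ n := fun n => Nat.le_add_right _ _
  set B : ℕ → ℝ≥0∞ := fun k => (1 / 2 : ℝ≥0∞) ^ k with hB
  have hBsum : ∑' k, B k ≠ ⊤ := by
    rw [hB, ENNReal.tsum_geometric]
    norm_num
  have hcau : ∀ (s : QN N) (K n m : ℕ), K ≤ n → K ≤ m →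
      eLpNorm (hi2_f (F (φ n)) s - hi2_f (F (φ m)) s) 2 muG < B K := by
    intro s K n m hn hm
    have h1 := hle _ _ _ (hJ K (φ n) (hφJ K n hn) (φ m) (hφJ K m hm)) s
    have h2 : ENNReal.ofReal (((1 / 2 : ℝ) ^ (K + 1)) ^ 2) = ((1 / 2 : ℝ≥0∞) ^ (K + 1)) ^ 2 := by
      rw [ENNReal.ofReal_pow (by positivity), ENNReal.ofReal_pow (by norm_num)]
      congr 2
      rw [ENNReal.ofReal_div_of_pos (by norm_num)]
      norm_num
    rw [h2] at h1
    have h3 : eLpNorm (hi2_f (F (φ n)) s - hi2_f (F (φ m)) s) 2 muG ≤ (1 / 2 : ℝ≥0∞) ^ (K + 1) :=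
      (ENNReal.pow_le_pow_left_iff two_ne_zero).1 h1
    refine lt_of_le_of_lt h3 ?_
    rw [hB]
    show (1 / 2 : ℝ≥0∞) ^ (K + 1) < (1 / 2 : ℝ≥0∞) ^ K
    rw [pow_succ]
    have h5 : (1 / 2 : ℝ≥0∞) ^ K ≠ 0 := by
      apply pow_ne_zero
      norm_num
    have h6 : (1 / 2 : ℝ≥0∞) ^ K ≠ ⊤ := by
      apply ENNReal.pow_ne_top
      norm_num
    calc (1 / 2 : ℝ≥0∞) ^ K * (1 / 2) < (1 / 2 : ℝ≥0∞) ^ K * 1 := by
          rw [ENNReal.mul_lt_mul_iff_right h5 h6]
          exact ENNReal.half_lt_self one_ne_zero ENNReal.one_ne_top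
      _ = (1 / 2 : ℝ≥0∞) ^ K := mul_one _
  have hmeas : ∀ (k : ℕ) (s : QN N), Measurable (hi2_f (F (φ k)) s) := fun k s => (hF (φ k)).mf.2 s
  have hlim : ∀ s : QN N, ∀ᵐ p : ℍ × ℝ ∂muG, ∃ l,
      Tendsto (fun k => hi2_f (F (φ k)) s p) atTop (𝓝 l) := by
    intro s
    exact Lp.ae_tendsto_of_cauchy_eLpNorm (fun k => (hmeas k s).aestronglyMeasurable)
      (by norm_num) hBsum (hcau s)
  -- the limit
  set G : QN N → SL(2, ℝ) → ℂ := fun s g =>
    if h : ∃ l, Tendsto (fun k => F (φ k) s g) atTop (𝓝 l) then h.choose else 0 with hG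
  have hGlim : ∀ s g, (∃ l, Tendsto (fun k => F (φ k) s g) atTop (𝓝 l)) →
      Tendsto (fun k => F (φ k) s g) atTop (𝓝 (G s g)) := by
    intro s g hex
    have : G s g = hex.choose := dif_pos hex
    rw [this]
    exact hex.choose_spec
  have hfam : Fam G := by
    intro γ s g
    have h1 : (fun k => F (φ k) (red N γ * s) (toR γ * g)) = fun k => F (φ k) s g := by
      funext k
      exact (hF (φ k)).mf.1 γ s g
    simp only [hG]
    simp only [h1]
  have hGm : ∀ s : QN N, Measurable (hi2_f G s) := by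
    intro s
    set A : Set (ℍ × ℝ) := {p | ∃ l, Tendsto (fun k => hi2_f (F (φ k)) s p) atTop (𝓝 l)} with hA
    have hAm : MeasurableSet A := measurableSet_exists_tendsto fun k => hmeas k s
    refine measurable_of_tendsto_metrizable (f := fun k => A.indicator (hi2_f (F (φ k)) s))
      (fun k => (hmeas k s).indicator hAm) ?_
    rw [tendsto_pi_nhds]
    intro p
    by_cases hp : p ∈ A
    · have h1 := hGlim s (gg p.1 p.2) hp
      refine h1.congr fun k => ?_
      rw [Set.indicator_of_mem hp]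
      rfl
    · have h1 : hi2_f G s p = 0 := dif_neg hp
      rw [h1]
      refine tendsto_const_nhds.congr fun k => ?_
      rw [Set.indicator_of_notMem hp]
  have hGae : ∀ s : QN N, ∀ᵐ p : ℍ × ℝ ∂muG,
      Tendsto (fun k => hi2_f (F (φ k)) s p) atTop (𝓝 (hi2_f G s p)) := by
    intro s
    filter_upwards [hlim s] with p hp
    exact hGlim s (gg p.1 p.2) hp
  have hconv : ∀ s : QN N, Tendsto (fun k => eLpNorm (hi2_f (F (φ k)) s - hi2_f G s) 2 muG)
      atTop (𝓝 0) := by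
    intro s
    exact Lp.cauchy_tendsto_of_tendsto (fun k => (hmeas k s).aestronglyMeasurable) _ hBsum
      (hcau s) (hGae s)
  have hGL : ∀ s : QN N, MemLp (hi2_f G s) 2 muG := by
    intro s
    exact Lp.memLp_of_cauchy_tendsto (by norm_num) (fun k => hi2_memLp (hF (φ k)) s) _
      (hGm s).aestronglyMeasurable (hconv s)
  have hGS : SqF G :=
    { mf := ⟨hfam, hGm⟩
      sq := fun s => (memLp_two_iff_integrable_sq_norm (hGm s).aestronglyMeasurable).1 (hGL s) }
  refine ⟨G, hGS, ?_⟩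
  -- convergence of the full sequence
  have hfull : ∀ s : QN N, Tendsto (fun j => eLpNorm (hi2_f (F j) s - hi2_f G s) 2 muG)
      atTop (𝓝 0) := by
    intro s
    rw [ENNReal.tendsto_nhds_zero]
    intro ε hε
    by_cases hεt : ε = ⊤
    · rw [hεt]; exact Eventually.of_forall fun _ => le_top
    have hε2 : 0 < (ε / 2).toReal := ENNReal.toReal_pos (by
      simpa using hε.ne') (ENNReal.div_ne_top hεt (by norm_num))
    obtain ⟨J', hJ'⟩ := h (((ε / 2).toReal) ^ 2) (by positivity)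
    have h1 := (ENNReal.tendsto_nhds_zero.1 (hconv s)) (ε / 2) (ENNReal.half_pos hε.ne')
    obtain ⟨k, hk1, hk2⟩ := (h1.and (eventually_ge_atTop J')).exists
    filter_upwards [eventually_ge_atTop J'] with j hj
    have h2 : eLpNorm (hi2_f (F j) s - hi2_f (F (φ k)) s) 2 muG ≤ ε / 2 := by
      have h3 := hle _ _ _ (hJ' j hj (φ k) (hk2.trans (hφn k))) s
      have h4 : ENNReal.ofReal ((ε / 2).toReal ^ 2) = (ε / 2) ^ 2 := by
        rw [ENNReal.ofReal_pow ENNReal.toReal_nonneg,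
          ENNReal.ofReal_toReal (ENNReal.div_ne_top hεt (by norm_num))]
      rw [h4] at h3
      exact (ENNReal.pow_le_pow_left_iff two_ne_zero).1 h3
    have h5 : hi2_f (F j) s - hi2_f G s = (hi2_f (F j) s - hi2_f (F (φ k)) s) +
        (hi2_f (F (φ k)) s - hi2_f G s) := by
      rw [sub_add_sub_cancel]
    rw [h5]
    refine (eLpNorm_add_le ?_ ?_ (by norm_num)).trans ?_
    · exact (((hF j).mf.2 s).sub (hmeas k s)).aestronglyMeasurable
    · exact ((hmeas k s).sub (hGm s)).aestronglyMeasurable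
    · calc _ ≤ ε / 2 + ε / 2 := add_le_add h2 hk1
        _ = ε := ENNReal.add_halves ε
  have hterm : ∀ s : QN N, Tendsto (fun j => ∫ p : ℍ × ℝ,
      ‖hi2_f (fun s g => F j s g - G s g) s p‖ ^ 2 ∂muG) atTop (𝓝 0) := by
    intro s
    have h1 : Tendsto (fun j => (eLpNorm (hi2_f (F j) s - hi2_f G s) 2 muG ^ 2).toReal)
        atTop (𝓝 0) := by
      have h2 : Tendsto (fun j => eLpNorm (hi2_f (F j) s - hi2_f G s) 2 muG ^ 2) atTop
          (𝓝 (0 ^ 2)) := (ENNReal.continuous_pow 2).tendsto 0 |>.comp (hfull s)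
      have h3 : Tendsto (fun j => (eLpNorm (hi2_f (F j) s - hi2_f G s) 2 muG ^ 2).toReal) atTop
          (𝓝 ((0 : ℝ≥0∞) ^ 2).toReal) :=
        (ENNReal.tendsto_toReal (by norm_num : (0 : ℝ≥0∞) ^ 2 ≠ ⊤)).comp h2
      have h9 : ((0 : ℝ≥0∞) ^ 2).toReal = 0 := by norm_num
      rwa [h9] at h3
    refine h1.congr fun j => ?_
    have h4 : hi2_f (F j) s - hi2_f G s = hi2_f (fun s g => F j s g - G s g) s := rfl
    rw [h4, hi2_bridge (hi2_memLp (hsub (hF j) hGS) s), ENNReal.toReal_ofReal]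
    exact integral_nonneg fun p => by positivity
  have hfin := tendsto_finsetSum (Finset.univ : Finset (QN N)) fun s _ => hterm s
  rw [Finset.sum_const_zero] at hfin
  refine hfin.congr fun j => ?_
  rw [hi2_ip]

end Pool.Agent.JO
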