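import Pool.Agent.Lib_helper63.JO.Defs2
/-!
# JO part E, block HI3: truncation of families
-/

namespace Pool.Agent.JO

open Complex MeasureTheory Filter Topology UpperHalfPlane ModularGroup
open scoped MatrixGroups Modular ENNReal ComplexConjugate ContDiff

variable {N : ℕ}

theorem hi3_re [NeZero N] (F : QN N → SL(2, ℝ) → ℂ) :
    (ip F F).re = ∑ s : QN N, ∫ p : ℍ × ℝ, ‖F s (gg p.1 p.2)‖ ^ 2 ∂muG := by
  unfold ip
  rw [Complex.re_sum]
  refine Finset.sum_congr rfl fun s _ => ?_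
  have h : ∀ p : ℍ × ℝ, F s (gg p.1 p.2) * conj (F s (gg p.1 p.2)) =
      ((‖F s (gg p.1 p.2)‖ ^ 2 : ℝ) : ℂ) := fun p => by
    rw [Complex.mul_conj, Complex.normSq_eq_norm_sq]
  simp_rw [h]
  rw [integral_complex_ofReal, Complex.ofReal_re]

open scoped Classical in
/-- the truncated family -/
noncomputable def hi3_T (F : QN N → SL(2, ℝ) → ℂ) (j : ℕ) (s : QN N) (g : SL(2, ℝ)) : ℂ :=
  if ‖F s g‖ ≤ j then F s g else 0

theorem hi3_T_le (F : QN N → SL(2, ℝ) → ℂ) (j : ℕ) (s : QN N) (g : SL(2, ℝ)) :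
    ‖hi3_T F j s g‖ ≤ ‖F s g‖ := by
  unfold hi3_T
  split_ifs
  · exact le_rfl
  · rw [norm_zero]
    exact norm_nonneg _

theorem hi3_T_bd (F : QN N → SL(2, ℝ) → ℂ) (j : ℕ) (s : QN N) (g : SL(2, ℝ)) :
    ‖hi3_T F j s g‖ ≤ j := by
  unfold hi3_T
  split_ifs with h
  · exact h
  · rw [norm_zero]
    exact Nat.cast_nonneg _

theorem hi3_T_sub (F : QN N → SL(2, ℝ) → ℂ) (j : ℕ) (s : QN N) (g : SL(2, ℝ)) :
    ‖hi3_T F j s g - F s g‖ ≤ ‖F s g‖ := by
  unfold hi3_T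
  split_ifs
  · rw [sub_self, norm_zero]
    exact norm_nonneg _
  · rw [zero_sub, norm_neg]

theorem hi3_T_meas {F : QN N → SL(2, ℝ) → ℂ} (hF : MF F) (j : ℕ) (s : QN N) :
    Measurable (fun p : ℍ × ℝ => hi3_T F j s (gg p.1 p.2)) := by
  unfold hi3_T
  exact Measurable.ite (measurableSet_le (hF.2 s).norm measurable_const) (hF.2 s) measurable_const

theorem SqF_trunc [NeZero N] {F : QN N → SL(2, ℝ) → ℂ} (hF : SqF F) :
    ∃ Fj : ℕ → QN N → SL(2, ℝ) → ℂ, (∀ j, SqF (Fj j) ∧ ∃ C, ∀ s g, ‖Fj j s g‖ ≤ C) ∧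
      Tendsto (fun j => (ip (fun s g => Fj j s g - F s g) (fun s g => Fj j s g - F s g)).re)
        atTop (𝓝 0) := by
  refine ⟨hi3_T F, fun j => ⟨⟨⟨fun γ s g => ?_, hi3_T_meas hF.mf j⟩, fun s => ?_⟩,
    j, hi3_T_bd F j⟩, ?_⟩
  · simp only [hi3_T, hF.mf.1 γ s g]
  · refine (hF.sq s).mono' ((hi3_T_meas hF.mf j s).norm.pow_const 2).aestronglyMeasurable
      (Eventually.of_forall fun p => ?_)
    rw [Real.norm_of_nonneg (by positivity)]
    exact pow_le_pow_left₀ (norm_nonneg _) (hi3_T_le F j s _) 2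
  · simp_rw [hi3_re]
    have h0 : (0 : ℝ) = ∑ s : QN N, (0 : ℝ) := by simp
    rw [h0]
    refine tendsto_finsetSum _ fun s _ => ?_
    have h1 : (0 : ℝ) = ∫ p : ℍ × ℝ, (0 : ℝ) ∂muG := by simp
    rw [h1]
    refine tendsto_integral_of_dominated_convergence
      (fun p : ℍ × ℝ => ‖F s (gg p.1 p.2)‖ ^ 2) (fun j => ?_) (hF.sq s) (fun j => ?_) ?_
    · exact (((hi3_T_meas hF.mf j s).sub (hF.mf.2 s)).norm.pow_const 2).aestronglyMeasurable
    · refine Eventually.of_forall fun p => ?_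
      rw [Real.norm_of_nonneg (by positivity)]
      exact pow_le_pow_left₀ (norm_nonneg _) (hi3_T_sub F j s _) 2
    · refine Eventually.of_forall fun p => ?_
      refine tendsto_const_nhds.congr' ?_
      filter_upwards [eventually_ge_atTop ⌈‖F s (gg p.1 p.2)‖⌉₊] with j hj
      have h2 : ‖F s (gg p.1 p.2)‖ ≤ j := (Nat.le_ceil _).trans (Nat.cast_le.2 hj)
      simp only [hi3_T, if_pos h2, sub_self, norm_zero]
      norm_num

end Pool.Agent.JO
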