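import Pool.Agent.Lib_helper63.JO.Defs2
import Pool.Agent.Lib_helper63.JOE.CRD
import Pool.Agent.Lib_helper63.JOE.FAM
/-! Block MFE: measurability of incomplete Eisenstein series and theta series. -/

namespace Pool.Agent.JO

open Complex MeasureTheory Filter Topology UpperHalfPlane ModularGroup
open scoped MatrixGroups Modular ComplexConjugate

variable {N : ℕ}

theorem mfe_tsum {ι X : Type} [Countable ι] [MeasurableSpace X] (f : ι → X → ℂ)
    (hf : ∀ i, Measurable (f i)) : Measurable (fun x => ∑' i, f i x) := by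
  classical
  set S : Set X := {x | ∑' i, ENNReal.ofReal ‖f i x‖ ≠ ⊤} with hS
  have hSm : MeasurableSet S := by
    have h : Measurable (fun x => ∑' i, ENNReal.ofReal ‖f i x‖) :=
      Measurable.tsum fun i => (hf i).norm.ennreal_ofReal
    exact (h (measurableSet_singleton ⊤)).compl
  have hsum : ∀ x, x ∈ S ↔ Summable (fun i => f i x) := by
    intro x
    rw [← summable_norm_iff]
    constructor
    · intro hx
      have h1 := ENNReal.summable_toReal hx
      refine h1.congr fun i => ?_
      rw [ENNReal.toReal_ofReal (norm_nonneg _)]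
    · intro hx
      show ∑' i, ENNReal.ofReal ‖f i x‖ ≠ ⊤
      rw [← ENNReal.ofReal_tsum_of_nonneg (fun i => norm_nonneg _) hx]
      exact ENNReal.ofReal_ne_top
  refine measurable_of_tendsto_metrizable' (atTop : Filter (Finset ι))
    (f := fun F x => S.indicator (fun x => ∑ i ∈ F, f i x) x) ?_ ?_
  · intro F
    exact (Finset.measurable_sum F fun i _ => hf i).indicator hSm
  · rw [tendsto_pi_nhds]
    intro x
    by_cases hx : x ∈ S
    · simp only [Set.indicator_of_mem hx]
      exact ((hsum x).1 hx).hasSum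
    · simp only [Set.indicator_of_notMem hx]
      rw [tsum_eq_zero_of_not_summable fun h => hx ((hsum x).2 h)]
      exact tendsto_const_nhds

theorem mfe_entry (i j : Fin 2) : Continuous (fun p : ℍ × ℝ => gg p.1 p.2 i j) :=
  (continuous_apply_apply i j).comp (continuous_subtype_val.comp gg_cont)

theorem mfe_rg (v : ℤ × ℤ) : Continuous (fun p : ℍ × ℝ => rg v (gg p.1 p.2)) := by
  have h1 : Continuous (fun p : ℍ × ℝ => (v.1 : ℝ) * gg p.1 p.2 0 0 + v.2 * gg p.1 p.2 1 0) :=
    (continuous_const.mul (mfe_entry 0 0)).add (continuous_const.mul (mfe_entry 1 0))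
  have h2 : Continuous (fun p : ℍ × ℝ => (v.1 : ℝ) * gg p.1 p.2 0 1 + v.2 * gg p.1 p.2 1 1) :=
    (continuous_const.mul (mfe_entry 0 1)).add (continuous_const.mul (mfe_entry 1 1))
  exact (continuous_ofReal.comp h1).add ((continuous_ofReal.comp h2).mul continuous_const)

theorem mf_EE (α : ℂ → ZMod N × ZMod N → ℂ) (hα : ∀ v, Measurable (fun x => α x v)) :
    MF (EE α) := by
  classical
  refine ⟨fam_EE α, fun s => ?_⟩
  have h : Measurable (fun q : ℍ × ℝ => ∑' p : ℤ × ℤ, if IsCoprime p.1 p.2 then
      α (rg p (gg q.1 q.2)) (rs p s) else 0) := by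
    refine mfe_tsum _ fun p => ?_
    by_cases hp : IsCoprime p.1 p.2
    · simp only [if_pos hp]
      exact (hα (rs p s)).comp (mfe_rg p).measurable
    · simp only [if_neg hp]
      exact measurable_const
  have h2 := h.const_mul (1 / 2)
  have e : (fun p : ℍ × ℝ => EE α s (gg p.1 p.2)) = fun q : ℍ × ℝ => (1 / 2) *
      ∑' p : ℤ × ℤ, if IsCoprime p.1 p.2 then α (rg p (gg q.1 q.2)) (rs p s) else 0 := by
    funext q
    unfold EE
    congr 1
  rw [e]
  exact h2

theorem mf_Th (w : ℂ → ZMod N × ZMod N → ℂ) (hw : ∀ v, Measurable (fun x => w x v)) :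
    MF (Th w) := by
  refine ⟨fam_Th w, fun s => ?_⟩
  have h : Measurable (fun q : ℍ × ℝ => ∑' v : ℤ × ℤ, w (rg v (gg q.1 q.2)) (rs v s)) :=
    mfe_tsum _ fun v => (hw (rs v s)).comp (mfe_rg v).measurable
  exact h

end Pool.Agent.JO
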