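import Pool.Agent.Lib_helper63.JO.Defs2
import Pool.Agent.Lib_helper63.JOE.CRD
import Pool.Agent.Lib_helper63.JOE.UNL
/-! JO, part E, block UN1: unfolding, complex version -/

namespace Pool.Agent.JO

open Complex MeasureTheory Filter Topology UpperHalfPlane ModularGroup
open scoped MatrixGroups Modular ENNReal ComplexConjugate ContDiff

variable {N : ℕ}

theorem un1_countable : Countable SL(2, ℤ) := by
  have : Countable (Matrix (Fin 2) (Fin 2) ℤ) := inferInstanceAs (Countable (Fin 2 → Fin 2 → ℤ))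
  exact inferInstanceAs (Countable {A : Matrix (Fin 2) (Fin 2) ℤ // A.det = 1})

/-- the angle of an element of `SL₂(ℝ)` -/
noncomputable def un1_th (g : SL(2, ℝ)) : ℝ :=
  Complex.arg ((g 1 1 : ℂ) - (g 1 0 : ℂ) * Complex.I)

theorem un1_gg_congr (z : ℍ) {a b : ℝ} (h1 : Real.cos a = Real.cos b)
    (h2 : Real.sin a = Real.sin b) : gg z a = gg z b := by
  apply Subtype.ext
  simp only [gg, h1, h2]

theorem un1_gg_th (z : ℍ) (a : ℝ) : gg z (un1_th (gg z a)) = gg z a := by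
  have hy : (0 : ℝ) < √z.im := Real.sqrt_pos.2 z.im_pos
  have e1 : ((gg z a) 1 1 : ℝ) = Real.cos a / √z.im := rfl
  have e2 : ((gg z a) 1 0 : ℝ) = -Real.sin a / √z.im := rfl
  set w : ℂ := ((gg z a) 1 1 : ℂ) - ((gg z a) 1 0 : ℂ) * Complex.I with hw
  have hw' : w = ((1 / √z.im : ℝ) : ℂ) * cexp (a * Complex.I) := by
    rw [hw, e1, e2, Complex.exp_mul_I]
    push_cast
    ring
  have hn : ‖w‖ = 1 / √z.im := by
    rw [hw', norm_mul, Complex.norm_exp_ofReal_mul_I, mul_one, Complex.norm_real,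
      Real.norm_eq_abs, abs_of_pos (by positivity)]
  have hw0 : w ≠ 0 := by
    rw [← norm_ne_zero_iff, hn]
    positivity
  have hre : w.re = Real.cos a / √z.im := by
    rw [hw', Complex.re_ofReal_mul, Complex.exp_ofReal_mul_I_re]
    ring
  have him : w.im = Real.sin a / √z.im := by
    rw [hw', Complex.im_ofReal_mul, Complex.exp_ofReal_mul_I_im]
    ring
  apply un1_gg_congr
  · show Real.cos (Complex.arg w) = _
    rw [Complex.cos_arg hw0, hn, hre]
    field_simp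
  · show Real.sin (Complex.arg w) = _
    rw [Complex.sin_arg, hn, him]
    field_simp

theorem un1_move (γ : SL(2, ℤ)) (z : ℍ) (a : ℝ) :
    toR γ * gg z a = gg (γ • z) (un1_th (toR γ * gg z a)) := by
  obtain ⟨b, _, hb⟩ := gg_surj (toR γ * gg z a)
  have h1 : (toR γ * gg z a) • UpperHalfPlane.I = γ • z := by
    rw [mul_smul, gg_I]
    rfl
  rw [h1] at hb
  have h2 := un1_gg_th (γ • z) b
  rw [hb] at h2
  exact h2.symm

theorem un1_th_meas (γ : SL(2, ℤ)) :
    Measurable (fun p : ℍ × ℝ => un1_th (toR γ * gg p.1 p.2)) := by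
  have hc : Continuous (fun p : ℍ × ℝ => toR γ * gg p.1 p.2) :=
    continuous_const.mul gg_cont
  have hent : ∀ i j : Fin 2, Continuous (fun p : ℍ × ℝ => (toR γ * gg p.1 p.2) i j) := by
    intro i j
    exact (continuous_id.matrix_elem i j).comp (continuous_subtype_val.comp hc)
  have h1 : Continuous (fun p : ℍ × ℝ => (((toR γ * gg p.1 p.2) 1 1 : ℝ) : ℂ) -
      (((toR γ * gg p.1 p.2) 1 0 : ℝ) : ℂ) * Complex.I) :=
    (Complex.continuous_ofReal.comp (hent 1 1)).sub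
      ((Complex.continuous_ofReal.comp (hent 1 0)).mul continuous_const)
  exact Complex.measurable_arg.comp h1.measurable

theorem un1_smul_meas (γ : SL(2, ℤ)) : Measurable (fun z : ℍ => γ • z) := by
  have := measurePreserving_smul (Matrix.SpecialLinearGroup.mapGL ℝ γ) (volume : Measure ℍ)
  exact this.measurable

theorem un1_comp_meas {E : Type} [MeasurableSpace E] {k : SL(2, ℝ) → E}
    (hk : Measurable (fun p : ℍ × ℝ => k (gg p.1 p.2))) (γ : SL(2, ℤ)) :
    Measurable (fun p : ℍ × ℝ => k (toR γ * gg p.1 p.2)) := by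
  have h1 : (fun p : ℍ × ℝ => k (toR γ * gg p.1 p.2)) =
      (fun p : ℍ × ℝ => k (gg p.1 p.2)) ∘
        (fun p : ℍ × ℝ => (γ • p.1, un1_th (toR γ * gg p.1 p.2))) := by
    funext p
    show k (toR γ * gg p.1 p.2) = k (gg (γ • p.1) (un1_th (toR γ * gg p.1 p.2)))
    rw [← un1_move]
  rw [h1]
  exact hk.comp (((un1_smul_meas γ).comp measurable_fst).prodMk (un1_th_meas γ))

theorem un1_cond (γ : SL(2, ℤ)) :
    MeasurableSet {p : ℍ × ℝ | 0 ≤ (γ • p.1).re ∧ (γ • p.1).re < 1} := by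
  have h1 : Measurable (fun p : ℍ × ℝ => (γ • p.1).re) :=
    UpperHalfPlane.continuous_re.measurable.comp ((un1_smul_meas γ).comp measurable_fst)
  exact (measurableSet_le measurable_const h1).inter (measurableSet_lt h1 measurable_const)

/-- the terms of the unfolded sum -/
noncomputable def un1_A {E : Type} [Zero E] (K : QN N → SL(2, ℝ) → E) (s : QN N) (γ : SL(2, ℤ))
    (p : ℍ × ℝ) : E :=
  if 0 ≤ (γ • p.1).re ∧ (γ • p.1).re < 1 then K (red N γ * s) (toR γ * gg p.1 p.2) else 0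

theorem un1_A_meas {E : Type} [Zero E] [MeasurableSpace E] {K : QN N → SL(2, ℝ) → E}
    (hm : ∀ s, Measurable (fun p : ℍ × ℝ => K s (gg p.1 p.2))) (s : QN N) (γ : SL(2, ℤ)) :
    Measurable (un1_A K s γ) := by
  unfold un1_A
  exact Measurable.ite (un1_cond γ) (un1_comp_meas (hm _) γ) measurable_const

/-- the nonnegative real case -/
theorem un1_pos [NeZero N] (K : QN N → SL(2, ℝ) → ℝ) (h0 : ∀ s g, 0 ≤ K s g)
    (hm : ∀ s, Measurable (fun p : ℍ × ℝ => K s (gg p.1 p.2)))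
    (hi : ∀ s : QN N, Integrable (fun q : ℂ × ℝ => K s (gx q.1 q.2))
      ((volume : Measure ℂ).prod (volume.restrict (Set.Ico (0 : ℝ) 1)))) :
    (∀ s : QN N, ∀ᵐ p : ℍ × ℝ ∂muG, Summable (fun γ : SL(2, ℤ) => un1_A K s γ p)) ∧
    (∀ s : QN N, Integrable (fun p : ℍ × ℝ => ∑' γ : SL(2, ℤ), un1_A K s γ p) muG) ∧
    ∑ s : QN N, ∫ p : ℍ × ℝ, (∑' γ : SL(2, ℤ), un1_A K s γ p) ∂muG =
      4 * ∑ s : QN N, ∫ q : ℂ × ℝ, K s (gx q.1 q.2)
        ∂((volume : Measure ℂ).prod (volume.restrict (Set.Ico (0 : ℝ) 1))) := by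
  have := un1_countable
  set ν : Measure (ℂ × ℝ) := (volume : Measure ℂ).prod (volume.restrict (Set.Ico (0 : ℝ) 1))
    with hν
  set k : QN N → SL(2, ℝ) → ℝ≥0∞ := fun s g => ENNReal.ofReal (K s g) with hk
  have hkm : ∀ s, Measurable (fun p : ℍ × ℝ => k s (gg p.1 p.2)) := fun s =>
    ENNReal.measurable_ofReal.comp (hm s)
  have hunf := unf_gen k hkm
  have hA : ∀ (s : QN N) (γ : SL(2, ℤ)) (p : ℍ × ℝ),
      un1_A K s γ p = (un1_A k s γ p).toReal := by
    intro s γ p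
    unfold un1_A
    split_ifs
    · rw [hk]
      exact (ENNReal.toReal_ofReal (h0 _ _)).symm
    · rfl
  have hAne : ∀ (s : QN N) (γ : SL(2, ℤ)) (p : ℍ × ℝ), un1_A k s γ p ≠ ⊤ := by
    intro s γ p
    unfold un1_A
    split_ifs
    · exact ENNReal.ofReal_ne_top
    · exact ENNReal.zero_ne_top
  have hR : ∀ s : QN N, ∫⁻ q, k s (gx q.1 q.2) ∂ν ≠ ⊤ := by
    intro s
    have h1 := (hi s).2
    rw [hasFiniteIntegral_iff_ofReal (Eventually.of_forall fun q => h0 s _)] at h1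
    exact h1.ne
  have hL : ∑ s : QN N, ∫⁻ p : ℍ × ℝ, (∑' γ : SL(2, ℤ), un1_A k s γ p) ∂muG =
      4 * ∑ s : QN N, ∫⁻ q, k s (gx q.1 q.2) ∂ν := hunf
  have hfin : 4 * ∑ s : QN N, ∫⁻ q, k s (gx q.1 q.2) ∂ν ≠ ⊤ :=
    ENNReal.mul_ne_top (by norm_num) (ENNReal.sum_ne_top.2 fun s _ => hR s)
  have hLs : ∀ s : QN N, ∫⁻ p : ℍ × ℝ, (∑' γ : SL(2, ℤ), un1_A k s γ p) ∂muG ≠ ⊤ := by
    intro s
    rw [← hL] at hfin
    exact (ENNReal.sum_ne_top.1 hfin) s (Finset.mem_univ s)
  have hmt : ∀ s : QN N, Measurable (fun p : ℍ × ℝ => ∑' γ : SL(2, ℤ), un1_A k s γ p) := by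
    intro s
    exact Measurable.tsum fun γ => un1_A_meas hkm s γ
  have hae : ∀ s : QN N, ∀ᵐ p : ℍ × ℝ ∂muG, ∑' γ : SL(2, ℤ), un1_A k s γ p < ⊤ := fun s =>
    ae_lt_top (hmt s) (hLs s)
  have hts : ∀ (s : QN N) (p : ℍ × ℝ), ∑' γ : SL(2, ℤ), un1_A K s γ p =
      (∑' γ : SL(2, ℤ), un1_A k s γ p).toReal := by
    intro s p
    rw [ENNReal.tsum_toReal_eq (fun γ => hAne s γ p)]
    exact tsum_congr fun γ => hA s γ p
  refine ⟨?_, ?_, ?_⟩
  · intro s
    filter_upwards [hae s] with p hp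
    have h1 := ENNReal.summable_toReal hp.ne
    exact h1.congr fun γ => (hA s γ p).symm
  · intro s
    have h1 := integrable_toReal_of_lintegral_ne_top (hmt s).aemeasurable (hLs s)
    exact h1.congr (Eventually.of_forall fun p => (hts s p).symm)
  · have h1 : ∀ s : QN N, ∫ p : ℍ × ℝ, (∑' γ : SL(2, ℤ), un1_A K s γ p) ∂muG =
        (∫⁻ p : ℍ × ℝ, (∑' γ : SL(2, ℤ), un1_A k s γ p) ∂muG).toReal := by
      intro s
      rw [← integral_toReal (hmt s).aemeasurable (hae s)]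
      exact integral_congr_ae (Eventually.of_forall fun p => hts s p)
    have h2 : ∀ s : QN N, ∫ q, K s (gx q.1 q.2) ∂ν = (∫⁻ q, k s (gx q.1 q.2) ∂ν).toReal := by
      intro s
      exact integral_eq_lintegral_of_nonneg_ae (Eventually.of_forall fun q => h0 s _)
        (hi s).aestronglyMeasurable
    rw [Finset.sum_congr rfl fun s _ => h1 s, Finset.sum_congr rfl fun s _ => h2 s,
      ← ENNReal.toReal_sum (fun s _ => hLs s), ← ENNReal.toReal_sum (fun s _ => hR s), hL,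
      ENNReal.toReal_mul]
    norm_num

/-- the four parts of a complex number -/
noncomputable def un1_part (j : Fin 4) (w : ℂ) : ℝ :=
  if j = 0 then max w.re 0 else if j = 1 then max (-w.re) 0 else if j = 2 then max w.im 0 else
    max (-w.im) 0

noncomputable def un1_c (j : Fin 4) : ℂ :=
  if j = 0 then 1 else if j = 1 then -1 else if j = 2 then Complex.I else -Complex.I

theorem un1_dec (w : ℂ) : w = ∑ j : Fin 4, un1_c j * (un1_part j w : ℂ) := by
  have h1 : ∀ x : ℝ, max x 0 - max (-x) 0 = x := by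
    intro x
    rcases le_total 0 x with h | h
    · rw [max_eq_left h, max_eq_right (by linarith)]; ring
    · rw [max_eq_right h, max_eq_left (by linarith)]; ring
  have h2 := h1 w.re
  have h3 := h1 w.im
  have h4 : w = ((max w.re 0 - max (-w.re) 0 : ℝ) : ℂ) +
      ((max w.im 0 - max (-w.im) 0 : ℝ) : ℂ) * Complex.I := by
    rw [h2, h3]
    exact (Complex.re_add_im w).symm
  rw [Fin.sum_univ_four]
  simp only [un1_c, un1_part]
  simp only [if_true, Fin.isValue, show (1 : Fin 4) ≠ 0 by decide, show (2 : Fin 4) ≠ 0 by decide,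
    show (2 : Fin 4) ≠ 1 by decide, show (3 : Fin 4) ≠ 0 by decide, show (3 : Fin 4) ≠ 1 by decide,
    show (3 : Fin 4) ≠ 2 by decide, if_false]
  conv_lhs => rw [h4]
  push_cast
  ring

theorem un1_part_nonneg (j : Fin 4) (w : ℂ) : 0 ≤ un1_part j w := by
  unfold un1_part
  split_ifs <;> exact le_max_right _ _

theorem un1_part_cont (j : Fin 4) : Continuous (un1_part j) := by
  unfold un1_part
  split_ifs
  · exact Complex.continuous_re.max continuous_const
  · exact (Complex.continuous_re.neg).max continuous_const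
  · exact Complex.continuous_im.max continuous_const
  · exact (Complex.continuous_im.neg).max continuous_const

theorem un1_part_le (j : Fin 4) (w : ℂ) : ‖un1_part j w‖ ≤ ‖w‖ := by
  have h1 := Complex.abs_re_le_norm w
  have h2 := Complex.abs_im_le_norm w
  have h3 := abs_le.1 h1
  have h4 := abs_le.1 h2
  have h5 := norm_nonneg w
  rw [Real.norm_eq_abs, abs_of_nonneg (un1_part_nonneg j w)]
  unfold un1_part
  split_ifs <;> refine max_le ?_ h5 <;> linarith

theorem un1_A_dec (K : QN N → SL(2, ℝ) → ℂ) (s : QN N) (γ : SL(2, ℤ)) (p : ℍ × ℝ) :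
    un1_A K s γ p = ∑ j : Fin 4, un1_c j *
      ((un1_A (fun s g => un1_part j (K s g)) s γ p : ℝ) : ℂ) := by
  unfold un1_A
  split_ifs
  · exact un1_dec _
  · simp

theorem unf_genC [NeZero N] (K : QN N → SL(2, ℝ) → ℂ)
    (hm : ∀ s, Measurable (fun p : ℍ × ℝ => K s (gg p.1 p.2)))
    (hi : ∀ s : QN N, Integrable (fun q : ℂ × ℝ => K s (gx q.1 q.2))
      ((volume : Measure ℂ).prod (volume.restrict (Set.Ico (0 : ℝ) 1)))) :
    (∀ s : QN N, ∀ᵐ p : ℍ × ℝ ∂muG, Summable (fun γ : SL(2, ℤ) =>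
      if 0 ≤ (γ • p.1).re ∧ (γ • p.1).re < 1 then
        K (red N γ * s) (toR γ * gg p.1 p.2) else 0)) ∧
    (∀ s : QN N, Integrable (fun p : ℍ × ℝ => ∑' γ : SL(2, ℤ),
      if 0 ≤ (γ • p.1).re ∧ (γ • p.1).re < 1 then
        K (red N γ * s) (toR γ * gg p.1 p.2) else 0) muG) ∧
    ∑ s : QN N, ∫ p : ℍ × ℝ, (∑' γ : SL(2, ℤ), if 0 ≤ (γ • p.1).re ∧ (γ • p.1).re < 1 then
        K (red N γ * s) (toR γ * gg p.1 p.2) else 0) ∂muG =
      4 * ∑ s : QN N, ∫ q : ℂ × ℝ, K s (gx q.1 q.2)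
        ∂((volume : Measure ℂ).prod (volume.restrict (Set.Ico (0 : ℝ) 1))) := by
  set ν : Measure (ℂ × ℝ) := (volume : Measure ℂ).prod (volume.restrict (Set.Ico (0 : ℝ) 1))
    with hν
  set Kj : Fin 4 → QN N → SL(2, ℝ) → ℝ := fun j s g => un1_part j (K s g) with hKj
  have hij : ∀ (j : Fin 4) (s : QN N), Integrable (fun q : ℂ × ℝ => Kj j s (gx q.1 q.2)) ν := by
    intro j s
    refine Integrable.mono (hi s)
      ((un1_part_cont j).comp_aestronglyMeasurable (hi s).aestronglyMeasurable) ?_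
    exact Eventually.of_forall fun q => un1_part_le j _
  have hP := fun j : Fin 4 => un1_pos (Kj j) (fun s g => un1_part_nonneg j _)
    (fun s => (un1_part_cont j).measurable.comp (hm s)) (hij j)
  have hsum : ∀ s : QN N, ∀ᵐ p : ℍ × ℝ ∂muG, ∀ j : Fin 4,
      Summable (fun γ : SL(2, ℤ) => un1_A (Kj j) s γ p) := by
    intro s
    rw [ae_all_iff]
    exact fun j => (hP j).1 s
  have hS : ∀ s : QN N, ∀ᵐ p : ℍ × ℝ ∂muG, Summable (fun γ : SL(2, ℤ) => un1_A K s γ p) ∧
      ∑' γ : SL(2, ℤ), un1_A K s γ p = ∑ j : Fin 4, un1_c j *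
        ((∑' γ : SL(2, ℤ), un1_A (Kj j) s γ p : ℝ) : ℂ) := by
    intro s
    filter_upwards [hsum s] with p hp
    have h1 : ∀ j : Fin 4, HasSum (fun γ : SL(2, ℤ) => un1_c j * ((un1_A (Kj j) s γ p : ℝ) : ℂ))
        (un1_c j * ((∑' γ : SL(2, ℤ), un1_A (Kj j) s γ p : ℝ) : ℂ)) := by
      intro j
      exact (Complex.hasSum_ofReal.2 (hp j).hasSum).mul_left _
    have h2 := hasSum_sum (s := Finset.univ) fun j _ => h1 j
    have h3 : HasSum (fun γ : SL(2, ℤ) => un1_A K s γ p) (∑ j : Fin 4, un1_c j *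
        ((∑' γ : SL(2, ℤ), un1_A (Kj j) s γ p : ℝ) : ℂ)) := by
      have e : (fun γ : SL(2, ℤ) => un1_A K s γ p) = fun γ : SL(2, ℤ) => ∑ j : Fin 4, un1_c j *
          ((un1_A (Kj j) s γ p : ℝ) : ℂ) := by
        funext γ
        exact un1_A_dec K s γ p
      rw [e]
      exact h2
    exact ⟨h3.summable, h3.tsum_eq⟩
  have hint : ∀ (j : Fin 4) (s : QN N), Integrable (fun p : ℍ × ℝ => un1_c j *
      ((∑' γ : SL(2, ℤ), un1_A (Kj j) s γ p : ℝ) : ℂ)) muG := by
    intro j s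
    exact (((hP j).2.1 s).ofReal).const_mul _
  refine ⟨fun s => ?_, fun s => ?_, ?_⟩
  · filter_upwards [hS s] with p hp
    exact hp.1
  · have h1 : Integrable (fun p : ℍ × ℝ => ∑ j : Fin 4, un1_c j *
        ((∑' γ : SL(2, ℤ), un1_A (Kj j) s γ p : ℝ) : ℂ)) muG :=
      integrable_finsetSum _ fun j _ => hint j s
    refine h1.congr ?_
    filter_upwards [hS s] with p hp
    exact hp.2.symm
  · have h1 : ∀ s : QN N, ∫ p : ℍ × ℝ, (∑' γ : SL(2, ℤ), un1_A K s γ p) ∂muG =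
        ∑ j : Fin 4, un1_c j *
          ((∫ p : ℍ × ℝ, (∑' γ : SL(2, ℤ), un1_A (Kj j) s γ p) ∂muG : ℝ) : ℂ) := by
      intro s
      rw [integral_congr_ae (g := fun p : ℍ × ℝ => ∑ j : Fin 4, un1_c j *
        ((∑' γ : SL(2, ℤ), un1_A (Kj j) s γ p : ℝ) : ℂ))]
      · rw [integral_finsetSum _ fun j _ => hint j s]
        refine Finset.sum_congr rfl fun j _ => ?_
        rw [integral_const_mul, integral_complex_ofReal]
      · filter_upwards [hS s] with p hp
        exact hp.2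
    have h2 : ∀ s : QN N, ∫ q : ℂ × ℝ, K s (gx q.1 q.2) ∂ν =
        ∑ j : Fin 4, un1_c j * ((∫ q : ℂ × ℝ, Kj j s (gx q.1 q.2) ∂ν : ℝ) : ℂ) := by
      intro s
      rw [integral_congr_ae (g := fun q : ℂ × ℝ => ∑ j : Fin 4, un1_c j *
        ((Kj j s (gx q.1 q.2) : ℝ) : ℂ))]
      · rw [integral_finsetSum _ fun j _ => ((hij j s).ofReal).const_mul _]
        refine Finset.sum_congr rfl fun j _ => ?_
        rw [integral_const_mul, integral_complex_ofReal]
      · exact Eventually.of_forall fun q => un1_dec _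
    show ∑ s : QN N, ∫ p : ℍ × ℝ, (∑' γ : SL(2, ℤ), un1_A K s γ p) ∂muG = _
    rw [Finset.sum_congr rfl fun s _ => h1 s, Finset.sum_congr rfl fun s _ => h2 s,
      Finset.sum_comm, Finset.sum_comm (s := Finset.univ (α := QN N)), Finset.mul_sum]
    refine Finset.sum_congr rfl fun j _ => ?_
    rw [← Finset.mul_sum, ← Finset.mul_sum, ← Complex.ofReal_sum, ← Complex.ofReal_sum,
      (hP j).2.2]
    push_cast
    ring

end Pool.Agent.JO
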