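import Pool.Agent.Lib_helper63.JO.Defs2
import Pool.Agent.Lib_helper63.JOE.CRD
import Pool.Agent.Lib_helper63.JOE.FTM
import Pool.Agent.Lib_helper63.JOE.HI1
/-! Block BOR: Borel measurability. -/

namespace Pool.Agent.JO

open Complex MeasureTheory Filter Topology UpperHalfPlane ModularGroup
open scoped MatrixGroups Modular ENNReal ComplexConjugate

variable {N : ℕ}

theorem bor_trig (z : ℍ) {a b : ℝ} (hc : Real.cos a = Real.cos b) (hs : Real.sin a = Real.sin b) :
    gg z a = gg z b := by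
  apply Subtype.ext
  unfold gg
  simp only [hc, hs]

theorem bor_eq (g : SL(2, ℝ)) :
    gg (g • UpperHalfPlane.I) (Complex.arg (((g 1 1 : ℝ) : ℂ) - ((g 1 0 : ℝ) : ℂ) * Complex.I)) =
      g := by
  obtain ⟨a, -, ha⟩ := gg_surj g
  set z : ℍ := g • UpperHalfPlane.I with hz
  have hy : (0 : ℝ) < √z.im := Real.sqrt_pos.2 z.im_pos
  have h10 : (g 1 0 : ℝ) = -Real.sin a / √z.im := by
    have h : (gg z a) 1 0 = -Real.sin a / √z.im := rfl
    rw [← h, ha]
  have h11 : (g 1 1 : ℝ) = Real.cos a / √z.im := by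
    have h : (gg z a) 1 1 = Real.cos a / √z.im := rfl
    rw [← h, ha]
  set w : ℂ := ((g 1 1 : ℝ) : ℂ) - ((g 1 0 : ℝ) : ℂ) * Complex.I with hw
  have hpq : ∀ p q : ℝ, ((p : ℂ) - (q : ℂ) * Complex.I).re = p ∧
      ((p : ℂ) - (q : ℂ) * Complex.I).im = -q := fun p q => by
    constructor <;> simp
  have hre : w.re = Real.cos a / √z.im := by
    rw [hw, (hpq _ _).1, h11]
  have him : w.im = Real.sin a / √z.im := by
    rw [hw, (hpq _ _).2, h10]
    ring
  have hn2 : ‖w‖ ^ 2 = (1 / √z.im) ^ 2 := by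
    rw [← Complex.normSq_eq_norm_sq, Complex.normSq_apply, hre, him]
    have := Real.sin_sq_add_cos_sq a
    field_simp
    linarith
  have hn : ‖w‖ = 1 / √z.im := by
    have h1 : (0 : ℝ) ≤ 1 / √z.im := by positivity
    exact (pow_left_inj₀ (norm_nonneg w) h1 two_ne_zero).1 hn2
  have hw0 : w ≠ 0 := by
    intro h
    rw [h, norm_zero] at hn
    have : (0 : ℝ) < 1 / √z.im := by positivity
    linarith
  have e := bor_trig z (a := Complex.arg w) (b := a) (by
    rw [Complex.cos_arg hw0, hre, hn]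
    field_simp) (by
    rw [Complex.sin_arg, him, hn]
    field_simp)
  rw [e, ha]

theorem bor_I : Continuous (fun g : SL(2, ℝ) => g • UpperHalfPlane.I) := by
  have hc : ∀ i j : Fin 2, Continuous (fun g : SL(2, ℝ) => ((g i j : ℝ) : ℂ)) := fun i j =>
    continuous_ofReal.comp ((continuous_apply_apply i j).comp continuous_subtype_val)
  rw [UpperHalfPlane.isEmbedding_coe.continuous_iff]
  have h : (UpperHalfPlane.coe ∘ fun g : SL(2, ℝ) => g • UpperHalfPlane.I) =
      fun g : SL(2, ℝ) => (((g 0 0 : ℝ) : ℂ) * Complex.I + ((g 0 1 : ℝ) : ℂ)) /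
        (((g 1 0 : ℝ) : ℂ) * Complex.I + ((g 1 1 : ℝ) : ℂ)) := by
    funext g
    rw [Function.comp_apply, UpperHalfPlane.specialLinearGroup_apply]
    simp
  rw [h]
  refine (((hc 0 0).mul continuous_const).add (hc 0 1)).div
    (((hc 1 0).mul continuous_const).add (hc 1 1)) fun g => ?_
  intro h0
  have h1 := congrArg Complex.re h0
  have h2 := congrArg Complex.im h0
  simp at h1 h2
  have hd := g.det_coe
  rw [Matrix.det_fin_two, h1, h2] at hd
  simp at hd

theorem MF_borel {F : QN N → SL(2, ℝ) → ℂ} :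
    MF F ↔ Fam F ∧ ∀ s, @Measurable _ _ (borel SL(2, ℝ)) _ (F s) := by
  let _ : MeasurableSpace SL(2, ℝ) := borel _
  have _ : BorelSpace SL(2, ℝ) := ⟨rfl⟩
  constructor
  · intro h
    refine ⟨h.1, fun s => ?_⟩
    have h1 : F s = (fun p : ℍ × ℝ => F s (gg p.1 p.2)) ∘ fun g : SL(2, ℝ) =>
        (g • UpperHalfPlane.I,
          Complex.arg (((g 1 1 : ℝ) : ℂ) - ((g 1 0 : ℝ) : ℂ) * Complex.I)) := by
      funext g
      show F s g = F s (gg (g • UpperHalfPlane.I)
        (Complex.arg (((g 1 1 : ℝ) : ℂ) - ((g 1 0 : ℝ) : ℂ) * Complex.I)))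
      rw [bor_eq g]
    rw [h1]
    refine (h.2 s).comp ?_
    have hc : ∀ i j : Fin 2, Continuous (fun g : SL(2, ℝ) => ((g i j : ℝ) : ℂ)) := fun i j =>
      continuous_ofReal.comp ((continuous_apply_apply i j).comp continuous_subtype_val)
    have h2 : Continuous (fun g : SL(2, ℝ) =>
        ((g 1 1 : ℝ) : ℂ) - ((g 1 0 : ℝ) : ℂ) * Complex.I) :=
      (hc 1 1).sub ((hc 1 0).mul continuous_const)
    exact bor_I.measurable.prodMk (Complex.measurable_arg.comp h2.measurable)
  · intro h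
    exact ⟨h.1, fun s => (h.2 s).comp gg_cont.measurable⟩

theorem MF_right {F : QN N → SL(2, ℝ) → ℂ} (hF : MF F) (h : SL(2, ℝ)) :
    MF (fun s g => F s (g * h)) := by
  let _ : MeasurableSpace SL(2, ℝ) := borel _
  have _ : BorelSpace SL(2, ℝ) := ⟨rfl⟩
  rw [MF_borel] at hF ⊢
  refine ⟨fun γ s g => ?_, fun s => ?_⟩
  · show F (red N γ * s) (toR γ * g * h) = F s (g * h)
    rw [mul_assoc]
    exact hF.1 γ s (g * h)
  · exact (hF.2 s).comp (continuous_mul_const h).measurable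

theorem MF_Tm {F : QN N → SL(2, ℝ) → ℂ} (hF : MF F) {m : ℕ} (hm : m.Coprime N) (h0 : m ≠ 0) :
    MF (Tm m F) := by
  let _ : MeasurableSpace SL(2, ℝ) := borel _
  have _ : BorelSpace SL(2, ℝ) := ⟨rfl⟩
  rw [MF_borel] at hF ⊢
  refine ⟨fam_Tm hm h0 hF.1, fun s => ?_⟩
  show Measurable (fun g => (m : ℂ)⁻¹ * ∑ t ∈ HM (m ^ 2), F (hQ N m t * s) (hR m t * g))
  refine Measurable.const_mul (Finset.measurable_sum _ fun t _ => ?_) _
  exact (hF.2 _).comp (continuous_const_mul _).measurable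

theorem bor_fin : IsFiniteMeasure muG := by
  obtain ⟨V, hV, h⟩ := ip_one (N := 1)
  by_contra hne
  have h1 : ¬ Integrable (fun _ : ℍ × ℝ => (1 : ℂ)) muG := by
    intro hi
    rw [integrable_const_iff] at hi
    rcases hi with hi | hi
    · exact one_ne_zero hi
    · exact hne hi
  have h2 : ip (N := 1) (fun _ _ => 1) (fun _ _ => 1) = 0 := by
    unfold ip
    refine Finset.sum_eq_zero fun s _ => ?_
    simp only [map_one, mul_one]
    exact integral_undef h1
  rw [h2] at h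
  exact hV.ne (by exact_mod_cast h)

theorem SqF_of_bdd [NeZero N] {F : QN N → SL(2, ℝ) → ℂ} (hF : MF F) {C : ℝ}
    (h : ∀ s g, ‖F s g‖ ≤ C) : SqF F := by
  have _ := bor_fin
  refine ⟨hF, fun s => ?_⟩
  refine Integrable.mono' (integrable_const (C ^ 2)) ((hF.2 s).norm.pow_const 2).aestronglyMeasurable
    (Eventually.of_forall fun p => ?_)
  have h1 := h s (gg p.1 p.2)
  have h2 := norm_nonneg (F s (gg p.1 p.2))
  rw [Real.norm_of_nonneg (by positivity)]
  gcongr

end Pool.Agent.JO
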