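import Pool.Agent.Lib_helper63.JO.Defs2
/-!
# Project JO, part E, block HT1: the symplectic Fourier transform of a test function
-/

namespace Pool.Agent.JO

open Complex MeasureTheory Filter Topology UpperHalfPlane ModularGroup
open scoped MatrixGroups Modular ENNReal ComplexConjugate ContDiff

variable {N : ℕ}

section ht1

open scoped FourierTransform SchwartzMap

theorem ht1_supp {w : ℂ → ZMod N × ZMod N → ℂ} (hw : TW w) (v : ZMod N × ZMod N) :
    HasCompactSupport (fun x => w x v) := by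
  obtain ⟨r, R, hr, h⟩ := hw.supp
  refine HasCompactSupport.of_support_subset_isCompact (isCompact_closedBall (0 : ℂ) R) ?_
  intro x hx
  rw [mem_closedBall_zero_iff]
  exact (h x v hx).2

/-- `w( . ; v)` as a Schwartz function -/
noncomputable def ht1_f {w : ℂ → ZMod N × ZMod N → ℂ} (hw : TW w) (v : ZMod N × ZMod N) :
    𝓢(ℂ, ℂ) :=
  (ht1_supp hw v).toSchwartzMap (hw.smooth v)

/-- multiplication by a nonzero complex number -/
noncomputable def ht1_L (c : ℂ) (hc : c ≠ 0) : ℂ ≃L[ℝ] ℂ :=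
  ((ContinuousLinearEquiv.unitsEquivAut ℂ) (Units.mk0 c hc)).restrictScalars ℝ

theorem ht1_L_apply (c : ℂ) (hc : c ≠ 0) (x : ℂ) : ht1_L c hc x = x * c := rfl

theorem ht1_c [NeZero N] : (-Complex.I / (N : ℂ)) ≠ 0 := by
  have : (N : ℂ) ≠ 0 := by exact_mod_cast NeZero.ne N
  refine div_ne_zero (neg_ne_zero.2 Complex.I_ne_zero) this

/-- the symplectic Fourier transform in the first variable, as a Schwartz function -/
noncomputable def ht1_T [NeZero N] {w : ℂ → ZMod N × ZMod N → ℂ} (hw : TW w)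
    (v : ZMod N × ZMod N) : 𝓢(ℂ, ℂ) :=
  SchwartzMap.compCLMOfContinuousLinearEquiv ℂ (ht1_L (-Complex.I / (N : ℂ)) ht1_c)
      (𝓕 (ht1_f hw v))

theorem ht1_T_eq [NeZero N] {w : ℂ → ZMod N × ZMod N → ℂ} (hw : TW w) (v : ZMod N × ZMod N)
    (η : ℂ) : ht1_T hw v η =
      ∫ ξ : ℂ, w ξ v * cexp (-(2 * Real.pi * (conj ξ * η).im / N : ℝ) * Complex.I) := by
  unfold ht1_T
  rw [SchwartzMap.compCLMOfContinuousLinearEquiv_apply, Function.comp_apply,
    SchwartzMap.fourier_coe, Real.fourier_eq']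
  refine integral_congr_ae (Filter.Eventually.of_forall fun ξ => ?_)
  show cexp _ • (ht1_f hw v ξ) = _
  have e1 : ht1_f hw v ξ = w ξ v := rfl
  rw [e1, smul_eq_mul, mul_comm]
  congr 2
  have e2 : inner ℝ ξ (ht1_L (-Complex.I / (N : ℂ)) ht1_c η) = (conj ξ * η).im / N := by
    rw [ht1_L_apply, Complex.inner]
    have hN : (N : ℂ) ≠ 0 := by exact_mod_cast NeZero.ne N
    have e3 : η * (-Complex.I / (N : ℂ)) * conj ξ =
        (((N : ℝ)⁻¹ : ℝ) : ℂ) * (conj ξ * η * (-Complex.I)) := by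
      push_cast
      field_simp
    rw [e3, Complex.re_ofReal_mul]
    simp
    ring
  rw [e2]
  push_cast
  ring

/-- `hat w ( . ; u)` as a Schwartz function -/
noncomputable def ht1_S [NeZero N] {w : ℂ → ZMod N × ZMod N → ℂ} (hw : TW w)
    (u : ZMod N × ZMod N) : 𝓢(ℂ, ℂ) :=
  (((N : ℂ) ^ 2)⁻¹) • ∑ v : ZMod N × ZMod N, (ZMod.stdAddChar (sy v u) : ℂ) • ht1_T hw v

theorem ht1_S_eq [NeZero N] {w : ℂ → ZMod N × ZMod N → ℂ} (hw : TW w) (η : ℂ)
    (u : ZMod N × ZMod N) : ht1_S hw u η = hat w η u := by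
  unfold ht1_S hat
  rw [smul_apply, sum_apply, smul_eq_mul]
  congr 1
  refine Finset.sum_congr rfl fun v _ => ?_
  rw [smul_apply, smul_eq_mul, ht1_T_eq]

theorem hat_cont [NeZero N] {w : ℂ → ZMod N × ZMod N → ℂ} (hw : TW w) (u : ZMod N × ZMod N) :
    ContDiff ℝ 1 (fun η => hat w η u) := by
  have h := (ht1_S hw u).smooth 1
  have e : (fun η => hat w η u) = ht1_S hw u := by
    funext η
    rw [ht1_S_eq]
  rw [e]
  exact h

theorem hat_decay [NeZero N] {w : ℂ → ZMod N × ZMod N → ℂ} (hw : TW w) (A : ℕ) :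
    ∃ C : ℝ, ∀ η u, ‖hat w η u‖ ≤ C * (1 + ‖η‖) ^ (-(A : ℝ)) ∧
      ‖fderiv ℝ (fun η => hat w η u) η‖ ≤ C * (1 + ‖η‖) ^ (-(A : ℝ)) := by
  have h1 : ∀ u : ZMod N × ZMod N, ∃ C : ℝ, ∀ η : ℂ, ∀ n : ℕ, n ≤ 1 →
      (1 + ‖η‖) ^ A * ‖iteratedFDeriv ℝ n (ht1_S hw u) η‖ ≤ C := by
    intro u
    refine ⟨_, fun η n hn => SchwartzMap.one_add_le_sup_seminorm_apply (𝕜 := ℝ) (m := (A, 1))
      (le_refl A) hn (ht1_S hw u) η⟩
  choose C hC using h1
  refine ⟨∑ u, |C u|, fun η u => ?_⟩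
  have hpos : 0 < 1 + ‖η‖ := by positivity
  have e : (fun η => hat w η u) = ht1_S hw u := by
    funext η
    rw [ht1_S_eq]
  have hCu : C u ≤ ∑ u, |C u| :=
    (le_abs_self _).trans (Finset.single_le_sum (f := fun u => |C u|)
      (fun i _ => abs_nonneg _) (Finset.mem_univ u))
  have key : ∀ y : ℝ, (1 + ‖η‖) ^ A * y ≤ C u → y ≤ (∑ u, |C u|) * (1 + ‖η‖) ^ (-(A : ℝ)) := by
    intro y hy
    rw [Real.rpow_neg hpos.le, Real.rpow_natCast, ← div_eq_mul_inv, le_div_iff₀ (by positivity)]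
    linarith [mul_comm y ((1 + ‖η‖) ^ A)]
  constructor
  · apply key
    have h2 := hC u η 0 (by norm_num)
    rw [norm_iteratedFDeriv_zero] at h2
    rwa [← ht1_S_eq hw]
  · rw [e]
    apply key
    have h2 := hC u η 1 le_rfl
    rwa [norm_iteratedFDeriv_one] at h2

theorem hat_even [NeZero N] {w : ℂ → ZMod N × ZMod N → ℂ} (hw : Evn w) : Evn (hat w) := by
  intro η u
  unfold hat
  congr 1
  rw [← Equiv.sum_comp (Equiv.neg (ZMod N × ZMod N))]
  refine Finset.sum_congr rfl fun v _ => ?_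
  have e1 : sy (-v) (-u) = sy v u := by
    simp [sy]
  rw [Equiv.neg_apply, e1]
  congr 1
  rw [← integral_neg_eq_self]
  refine integral_congr_ae (Filter.Eventually.of_forall fun ξ => ?_)
  show w (-ξ) (-v) * _ = _
  rw [hw ξ v]
  congr 2
  simp

end ht1

end Pool.Agent.JO
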