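import Pool.Agent.Lib_helper63.JO.Defs2
import Pool.Agent.Lib_helper63.JOE.CF1
import Pool.Agent.Lib_helper63.JOE.FAM
import Pool.Agent.Lib_helper63.JOE.HT1
import Pool.Agent.Lib_helper63.JOE.ROW
/-!
# Block CTH: the constant term of a theta series
-/

namespace Pool.Agent.JO

open Complex MeasureTheory Filter Topology UpperHalfPlane ModularGroup
open scoped MatrixGroups Modular ENNReal ComplexConjugate ContDiff

variable {N : ℕ}

/-! ## Geometry -/

noncomputable def cth_e (x : ℂ) : ℂ := -(Complex.I / conj x)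

noncomputable def cth_p (x : ℂ) (u τ : ℝ) : ℂ := u * x + τ * cth_e x

theorem cth_fac {x : ℂ} (hx : x ≠ 0) (u τ : ℝ) :
    cth_p x u τ = x * (u - ((τ / Complex.normSq x : ℝ) : ℂ) * Complex.I) := by
  have h1 : conj x ≠ 0 := by simpa using hx
  have h2 : (Complex.normSq x : ℂ) = x * conj x := (Complex.mul_conj x).symm
  unfold cth_p cth_e
  push_cast
  rw [h2]
  field_simp
  ring

theorem cth_bd {x : ℂ} (hx : x ≠ 0) (u τ : ℝ) :
    |u| * ‖x‖ ≤ ‖cth_p x u τ‖ ∧ |τ| ≤ ‖x‖ * ‖cth_p x u τ‖ := by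
  have hx0 : 0 < ‖x‖ := norm_pos_iff.2 hx
  rw [cth_fac hx, norm_mul]
  set z : ℂ := u - ((τ / Complex.normSq x : ℝ) : ℂ) * Complex.I with hz
  have h1 : z.re = u := by simp [hz]
  have h2 : z.im = -(τ / Complex.normSq x) := by simp [hz]
  have h3 := Complex.abs_re_le_norm z
  have h4 := Complex.abs_im_le_norm z
  rw [h1] at h3
  rw [h2, abs_neg, abs_div, Complex.normSq_eq_norm_sq, abs_of_nonneg (by positivity : 0 ≤ ‖x‖ ^ 2),
    div_le_iff₀ (by positivity)] at h4
  constructor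
  · nlinarith
  · nlinarith

theorem cth_sy {x : ℂ} (hx : x ≠ 0) (u τ : ℝ) (m : ℂ) (hm : m.im = 0) :
    (conj (cth_p x u τ) * (m * x)).im = m.re * τ := by
  have h1 : Complex.normSq x ≠ 0 := by
    rwa [Ne, Complex.normSq_eq_zero]
  rw [cth_fac hx]
  have h2 : conj (x * (u - ((τ / Complex.normSq x : ℝ) : ℂ) * Complex.I)) * (m * x) =
      (x * conj x) * (m * (u + ((τ / Complex.normSq x : ℝ) : ℂ) * Complex.I)) := by
    simp only [map_mul, map_sub, Complex.conj_ofReal, Complex.conj_I]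
    ring
  rw [h2, Complex.mul_conj, Complex.im_ofReal_mul]
  simp [hm]
  field_simp

theorem cth_cont (x : ℂ) : Continuous (fun p : ℝ × ℝ => cth_p x p.1 p.2) := by
  unfold cth_p
  fun_prop

theorem cth_area {x : ℂ} (hx : x ≠ 0) {G : ℂ → ℂ} (hG : Continuous G) {R : ℝ}
    (hR : ∀ ξ, G ξ ≠ 0 → ‖ξ‖ ≤ R) :
    ∫ ξ : ℂ, G ξ = ∫ τ : ℝ, ∫ u : ℝ, G (cth_p x u τ) := by
  have hx0 : 0 < ‖x‖ := norm_pos_iff.2 hx
  let L : ℂ →ₗ[ℝ] ℂ :=
    { toFun := fun ζ => cth_p x ζ.re ζ.im
      map_add' := by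
        intro a b
        simp only [cth_p, Complex.add_re, Complex.add_im]
        push_cast
        ring
      map_smul' := by
        intro a b
        simp only [cth_p, RingHom.id_apply, Complex.real_smul, Complex.re_ofReal_mul,
          Complex.im_ofReal_mul]
        push_cast
        ring }
  have hLa : ∀ ζ, L ζ = cth_p x ζ.re ζ.im := fun ζ => rfl
  have h1 : Complex.normSq x ≠ 0 := by
    rwa [Ne, Complex.normSq_eq_zero]
  have he : cth_e x = ⟨x.im / Complex.normSq x, -(x.re / Complex.normSq x)⟩ := by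
    have h1' : conj x ≠ 0 := by simpa using hx
    have : cth_e x = -(Complex.I * x) / (Complex.normSq x : ℝ) := by
      have h2 : (Complex.normSq x : ℂ) = x * conj x := (Complex.mul_conj x).symm
      unfold cth_e
      rw [h2]
      field_simp
    rw [this]
    apply Complex.ext
    · simp [Complex.div_ofReal_re]
    · simp [Complex.div_ofReal_im]
      ring
  have hdet : LinearMap.det L = -1 := by
    rw [← LinearMap.det_toMatrix Complex.basisOneI, Matrix.det_fin_two]
    simp only [LinearMap.toMatrix_apply, Complex.coe_basisOneI_repr, Complex.coe_basisOneI]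
    simp only [hLa, cth_p, he]
    simp
    have h3 : Complex.normSq x = x.re * x.re + x.im * x.im := Complex.normSq_apply x
    field_simp
    rw [h3]
    ring
  have hmap : Measure.map L (volume : Measure ℂ) = volume := by
    rw [Measure.map_linearMap_addHaar_eq_smul_addHaar (volume : Measure ℂ) (by rw [hdet]; norm_num),
      hdet]
    simp
  have hLc : Continuous L := L.continuous_of_finiteDimensional
  have e1 : ∫ ξ : ℂ, G ξ = ∫ ζ : ℂ, G (L ζ) := by
    rw [← integral_map hLc.measurable.aemeasurable hG.aestronglyMeasurable, hmap]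
  have e2 : ∫ ζ : ℂ, G (L ζ) = ∫ p : ℝ × ℝ, G (cth_p x p.1 p.2) := by
    rw [← Complex.volume_preserving_equiv_real_prod.integral_comp
      Complex.measurableEquivRealProd.measurableEmbedding]
    rfl
  have hint : Integrable (fun p : ℝ × ℝ => G (cth_p x p.1 p.2)) := by
    refine (hG.comp (cth_cont x)).integrable_of_hasCompactSupport ?_
    refine HasCompactSupport.of_support_subset_isCompact
      ((isCompact_closedBall (0 : ℝ) (R / ‖x‖)).prod (isCompact_closedBall (0 : ℝ) (‖x‖ * R))) ?_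
    intro p hp
    have h5 := hR _ hp
    have h6 := cth_bd hx p.1 p.2
    refine ⟨?_, ?_⟩
    · rw [mem_closedBall_zero_iff, Real.norm_eq_abs, le_div_iff₀ hx0]
      exact h6.1.trans h5
    · rw [mem_closedBall_zero_iff, Real.norm_eq_abs]
      exact h6.2.trans (mul_le_mul_of_nonneg_left h5 hx0.le)
  rw [e1, e2]
  exact integral_prod_symm _ hint

/-! ## Unfolding -/

theorem cth_unf_nat {ψ : ℝ → ℂ} (hc : Continuous ψ) (hi : Integrable ψ) (n : ℕ) (hn : n ≠ 0)
    (k : ℤ) : HasSum (fun j : ℤ => ∫ t in (0 : ℝ)..1, ψ (n * t + (j + k : ℤ))) (∫ y, ψ y) := by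
  have hn0 : (n : ℝ) ≠ 0 := Nat.cast_ne_zero.2 hn
  have h1 : ∀ i : ℕ, HasSum (fun j : ℤ => ∫ y in ((k + i : ℤ) : ℝ) + j..((k + i : ℤ) : ℝ) + j + 1, ψ y)
      (∫ y, ψ y) := fun i => hi.hasSum_intervalIntegral _
  have h2 : HasSum (fun j : ℤ => ∑ i ∈ Finset.range n,
      ∫ y in ((k + i : ℤ) : ℝ) + j..((k + i : ℤ) : ℝ) + j + 1, ψ y) (∑ _i ∈ Finset.range n, ∫ y, ψ y) :=
    hasSum_sum fun i _ => h1 i
  have h3 := h2.mul_left ((n : ℂ)⁻¹)
  have hn1 : (n : ℂ) ≠ 0 := Nat.cast_ne_zero.2 hn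
  rw [Finset.sum_const, Finset.card_range, nsmul_eq_mul, inv_mul_cancel_left₀ hn1] at h3
  refine h3.congr_fun ?_
  intro j
  have h4 : ∑ i ∈ Finset.range n, ∫ y in ((k + i : ℤ) : ℝ) + j..((k + i : ℤ) : ℝ) + j + 1, ψ y =
      ∫ y in ((j + k : ℤ) : ℝ)..((j + k : ℤ) : ℝ) + n, ψ y := by
    have h5 := intervalIntegral.sum_integral_adjacent_intervals (μ := volume) (f := ψ) (n := n)
      (a := fun i : ℕ => ((j + k : ℤ) : ℝ) + i) (fun i _ => hc.intervalIntegrable _ _)
    simp only [Nat.cast_zero, add_zero] at h5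
    rw [← h5]
    refine Finset.sum_congr rfl fun i _ => ?_
    congr 1
    · push_cast
      ring
    · push_cast
      ring
  rw [h4]
  have h6 := intervalIntegral.integral_comp_mul_add (a := 0) (b := 1) ψ hn0 ((j + k : ℤ) : ℝ)
  rw [h6]
  simp only [mul_zero, zero_add, mul_one]
  rw [Complex.real_smul]
  push_cast
  congr 2
  ring

theorem cth_unf {ψ : ℝ → ℂ} (hc : Continuous ψ) (hi : Integrable ψ) {c : ℤ} (h0 : c ≠ 0) :
    HasSum (fun j : ℤ => ∫ t in (0 : ℝ)..1, ψ (c * t + j)) (∫ y, ψ y) := by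
  rcases lt_or_gt_of_ne h0 with h | h
  · obtain ⟨n, hn⟩ := Int.exists_eq_neg_ofNat h.le
    have hn0 : n ≠ 0 := by
      rintro rfl
      simp at hn
      omega
    refine (cth_unf_nat hc hi n hn0 c).congr_fun ?_
    intro j
    have h7 := intervalIntegral.integral_comp_sub_left (a := 0) (b := 1)
      (fun t : ℝ => ψ (c * t + j)) 1
    simp only [sub_zero, sub_self] at h7
    rw [← h7]
    refine intervalIntegral.integral_congr fun t _ => ?_
    congr 1
    rw [hn]
    push_cast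
    ring
  · obtain ⟨n, hn⟩ := Int.eq_ofNat_of_zero_le h.le
    have hn0 : n ≠ 0 := by
      rintro rfl
      simp at hn
      omega
    refine (cth_unf_nat hc hi n hn0 0).congr_fun ?_
    intro j
    refine intervalIntegral.integral_congr fun t _ => ?_
    congr 1
    rw [hn]
    push_cast
    ring

/-- sums over residue classes -/
theorem cth_class [NeZero N] {F : ℤ → ℂ} (hF : Summable F) :
    ∑' m : ℤ, F m = ∑ c : Fin N, ∑' j : ℤ, F (j * N + (c : ℕ)) := by
  let e : Fin N × ℤ ≃ ℤ := (Equiv.prodComm _ _).trans (Int.divModEquiv N).symm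
  have he : ∀ p : Fin N × ℤ, e p = p.2 * N + (p.1 : ℕ) := by
    intro p
    simp [e, Int.divModEquiv]
  have S' : Summable (fun p : Fin N × ℤ => F (e p)) := hF.comp_injective e.injective
  rw [← e.tsum_eq F, S'.tsum_prod, tsum_fintype]
  simp_rw [he]

/-! ## Poisson summation -/

theorem cth_poisson [NeZero N] {f : ℝ → ℂ} (hf : Continuous f) {R : ℝ}
    (hR : ∀ t, f t ≠ 0 → |t| ≤ R) (b : ℤ)
    (hs : Summable (fun m : ℤ => ∫ τ : ℝ, f τ * cexp (-(2 * Real.pi * (m * τ) / N : ℝ) * Complex.I))) :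
    ∑' m : ℤ, cexp (2 * Real.pi * Complex.I * (m * b : ℤ) / N) *
        ∫ τ : ℝ, f τ * cexp (-(2 * Real.pi * (m * τ) / N : ℝ) * Complex.I) =
      N * ∑' k : ℤ, f ((k * N + b : ℤ)) := by
  have hN : (0 : ℝ) < N := Nat.cast_pos.2 (NeZero.pos N)
  have hNc : (N : ℂ) ≠ 0 := Nat.cast_ne_zero.2 (NeZero.ne N)
  set h : ℝ → ℂ := fun t => f (N * t + b) with hh
  have hc : Continuous h := hf.comp (by fun_prop)
  have hF : ∀ m : ℤ, FourierTransform.fourier h (m : ℝ) = (N : ℂ)⁻¹ *
      (cexp (2 * Real.pi * Complex.I * (m * b : ℤ) / N) *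
        ∫ τ : ℝ, f τ * cexp (-(2 * Real.pi * (m * τ) / N : ℝ) * Complex.I)) := by
    intro m
    rw [Real.fourier_real_eq_integral_exp_smul]
    have e1 : ∫ v : ℝ, cexp (((-2 * Real.pi * v * (m : ℝ) : ℝ) : ℂ) * Complex.I) • h v =
        ∫ v : ℝ, (fun τ : ℝ => cexp (((-2 * Real.pi * (m : ℝ) * τ / N : ℝ) : ℂ) * Complex.I) *
          f (τ + b)) (N * v) := by
      refine integral_congr_ae (ae_of_all _ fun v => ?_)
      simp only [hh, smul_eq_mul]
      congr 3
      have : (N : ℝ) ≠ 0 := hN.ne'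
      congr 1
      field_simp
    have e1' := Measure.integral_comp_mul_left (fun τ : ℝ =>
      cexp (((-2 * Real.pi * (m : ℝ) * τ / N : ℝ) : ℂ) * Complex.I) * f (τ + b)) (N : ℝ)
    rw [e1, e1', abs_inv, abs_of_pos hN, Complex.real_smul]
    have e2 : ∫ τ : ℝ, cexp (((-2 * Real.pi * (m : ℝ) * τ / N : ℝ) : ℂ) * Complex.I) *
          f (τ + b) = ∫ τ : ℝ, (fun σ : ℝ =>
            cexp (((-2 * Real.pi * (m : ℝ) * (σ - b) / N : ℝ) : ℂ) * Complex.I) * f σ) (τ + b) := by
      refine integral_congr_ae (ae_of_all _ fun v => ?_)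
      simp
    have e2' := integral_add_right_eq_self (μ := (volume : Measure ℝ)) (fun σ : ℝ =>
            cexp (((-2 * Real.pi * (m : ℝ) * (σ - b) / N : ℝ) : ℂ) * Complex.I) * f σ) (b : ℝ)
    rw [e2, e2', ← integral_const_mul (cexp (2 * Real.pi * Complex.I * (m * b : ℤ) / N))]
    push_cast
    congr 1
    refine integral_congr_ae (ae_of_all _ fun v => ?_)
    simp only
    have e3 : cexp (-2 * Real.pi * m * (v - b) / N * Complex.I) =
        cexp (2 * Real.pi * Complex.I * (m * b) / N) *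
          cexp (-(2 * Real.pi * (m * v) / N) * Complex.I) := by
      rw [← Complex.exp_add]
      congr 1
      field_simp
      ring
    rw [e3]
    ring
  have hsum : Summable (fun m : ℤ => FourierTransform.fourier h (m : ℝ)) := by
    simp_rw [hF]
    refine Summable.mul_left _ ?_
    refine Summable.of_norm_bounded hs.norm ?_
    intro m
    rw [norm_mul]
    have : ‖cexp (2 * Real.pi * Complex.I * (m * b : ℤ) / N)‖ = 1 := by
      have e4 : 2 * Real.pi * Complex.I * (m * b : ℤ) / N =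
          ((2 * Real.pi * (m * b : ℤ) / N : ℝ) : ℂ) * Complex.I := by
        push_cast
        ring
      rw [e4, Complex.norm_exp_ofReal_mul_I]
    rw [this, one_mul]
  have hO : Asymptotics.IsBigO (cocompact ℝ) h fun x : ℝ => |x| ^ (-(2 : ℝ)) := by
    have hcs : HasCompactSupport h := by
      refine HasCompactSupport.of_support_subset_isCompact
        (isCompact_closedBall (0 : ℝ) ((R + |(b : ℝ)|) / N)) ?_
      intro t ht
      have h1 := hR _ ht
      rw [mem_closedBall_zero_iff, Real.norm_eq_abs, le_div_iff₀ hN]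
      have h2 : |t| * N = |(N * t + b) - b| := by
        rw [add_sub_cancel_right, abs_mul, abs_of_pos hN, mul_comm]
      rw [h2]
      exact (abs_sub _ _).trans (by linarith)
    refine Asymptotics.IsBigO.of_bound 1 ?_
    have := (hasCompactSupport_iff_eventuallyEq.1 hcs)
    rw [coclosedCompact_eq_cocompact] at this
    filter_upwards [this] with t ht
    rw [ht]
    simp
    positivity
  have key := Real.tsum_eq_tsum_fourier_of_rpow_decay_of_summable hc one_lt_two hO hsum 0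
  have e5 : ∀ n : ℤ, h (0 + n) = f ((n * N + b : ℤ)) := by
    intro n
    rw [hh]
    simp only
    congr 1
    push_cast
    ring
  simp_rw [e5, hF] at key
  rw [key]
  have e6 : ∀ n : ℤ, fourier n ((0 : ℝ) : UnitAddCircle) = 1 := by
    intro n
    rw [AddCircle.coe_zero]
    exact fourier_eval_zero n
  simp_rw [e6, mul_one]
  rw [tsum_mul_left]
  field_simp

/-! ## The functions of `τ` -/

noncomputable def cth_f (w : ℂ → ZMod N × ZMod N → ℂ) (x : ℂ) (v : ZMod N × ZMod N) (τ : ℝ) : ℂ :=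
  ∫ u : ℝ, w (cth_p x u τ) v

theorem cth_f_cont {w : ℂ → ZMod N × ZMod N → ℂ} (hw : ∀ v, Continuous (fun x => w x v)) {R : ℝ}
    (hR : ∀ x v, w x v ≠ 0 → ‖x‖ ≤ R) {x : ℂ} (hx : x ≠ 0) (v : ZMod N × ZMod N) :
    Continuous (cth_f w x v) := by
  have hx0 : 0 < ‖x‖ := norm_pos_iff.2 hx
  have h1 : cth_f w x v = fun τ => ∫ u in Metric.closedBall (0 : ℝ) (R / ‖x‖), w (cth_p x u τ) v := by
    funext τ
    unfold cth_f
    rw [setIntegral_eq_integral_of_forall_compl_eq_zero]
    intro u hu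
    by_contra h
    apply hu
    rw [mem_closedBall_zero_iff, Real.norm_eq_abs, le_div_iff₀ hx0]
    exact (cth_bd hx u τ).1.trans (hR _ _ h)
  rw [h1]
  refine continuous_parametric_integral_of_continuous ?_ (isCompact_closedBall _ _)
  exact (hw v).comp ((cth_cont x).comp (by fun_prop : Continuous (fun p : ℝ × ℝ => (p.2, p.1))))

theorem cth_f_supp {w : ℂ → ZMod N × ZMod N → ℂ} {R : ℝ}
    (hR : ∀ x v, w x v ≠ 0 → ‖x‖ ≤ R) {x : ℂ} (hx : x ≠ 0) (v : ZMod N × ZMod N) {τ : ℝ}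
    (h : cth_f w x v τ ≠ 0) : |τ| ≤ ‖x‖ * R := by
  by_contra hc
  apply h
  unfold cth_f
  have : ∀ u : ℝ, w (cth_p x u τ) v = 0 := by
    intro u
    by_contra h2
    apply hc
    exact (cth_bd hx u τ).2.trans (mul_le_mul_of_nonneg_left (hR _ _ h2) (norm_nonneg _))
  simp [this]

/-- the Fourier integrals -/
theorem cth_four {w : ℂ → ZMod N × ZMod N → ℂ} (hw : ∀ v, Continuous (fun x => w x v)) {R : ℝ}
    (hR : ∀ x v, w x v ≠ 0 → ‖x‖ ≤ R) {x : ℂ} (hx : x ≠ 0) (v : ZMod N × ZMod N) (m : ℤ) :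
    ∫ ξ : ℂ, w ξ v * cexp (-(2 * Real.pi * (conj ξ * (m * x)).im / N : ℝ) * Complex.I) =
      ∫ τ : ℝ, cth_f w x v τ * cexp (-(2 * Real.pi * (m * τ) / N : ℝ) * Complex.I) := by
  rw [cth_area hx (G := fun ξ => w ξ v *
    cexp (-(2 * Real.pi * (conj ξ * (m * x)).im / N : ℝ) * Complex.I)) ?_ (R := R) ?_]
  · refine integral_congr_ae (ae_of_all _ fun τ => ?_)
    simp only
    unfold cth_f
    rw [← integral_mul_const]
    refine integral_congr_ae (ae_of_all _ fun u => ?_)
    simp only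
    rw [cth_sy hx u τ (m : ℂ) (by simp)]
    simp
  · refine (hw v).mul ?_
    fun_prop
  · intro ξ hξ
    refine hR ξ v ?_
    intro h
    apply hξ
    simp [h]

theorem cth_sum [NeZero N] {w : ℂ → ZMod N × ZMod N → ℂ} (hw : TW w) {x : ℂ} (hx : x ≠ 0)
    (v : ZMod N × ZMod N) : Summable (fun m : ℤ =>
      ∫ τ : ℝ, cth_f w x v τ * cexp (-(2 * Real.pi * (m * τ) / N : ℝ) * Complex.I)) := by
  classical
  obtain ⟨r, R, hr, hR⟩ := hw.supp
  have hR' : ∀ x v, w x v ≠ 0 → ‖x‖ ≤ R := fun x v h => (hR x v h).2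
  have hx0 : 0 < ‖x‖ := norm_pos_iff.2 hx
  set w' : ℂ → ZMod N × ZMod N → ℂ := fun ξ u => if u = v then w ξ v else 0 with hw'
  have hT : TW w' := by
    refine ⟨fun u => ?_, ⟨r, R, hr, fun ξ u h => ?_⟩, fun e u he => ?_⟩
    · by_cases hu : u = v
      · simp only [hw', if_pos hu]
        exact hw.smooth v
      · simp only [hw', if_neg hu]
        exact contDiff_const
    · by_cases hu : u = v
      · simp only [hw', if_pos hu] at h
        exact hR _ _ h
      · simp [hw', hu] at h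
    · by_cases hu : u = v
      · simp only [hw', if_pos hu]
        exact hw.rad e v he
      · simp [hw', hu]
  obtain ⟨C, hC⟩ := hat_decay hT 2
  have hcont : ∀ v, Continuous (fun x => w x v) := fun v => (hw.smooth v).continuous
  have h1 : ∀ m : ℤ, ∫ τ : ℝ, cth_f w x v τ *
      cexp (-(2 * Real.pi * (m * τ) / N : ℝ) * Complex.I) = (N : ℂ) ^ 2 * hat w' (m * x) 0 := by
    intro m
    have hNc : (N : ℂ) ≠ 0 := Nat.cast_ne_zero.2 (NeZero.ne N)
    unfold hat
    rw [Finset.sum_eq_single v]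
    · simp only [hw', if_true]
      rw [cth_four hcont hR' hx v m]
      have : sy v 0 = (0 : ZMod N) := by simp [sy]
      rw [this, AddChar.map_zero_eq_one, one_mul, ← mul_assoc,
        mul_inv_cancel₀ (pow_ne_zero 2 hNc), one_mul]
    · intro u _ hu
      simp [hw', hu]
    · intro h
      exact absurd (Finset.mem_univ _) h
  simp_rw [h1]
  refine Summable.mul_left _ ?_
  have hC0 : 0 ≤ C := by
    have := (norm_nonneg _).trans (hC 0 0).1
    simpa using this
  have h2 : Summable (fun m : ℤ => C * (‖x‖ ^ 2)⁻¹ * (1 / (m : ℝ) ^ 2)) :=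
    (Real.summable_one_div_int_pow.2 (by norm_num)).mul_left _
  refine Summable.of_norm_bounded_eventually h2 ?_
  have h3 : ∀ᶠ m : ℤ in cofinite, m ≠ 0 := by
    rw [Filter.eventually_cofinite]
    refine (Set.finite_singleton (0 : ℤ)).subset fun m hm => ?_
    simpa using hm
  filter_upwards [h3] with m hm
  refine (hC _ _).1.trans ?_
  have hm0 : (0 : ℝ) < |(m : ℝ)| := by
    rw [abs_pos]
    exact_mod_cast hm
  rw [mul_assoc]
  refine mul_le_mul_of_nonneg_left ?_ hC0
  rw [Real.rpow_neg (by positivity), Real.rpow_natCast, norm_mul, Complex.norm_intCast, one_div,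
    ← mul_inv, ← sq_abs (m : ℝ), ← mul_pow]
  apply inv_anti₀ (by positivity)
  apply pow_le_pow_left₀ (by positivity)
  nlinarith

/-- the sum over all `m` of `hat w (m x; m v)` -/
theorem cth_rhs [NeZero N] {w : ℂ → ZMod N × ZMod N → ℂ} (hw : TW w) {x : ℂ} (hx : x ≠ 0)
    (v : ZMod N × ZMod N) : ZZ (hat w) x v + hat w 0 0 =
      (N : ℂ)⁻¹ * ∑ v' : ZMod N × ZMod N, ∑' c : ℤ,
        if (c : ZMod N) = sy v' v then cth_f w x v' c else 0 := by
  classical
  obtain ⟨r, R, hr, hR⟩ := hw.supp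
  have hR' : ∀ x v, w x v ≠ 0 → ‖x‖ ≤ R := fun x v h => (hR x v h).2
  have hcont : ∀ v, Continuous (fun x => w x v) := fun v => (hw.smooth v).continuous
  have hNc : (N : ℂ) ≠ 0 := Nat.cast_ne_zero.2 (NeZero.ne N)
  -- integer lifts of the symplectic products
  set b : ZMod N × ZMod N → ℤ := fun v' => ((sy v' v).val : ℤ) with hb
  have hbc : ∀ v', ((b v' : ℤ) : ZMod N) = sy v' v := by
    intro v'
    simp [hb]
  set J : ZMod N × ZMod N → ℤ → ℂ := fun v' m =>
    ∫ τ : ℝ, cth_f w x v' τ * cexp (-(2 * Real.pi * (m * τ) / N : ℝ) * Complex.I) with hJ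
  have hJs : ∀ v', Summable (J v') := fun v' => cth_sum hw hx v'
  have h1 : ∀ m : ℤ, hat w (m * x) (m * v.1, m * v.2) = ((N : ℂ) ^ 2)⁻¹ *
      ∑ v' : ZMod N × ZMod N, cexp (2 * Real.pi * Complex.I * (m * b v' : ℤ) / N) * J v' m := by
    intro m
    unfold hat
    congr 1
    refine Finset.sum_congr rfl fun v' _ => ?_
    rw [cth_four hcont hR' hx v' m]
    congr 1
    rw [← ZMod.stdAddChar_coe]
    congr 1
    have : ((m * b v' : ℤ) : ZMod N) = m * sy v' v := by
      rw [Int.cast_mul, hbc]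
    rw [this]
    simp only [sy]
    ring
  have hun : ∀ (v' : ZMod N × ZMod N) (m : ℤ),
      ‖cexp (2 * Real.pi * Complex.I * (m * b v' : ℤ) / N)‖ = 1 := by
    intro v' m
    have e4 : 2 * Real.pi * Complex.I * (m * b v' : ℤ) / N =
        ((2 * Real.pi * (m * b v' : ℤ) / N : ℝ) : ℂ) * Complex.I := by
      push_cast
      ring
    rw [e4, Complex.norm_exp_ofReal_mul_I]
  have hs : ∀ v', Summable (fun m : ℤ =>
      cexp (2 * Real.pi * Complex.I * (m * b v' : ℤ) / N) * J v' m) := by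
    intro v'
    refine Summable.of_norm_bounded (hJs v').norm fun m => ?_
    rw [norm_mul, hun, one_mul]
  have hS : Summable (fun m : ℤ => hat w (m * x) (m * v.1, m * v.2)) := by
    simp_rw [h1]
    exact (summable_sum fun v' _ => hs v').mul_left _
  have h2 : ZZ (hat w) x v + hat w 0 0 = ∑' m : ℤ, hat w (m * x) (m * v.1, m * v.2) := by
    rw [hS.tsum_eq_add_tsum_ite 0, ZZ, add_comm]
    simp
    rfl
  rw [h2]
  simp_rw [h1]
  rw [tsum_mul_left, Summable.tsum_finsetSum (fun v' _ => hs v')]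
  have h3 : ∀ v', ∑' m : ℤ, cexp (2 * Real.pi * Complex.I * (m * b v' : ℤ) / N) * J v' m =
      N * ∑' c : ℤ, if (c : ZMod N) = sy v' v then cth_f w x v' c else 0 := by
    intro v'
    rw [hJ]
    rw [cth_poisson (cth_f_cont hcont hR' hx v') (fun t ht => cth_f_supp hR' hx v' ht) (b v')
      (hJs v')]
    congr 1
    have hinj : Function.Injective (fun k : ℤ => k * N + b v') := by
      intro a c hac
      have hNi : (N : ℤ) ≠ 0 := by exact_mod_cast NeZero.ne N
      have : a * (N : ℤ) = c * N := by simpa using hac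
      exact mul_right_cancel₀ hNi this
    refine Eq.trans ?_ (hinj.tsum_eq (f := fun c : ℤ =>
      if (c : ZMod N) = sy v' v then cth_f w x v' c else 0) ?_)
    · refine tsum_congr fun k => ?_
      rw [if_pos]
      push_cast
      rw [hbc]
      simp
    · intro c hc
      rw [Function.mem_support] at hc
      have h4 : (c : ZMod N) = sy v' v := by
        by_contra h
        exact hc (if_neg h)
      rw [← hbc v', ZMod.intCast_eq_intCast_iff_dvd_sub] at h4
      obtain ⟨k, hk⟩ := h4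
      refine ⟨-k, ?_⟩
      simp only
      linarith
  simp_rw [h3]
  rw [← Finset.mul_sum]
  field_simp

/-! ## The theta series -/

theorem cth_fin {w : ℂ → ZMod N × ZMod N → ℂ} {R : ℝ}
    (hR : ∀ x v, w x v ≠ 0 → ‖x‖ ≤ R) {x : ℂ} (hx : x ≠ 0) (T : ℝ) :
    ∃ B : Finset (ℤ × ℤ), ∀ t : ℝ, |t| ≤ T → ∀ p : ℤ × ℤ, p ∉ B → ∀ v',
      w (cth_p x (p.1 * t + p.2) p.1) v' = 0 := by
  have hx0 : 0 < ‖x‖ := norm_pos_iff.2 hx
  obtain ⟨M, hM⟩ := exists_nat_ge (|‖x‖ * R| + |R / ‖x‖| + |‖x‖ * R * T|)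
  refine ⟨Finset.Icc (-(M : ℤ)) M ×ˢ Finset.Icc (-(M : ℤ)) M, fun t ht p hp v' => ?_⟩
  by_contra h
  apply hp
  have h1 := hR _ _ h
  have h2 := cth_bd hx (p.1 * t + p.2) p.1
  have hR0 : 0 ≤ R := (norm_nonneg _).trans h1
  have hT0 : 0 ≤ T := (abs_nonneg _).trans ht
  have h3 : |(p.1 : ℝ)| ≤ ‖x‖ * R := h2.2.trans (mul_le_mul_of_nonneg_left h1 hx0.le)
  have h4 : |(p.1 : ℝ) * t + p.2| ≤ R / ‖x‖ := by
    rw [le_div_iff₀ hx0]
    exact h2.1.trans h1
  have h5 : |(p.2 : ℝ)| ≤ R / ‖x‖ + ‖x‖ * R * T := by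
    have e1 : (p.2 : ℝ) = ((p.1 : ℝ) * t + p.2) - p.1 * t := by ring
    rw [e1]
    refine (abs_sub _ _).trans (add_le_add h4 ?_)
    rw [abs_mul]
    exact mul_le_mul h3 ht (abs_nonneg _) (by positivity)
  have g1 : |‖x‖ * R| = ‖x‖ * R := abs_of_nonneg (by positivity)
  have g2 : |R / ‖x‖| = R / ‖x‖ := abs_of_nonneg (by positivity)
  have g3 : |‖x‖ * R * T| = ‖x‖ * R * T := abs_of_nonneg (by positivity)
  rw [g1, g2, g3] at hM
  have g4 : 0 ≤ ‖x‖ * R := by positivity
  have g5 : 0 ≤ R / ‖x‖ := by positivity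
  have g6 : 0 ≤ ‖x‖ * R * T := by positivity
  have k1 : |(p.1 : ℝ)| ≤ M := by linarith
  have k2 : |(p.2 : ℝ)| ≤ M := by linarith
  rw [Finset.mem_product, Finset.mem_Icc, Finset.mem_Icc]
  rw [abs_le] at k1 k2
  refine ⟨⟨?_, ?_⟩, ⟨?_, ?_⟩⟩
  · exact_mod_cast k1.1
  · exact_mod_cast k1.2
  · exact_mod_cast k2.1
  · exact_mod_cast k2.2

theorem cth_int {w : ℂ → ZMod N × ZMod N → ℂ} (hw : ∀ v, Continuous (fun x => w x v)) {R : ℝ}
    (hR : ∀ x v, w x v ≠ 0 → ‖x‖ ≤ R) {x : ℂ} (hx : x ≠ 0) (v : ZMod N × ZMod N) (τ : ℝ) :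
    Continuous (fun u : ℝ => w (cth_p x u τ) v) ∧ Integrable (fun u : ℝ => w (cth_p x u τ) v) := by
  have hx0 : 0 < ‖x‖ := norm_pos_iff.2 hx
  have hc : Continuous (fun u : ℝ => w (cth_p x u τ) v) :=
    (hw v).comp ((cth_cont x).comp (by fun_prop : Continuous (fun u : ℝ => (u, τ))))
  refine ⟨hc, hc.integrable_of_hasCompactSupport ?_⟩
  refine HasCompactSupport.of_support_subset_isCompact (isCompact_closedBall (0 : ℝ) (R / ‖x‖)) ?_
  intro u hu
  rw [mem_closedBall_zero_iff, Real.norm_eq_abs, le_div_iff₀ hx0]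
  exact (cth_bd hx u τ).1.trans (hR _ _ hu)

/-- the integrals over lines through the origin vanish -/
theorem cth_line {w : ℂ → ZMod N × ZMod N → ℂ} (hw : TW w) {e : ℂ} (he : e ≠ 0)
    (u : ZMod N × ZMod N) : ∫ t : ℝ, w (t * e) u = 0 := by
  obtain ⟨r, R, hr, hR⟩ := hw.supp
  have hne : 0 < ‖e‖ := norm_pos_iff.2 he
  have half : ∀ e' : ℂ, ‖e'‖ = ‖e‖ → ∫ t in Set.Ioi (0 : ℝ), w (t * e') u = 0 := by
    intro e' he'
    have h2 := hw.rad (e' / ‖e‖) u (by
      rw [norm_div, he', Complex.norm_real, norm_norm, div_self hne.ne'])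
    have h3 := integral_comp_mul_right_Ioi (fun t : ℝ => w (t * (e' / ‖e‖)) u) 0 hne
    rw [zero_mul, h2, smul_zero] at h3
    rw [← h3]
    refine setIntegral_congr_fun measurableSet_Ioi fun t _ => ?_
    congr 1
    have : (‖e‖ : ℂ) ≠ 0 := by exact_mod_cast hne.ne'
    push_cast
    field_simp
  have hint : Integrable (fun t : ℝ => w (t * e) u) := by
    have hcl : Continuous (fun t : ℝ => w (t * e) u) :=
      (hw.smooth u).continuous.comp (by fun_prop)
    refine hcl.integrable_of_hasCompactSupport ?_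
    refine HasCompactSupport.of_support_subset_isCompact
      (isCompact_closedBall (0 : ℝ) (R / ‖e‖)) ?_
    intro t ht
    have := (hR _ _ ht).2
    rw [mem_closedBall_zero_iff, le_div_iff₀ hne]
    rwa [norm_mul, Complex.norm_real] at this
  rw [← integral_add_compl (measurableSet_Ioi (a := (0 : ℝ))) hint, half e rfl, zero_add,
    Set.compl_Ioi]
  have h5 := integral_comp_neg_Ioi (0 : ℝ) (fun t : ℝ => w (t * e) u)
  rw [neg_zero] at h5
  rw [← h5, ← half (-e) (norm_neg e)]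
  refine setIntegral_congr_fun measurableSet_Ioi fun t _ => ?_
  simp

/-- the row `c r + ρ v` -/
def cth_row (s : QN N) (c ρ : ZMod N) : ZMod N × ZMod N :=
  (c * s 0 0 + ρ * s 1 0, c * s 0 1 + ρ * s 1 1)

theorem cth_lhs [NeZero N] {w : ℂ → ZMod N × ZMod N → ℂ} (hw : TW w) {x : ℂ} (hx : x ≠ 0)
    (s : QN N) : CF (Th w) x (bot s) = ZZ w x (bot s) +
      ∑' c : ℤ, (N : ℂ)⁻¹ * ∑ ρ : Fin N, cth_f w x (cth_row s c ((ρ : ℕ) : ZMod N)) c := by
  classical
  obtain ⟨r, R, hr, hR⟩ := hw.supp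
  have hR' : ∀ x v, w x v ≠ 0 → ‖x‖ ≤ R := fun x v h => (hR x v h).2
  have hcont : ∀ v, Continuous (fun x => w x v) := fun v => (hw.smooth v).continuous
  have hNc : (N : ℂ) ≠ 0 := Nat.cast_ne_zero.2 (NeZero.ne N)
  have hN : (0 : ℝ) < N := Nat.cast_pos.2 (NeZero.pos N)
  have hN1 : (1 : ℝ) ≤ N := by exact_mod_cast NeZero.one_le
  obtain ⟨B, hB⟩ := cth_fin hR' hx (N : ℝ)
  have hrg : ∀ (p : ℤ × ℤ) (t : ℝ), rg p (gx x t) = cth_p x (p.1 * t + p.2) p.1 := by
    intro p t
    rw [rg_gx hx, cth_p, cth_e]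
    push_cast
    ring
  have hTh : ∀ (s' : QN N) (t : ℝ), |t| ≤ N → Th w s' (gx x t) =
      ∑ p ∈ B, w (cth_p x (p.1 * t + p.2) p.1) (rs p s') := by
    intro s' t ht
    unfold Th
    simp_rw [hrg]
    exact tsum_eq_sum fun p hp => hB t ht p hp _
  have hcp : ∀ (s' : QN N) (p : ℤ × ℤ),
      Continuous (fun t : ℝ => w (cth_p x (p.1 * t + p.2) p.1) (rs p s')) := by
    intro s' p
    exact (cth_int hcont hR' hx (rs p s') p.1).1.comp (by fun_prop)
  have hi : ∀ s' : QN N, IntervalIntegrable (fun t => Th w s' (gx x t)) volume 0 1 := by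
    intro s'
    have h1 : IntervalIntegrable (fun t => ∑ p ∈ B, w (cth_p x (p.1 * t + p.2) p.1) (rs p s'))
        volume 0 1 := (continuous_finsetSum _ fun p _ => hcp s' p).intervalIntegrable _ _
    refine h1.congr fun t ht => ?_
    rw [Set.uIoc_of_le zero_le_one] at ht
    refine (hTh s' t ?_).symm
    rw [abs_of_pos ht.1]
    exact ht.2.trans hN1
  rw [CF_eq (fam_Th w) hx s hi]
  set A : ℤ × ℤ → ℂ := fun p =>
    ∫ t in (0 : ℝ)..1, w (cth_p x (p.1 * (N * t) + p.2) p.1) (rs p s) with hA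
  have hA0 : ∀ p ∉ B, A p = 0 := by
    intro p hp
    rw [hA]
    simp only
    rw [intervalIntegral.integral_congr (g := fun _ => (0 : ℂ)), intervalIntegral.integral_zero]
    intro t ht
    rw [Set.uIcc_of_le zero_le_one] at ht
    refine hB (N * t) ?_ p hp _
    rw [abs_mul, abs_of_pos hN, abs_of_nonneg ht.1]
    exact mul_le_of_le_one_right hN.le ht.2
  have h2 : (N : ℂ)⁻¹ * ∫ t in (0 : ℝ)..N, Th w s (gx x t) = ∑' p, A p := by
    rw [tsum_eq_sum hA0]
    have h3 : ∫ t in (0 : ℝ)..N, Th w s (gx x t) =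
        ∫ t in (0 : ℝ)..N, ∑ p ∈ B, w (cth_p x (p.1 * t + p.2) p.1) (rs p s) := by
      refine intervalIntegral.integral_congr fun t ht => ?_
      rw [Set.uIcc_of_le hN.le] at ht
      refine hTh s t ?_
      rw [abs_of_nonneg ht.1]
      exact ht.2
    rw [h3, intervalIntegral.integral_finsetSum (fun p _ => (hcp s p).intervalIntegrable _ _),
      Finset.mul_sum]
    refine Finset.sum_congr rfl fun p _ => ?_
    rw [hA]
    simp only
    have h4 := intervalIntegral.integral_comp_mul_left (a := 0) (b := 1)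
      (fun t : ℝ => w (cth_p x (p.1 * t + p.2) p.1) (rs p s)) hN.ne'
    rw [h4, mul_zero, mul_one, Complex.real_smul]
    push_cast
    rfl
  have hAs : Summable A := summable_of_ne_finset_zero hA0
  rw [h2, hAs.tsum_prod]
  have hAc : Summable (fun c : ℤ => ∑' d : ℤ, A (c, d)) := hAs.prod
  rw [hAc.tsum_eq_add_tsum_ite 0]
  have h0 : ∀ v, w 0 v = 0 := by
    intro v
    by_contra h
    have := (hR 0 v h).1
    rw [norm_zero] at this
    linarith
  congr 1
  · -- the term `c = 0`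
    rw [ZZ]
    refine tsum_congr fun d => ?_
    rw [hA]
    simp only
    have e1 : ∀ t : ℝ, w (cth_p x ((0 : ℤ) * (N * t) + d) (0 : ℤ)) (rs (0, d) s) =
        w (d * x) (d * (bot s).1, d * (bot s).2) := by
      intro t
      congr 1
      · simp [cth_p]
      · simp [rs, bot]
    simp_rw [e1]
    rw [intervalIntegral.integral_const]
    by_cases hd : d = 0
    · rw [if_pos hd]
      simp [hd, h0]
    · rw [if_neg hd]
      simp
  · -- the terms `c ≠ 0`
    refine tsum_congr fun c => ?_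
    by_cases hc : c = 0
    · rw [if_pos hc, hc]
      have e2 : ∀ v', cth_f w x v' ((0 : ℤ) : ℝ) = 0 := by
        intro v'
        rw [cth_f, ← cth_line hw hx v']
        refine integral_congr_ae (ae_of_all _ fun u => ?_)
        simp [cth_p]
      rw [Finset.sum_eq_zero (fun ρ _ => e2 _), mul_zero]
    · rw [if_neg hc, cth_class (N := N) (hAs.prod_factor c), Finset.mul_sum]
      refine Finset.sum_congr rfl fun ρ _ => ?_
      obtain ⟨k1, k2⟩ := cth_int hcont hR' hx (cth_row s c ((ρ : ℕ) : ZMod N)) (c : ℝ)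
      set G : ℝ → ℂ := fun u => w (cth_p x u c) (cth_row s c ((ρ : ℕ) : ZMod N)) with hG
      have hψc : Continuous (fun y : ℝ => G (N * y + (ρ : ℕ))) := k1.comp (by fun_prop)
      have hψi : Integrable (fun y : ℝ => G (N * y + (ρ : ℕ))) :=
        (k2.comp_add_right ((ρ : ℕ) : ℝ)).comp_mul_left' hN.ne'
      have h5 := (cth_unf hψc hψi hc).tsum_eq
      have h6 : ∫ y : ℝ, G (N * y + (ρ : ℕ)) = (N : ℂ)⁻¹ *
          cth_f w x (cth_row s c ((ρ : ℕ) : ZMod N)) c := by
        have h7 := Measure.integral_comp_mul_left (fun y : ℝ => G (y + (ρ : ℕ))) (N : ℝ)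
        have h8 := integral_add_right_eq_self (μ := (volume : Measure ℝ)) G ((ρ : ℕ) : ℝ)
        rw [h7, h8, abs_inv, abs_of_pos hN, Complex.real_smul]
        push_cast
        rfl
      rw [← h6, ← h5]
      refine tsum_congr fun j => ?_
      rw [hA]
      simp only
      refine intervalIntegral.integral_congr fun t _ => ?_
      simp only [hG]
      congr 1
      · congr 1
        push_cast
        ring
      · simp [rs, cth_row]

theorem cth_match [NeZero N] (w : ℂ → ZMod N × ZMod N → ℂ) (x : ℂ) (s : QN N) (c : ℤ) :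
    ∑ ρ : Fin N, cth_f w x (cth_row s c ((ρ : ℕ) : ZMod N)) c =
      ∑ v' : ZMod N × ZMod N, if (c : ZMod N) = sy v' (bot s) then cth_f w x v' c else 0 := by
  classical
  have hdet : s 0 0 * s 1 1 - s 0 1 * s 1 0 = 1 := by
    have := s.det_coe
    rwa [Matrix.det_fin_two] at this
  rw [← Finset.sum_filter]
  refine Finset.sum_nbij' (fun ρ => cth_row s c ((ρ : ℕ) : ZMod N))
    (fun v' => ⟨(sy (s 0 0, s 0 1) v').val, ZMod.val_lt _⟩) ?_ ?_ ?_ ?_ ?_
  · intro ρ _
    rw [Finset.mem_filter]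
    refine ⟨Finset.mem_univ _, ?_⟩
    simp only [sy, cth_row, bot]
    linear_combination (-(c : ZMod N)) * hdet
  · intro v' _
    exact Finset.mem_univ _
  · intro ρ _
    apply Fin.ext
    simp only
    have e1 : sy (s 0 0, s 0 1) (cth_row s c ((ρ : ℕ) : ZMod N)) = ((ρ : ℕ) : ZMod N) := by
      simp only [sy, cth_row]
      linear_combination ((ρ : ℕ) : ZMod N) * hdet
    rw [e1, ZMod.val_natCast, Nat.mod_eq_of_lt ρ.2]
  · intro v' hv'
    rw [Finset.mem_filter] at hv'
    simp only [ZMod.natCast_val, ZMod.cast_id', id_eq]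
    rw [cth_row, hv'.2]
    apply Prod.ext
    · simp only [sy, bot]
      linear_combination v'.1 * hdet
    · simp only [sy, bot]
      linear_combination v'.2 * hdet
  · intro ρ _
    rfl

theorem CF_Th [NeZero N] {w : ℂ → ZMod N × ZMod N → ℂ} (hw : TW w) {x : ℂ} (hx : x ≠ 0)
    {v : ZMod N × ZMod N} (hv : v ∈ PV N) :
    CF (Th w) x v = ZZ w x v + ZZ (hat w) x v + hat w 0 0 := by
  classical
  unfold PV at hv
  rw [Finset.mem_image] at hv
  obtain ⟨s, -, rfl⟩ := hv
  rw [cth_lhs hw hx s, add_assoc, cth_rhs hw hx (bot s)]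
  congr 1
  simp_rw [cth_match w x s]
  rw [tsum_mul_left]
  congr 1
  obtain ⟨r, R, hr, hR⟩ := hw.supp
  have hR' : ∀ x v, w x v ≠ 0 → ‖x‖ ≤ R := fun x v h => (hR x v h).2
  rw [Summable.tsum_finsetSum]
  intro v' _
  obtain ⟨M, hM⟩ := exists_nat_ge (‖x‖ * R)
  refine summable_of_ne_finset_zero (s := Finset.Icc (-(M : ℤ)) M) fun c hc => ?_
  have h1 : cth_f w x v' c = 0 := by
    by_contra h
    apply hc
    have h2 := (cth_f_supp hR' hx v' h).trans hM
    rw [abs_le] at h2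
    rw [Finset.mem_Icc]
    constructor
    · exact_mod_cast h2.1
    · exact_mod_cast h2.2
  rw [h1]
  simp

end Pool.Agent.JO
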