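import Pool.Agent.Lib_helper63.JO.Defs2
import Pool.Agent.Lib_helper63.JOE.CF1
import Pool.Agent.Lib_helper63.JOE.CN1
import Pool.Agent.Lib_helper63.JOE.COS
import Pool.Agent.Lib_helper63.JOE.MFE
import Pool.Agent.Lib_helper63.JOE.ROW
import Pool.Agent.Lib_helper63.JOE.UN1
import Pool.Agent.Lib_helper63.JOE.UNL
/-! Project JO, part E, block UNI: the unfolding formula, the `L¹` bound (helper6). Cites
`CF_one` (block CF1) besides the blocks listed under `uses`. -/

namespace Pool.Agent.JO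

open Complex MeasureTheory Filter Topology UpperHalfPlane ModularGroup
open scoped MatrixGroups Modular ENNReal ComplexConjugate ContDiff

variable {N : ℕ}

theorem uni_row (z : ℍ) (a : ℝ) : rg (0, 1) (gg z a) =
    Complex.I * cexp (a * Complex.I) / ((√z.im : ℝ) : ℂ) := by
  rw [rg_gg]
  simp

theorem uni_row_meas : Measurable (fun p : ℍ × ℝ => rg (0, 1) (gg p.1 p.2)) := by
  simp only [uni_row]
  refine (measurable_const.mul ?_).div ?_
  · exact Complex.measurable_exp.comp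
      ((Complex.measurable_ofReal.comp measurable_snd).mul measurable_const)
  · refine Complex.measurable_ofReal.comp (Real.continuous_sqrt.measurable.comp ?_)
    exact (Complex.measurable_im.comp measurable_coe).comp measurable_fst

theorem uni_ae_ne : ∀ᵐ q : ℂ × ℝ ∂((volume : Measure ℂ).prod
    (volume.restrict (Set.Ico (0 : ℝ) 1))), q.1 ≠ 0 := by
  rw [ae_iff]
  have : {q : ℂ × ℝ | ¬ q.1 ≠ 0} = ({0} : Set ℂ) ×ˢ (Set.univ : Set ℝ) := by
    ext q
    simp
  rw [this, Measure.prod_prod]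
  simp

theorem uni_row_gx {x : ℂ} (hx : x ≠ 0) (t : ℝ) : rg (0, 1) (gx x t) = x := by
  rw [rg_gx hx]
  simp

theorem uni_bot_mem [NeZero N] (s : QN N) : bot s ∈ PV N := by
  rw [PV, Finset.mem_image]
  exact ⟨s, Finset.mem_univ _, rfl⟩

theorem uni_meas_eq : (volume : Measure ℝ).restrict (Set.Ico (0 : ℝ) 1) =
    volume.restrict (Set.Ioc (0 : ℝ) 1) :=
  Measure.restrict_congr_set Ico_ae_eq_Ioc

theorem unf_int [NeZero N] {F : QN N → SL(2, ℝ) → ℂ} (hF : MF F) {α : ℂ → ZMod N × ZMod N → ℂ}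
    (hα : ∀ v, Measurable (fun x => α x v))
    (h : ∀ s : QN N, Integrable (fun q : ℂ × ℝ => F s (gx q.1 q.2) * conj (α q.1 (bot s)))
      ((volume : Measure ℂ).prod (volume.restrict (Set.Ioc (0 : ℝ) 1)))) :
    (∀ s : QN N, Integrable (fun p : ℍ × ℝ => F s (gg p.1 p.2) * conj (EE α s (gg p.1 p.2))) muG) ∧
      ip F (EE α) = ipL (CF F) α := by
  classical
  set K : QN N → SL(2, ℝ) → ℂ := fun s g => F s g * conj (α (rg (0, 1) g) (bot s)) with hK
  have hm : ∀ s, Measurable (fun p : ℍ × ℝ => K s (gg p.1 p.2)) := fun s =>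
    (hF.2 s).mul (Complex.continuous_conj.measurable.comp ((hα (bot s)).comp uni_row_meas))
  have hKgx : ∀ s : QN N, (fun q : ℂ × ℝ => K s (gx q.1 q.2)) =ᵐ[(volume : Measure ℂ).prod
      (volume.restrict (Set.Ico (0 : ℝ) 1))]
      (fun q : ℂ × ℝ => F s (gx q.1 q.2) * conj (α q.1 (bot s))) := by
    intro s
    filter_upwards [uni_ae_ne] with q hq
    simp only [hK, uni_row_gx hq]
  have h' : ∀ s : QN N, Integrable (fun q : ℂ × ℝ => F s (gx q.1 q.2) * conj (α q.1 (bot s)))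
      ((volume : Measure ℂ).prod (volume.restrict (Set.Ico (0 : ℝ) 1))) := by
    intro s
    rw [uni_meas_eq]
    exact h s
  have hi : ∀ s : QN N, Integrable (fun q : ℂ × ℝ => K s (gx q.1 q.2))
      ((volume : Measure ℂ).prod (volume.restrict (Set.Ico (0 : ℝ) 1))) := fun s =>
    (h' s).congr (hKgx s).symm
  obtain ⟨_, hint, hform⟩ := unf_genC K hm hi
  have hts : ∀ (s : QN N) (p : ℍ × ℝ), (∑' γ : SL(2, ℤ),
      if 0 ≤ (γ • p.1).re ∧ (γ • p.1).re < 1 then
        K (red N γ * s) (toR γ * gg p.1 p.2) else 0) =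
      2 * (F s (gg p.1 p.2) * conj (EE α s (gg p.1 p.2))) := by
    intro s p
    have h1 := coset_sumC p.1 (fun q => F s (gg p.1 p.2) * conj (α (rg q (gg p.1 p.2)) (rs q s)))
    have h2 : (∑' γ : SL(2, ℤ), if 0 ≤ (γ • p.1).re ∧ (γ • p.1).re < 1 then
        K (red N γ * s) (toR γ * gg p.1 p.2) else 0) =
        ∑' γ : SL(2, ℤ), if 0 ≤ (γ • p.1).re ∧ (γ • p.1).re < 1 then
        F s (gg p.1 p.2) * conj (α (rg (γ 1 0, γ 1 1) (gg p.1 p.2)) (rs (γ 1 0, γ 1 1) s))
          else 0 := by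
      refine tsum_congr fun γ => ?_
      by_cases hc : 0 ≤ (γ • p.1).re ∧ (γ • p.1).re < 1
      · rw [if_pos hc, if_pos hc]
        simp only [hK]
        rw [hF.1, rg_toR, ← rs_one, rs_red]
        simp
      · rw [if_neg hc, if_neg hc]
    rw [h2, h1]
    have h3 : ∀ q : ℤ × ℤ, (if IsCoprime q.1 q.2 then
        F s (gg p.1 p.2) * conj (α (rg q (gg p.1 p.2)) (rs q s)) else 0) =
        F s (gg p.1 p.2) * conj (if IsCoprime q.1 q.2 then
          α (rg q (gg p.1 p.2)) (rs q s) else 0) := by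
      intro q
      split_ifs <;> simp
    simp only [h3]
    rw [tsum_mul_left, ← Complex.conj_tsum, EE, map_mul]
    have h4 : conj (1 / 2 : ℂ) = 1 / 2 := by
      rw [map_div₀, map_one, map_ofNat]
    rw [h4]
    ring
  simp only [hts] at hint hform
  have hint' : ∀ s : QN N, Integrable
      (fun p : ℍ × ℝ => F s (gg p.1 p.2) * conj (EE α s (gg p.1 p.2))) muG := by
    intro s
    have := (hint s).const_mul (1 / 2 : ℂ)
    refine this.congr (Filter.Eventually.of_forall fun p => ?_)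
    simp only
    ring
  refine ⟨hint', ?_⟩
  have hL : ip F (EE α) = 2 * ∑ s : QN N, ∫ q : ℂ × ℝ, F s (gx q.1 q.2) * conj (α q.1 (bot s))
      ∂((volume : Measure ℂ).prod (volume.restrict (Set.Ico (0 : ℝ) 1))) := by
    have h5 : ∑ s : QN N, ∫ p : ℍ × ℝ, 2 * (F s (gg p.1 p.2) * conj (EE α s (gg p.1 p.2))) ∂muG =
        2 * ip F (EE α) := by
      rw [ip, Finset.mul_sum]
      exact Finset.sum_congr rfl fun s _ => integral_const_mul _ _
    rw [h5] at hform
    have h6 : ∑ s : QN N, ∫ q : ℂ × ℝ, K s (gx q.1 q.2)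
        ∂((volume : Measure ℂ).prod (volume.restrict (Set.Ico (0 : ℝ) 1))) =
        ∑ s : QN N, ∫ q : ℂ × ℝ, F s (gx q.1 q.2) * conj (α q.1 (bot s))
        ∂((volume : Measure ℂ).prod (volume.restrict (Set.Ico (0 : ℝ) 1))) :=
      Finset.sum_congr rfl fun s _ => integral_congr_ae (hKgx s)
    rw [h6] at hform
    linear_combination (1 / 2 : ℂ) * hform
  rw [hL, ipL]
  -- the right side
  have hN : (N : ℂ) ≠ 0 := by exact_mod_cast NeZero.ne N
  have hsx : ∀ s : QN N, Integrable (fun x : ℂ => (∫ t in (0 : ℝ)..1, F s (gx x t)) *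
      conj (α x (bot s))) := by
    intro s
    have h7 := (h s).integral_prod_left
    refine h7.congr (Filter.Eventually.of_forall fun x => ?_)
    simp only
    rw [intervalIntegral.integral_of_le zero_le_one, integral_mul_const]
  have hv : ∀ v ∈ PV N, ∫ x : ℂ, CF F x v * conj (α x v) =
      (N : ℂ)⁻¹ * ∑ s : QN N, if bot s = v then ∫ x : ℂ, (∫ t in (0 : ℝ)..1, F s (gx x t)) *
      conj (α x (bot s)) else 0 := by
    intro v _
    have h8 : ∀ x : ℂ, CF F x v * conj (α x v) = (N : ℂ)⁻¹ * ∑ s : QN N,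
        if bot s = v then (∫ t in (0 : ℝ)..1, F s (gx x t)) * conj (α x (bot s)) else 0 := by
      intro x
      rw [CF, mul_assoc, Finset.sum_mul]
      congr 1
      refine Finset.sum_congr rfl fun s _ => ?_
      split_ifs with hs
      · rw [hs]
      · rw [zero_mul]
    simp only [h8]
    rw [integral_const_mul, integral_finsetSum]
    · congr 1
      refine Finset.sum_congr rfl fun s _ => ?_
      split_ifs with hs
      · rfl
      · simp
    · intro s _
      by_cases hs : bot s = v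
      · simp only [hs, if_true]
        have := hsx s
        simpa only [hs] using this
      · simp only [hs, if_false]
        exact integrable_zero _ _ _
  rw [Finset.sum_congr rfl hv, ← Finset.mul_sum, Finset.sum_comm]
  have h9 : ∀ s : QN N, (∑ v ∈ PV N, if bot s = v then ∫ x : ℂ,
      (∫ t in (0 : ℝ)..1, F s (gx x t)) * conj (α x (bot s)) else 0) =
      ∫ q : ℂ × ℝ, F s (gx q.1 q.2) * conj (α q.1 (bot s))
        ∂((volume : Measure ℂ).prod (volume.restrict (Set.Ico (0 : ℝ) 1))) := by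
    intro s
    rw [Finset.sum_ite_eq, if_pos (uni_bot_mem s), uni_meas_eq, integral_prod _ (h s)]
    refine integral_congr_ae (Filter.Eventually.of_forall fun x => ?_)
    simp only
    rw [intervalIntegral.integral_of_le zero_le_one, integral_mul_const]
  rw [Finset.sum_congr rfl fun s _ => h9 s]
  field_simp

/-! ## the number of elements with a given bottom row -/

theorem uni_card [NeZero N] {v : ZMod N × ZMod N} (hv : v ∈ PV N) :
    (Finset.univ.filter (fun s : QN N => bot s = v)).card = N := by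
  classical
  have h := CF_one (x := 1) hv
  rw [CF] at h
  simp only [intervalIntegral.integral_const, sub_zero, one_smul, Finset.sum_ite,
    Finset.sum_const_zero, add_zero, Finset.sum_const, nsmul_eq_mul, mul_one] at h
  have hN : (N : ℂ) ≠ 0 := by exact_mod_cast NeZero.ne N
  rw [inv_mul_eq_one₀ hN] at h
  exact_mod_cast h.symm

theorem uni_sum_bot [NeZero N] (f : ZMod N × ZMod N → ℝ≥0∞) :
    ∑ s : QN N, f (bot s) = N * ∑ v ∈ PV N, f v := by
  classical
  rw [← Finset.sum_fiberwise_of_maps_to (g := fun s : QN N => bot s) (t := PV N)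
    (fun s _ => uni_bot_mem s), Finset.mul_sum]
  refine Finset.sum_congr rfl fun v hv => ?_
  rw [Finset.sum_congr rfl (g := fun _ => f v)
    (fun s hs => by rw [(Finset.mem_filter.1 hs).2]), Finset.sum_const, uni_card hv,
    nsmul_eq_mul]

/-! ## absolute convergence -/

open scoped Classical in
/-- the sum of the norms -/
noncomputable def uni_S (α : ℂ → ZMod N × ZMod N → ℂ) (s : QN N) (g : SL(2, ℝ)) : ℝ≥0∞ :=
  ∑' q : ℤ × ℤ, if IsCoprime q.1 q.2 then ‖α (rg q g) (rs q s)‖ₑ else 0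

theorem uni_EE_le (α : ℂ → ZMod N × ZMod N → ℂ) (s : QN N) (g : SL(2, ℝ)) :
    ‖EE α s g‖ₑ ≤ 2⁻¹ * uni_S α s g := by
  classical
  rw [EE, enorm_mul]
  have h1 : ‖(1 / 2 : ℂ)‖ₑ = 2⁻¹ := by
    rw [← ofReal_norm]
    have : ‖(1 / 2 : ℂ)‖ = 2⁻¹ := by norm_num
    rw [this, ENNReal.ofReal_inv_of_pos (by norm_num)]
    simp
  rw [h1]
  refine mul_le_mul_right ?_ _
  refine le_trans enorm_tsum_le_tsum_enorm ?_
  rw [uni_S]
  refine ENNReal.tsum_le_tsum fun q => ?_
  split_ifs <;> simp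

theorem uni_lint [NeZero N] {α : ℂ → ZMod N × ZMod N → ℂ} (hα : ∀ v, Measurable (fun x => α x v)) :
    ∑ s : QN N, ∫⁻ p : ℍ × ℝ, uni_S α s (gg p.1 p.2) ∂muG =
      4 * (N * ∑ v ∈ PV N, ∫⁻ x : ℂ, ‖α x v‖ₑ) := by
  classical
  have h := unf_lint (fun (_ : QN N) _ => (1 : ℝ≥0∞)) (fun _ _ _ => rfl)
    (fun _ => measurable_const) (fun x v => ‖α x v‖ₑ) (fun v => (hα v).enorm)
  simp only [one_mul] at h
  have h1 : ∀ s : QN N, ∫⁻ q : ℂ × ℝ, ‖α q.1 (bot s)‖ₑ
        ∂((volume : Measure ℂ).prod (volume.restrict (Set.Ico (0 : ℝ) 1))) =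
      ∫⁻ x : ℂ, ‖α x (bot s)‖ₑ := by
    intro s
    have h2 := lintegral_prod (μ := (volume : Measure ℂ))
      (ν := (volume : Measure ℝ).restrict (Set.Ico (0 : ℝ) 1))
      (fun q : ℂ × ℝ => ‖α q.1 (bot s)‖ₑ)
      (((hα (bot s)).comp measurable_fst).enorm).aemeasurable
    rw [h2]
    refine lintegral_congr fun x => ?_
    simp
  simp only [h1] at h
  rw [uni_sum_bot (fun v => ∫⁻ x : ℂ, ‖α x v‖ₑ)] at h
  exact h

theorem uni_fin [NeZero N] {α : ℂ → ZMod N × ZMod N → ℂ} (hα : InL α) :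
    4 * (N * ∑ v ∈ PV N, ∫⁻ x : ℂ, ‖α x v‖ₑ) < ⊤ := by
  refine ENNReal.mul_lt_top (by simp) (ENNReal.mul_lt_top (by simp) ?_)
  exact ENNReal.sum_lt_top.2 fun v hv => (hα.int v hv).2

theorem uni_rg_meas (q : ℤ × ℤ) : Measurable (fun p : ℍ × ℝ => rg q (gg p.1 p.2)) := by
  simp only [rg_gg]
  refine (Measurable.mul (measurable_const.mul ?_) ?_).div ?_
  · exact Complex.measurable_exp.comp
      ((Complex.measurable_ofReal.comp measurable_snd).mul measurable_const)
  · refine Complex.continuous_conj.measurable.comp ?_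
    exact (measurable_const.mul (measurable_coe.comp measurable_fst)).add measurable_const
  · refine Complex.measurable_ofReal.comp (Real.continuous_sqrt.measurable.comp ?_)
    exact (Complex.measurable_im.comp measurable_coe).comp measurable_fst

theorem uni_S_meas {α : ℂ → ZMod N × ZMod N → ℂ} (hα : ∀ v, Measurable (fun x => α x v))
    (s : QN N) : Measurable (fun p : ℍ × ℝ => uni_S α s (gg p.1 p.2)) := by
  classical
  unfold uni_S
  refine Measurable.tsum fun q => ?_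
  by_cases hq : IsCoprime q.1 q.2
  · simp only [hq, if_true]
    exact ((hα (rs q s)).comp (uni_rg_meas q)).enorm
  · simp only [hq, if_false]
    exact measurable_const

theorem uni_lint_lt [NeZero N] {α : ℂ → ZMod N × ZMod N → ℂ} (hα : InL α) (s : QN N) :
    ∫⁻ p : ℍ × ℝ, uni_S α s (gg p.1 p.2) ∂muG < ⊤ := by
  have h1 := uni_lint hα.meas
  have h2 := uni_fin hα
  rw [← h1] at h2
  exact (ENNReal.sum_lt_top.1 h2) s (Finset.mem_univ s)

theorem uni_summable [NeZero N] {α : ℂ → ZMod N × ZMod N → ℂ} (hα : InL α) (s : QN N) :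
    ∀ᵐ p : ℍ × ℝ ∂muG, Summable (fun q : ℤ × ℤ => open scoped Classical in
      if IsCoprime q.1 q.2 then α (rg q (gg p.1 p.2)) (rs q s) else 0) := by
  classical
  have h1 := ae_lt_top' (uni_S_meas hα.meas s).aemeasurable (uni_lint_lt hα s).ne
  filter_upwards [h1] with p hp
  apply Summable.of_nnnorm
  rw [← ENNReal.tsum_coe_ne_top_iff_summable]
  refine ne_of_lt (lt_of_le_of_lt (le_of_eq ?_) hp)
  rw [uni_S]
  refine tsum_congr fun q => ?_
  split_ifs <;> simp [enorm]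

theorem uni_EE_integrable [NeZero N] {α : ℂ → ZMod N × ZMod N → ℂ} (hα : InL α) (s : QN N) :
    Integrable (fun p : ℍ × ℝ => EE α s (gg p.1 p.2)) muG := by
  refine ⟨((mf_EE α hα.meas).2 s).aestronglyMeasurable, ?_⟩
  rw [hasFiniteIntegral_iff_enorm]
  refine lt_of_le_of_lt (lintegral_mono fun p => uni_EE_le α s (gg p.1 p.2)) ?_
  rw [lintegral_const_mul _ (uni_S_meas hα.meas s)]
  exact ENNReal.mul_lt_top (by simp) (uni_lint_lt hα s)

theorem EE_L1 [NeZero N] {α : ℂ → ZMod N × ZMod N → ℂ} (hα : InL α) :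
    (∀ s : QN N, Integrable (fun p : ℍ × ℝ => EE α s (gg p.1 p.2)) muG) ∧
      ∑ s : QN N, ∫ p : ℍ × ℝ, ‖EE α s (gg p.1 p.2)‖ ∂muG ≤
        2 * N * ∑ v ∈ PV N, ∫ x : ℂ, ‖α x v‖ := by
  have hI := fun s => uni_EE_integrable hα s
  refine ⟨hI, ?_⟩
  have h1 : ∑ s : QN N, ∫⁻ p : ℍ × ℝ, ‖EE α s (gg p.1 p.2)‖ₑ ∂muG ≤
      2 * N * ∑ v ∈ PV N, ∫⁻ x : ℂ, ‖α x v‖ₑ := by
    calc ∑ s : QN N, ∫⁻ p : ℍ × ℝ, ‖EE α s (gg p.1 p.2)‖ₑ ∂muG
        ≤ ∑ s : QN N, 2⁻¹ * ∫⁻ p : ℍ × ℝ, uni_S α s (gg p.1 p.2) ∂muG := by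
          refine Finset.sum_le_sum fun s _ => ?_
          rw [← lintegral_const_mul _ (uni_S_meas hα.meas s)]
          exact lintegral_mono fun p => uni_EE_le α s (gg p.1 p.2)
      _ = 2 * N * ∑ v ∈ PV N, ∫⁻ x : ℂ, ‖α x v‖ₑ := by
          rw [← Finset.mul_sum, uni_lint hα.meas, ← mul_assoc, ← mul_assoc]
          congr 2
          have h4 : (4 : ℝ≥0∞) = 2 * 2 := by norm_num
          rw [h4, ← mul_assoc, ENNReal.inv_mul_cancel (by simp) (by simp), one_mul]
  have h2 : ENNReal.ofReal (∑ s : QN N, ∫ p : ℍ × ℝ, ‖EE α s (gg p.1 p.2)‖ ∂muG) =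
      ∑ s : QN N, ∫⁻ p : ℍ × ℝ, ‖EE α s (gg p.1 p.2)‖ₑ ∂muG := by
    rw [ENNReal.ofReal_sum_of_nonneg fun s _ => integral_nonneg fun p => norm_nonneg _]
    exact Finset.sum_congr rfl fun s _ => ofReal_integral_norm_eq_lintegral_enorm (hI s)
  have h3 : ENNReal.ofReal (2 * N * ∑ v ∈ PV N, ∫ x : ℂ, ‖α x v‖) =
      2 * N * ∑ v ∈ PV N, ∫⁻ x : ℂ, ‖α x v‖ₑ := by
    rw [ENNReal.ofReal_mul (by positivity), ENNReal.ofReal_mul (by norm_num),
      ENNReal.ofReal_sum_of_nonneg fun v _ => integral_nonneg fun x => norm_nonneg _]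
    congr 1
    · congr 1
      · simp
      · simp
    · exact Finset.sum_congr rfl fun v hv =>
        ofReal_integral_norm_eq_lintegral_enorm (hα.int v hv)
  rw [← h2, ← h3] at h1
  rwa [ENNReal.ofReal_le_ofReal_iff] at h1
  refine mul_nonneg (by positivity) (Finset.sum_nonneg fun v _ => integral_nonneg fun x =>
    norm_nonneg _)

theorem EE_add [NeZero N] {α β : ℂ → ZMod N × ZMod N → ℂ} (hα : InL α) (hβ : InL β) (a b : ℂ) :
    ∀ s : QN N, ∀ᵐ p : ℍ × ℝ ∂muG, EE (fun x v => a * α x v + b * β x v) s (gg p.1 p.2) =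
      a * EE α s (gg p.1 p.2) + b * EE β s (gg p.1 p.2) := by
  classical
  intro s
  filter_upwards [uni_summable hα s, uni_summable hβ s] with p h1 h2
  simp only [EE]
  have h3 : ∀ q : ℤ × ℤ, (if IsCoprime q.1 q.2 then a * α (rg q (gg p.1 p.2)) (rs q s) +
      b * β (rg q (gg p.1 p.2)) (rs q s) else 0) =
      a * (if IsCoprime q.1 q.2 then α (rg q (gg p.1 p.2)) (rs q s) else 0) +
      b * (if IsCoprime q.1 q.2 then β (rg q (gg p.1 p.2)) (rs q s) else 0) := by
    intro q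
    split_ifs <;> simp
  simp only [h3]
  rw [(h1.mul_left a).tsum_add (h2.mul_left b), tsum_mul_left, tsum_mul_left]
  ring

theorem EE_bdd {α : ℂ → ZMod N × ZMod N → ℂ} {C R : ℝ} (hC : ∀ x v, ‖α x v‖ ≤ C)
    (hR : ∀ x v, R < ‖x‖ → α x v = 0) : ∃ C' : ℝ, ∀ s g, ‖EE α s g‖ ≤ C' := by
  classical
  obtain ⟨M, hM⟩ := prim_count R
  refine ⟨M * C, fun s g => ?_⟩
  have hC0 : 0 ≤ C := le_trans (norm_nonneg _) (hC 0 0)
  set T : Set (ℤ × ℤ) := {p : ℤ × ℤ | IsCoprime p.1 p.2 ∧ ‖rg p g‖ ≤ R} with hT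
  have hTf : T.Finite := Set.finite_of_encard_le_coe (hM g)
  have hcard : (hTf.toFinset.card : ℝ) ≤ M := by
    have h1 := hM g
    rw [← hT, hTf.encard_eq_coe_toFinset_card] at h1
    exact_mod_cast h1
  rw [EE, tsum_eq_sum (s := hTf.toFinset)]
  · rw [norm_mul]
    have h2 : ‖(1 / 2 : ℂ)‖ ≤ 1 := by norm_num
    calc _ ≤ 1 * ∑ q ∈ hTf.toFinset, C := by
          refine mul_le_mul h2 (le_trans (norm_sum_le _ _) (Finset.sum_le_sum fun q _ => ?_))
            (norm_nonneg _) zero_le_one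
          split_ifs
          · exact hC _ _
          · simpa using hC0
      _ = (hTf.toFinset.card : ℝ) * C := by rw [one_mul, Finset.sum_const, nsmul_eq_mul]
      _ ≤ M * C := mul_le_mul_of_nonneg_right hcard hC0
  · intro q hq
    rw [Set.Finite.mem_toFinset, hT, Set.mem_ofPred_eq, not_and, not_le] at hq
    split_ifs with h3
    · exact hR _ _ (hq h3)
    · rfl

end Pool.Agent.JO
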