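import Pool.Agent.Lib_helper63.JO.Defs2
import Pool.Agent.Lib_helper63.JOE.FAM
import Pool.Agent.Lib_helper63.JOE.HI1
import Pool.Agent.Lib_helper63.JOE.MFE
import Pool.Agent.Lib_helper63.JOE.UNI
/-!
# Block FAT: limits of `T0`
-/

namespace Pool.Agent.JO

open Complex MeasureTheory Filter Topology UpperHalfPlane ModularGroup
open scoped MatrixGroups Modular ENNReal ComplexConjugate ContDiff

variable {N : ℕ}

/-- the integral over all components -/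
noncomputable def fat_I [NeZero N] (F : QN N → SL(2, ℝ) → ℂ) : ℂ :=
  ∑ s : QN N, ∫ p : ℍ × ℝ, F s (gg p.1 p.2) ∂muG

theorem fat_ip_one [NeZero N] (F : QN N → SL(2, ℝ) → ℂ) : ip F (fun _ _ => 1) = fat_I F := by
  unfold ip fat_I
  refine Finset.sum_congr rfl fun s _ => ?_
  congr 1
  funext p
  rw [map_one, mul_one]

/-- the measure `muG` is finite -/
theorem fat_finite : IsFiniteMeasure muG := by
  obtain ⟨V, hV, h⟩ := ip_one (N := 1)
  rw [fat_ip_one] at h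
  unfold fat_I at h
  simp only [integral_const] at h
  by_contra hf
  have h1 : muG Set.univ = ⊤ := by
    by_contra h2
    exact hf ⟨lt_top_iff_ne_top.2 h2⟩
  have h3 : muG.real Set.univ = 0 := by
    rw [Measure.real, h1, ENNReal.toReal_top]
  rw [h3] at h
  have h4 : ((V : ℝ) : ℂ) = 0 := by
    rw [← h]
    simp
  exact hV.ne' (ofReal_eq_zero.1 h4)

theorem fat_V [NeZero N] : ∃ V : ℂ, V ≠ 0 ∧ ip (N := N) (fun _ _ => 1) (fun _ _ => 1) = V ∧
    ∀ c : ℂ, fat_I (N := N) (fun _ _ => c) = c * V := by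
  obtain ⟨V, hV, h⟩ := ip_one (N := N)
  refine ⟨V, ofReal_ne_zero.2 hV.ne', h, fun c => ?_⟩
  rw [← h, fat_ip_one]
  unfold fat_I
  rw [Finset.mul_sum]
  refine Finset.sum_congr rfl fun s _ => ?_
  simp only [integral_const]
  rw [mul_smul_comm, mul_one]

theorem fat_mean [NeZero N] {V : ℂ} (hV : ip (N := N) (fun _ _ => 1) (fun _ _ => 1) = V)
    (F : QN N → SL(2, ℝ) → ℂ) : mean F = fat_I F / V := by
  unfold mean
  rw [hV, fat_ip_one]

theorem T0_mean [NeZero N] {α : ℂ → ZMod N × ZMod N → ℂ} (hα : InL α) :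
    mean (T0 α) = 0 := by
  have := fat_finite
  obtain ⟨V, hV0, hV, hc⟩ := fat_V (N := N)
  rw [fat_mean hV]
  have h1 : fat_I (T0 α) = fat_I (EE α) - mean (EE α) * V := by
    rw [← hc]
    unfold fat_I
    rw [← Finset.sum_sub_distrib]
    refine Finset.sum_congr rfl fun s _ => ?_
    rw [← integral_sub ((EE_L1 hα).1 s) (integrable_const _)]
    rfl
  rw [h1, fat_mean hV, div_mul_cancel₀ _ hV0, sub_self, zero_div]

theorem T0_lin [NeZero N] {α β : ℂ → ZMod N × ZMod N → ℂ} (hα : InL α) (hβ : InL β) (a b : ℂ) :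
    ∀ s : QN N, ∀ᵐ p : ℍ × ℝ ∂muG, T0 (fun x v => a * α x v + b * β x v) s (gg p.1 p.2) =
      a * T0 α s (gg p.1 p.2) + b * T0 β s (gg p.1 p.2) := by
  obtain ⟨V, hV0, hV, hc⟩ := fat_V (N := N)
  have h1 := EE_add hα hβ a b
  have h2 : fat_I (EE (fun x v => a * α x v + b * β x v)) =
      a * fat_I (EE α) + b * fat_I (EE β) := by
    unfold fat_I
    rw [Finset.mul_sum, Finset.mul_sum, ← Finset.sum_add_distrib]
    refine Finset.sum_congr rfl fun s _ => ?_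
    rw [integral_congr_ae (h1 s), integral_add (((EE_L1 hα).1 s).const_mul a)
      (((EE_L1 hβ).1 s).const_mul b), integral_const_mul, integral_const_mul]
  have h3 : mean (EE (fun x v => a * α x v + b * β x v)) =
      a * mean (EE α) + b * mean (EE β) := by
    rw [fat_mean hV, fat_mean hV, fat_mean hV, h2]
    ring
  intro s
  filter_upwards [h1 s] with p hp
  unfold T0
  rw [hp, h3]
  ring

theorem fat_PV_neg [NeZero N] {v : ZMod N × ZMod N} (hv : v ∈ PV N) : -v ∈ PV N := by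
  unfold PV at hv ⊢
  rw [Finset.mem_image] at hv ⊢
  obtain ⟨s, -, rfl⟩ := hv
  refine ⟨-s, Finset.mem_univ _, ?_⟩
  simp [bot]

theorem fat_EE_neg (α : ℂ → ZMod N × ZMod N → ℂ) (s : QN N) (g : SL(2, ℝ)) :
    EE (fun x v => α (-x) (-v)) s g = EE α s g := by
  unfold EE
  congr 1
  rw [← (Equiv.neg (ℤ × ℤ)).tsum_eq]
  refine tsum_congr fun p => ?_
  have h1 : (IsCoprime ((Equiv.neg (ℤ × ℤ)) p).1 ((Equiv.neg (ℤ × ℤ)) p).2) =
      IsCoprime p.1 p.2 := by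
    rw [Equiv.neg_apply, Prod.fst_neg, Prod.snd_neg, IsCoprime.neg_neg_iff]
  have h2 : rg ((Equiv.neg (ℤ × ℤ)) p) g = -rg p g := by
    unfold rg
    rw [Equiv.neg_apply, Prod.fst_neg, Prod.snd_neg]
    push_cast
    ring
  have h3 : rs ((Equiv.neg (ℤ × ℤ)) p) s = -rs p s := by
    unfold rs
    rw [Equiv.neg_apply, Prod.fst_neg, Prod.snd_neg]
    push_cast
    ext
    · show -(p.1 : ZMod N) * s 0 0 + -(p.2 : ZMod N) * s 1 0 =
        -((p.1 : ZMod N) * s 0 0 + (p.2 : ZMod N) * s 1 0)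
      ring
    · show -(p.1 : ZMod N) * s 0 1 + -(p.2 : ZMod N) * s 1 1 =
        -((p.1 : ZMod N) * s 0 1 + (p.2 : ZMod N) * s 1 1)
      ring
  rw [h2, h3]
  show (if IsCoprime ((Equiv.neg (ℤ × ℤ)) p).1 ((Equiv.neg (ℤ × ℤ)) p).2 then
    α (- -rg p g) (- -rs p s) else 0) = _
  rw [neg_neg, neg_neg]
  by_cases h : IsCoprime p.1 p.2
  · rw [if_pos h, if_pos (h1.mpr h)]
  · rw [if_neg h, if_neg (fun h' => h (h1.mp h'))]

theorem fat_InL_neg [NeZero N] {α : ℂ → ZMod N × ZMod N → ℂ} (hα : InL α) :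
    InL (fun x v => α (-x) (-v)) :=
  ⟨fun v => (hα.meas (-v)).comp measurable_neg, fun v hv => (hα.int (-v) (fat_PV_neg hv)).comp_neg⟩

theorem T0_even [NeZero N] {α : ℂ → ZMod N × ZMod N → ℂ} (hα : InL α) :
    ∀ s : QN N, ∀ᵐ p : ℍ × ℝ ∂muG, T0 (fun x v => (α x v + α (-x) (-v)) / 2) s (gg p.1 p.2) =
      T0 α s (gg p.1 p.2) := by
  intro s
  have h1 : (fun x v => (α x v + α (-x) (-v)) / 2) =
      fun x v => (1 / 2 : ℂ) * α x v + (1 / 2 : ℂ) * α (-x) (-v) := by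
    funext x v
    ring
  have h2 : T0 (fun x v => α (-x) (-v)) = T0 α := by
    funext s g
    unfold T0
    rw [fat_EE_neg]
    congr 2
    funext s g
    exact fat_EE_neg α s g
  have h3 := T0_lin hα (fat_InL_neg hα) (1 / 2) (1 / 2) s
  rw [h1]
  filter_upwards [h3] with p hp
  rw [hp, h2]
  ring

/-! ## the Fatou lemma -/

theorem fat_T0_mf [NeZero N] {α : ℂ → ZMod N × ZMod N → ℂ} (hα : InL α) : MF (T0 α) := by
  refine ⟨fun γ s g => ?_, fun s => ?_⟩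
  · show EE α (red N γ * s) (toR γ * g) - mean (EE α) = EE α s g - mean (EE α)
    rw [fam_EE α γ s g]
  · exact ((mf_EE α hα.meas).2 s).sub measurable_const

/-- the square of the norm as a lower integral -/
noncomputable def fat_L [NeZero N] (F : QN N → SL(2, ℝ) → ℂ) : ℝ≥0∞ :=
  ∫⁻ p : ℍ × ℝ, ∑ s : QN N, ‖F s (gg p.1 p.2)‖ₑ ^ 2 ∂muG

theorem fat_L_eq [NeZero N] {F : QN N → SL(2, ℝ) → ℂ} (hF : MF F) :
    fat_L F = ∑ s : QN N, ∫⁻ p : ℍ × ℝ, ‖F s (gg p.1 p.2)‖ₑ ^ 2 ∂muG := by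
  unfold fat_L
  rw [lintegral_finsetSum]
  intro s _
  exact (hF.2 s).enorm.pow_const 2

theorem fat_sq (z : ℂ) : ENNReal.ofReal (‖z‖ ^ 2) = ‖z‖ₑ ^ 2 := by
  rw [ENNReal.ofReal_pow (norm_nonneg z), ofReal_norm]

theorem fat_SqF [NeZero N] {F : QN N → SL(2, ℝ) → ℂ} (hF : MF F) (h : fat_L F ≠ ⊤) : SqF F := by
  refine ⟨hF, fun s => ⟨((hF.2 s).norm.pow_const 2).aestronglyMeasurable, ?_⟩⟩
  rw [hasFiniteIntegral_iff_ofReal (ae_of_all _ fun p => by positivity)]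
  rw [fat_L_eq hF] at h
  have h1 := ENNReal.sum_ne_top.1 h s (Finset.mem_univ s)
  refine lt_top_iff_ne_top.2 ?_
  simp only [fat_sq]
  exact h1

theorem fat_ip_self [NeZero N] {F : QN N → SL(2, ℝ) → ℂ} (hF : SqF F) :
    fat_L F = ENNReal.ofReal (ip F F).re ∧ 0 ≤ (ip F F).re := by
  have h1 : ip F F = ((∑ s : QN N, ∫ p : ℍ × ℝ, ‖F s (gg p.1 p.2)‖ ^ 2 ∂muG : ℝ) : ℂ) := by
    unfold ip
    rw [Complex.ofReal_sum]
    refine Finset.sum_congr rfl fun s _ => ?_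
    rw [← integral_complex_ofReal]
    congr 1
    funext p
    rw [Complex.mul_conj']
    push_cast
    rfl
  rw [h1, Complex.ofReal_re, fat_L_eq hF.mf]
  constructor
  · rw [ENNReal.ofReal_sum_of_nonneg (fun s _ => integral_nonneg fun p => by positivity)]
    refine Finset.sum_congr rfl fun s _ => ?_
    rw [ofReal_integral_eq_lintegral_ofReal (hF.sq s) (ae_of_all _ fun p => by positivity)]
    simp only [fat_sq]
  · exact Finset.sum_nonneg fun s _ => integral_nonneg fun p => by positivity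

/-- the `L¹` bound for `T0` -/
theorem fat_T0_L1 [NeZero N] : ∃ K : ℝ, 0 ≤ K ∧ ∀ α : ℂ → ZMod N × ZMod N → ℂ, InL α →
    ∫⁻ p : ℍ × ℝ, ∑ s : QN N, ‖T0 α s (gg p.1 p.2)‖ₑ ∂muG ≤
      ENNReal.ofReal (K * ∑ v ∈ PV N, ∫ x : ℂ, ‖α x v‖) := by
  have := fat_finite
  obtain ⟨V, hV0, hV, hc⟩ := fat_V (N := N)
  have hV' : 0 < ‖V‖ := norm_pos_iff.2 hV0
  obtain ⟨m, hm⟩ : ∃ m : ℝ, m = Fintype.card (QN N) * muG.real Set.univ := ⟨_, rfl⟩
  have hm0 : 0 ≤ m := by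
    rw [hm]
    positivity
  refine ⟨2 * N * (1 + m / ‖V‖), by positivity, fun α hα => ?_⟩
  have hi := (EE_L1 hα).1
  have hb := (EE_L1 hα).2
  have hmean : ‖mean (EE α)‖ ≤ (2 * N * ∑ v ∈ PV N, ∫ x : ℂ, ‖α x v‖) / ‖V‖ := by
    rw [fat_mean hV, norm_div]
    refine div_le_div_of_nonneg_right ?_ hV'.le
    refine le_trans ?_ hb
    unfold fat_I
    refine (norm_sum_le _ _).trans ?_
    exact Finset.sum_le_sum fun s _ => norm_integral_le_integral_norm _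
  have hint : ∀ s : QN N, Integrable (fun p : ℍ × ℝ => T0 α s (gg p.1 p.2)) muG := fun s =>
    (hi s).sub (integrable_const _)
  have h1 : ∑ s : QN N, ∫ p : ℍ × ℝ, ‖T0 α s (gg p.1 p.2)‖ ∂muG ≤
      2 * N * (1 + m / ‖V‖) * ∑ v ∈ PV N, ∫ x : ℂ, ‖α x v‖ := by
    have h2 : ∀ s : QN N, ∫ p : ℍ × ℝ, ‖T0 α s (gg p.1 p.2)‖ ∂muG ≤
        ∫ p : ℍ × ℝ, ‖EE α s (gg p.1 p.2)‖ ∂muG + muG.real Set.univ * ‖mean (EE α)‖ := by
      intro s
      have h3 : ∫ p : ℍ × ℝ, ‖T0 α s (gg p.1 p.2)‖ ∂muG ≤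
          ∫ p : ℍ × ℝ, (‖EE α s (gg p.1 p.2)‖ + ‖mean (EE α)‖) ∂muG :=
        integral_mono (hint s).norm ((hi s).norm.add (integrable_const _))
          fun p => norm_sub_le _ _
      refine h3.trans (le_of_eq ?_)
      rw [integral_add (hi s).norm (integrable_const _), integral_const, smul_eq_mul]
    calc ∑ s : QN N, ∫ p : ℍ × ℝ, ‖T0 α s (gg p.1 p.2)‖ ∂muG
        ≤ ∑ s : QN N, (∫ p : ℍ × ℝ, ‖EE α s (gg p.1 p.2)‖ ∂muG +
            muG.real Set.univ * ‖mean (EE α)‖) := Finset.sum_le_sum fun s _ => h2 s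
      _ = ∑ s : QN N, ∫ p : ℍ × ℝ, ‖EE α s (gg p.1 p.2)‖ ∂muG + m * ‖mean (EE α)‖ := by
          rw [Finset.sum_add_distrib, Finset.sum_const, Finset.card_univ, nsmul_eq_mul, hm]
          ring
      _ ≤ (2 * N * ∑ v ∈ PV N, ∫ x : ℂ, ‖α x v‖) +
            m * ((2 * N * ∑ v ∈ PV N, ∫ x : ℂ, ‖α x v‖) / ‖V‖) :=
          add_le_add hb (mul_le_mul_of_nonneg_left hmean hm0)
      _ = _ := by ring
  refine le_trans (le_of_eq ?_) (ENNReal.ofReal_le_ofReal h1)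
  rw [lintegral_finsetSum _ (fun s _ => ((fat_T0_mf hα).2 s).enorm),
    ENNReal.ofReal_sum_of_nonneg (fun s _ => integral_nonneg fun p => norm_nonneg _)]
  refine Finset.sum_congr rfl fun s _ => ?_
  rw [ofReal_integral_norm_eq_lintegral_enorm (hint s)]

theorem T0_fatou [NeZero N] {α : ℂ → ZMod N × ZMod N → ℂ} (hα : InL α) {C : ℝ}
    (h : ∀ e : ℝ, 0 < e → ∃ β : ℂ → ZMod N × ZMod N → ℂ, InL β ∧ SqF (T0 β) ∧
      (ip (T0 β) (T0 β)).re ≤ C + e ∧ ∑ v ∈ PV N, ∫ x : ℂ, ‖β x v - α x v‖ < e) :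
    SqF (T0 α) ∧ (ip (T0 α) (T0 α)).re ≤ C := by
  obtain ⟨K, hK, hL1⟩ := fat_T0_L1 (N := N)
  choose β hβ1 hβ2 hβ3 hβ4 using fun j : ℕ => h ((1 / 2 : ℝ) ^ j) (by positivity)
  have hgeom : Tendsto (fun j : ℕ => (1 / 2 : ℝ) ^ j) atTop (𝓝 0) :=
    tendsto_pow_atTop_nhds_zero_of_lt_one (by norm_num) (by norm_num)
  have hC : 0 ≤ C := by
    have h1 : Tendsto (fun j : ℕ => C + (1 / 2 : ℝ) ^ j) atTop (𝓝 (C + 0)) :=
      tendsto_const_nhds.add hgeom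
    rw [add_zero] at h1
    exact ge_of_tendsto' h1 fun j => (fat_ip_self (hβ2 j)).2.trans (hβ3 j)
  -- the differences
  have hInL : ∀ j, InL (fun x v => (1 : ℂ) * β j x v + (-1) * α x v) := fun j =>
    ⟨fun v => (((hβ1 j).meas v).const_mul 1).add ((hα.meas v).const_mul (-1)),
      fun v hv => (((hβ1 j).int v hv).const_mul 1).add ((hα.int v hv).const_mul (-1))⟩
  have hd1 : ∀ j, ∫⁻ p : ℍ × ℝ, ∑ s : QN N,
      ‖T0 (β j) s (gg p.1 p.2) - T0 α s (gg p.1 p.2)‖ₑ ∂muG ≤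
        ENNReal.ofReal (K * (1 / 2 : ℝ) ^ j) := by
    intro j
    have h1 := hL1 _ (hInL j)
    have h2 : ∫⁻ p : ℍ × ℝ, ∑ s : QN N,
        ‖T0 (β j) s (gg p.1 p.2) - T0 α s (gg p.1 p.2)‖ₑ ∂muG =
        ∫⁻ p : ℍ × ℝ, ∑ s : QN N,
          ‖T0 (fun x v => (1 : ℂ) * β j x v + (-1) * α x v) s (gg p.1 p.2)‖ₑ ∂muG := by
      refine lintegral_congr_ae ?_
      have h3 : ∀ᵐ p : ℍ × ℝ ∂muG, ∀ s : QN N,
          T0 (fun x v => (1 : ℂ) * β j x v + (-1) * α x v) s (gg p.1 p.2) =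
            1 * T0 (β j) s (gg p.1 p.2) + (-1) * T0 α s (gg p.1 p.2) :=
        ae_all_iff.2 (T0_lin (hβ1 j) hα 1 (-1))
      filter_upwards [h3] with p hp
      refine Finset.sum_congr rfl fun s _ => ?_
      rw [hp s]
      congr 1
      ring
    rw [h2]
    refine h1.trans (ENNReal.ofReal_le_ofReal (mul_le_mul_of_nonneg_left ?_ hK))
    refine le_trans (le_of_eq ?_) (hβ4 j).le
    refine Finset.sum_congr rfl fun v _ => ?_
    congr 1
    funext x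
    congr 1
    ring
  have hmD : ∀ (j : ℕ) (s : QN N), Measurable (fun p : ℍ × ℝ =>
      ‖T0 (β j) s (gg p.1 p.2) - T0 α s (gg p.1 p.2)‖ₑ) := fun j s =>
    (((fat_T0_mf (hβ1 j)).2 s).sub ((fat_T0_mf hα).2 s)).enorm
  have hsum : ∫⁻ p : ℍ × ℝ, ∑' j : ℕ, ∑ s : QN N,
      ‖T0 (β j) s (gg p.1 p.2) - T0 α s (gg p.1 p.2)‖ₑ ∂muG ≠ ⊤ := by
    rw [lintegral_tsum (fun j => (Finset.measurable_sum _ fun s _ => hmD j s).aemeasurable)]
    refine ne_top_of_le_ne_top ?_ (ENNReal.tsum_le_tsum hd1)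
    rw [← ENNReal.ofReal_tsum_of_nonneg (fun j => by positivity)
      ((summable_geometric_of_lt_one (by norm_num) (by norm_num)).mul_left K)]
    exact ENNReal.ofReal_ne_top
  have hae : ∀ᵐ p : ℍ × ℝ ∂muG, ∑' j : ℕ, ∑ s : QN N,
      ‖T0 (β j) s (gg p.1 p.2) - T0 α s (gg p.1 p.2)‖ₑ < ⊤ :=
    ae_lt_top (Measurable.tsum fun j => Finset.measurable_sum _ fun s _ => hmD j s) hsum
  have hlim : ∀ᵐ p : ℍ × ℝ ∂muG, Tendsto (fun j => ∑ s : QN N, ‖T0 (β j) s (gg p.1 p.2)‖ₑ ^ 2)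
      atTop (𝓝 (∑ s : QN N, ‖T0 α s (gg p.1 p.2)‖ₑ ^ 2)) := by
    filter_upwards [hae] with p hp
    have h1 := ENNReal.tendsto_atTop_zero_of_tsum_ne_top hp.ne
    refine tendsto_finsetSum _ fun s _ => ?_
    have h2 : Tendsto (fun j => ‖T0 (β j) s (gg p.1 p.2) - T0 α s (gg p.1 p.2)‖ₑ) atTop
        (𝓝 0) := by
      refine tendsto_of_tendsto_of_tendsto_of_le_of_le tendsto_const_nhds h1
        (fun j => zero_le) (fun j => ?_)
      exact Finset.single_le_sum (f := fun s : QN N =>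
        ‖T0 (β j) s (gg p.1 p.2) - T0 α s (gg p.1 p.2)‖ₑ) (fun _ _ => zero_le)
        (Finset.mem_univ s)
    have h3 : Tendsto (fun j => T0 (β j) s (gg p.1 p.2)) atTop (𝓝 (T0 α s (gg p.1 p.2))) := by
      rw [tendsto_iff_edist_tendsto_0]
      simpa only [edist_eq_enorm_sub] using h2
    exact ((ENNReal.continuous_pow 2).tendsto _).comp (h3.enorm)
  have hfat : fat_L (T0 α) ≤ ENNReal.ofReal C := by
    have h1 : fat_L (T0 α) = ∫⁻ p : ℍ × ℝ, Filter.liminf (fun j => ∑ s : QN N,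
        ‖T0 (β j) s (gg p.1 p.2)‖ₑ ^ 2) atTop ∂muG := by
      unfold fat_L
      refine lintegral_congr_ae ?_
      filter_upwards [hlim] with p hp
      exact hp.liminf_eq.symm
    rw [h1]
    refine (lintegral_liminf_le (fun j => Finset.measurable_sum _ fun s _ =>
      ((fat_T0_mf (hβ1 j)).2 s).enorm.pow_const 2)).trans ?_
    have h2 : Tendsto (fun j : ℕ => ENNReal.ofReal (C + (1 / 2 : ℝ) ^ j)) atTop
        (𝓝 (ENNReal.ofReal (C + 0))) :=
      (ENNReal.continuous_ofReal.tendsto _).comp (tendsto_const_nhds.add hgeom)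
    rw [add_zero] at h2
    rw [← h2.liminf_eq]
    refine Filter.liminf_le_liminf (Eventually.of_forall fun j => ?_)
    show fat_L (T0 (β j)) ≤ _
    rw [(fat_ip_self (hβ2 j)).1]
    exact ENNReal.ofReal_le_ofReal (hβ3 j)
  have hS : SqF (T0 α) := fat_SqF (fat_T0_mf hα) (ne_top_of_le_ne_top ENNReal.ofReal_ne_top hfat)
  refine ⟨hS, ?_⟩
  rw [(fat_ip_self hS).1] at hfat
  exact (ENNReal.ofReal_le_ofReal_iff hC).1 hfat

end Pool.Agent.JO
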