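import Pool.Agent.Lib_helper63.JO.Defs2
/-! Block MUL: sums over multiples of primitive rows (helper12). -/

namespace Pool.Agent.JO

open Complex MeasureTheory Filter Topology UpperHalfPlane ModularGroup
open scoped MatrixGroups Modular ENNReal ComplexConjugate ContDiff

variable {N : ℕ}

/-- multiples of primitive rows -/
theorem mul_equiv : ∃ e : {p : ℤ × ℤ // IsCoprime p.1 p.2} × ℕ ≃ {v : ℤ × ℤ // v ≠ 0},
    ∀ q, (e q : ℤ × ℤ) = (((q.2 : ℤ) + 1) * q.1.1.1, ((q.2 : ℤ) + 1) * q.1.1.2) := by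
  refine ⟨Equiv.ofBijective (fun q => ⟨(((q.2 : ℤ) + 1) * q.1.1.1, ((q.2 : ℤ) + 1) * q.1.1.2), ?_⟩)
    ⟨?_, ?_⟩, fun q => rfl⟩
  · obtain ⟨⟨p, hp⟩, n⟩ := q
    intro h
    rw [Prod.ext_iff] at h
    simp only [Prod.fst_zero, Prod.snd_zero] at h
    have hn : ((n : ℤ) + 1) ≠ 0 := by positivity
    have h1 : p.1 = 0 := by
      rcases mul_eq_zero.1 h.1 with h | h
      · exact absurd h hn
      · exact h
    have h2 : p.2 = 0 := by
      rcases mul_eq_zero.1 h.2 with h | h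
      · exact absurd h hn
      · exact h
    rw [h1, h2] at hp
    exact not_isCoprime_zero_zero hp
  · rintro ⟨⟨p, hp⟩, n⟩ ⟨⟨p', hp'⟩, n'⟩ h
    simp only [Subtype.mk.injEq, Prod.mk.injEq] at h
    obtain ⟨ha, hb⟩ := h
    have hg : Int.gcd (((n : ℤ) + 1) * p.1) (((n : ℤ) + 1) * p.2) = n + 1 := by
      rw [Int.gcd_mul_left, Int.isCoprime_iff_gcd_eq_one.1 hp, mul_one]
      exact_mod_cast Int.natAbs_natCast (n + 1)
    have hg' : Int.gcd (((n' : ℤ) + 1) * p'.1) (((n' : ℤ) + 1) * p'.2) = n' + 1 := by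
      rw [Int.gcd_mul_left, Int.isCoprime_iff_gcd_eq_one.1 hp', mul_one]
      exact_mod_cast Int.natAbs_natCast (n' + 1)
    rw [ha, hb, hg'] at hg
    have hn : n' = n := by omega
    subst hn
    have hn : ((n' : ℤ) + 1) ≠ 0 := by positivity
    have h1 : p.1 = p'.1 := mul_left_cancel₀ hn ha
    have h2 : p.2 = p'.2 := mul_left_cancel₀ hn hb
    have h3 : p = p' := Prod.ext h1 h2
    subst h3
    rfl
  · rintro ⟨v, hv⟩
    have hpos : 0 < Int.gcd v.1 v.2 := by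
      rw [Nat.pos_iff_ne_zero]
      intro h
      rw [Int.gcd_eq_zero_iff] at h
      exact hv (Prod.ext h.1 h.2)
    obtain ⟨a, b, hab, h1, h2⟩ := Int.exists_gcd_one hpos
    refine ⟨⟨⟨(a, b), Int.isCoprime_iff_gcd_eq_one.2 hab⟩, Int.gcd v.1 v.2 - 1⟩, ?_⟩
    apply Subtype.ext
    have h3 : (((Int.gcd v.1 v.2 - 1 : ℕ) : ℤ) + 1) = (Int.gcd v.1 v.2 : ℤ) := by
      omega
    refine Prod.ext ?_ ?_
    · show (((Int.gcd v.1 v.2 - 1 : ℕ) : ℤ) + 1) * a = v.1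
      rw [h3, mul_comm]
      exact h1.symm
    · show (((Int.gcd v.1 v.2 - 1 : ℕ) : ℤ) + 1) * b = v.2
      rw [h3, mul_comm]
      exact h2.symm

theorem mul_rg (m : ℤ) (p : ℤ × ℤ) (g : SL(2, ℝ)) : rg (m * p.1, m * p.2) g = m * rg p g := by
  simp only [rg]
  push_cast
  ring

theorem mul_rs (m : ℤ) (p : ℤ × ℤ) (s : QN N) :
    rs (m * p.1, m * p.2) s = ((m : ZMod N) * (rs p s).1, (m : ZMod N) * (rs p s).2) := by
  simp only [rs]
  push_cast
  refine Prod.ext ?_ ?_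
  · simp only
    ring
  · simp only
    ring

theorem mul_main (F : ℤ × ℤ → ℂ) (h : Summable F) :
    ∑' v, F v = F 0 + (1 / 2) * ∑' p : ℤ × ℤ, open scoped Classical in
      if IsCoprime p.1 p.2 then
        ∑' m : ℤ, (if m = 0 then 0 else F (m * p.1, m * p.2)) else 0 := by
  classical
  obtain ⟨e, he⟩ := mul_equiv
  -- the sum over `v ≠ 0`
  have h0 : ∑' v, F v = F 0 + ∑' v : {v : ℤ × ℤ // v ≠ 0}, F v := by
    rw [h.tsum_eq_add_tsum_ite (0 : ℤ × ℤ)]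
    congr 1
    have := tsum_subtype {v : ℤ × ℤ | v ≠ 0} F
    refine Eq.trans ?_ this.symm
    congr 1
    funext v
    by_cases hv : v = 0
    · simp [hv]
    · rw [Set.indicator_of_mem (by exact hv), if_neg hv]
  have hneg : ∑' v : {v : ℤ × ℤ // v ≠ 0}, F v = ∑' v : {v : ℤ × ℤ // v ≠ 0}, F (-v.1) := by
    let en : {v : ℤ × ℤ // v ≠ 0} ≃ {v : ℤ × ℤ // v ≠ 0} :=
      { toFun := fun v => ⟨-v.1, neg_ne_zero.2 v.2⟩
        invFun := fun v => ⟨-v.1, neg_ne_zero.2 v.2⟩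
        left_inv := fun v => Subtype.ext (neg_neg _)
        right_inv := fun v => Subtype.ext (neg_neg _) }
    exact (en.tsum_eq (fun v : {v : ℤ × ℤ // v ≠ 0} => F v.1)).symm
  have hs1 : Summable (fun q : {p : ℤ × ℤ // IsCoprime p.1 p.2} × ℕ =>
      F (((q.2 : ℤ) + 1) * q.1.1.1, ((q.2 : ℤ) + 1) * q.1.1.2)) := by
    have : Function.Injective (fun q => (e q : ℤ × ℤ)) := Subtype.val_injective.comp e.injective
    have h2 := h.comp_injective this
    refine h2.congr ?_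
    intro q
    simp only [Function.comp]
    rw [he]
  have hs2 : Summable (fun q : {p : ℤ × ℤ // IsCoprime p.1 p.2} × ℕ =>
      F (-(((q.2 : ℤ) + 1) * q.1.1.1), -(((q.2 : ℤ) + 1) * q.1.1.2))) := by
    have : Function.Injective (fun q => -(e q : ℤ × ℤ)) :=
      neg_injective.comp (Subtype.val_injective.comp e.injective)
    have h2 := h.comp_injective this
    refine h2.congr ?_
    intro q
    simp only [Function.comp]
    rw [he]
    rfl
  have h1 : ∑' v : {v : ℤ × ℤ // v ≠ 0}, F v = ∑' p : {p : ℤ × ℤ // IsCoprime p.1 p.2},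
      ∑' n : ℕ, F (((n : ℤ) + 1) * p.1.1, ((n : ℤ) + 1) * p.1.2) := by
    rw [← e.tsum_eq]
    simp_rw [he]
    rw [hs1.tsum_prod]
  have h2 : ∑' v : {v : ℤ × ℤ // v ≠ 0}, F v = ∑' p : {p : ℤ × ℤ // IsCoprime p.1 p.2},
      ∑' n : ℕ, F (-(((n : ℤ) + 1) * p.1.1), -(((n : ℤ) + 1) * p.1.2)) := by
    rw [hneg, ← e.tsum_eq]
    simp_rw [he]
    exact hs2.tsum_prod
  have h3 : ∀ p : {p : ℤ × ℤ // IsCoprime p.1 p.2},
      ∑' m : ℤ, (if m = 0 then 0 else F (m * p.1.1, m * p.1.2)) =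
      ∑' n : ℕ, F (((n : ℤ) + 1) * p.1.1, ((n : ℤ) + 1) * p.1.2) +
      ∑' n : ℕ, F (-(((n : ℤ) + 1) * p.1.1), -(((n : ℤ) + 1) * p.1.2)) := by
    intro p
    have ha : Summable (fun n : ℕ => F (((n : ℤ) + 1) * p.1.1, ((n : ℤ) + 1) * p.1.2)) :=
      hs1.prod_factor p
    have hb : Summable (fun n : ℕ => F (-(((n : ℤ) + 1) * p.1.1), -(((n : ℤ) + 1) * p.1.2))) :=
      hs2.prod_factor p
    have hc : ∀ n : ℕ, (if ((n : ℤ) + 1) = 0 then (0 : ℂ) else
        F (((n : ℤ) + 1) * p.1.1, ((n : ℤ) + 1) * p.1.2)) =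
        F (((n : ℤ) + 1) * p.1.1, ((n : ℤ) + 1) * p.1.2) := fun n => by
      rw [if_neg (by positivity)]
    have hd : ∀ n : ℕ, (if (-((n : ℤ) + 1)) = 0 then (0 : ℂ) else
        F ((-((n : ℤ) + 1)) * p.1.1, (-((n : ℤ) + 1)) * p.1.2)) =
        F (-(((n : ℤ) + 1) * p.1.1), -(((n : ℤ) + 1) * p.1.2)) := fun n => by
      rw [if_neg (by have : (0 : ℤ) < (n : ℤ) + 1 := by positivity
                     omega), neg_mul, neg_mul]
    have := tsum_of_add_one_of_neg_add_one (f := fun m : ℤ =>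
      if m = 0 then (0 : ℂ) else F (m * p.1.1, m * p.1.2)) (by simpa only [hc] using ha)
      (by simpa only [hd] using hb)
    rw [this]
    simp only [hc, hd, if_true, add_zero]
  have h4 : ∑' p : ℤ × ℤ, (if IsCoprime p.1 p.2 then
        ∑' m : ℤ, (if m = 0 then 0 else F (m * p.1, m * p.2)) else 0) =
      ∑' p : {p : ℤ × ℤ // IsCoprime p.1 p.2},
        ∑' m : ℤ, (if m = 0 then 0 else F (m * p.1.1, m * p.1.2)) := by
    have := tsum_subtype {p : ℤ × ℤ | IsCoprime p.1 p.2}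
      (fun p => ∑' m : ℤ, (if m = 0 then 0 else F (m * p.1, m * p.2)))
    refine Eq.trans ?_ this.symm
    congr 1
    funext p
    rw [Set.indicator_apply]
    rfl
  have h5 : ∑' p : {p : ℤ × ℤ // IsCoprime p.1 p.2},
        ∑' m : ℤ, (if m = 0 then 0 else F (m * p.1.1, m * p.1.2)) =
      ∑' v : {v : ℤ × ℤ // v ≠ 0}, F v + ∑' v : {v : ℤ × ℤ // v ≠ 0}, F v := by
    simp_rw [h3]
    rw [Summable.tsum_add hs1.prod hs2.prod, ← h1, ← h2]
  rw [h0]
  congr 1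
  have h6 : ∑' p : ℤ × ℤ, (if IsCoprime p.1 p.2 then
        ∑' m : ℤ, (if m = 0 then 0 else F (m * p.1, m * p.2)) else 0) =
      ∑' v : {v : ℤ × ℤ // v ≠ 0}, F v + ∑' v : {v : ℤ × ℤ // v ≠ 0}, F v := h4.trans h5
  have h7 : ∀ x y : ℂ, y = x + x → x = 1 / 2 * y := fun x y hxy => by
    rw [hxy]; ring
  apply h7
  exact h6

/-- sums over multiples of primitive rows -/
theorem Th_mul (w : ℂ → ZMod N × ZMod N → ℂ) (s : QN N) (g : SL(2, ℝ))
    (h : Summable (fun v : ℤ × ℤ => w (rg v g) (rs v s))) :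
    Th w s g = w 0 0 + EE (ZZ w) s g := by
  have h1 := mul_main (fun v : ℤ × ℤ => w (rg v g) (rs v s)) h
  have h2 : w (rg 0 g) (rs 0 s) = w 0 0 := by
    have ha : rg 0 g = 0 := by simp [rg]
    have hb : rs (N := N) 0 s = 0 := by simp [rs]
    rw [ha, hb]
  unfold Th EE ZZ
  rw [h1]
  simp only [h2, mul_rg, mul_rs]

end Pool.Agent.JO
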