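import Pool.Agent.Lib_helper63.JO.Defs2
import Pool.Agent.Lib_helper41.HZF.POI
import Pool.Agent.Lib_helper63.JOE.CN2
import Pool.Agent.Lib_helper63.JOE.HT1
/-!
# Project JO, part E, block POI: Poisson summation for theta series

Uses the two dimensional Poisson summation formula of `Pool.Agent.Lib_helper41.HZF.POI` and the
Schwartz functions of block HT1.
-/

namespace Pool.Agent.JO

open Complex MeasureTheory Filter Topology UpperHalfPlane ModularGroup
open scoped MatrixGroups Modular ENNReal ComplexConjugate ContDiff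

variable {N : ℕ}

section poi

open scoped FourierTransform SchwartzMap

theorem poi_decay (f : 𝓢(ℂ, ℂ)) : ∃ C : ℝ, ∀ x : ℂ, ‖f x‖ ≤ C * (1 + ‖x‖) ^ (-4 : ℝ) := by
  refine ⟨2 ^ 4 * (Finset.Iic (4, 0)).sup (fun m => SchwartzMap.seminorm ℝ m.1 m.2) f,
    fun x => ?_⟩
  have h := SchwartzMap.one_add_le_sup_seminorm_apply (𝕜 := ℝ) (m := (4, 0))
      (le_refl 4) (le_refl 0) f x
  rw [norm_iteratedFDeriv_zero] at h
  have hpos : 0 < 1 + ‖x‖ := by positivity
  have e : (-4 : ℝ) = -((4 : ℕ) : ℝ) := by norm_num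
  rw [e, Real.rpow_neg hpos.le, Real.rpow_natCast, ← div_eq_mul_inv, le_div_iff₀ (by positivity),
    mul_comm]
  exact h

theorem poi_summable [NeZero N] {G : ℂ → ZMod N × ZMod N → ℂ} {C : ℝ}
    (hG : ∀ x u, ‖G x u‖ ≤ C * (1 + ‖x‖) ^ (-4 : ℝ)) (s : QN N) (g : SL(2, ℝ)) :
    Summable (fun v : ℤ × ℤ => G (rg v g) (rs v s)) :=
  Summable.of_norm_bounded ((rows_sum_all g).mul_left C) fun _ => hG _ _

theorem poi_w_bound [NeZero N] {w : ℂ → ZMod N × ZMod N → ℂ} (hw : TW w) :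
    ∃ C : ℝ, ∀ x u, ‖w x u‖ ≤ C * (1 + ‖x‖) ^ (-4 : ℝ) := by
  have h := fun u => poi_decay (ht1_f hw u)
  choose C hC using h
  refine ⟨∑ u, |C u|, fun x u => ?_⟩
  have h1 : C u ≤ ∑ u, |C u| :=
    (le_abs_self _).trans (Finset.single_le_sum (f := fun u => |C u|)
      (fun i _ => abs_nonneg _) (Finset.mem_univ u))
  refine (hC u x).trans ?_
  gcongr

theorem poi_T_bound [NeZero N] {w : ℂ → ZMod N × ZMod N → ℂ} (hw : TW w) :
    ∃ C : ℝ, ∀ x u, ‖ht1_T hw u x‖ ≤ C * (1 + ‖x‖) ^ (-4 : ℝ) := by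
  have h := fun u => poi_decay (ht1_T hw u)
  choose C hC using h
  refine ⟨∑ u, |C u|, fun x u => ?_⟩
  have h1 : C u ≤ ∑ u, |C u| :=
    (le_abs_self _).trans (Finset.single_le_sum (f := fun u => |C u|)
      (fun i _ => abs_nonneg _) (Finset.mem_univ u))
  refine (hC u x).trans ?_
  gcongr

theorem Th_summable [NeZero N] {w : ℂ → ZMod N × ZMod N → ℂ} (hw : TW w) (s : QN N)
    (g : SL(2, ℝ)) :
    Summable (fun v : ℤ × ℤ => w (rg v g) (rs v s)) ∧
      Summable (fun v : ℤ × ℤ => hat w (rg v g) (rs v s)) := by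
  obtain ⟨C, hC⟩ := poi_w_bound hw
  obtain ⟨C', hC'⟩ := hat_decay hw 4
  refine ⟨poi_summable hC s g, poi_summable (C := C') (fun x u => ?_) s g⟩
  have h := (hC' x u).1
  rwa [show (-((4 : ℕ) : ℝ)) = (-4 : ℝ) by norm_num] at h

/-- integers as pairs (residue, quotient) -/
def poi_e (N : ℕ) [NeZero N] : ZMod N × ℤ ≃ ℤ where
  toFun x := (x.1.val : ℤ) + N * x.2
  invFun n := ((n : ZMod N), (n - ((n : ZMod N).val : ℤ)) / N)
  left_inv x := by
    have hN : (N : ℤ) ≠ 0 := by exact_mod_cast NeZero.ne N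
    have h1 : (((x.1.val : ℤ) + N * x.2 : ℤ) : ZMod N) = x.1 := by
      push_cast
      simp
    ext1
    · exact h1
    · simp only [h1]
      rw [add_sub_cancel_left, Int.mul_ediv_cancel_left _ hN]
  right_inv n := by
    have hd : (N : ℤ) ∣ n - ((n : ZMod N).val : ℤ) := by
      rw [← ZMod.intCast_zmod_eq_zero_iff_dvd]
      push_cast
      simp
    simp only
    rw [Int.mul_ediv_cancel' hd]
    ring

/-- pairs of integers as pairs (residues, quotients) -/
def poi_E (N : ℕ) [NeZero N] : (ZMod N × ZMod N) × (Fin 2 → ℤ) ≃ ℤ × ℤ where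
  toFun x := (poi_e N (x.1.1, x.2 0), poi_e N (x.1.2, x.2 1))
  invFun v := ((((poi_e N).symm v.1).1, ((poi_e N).symm v.2).1),
    ![((poi_e N).symm v.1).2, ((poi_e N).symm v.2).2])
  left_inv x := by
    rcases x with ⟨⟨a, b⟩, k⟩
    simp only [Equiv.symm_apply_apply]
    congr 1
    ext i
    fin_cases i <;> rfl
  right_inv v := by
    simp

/-- the dual variable -/
def poi_D : (Fin 2 → ℤ) ≃ ℤ × ℤ where
  toFun k := (-k 1, k 0)
  invFun u := ![u.2, -u.1]
  left_inv k := by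
    ext i
    fin_cases i <;> simp
  right_inv u := by simp

/-- the action of `s` on residues -/
def poi_s (s : QN N) : ZMod N × ZMod N ≃ ZMod N × ZMod N where
  toFun a := (a.1 * s 0 0 + a.2 * s 1 0, a.1 * s 0 1 + a.2 * s 1 1)
  invFun b := (b.1 * s 1 1 - b.2 * s 1 0, -b.1 * s 0 1 + b.2 * s 0 0)
  left_inv a := by
    have h := Matrix.det_fin_two s.1
    rw [s.2] at h
    ext1
    · simp only
      linear_combination (-a.1) * h
    · simp only
      linear_combination (-a.2) * h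
  right_inv b := by
    have h := Matrix.det_fin_two s.1
    rw [s.2] at h
    ext1
    · simp only
      linear_combination (-b.1) * h
    · simp only
      linear_combination (-b.2) * h

theorem poi_s_sy (s : QN N) (a : ZMod N × ZMod N) (u : ℤ × ℤ) :
    sy (poi_s s a) (rs u s) = a.1 * (u.2 : ZMod N) - a.2 * (u.1 : ZMod N) := by
  have h := Matrix.det_fin_two s.1
  rw [s.2] at h
  simp only [poi_s, sy, rs, Equiv.coe_fn_mk]
  linear_combination (-(a.1 * (u.2 : ZMod N) - a.2 * (u.1 : ZMod N))) * h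

theorem poi_rs [NeZero N] (s : QN N) (a : ZMod N × ZMod N) (k : Fin 2 → ℤ) :
    rs (poi_E N (a, k)) s = poi_s s a := by
  simp [poi_E, poi_e, rs, poi_s]

/-- the row `(x, y) g` -/
noncomputable def poi_r (x y : ℝ) (g : SL(2, ℝ)) : ℂ :=
  ((x * g 0 0 + y * g 1 0 : ℝ) : ℂ) + ((x * g 0 1 + y * g 1 1 : ℝ) : ℂ) * Complex.I

theorem poi_r_rg (v : ℤ × ℤ) (g : SL(2, ℝ)) : rg v g = poi_r v.1 v.2 g := rfl

theorem poi_r_sy (x y : ℝ) (u : ℤ × ℤ) (g : SL(2, ℝ)) :
    (conj (poi_r x y g) * rg u g).im = x * u.2 - y * u.1 := by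
  have h := Matrix.det_fin_two g.1
  rw [g.2] at h
  simp only [poi_r, rg, map_add, map_mul, Complex.conj_ofReal, Complex.conj_I, Complex.mul_im,
    Complex.add_re, Complex.add_im, Complex.mul_re, Complex.ofReal_re, Complex.ofReal_im,
    Complex.I_re, Complex.I_im, Complex.neg_re, Complex.neg_im]
  linear_combination (-(x * (u.2 : ℝ) - y * (u.1 : ℝ))) * h

/-- integrals over `ℝ²` and over `ℂ` -/
theorem poi_pi (G : ℂ → ℂ) :
    ∫ y : Fin 2 → ℝ, G ((y 0 : ℂ) + (y 1 : ℂ) * Complex.I) = ∫ ξ : ℂ, G ξ := by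
  have h := Complex.volume_preserving_equiv_pi.integral_comp
    Complex.measurableEquivPi.measurableEmbedding
    (fun y : Fin 2 → ℝ => G ((y 0 : ℂ) + (y 1 : ℂ) * Complex.I))
  rw [← h]
  refine integral_congr_ae (Filter.Eventually.of_forall fun ξ => ?_)
  show G _ = G ξ
  congr 1
  simp [Complex.measurableEquivPi]

theorem poi_int (n : ℕ) (hn : n ≠ 0) (A B : ℝ) (g : SL(2, ℝ)) (G : ℂ → ℂ) :
    ∫ t : Fin 2 → ℝ, G (poi_r (A + n * t 0) (B + n * t 1) g) =
      ((n : ℂ) ^ 2)⁻¹ * ∫ ξ : ℂ, G ξ := by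
  have hdet := Matrix.det_fin_two g.1
  rw [g.2] at hdet
  have hn' : (n : ℝ) ≠ 0 := Nat.cast_ne_zero.2 hn
  set M : Matrix (Fin 2) (Fin 2) ℝ := !![n * g 0 0, n * g 1 0; n * g 0 1, n * g 1 1] with hM
  have hMd : M.det = (n : ℝ) ^ 2 := by
    rw [hM, Matrix.det_fin_two_of]
    linear_combination (-(n : ℝ) ^ 2) * hdet
  have hMu : IsUnit M := by
    rw [Matrix.isUnit_iff_isUnit_det, hMd]
    exact (pow_ne_zero 2 hn').isUnit
  set c : Fin 2 → ℝ := ![A * g 0 0 + B * g 1 0, A * g 0 1 + B * g 1 1] with hc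
  set L : (Fin 2 → ℝ) →L[ℝ] (Fin 2 → ℝ) := LinearMap.toContinuousLinearMap (Matrix.toLin' M)
    with hL
  have hLd : |L.det| = (n : ℝ) ^ 2 := by
    rw [hL, LinearMap.det_toContinuousLinearMap, LinearMap.det_toLin', hMd]
    exact abs_of_nonneg (by positivity)
  set T : (Fin 2 → ℝ) → (Fin 2 → ℝ) := fun t => c + L t with hT
  have hLa : ∀ t, L t = M.mulVec t := fun t => rfl
  have hinj : Function.Injective T := by
    intro t t' h
    have h1 : M.mulVec t = M.mulVec t' := by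
      have := add_left_cancel h
      rwa [hLa, hLa] at this
    exact Matrix.mulVec_injective_iff_isUnit.2 hMu h1
  have hsurj : Function.Surjective T := by
    intro y
    obtain ⟨t, ht⟩ := Matrix.mulVec_surjective_iff_isUnit.2 hMu (y - c)
    refine ⟨t, ?_⟩
    show c + L t = y
    rw [hLa, ht]
    abel
  have hder : ∀ t ∈ Set.univ, HasFDerivWithinAt T L Set.univ t := by
    intro t _
    exact (L.hasFDerivAt.const_add c).hasFDerivWithinAt
  have h1 := integral_image_eq_integral_abs_det_fderiv_smul (volume : Measure (Fin 2 → ℝ))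
    MeasurableSet.univ hder hinj.injOn
    (fun y : Fin 2 → ℝ => G ((y 0 : ℂ) + (y 1 : ℂ) * Complex.I))
  rw [Set.image_univ, hsurj.range_eq, Measure.restrict_univ, poi_pi] at h1
  have h2 : ∀ t : Fin 2 → ℝ, ((T t 0 : ℝ) : ℂ) + ((T t 1 : ℝ) : ℂ) * Complex.I =
      poi_r (A + n * t 0) (B + n * t 1) g := by
    intro t
    have e0 : T t 0 = (A + n * t 0) * g 0 0 + (B + n * t 1) * g 1 0 := by
      show c 0 + L t 0 = _
      rw [hLa]
      simp [hc, hM, Matrix.mulVec, dotProduct, Fin.sum_univ_two]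
      ring
    have e1 : T t 1 = (A + n * t 0) * g 0 1 + (B + n * t 1) * g 1 1 := by
      show c 1 + L t 1 = _
      rw [hLa]
      simp [hc, hM, Matrix.mulVec, dotProduct, Fin.sum_univ_two]
      ring
    rw [e0, e1]
    rfl
  simp only [hLd, h2] at h1
  rw [h1, integral_smul, Complex.real_smul, ← mul_assoc]
  have h3 : ((n : ℂ) ^ 2)⁻¹ * (((n : ℝ) ^ 2 : ℝ) : ℂ) = 1 := by
    push_cast
    have : (n : ℂ) ≠ 0 := Nat.cast_ne_zero.2 hn
    field_simp
  rw [h3, one_mul]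

/-- the function of the residue class `a` -/
noncomputable def poi_f [NeZero N] (w : ℂ → ZMod N × ZMod N → ℂ) (s : QN N) (g : SL(2, ℝ))
    (a : ZMod N × ZMod N) (t : Fin 2 → ℝ) : ℂ :=
  w (poi_r (a.1.val + N * t 0) (a.2.val + N * t 1) g) (poi_s s a)

theorem poi_f_cont [NeZero N] {w : ℂ → ZMod N × ZMod N → ℂ} (hw : TW w) (s : QN N)
    (g : SL(2, ℝ)) (a : ZMod N × ZMod N) : Continuous (poi_f w s g a) := by
  unfold poi_f
  refine (hw.smooth _).continuous.comp ?_
  unfold poi_r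
  fun_prop

theorem poi_f_bound [NeZero N] {w : ℂ → ZMod N × ZMod N → ℂ} (hw : TW w) (s : QN N)
    (g : SL(2, ℝ)) (a : ZMod N × ZMod N) :
    ∃ C : ℝ, ∀ t, ‖poi_f w s g a t‖ ≤ C * Real.exp (-(1 * ‖t‖)) := by
  obtain ⟨r, R, hr, hR⟩ := hw.supp
  obtain ⟨C, hC⟩ := poi_w_bound hw
  have hN1 : (1 : ℝ) ≤ N := by exact_mod_cast Nat.one_le_iff_ne_zero.2 (NeZero.ne N)
  have hC1 : ∀ x u, ‖w x u‖ ≤ |C| := by
    intro x u
    refine (hC x u).trans ?_
    have h1 : (1 + ‖x‖) ^ (-4 : ℝ) ≤ 1 := by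
      refine Real.rpow_le_one_of_one_le_of_nonpos ?_ (by norm_num)
      linarith [norm_nonneg x]
    have h2 : 0 ≤ (1 + ‖x‖) ^ (-4 : ℝ) := by positivity
    calc C * (1 + ‖x‖) ^ (-4 : ℝ) ≤ |C| * (1 + ‖x‖) ^ (-4 : ℝ) := by
          gcongr
          exact le_abs_self C
      _ ≤ |C| * 1 := by gcongr
      _ = |C| := mul_one _
  set ρ : ℝ := ‖rg (0, 1) g‖ + ‖rg (1, 0) g‖ with hρ
  have hρ0 : 0 ≤ ρ := by positivity
  set R' : ℝ := |R| * ρ + N with hR'
  have hR'0 : 0 ≤ R' := by positivity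
  have haux : ∀ (b : ZMod N) (x y : ℝ), y = b.val + N * x → |y| ≤ |R| * ρ → |x| ≤ R' := by
    intro b x y hy h1
    have hb : (b.val : ℝ) ≤ N := by exact_mod_cast (ZMod.val_lt b).le
    have hb0 : (0 : ℝ) ≤ b.val := Nat.cast_nonneg _
    have h2 : |N * x| ≤ R' := by
      have e : N * x = y - b.val := by rw [hy]; ring
      rw [e, hR']
      refine (abs_sub _ _).trans ?_
      rw [abs_of_nonneg hb0]
      linarith
    rw [abs_mul, abs_of_nonneg (by linarith : (0 : ℝ) ≤ N)] at h2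
    nlinarith [abs_nonneg x]
  refine ⟨|C| * Real.exp R', fun t => ?_⟩
  by_cases h0 : poi_f w s g a t = 0
  · rw [h0, norm_zero]
    positivity
  · have h1 := (hR _ _ h0).2
    have hx := poi_r_sy (a.1.val + N * t 0) (a.2.val + N * t 1) (0, 1) g
    have hy := poi_r_sy (a.1.val + N * t 0) (a.2.val + N * t 1) (1, 0) g
    have hRR : ‖poi_r (a.1.val + N * t 0) (a.2.val + N * t 1) g‖ ≤ |R| := h1.trans (le_abs_self R)
    have hx1 : |(a.1.val + N * t 0 : ℝ)| ≤ |R| * ρ := by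
      have e : (a.1.val + N * t 0 : ℝ) =
        (conj (poi_r (a.1.val + N * t 0) (a.2.val + N * t 1) g) * rg (0, 1) g).im := by
        rw [hx]
        push_cast
        ring
      rw [e]
      refine (Complex.abs_im_le_norm _).trans ?_
      rw [norm_mul, Complex.norm_conj]
      refine mul_le_mul hRR ?_ (norm_nonneg _) (abs_nonneg _)
      rw [hρ]
      linarith [norm_nonneg (rg (1, 0) g)]
    have hy1 : |(a.2.val + N * t 1 : ℝ)| ≤ |R| * ρ := by
      have e : (a.2.val + N * t 1 : ℝ) =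
        -(conj (poi_r (a.1.val + N * t 0) (a.2.val + N * t 1) g) * rg (1, 0) g).im := by
        rw [hy]
        push_cast
        ring
      rw [e, abs_neg]
      refine (Complex.abs_im_le_norm _).trans ?_
      rw [norm_mul, Complex.norm_conj]
      refine mul_le_mul hRR ?_ (norm_nonneg _) (abs_nonneg _)
      rw [hρ]
      linarith [norm_nonneg (rg (0, 1) g)]
    have ht : ‖t‖ ≤ R' := by
      rw [pi_norm_le_iff_of_nonneg hR'0]
      intro i
      rw [Real.norm_eq_abs]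
      fin_cases i
      · exact haux _ _ _ rfl hx1
      · exact haux _ _ _ rfl hy1
    calc ‖poi_f w s g a t‖ ≤ |C| := hC1 _ _
      _ = |C| * 1 := (mul_one _).symm
      _ ≤ |C| * Real.exp (R' - ‖t‖) := by
          gcongr
          exact Real.one_le_exp (by linarith)
      _ = |C| * Real.exp R' * Real.exp (-(1 * ‖t‖)) := by
          rw [mul_assoc, ← Real.exp_add]
          congr 2
          ring

theorem poi_coef [NeZero N] {w : ℂ → ZMod N × ZMod N → ℂ} (hw : TW w) (s : QN N)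
    (g : SL(2, ℝ)) (a : ZMod N × ZMod N) (k : Fin 2 → ℤ) :
    ∫ t : Fin 2 → ℝ, poi_f w s g a t * Pool.Agent.HZ.ee (-(∑ i, (k i : ℝ) * t i)) =
      ((N : ℂ) ^ 2)⁻¹ * ((ZMod.stdAddChar (sy (poi_s s a) (rs (poi_D k) s)) : ℂ) *
        ht1_T hw (poi_s s a) (rg (poi_D k) g)) := by
  have hN : (N : ℂ) ≠ 0 := by exact_mod_cast NeZero.ne N
  have h1 := poi_int N (NeZero.ne N) a.1.val a.2.val g (fun ξ =>
    (ZMod.stdAddChar (sy (poi_s s a) (rs (poi_D k) s)) : ℂ) * (w ξ (poi_s s a) *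
      cexp (-(2 * Real.pi * (conj ξ * rg (poi_D k) g).im / N : ℝ) * Complex.I)))
  have h2 : ∫ ξ : ℂ, (ZMod.stdAddChar (sy (poi_s s a) (rs (poi_D k) s)) : ℂ) * (w ξ (poi_s s a) *
      cexp (-(2 * Real.pi * (conj ξ * rg (poi_D k) g).im / N : ℝ) * Complex.I)) =
      (ZMod.stdAddChar (sy (poi_s s a) (rs (poi_D k) s)) : ℂ) *
        ht1_T hw (poi_s s a) (rg (poi_D k) g) := by
    rw [integral_const_mul, ht1_T_eq]
  rw [h2] at h1
  rw [← h1]
  refine integral_congr_ae (Filter.Eventually.of_forall fun t => ?_)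
  show poi_f w s g a t * _ = _
  unfold poi_f
  beta_reduce
  rw [poi_r_sy]
  have e1 : sy (poi_s s a) (rs (poi_D k) s) =
      (((a.1.val : ℤ) * k 0 + (a.2.val : ℤ) * k 1 : ℤ) : ZMod N) := by
    rw [poi_s_sy]
    simp [poi_D]
  rw [e1, ZMod.stdAddChar_coe]
  rw [← mul_assoc, mul_comm (cexp _) (w _ _), mul_assoc, ← Complex.exp_add]
  congr 1
  unfold Pool.Agent.HZ.ee
  congr 1
  simp only [poi_D, Equiv.coe_fn_mk, Fin.sum_univ_two]
  push_cast
  field_simp
  ring

theorem Th_poisson [NeZero N] {w : ℂ → ZMod N × ZMod N → ℂ} (hw : TW w) (s : QN N)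
    (g : SL(2, ℝ)) : Th w s g = Th (hat w) s g := by
  classical
  have hN : (N : ℂ) ≠ 0 := by exact_mod_cast NeZero.ne N
  obtain ⟨CT, hCT⟩ := poi_T_bound hw
  -- summability of the Fourier coefficients
  have hsumT : ∀ a : ZMod N × ZMod N, Summable (fun k : Fin 2 → ℤ =>
      ((N : ℂ) ^ 2)⁻¹ * ((ZMod.stdAddChar (sy (poi_s s a) (rs (poi_D k) s)) : ℂ) *
        ht1_T hw (poi_s s a) (rg (poi_D k) g))) := by
    intro a
    refine Summable.mul_left _ ?_
    have h1 := (((rows_sum_all g).mul_left CT).comp_injective poi_D.injective)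
    refine Summable.of_norm_bounded h1 fun k => ?_
    rw [norm_mul]
    have h2 : ‖(ZMod.stdAddChar (sy (poi_s s a) (rs (poi_D k) s)) : ℂ)‖ = 1 :=
      AddChar.norm_apply _ _
    rw [h2, one_mul]
    exact hCT _ _
  have hP : ∀ a : ZMod N × ZMod N, ∑' k : Fin 2 → ℤ, poi_f w s g a (fun i => (k i : ℝ)) =
      ∑' k : Fin 2 → ℤ, ((N : ℂ) ^ 2)⁻¹ *
        ((ZMod.stdAddChar (sy (poi_s s a) (rs (poi_D k) s)) : ℂ) *
          ht1_T hw (poi_s s a) (rg (poi_D k) g)) := by
    intro a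
    obtain ⟨C, hC⟩ := poi_f_bound hw s g a
    have h1 := Pool.Agent.HZ.poisson (poi_f w s g a) (poi_f_cont hw s g a) C 1 one_pos hC
      (by simp_rw [poi_coef hw]; exact (hsumT a).norm) 0
    simp only [Pi.zero_apply, zero_add, mul_zero, Finset.sum_const_zero, poi_coef hw] at h1
    have e0 : Pool.Agent.HZ.ee 0 = 1 := by simp [Pool.Agent.HZ.ee]
    simp only [e0, mul_one] at h1
    exact h1
  have hsum := (Th_summable hw s g).1
  have hsumE := hsum.comp_injective (poi_E N).injective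
  calc Th w s g = ∑' x : (ZMod N × ZMod N) × (Fin 2 → ℤ),
        w (rg (poi_E N x) g) (rs (poi_E N x) s) := by
        unfold Th
        exact ((poi_E N).tsum_eq (fun v => w (rg v g) (rs v s))).symm
    _ = ∑' a : ZMod N × ZMod N, ∑' k : Fin 2 → ℤ,
        w (rg (poi_E N (a, k)) g) (rs (poi_E N (a, k)) s) := hsumE.tsum_prod
    _ = ∑ a : ZMod N × ZMod N, ∑' k : Fin 2 → ℤ, poi_f w s g a (fun i => (k i : ℝ)) := by
        rw [tsum_fintype]
        refine Finset.sum_congr rfl fun a _ => tsum_congr fun k => ?_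
        rw [poi_rs]
        unfold poi_f
        congr 1
        rw [poi_r_rg]
        simp [poi_E, poi_e]
    _ = ∑ a : ZMod N × ZMod N, ∑' k : Fin 2 → ℤ, ((N : ℂ) ^ 2)⁻¹ *
        ((ZMod.stdAddChar (sy (poi_s s a) (rs (poi_D k) s)) : ℂ) *
          ht1_T hw (poi_s s a) (rg (poi_D k) g)) := Finset.sum_congr rfl fun a _ => hP a
    _ = ∑' k : Fin 2 → ℤ, ∑ a : ZMod N × ZMod N, ((N : ℂ) ^ 2)⁻¹ *
        ((ZMod.stdAddChar (sy (poi_s s a) (rs (poi_D k) s)) : ℂ) *
          ht1_T hw (poi_s s a) (rg (poi_D k) g)) :=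
        (Summable.tsum_finsetSum fun a _ => hsumT a).symm
    _ = ∑' k : Fin 2 → ℤ, hat w (rg (poi_D k) g) (rs (poi_D k) s) := by
        refine tsum_congr fun k => ?_
        rw [← Finset.mul_sum]
        unfold hat
        congr 1
        refine Eq.trans ?_ (Equiv.sum_comp (poi_s s) _)
        refine Finset.sum_congr rfl fun a _ => ?_
        rw [ht1_T_eq]
    _ = Th (hat w) s g := by
        unfold Th
        exact poi_D.tsum_eq (fun v => hat w (rg v g) (rs v s))

end poi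

end Pool.Agent.JO
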