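import Pool.Agent.Lib_helper63.JO.Defs2
/-!
# JOE block HT2: line integrals and the total integral of `hat w`
-/

namespace Pool.Agent.JO

open Complex MeasureTheory Filter Topology UpperHalfPlane ModularGroup
open scoped MatrixGroups Modular ENNReal ComplexConjugate ContDiff FourierTransform


variable {N : ℕ}

/-- the slice `h(x) = ∫ g(x + i y) dy` -/
noncomputable def ht2H (g : ℂ → ℂ) (x : ℝ) : ℂ := ∫ y : ℝ, g ((x : ℂ) + (y : ℂ) * Complex.I)

theorem ht2_bound {g : ℂ → ℂ} {R : ℝ} (hR : ∀ x, g x ≠ 0 → ‖x‖ ≤ R) {x y : ℝ}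
    (h : g ((x : ℂ) + (y : ℂ) * Complex.I) ≠ 0) : |x| ≤ R ∧ |y| ≤ R := by
  have h1 := hR _ h
  have h2 := Complex.abs_re_le_norm ((x : ℂ) + (y : ℂ) * Complex.I)
  have h3 := Complex.abs_im_le_norm ((x : ℂ) + (y : ℂ) * Complex.I)
  simp only [add_re, ofReal_re, mul_re, Complex.I_re, mul_zero, ofReal_im, Complex.I_im, mul_one, sub_self,
    add_zero, add_im, mul_im, zero_add] at h2 h3
  exact ⟨h2.trans h1, h3.trans h1⟩

theorem ht2_H_cont {g : ℂ → ℂ} (hg : Continuous g) {R : ℝ} (hR : ∀ x, g x ≠ 0 → ‖x‖ ≤ R) :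
    Continuous (ht2H g) := by
  have h1 : ht2H g = fun x : ℝ => ∫ y in (-(|R| + 1))..(|R| + 1), g ((x : ℂ) + (y : ℂ) * Complex.I) := by
    funext x
    refine (intervalIntegral.integral_eq_integral_of_support_subset ?_).symm
    intro y hy
    have h2 := (ht2_bound hR (Function.mem_support.1 hy)).2
    have h3 := abs_le.1 (h2.trans (le_abs_self R))
    constructor <;> linarith [h3.1, h3.2]
  rw [h1]
  refine intervalIntegral.continuous_parametric_intervalIntegral_of_continuous' ?_ _ _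
  fun_prop

theorem ht2_H_supp {g : ℂ → ℂ} {R : ℝ} (hR : ∀ x, g x ≠ 0 → ‖x‖ ≤ R) :
    HasCompactSupport (ht2H g) := by
  refine HasCompactSupport.of_support_subset_isCompact (isCompact_Icc (a := -R) (b := R)) ?_
  intro x hx
  by_contra hc
  apply hx
  unfold ht2H
  rw [← MeasureTheory.integral_zero ℝ ℂ]
  congr 1
  funext y
  by_contra h
  have h1 := (ht2_bound hR h).1
  exact hc ⟨(abs_le.1 h1).1, (abs_le.1 h1).2⟩

theorem ht2_fourier {g : ℂ → ℂ} (hg : Continuous g) {R : ℝ} (hR : ∀ x, g x ≠ 0 → ‖x‖ ≤ R)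
    (t : ℝ) : 𝓕 g (t : ℂ) = 𝓕 (ht2H g) t := by
  rw [Real.fourier_eq', Real.fourier_eq']
  simp only [smul_eq_mul]
  have hK : HasCompactSupport g :=
    HasCompactSupport.of_support_subset_isCompact (isCompact_closedBall (0 : ℂ) R)
      (fun x hx => by
        rw [Metric.mem_closedBall, dist_zero_right]
        exact hR x hx)
  have hI : Integrable (fun v : ℂ => cexp (((-2 * Real.pi * (inner ℝ (v) ((t : ℂ))) : ℝ) : ℂ) * Complex.I) * g v) := by
    refine Continuous.integrable_of_hasCompactSupport ?_ ?_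
    · refine Continuous.mul ?_ hg
      fun_prop
    · exact hK.mul_left
  rw [← Complex.volume_preserving_equiv_real_prod.symm.integral_comp
    (MeasurableEquiv.measurableEmbedding _)]
  rw [← Complex.volume_preserving_equiv_real_prod.symm.integrable_comp_emb
    (MeasurableEquiv.measurableEmbedding _)] at hI
  rw [Measure.volume_eq_prod] at hI ⊢
  refine (integral_prod _ hI).trans ?_
  refine integral_congr_ae (Eventually.of_forall fun x => ?_)
  show (∫ y : ℝ, cexp (((-2 * Real.pi * (inner ℝ (Complex.measurableEquivRealProd.symm (x, y)) ((t : ℂ))) : ℝ)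
    : ℂ) * Complex.I) * g (Complex.measurableEquivRealProd.symm (x, y))) =
    cexp (((-2 * Real.pi * (inner ℝ x t) : ℝ) : ℂ) * Complex.I) * ht2H g x
  have h1 : ∀ y : ℝ, Complex.measurableEquivRealProd.symm (x, y) = (x : ℂ) + (y : ℂ) * Complex.I :=
    fun y => by
      rw [Complex.measurableEquivRealProd_symm_apply]
      apply Complex.ext <;> simp
  have h2 : ∀ y : ℝ, (inner ℝ ((x : ℂ) + (y : ℂ) * Complex.I) ((t : ℂ))) = t * x := fun y => by
    rw [Complex.inner]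
    simp
  have h3 : (inner ℝ (x) (t)) = t * x := by
    simp
  unfold ht2H
  rw [h3, ← integral_const_mul]
  refine integral_congr_ae (Eventually.of_forall fun y => ?_)
  simp only [h1, h2]

theorem ht2_slice {g : ℂ → ℂ} (hg : Continuous g) {R : ℝ} (hR : ∀ x, g x ≠ 0 → ‖x‖ ≤ R)
    (hF : Integrable (fun t : ℝ => 𝓕 g (t : ℂ))) :
    ∫ t : ℝ, 𝓕 g (t : ℂ) = ∫ y : ℝ, g ((y : ℂ) * Complex.I) := by
  have hc := ht2_H_cont hg hR
  have hi : Integrable (ht2H g) := hc.integrable_of_hasCompactSupport (ht2_H_supp hR)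
  have hF' : Integrable (𝓕 (ht2H g)) := by
    have : (fun t : ℝ => 𝓕 g (t : ℂ)) = 𝓕 (ht2H g) := funext fun t => ht2_fourier hg hR t
    rwa [this] at hF
  have h1 := hi.fourierInv_fourier_eq hF' (hc.continuousAt (x := 0))
  rw [Real.fourierInv_eq'] at h1
  have h2 : (∫ v : ℝ, cexp (((2 * Real.pi * (inner ℝ (v) ((0 : ℝ))) : ℝ) : ℂ) * Complex.I) • 𝓕 (ht2H g) v) =
      ∫ t : ℝ, 𝓕 g (t : ℂ) := by
    refine integral_congr_ae (Eventually.of_forall fun t => ?_)
    simp only [inner_zero_right, mul_zero, ofReal_zero, zero_mul, Complex.exp_zero, one_smul]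
    rw [ht2_fourier hg hR]
  rw [← h2, h1]
  unfold ht2H
  simp

/-- the Schwartz function given by a test function -/
noncomputable def ht2S {f : ℂ → ℂ} (hf : ContDiff ℝ ∞ f) {R : ℝ}
    (hR : ∀ x, f x ≠ 0 → ‖x‖ ≤ R) : SchwartzMap ℂ ℂ :=
  HasCompactSupport.toSchwartzMap (f := f)
    (HasCompactSupport.of_support_subset_isCompact (isCompact_closedBall (0 : ℂ) R)
      (fun x hx => by
        rw [Metric.mem_closedBall, dist_zero_right]
        exact hR x hx)) hf

theorem ht2S_apply {f : ℂ → ℂ} (hf : ContDiff ℝ ∞ f) {R : ℝ}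
    (hR : ∀ x, f x ≠ 0 → ‖x‖ ≤ R) : (ht2S hf hR : ℂ → ℂ) = f := rfl

theorem ht2_int_line (f : SchwartzMap ℂ ℂ) {a : ℂ} (ha : a ≠ 0) :
    Integrable (fun t : ℝ => f ((t : ℂ) * a)) := by
  obtain ⟨C0, hC0, h0⟩ := f.decay 0 0
  obtain ⟨C2, hC2, h2⟩ := f.decay 2 0
  have ha' : ‖a‖ ≠ 0 := norm_ne_zero_iff.2 ha
  have hb : Integrable (fun t : ℝ => (C0 + C2) * (1 + (‖a‖ * t) ^ 2)⁻¹) :=
    (integrable_inv_one_add_sq.comp_mul_left' ha').const_mul _
  refine hb.mono' ?_ (Eventually.of_forall fun t => ?_)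
  · exact (f.continuous.comp (by fun_prop)).aestronglyMeasurable
  · have h3 := h0 ((t : ℂ) * a)
    have h4 := h2 ((t : ℂ) * a)
    rw [norm_iteratedFDeriv_zero] at h3 h4
    have h5 : ‖(t : ℂ) * a‖ ^ 2 = (‖a‖ * t) ^ 2 := by
      rw [norm_mul, Complex.norm_real, mul_pow, mul_pow, Real.norm_eq_abs, sq_abs]
      ring
    rw [pow_zero, one_mul] at h3
    rw [h5] at h4
    have h6 : (0 : ℝ) < 1 + (‖a‖ * t) ^ 2 := by positivity
    rw [← div_eq_mul_inv, le_div_iff₀ h6]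
    nlinarith

theorem ht2_line {f : ℂ → ℂ} (hf : ContDiff ℝ ∞ f) {R : ℝ}
    (hR : ∀ x, f x ≠ 0 → ‖x‖ ≤ R) {a : ℂ} (ha : a ≠ 0) :
    Integrable (fun t : ℝ => 𝓕 f ((t : ℂ) * a)) ∧
    ∫ t : ℝ, 𝓕 f ((t : ℂ) * a) =
      (‖a‖ : ℂ)⁻¹ * ∫ y : ℝ, f ((y : ℂ) * (Complex.I * (a / ‖a‖))) := by
  have ha' : ‖a‖ ≠ 0 := norm_ne_zero_iff.2 ha
  have hS : ∀ b : ℂ, b ≠ 0 → Integrable (fun t : ℝ => 𝓕 f ((t : ℂ) * b)) := fun b hb =>
    ht2_int_line (𝓕 (ht2S hf hR)) hb
  refine ⟨hS a ha, ?_⟩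
  set a0 : ℂ := a / ‖a‖ with ha0
  have hn0 : ‖a0‖ = 1 := by
    rw [ha0, norm_div, Complex.norm_real, norm_norm, div_self ha']
  have ha0' : a0 ≠ 0 := by
    rw [← norm_ne_zero_iff, hn0]; exact one_ne_zero
  have haa : a = (‖a‖ : ℂ) * a0 := by
    rw [ha0]
    field_simp
    simp [ha]
  let A : ℂ ≃ₗᵢ[ℝ] ℂ := rotation ⟨a0, mem_sphere_zero_iff_norm.2 hn0⟩
  have hA : ∀ z, A z = a0 * z := fun z => rfl
  have h1 : ∀ t : ℝ, 𝓕 (f ∘ A) (t : ℂ) = 𝓕 f ((t : ℂ) * a0) := fun t => by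
    rw [Real.fourier_comp_linearIsometry, hA, mul_comm]
  have h2 := ht2_slice (g := f ∘ A) (hf.continuous.comp A.continuous) (R := R)
    (fun x hx => by
      have := hR (A x) hx
      rwa [A.norm_map] at this)
    (by simp only [h1]; exact hS a0 ha0')
  simp only [h1] at h2
  have h3 : ∫ t : ℝ, 𝓕 f ((t : ℂ) * a) = ‖a‖⁻¹ • ∫ t : ℝ, 𝓕 f ((t : ℂ) * a0) := by
    have h4 := Measure.integral_comp_mul_right (fun t : ℝ => 𝓕 f ((t : ℂ) * a0)) ‖a‖
    rw [abs_of_nonneg (inv_nonneg.2 (norm_nonneg a))] at h4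
    rw [← h4]
    refine integral_congr_ae (Eventually.of_forall fun t => ?_)
    show 𝓕 f ((t : ℂ) * a) = 𝓕 f (((t * ‖a‖ : ℝ) : ℂ) * a0)
    congr 1
    conv_lhs => rw [haa]
    push_cast
    ring
  rw [h3, h2, Complex.real_smul, Complex.ofReal_inv]
  congr 1
  refine integral_congr_ae (Eventually.of_forall fun y => ?_)
  show f (A ((y : ℂ) * Complex.I)) = f ((y : ℂ) * (Complex.I * a0))
  rw [hA]
  congr 1
  ring

theorem ht2_R {w : ℂ → ZMod N × ZMod N → ℂ} (hw : TW w) :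
    ∃ R : ℝ, ∀ (v : ZMod N × ZMod N) x, w x v ≠ 0 → ‖x‖ ≤ R := by
  obtain ⟨r, R, _, h⟩ := hw.supp
  exact ⟨R, fun v x hx => (h x v hx).2⟩

theorem ht2_zero {w : ℂ → ZMod N × ZMod N → ℂ} (hw : TW w) (v : ZMod N × ZMod N) :
    w 0 v = 0 := by
  obtain ⟨r, R, hr, h⟩ := hw.supp
  by_contra hc
  have := (h 0 v hc).1
  rw [norm_zero] at this
  linarith

/-- `hat` as a combination of Fourier transforms -/
theorem ht2_hat [NeZero N] (w : ℂ → ZMod N × ZMod N → ℂ) (η : ℂ) (u : ZMod N × ZMod N) :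
    hat w η u = ((N : ℂ) ^ 2)⁻¹ * ∑ v : ZMod N × ZMod N, (ZMod.stdAddChar (sy v u) : ℂ) *
      𝓕 (fun ξ => w ξ v) (-Complex.I / N * η) := by
  unfold hat
  congr 1
  refine Finset.sum_congr rfl fun v _ => ?_
  congr 1
  rw [Real.fourier_eq']
  refine integral_congr_ae (Eventually.of_forall fun ξ => ?_)
  simp only [smul_eq_mul]
  rw [mul_comm]
  congr 2
  rw [Complex.inner]
  have h : (-Complex.I / N * η * conj ξ).re = (conj ξ * η).im / N := by
    have : -Complex.I / N * η * conj ξ = (-Complex.I * (conj ξ * η)) / ((N : ℝ) : ℂ) := by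
      push_cast
      ring
    rw [this, Complex.div_ofReal_re]
    simp
  rw [h]
  push_cast
  ring

theorem hat_line [NeZero N] {w : ℂ → ZMod N × ZMod N → ℂ} (hw : TW w) (u : ZMod N × ZMod N)
    {e : ℂ} (he : e ≠ 0) : ∫ t : ℝ, hat w (t * e) u = 0 := by
  obtain ⟨R, hR⟩ := ht2_R hw
  have hN : (N : ℂ) ≠ 0 := Nat.cast_ne_zero.2 (NeZero.ne N)
  have ha : -Complex.I / N * e ≠ 0 :=
    mul_ne_zero (div_ne_zero (neg_ne_zero.2 Complex.I_ne_zero) hN) he
  have h1 : ∀ t : ℝ, hat w (t * e) u = ((N : ℂ) ^ 2)⁻¹ * ∑ v : ZMod N × ZMod N,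
      (ZMod.stdAddChar (sy v u) : ℂ) * 𝓕 (fun ξ => w ξ v) ((t : ℂ) * (-Complex.I / N * e)) :=
    fun t => by
      rw [ht2_hat]
      congr 1
      refine Finset.sum_congr rfl fun v _ => ?_
      congr 2
      ring
  simp only [h1]
  rw [integral_const_mul, integral_finsetSum]
  · rw [Finset.sum_eq_zero, mul_zero]
    intro v _
    rw [integral_const_mul, (ht2_line (hw.smooth v) (hR v) ha).2]
    set b : ℂ := Complex.I * (-Complex.I / N * e / ‖-Complex.I / N * e‖) with hb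
    have hbn : ‖b‖ = 1 := by
      rw [hb, norm_mul, Complex.norm_I, one_mul, norm_div, Complex.norm_real, norm_norm,
        div_self (norm_ne_zero_iff.2 ha)]
    have hc : Continuous (fun y : ℝ => w ((y : ℂ) * b) v) :=
      (hw.smooth v).continuous.comp (by fun_prop)
    have hcs : HasCompactSupport (fun y : ℝ => w ((y : ℂ) * b) v) := by
      refine HasCompactSupport.of_support_subset_isCompact (isCompact_closedBall (0 : ℝ) R) ?_
      intro y hy
      have := hR v _ (Function.mem_support.1 hy)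
      rw [norm_mul, hbn, mul_one, Complex.norm_real] at this
      rw [Metric.mem_closedBall, dist_zero_right]
      exact this
    have hi : Integrable (fun y : ℝ => w ((y : ℂ) * b) v) :=
      hc.integrable_of_hasCompactSupport hcs
    have h2 : ∫ y : ℝ, w ((y : ℂ) * b) v = 0 := by
      rw [← intervalIntegral.integral_Iic_add_Ioi (b := 0) hi.integrableOn hi.integrableOn,
        hw.rad b v hbn, add_zero]
      have h3 := integral_comp_neg_Iic (0 : ℝ) (fun y : ℝ => w ((y : ℂ) * (-b)) v)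
      rw [neg_zero, hw.rad (-b) v (by rw [norm_neg, hbn])] at h3
      rw [← h3]
      refine integral_congr_ae (Eventually.of_forall fun y => ?_)
      show w ((y : ℂ) * b) v = w (((-y : ℝ) : ℂ) * (-b)) v
      congr 1
      push_cast
      ring
    rw [h2, mul_zero, mul_zero]
  · intro v _
    exact (ht2_line (hw.smooth v) (hR v) ha).1.const_mul _

theorem ht2_tot [NeZero N] {f : ℂ → ℂ} (hf : ContDiff ℝ ∞ f) {R : ℝ}
    (hR : ∀ x, f x ≠ 0 → ‖x‖ ≤ R) (h0 : f 0 = 0) :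
    Integrable (fun η : ℂ => 𝓕 f (-Complex.I / N * η)) ∧
      ∫ η : ℂ, 𝓕 f (-Complex.I / N * η) = 0 := by
  have hN : (N : ℝ) ≠ 0 := Nat.cast_ne_zero.2 (NeZero.ne N)
  have hi : Integrable (𝓕 f) := (𝓕 (ht2S hf hR)).integrable
  have hfi : Integrable f := (ht2S hf hR).integrable
  have hn : ‖(-Complex.I : ℂ)‖ = 1 := by simp
  let A : ℂ ≃ₗᵢ[ℝ] ℂ := rotation ⟨-Complex.I, mem_sphere_zero_iff_norm.2 hn⟩
  have hA : ∀ z, A z = -Complex.I * z := fun z => rfl
  have h1 : ∀ η : ℂ, 𝓕 f (-Complex.I / N * η) = (𝓕 f ∘ A) ((N : ℝ)⁻¹ • η) := fun η => by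
    rw [Function.comp_apply, hA]
    congr 1
    rw [Complex.real_smul]
    push_cast
    ring
  have h2 : Integrable (𝓕 f ∘ A) := by
    rw [A.measurePreserving.integrable_comp_emb A.toHomeomorph.measurableEmbedding]
    exact hi
  simp only [h1]
  refine ⟨h2.comp_smul (inv_ne_zero hN), ?_⟩
  rw [Measure.integral_comp_smul]
  have h3 : ∫ η : ℂ, (𝓕 f ∘ A) η = ∫ η : ℂ, 𝓕 f η :=
    A.measurePreserving.integral_comp A.toHomeomorph.measurableEmbedding _
  have h4 := hfi.fourierInv_fourier_eq hi (hf.continuous.continuousAt (x := 0))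
  rw [Real.fourierInv_eq', h0] at h4
  simp only [inner_zero_right, mul_zero, ofReal_zero, zero_mul, Complex.exp_zero, one_smul] at h4
  rw [h3, h4, smul_zero]

/-- the total integral vanishes (it is the value of `w` at `0`) -/
theorem hat_total [NeZero N] {w : ℂ → ZMod N × ZMod N → ℂ} (hw : TW w)
    (u : ZMod N × ZMod N) :
    Integrable (fun η => hat w η u) ∧ ∫ η : ℂ, hat w η u = 0 := by
  obtain ⟨R, hR⟩ := ht2_R hw
  have h := fun v => ht2_tot (N := N) (hw.smooth v) (hR v) (ht2_zero hw v)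
  simp only [ht2_hat]
  constructor
  · exact (integrable_finsetSum _ fun v _ => (h v).1.const_mul _).const_mul _
  · rw [integral_const_mul, integral_finsetSum]
    · rw [Finset.sum_eq_zero, mul_zero]
      intro v _
      rw [integral_const_mul, (h v).2, mul_zero]
    · intro v _
      exact (h v).1.const_mul _

end Pool.Agent.JO
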