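import Pool.Agent.Lib_helper63.JO.Defs2
import Pool.Agent.Lib_helper63.JOE.HT1
import Pool.Agent.Lib_helper63.JOE.HT2
/-!
# Block ZB1: the function `Z(w)` is bounded
-/

namespace Pool.Agent.JO

open Complex MeasureTheory Filter Topology UpperHalfPlane ModularGroup
open scoped MatrixGroups Modular ENNReal ComplexConjugate ContDiff

variable {N : ℕ}

/-- Riemann sums: `|∑ g(n)| ≤ ∫ |g'|` if `∫ g = 0` -/
theorem zb1_riemann {g : ℝ → ℂ} (hg : ContDiff ℝ 1 g) (hi : Integrable g)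
    (hi' : Integrable (deriv g)) (h0 : ∫ t, g t = 0) :
    Summable (fun n : ℤ => g n) ∧ ‖∑' n : ℤ, g n‖ ≤ ∫ t, ‖deriv g t‖ := by
  have H1 := hi.hasSum_intervalIntegral 0
  have H2 := hi'.norm.hasSum_intervalIntegral 0
  rw [h0] at H1
  have hd : Differentiable ℝ g := hg.differentiable (by norm_num)
  have hc : Continuous (deriv g) := hg.continuous_deriv (by norm_num)
  have key : ∀ n : ℤ, ‖g n - ∫ x in (0 : ℝ) + n..0 + n + 1, g x‖ ≤
      ∫ x in (0 : ℝ) + n..0 + n + 1, ‖deriv g x‖ := by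
    intro n
    rw [zero_add]
    have e1 : g n = ∫ x in (n : ℝ)..n + 1, g n := by simp
    have e2 : g n - ∫ x in (n : ℝ)..n + 1, g x = ∫ x in (n : ℝ)..n + 1, (g n - g x) := by
      rw [intervalIntegral.integral_sub (by simp) (hg.continuous.intervalIntegrable _ _), ← e1]
    rw [e2]
    have h3 : ∀ x ∈ Set.uIoc (n : ℝ) (n + 1), ‖g n - g x‖ ≤ ∫ x in (n : ℝ)..n + 1, ‖deriv g x‖ := by
      intro x hx
      rw [Set.uIoc_of_le (by linarith)] at hx
      have e3 : g x - g n = ∫ t in (n : ℝ)..x, deriv g t := by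
        rw [intervalIntegral.integral_deriv_eq_sub (fun t _ => hd t) (hc.intervalIntegrable _ _)]
      rw [norm_sub_rev, e3]
      refine (intervalIntegral.norm_integral_le_integral_norm hx.1.le).trans ?_
      exact intervalIntegral.integral_mono_interval le_rfl hx.1.le hx.2
        (ae_of_all _ fun _ => norm_nonneg _) (hc.norm.intervalIntegrable _ _)
    refine (intervalIntegral.norm_integral_le_of_norm_le_const h3).trans (le_of_eq ?_)
    simp
  have S1 : Summable (fun n : ℤ => g n - ∫ x in (0 : ℝ) + n..0 + n + 1, g x) :=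
    Summable.of_norm_bounded H2.summable key
  have S2 : Summable (fun n : ℤ => g n) := by
    have := S1.add H1.summable
    simpa using this
  refine ⟨S2, ?_⟩
  have e4 : ∑' n : ℤ, g n = ∑' n : ℤ, (g n - ∫ x in (0 : ℝ) + n..0 + n + 1, g x) := by
    rw [S2.tsum_sub H1.summable, H1.tsum_eq, sub_zero]
  rw [e4]
  exact tsum_of_norm_bounded H2 key

/-- the properties used -/
def zb1_Nice [NeZero N] (W : ℂ → ZMod N × ZMod N → ℂ) : Prop :=
  (∀ u, ContDiff ℝ 1 (fun η => W η u)) ∧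
  (∀ A : ℕ, ∃ C : ℝ, ∀ η u, ‖W η u‖ ≤ C * (1 + ‖η‖) ^ (-(A : ℝ)) ∧
      ‖fderiv ℝ (fun η => W η u) η‖ ≤ C * (1 + ‖η‖) ^ (-(A : ℝ))) ∧
  ∀ u (e : ℂ), e ≠ 0 → ∫ t : ℝ, W (t * e) u = 0

theorem zb1_line [NeZero N] {W : ℂ → ZMod N × ZMod N → ℂ} (hW : zb1_Nice W) {C : ℝ}
    (hC : ∀ η u, ‖W η u‖ ≤ C * (1 + ‖η‖) ^ (-((2 : ℕ) : ℝ)) ∧
      ‖fderiv ℝ (fun η => W η u) η‖ ≤ C * (1 + ‖η‖) ^ (-((2 : ℕ) : ℝ)))
    (u : ZMod N × ZMod N) {e : ℂ} (he : e ≠ 0) :
    ContDiff ℝ 1 (fun t : ℝ => W (t * e) u) ∧ Integrable (fun t : ℝ => W (t * e) u) ∧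
      Integrable (deriv (fun t : ℝ => W (t * e) u)) ∧
      ∫ t, ‖deriv (fun t : ℝ => W (t * e) u) t‖ ≤
        C * ∫ t : ℝ, (1 + ‖t‖) ^ (-((2 : ℕ) : ℝ)) := by
  have h1 := hW.1 u
  have hl : ContDiff ℝ 1 (fun t : ℝ => (t : ℂ) * e) :=
    (Complex.ofRealCLM.contDiff).mul contDiff_const
  have h2 : ContDiff ℝ 1 (fun t : ℝ => W (t * e) u) := h1.comp hl
  have hK : Integrable (fun t : ℝ => (1 + ‖t‖) ^ (-((2 : ℕ) : ℝ))) :=
    integrable_one_add_norm (by simp)
  have hne : ‖e‖ ≠ 0 := norm_ne_zero_iff.2 he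
  have hK' : Integrable (fun t : ℝ => (1 + ‖t * ‖e‖‖) ^ (-((2 : ℕ) : ℝ))) :=
    hK.comp_mul_right' hne
  have hn : ∀ t : ℝ, ‖(t : ℂ) * e‖ = ‖t * ‖e‖‖ := by
    intro t
    rw [norm_mul, norm_mul, norm_norm, Complex.norm_real]
  have hd : ∀ t : ℝ, deriv (fun t : ℝ => W (t * e) u) t = fderiv ℝ (fun η => W η u) (t * e) e := by
    intro t
    have h3 : HasDerivAt (fun t : ℝ => (t : ℂ) * e) e t := by
      simpa using (Complex.ofRealCLM.hasDerivAt (x := t)).mul_const e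
    have h4 : HasFDerivAt (fun η => W η u) (fderiv ℝ (fun η => W η u) (t * e)) ((t : ℂ) * e) :=
      ((h1.differentiable (by norm_num)) _).hasFDerivAt
    exact (h4.comp_hasDerivAt t h3).deriv
  have hb : ∀ t : ℝ, ‖deriv (fun t : ℝ => W (t * e) u) t‖ ≤
      C * ‖e‖ * (1 + ‖t * ‖e‖‖) ^ (-((2 : ℕ) : ℝ)) := by
    intro t
    rw [hd]
    refine (ContinuousLinearMap.le_opNorm _ _).trans ?_
    have := (hC ((t : ℂ) * e) u).2
    rw [hn] at this
    calc _ ≤ C * (1 + ‖t * ‖e‖‖) ^ (-((2 : ℕ) : ℝ)) * ‖e‖ :=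
          mul_le_mul_of_nonneg_right this (norm_nonneg _)
      _ = _ := by ring
  have hi2 : Integrable (deriv (fun t : ℝ => W (t * e) u)) :=
    (hK'.const_mul (C * ‖e‖)).mono' (h2.continuous_deriv (by norm_num)).aestronglyMeasurable
      (ae_of_all _ hb)
  refine ⟨h2, ?_, hi2, ?_⟩
  · refine (hK'.const_mul C).mono' h2.continuous.aestronglyMeasurable (ae_of_all _ fun t => ?_)
    have := (hC ((t : ℂ) * e) u).1
    rwa [hn] at this
  · calc ∫ t, ‖deriv (fun t : ℝ => W (t * e) u) t‖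
        ≤ ∫ t : ℝ, C * ‖e‖ * (1 + ‖t * ‖e‖‖) ^ (-((2 : ℕ) : ℝ)) :=
          integral_mono hi2.norm (hK'.const_mul _) hb
      _ = C * ∫ t : ℝ, (1 + ‖t‖) ^ (-((2 : ℕ) : ℝ)) := by
          rw [integral_const_mul,
            Measure.integral_comp_mul_right (fun t : ℝ => (1 + ‖t‖) ^ (-((2 : ℕ) : ℝ))) ‖e‖,
            abs_inv, abs_norm, smul_eq_mul]
          field_simp

/-- the decay of the terms -/
theorem zb1_term [NeZero N] {W : ℂ → ZMod N × ZMod N → ℂ} {A : ℕ} {C : ℝ}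
    (hC : ∀ η u, ‖W η u‖ ≤ C * (1 + ‖η‖) ^ (-((A + 2 : ℕ) : ℝ)))
    (x : ℂ) (hx : x ≠ 0) (v : ZMod N × ZMod N) (m : ℤ) :
    ‖if m = 0 then 0 else W (m * x) (m * v.1, m * v.2)‖ ≤
      C * (1 + ‖x‖) ^ (-(A : ℝ)) * (‖x‖ ^ 2)⁻¹ * (1 / (m : ℝ) ^ 2) := by
  have hC0 : 0 ≤ C := by
    have := (norm_nonneg _).trans (hC 0 0)
    simpa using this
  have hx0 : 0 < ‖x‖ := norm_pos_iff.2 hx
  by_cases hm : m = 0
  · simp [hm]
  · rw [if_neg hm]
    refine (hC _ _).trans ?_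
    have hm1 : (1 : ℝ) ≤ |(m : ℝ)| := by
      rw [← Int.cast_abs]
      exact_mod_cast Int.one_le_abs hm
    have hn : ‖(m : ℂ) * x‖ = |(m : ℝ)| * ‖x‖ := by
      rw [norm_mul, Complex.norm_intCast]
    have hle : ‖x‖ ≤ |(m : ℝ)| * ‖x‖ := by nlinarith
    rw [hn, Real.rpow_neg (by positivity), Real.rpow_natCast, Real.rpow_neg (by positivity),
      Real.rpow_natCast, pow_add, mul_inv, mul_assoc, mul_assoc]
    refine mul_le_mul_of_nonneg_left ?_ hC0
    refine mul_le_mul ?_ ?_ (by positivity) (by positivity)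
    · apply inv_anti₀ (by positivity)
      apply pow_le_pow_left₀ (by positivity)
      linarith
    · rw [one_div, ← mul_inv, ← mul_pow, ← sq_abs (‖x‖ * (m : ℝ)), abs_mul, abs_norm]
      apply inv_anti₀ (by positivity)
      apply pow_le_pow_left₀ (by positivity)
      nlinarith

/-- the sum over all `m` -/
theorem zb1_sum [NeZero N] {W : ℂ → ZMod N × ZMod N → ℂ} (hW : zb1_Nice W) {C : ℝ}
    (hC : ∀ η u, ‖W η u‖ ≤ C * (1 + ‖η‖) ^ (-((2 : ℕ) : ℝ)) ∧
      ‖fderiv ℝ (fun η => W η u) η‖ ≤ C * (1 + ‖η‖) ^ (-((2 : ℕ) : ℝ)))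
    {x : ℂ} (hx : x ≠ 0) (v : ZMod N × ZMod N) :
    Summable (fun m : ℤ => W (m * x) (m * v.1, m * v.2)) ∧
    ‖∑' m : ℤ, W (m * x) (m * v.1, m * v.2)‖ ≤
      N * (C * ∫ t : ℝ, (1 + ‖t‖) ^ (-((2 : ℕ) : ℝ))) := by
  have hN : (N : ℂ) ≠ 0 := Nat.cast_ne_zero.2 (NeZero.ne N)
  have S : Summable (fun m : ℤ => W (m * x) (m * v.1, m * v.2)) := by
    have h1 : Summable (fun m : ℤ => C * (1 + ‖x‖) ^ (-((0 : ℕ) : ℝ)) * (‖x‖ ^ 2)⁻¹ *
        (1 / (m : ℝ) ^ 2)) :=
      (Real.summable_one_div_int_pow.2 (by norm_num)).mul_left _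
    refine Summable.of_norm_bounded_eventually h1 ?_
    have h2 : ∀ᶠ m : ℤ in cofinite, m ≠ 0 := by
      rw [Filter.eventually_cofinite]
      refine (Set.finite_singleton (0 : ℤ)).subset fun m hm => ?_
      simpa using hm
    filter_upwards [h2] with m hm
    have := zb1_term (A := 0) (fun η u => (hC η u).1) x hx v m
    rwa [if_neg hm] at this
  refine ⟨S, ?_⟩
  let e : Fin N × ℤ ≃ ℤ := (Equiv.prodComm _ _).trans (Int.divModEquiv N).symm
  have he : ∀ p : Fin N × ℤ, e p = p.2 * N + p.1 := by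
    intro p
    simp [e, Int.divModEquiv]
  have S' : Summable (fun p : Fin N × ℤ => W ((e p : ℤ) * x) ((e p : ℤ) * v.1, (e p : ℤ) * v.2)) :=
    S.comp_injective e.injective
  rw [← e.tsum_eq (fun m : ℤ => W (m * x) (m * v.1, m * v.2)), S'.tsum_prod, tsum_fintype]
  have key : ∀ c : Fin N, ‖∑' k : ℤ, W ((e (c, k) : ℤ) * x) ((e (c, k) : ℤ) * v.1,
      (e (c, k) : ℤ) * v.2)‖ ≤ C * ∫ t : ℝ, (1 + ‖t‖) ^ (-((2 : ℕ) : ℝ)) := by
    intro c
    have hne : (N : ℂ) * x ≠ 0 := mul_ne_zero hN hx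
    obtain ⟨g1, g2, g3, g4⟩ := zb1_line hW hC ((c : ℕ) * v.1, (c : ℕ) * v.2) hne
    set G : ℝ → ℂ := fun t : ℝ => W (t * (N * x)) ((c : ℕ) * v.1, (c : ℕ) * v.2) with hG
    have r := zb1_riemann (g := fun t => G (t + (c : ℕ) / N))
      (g1.comp (contDiff_id.add contDiff_const)) (g2.comp_add_right _)
      (by
        have : deriv (fun t => G (t + (c : ℕ) / N)) = fun t => deriv G (t + (c : ℕ) / N) := by
          ext t
          exact deriv_comp_add_const _ _ _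
        rw [this]
        exact g3.comp_add_right _)
      (by
        rw [integral_add_right_eq_self (fun t => G t)]
        exact hW.2.2 _ _ hne)
    have e1 : ∀ k : ℤ, W ((e (c, k) : ℤ) * x) ((e (c, k) : ℤ) * v.1, (e (c, k) : ℤ) * v.2) =
        G (k + (c : ℕ) / N) := by
      intro k
      rw [hG]
      simp only [he]
      congr 1
      · push_cast
        field_simp
      · push_cast
        simp
    simp_rw [e1]
    refine r.2.trans ?_
    have : ∀ t, deriv (fun t => G (t + (c : ℕ) / N)) t = deriv G (t + (c : ℕ) / N) := by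
      intro t
      exact deriv_comp_add_const _ _ _
    simp_rw [this]
    rw [integral_add_right_eq_self (fun t => ‖deriv G t‖)]
    exact g4
  refine (norm_sum_le _ _).trans ((Finset.sum_le_sum fun c _ => key c).trans ?_)
  simp

/-- boundedness near zero -/
theorem zb1_bdd [NeZero N] {W : ℂ → ZMod N × ZMod N → ℂ} (hW : zb1_Nice W) :
    ∃ C : ℝ, ∀ x v, x ≠ 0 → ‖ZZ W x v‖ ≤ C := by
  obtain ⟨C, hC⟩ := hW.2.1 2
  refine ⟨N * (C * ∫ t : ℝ, (1 + ‖t‖) ^ (-((2 : ℕ) : ℝ))) + C, fun x v hx => ?_⟩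
  obtain ⟨S, hS⟩ := zb1_sum hW hC hx v
  have e1 := S.tsum_eq_add_tsum_ite 0
  have e2 : ZZ W x v = ∑' m : ℤ, W (m * x) (m * v.1, m * v.2) - W 0 (0, 0) := by
    rw [e1, ZZ]
    simp
  rw [e2]
  refine (norm_sub_le _ _).trans (add_le_add hS ?_)
  simpa using (hC 0 (0, 0)).1

theorem zb1_nice_hat [NeZero N] {w : ℂ → ZMod N × ZMod N → ℂ} (hw : TW w) : zb1_Nice (hat w) :=
  ⟨hat_cont hw, hat_decay hw, fun u _ he => hat_line hw u he⟩

theorem ZZ_hat_bdd [NeZero N] {w : ℂ → ZMod N × ZMod N → ℂ} (hw : TW w) (A : ℕ) :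
    ∃ C : ℝ, ∀ x v, x ≠ 0 → ‖ZZ (hat w) x v‖ ≤ C * (1 + ‖x‖) ^ (-(A : ℝ)) := by
  obtain ⟨C0, h0⟩ := zb1_bdd (zb1_nice_hat hw)
  obtain ⟨C1, h1⟩ := (zb1_nice_hat hw).2.1 (A + 2)
  set K : ℝ := ∑' m : ℤ, 1 / (m : ℝ) ^ 2 with hK
  have hS : Summable (fun m : ℤ => 1 / (m : ℝ) ^ 2) :=
    Real.summable_one_div_int_pow.2 (by norm_num)
  have hK0 : 0 ≤ K := tsum_nonneg fun m => by positivity
  have hC1 : 0 ≤ C1 := by
    have := (norm_nonneg _).trans (h1 0 0).1
    simpa using this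
  refine ⟨max C0 0 * 2 ^ A + C1 * K, fun x v hx => ?_⟩
  have hx0 : 0 < ‖x‖ := norm_pos_iff.2 hx
  have hp : 0 < (1 + ‖x‖) ^ (-(A : ℝ)) := Real.rpow_pos_of_pos (by positivity) _
  rcases le_or_gt ‖x‖ 1 with h | h
  · have h2 : (1 : ℝ) ≤ 2 ^ A * (1 + ‖x‖) ^ (-(A : ℝ)) := by
      rw [Real.rpow_neg (by positivity), Real.rpow_natCast, ← div_eq_mul_inv,
        one_le_div (by positivity)]
      exact pow_le_pow_left₀ (by positivity) (by linarith) _
    calc ‖ZZ (hat w) x v‖ ≤ C0 := h0 x v hx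
      _ ≤ max C0 0 := le_max_left _ _
      _ ≤ max C0 0 * (2 ^ A * (1 + ‖x‖) ^ (-(A : ℝ))) := le_mul_of_one_le_right (le_max_right _ _) h2
      _ ≤ (max C0 0 * 2 ^ A + C1 * K) * (1 + ‖x‖) ^ (-(A : ℝ)) := by
          rw [add_mul, mul_assoc]
          have : 0 ≤ C1 * K * (1 + ‖x‖) ^ (-(A : ℝ)) := by positivity
          linarith
  · have h3 : ‖ZZ (hat w) x v‖ ≤ C1 * (1 + ‖x‖) ^ (-(A : ℝ)) * (‖x‖ ^ 2)⁻¹ * K := by
      rw [ZZ]
      refine tsum_of_norm_bounded (hS.hasSum.mul_left _) ?_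
      exact zb1_term (fun η u => (h1 η u).1) x hx v
    refine h3.trans ?_
    have h4 : (‖x‖ ^ 2)⁻¹ ≤ 1 := by
      apply inv_le_one_of_one_le₀
      exact one_le_pow₀ h.le
    calc C1 * (1 + ‖x‖) ^ (-(A : ℝ)) * (‖x‖ ^ 2)⁻¹ * K
        ≤ C1 * (1 + ‖x‖) ^ (-(A : ℝ)) * 1 * K := by gcongr
      _ ≤ (max C0 0 * 2 ^ A + C1 * K) * (1 + ‖x‖) ^ (-(A : ℝ)) := by
          have : 0 ≤ max C0 0 * 2 ^ A * (1 + ‖x‖) ^ (-(A : ℝ)) := by positivity
          nlinarith

theorem zb1_nice_w [NeZero N] {w : ℂ → ZMod N × ZMod N → ℂ} (hw : TW w) : zb1_Nice w := by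
  obtain ⟨r, R, hr, hR⟩ := hw.supp
  have h1 : ∀ u, ContDiff ℝ 1 (fun η => w η u) := fun u => (hw.smooth u).of_le (by exact_mod_cast le_top)
  have hcs : ∀ u, HasCompactSupport (fun η => w η u) := by
    intro u
    refine HasCompactSupport.of_support_subset_isCompact (isCompact_closedBall (0 : ℂ) R) ?_
    intro η hη
    rw [mem_closedBall_zero_iff]
    exact (hR η u hη).2
  refine ⟨h1, fun A => ?_, fun u e he => ?_⟩
  · have hu : ∀ u : ZMod N × ZMod N, ∃ C : ℝ, 0 ≤ C ∧ ∀ η, ‖w η u‖ ≤ C * (1 + ‖η‖) ^ (-(A : ℝ)) ∧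
        ‖fderiv ℝ (fun η => w η u) η‖ ≤ C * (1 + ‖η‖) ^ (-(A : ℝ)) := by
      intro u
      have hcont : Continuous (fun η => (1 + ‖η‖) ^ (A : ℝ) * ‖w η u‖) := by
        refine Continuous.mul ?_ (h1 u).continuous.norm
        exact (continuous_const.add continuous_norm).rpow_const (fun _ => Or.inr (by positivity))
      have hcont' : Continuous (fun η => (1 + ‖η‖) ^ (A : ℝ) *
          ‖fderiv ℝ (fun η => w η u) η‖) := by
        refine Continuous.mul ?_ ((h1 u).continuous_fderiv (by norm_num)).norm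
        exact (continuous_const.add continuous_norm).rpow_const (fun _ => Or.inr (by positivity))
      have c1 : HasCompactSupport (fun η => (1 + ‖η‖) ^ (A : ℝ) * ‖w η u‖) :=
        (hcs u).norm.mul_left
      have c2 : HasCompactSupport (fun η => (1 + ‖η‖) ^ (A : ℝ) *
          ‖fderiv ℝ (fun η => w η u) η‖) := ((hcs u).fderiv (𝕜 := ℝ)).norm.mul_left
      obtain ⟨C1, hC1⟩ := c1.exists_bound_of_continuous hcont
      obtain ⟨C2, hC2⟩ := c2.exists_bound_of_continuous hcont'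
      refine ⟨max (max C1 C2) 0, le_max_right _ _, fun η => ?_⟩
      have hp : 0 < (1 + ‖η‖) ^ (A : ℝ) := Real.rpow_pos_of_pos (by positivity) _
      have d1 := hC1 η
      have d2 := hC2 η
      rw [norm_mul, norm_norm, Real.norm_of_nonneg hp.le] at d1 d2
      rw [Real.rpow_neg (by positivity), ← div_eq_mul_inv, le_div_iff₀ hp, le_div_iff₀ hp]
      have m1 : C1 ≤ max (max C1 C2) 0 := (le_max_left _ _).trans (le_max_left _ _)
      have m2 : C2 ≤ max (max C1 C2) 0 := (le_max_right _ _).trans (le_max_left _ _)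
      constructor <;> linarith
    choose C hC0 hC using hu
    refine ⟨∑ u, C u, fun η u => ?_⟩
    have hle : C u ≤ ∑ u, C u := Finset.single_le_sum (f := C) (fun i _ => hC0 i) (Finset.mem_univ u)
    have hp : 0 ≤ (1 + ‖η‖) ^ (-(A : ℝ)) := Real.rpow_nonneg (by positivity) _
    exact ⟨(hC u η).1.trans (mul_le_mul_of_nonneg_right hle hp),
      (hC u η).2.trans (mul_le_mul_of_nonneg_right hle hp)⟩
  · have hne : 0 < ‖e‖ := norm_pos_iff.2 he
    have half : ∀ e' : ℂ, ‖e'‖ = ‖e‖ → ∫ t in Set.Ioi (0 : ℝ), w (t * e') u = 0 := by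
      intro e' he'
      have h2 := hw.rad (e' / ‖e‖) u (by
        rw [norm_div, he', Complex.norm_real, norm_norm, div_self hne.ne'])
      have h3 := integral_comp_mul_right_Ioi (fun t : ℝ => w (t * (e' / ‖e‖)) u) 0 hne
      rw [zero_mul, h2, smul_zero] at h3
      rw [← h3]
      refine setIntegral_congr_fun measurableSet_Ioi fun t _ => ?_
      congr 1
      have : (‖e‖ : ℂ) ≠ 0 := by exact_mod_cast hne.ne'
      push_cast
      field_simp
    have hint : Integrable (fun t : ℝ => w (t * e) u) := by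
      have hcl : Continuous (fun t : ℝ => w (t * e) u) :=
        (h1 u).continuous.comp (by fun_prop)
      refine hcl.integrable_of_hasCompactSupport ?_
      refine HasCompactSupport.of_support_subset_isCompact
        (isCompact_closedBall (0 : ℝ) (R / ‖e‖)) ?_
      intro t ht
      have := (hR _ _ ht).2
      rw [mem_closedBall_zero_iff, le_div_iff₀ hne]
      rwa [norm_mul, Complex.norm_real] at this
    rw [← integral_add_compl (measurableSet_Ioi (a := (0 : ℝ))) hint, half e rfl, zero_add,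
      Set.compl_Ioi]
    have h5 := integral_comp_neg_Ioi (0 : ℝ) (fun t : ℝ => w (t * e) u)
    rw [neg_zero] at h5
    rw [← h5, ← half (-e) (norm_neg e)]
    refine setIntegral_congr_fun measurableSet_Ioi fun t _ => ?_
    simp

theorem ZZ_bdd [NeZero N] {w : ℂ → ZMod N × ZMod N → ℂ} (hw : TW w) :
    ∃ C R : ℝ, (∀ x v, ‖ZZ w x v‖ ≤ C) ∧ ∀ x v, R < ‖x‖ → ZZ w x v = 0 := by
  obtain ⟨r, R, hr, hR⟩ := hw.supp
  obtain ⟨C, hC⟩ := zb1_bdd (zb1_nice_w hw)
  have h0 : ∀ v, w 0 v = 0 := by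
    intro v
    by_contra h
    have := (hR 0 v h).1
    rw [norm_zero] at this
    linarith
  refine ⟨max C 0, max R 0, fun x v => ?_, fun x v hx => ?_⟩
  · by_cases hx : x = 0
    · have : ZZ w x v = 0 := by
        rw [ZZ]
        simp [hx, h0]
      rw [this, norm_zero]
      exact le_max_right _ _
    · exact (hC x v hx).trans (le_max_left _ _)
  · rw [ZZ]
    have : ∀ m : ℤ, (if m = 0 then 0 else w (m * x) (m * v.1, m * v.2)) = 0 := by
      intro m
      by_cases hm : m = 0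
      · simp [hm]
      · rw [if_neg hm]
        by_contra h
        have h2 := (hR _ _ h).2
        rw [norm_mul, Complex.norm_intCast] at h2
        have hm1 : (1 : ℝ) ≤ |(m : ℝ)| := by
          rw [← Int.cast_abs]
          exact_mod_cast Int.one_le_abs hm
        have h3 : ‖x‖ ≤ |(m : ℝ)| * ‖x‖ := by nlinarith [norm_nonneg x]
        have h4 := le_max_left R 0
        linarith
    simp_rw [this]
    exact tsum_zero

end Pool.Agent.JO
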