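import Pool.Agent.Lib_helper63.JO.Defs2
import Pool.Agent.Lib_helper63.JOE.HT1
import Pool.Agent.Lib_helper63.JOE.HT2
import Pool.Agent.Lib_helper63.JOE.ZB1
/-!
# JOE block ZB2: integrability, parity, linearity and total integral of `ZZ`
-/

namespace Pool.Agent.JO

open Complex MeasureTheory Filter Topology UpperHalfPlane ModularGroup
open scoped MatrixGroups Modular ENNReal ComplexConjugate ContDiff

variable {N : ℕ}

theorem zb2_zero {w : ℂ → ZMod N × ZMod N → ℂ} (hw : TW w) (v : ZMod N × ZMod N) :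
    w 0 v = 0 := by
  obtain ⟨r, R, hr, h⟩ := hw.supp
  by_contra hc
  have := (h 0 v hc).1
  rw [norm_zero] at this
  linarith

/-- the terms of `ZZ` -/
noncomputable def zb2T (w : ℂ → ZMod N × ZMod N → ℂ) (x : ℂ) (v : ZMod N × ZMod N) (m : ℤ) : ℂ :=
  if m = 0 then 0 else w (m * x) (m * v.1, m * v.2)

theorem zb2_ZZ (w : ℂ → ZMod N × ZMod N → ℂ) (x : ℂ) (v : ZMod N × ZMod N) :
    ZZ w x v = ∑' m : ℤ, zb2T w x v m := rfl

theorem zb2_summ {w : ℂ → ZMod N × ZMod N → ℂ} (hw : TW w) (x : ℂ) (v : ZMod N × ZMod N) :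
    Summable (zb2T w x v) := by
  by_cases hx : x = 0
  · have : zb2T w x v = fun _ => 0 := by
      funext m
      unfold zb2T
      split_ifs
      · rfl
      · rw [hx, mul_zero]
        exact zb2_zero hw _
    rw [this]
    exact summable_zero
  · obtain ⟨r, R, hr, h⟩ := hw.supp
    have hx' : 0 < ‖x‖ := norm_pos_iff.2 hx
    refine summable_of_ne_finset_zero (s := Finset.Icc (-⌈R / ‖x‖⌉) ⌈R / ‖x‖⌉) ?_
    intro m hm
    unfold zb2T
    split_ifs
    · rfl
    · by_contra hc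
      apply hm
      have h1 := (h _ _ hc).2
      rw [norm_mul, Complex.norm_intCast, ← le_div_iff₀ hx'] at h1
      have h2 := abs_le.1 (h1.trans (Int.le_ceil _))
      rw [Finset.mem_Icc]
      constructor
      · have := h2.1; exact_mod_cast this
      · have := h2.2; exact_mod_cast this

theorem zb2_pow (A : ℕ) (y : ℝ) (hy : 0 ≤ y) :
    (1 + y) ^ (-(A : ℝ)) = ((1 + y) ^ A)⁻¹ := by
  rw [Real.rpow_neg (by linarith), Real.rpow_natCast]

theorem zb2_bd [NeZero N] {w : ℂ → ZMod N × ZMod N → ℂ} (hw : TW w) :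
    ∃ C : ℝ, 0 ≤ C ∧ ∀ (x : ℂ) (v : ZMod N × ZMod N) (m : ℤ), x ≠ 0 →
      ‖zb2T (hat w) x v m‖ ≤ C * (‖x‖ ^ 2)⁻¹ * (1 / (m : ℝ) ^ 2) := by
  obtain ⟨C, hC⟩ := hat_decay hw 2
  refine ⟨|C|, abs_nonneg C, fun x v m hx => ?_⟩
  have hx' : 0 < ‖x‖ := norm_pos_iff.2 hx
  unfold zb2T
  split_ifs with h
  · rw [norm_zero]
    positivity
  · refine ((hC (m * x) (m * v.1, m * v.2)).1).trans ?_
    rw [zb2_pow 2 _ (norm_nonneg _), norm_mul, Complex.norm_intCast]
    have hm : (0 : ℝ) < |(m : ℝ)| := abs_pos.2 (by exact_mod_cast h)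
    have h1 : ((1 + |(m : ℝ)| * ‖x‖) ^ 2)⁻¹ ≤ (‖x‖ ^ 2)⁻¹ * (1 / (m : ℝ) ^ 2) := by
      rw [one_div, ← mul_inv, ← sq_abs (m : ℝ)]
      refine inv_anti₀ (by positivity) ?_
      nlinarith [mul_pos hm hx']
    calc C * ((1 + |(m : ℝ)| * ‖x‖) ^ 2)⁻¹ ≤ |C| * ((1 + |(m : ℝ)| * ‖x‖) ^ 2)⁻¹ :=
          mul_le_mul_of_nonneg_right (le_abs_self C) (by positivity)
      _ ≤ |C| * ((‖x‖ ^ 2)⁻¹ * (1 / (m : ℝ) ^ 2)) := mul_le_mul_of_nonneg_left h1 (abs_nonneg C)
      _ = _ := by ring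

theorem zb2_summ_hat [NeZero N] {w : ℂ → ZMod N × ZMod N → ℂ} (hw : TW w) {x : ℂ} (hx : x ≠ 0)
    (v : ZMod N × ZMod N) : Summable (zb2T (hat w) x v) := by
  obtain ⟨C, _, hC⟩ := zb2_bd hw
  refine Summable.of_norm_bounded (g := fun m : ℤ => C * (‖x‖ ^ 2)⁻¹ * (1 / (m : ℝ) ^ 2)) ?_
    fun m => hC x v m hx
  exact (Real.summable_one_div_int_pow.2 (by norm_num)).mul_left _

theorem zb2_meas {w : ℂ → ZMod N × ZMod N → ℂ} (hc : ∀ u, Continuous (fun x => w x u))
    (v : ZMod N × ZMod N) (hs : ∀ x, x ≠ 0 → Summable (zb2T w x v)) :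
    Measurable (fun x => ZZ w x v) := by
  classical
  have hm : ∀ m : ℤ, Measurable (fun x => zb2T w x v m) := fun m => by
    unfold zb2T
    split_ifs
    · exact measurable_const
    · exact ((hc _).comp (continuous_const.mul continuous_id)).measurable
  refine measurable_of_tendsto_metrizable' (u := (atTop : Filter (Finset ℤ)))
    (f := fun s x => if x = 0 then ZZ w 0 v else ∑ m ∈ s, zb2T w x v m) ?_ ?_
  · intro s
    exact Measurable.ite (measurableSet_singleton 0) measurable_const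
      (Finset.measurable_fun_sum s fun m _ => hm m)
  · rw [tendsto_pi_nhds]
    intro x
    by_cases hx : x = 0
    · simp [hx]
    · simp only [hx, if_false]
      exact (hs x hx).hasSum

theorem zb2_ball (C R : ℝ) : Integrable (fun x : ℂ => (Metric.closedBall (0 : ℂ) R).indicator
    (fun _ => C) x) :=
  (integrable_indicator_iff measurableSet_closedBall).2
    (integrableOn_const (measure_closedBall_lt_top.ne))

theorem zb2_japan (A : ℕ) (hA : 2 < A) :
    Integrable (fun x : ℂ => (1 + ‖x‖) ^ (-(A : ℝ))) := by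
  refine integrable_one_add_norm ?_
  rw [Complex.finrank_real_complex]
  exact_mod_cast hA

theorem ZZ_InL [NeZero N] {w : ℂ → ZMod N × ZMod N → ℂ} (hw : TW w) :
    InL (ZZ w) ∧ SqL (ZZ w) ∧ InL (ZZ (hat w)) ∧ SqL (ZZ (hat w)) := by
  have hm1 : ∀ v, Measurable (fun x => ZZ w x v) := fun v =>
    zb2_meas (fun u => (hw.smooth u).continuous) v fun x _ => zb2_summ hw x v
  have hm2 : ∀ v, Measurable (fun x => ZZ (hat w) x v) := fun v =>
    zb2_meas (fun u => (hat_cont hw u).continuous) v fun x hx => zb2_summ_hat hw hx v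
  obtain ⟨C, R, hC, hR⟩ := ZZ_bdd hw
  obtain ⟨D, hD⟩ := ZZ_hat_bdd hw 3
  have hb1 : ∀ v x, ‖ZZ w x v‖ ≤ (Metric.closedBall (0 : ℂ) R).indicator (fun _ => C) x := by
    intro v x
    by_cases hx : x ∈ Metric.closedBall (0 : ℂ) R
    · rw [Set.indicator_of_mem hx]
      exact hC x v
    · rw [Set.indicator_of_notMem hx]
      rw [Metric.mem_closedBall, dist_zero_right, not_le] at hx
      rw [hR x v hx, norm_zero]
  have hb1' : ∀ v x, ‖ZZ w x v‖ ^ 2 ≤
      (Metric.closedBall (0 : ℂ) R).indicator (fun _ => C ^ 2) x := by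
    intro v x
    by_cases hx : x ∈ Metric.closedBall (0 : ℂ) R
    · rw [Set.indicator_of_mem hx]
      have := hC x v
      gcongr
    · rw [Set.indicator_of_notMem hx]
      rw [Metric.mem_closedBall, dist_zero_right, not_le] at hx
      rw [hR x v hx, norm_zero]
      norm_num
  have h0 : ∀ᵐ x : ℂ, x ≠ 0 := by
    have : (volume : Measure ℂ) {(0 : ℂ)} = 0 := measure_singleton 0
    exact (measure_eq_zero_iff_ae_notMem.1 this)
  have hb2 : ∀ v, ∀ᵐ x : ℂ, ‖ZZ (hat w) x v‖ ≤ D * (1 + ‖x‖) ^ (-((3 : ℕ) : ℝ)) := by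
    intro v
    filter_upwards [h0] with x hx
    exact hD x v hx
  have hb2' : ∀ v, ∀ᵐ x : ℂ, ‖‖ZZ (hat w) x v‖ ^ 2‖ ≤
      D ^ 2 * (1 + ‖x‖) ^ (-((3 : ℕ) : ℝ)) := by
    intro v
    filter_upwards [h0] with x hx
    have h1 := hD x v hx
    have h2 : (1 + ‖x‖) ^ (-((3 : ℕ) : ℝ)) ≤ 1 := by
      rw [zb2_pow 3 _ (norm_nonneg _)]
      refine inv_le_one_of_one_le₀ (one_le_pow₀ ?_)
      linarith [norm_nonneg x]
    have h3 : 0 ≤ (1 + ‖x‖) ^ (-((3 : ℕ) : ℝ)) := by positivity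
    rw [norm_pow, norm_norm]
    calc ‖ZZ (hat w) x v‖ ^ 2 ≤ (D * (1 + ‖x‖) ^ (-((3 : ℕ) : ℝ))) ^ 2 := by gcongr
      _ = D ^ 2 * ((1 + ‖x‖) ^ (-((3 : ℕ) : ℝ)) * (1 + ‖x‖) ^ (-((3 : ℕ) : ℝ))) := by ring
      _ ≤ D ^ 2 * ((1 + ‖x‖) ^ (-((3 : ℕ) : ℝ)) * 1) := by gcongr
      _ = _ := by ring
  refine ⟨⟨hm1, fun v _ => ?_⟩, ⟨hm1, fun v _ => ?_⟩, ⟨hm2, fun v _ => ?_⟩,
    ⟨hm2, fun v _ => ?_⟩⟩
  · exact (zb2_ball C R).mono' (hm1 v).aestronglyMeasurable (Eventually.of_forall (hb1 v))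
  · refine (zb2_ball (C ^ 2) R).mono' ((hm1 v).norm.pow_const 2).aestronglyMeasurable
      (Eventually.of_forall fun x => ?_)
    rw [norm_pow, norm_norm]
    exact hb1' v x
  · exact ((zb2_japan 3 (by norm_num)).const_mul D).mono' (hm2 v).aestronglyMeasurable (hb2 v)
  · exact ((zb2_japan 3 (by norm_num)).const_mul (D ^ 2)).mono'
      ((hm2 v).norm.pow_const 2).aestronglyMeasurable (hb2' v)

theorem ZZ_even {w : ℂ → ZMod N × ZMod N → ℂ} : Evn (ZZ w) := by
  intro x v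
  rw [zb2_ZZ, zb2_ZZ, ← (Equiv.neg ℤ).tsum_eq]
  congr 1
  funext m
  unfold zb2T
  simp only [Equiv.neg_apply, neg_eq_zero]
  split_ifs
  · rfl
  · congr 1
    · push_cast
      ring
    · simp

theorem zb2_cont_line {w : ℂ → ZMod N × ZMod N → ℂ} (hw : TW w) (v : ZMod N × ZMod N) {e : ℂ}
    (he : ‖e‖ = 1) : Integrable (fun ρ : ℝ => w (ρ * e) v) := by
  obtain ⟨r, R, hr, h⟩ := hw.supp
  have hc : Continuous (fun ρ : ℝ => w ((ρ : ℂ) * e) v) :=
    (hw.smooth v).continuous.comp (by fun_prop)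
  have hcs : HasCompactSupport (fun ρ : ℝ => w ((ρ : ℂ) * e) v) := by
    refine HasCompactSupport.of_support_subset_isCompact (isCompact_closedBall (0 : ℝ) R) ?_
    intro y hy
    have := (h _ _ (Function.mem_support.1 hy)).2
    rw [norm_mul, he, mul_one, Complex.norm_real] at this
    rw [Metric.mem_closedBall, dist_zero_right]
    exact this
  exact hc.integrable_of_hasCompactSupport hcs

theorem zb2_TW {w w' : ℂ → ZMod N × ZMod N → ℂ} (hw : TW w) (hw' : TW w') (a b : ℂ) :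
    TW (fun x v => a * w x v + b * w' x v) := by
  constructor
  · intro v
    exact (contDiff_const.mul (hw.smooth v)).add (contDiff_const.mul (hw'.smooth v))
  · obtain ⟨r, R, hr, h⟩ := hw.supp
    obtain ⟨r', R', hr', h'⟩ := hw'.supp
    refine ⟨min r r', max R R', lt_min hr hr', fun x v hx => ?_⟩
    by_cases h1 : w x v = 0
    · have h2 : w' x v ≠ 0 := by
        intro h2
        apply hx
        show a * w x v + b * w' x v = 0
        rw [h1, h2]; ring
      have h3 := h' x v h2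
      exact ⟨(min_le_right _ _).trans h3.1, h3.2.trans (le_max_right _ _)⟩
    · have h3 := h x v h1
      exact ⟨(min_le_left _ _).trans h3.1, h3.2.trans (le_max_left _ _)⟩
  · intro e v he
    rw [integral_add ((zb2_cont_line hw v he).integrableOn.const_mul _)
      ((zb2_cont_line hw' v he).integrableOn.const_mul _), integral_const_mul, integral_const_mul,
      hw.rad e v he, hw'.rad e v he]
    ring

theorem zb2_lin {w w' : ℂ → ZMod N × ZMod N → ℂ} (a b : ℂ) {x : ℂ} {v : ZMod N × ZMod N}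
    (h : Summable (zb2T w x v)) (h' : Summable (zb2T w' x v)) :
    ZZ (fun x v => a * w x v + b * w' x v) x v = a * ZZ w x v + b * ZZ w' x v := by
  rw [zb2_ZZ, zb2_ZZ, zb2_ZZ, ← tsum_mul_left, ← tsum_mul_left,
    ← (h.mul_left a).tsum_add (h'.mul_left b)]
  congr 1
  funext m
  unfold zb2T
  split_ifs
  · ring
  · rfl

theorem ZZ_lin {w w' : ℂ → ZMod N × ZMod N → ℂ} (hw : TW w) (hw' : TW w') (a b : ℂ) {x : ℂ}
    (hx : x ≠ 0) (v : ZMod N × ZMod N) :
    TW (fun x v => a * w x v + b * w' x v) ∧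
    ZZ (fun x v => a * w x v + b * w' x v) x v = a * ZZ w x v + b * ZZ w' x v :=
  ⟨zb2_TW hw hw' a b, zb2_lin a b (zb2_summ hw x v) (zb2_summ hw' x v)⟩

theorem zb2_int_exp {w : ℂ → ZMod N × ZMod N → ℂ} (hw : TW w) (η : ℂ) (v : ZMod N × ZMod N) :
    Integrable (fun ξ : ℂ => w ξ v *
      cexp (-(2 * Real.pi * (conj ξ * η).im / N : ℝ) * Complex.I)) := by
  obtain ⟨r, R, hr, h⟩ := hw.supp
  have hK : HasCompactSupport (fun ξ => w ξ v) :=
    HasCompactSupport.of_support_subset_isCompact (isCompact_closedBall (0 : ℂ) R)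
      (fun x hx => by
        rw [Metric.mem_closedBall, dist_zero_right]
        exact (h x v hx).2)
  refine Continuous.integrable_of_hasCompactSupport ?_ hK.mul_right
  refine (hw.smooth v).continuous.mul ?_
  have : Continuous fun ξ : ℂ => (conj ξ * η).im :=
    Complex.continuous_im.comp (Complex.continuous_conj.mul continuous_const)
  fun_prop

theorem zb2_hat [NeZero N] {w w' : ℂ → ZMod N × ZMod N → ℂ} (hw : TW w) (hw' : TW w') (a b : ℂ)
    (η : ℂ) (u : ZMod N × ZMod N) :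
    hat (fun x v => a * w x v + b * w' x v) η u = a * hat w η u + b * hat w' η u := by
  unfold hat
  have h1 : ∀ v : ZMod N × ZMod N, ∫ ξ : ℂ, (a * w ξ v + b * w' ξ v) *
      cexp (-(2 * Real.pi * (conj ξ * η).im / N : ℝ) * Complex.I) =
      a * (∫ ξ : ℂ, w ξ v * cexp (-(2 * Real.pi * (conj ξ * η).im / N : ℝ) * Complex.I)) +
      b * (∫ ξ : ℂ, w' ξ v * cexp (-(2 * Real.pi * (conj ξ * η).im / N : ℝ) * Complex.I)) := by
    intro v
    rw [← integral_const_mul, ← integral_const_mul,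
      ← integral_add ((zb2_int_exp hw η v).const_mul a) ((zb2_int_exp hw' η v).const_mul b)]
    congr 1
    funext ξ
    ring
  simp only [h1]
  rw [mul_left_comm a, mul_left_comm b, ← mul_add]
  congr 1
  rw [Finset.mul_sum, Finset.mul_sum, ← Finset.sum_add_distrib]
  refine Finset.sum_congr rfl fun v _ => ?_
  ring

theorem hat_lin [NeZero N] {w w' : ℂ → ZMod N × ZMod N → ℂ} (hw : TW w) (hw' : TW w')
    (a b : ℂ) {x : ℂ} (hx : x ≠ 0) (v : ZMod N × ZMod N) :
    ZZ (hat (fun x v => a * w x v + b * w' x v)) x v =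
      a * ZZ (hat w) x v + b * ZZ (hat w') x v := by
  have h : hat (fun x v => a * w x v + b * w' x v) =
      fun x v => a * hat w x v + b * hat w' x v := by
    funext η u
    exact zb2_hat hw hw' a b η u
  rw [h]
  exact zb2_lin a b (zb2_summ_hat hw hx v) (zb2_summ_hat hw' hx v)

theorem ZZ_hat_total [NeZero N] {w : ℂ → ZMod N × ZMod N → ℂ} (hw : TW w)
    (v : ZMod N × ZMod N) : ∫ x : ℂ, ZZ (hat w) x v = 0 := by
  have hm : ∀ (m : ℤ) (u : ZMod N × ZMod N), m ≠ 0 →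
      Integrable (fun x : ℂ => hat w (m * x) u) ∧ ∫ x : ℂ, hat w (m * x) u = 0 ∧
      ∫ x : ℂ, ‖hat w (m * x) u‖ = ((m : ℝ) ^ 2)⁻¹ * ∫ x : ℂ, ‖hat w x u‖ := by
    intro m u h
    have h0 : (m : ℝ) ≠ 0 := by exact_mod_cast h
    have h1 : ∀ x : ℂ, (m : ℂ) * x = (m : ℝ) • x := fun x => by
      rw [Complex.real_smul, Complex.ofReal_intCast]
    simp only [h1]
    refine ⟨(hat_total hw u).1.comp_smul h0, ?_, ?_⟩
    · rw [Measure.integral_comp_smul (μ := (volume : Measure ℂ)) (fun x => hat w x u) (m : ℝ),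
        (hat_total hw u).2, smul_zero]
    · rw [Measure.integral_comp_smul (μ := (volume : Measure ℂ)) (fun x => ‖hat w x u‖) (m : ℝ),
        Complex.finrank_real_complex, abs_of_nonneg (by positivity), smul_eq_mul]
  have hI : ∀ m : ℤ, Integrable (fun x : ℂ => zb2T (hat w) x v m) ∧
      ∫ x : ℂ, zb2T (hat w) x v m = 0 := by
    intro m
    unfold zb2T
    split_ifs with h
    · exact ⟨integrable_zero _ _ _, integral_zero _ _⟩
    · exact ⟨(hm m _ h).1, (hm m _ h).2.1⟩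
  have hS : Summable fun m : ℤ => ∫ x : ℂ, ‖zb2T (hat w) x v m‖ := by
    set K : ℝ := ∑ u : ZMod N × ZMod N, ∫ x : ℂ, ‖hat w x u‖ with hK
    have hle : ∀ u : ZMod N × ZMod N, ∫ x : ℂ, ‖hat w x u‖ ≤ K := fun u =>
      Finset.single_le_sum (f := fun u => ∫ x : ℂ, ‖hat w x u‖)
        (fun u _ => integral_nonneg fun x => norm_nonneg _) (Finset.mem_univ u)
    refine Summable.of_nonneg_of_le (fun m => integral_nonneg fun x => norm_nonneg _)
      (f := fun m : ℤ => K * (1 / (m : ℝ) ^ 2)) ?_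
      ((Real.summable_one_div_int_pow.2 (by norm_num)).mul_left K)
    intro m
    have hK0 : 0 ≤ K := Finset.sum_nonneg fun u _ => integral_nonneg fun x => norm_nonneg _
    unfold zb2T
    split_ifs with h
    · simp only [norm_zero, integral_zero]
      positivity
    · rw [(hm m _ h).2.2, one_div, mul_comm K]
      exact mul_le_mul_of_nonneg_left (hle _) (by positivity)
  have h := integral_tsum_of_summable_integral_norm (fun m => (hI m).1) hS
  have h2 : ∫ x : ℂ, ZZ (hat w) x v = ∫ x : ℂ, ∑' m : ℤ, zb2T (hat w) x v m := rfl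
  rw [h2, ← h]
  simp only [(hI _).2, tsum_zero]

end Pool.Agent.JO
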