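import Pool.Agent.Lib_helper63.JO.Defs2
import Pool.Agent.Lib_helper63.JOE.BOR
import Pool.Agent.Lib_helper63.JOE.CF1
import Pool.Agent.Lib_helper63.JOE.CRD
import Pool.Agent.Lib_helper63.JOE.CTH
import Pool.Agent.Lib_helper63.JOE.FAT
import Pool.Agent.Lib_helper63.JOE.HI1
import Pool.Agent.Lib_helper63.JOE.MFE
import Pool.Agent.Lib_helper63.JOE.MUL
import Pool.Agent.Lib_helper63.JOE.POI
import Pool.Agent.Lib_helper63.JOE.UNI
import Pool.Agent.Lib_helper63.JOE.ZB1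
import Pool.Agent.Lib_helper63.JOE.ZB2
/-! Block ALG: the algebra of the families `T0 (ZZ w)`. -/

namespace Pool.Agent.JO

open Complex MeasureTheory Filter Topology UpperHalfPlane ModularGroup
open scoped MatrixGroups Modular ENNReal ComplexConjugate ContDiff

variable {N : ℕ}

theorem alg_meas {F : QN N → SL(2, ℝ) → ℂ} (hF : MF F) (s : QN N) :
    Measurable (fun q : ℂ × ℝ => F s (gx q.1 q.2)) := by
  letI : MeasurableSpace SL(2, ℝ) := borel _
  haveI : BorelSpace SL(2, ℝ) := ⟨rfl⟩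
  have h1 : Measurable (F s) := (MF_borel.1 hF).2 s
  have h2 : Measurable (fun q : ℂ × ℝ => gx q.1 q.2) := by
    classical
    have h3 : (fun q : ℂ × ℝ => gx q.1 q.2) =
        Set.piecewise {q : ℂ × ℝ | q.1 ≠ 0} (fun q => gx q.1 q.2) (fun _ => 1) := by
      funext q
      by_cases hq : q.1 = 0
      · simp [Set.piecewise, hq, gx]
      · simp [Set.piecewise, hq]
    rw [h3]
    exact gx_cont.measurable_piecewise continuousOn_const
      (measurable_fst (measurableSet_singleton (0 : ℂ))).compl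
  exact h1.comp h2

theorem alg_meas_t {F : QN N → SL(2, ℝ) → ℂ} (hF : MF F) (s : QN N) (x : ℂ) :
    Measurable (fun t : ℝ => F s (gx x t)) :=
  (alg_meas hF s).comp measurable_prodMk_left

section alg

variable [NeZero N]

theorem alg_bot (s : QN N) : bot s ∈ PV N := Finset.mem_image_of_mem _ (Finset.mem_univ s)

theorem alg_mfone : MF (fun (_ : QN N) (_ : SL(2, ℝ)) => (1 : ℂ)) :=
  ⟨fun _ _ _ => rfl, fun _ => measurable_const⟩

theorem alg_one : SqF (fun (_ : QN N) (_ : SL(2, ℝ)) => (1 : ℂ)) :=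
  SqF_of_bdd alg_mfone (C := 1) (fun _ _ => by simp)

theorem alg_fin : IsFiniteMeasure muG := by
  have h : Integrable (fun _ : ℍ × ℝ => ‖(1 : ℂ)‖ ^ 2) muG := (alg_one (N := 1)).sq 1
  rw [integrable_const_iff] at h
  rcases h with h | h
  · simp at h
  · exact h

theorem alg_bint {F : QN N → SL(2, ℝ) → ℂ} (hF : MF F) {C : ℝ} (hC : ∀ s g, ‖F s g‖ ≤ C)
    (s : QN N) : Integrable (fun p : ℍ × ℝ => F s (gg p.1 p.2)) muG := by
  haveI := alg_fin
  refine Integrable.mono' (integrable_const C) (hF.2 s).aestronglyMeasurable ?_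
  exact Eventually.of_forall fun p => hC _ _

theorem alg_int {F : QN N → SL(2, ℝ) → ℂ} (hF : MF F) {C : ℝ} (hC : ∀ s g, ‖F s g‖ ≤ C)
    {α : ℂ → ZMod N × ZMod N → ℂ} (hα : InL α) (s : QN N) :
    Integrable (fun q : ℂ × ℝ => F s (gx q.1 q.2) * conj (α q.1 (bot s)))
      ((volume : Measure ℂ).prod (volume.restrict (Set.Ioc (0 : ℝ) 1))) := by
  have h1 : Integrable (fun x : ℂ => conj (α x (bot s))) := by
    have h := hα.int (bot s) (alg_bot s)
    refine ⟨(continuous_conj.measurable.comp (hα.meas _)).aestronglyMeasurable, ?_⟩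
    have h2 := h.2
    refine h2.congr' (Eventually.of_forall fun x => ?_)
    simp
  have h2 : Integrable (fun q : ℂ × ℝ => conj (α q.1 (bot s)) * (1 : ℂ))
      ((volume : Measure ℂ).prod (volume.restrict (Set.Ioc (0 : ℝ) 1))) :=
    h1.mul_prod (integrable_const (1 : ℂ))
  simp only [mul_one] at h2
  exact h2.bdd_mul (c := C) (alg_meas hF s).aestronglyMeasurable
    (Eventually.of_forall fun q => hC _ _)

theorem alg_w0 {w : ℂ → ZMod N × ZMod N → ℂ} (hw : TW w) (v : ZMod N × ZMod N) : w 0 v = 0 := by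
  obtain ⟨r, R, hr, h⟩ := hw.supp
  by_contra hne
  have := (h 0 v hne).1
  simp at this
  linarith

theorem alg_EE {w : ℂ → ZMod N × ZMod N → ℂ} (hw : TW w) (s : QN N) (g : SL(2, ℝ)) :
    Th w s g = EE (ZZ w) s g ∧ EE (ZZ w) s g = hat w 0 0 + EE (ZZ (hat w)) s g := by
  obtain ⟨h1, h2⟩ := Th_summable hw s g
  have h3 := Th_mul w s g h1
  have h4 := Th_mul (hat w) s g h2
  have h5 := Th_poisson hw s g
  rw [alg_w0 hw, zero_add] at h3
  exact ⟨h3, by rw [← h3, h5, h4]⟩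

theorem alg_bdd {w : ℂ → ZMod N × ZMod N → ℂ} (hw : TW w) :
    ∃ C : ℝ, ∀ s g, ‖EE (ZZ w) s g‖ ≤ C := by
  obtain ⟨C, R, h1, h2⟩ := ZZ_bdd hw
  exact EE_bdd h1 h2

theorem alg_ip1 (F : QN N → SL(2, ℝ) → ℂ) :
    ip F (fun _ _ => 1) = ∑ s : QN N, ∫ p : ℍ × ℝ, F s (gg p.1 p.2) ∂muG := by
  unfold ip
  simp

theorem alg_conj (F G : QN N → SL(2, ℝ) → ℂ) : conj (ip F G) = ip G F := by
  unfold ip
  rw [map_sum]
  refine Finset.sum_congr rfl fun s _ => ?_
  rw [← integral_conj]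
  refine integral_congr_ae (Eventually.of_forall fun p => ?_)
  simp only [map_mul, Complex.conj_conj]
  ring

theorem alg_mean_hat {w : ℂ → ZMod N × ZMod N → ℂ} (hw : TW w) :
    mean (EE (ZZ (hat w))) = 0 ∧ mean (EE (ZZ w)) = hat w 0 0 := by
  have hz := ZZ_InL hw
  obtain ⟨V, hV, hone⟩ := ip_one (N := N)
  have hV' : (V : ℂ) ≠ 0 := by exact_mod_cast hV.ne'
  have h1 : ip (fun _ _ => 1) (EE (ZZ (hat w))) = 0 := by
    rw [(unf_int alg_mfone hz.2.2.1.meas (fun s => alg_int alg_mfone (C := 1)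
      (fun _ _ => by simp) hz.2.2.1 s)).2]
    unfold ipL
    rw [mul_eq_zero]
    right
    refine Finset.sum_eq_zero fun v hv => ?_
    have hx0 : ∀ᵐ x : ℂ, x ≠ 0 := by
      have : volume ({(0 : ℂ)} : Set ℂ) = 0 := by simp
      filter_upwards [measure_eq_zero_iff_ae_notMem.1 this] with x hx
      simpa using hx
    have h2 : ∫ x : ℂ, CF (fun (_ : QN N) _ => (1 : ℂ)) x v * conj (ZZ (hat w) x v) =
        ∫ x : ℂ, conj (ZZ (hat w) x v) := by
      refine integral_congr_ae ?_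
      filter_upwards [hx0] with x hx
      rw [CF_one hv, one_mul]
    rw [h2, integral_conj, ZZ_hat_total hw v, map_zero]
  have h3 : ip (EE (ZZ (hat w))) (fun _ _ => 1) = 0 := by
    rw [← alg_conj, h1, map_zero]
  have hm : mean (EE (ZZ (hat w))) = 0 := by
    unfold mean
    rw [h3, zero_div]
  refine ⟨hm, ?_⟩
  haveI := alg_fin
  have h4 : ip (EE (ZZ w)) (fun _ _ => 1) = hat w 0 0 * V := by
    rw [alg_ip1]
    have h5 : ∀ s : QN N, ∫ p : ℍ × ℝ, EE (ZZ w) s (gg p.1 p.2) ∂muG =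
        (∫ _ : ℍ × ℝ, hat w 0 0 ∂muG) + ∫ p : ℍ × ℝ, EE (ZZ (hat w)) s (gg p.1 p.2) ∂muG := by
      intro s
      rw [← integral_add (integrable_const _) ((EE_L1 hz.2.2.1).1 s)]
      refine integral_congr_ae (Eventually.of_forall fun p => ?_)
      exact (alg_EE hw s _).2
    rw [Finset.sum_congr rfl fun s _ => h5 s, Finset.sum_add_distrib, ← alg_ip1, h3, add_zero,
      ← hone, alg_ip1, Finset.mul_sum]
    refine Finset.sum_congr rfl fun s _ => ?_
    rw [← integral_const_mul]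
    simp
  unfold mean
  rw [h4, hone]
  field_simp

theorem alg_MF {α : ℂ → ZMod N × ZMod N → ℂ} (hα : ∀ v, Measurable (fun x => α x v)) :
    MF (T0 α) := by
  have h := mf_EE α hα
  refine ⟨fun γ s g => ?_, fun s => ?_⟩
  · unfold T0
    rw [h.1 γ s g]
  · exact (h.2 s).sub measurable_const

theorem T0_hat {w : ℂ → ZMod N × ZMod N → ℂ} (hw : TW w) :
    (∀ s g, T0 (ZZ w) s g = T0 (ZZ (hat w)) s g) ∧ SqF (T0 (ZZ w)) ∧ mean (T0 (ZZ w)) = 0 ∧
      (∃ C, ∀ s g, ‖T0 (ZZ w) s g‖ ≤ C) := by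
  have hz := ZZ_InL hw
  have hm := alg_mean_hat hw
  have hb : ∃ C, ∀ s g, ‖T0 (ZZ w) s g‖ ≤ C := by
    obtain ⟨C, hC⟩ := alg_bdd hw
    refine ⟨C + ‖mean (EE (ZZ w))‖, fun s g => ?_⟩
    unfold T0
    exact (norm_sub_le _ _).trans (add_le_add_left (hC s g) _)
  refine ⟨fun s g => ?_, ?_, T0_mean hz.1, hb⟩
  · unfold T0
    rw [hm.1, hm.2, (alg_EE hw s g).2]
    ring
  · obtain ⟨C, hC⟩ := hb
    exact SqF_of_bdd (alg_MF hz.1.meas) hC

theorem CF_T0 {w : ℂ → ZMod N × ZMod N → ℂ} (hw : TW w) {x : ℂ} (hx : x ≠ 0)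
    {v : ZMod N × ZMod N} (hv : v ∈ PV N) :
    CF (T0 (ZZ w)) x v = ZZ w x v + ZZ (hat w) x v := by
  have hz := ZZ_InL hw
  have hm := (alg_mean_hat hw).2
  have hth := CF_Th hw hx hv
  have hone := CF_one (N := N) (x := x) hv
  have hmf : MF (Th w) := mf_Th w fun v => (hw.smooth v).continuous.measurable
  obtain ⟨C, hC⟩ := alg_bdd hw
  have hi : ∀ s : QN N, IntervalIntegrable (fun t => Th w s (gx x t)) volume 0 1 := by
    intro s
    rw [intervalIntegrable_iff_integrableOn_Ioc_of_le zero_le_one]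
    refine Integrable.mono' (integrable_const C) (alg_meas_t hmf s x).aestronglyMeasurable ?_
    refine Eventually.of_forall fun t => ?_
    rw [(alg_EE hw s _).1]
    exact hC _ _
  have h1 : CF (T0 (ZZ w)) x v = CF (Th w) x v - hat w 0 0 * CF (fun (_ : QN N) _ => (1 : ℂ)) x v := by
    unfold CF
    rw [mul_left_comm, ← mul_sub]
    congr 1
    rw [Finset.mul_sum, ← Finset.sum_sub_distrib]
    refine Finset.sum_congr rfl fun s _ => ?_
    by_cases hs : bot s = v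
    · rw [if_pos hs, if_pos hs, if_pos hs, ← intervalIntegral.integral_const_mul,
        ← intervalIntegral.integral_sub (hi s) (intervalIntegrable_const)]
      refine intervalIntegral.integral_congr fun t _ => ?_
      simp only [T0]
      rw [hm, (alg_EE hw s _).1, mul_one]
    · rw [if_neg hs, if_neg hs, if_neg hs, mul_zero, sub_zero]
  rw [h1, hth, hone]
  ring

theorem alg_ip_T0 {F : QN N → SL(2, ℝ) → ℂ} (hF : SqF F) (h0 : mean F = 0)
    (hb : ∃ C, ∀ s g, ‖F s g‖ ≤ C) {α : ℂ → ZMod N × ZMod N → ℂ} (hα : InL α) :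
    ip F (T0 α) = ipL (CF F) α := by
  obtain ⟨C, hC⟩ := hb
  obtain ⟨V, hV, hone⟩ := ip_one (N := N)
  have hV' : (V : ℂ) ≠ 0 := by exact_mod_cast hV.ne'
  have h1 : ip F (fun _ _ => 1) = 0 := by
    unfold mean at h0
    rw [hone, div_eq_zero_iff] at h0
    rcases h0 with h | h
    · exact h
    · exact absurd h hV'
  have h2 := unf_int hF.mf hα.meas (fun s => alg_int hF.mf hC hα s)
  rw [← h2.2]
  have h3 : ip F (T0 α) = ip F (EE α) - conj (mean (EE α)) * ip F (fun _ _ => 1) := by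
    unfold ip
    rw [Finset.mul_sum, ← Finset.sum_sub_distrib]
    refine Finset.sum_congr rfl fun s _ => ?_
    rw [← integral_const_mul, ← integral_sub (h2.1 s)]
    · refine integral_congr_ae (Eventually.of_forall fun p => ?_)
      simp only [T0, map_sub, map_one]
      ring
    · simpa using (alg_bint hF.mf hC s).const_mul (conj (mean (EE α)))
  rw [h3, h1, mul_zero, sub_zero]

theorem ip_T0 {F : QN N → SL(2, ℝ) → ℂ} (hF : SqF F) (h0 : mean F = 0)
    (hb : ∃ C, ∀ s g, ‖F s g‖ ≤ C) {w : ℂ → ZMod N × ZMod N → ℂ} (hw : TW w) :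
    ip F (T0 (ZZ w)) = ipL (CF F) (ZZ w) ∧ ip F (T0 (ZZ w)) = ipL (CF F) (ZZ (hat w)) := by
  have hz := ZZ_InL hw
  refine ⟨alg_ip_T0 hF h0 hb hz.1, ?_⟩
  have h1 : T0 (ZZ w) = T0 (ZZ (hat w)) := by
    funext s g
    exact (T0_hat hw).1 s g
  rw [h1]
  exact alg_ip_T0 hF h0 hb hz.2.2.1

theorem alg_sqprod {c d : ℂ → ZMod N × ZMod N → ℂ} (hc : SqL c) (hd : SqL d) {v : ZMod N × ZMod N}
    (hv : v ∈ PV N) : Integrable (fun x => c x v * conj (d x v)) := by
  have h1 : MemLp (fun x => c x v) 2 volume :=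
    (memLp_two_iff_integrable_sq_norm (hc.meas v).aestronglyMeasurable).2 (hc.sq v hv)
  have h2 : MemLp (fun x => conj (d x v)) 2 volume := by
    refine (memLp_two_iff_integrable_sq_norm ?_).2 ?_
    · exact (continuous_conj.measurable.comp (hd.meas v)).aestronglyMeasurable
    · simpa using hd.sq v hv
  exact h1.integrable_mul h2

theorem alg_lconj (c d : ℂ → ZMod N × ZMod N → ℂ) : conj (ipL c d) = ipL d c := by
  unfold ipL
  rw [map_mul, map_sum, map_mul]
  congr 1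
  · rw [Complex.conj_natCast]
    congr 1
    exact map_ofNat (starRingEnd ℂ) 2
  · refine Finset.sum_congr rfl fun v _ => ?_
    rw [← integral_conj]
    refine integral_congr_ae (Eventually.of_forall fun x => ?_)
    simp only [map_mul, Complex.conj_conj]
    ring

theorem alg_ladd {c c' d : ℂ → ZMod N × ZMod N → ℂ} (hc : SqL c) (hc' : SqL c') (hd : SqL d) :
    ipL (fun x v => c x v + c' x v) d = ipL c d + ipL c' d := by
  unfold ipL
  rw [← mul_add, ← Finset.sum_add_distrib]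
  congr 1
  refine Finset.sum_congr rfl fun v hv => ?_
  rw [← integral_add (alg_sqprod hc hd hv) (alg_sqprod hc' hd hv)]
  refine integral_congr_ae (Eventually.of_forall fun x => ?_)
  simp only []
  ring

theorem alg_lself (c : ℂ → ZMod N × ZMod N → ℂ) : ipL c c = (nL c : ℂ) := by
  unfold ipL nL
  push_cast
  congr 1
  refine Finset.sum_congr rfl fun v _ => ?_
  have h : ∀ x : ℂ, c x v * conj (c x v) = ((‖c x v‖ ^ 2 : ℝ) : ℂ) := fun x => by
    rw [Complex.mul_conj, Complex.normSq_eq_norm_sq]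
  simp only [h]
  exact integral_ofReal

theorem alg_lcs {c d : ℂ → ZMod N × ZMod N → ℂ} (hc : SqL c) (hd : SqL d) :
    2 * (ipL c d).re ≤ nL c + nL d := by
  have key : ∀ v ∈ PV N, 2 * (∫ x : ℂ, c x v * conj (d x v)).re ≤
      (∫ x : ℂ, ‖c x v‖ ^ 2) + ∫ x : ℂ, ‖d x v‖ ^ 2 := by
    intro v hv
    have hi := alg_sqprod hc hd hv
    have h2 : ∫ x : ℂ, (c x v * conj (d x v)).re = (∫ x : ℂ, c x v * conj (d x v)).re :=
      integral_re hi
    have e2 := integral_add (f := fun x : ℂ => ‖c x v‖ ^ 2) (g := fun x : ℂ => ‖d x v‖ ^ 2)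
      (hc.sq v hv) (hd.sq v hv)
    rw [← h2, ← e2, ← integral_const_mul]
    refine integral_mono (hi.re.const_mul 2) ((hc.sq v hv).add (hd.sq v hv)) fun x => ?_
    have h3 : 0 ≤ ‖c x v - d x v‖ ^ 2 := by positivity
    have h4 : ‖c x v - d x v‖ ^ 2 = ‖c x v‖ ^ 2 - 2 * (c x v * conj (d x v)).re +
        ‖d x v‖ ^ 2 := by
      rw [← Complex.normSq_eq_norm_sq, ← Complex.normSq_eq_norm_sq, ← Complex.normSq_eq_norm_sq,
        Complex.normSq_sub]
      ring
    show 2 * (c x v * conj (d x v)).re ≤ ‖c x v‖ ^ 2 + ‖d x v‖ ^ 2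
    linarith
  have h3 : (ipL c d).re = 2 * N * ∑ v ∈ PV N, (∫ x : ℂ, c x v * conj (d x v)).re := by
    unfold ipL
    have : (2 * (N : ℂ)) = ((2 * N : ℝ) : ℂ) := by push_cast; ring
    rw [this, Complex.re_ofReal_mul, Complex.re_sum]
  rw [h3]
  unfold nL
  calc 2 * (2 * (N : ℝ) * ∑ v ∈ PV N, (∫ x : ℂ, c x v * conj (d x v)).re)
      = 2 * N * ∑ v ∈ PV N, 2 * (∫ x : ℂ, c x v * conj (d x v)).re := by
        rw [← Finset.mul_sum]
        ring
    _ ≤ 2 * N * ∑ v ∈ PV N, ((∫ x : ℂ, ‖c x v‖ ^ 2) + ∫ x : ℂ, ‖d x v‖ ^ 2) := by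
        gcongr with v hv
        exact key v hv
    _ = _ := by
        rw [Finset.sum_add_distrib]
        ring

theorem T0_alg {w w' : ℂ → ZMod N × ZMod N → ℂ} (hw : TW w) (hw' : TW w') :
    ip (T0 (ZZ w)) (T0 (ZZ w')) =
        ipL (fun x v => ZZ w x v + ZZ (hat w) x v) (ZZ w') ∧
      ipL (ZZ (hat w)) (ZZ w') = ipL (ZZ w) (ZZ (hat w')) ∧
      nL (ZZ (hat w)) = nL (ZZ w) ∧ (ip (T0 (ZZ w)) (T0 (ZZ w))).re ≤ 2 * nL (ZZ w) := by
  have hx0 : ∀ᵐ x : ℂ, x ≠ 0 := by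
    have : volume ({(0 : ℂ)} : Set ℂ) = 0 := by simp
    filter_upwards [measure_eq_zero_iff_ae_notMem.1 this] with x hx
    simpa using hx
  have hcf : ∀ {u : ℂ → ZMod N × ZMod N → ℂ}, TW u → ∀ d : ℂ → ZMod N × ZMod N → ℂ,
      ipL (CF (T0 (ZZ u))) d = ipL (fun x v => ZZ u x v + ZZ (hat u) x v) d := by
    intro u hu d
    unfold ipL
    congr 1
    refine Finset.sum_congr rfl fun v hv => integral_congr_ae ?_
    filter_upwards [hx0] with x hx
    rw [CF_T0 hu hx hv]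
  have key : ∀ {u u' : ℂ → ZMod N × ZMod N → ℂ}, TW u → TW u' →
      ip (T0 (ZZ u)) (T0 (ZZ u')) = ipL (ZZ u) (ZZ u') + ipL (ZZ (hat u)) (ZZ u') ∧
      ip (T0 (ZZ u)) (T0 (ZZ u')) = ipL (ZZ u) (ZZ (hat u')) + ipL (ZZ (hat u)) (ZZ (hat u')) := by
    intro u u' hu hu'
    have h1 := T0_hat hu
    have h2 := ip_T0 h1.2.1 h1.2.2.1 h1.2.2.2 hu'
    have hz := ZZ_InL hu
    have hz' := ZZ_InL hu'
    constructor
    · rw [h2.1, hcf hu, alg_ladd hz.2.1 hz.2.2.2 hz'.2.1]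
    · rw [h2.2, hcf hu, alg_ladd hz.2.1 hz.2.2.2 hz'.2.2.2]
  have hz := ZZ_InL hw
  have hz' := ZZ_InL hw'
  have hsym : ∀ {u u' : ℂ → ZMod N × ZMod N → ℂ}, TW u → TW u' →
      ipL (ZZ (hat u)) (ZZ u') = ipL (ZZ u) (ZZ (hat u')) := by
    intro u u' hu hu'
    have h1 := (key hu hu').1
    have h2 := (key hu' hu).1
    rw [← alg_conj, h2, map_add, alg_lconj, alg_lconj] at h1
    have := add_left_cancel h1
    exact this.symm
  have hn : nL (ZZ (hat w)) = nL (ZZ w) := by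
    have h1 := (key hw hw).1
    rw [(key hw hw).2, hsym hw hw, alg_lself, alg_lself, add_comm] at h1
    have h2 := add_right_cancel h1
    exact_mod_cast h2
  refine ⟨?_, hsym hw hw', hn, ?_⟩
  · rw [(key hw hw').1, alg_ladd hz.2.1 hz.2.2.2 hz'.2.1]
  · rw [(key hw hw).1, alg_lself, Complex.add_re, Complex.ofReal_re]
    have h3 := alg_lcs hz.2.2.2 hz.2.1
    rw [hn] at h3
    linarith

end alg

end Pool.Agent.JO
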