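import Pool.Agent.Lib_helper63.JO.Defs2
/-! Project JO, part E, block CHP (helper47): characters and Moebius inversion. -/


namespace Pool.Agent.JO

open Complex MeasureTheory Filter Topology UpperHalfPlane ModularGroup
open scoped MatrixGroups Modular ENNReal ComplexConjugate ContDiff

variable {N : ℕ}

theorem chp_conj [NeZero N] (χ : DirichletCharacter ℂ N) (a : (ZMod N)ˣ) :
    conj (χ a) = χ ((a : ZMod N)⁻¹) := by
  have h1 : ‖χ a‖ = 1 := χ.unit_norm_eq_one a
  have h2 : χ ((a : ZMod N)⁻¹) * χ a = 1 := by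
    rw [← map_mul, ZMod.inv_mul_of_unit _ a.isUnit, map_one]
  have h3 : conj (χ a) * χ a = 1 := by
    rw [mul_comm, Complex.mul_conj, Complex.normSq_eq_norm_sq, h1]
    norm_num
  have h0 : χ a ≠ 0 := by
    intro h
    rw [h, norm_zero] at h1
    norm_num at h1
  exact mul_right_cancel₀ h0 (h3.trans h2.symm)

theorem char_parseval [NeZero N] (f : ZMod N → ℂ) :
    ∑ a : (ZMod N)ˣ, ‖f a‖ ^ 2 =
      ((Nat.totient N : ℝ))⁻¹ * ∑ χ : DirichletCharacter ℂ N,
        ‖∑ a : (ZMod N)ˣ, conj (χ a) * f a‖ ^ 2 := by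
  classical
  have htot : (Nat.totient N : ℝ) ≠ 0 := by
    have := Nat.totient_pos.2 (Nat.pos_of_ne_zero (NeZero.ne N))
    positivity
  have key : ((∑ χ : DirichletCharacter ℂ N,
        ‖∑ a : (ZMod N)ˣ, conj (χ a) * f a‖ ^ 2 : ℝ) : ℂ) =
      (Nat.totient N : ℂ) * ∑ a : (ZMod N)ˣ, ((‖f a‖ ^ 2 : ℝ) : ℂ) := by
    push_cast
    have h1 : ∀ χ : DirichletCharacter ℂ N, ((‖∑ a : (ZMod N)ˣ, conj (χ a) * f a‖ : ℝ) : ℂ) ^ 2 =
        ∑ a : (ZMod N)ˣ, ∑ b : (ZMod N)ˣ, (f a * conj (f b)) * (χ ((a : ZMod N)⁻¹) * χ b) := by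
      intro χ
      rw [← Complex.mul_conj', map_sum, Finset.sum_mul_sum]
      refine Finset.sum_congr rfl fun a _ => Finset.sum_congr rfl fun b _ => ?_
      rw [map_mul, Complex.conj_conj, chp_conj]
      ring
    simp_rw [h1]
    rw [Finset.sum_comm, Finset.mul_sum]
    refine Finset.sum_congr rfl fun a _ => ?_
    rw [Finset.sum_comm]
    have h2 : ∀ b : (ZMod N)ˣ, ∑ χ : DirichletCharacter ℂ N,
        (f a * conj (f b)) * (χ ((a : ZMod N)⁻¹) * χ b) =
        if a = b then (Nat.totient N : ℂ) * (f a * conj (f b)) else 0 := by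
      intro b
      rw [← Finset.mul_sum, DirichletCharacter.sum_char_inv_mul_char_eq ℂ a.isUnit]
      by_cases h : a = b
      · rw [if_pos h, if_pos (by rw [h])]
        ring
      · rw [if_neg h, if_neg (fun h' => h (Units.ext h')), mul_zero]
    simp_rw [h2]
    rw [Finset.sum_ite_eq Finset.univ a, if_pos (Finset.mem_univ a), ← Complex.mul_conj']
  have h3 : (∑ χ : DirichletCharacter ℂ N, ‖∑ a : (ZMod N)ˣ, conj (χ a) * f a‖ ^ 2 : ℝ) =
      (Nat.totient N : ℝ) * ∑ a : (ZMod N)ˣ, ‖f a‖ ^ 2 := by
    exact_mod_cast key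
  rw [h3, ← mul_assoc, inv_mul_cancel₀ htot, one_mul]

theorem ZZ_moebius [NeZero N] {α : ℂ → ZMod N × ZMod N → ℂ} (hα : TW α) (he : Evn α)
    (hp : ∀ x v, v ∉ PV N → α x v = 0) (δ : ℝ) (M : ℕ) :
    TW (fun x v => (1 / 2 : ℂ) * ∑ m ∈ (Finset.Icc 1 M).filter (fun m => m.Coprime N),
      ((ArithmeticFunction.moebius m : ℝ) * (m : ℝ) ^ (-δ) : ℝ) * dil m α x v) ∧
    ∀ x v, v ∈ PV N → x ≠ 0 → ZZ (fun x v => (1 / 2 : ℂ) *
        ∑ m ∈ (Finset.Icc 1 M).filter (fun m => m.Coprime N),
          ((ArithmeticFunction.moebius m : ℝ) * (m : ℝ) ^ (-δ) : ℝ) * dil m α x v) x v =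
      ∑' k : ℕ, if k = 0 then 0 else (bM N δ M k : ℂ) * dil k α x v := by
  classical
  set F : Finset ℕ := (Finset.Icc 1 M).filter (fun m => m.Coprime N) with hF
  set c : ℕ → ℝ := fun m => (ArithmeticFunction.moebius m : ℝ) * (m : ℝ) ^ (-δ) with hc
  have hF1 : ∀ m ∈ F, 1 ≤ m ∧ m ≤ M := by
    intro m hm
    rw [hF, Finset.mem_filter, Finset.mem_Icc] at hm
    exact hm.1
  obtain ⟨r, R, hr, hrR⟩ := hα.supp
  constructor
  · refine ⟨fun v => ?_, ⟨r / (M + 1), R, by positivity, ?_⟩, ?_⟩
    · refine contDiff_const.mul (ContDiff.sum fun m _ => contDiff_const.mul ?_)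
      exact (hα.smooth _).comp (contDiff_const.mul contDiff_id)
    · intro x v h
      have h1 : ∑ m ∈ F, ((c m : ℝ) : ℂ) * dil m α x v ≠ 0 := fun h2 => h (by
        show (1 / 2 : ℂ) * ∑ m ∈ F, ((c m : ℝ) : ℂ) * dil m α x v = 0
        rw [h2, mul_zero])
      obtain ⟨m, hm, h2⟩ := Finset.exists_ne_zero_of_sum_ne_zero h1
      have h3 : α (m * x) (m * v.1, m * v.2) ≠ 0 := right_ne_zero_of_mul h2
      obtain ⟨h4, h5⟩ := hrR _ _ h3
      rw [norm_mul, Complex.norm_natCast] at h4 h5
      have hm1 : (1 : ℝ) ≤ m := by exact_mod_cast (hF1 m hm).1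
      have hmM : (m : ℝ) ≤ M := by exact_mod_cast (hF1 m hm).2
      constructor
      · rw [div_le_iff₀ (by positivity)]
        nlinarith [norm_nonneg x]
      · nlinarith [norm_nonneg x]
    · intro e v he1
      have hcont : ∀ w, Continuous (fun y => α y w) := fun w => (hα.smooth w).continuous
      have hterm : ∀ m ∈ F, Integrable (fun ρ : ℝ => dil m α (ρ * e) v)
          (volume.restrict (Set.Ioi 0)) := by
        intro m hm
        apply Integrable.integrableOn
        have hm1 : (1 : ℝ) ≤ m := by exact_mod_cast (hF1 m hm).1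
        have hc1 : Continuous (fun ρ : ℝ => dil m α (ρ * e) v) := by
          unfold dil
          exact (hcont _).comp (by fun_prop)
        apply hc1.integrable_of_hasCompactSupport
        apply HasCompactSupport.intro (isCompact_Icc (a := -R) (b := R))
        intro ρ hρ
        by_contra hne
        apply hρ
        have h5 := (hrR _ _ hne).2
        rw [norm_mul, norm_mul, he1, mul_one, Complex.norm_natCast, Complex.norm_real,
          Real.norm_eq_abs] at h5
        exact abs_le.1 (by nlinarith [abs_nonneg ρ])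
      show ∫ ρ in Set.Ioi (0 : ℝ), (1 / 2 : ℂ) * ∑ m ∈ F, ((c m : ℝ) : ℂ) * dil m α (ρ * e) v = 0
      rw [integral_const_mul, integral_finsetSum F fun m hm => (hterm m hm).const_mul _]
      rw [Finset.sum_eq_zero, mul_zero]
      intro m hm
      have hm0 : (0 : ℝ) < m := by
        have := (hF1 m hm).1
        exact_mod_cast this
      rw [integral_const_mul]
      have h6 := integral_comp_mul_left_Ioi (fun ρ : ℝ => α (ρ * e) (m * v.1, m * v.2)) 0 hm0
      rw [mul_zero, hα.rad e _ he1, smul_zero] at h6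
      have h7 : ∫ ρ in Set.Ioi (0 : ℝ), dil m α (ρ * e) v = 0 := by
        rw [← h6]
        unfold dil
        congr 1
        funext ρ
        push_cast
        rw [mul_assoc]
      rw [h7, mul_zero]
  · intro x v hv hx
    set w : ℂ → ZMod N × ZMod N → ℂ := fun x v => (1 / 2 : ℂ) *
      ∑ m ∈ F, ((c m : ℝ) : ℂ) * dil m α x v with hw
    show ZZ w x v = _
    set D : ℕ → ℂ := fun k => if k = 0 then 0 else dil k α x v with hD
    have hx0 : 0 < ‖x‖ := norm_pos_iff.2 hx
    obtain ⟨K, hK⟩ := exists_nat_gt (R / ‖x‖)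
    rw [div_lt_iff₀ hx0] at hK
    have hDK : ∀ k, K ≤ k → D k = 0 := by
      intro k hk
      simp only [hD]
      split_ifs with h0
      · rfl
      · by_contra hne
        have h5 := (hrR _ _ hne).2
        rw [norm_mul, Complex.norm_natCast] at h5
        have : (K : ℝ) ≤ k := by exact_mod_cast hk
        nlinarith
    -- the function on the integers
    set G : ℤ → ℂ := fun m => if m = 0 then 0 else w (m * x) (m * v.1, m * v.2) with hG
    have hGnat : ∀ n : ℕ, G n = (1 / 2 : ℂ) * ∑ m ∈ F, ((c m : ℝ) : ℂ) * D (m * n) := by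
      intro n
      simp only [hG]
      rcases Nat.eq_zero_or_pos n with h0 | h0
      · subst h0
        simp [hD]
      · rw [if_neg (by exact_mod_cast h0.ne')]
        simp only [hw]
        congr 1
        refine Finset.sum_congr rfl fun m hm => ?_
        have hm1 := (hF1 m hm).1
        simp only [hD]
        rw [if_neg (Nat.mul_ne_zero (by omega) (by omega))]
        unfold dil
        push_cast
        simp only [mul_assoc]
    have hGneg : ∀ m : ℤ, G (-m) = G m := by
      intro m
      simp only [hG, neg_eq_zero]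
      split_ifs with h0
      · rfl
      · simp only [hw]
        congr 1
        refine Finset.sum_congr rfl fun k hk => ?_
        congr 1
        unfold dil
        have := he (k * (m * x)) (k * (m * v.1), k * (m * v.2))
        rw [← this]
        congr 1
        · push_cast; ring
        · ext
          · simp
          · simp
    have hGz : ∀ n : ℕ, K ≤ n → G n = 0 := by
      intro n hn
      rw [hGnat n, Finset.sum_eq_zero, mul_zero]
      intro m hm
      have hm1 := (hF1 m hm).1
      rw [hDK (m * n) (by nlinarith), mul_zero]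
    have hsumG : Summable (fun n : ℕ => G n) :=
      summable_of_ne_finset_zero (s := Finset.range K) fun n hn => hGz n (by
        rw [Finset.mem_range, not_lt] at hn; exact hn)
    set S : ℂ := ∑' n : ℕ, G n with hS
    have hS1 : HasSum (fun n : ℕ => G n) S := hsumG.hasSum
    have hS2 : HasSum (fun n : ℕ => G (-(n + 1))) S := by
      have h1 : (fun n : ℕ => G (-((n : ℤ) + 1))) = fun n : ℕ => G ((n + 1 : ℕ) : ℤ) := by
        funext n
        rw [hGneg]
        push_cast
        rfl
      rw [h1]
      have h2 := (hasSum_nat_add_iff' (f := fun n : ℕ => G n) 1).2 hS1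
      have h3 : ∑ i ∈ Finset.range 1, G (i : ℕ) = 0 := by
        rw [Finset.sum_range_one]
        simp [hG]
      rw [h3, sub_zero] at h2
      exact h2
    have hZZ : ZZ w x v = S + S := (hS1.of_nat_of_neg_add_one hS2).tsum_eq
    rw [hZZ, hS]
    have hDm : ∀ m ∈ F, Summable (fun n : ℕ => ((c m : ℝ) : ℂ) * D (m * n)) := by
      intro m hm
      refine summable_of_ne_finset_zero (s := Finset.range K) fun n hn => ?_
      rw [Finset.mem_range, not_lt] at hn
      have hm1 := (hF1 m hm).1
      rw [hDK (m * n) (by nlinarith), mul_zero]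
    have hL : ∑' n : ℕ, G n + ∑' n : ℕ, G n = ∑ m ∈ F, ((c m : ℝ) : ℂ) * ∑' n : ℕ, D (m * n) := by
      rw [← two_mul, ← tsum_mul_left]
      have h1 : ∀ n : ℕ, 2 * G n = ∑ m ∈ F, ((c m : ℝ) : ℂ) * D (m * n) := by
        intro n
        rw [hGnat]
        ring
      rw [tsum_congr h1, Summable.tsum_finsetSum hDm]
      refine Finset.sum_congr rfl fun m hm => ?_
      rw [tsum_mul_left]
    rw [hL]
    have hR : ∀ k : ℕ, (if k = 0 then 0 else (bM N δ M k : ℂ) * dil k α x v) =
        ∑ m ∈ F, ((c m : ℝ) : ℂ) * (if m ∣ k then D k else 0) := by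
      intro k
      split_ifs with h0
      · subst h0
        simp [hD]
      · have h1 : D k = dil k α x v := by simp only [hD]; rw [if_neg h0]
        rw [← h1]
        unfold bM
        rw [Complex.ofReal_sum, Finset.sum_mul]
        have h2 : (Finset.Icc 1 M).filter (fun m => m ∣ k ∧ m.Coprime N) =
            F.filter (fun m => m ∣ k) := by
          rw [hF, Finset.filter_filter]
          congr 1
          funext m
          rw [and_comm]
        rw [h2, Finset.sum_filter]
        refine Finset.sum_congr rfl fun m _ => ?_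
        split_ifs
        · rfl
        · rw [mul_zero]
    rw [tsum_congr hR]
    have hDs : ∀ m ∈ F, Summable (fun k : ℕ => ((c m : ℝ) : ℂ) * (if m ∣ k then D k else 0)) := by
      intro m hm
      refine summable_of_ne_finset_zero (s := Finset.range K) fun n hn => ?_
      rw [Finset.mem_range, not_lt] at hn
      rw [hDK n hn, ite_self, mul_zero]
    rw [Summable.tsum_finsetSum hDs]
    refine Finset.sum_congr rfl fun m hm => ?_
    rw [tsum_mul_left]
    congr 1
    have hm1 := (hF1 m hm).1
    have hinj : Function.Injective (fun n : ℕ => m * n) := by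
      intro a b h
      exact Nat.eq_of_mul_eq_mul_left (by omega) h
    have h3 := hinj.tsum_eq (f := fun k : ℕ => if m ∣ k then D k else 0) (by
      intro k hk
      rw [Function.mem_support] at hk
      by_cases h : m ∣ k
      · obtain ⟨n, rfl⟩ := h
        exact ⟨n, rfl⟩
      · exact absurd (if_neg h) hk)
    rw [← h3]
    apply tsum_congr
    intro n
    rw [if_pos (dvd_mul_right m n)]

end Pool.Agent.JO
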