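import Pool.Agent.Lib_helper63.JO.Defs2
/-! JOE, block BB1: boundedness of the sums over `n`, decay of the Mellin transform -/

namespace Pool.Agent.JO

open Complex MeasureTheory Filter Topology UpperHalfPlane ModularGroup
open scoped MatrixGroups Modular ENNReal ComplexConjugate ContDiff

variable {N : ℕ}

theorem bb1_fin {A : ℝ → ℂ} {r R : ℝ} (hr : 0 < r) (hsupp : ∀ x, A x ≠ 0 → r ≤ x ∧ x ≤ R)
    (ρ : ℝ) : ∃ K : ℕ, ∀ k : ℕ, K ≤ k → A (k * ρ) = 0 := by
  rcases le_or_gt ρ 0 with h | h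
  · refine ⟨0, fun k _ => ?_⟩
    by_contra hne
    have h1 := (hsupp _ hne).1
    have h2 : (k : ℝ) * ρ ≤ 0 := mul_nonpos_of_nonneg_of_nonpos (Nat.cast_nonneg _) h
    linarith
  · obtain ⟨K, hK⟩ := exists_nat_gt (R / ρ)
    refine ⟨K, fun k hk => ?_⟩
    by_contra hne
    have h1 := (hsupp _ hne).2
    rw [div_lt_iff₀ h] at hK
    have h2 : (K : ℝ) ≤ k := by exact_mod_cast hk
    have h3 : (K : ℝ) * ρ ≤ k * ρ := mul_le_mul_of_nonneg_right h2 h.le
    linarith

theorem bb1_hasSum [NeZero N] (χ : DirichletCharacter ℂ N) {A : ℝ → ℂ} (hA : TA A) (ρ : ℝ) :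
    HasSum (fun n : ℕ => if n = 0 then 0 else χ n * A (n * ρ)) (BB χ A ρ) := by
  obtain ⟨r, R, hr, hsupp⟩ := hA.supp
  obtain ⟨K, hK⟩ := bb1_fin hr hsupp ρ
  refine Summable.hasSum (summable_of_ne_finset_zero (s := Finset.range K) fun k hk => ?_)
  rw [Finset.mem_range, not_lt] at hk
  rw [hK k hk]
  simp

theorem bb1_blocks (g : ℕ → ℂ) (N K : ℕ) :
    ∑ n ∈ Finset.range (K * N), g n = ∑ k ∈ Finset.range K, ∑ j ∈ Finset.range N, g (k * N + j) := by
  induction K with
  | zero => simp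
  | succ K ih =>
    rw [Finset.sum_range_succ, ← ih, Nat.succ_mul, Finset.sum_range_add]

/-- one residue class: a Riemann sum -/
theorem bb1_riemann {A : ℝ → ℂ} (hsm : ContDiff ℝ ∞ A) {r R : ℝ} (hr : 0 < r)
    (hsupp : ∀ x, A x ≠ 0 → r ≤ x ∧ x ≤ R) (hint : ∫ x in Set.Ioi (0 : ℝ), A x = 0)
    {h c : ℝ} (hh : 0 < h) (hc : c - h ≤ 0) {K : ℕ} (hK : R ≤ c + (K - 1) * h) :
    ‖∑ k ∈ Finset.range K, A (c + k * h)‖ ≤ ∫ x : ℝ, ‖deriv A x‖ := by
  have hcont := hsm.continuous
  have hdc : Continuous (deriv A) := hsm.continuous_deriv (by simp)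
  have hcs : HasCompactSupport A := by
    refine HasCompactSupport.of_support_subset_isCompact (isCompact_Icc (a := r) (b := R)) ?_
    intro x hx
    exact hsupp x hx
  have hdint : Integrable (fun x => ‖deriv A x‖) :=
    (hdc.integrable_of_hasCompactSupport hcs.deriv).norm
  set p : ℕ → ℝ := fun k => c + ((k : ℝ) - 1) * h with hp
  have hp1 : ∀ k : ℕ, p (k + 1) = c + k * h := by
    intro k; simp only [hp]; push_cast; ring
  have hpstep : ∀ k : ℕ, p (k + 1) - p k = h := by
    intro k; simp only [hp]; push_cast; ring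
  have hple : ∀ k : ℕ, p k ≤ p (k + 1) := by
    intro k; linarith [hpstep k]
  have hcell : ∀ k : ℕ, ‖(h : ℂ) * A (p (k + 1)) - ∫ x in (p k)..(p (k + 1)), A x‖ ≤
      h * ∫ x in (p k)..(p (k + 1)), ‖deriv A x‖ := by
    intro k
    have e1 : (h : ℂ) * A (p (k + 1)) = ∫ x in (p k)..(p (k + 1)), A (p (k + 1)) := by
      rw [intervalIntegral.integral_const, hpstep k]
      simp
    rw [e1, ← intervalIntegral.integral_sub (by simp) (hcont.intervalIntegrable _ _)]
    have hb : ∀ x ∈ Set.uIoc (p k) (p (k + 1)), ‖A (p (k + 1)) - A x‖ ≤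
        ∫ x in (p k)..(p (k + 1)), ‖deriv A x‖ := by
      intro x hx
      rw [Set.uIoc_of_le (hple k)] at hx
      have e2 : A (p (k + 1)) - A x = ∫ y in x..(p (k + 1)), deriv A y := by
        rw [intervalIntegral.integral_deriv_eq_sub
          (fun y _ => (hsm.differentiable (by simp)) y) (hdc.intervalIntegrable _ _)]
      rw [e2]
      refine (intervalIntegral.norm_integral_le_integral_norm hx.2).trans ?_
      rw [intervalIntegral.integral_of_le hx.2, intervalIntegral.integral_of_le (hple k)]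
      exact setIntegral_mono_set hdint.integrableOn (Eventually.of_forall fun _ => norm_nonneg _)
        (Set.Ioc_subset_Ioc_left hx.1.le).eventuallyLE
    have := intervalIntegral.norm_integral_le_of_norm_le_const hb
    rw [hpstep k, abs_of_pos hh] at this
    linarith
  have htel : ∑ k ∈ Finset.range K, ∫ x in (p k)..(p (k + 1)), A x = ∫ x in (p 0)..(p K), A x :=
    intervalIntegral.sum_integral_adjacent_intervals fun k _ => hcont.intervalIntegrable _ _
  have htel2 : ∑ k ∈ Finset.range K, ∫ x in (p k)..(p (k + 1)), ‖deriv A x‖ =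
      ∫ x in (p 0)..(p K), ‖deriv A x‖ :=
    intervalIntegral.sum_integral_adjacent_intervals fun k _ => hdc.norm.intervalIntegrable _ _
  have hp0 : p 0 ≤ 0 := by simp only [hp]; push_cast; linarith
  have hpK : R ≤ p K := by simp only [hp]; linarith
  have hmono : p 0 ≤ p K := monotone_nat_of_le_succ hple (Nat.zero_le K)
  have hzero : ∫ x in (p 0)..(p K), A x = 0 := by
    rw [← hint, intervalIntegral.integral_of_le hmono]
    have e3 : ∫ x in Set.Ioc (p 0) (p K), A x = ∫ x, A x := by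
      refine setIntegral_eq_integral_of_forall_compl_eq_zero fun x hx => ?_
      by_contra hne
      have := hsupp x hne
      exact hx ⟨by linarith, by linarith⟩
    have e4 : ∫ x in Set.Ioi (0 : ℝ), A x = ∫ x, A x := by
      refine setIntegral_eq_integral_of_forall_compl_eq_zero fun x hx => ?_
      by_contra hne
      have := hsupp x hne
      exact hx (show (0 : ℝ) < x by linarith)
    rw [e3, e4]
  have hfin : ‖(h : ℂ) * ∑ k ∈ Finset.range K, A (c + k * h)‖ ≤ h * ∫ x : ℝ, ‖deriv A x‖ := by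
    have e5 : (h : ℂ) * ∑ k ∈ Finset.range K, A (c + k * h) =
        ∑ k ∈ Finset.range K, ((h : ℂ) * A (p (k + 1)) - ∫ x in (p k)..(p (k + 1)), A x) := by
      rw [Finset.sum_sub_distrib, htel, hzero, sub_zero, Finset.mul_sum]
      exact Finset.sum_congr rfl fun k _ => by rw [hp1]
    rw [e5]
    refine (norm_sum_le _ _).trans ((Finset.sum_le_sum fun k _ => hcell k).trans ?_)
    rw [← Finset.mul_sum, htel2, intervalIntegral.integral_of_le hmono]
    exact mul_le_mul_of_nonneg_left (setIntegral_le_integral hdint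
      (Eventually.of_forall fun _ => norm_nonneg _)) hh.le
  rw [norm_mul, Complex.norm_real, Real.norm_of_nonneg hh.le] at hfin
  exact le_of_mul_le_mul_left hfin hh

theorem BB_bdd [NeZero N] (χ : DirichletCharacter ℂ N) {A : ℝ → ℂ} (hA : TA A) :
    Measurable (BB χ A) ∧ ∃ C R : ℝ, (∀ ρ, 0 < ρ → ‖BB χ A ρ‖ ≤ C) ∧ ∀ ρ, R < ρ → BB χ A ρ = 0 := by
  obtain ⟨r, R, hr, hsupp⟩ := hA.supp
  have hN : (0 : ℝ) < N := by exact_mod_cast Nat.pos_of_ne_zero (NeZero.ne N)
  refine ⟨?_, N * ∫ x : ℝ, ‖deriv A x‖, max R 0, fun ρ hρ => ?_, fun ρ hρ => ?_⟩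
  · refine measurable_of_tendsto_metrizable (f := fun (K : ℕ) (ρ : ℝ) =>
      ∑ n ∈ Finset.range K, (if n = 0 then 0 else χ n * A (n * ρ))) (fun K => ?_) ?_
    · refine Finset.measurable_fun_sum _ fun n _ => ?_
      by_cases hn : n = 0
      · simp [hn]
      · simp only [hn, if_false]
        have h1 : Measurable fun ρ : ℝ => A (n * ρ) :=
          (hA.smooth.continuous.comp (by fun_prop)).measurable
        exact h1.const_mul _
    · rw [tendsto_pi_nhds]
      exact fun ρ => (bb1_hasSum χ hA ρ).tendsto_sum_nat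
  · obtain ⟨K₀, hK₀⟩ := bb1_fin hr hsupp ρ
    obtain ⟨K₁, hK₁⟩ := exists_nat_gt (R / (ρ * N))
    set K : ℕ := max K₀ (K₁ + 1) with hKdef
    have hN1 : 1 ≤ N := Nat.one_le_iff_ne_zero.2 (NeZero.ne N)
    -- the sum as a finite sum
    have hsum : BB χ A ρ = ∑ n ∈ Finset.range (K * N), χ ((n + 1 : ℕ) : ZMod N) * A ((n + 1 : ℕ) * ρ) := by
      have h1 := (bb1_hasSum χ hA ρ)
      have h2 : BB χ A ρ = ∑ n ∈ Finset.range (K * N + 1),
          (if n = 0 then 0 else χ n * A (n * ρ)) := by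
        refine h1.unique (hasSum_sum_of_ne_finset_zero fun n hn => ?_)
        rw [Finset.mem_range, not_lt] at hn
        have : K₀ ≤ n := by
          have h3 : K₀ ≤ K := le_max_left _ _
          have h4 : K ≤ K * N := Nat.le_mul_of_pos_right _ hN1
          omega
        rw [hK₀ n this]
        simp
      rw [h2, Finset.sum_range_succ']
      simp
    have hcls : ∀ j ∈ Finset.range N, ‖∑ k ∈ Finset.range K,
        A (((j : ℝ) + 1) * ρ + k * (N * ρ))‖ ≤ ∫ x : ℝ, ‖deriv A x‖ := by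
      intro j hj
      rw [Finset.mem_range] at hj
      have hj' : (j : ℝ) + 1 ≤ N := by exact_mod_cast hj
      refine bb1_riemann hA.smooth hr hsupp hA.int (by positivity) ?_ ?_
      · nlinarith
      · have h5 : (K₁ : ℝ) + 1 ≤ K := by
          have : K₁ + 1 ≤ K := le_max_right _ _
          exact_mod_cast this
        rw [div_lt_iff₀ (by positivity)] at hK₁
        have h6 : (K₁ : ℝ) * (ρ * N) ≤ ((K : ℝ) - 1) * (N * ρ) := by
          have : 0 < N * ρ := by positivity
          nlinarith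
        have h7 : 0 ≤ ((j : ℝ) + 1) * ρ := by positivity
        linarith
    rw [hsum, bb1_blocks, Finset.sum_comm]
    have e6 : ∀ j ∈ Finset.range N, ∑ k ∈ Finset.range K,
        χ ((k * N + j + 1 : ℕ) : ZMod N) * A ((k * N + j + 1 : ℕ) * ρ) =
        χ ((j + 1 : ℕ) : ZMod N) * ∑ k ∈ Finset.range K, A (((j : ℝ) + 1) * ρ + k * (N * ρ)) := by
      intro j _
      rw [Finset.mul_sum]
      refine Finset.sum_congr rfl fun k _ => ?_
      congr 2
      · push_cast
        simp
      · push_cast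
        ring
    rw [Finset.sum_congr rfl e6]
    refine (norm_sum_le _ _).trans ?_
    calc ∑ j ∈ Finset.range N, ‖χ ((j + 1 : ℕ) : ZMod N) *
          ∑ k ∈ Finset.range K, A (((j : ℝ) + 1) * ρ + k * (N * ρ))‖
        ≤ ∑ j ∈ Finset.range N, ∫ x : ℝ, ‖deriv A x‖ := by
          refine Finset.sum_le_sum fun j hj => ?_
          rw [norm_mul]
          have h8 : ‖χ ((j + 1 : ℕ) : ZMod N)‖ ≤ 1 := DirichletCharacter.norm_le_one χ _
          exact (mul_le_of_le_one_left (norm_nonneg _) h8).trans (hcls j hj)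
      _ = N * ∫ x : ℝ, ‖deriv A x‖ := by simp
  · have h0 : 0 < ρ := (le_max_right _ _).trans_lt hρ
    have h1 : R < ρ := (le_max_left _ _).trans_lt hρ
    unfold BB
    have : ∀ n : ℕ, (if n = 0 then (0 : ℂ) else χ n * A (n * ρ)) = 0 := by
      intro n
      by_cases hn : n = 0
      · simp [hn]
      · have hn1 : (1 : ℝ) ≤ n := by exact_mod_cast Nat.one_le_iff_ne_zero.2 hn
        have hz : A (n * ρ) = 0 := by
          by_contra hne
          have := (hsupp _ hne).2
          nlinarith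
        simp [hz]
    simp [this]

/-- the Mellin transform of a function supported in `[r, R]` -/
theorem bb1_mellin_eq {f : ℝ → ℂ} {r R : ℝ} (hr : 0 < r)
    (hsupp : ∀ x, f x ≠ 0 → r ≤ x ∧ x ≤ R) (s : ℂ) :
    mellin f s = ∫ t in (r / 2)..(max R r + 1), (t : ℂ) ^ (s - 1) * f t := by
  have hle : r / 2 ≤ max R r + 1 := by
    have := le_max_right R r
    linarith
  rw [intervalIntegral.integral_of_le hle]
  unfold mellin
  have : Set.Ioc (r / 2) (max R r + 1) ⊆ Set.Ioi 0 := fun x hx => by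
    have h1 : r / 2 < x := hx.1
    exact (half_pos hr).trans h1
  rw [setIntegral_eq_of_subset_of_forall_sdiff_eq_zero measurableSet_Ioi this]
  · rfl
  · intro x hx
    have hz : f x = 0 := by
      by_contra hne
      have h1 := hsupp x hne
      refine hx.2 ⟨by linarith, ?_⟩
      have := le_max_left R r
      linarith
    rw [hz, smul_zero]

theorem bb1_supp_deriv {f : ℝ → ℂ} {r R : ℝ} (hsupp : ∀ x, f x ≠ 0 → r ≤ x ∧ x ≤ R) :
    ∀ x, deriv f x ≠ 0 → r ≤ x ∧ x ≤ R := by
  intro x hx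
  have h1 : x ∈ tsupport f := by
    by_contra hn
    exact hx (by
      have : x ∉ tsupport (deriv f) := fun h => hn (tsupport_deriv_subset (𝕜 := ℝ) h)
      exact image_eq_zero_of_notMem_tsupport this)
  have h2 : tsupport f ⊆ Set.Icc r R :=
    closure_minimal (fun y hy => hsupp y hy) isClosed_Icc
  exact h2 h1

/-- integration by parts -/
theorem bb1_ibp {f : ℝ → ℂ} (hsm : ContDiff ℝ ∞ f) {r R : ℝ} (hr : 0 < r)
    (hsupp : ∀ x, f x ≠ 0 → r ≤ x ∧ x ≤ R) {s : ℂ} (hs : s ≠ 0) :
    mellin f s = -(s⁻¹ * mellin (deriv f) (s + 1)) := by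
  rw [bb1_mellin_eq hr hsupp, bb1_mellin_eq hr (bb1_supp_deriv hsupp)]
  set a : ℝ := r / 2 with ha
  set b : ℝ := max R r + 1 with hb
  have hle : a ≤ b := by
    have := le_max_right R r
    simp only [ha, hb]; linarith
  have ha0 : 0 < a := half_pos hr
  have hfa : f a = 0 := by
    by_contra hne
    have := (hsupp a hne).1
    simp only [ha] at this; linarith
  have hfb : f b = 0 := by
    by_contra hne
    have := (hsupp b hne).2
    have h2 := le_max_left R r
    simp only [hb] at this; linarith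
  have hpos : ∀ x ∈ Set.uIcc a b, 0 < x := by
    intro x hx
    rw [Set.uIcc_of_le hle] at hx
    exact ha0.trans_le hx.1
  have hdc : Continuous (deriv f) := hsm.continuous_deriv (by simp)
  have hv : ∀ x ∈ Set.uIcc a b, HasDerivAt (fun x : ℝ => (x : ℂ) ^ s / s) ((x : ℂ) ^ (s - 1)) x := by
    intro x hx
    have hx0 := hpos x hx
    have h1 : HasDerivAt (fun x : ℝ => (x : ℂ) ^ s) (s * (x : ℂ) ^ (s - 1)) x := by
      have h2 := (hasDerivAt_id (x : ℂ)).cpow_const (c := s) (Or.inl (by simpa using hx0))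
      simpa using h2.comp_ofReal
    have h3 := h1.div_const s
    rwa [mul_div_cancel_left₀ _ hs] at h3
  have hu : ∀ x ∈ Set.uIcc a b, HasDerivAt f (deriv f x) x := fun x _ =>
    (hsm.differentiable (by simp) x).hasDerivAt
  have hci : ContinuousOn (fun x : ℝ => (x : ℂ) ^ (s - 1)) (Set.uIcc a b) := by
    intro x hx
    have hx0 := hpos x hx
    exact (continuousAt_ofReal_cpow_const x (s - 1) (Or.inr hx0.ne')).continuousWithinAt
  have key := intervalIntegral.integral_mul_deriv_eq_deriv_mul hu hv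
    (hdc.intervalIntegrable _ _) hci.intervalIntegrable
  rw [hfa, hfb, zero_mul, zero_mul, sub_zero, zero_sub] at key
  have e1 : ∫ t in a..b, (t : ℂ) ^ (s - 1) * f t = ∫ t in a..b, f t * (t : ℂ) ^ (s - 1) :=
    intervalIntegral.integral_congr fun t _ => mul_comm _ _
  rw [e1, key, ← intervalIntegral.integral_const_mul]
  congr 1
  refine intervalIntegral.integral_congr fun t _ => ?_
  simp only [add_sub_cancel_right]
  rw [div_eq_mul_inv]
  ring

theorem bb1_iter {f : ℝ → ℂ} (hsm : ContDiff ℝ ∞ f) {r R : ℝ} (hr : 0 < r)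
    (hsupp : ∀ x, f x ≠ 0 → r ≤ x ∧ x ≤ R) (n : ℕ) : ∀ s : ℂ, 1 ≤ s.re →
    ‖mellin f s‖ ≤ (2 / (1 + |s.im|)) ^ n * ‖mellin (iteratedDeriv n f) (s + n)‖ := by
  induction n generalizing f with
  | zero => intro s _; simp
  | succ n ih =>
    intro s hs
    have hs0 : s ≠ 0 := by
      rintro rfl
      simp at hs
      linarith
    have hdsm : ContDiff ℝ ∞ (deriv f) := by
      have := hsm.iterate_deriv 1
      simpa using this
    have h1 := ih hdsm (bb1_supp_deriv hsupp) (s + 1) (by simp; linarith)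
    rw [bb1_ibp hsm hr hsupp hs0, norm_neg, norm_mul, norm_inv]
    have h2 : ‖s‖⁻¹ ≤ 2 / (1 + |s.im|) := by
      have h3 : |s.im| ≤ ‖s‖ := Complex.abs_im_le_norm s
      have h4 : s.re ≤ ‖s‖ := (le_abs_self _).trans (Complex.abs_re_le_norm s)
      have h5 : 0 < ‖s‖ := by linarith
      rw [inv_eq_one_div, div_le_div_iff₀ h5 (by positivity)]
      linarith
    have him : (s + 1).im = s.im := by simp
    rw [him, ← iteratedDeriv_succ'] at h1
    have e1 : s + 1 + (n : ℂ) = s + ((n + 1 : ℕ) : ℂ) := by push_cast; ring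
    rw [e1] at h1
    calc ‖s‖⁻¹ * ‖mellin (deriv f) (s + 1)‖ ≤ (2 / (1 + |s.im|)) *
          ((2 / (1 + |s.im|)) ^ n * ‖mellin (iteratedDeriv (n + 1) f) (s + ((n + 1 : ℕ) : ℂ))‖) :=
          mul_le_mul h2 h1 (norm_nonneg _) (by positivity)
      _ = _ := by rw [pow_succ']; ring

theorem bb1_supp_iter {f : ℝ → ℂ} {r R : ℝ} (hsupp : ∀ x, f x ≠ 0 → r ≤ x ∧ x ≤ R) (n : ℕ) :
    ∀ x, iteratedDeriv n f x ≠ 0 → r ≤ x ∧ x ≤ R := by
  induction n with
  | zero => simpa using hsupp
  | succ n ih =>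
    rw [iteratedDeriv_succ]
    exact bb1_supp_deriv ih

/-- rapid decay of the Mellin transform of a test function -/
theorem mellin_TA {ι : Type} {A : ι → ℝ → ℂ} (hA : TAF A) (n : ℕ) : ∃ C : ℝ, ∀ i, ∀ κ : ℝ,
    ‖mellin (A i) (1 + κ * Complex.I)‖ ≤ C * min 1 |κ| * (1 + |κ|) ^ (-(n : ℝ)) := by
  obtain ⟨r, R, hr, hsupp⟩ := hA.supp
  obtain ⟨C₀, hC₀⟩ := hA.der 0
  obtain ⟨C₁, hC₁⟩ := hA.der n
  set b : ℝ := max R r + 1 with hb
  have hrb : r < b := by
    have := le_max_right R r
    simp only [hb]; linarith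
  have hRb : R ≤ b := by
    have := le_max_left R r
    simp only [hb]; linarith
  have hb0 : 0 < b := hr.trans hrb
  have hab : r / 2 ≤ b := by linarith
  set Lg : ℝ := max |Real.log (r / 2)| |Real.log b| with hLg
  have hLg0 : 0 ≤ Lg := le_max_of_le_left (abs_nonneg _)
  set D₀ : ℝ := Lg * max C₀ 0 * (b - r / 2) with hD₀
  set D₁ : ℝ := 2 ^ n * (b ^ n * max C₁ 0 * (b - r / 2)) with hD₁
  have hba : 0 ≤ b - r / 2 := by linarith
  have hD₀0 : 0 ≤ D₀ := by
    have := le_max_right C₀ 0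
    positivity
  have hD₁0 : 0 ≤ D₁ := by
    have := le_max_right C₁ 0
    positivity
  -- small frequencies
  have hsmall : ∀ i, ∀ κ : ℝ, ‖mellin (A i) (1 + κ * Complex.I)‖ ≤ D₀ * |κ| := by
    intro i κ
    have hs := fun x => hsupp i x
    have hint0 : ∫ t in (r / 2)..b, A i t = 0 := by
      rw [← (hA.ta i).int, intervalIntegral.integral_of_le hab]
      symm
      refine setIntegral_eq_of_subset_of_forall_sdiff_eq_zero measurableSet_Ioi ?_ ?_
      · intro x hx
        exact (half_pos hr).trans hx.1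
      · intro x hx
        by_contra hne
        have h1 := hs x hne
        exact hx.2 ⟨by linarith, by linarith⟩
    have hcont := (hA.ta i).smooth.continuous
    have hci : ContinuousOn (fun t : ℝ => (t : ℂ) ^ ((1 + κ * Complex.I : ℂ) - 1) * A i t)
        (Set.uIcc (r / 2) b) := by
      intro x hx
      rw [Set.uIcc_of_le hab] at hx
      have hx0 : 0 < x := (half_pos hr).trans_le hx.1
      exact ((continuousAt_ofReal_cpow_const x _ (Or.inr hx0.ne')).mul
        hcont.continuousAt).continuousWithinAt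
    rw [bb1_mellin_eq hr hs, ← hb]
    have e1 : ∫ t in (r / 2)..b, (t : ℂ) ^ ((1 + κ * Complex.I : ℂ) - 1) * A i t =
        ∫ t in (r / 2)..b, ((t : ℂ) ^ ((1 + κ * Complex.I : ℂ) - 1) * A i t - A i t) := by
      rw [intervalIntegral.integral_sub hci.intervalIntegrable (hcont.intervalIntegrable _ _),
        hint0, sub_zero]
    rw [e1]
    have hbnd : ∀ t ∈ Set.uIoc (r / 2) b,
        ‖(t : ℂ) ^ ((1 + κ * Complex.I : ℂ) - 1) * A i t - A i t‖ ≤ Lg * max C₀ 0 * |κ| := by
      intro t ht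
      rw [Set.uIoc_of_le hab] at ht
      have ht0 : 0 < t := (half_pos hr).trans ht.1
      have e2 : (t : ℂ) ^ ((1 + κ * Complex.I : ℂ) - 1) * A i t - A i t =
          (cexp (((κ * Real.log t : ℝ) : ℂ) * Complex.I) - 1) * A i t := by
        rw [add_sub_cancel_left, cpow_def_of_ne_zero (by exact_mod_cast ht0.ne'),
          ← ofReal_log ht0.le]
        have : (Real.log t : ℂ) * (κ * Complex.I) = ((κ * Real.log t : ℝ) : ℂ) * Complex.I := by
          push_cast; ring
        rw [this]; ring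
      rw [e2, norm_mul]
      have h1 : ‖cexp (((κ * Real.log t : ℝ) : ℂ) * Complex.I) - 1‖ ≤ |κ * Real.log t| := by
        have := Real.norm_exp_I_mul_ofReal_sub_one_le (x := κ * Real.log t)
        rw [mul_comm] at this
        simpa using this
      have h2 : |Real.log t| ≤ Lg := by
        have h3 : Real.log (r / 2) ≤ Real.log t := Real.log_le_log (half_pos hr) ht.1.le
        have h4 : Real.log t ≤ Real.log b := Real.log_le_log ht0 ht.2
        exact abs_le_max_abs_abs h3 h4
      have h5 : ‖A i t‖ ≤ max C₀ 0 := by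
        have := hC₀ i t
        rw [iteratedDeriv_zero] at this
        exact this.trans (le_max_left _ _)
      rw [abs_mul] at h1
      calc ‖cexp (((κ * Real.log t : ℝ) : ℂ) * Complex.I) - 1‖ * ‖A i t‖
          ≤ (|κ| * |Real.log t|) * ‖A i t‖ := mul_le_mul_of_nonneg_right h1 (norm_nonneg _)
        _ ≤ (|κ| * Lg) * max C₀ 0 := by gcongr
        _ = _ := by ring
    refine (intervalIntegral.norm_integral_le_of_norm_le_const hbnd).trans (le_of_eq ?_)
    rw [abs_of_nonneg hba, hD₀]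
    ring
  -- large frequencies
  have hlarge : ∀ i, ∀ κ : ℝ, ‖mellin (A i) (1 + κ * Complex.I)‖ ≤
      D₁ * (1 + |κ|) ^ (-(n : ℝ)) := by
    intro i κ
    have h1 := bb1_iter (hA.ta i).smooth hr (hsupp i) n (1 + κ * Complex.I) (by simp)
    have him : (1 + κ * Complex.I : ℂ).im = κ := by simp
    rw [him] at h1
    have h2 : ‖mellin (iteratedDeriv n (A i)) (1 + κ * Complex.I + n)‖ ≤
        b ^ n * max C₁ 0 * (b - r / 2) := by
      rw [bb1_mellin_eq hr (bb1_supp_iter (hsupp i) n), ← hb]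
      have hbnd : ∀ t ∈ Set.uIoc (r / 2) b,
          ‖(t : ℂ) ^ ((1 + κ * Complex.I + n : ℂ) - 1) * iteratedDeriv n (A i) t‖ ≤
            b ^ n * max C₁ 0 := by
        intro t ht
        rw [Set.uIoc_of_le hab] at ht
        have ht0 : 0 < t := (half_pos hr).trans ht.1
        rw [norm_mul, norm_cpow_eq_rpow_re_of_pos ht0]
        have e3 : ((1 + κ * Complex.I + n : ℂ) - 1).re = n := by simp
        rw [e3, Real.rpow_natCast]
        have h3 : t ^ n ≤ b ^ n := pow_le_pow_left₀ ht0.le ht.2 n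
        have h4 : ‖iteratedDeriv n (A i) t‖ ≤ max C₁ 0 := (hC₁ i t).trans (le_max_left _ _)
        exact mul_le_mul h3 h4 (norm_nonneg _) (by positivity)
      refine (intervalIntegral.norm_integral_le_of_norm_le_const hbnd).trans (le_of_eq ?_)
      rw [abs_of_nonneg hba]
    have h6 : 0 < 1 + |κ| := by positivity
    calc ‖mellin (A i) (1 + κ * Complex.I)‖ ≤ (2 / (1 + |κ|)) ^ n *
          (b ^ n * max C₁ 0 * (b - r / 2)) :=
          h1.trans (mul_le_mul_of_nonneg_left h2 (by positivity))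
      _ = D₁ * (1 + |κ|) ^ (-(n : ℝ)) := by
          rw [Real.rpow_neg h6.le, Real.rpow_natCast, div_pow, hD₁]
          ring
  refine ⟨2 ^ n * D₀ + D₁, fun i κ => ?_⟩
  have h6 : 0 < 1 + |κ| := by positivity
  have hp0 : 0 ≤ (1 + |κ|) ^ (-(n : ℝ)) := by positivity
  rcases le_total |κ| 1 with h | h
  · rw [min_eq_right h]
    have h7 : (1 : ℝ) ≤ 2 ^ n * (1 + |κ|) ^ (-(n : ℝ)) := by
      rw [Real.rpow_neg h6.le, Real.rpow_natCast, ← div_eq_mul_inv, one_le_div (by positivity)]
      exact pow_le_pow_left₀ h6.le (by linarith) n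
    calc ‖mellin (A i) (1 + κ * Complex.I)‖ ≤ D₀ * |κ| := hsmall i κ
      _ = D₀ * |κ| * 1 := by ring
      _ ≤ D₀ * |κ| * (2 ^ n * (1 + |κ|) ^ (-(n : ℝ))) :=
          mul_le_mul_of_nonneg_left h7 (by positivity)
      _ = 2 ^ n * D₀ * |κ| * (1 + |κ|) ^ (-(n : ℝ)) := by ring
      _ ≤ (2 ^ n * D₀ + D₁) * |κ| * (1 + |κ|) ^ (-(n : ℝ)) := by
          gcongr
          linarith
  · rw [min_eq_left h, mul_one]
    refine (hlarge i κ).trans (mul_le_mul_of_nonneg_right ?_ hp0)
    have : 0 ≤ 2 ^ n * D₀ := by positivity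
    linarith

end Pool.Agent.JO
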