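import Pool.Agent.Lib_helper63.JO.Defs2
import Pool.Agent.Lib_helper63.JOE.BB1
/-! JOE, block BB2: the Mellin transform of the sums over `n` (uses BB1) -/

namespace Pool.Agent.JO

open Complex MeasureTheory Filter Topology UpperHalfPlane ModularGroup
open scoped MatrixGroups Modular ENNReal ComplexConjugate ContDiff

variable {N : ℕ}

theorem bb2_conv {A : ℝ → ℂ} (hA : TA A) (s : ℂ) :
    MellinConvergent A s ∧ DifferentiableAt ℂ (mellin A) s := by
  obtain ⟨r, R, hr, hsupp⟩ := hA.supp
  have hloc : LocallyIntegrableOn A (Set.Ioi 0) :=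
    (hA.smooth.continuous.locallyIntegrable).locallyIntegrableOn _
  have htop : A =O[atTop] (fun x : ℝ => x ^ (-(s.re + 1))) := by
    have : A =ᶠ[atTop] fun _ => 0 := by
      filter_upwards [eventually_gt_atTop R] with x hx
      by_contra hne
      exact absurd (hsupp x hne).2 (not_le.2 hx)
    exact this.trans_isBigO (Asymptotics.isBigO_zero _ _)
  have hbot : A =O[𝓝[>] 0] (fun x : ℝ => x ^ (-(s.re - 1))) := by
    have : A =ᶠ[𝓝[>] 0] fun _ => 0 := by
      filter_upwards [mem_nhdsWithin_of_mem_nhds (Iio_mem_nhds hr)] with x hx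
      by_contra hne
      exact absurd (hsupp x hne).1 (not_le.2 hx)
    exact this.trans_isBigO (Asymptotics.isBigO_zero _ _)
  exact ⟨mellinConvergent_of_isBigO_rpow hloc htop (by linarith) hbot (by linarith),
    mellin_differentiableAt_of_isBigO_rpow hloc htop (by linarith) hbot (by linarith)⟩

theorem bb2_conv_bdd {B : ℝ → ℂ} (hB : Measurable B) {C R : ℝ}
    (hC : ∀ ρ, 0 < ρ → ‖B ρ‖ ≤ C) (hR : ∀ ρ, R < ρ → B ρ = 0) {s : ℂ} (hs : 0 < s.re) :
    MellinConvergent B s ∧ DifferentiableAt ℂ (mellin B) s := by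
  have hint : IntegrableOn B (Set.Ioi 0) := by
    have h1 : Integrable (fun x : ℝ => (Set.Ioc 0 R).indicator (fun _ => C) x) := by
      rw [integrable_indicator_iff measurableSet_Ioc]
      exact integrableOn_const (by simp) (by simp)
    refine Integrable.mono' h1.integrableOn hB.aestronglyMeasurable ?_
    refine (ae_restrict_iff' measurableSet_Ioi).2 (Eventually.of_forall fun x hx => ?_)
    have hx0 : (0 : ℝ) < x := hx
    by_cases hxR : x ≤ R
    · rw [Set.indicator_of_mem (show x ∈ Set.Ioc 0 R from ⟨hx0, hxR⟩)]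
      exact hC x hx0
    · rw [hR x (not_le.1 hxR), Set.indicator_of_notMem (fun h => hxR h.2)]
      simp
  have hloc : LocallyIntegrableOn B (Set.Ioi 0) := hint.locallyIntegrableOn
  have htop : B =O[atTop] (fun x : ℝ => x ^ (-(s.re + 1))) := by
    have : B =ᶠ[atTop] fun _ => 0 := by
      filter_upwards [eventually_gt_atTop R] with x hx
      exact hR x hx
    exact this.trans_isBigO (Asymptotics.isBigO_zero _ _)
  have hbot : B =O[𝓝[>] 0] (fun x : ℝ => x ^ (-(0 : ℝ))) := by
    refine Asymptotics.IsBigO.of_bound C ?_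
    filter_upwards [self_mem_nhdsWithin] with x hx
    simpa using hC x hx
  exact ⟨mellinConvergent_of_isBigO_rpow hloc htop (by linarith) hbot hs,
    mellin_differentiableAt_of_isBigO_rpow hloc htop (by linarith) hbot hs⟩

theorem bb2_right [NeZero N] (χ : DirichletCharacter ℂ N) {A : ℝ → ℂ} (hA : TA A) {s : ℂ}
    (hs : 1 < s.re) :
    mellin (BB χ A) s = DirichletCharacter.LFunction χ s * mellin A s := by
  have hconv := (bb2_conv hA s).1
  set g : ℕ → ℝ → ℂ := fun n t => if n = 0 then 0 else χ n * A (n * t) with hg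
  set F : ℕ → ℝ → ℂ := fun n t => (t : ℂ) ^ (s - 1) • g n t with hF
  have hFint : ∀ n, Integrable (F n) (volume.restrict (Set.Ioi 0)) := by
    intro n
    rcases Nat.eq_zero_or_pos n with rfl | hn
    · have : F 0 = fun _ => 0 := by
        funext t; simp [hF, hg]
      rw [this]
      exact integrable_zero _ _ _
    · have hn' : (0 : ℝ) < n := by exact_mod_cast hn
      have h1 : MellinConvergent (fun t : ℝ => A (n * t)) s :=
        (MellinConvergent.comp_mul_left hn').2 hconv
      have h2 : MellinConvergent (fun t : ℝ => (χ n : ℂ) • A (n * t)) s := h1.const_smul _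
      refine Integrable.congr h2 (Eventually.of_forall fun t => ?_)
      simp [hF, hg, hn.ne']
  have hFval : ∀ n, ∫ t in Set.Ioi (0 : ℝ), F n t =
      LSeries.term (fun n => χ n) s n * mellin A s := by
    intro n
    rcases Nat.eq_zero_or_pos n with rfl | hn
    · simp [hF, hg, LSeries.term]
    · have hn' : (0 : ℝ) < n := by exact_mod_cast hn
      have e1 : ∫ t in Set.Ioi (0 : ℝ), F n t = mellin (fun t : ℝ => (χ n : ℂ) • A (n * t)) s := by
        unfold mellin
        refine integral_congr_ae (Eventually.of_forall fun t => ?_)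
        simp [hF, hg, hn.ne']
      rw [e1, mellin_const_smul, mellin_comp_mul_left A s hn', LSeries.term_of_ne_zero hn.ne']
      simp only [smul_eq_mul]
      rw [cpow_neg]
      push_cast
      ring
  set K : ℝ := ∫ t in Set.Ioi (0 : ℝ), t ^ (s.re - 1) * ‖A t‖ with hK
  have hK0 : 0 ≤ K := by
    refine setIntegral_nonneg measurableSet_Ioi fun t ht => ?_
    have : (0 : ℝ) < t := ht
    positivity
  have hFsum : Summable fun n => ∫ t in Set.Ioi (0 : ℝ), ‖F n t‖ := by
    have hs1 : Summable fun n : ℕ => K * ((n : ℝ) ^ s.re)⁻¹ :=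
      (Real.summable_nat_rpow_inv.2 hs).mul_left K
    refine Summable.of_nonneg_of_le (fun n => integral_nonneg fun t => norm_nonneg _)
      (fun n => ?_) hs1
    rcases Nat.eq_zero_or_pos n with rfl | hn
    · have : (fun t => ‖F 0 t‖) = fun _ => 0 := by
        funext t; simp [hF, hg]
      rw [this]
      simp only [integral_zero]
      positivity
    · have hn' : (0 : ℝ) < n := by exact_mod_cast hn
      have h1 := integral_comp_mul_left_Ioi (fun t : ℝ => t ^ (s.re - 1) * ‖A t‖) 0 hn'
      rw [mul_zero, ← hK, smul_eq_mul] at h1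
      have h2 : ∫ t in Set.Ioi (0 : ℝ), ‖F n t‖ =
          ‖χ n‖ * ((n : ℝ) ^ (s.re - 1))⁻¹ * ((n : ℝ)⁻¹ * K) := by
        rw [← h1, ← integral_const_mul]
        refine setIntegral_congr_fun measurableSet_Ioi fun t ht => ?_
        have ht0 : (0 : ℝ) < t := ht
        have e2 : ‖(t : ℂ) ^ (s - 1)‖ = t ^ (s.re - 1) := by
          rw [norm_cpow_eq_rpow_re_of_pos ht0]; simp
        simp only [hF, hg, hn.ne', if_false, smul_eq_mul, norm_mul]
        rw [e2, Real.mul_rpow hn'.le ht0.le]
        have : (n : ℝ) ^ (s.re - 1) ≠ 0 := (Real.rpow_pos_of_pos hn' _).ne'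
        field_simp
      rw [h2]
      have h3 : ‖χ n‖ ≤ 1 := DirichletCharacter.norm_le_one χ n
      have e4 : ((n : ℝ) ^ (s.re - 1))⁻¹ * ((n : ℝ)⁻¹ * K) = K * ((n : ℝ) ^ s.re)⁻¹ := by
        rw [Real.rpow_sub_one hn'.ne']
        have : (n : ℝ) ^ s.re ≠ 0 := (Real.rpow_pos_of_pos hn' _).ne'
        field_simp
      rw [mul_assoc, e4]
      have h5 : 0 ≤ K * ((n : ℝ) ^ s.re)⁻¹ := by positivity
      exact mul_le_of_le_one_left h5 h3
  have hsum := hasSum_integral_of_summable_integral_norm hFint hFsum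
  have e5 : ∫ t in Set.Ioi (0 : ℝ), ∑' n, F n t = mellin (BB χ A) s := by
    unfold mellin
    refine integral_congr_ae (Eventually.of_forall fun t => ?_)
    simp only [hF, smul_eq_mul]
    rw [tsum_mul_left]
    rfl
  rw [e5] at hsum
  rw [← hsum.tsum_eq, DirichletCharacter.LFunction_eq_LSeries χ hs]
  unfold LSeries
  rw [← tsum_mul_right]
  exact tsum_congr fun n => hFval n

theorem bb2_preconn : IsPreconnected {s : ℂ | 0 < s.re ∧ s ≠ 1} := by
  have c1 : Convex ℝ {s : ℂ | 0 < s.re} := convex_halfSpace_re_gt 0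
  have c1' : Convex ℝ {s : ℂ | 1 < s.re} := convex_halfSpace_re_gt 1
  have c2 : Convex ℝ {s : ℂ | s.re < 1} := convex_halfSpace_re_lt 1
  have c3 : Convex ℝ {s : ℂ | 0 < s.im} := convex_halfSpace_im_gt 0
  have c4 : Convex ℝ {s : ℂ | s.im < 0} := convex_halfSpace_im_lt 0
  have h1 := (c1.inter c3).isPreconnected
  have h2 := (c1.inter c4).isPreconnected
  have h3 := c1'.isPreconnected
  have h4 := (c1.inter c2).isPreconnected
  have h13 := IsPreconnected.union (2 + Complex.I : ℂ) (by constructor <;> norm_num)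
    (by norm_num) h1 h3
  have h134 := IsPreconnected.union (1 / 2 + Complex.I : ℂ) (Or.inl (by constructor <;> norm_num))
    (by constructor <;> norm_num) h13 h4
  have h1342 := IsPreconnected.union (2 - Complex.I : ℂ) (Or.inl (Or.inr (by norm_num)))
    (by constructor <;> norm_num) h134 h2
  convert h1342 using 1
  ext s
  simp only [Set.mem_ofPred_eq, Set.mem_union, Set.mem_inter_iff]
  constructor
  · rintro ⟨hs, hs1⟩
    rcases lt_trichotomy s.im 0 with h | h | h
    · exact Or.inr ⟨hs, h⟩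
    · rcases lt_trichotomy s.re 1 with h' | h' | h'
      · exact Or.inl (Or.inr ⟨hs, h'⟩)
      · exact absurd (Complex.ext (by simpa using h') (by simpa using h)) hs1
      · exact Or.inl (Or.inl (Or.inr h'))
    · exact Or.inl (Or.inl (Or.inl ⟨hs, h⟩))
  · rintro (((⟨hs, h⟩ | h) | ⟨hs, h⟩) | ⟨hs, h⟩)
    · exact ⟨hs, fun e => by rw [e] at h; simp at h⟩
    · exact ⟨by linarith, fun e => by rw [e] at h; simp at h⟩
    · exact ⟨hs, fun e => by rw [e] at h; simp at h⟩
    · exact ⟨hs, fun e => by rw [e] at h; simp at h⟩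

/-- the Mellin transform of `∑_n χ(n) A(n ρ)` -/
theorem BB_mellin [NeZero N] (χ : DirichletCharacter ℂ N) {A : ℝ → ℂ} (hA : TA A) {s : ℂ}
    (hs : 0 < s.re) (hs1 : s ≠ 1) :
    mellin (BB χ A) s = DirichletCharacter.LFunction χ s * mellin A s := by
  obtain ⟨hm, C, R, hC, hR⟩ := BB_bdd χ hA
  have hopen : IsOpen {s : ℂ | 0 < s.re ∧ s ≠ 1} :=
    (isOpen_lt continuous_const Complex.continuous_re).inter isOpen_ne
  have hf : AnalyticOnNhd ℂ (mellin (BB χ A)) {s : ℂ | 0 < s.re ∧ s ≠ 1} := by
    refine DifferentiableOn.analyticOnNhd (fun z hz => ?_) hopen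
    exact (bb2_conv_bdd hm hC hR hz.1).2.differentiableWithinAt
  have hg : AnalyticOnNhd ℂ (fun s => DirichletCharacter.LFunction χ s * mellin A s)
      {s : ℂ | 0 < s.re ∧ s ≠ 1} := by
    refine DifferentiableOn.analyticOnNhd (fun z hz => ?_) hopen
    exact ((DirichletCharacter.differentiableAt_LFunction χ z (Or.inl hz.2)).mul
      (bb2_conv hA z).2).differentiableWithinAt
  have h2 : (2 : ℂ) ∈ {s : ℂ | 0 < s.re ∧ s ≠ 1} := ⟨by norm_num, by norm_num⟩
  refine hf.eqOn_of_preconnected_of_eventuallyEq hg bb2_preconn h2 ?_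
    (show s ∈ {s : ℂ | 0 < s.re ∧ s ≠ 1} from ⟨hs, hs1⟩)
  have h3 : {s : ℂ | 1 < s.re} ∈ 𝓝 (2 : ℂ) :=
    (isOpen_lt continuous_const Complex.continuous_re).mem_nhds (by norm_num)
  filter_upwards [h3] with z hz
  exact bb2_right χ hA hz

end Pool.Agent.JO
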