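import Pool.Agent.Lib_helper63.JO.Defs2
/-! Block LRA of part E: `L(1 + i κ) / L(1 + δ + i κ)`. -/

namespace Pool.Agent.JO

open Complex MeasureTheory Filter Topology

variable {N : ℕ}

theorem lra_period [NeZero N] (χ : DirichletCharacter ℂ N) (a : ℕ) :
    ∑ k ∈ Finset.Ico a (a + N), χ (k : ZMod N) = ∑ k ∈ Finset.range N, χ (k : ZMod N) := by
  induction a with
  | zero => rw [Finset.range_eq_Ico, zero_add]
  | succ a ih =>
    have hN : 0 < N := Nat.pos_of_ne_zero (NeZero.ne N)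
    rw [← ih]
    have h1 : ∑ k ∈ Finset.Ico a (a + 1 + N), χ (k : ZMod N) =
        χ (a : ZMod N) + ∑ k ∈ Finset.Ico (a + 1) (a + 1 + N), χ (k : ZMod N) := by
      rw [Finset.sum_eq_sum_Ico_succ_bot (by omega)]
    have h2 : ∑ k ∈ Finset.Ico a (a + 1 + N), χ (k : ZMod N) =
        ∑ k ∈ Finset.Ico a (a + N), χ (k : ZMod N) + χ ((a + N : ℕ) : ZMod N) := by
      rw [show a + 1 + N = a + N + 1 by ring, Finset.sum_Ico_succ_top (by omega)]
    have h3 : χ ((a + N : ℕ) : ZMod N) = χ (a : ZMod N) := by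
      push_cast
      simp
    rw [h3] at h2
    have := h1.symm.trans h2
    linear_combination this

theorem lra_partial [NeZero N] (χ : DirichletCharacter ℂ N) :
    ∃ c : ℂ, ‖c‖ ≤ 1 ∧ ∀ n : ℕ, ‖∑ k ∈ Finset.Icc 1 n, χ k - c * n‖ ≤ 2 * N := by
  have hN : 0 < N := Nat.pos_of_ne_zero (NeZero.ne N)
  have hN0 : (0 : ℝ) < N := by exact_mod_cast hN
  have hNc : (N : ℂ) ≠ 0 := by exact_mod_cast hN.ne'
  set S : ℂ := ∑ k ∈ Finset.range N, χ (k : ZMod N) with hS
  have hSn : ‖S‖ ≤ N := by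
    calc ‖S‖ ≤ ∑ k ∈ Finset.range N, ‖χ (k : ZMod N)‖ := norm_sum_le _ _
      _ ≤ ∑ k ∈ Finset.range N, (1 : ℝ) := Finset.sum_le_sum fun k _ => χ.norm_le_one _
      _ = N := by simp
  have hc : ‖S / N‖ ≤ 1 := by
    rw [norm_div, Complex.norm_natCast, div_le_one hN0]
    exact hSn
  refine ⟨S / N, hc, fun n => ?_⟩
  induction n using Nat.strong_induction_on with
  | _ n ih =>
    rcases lt_or_ge n N with h | h
    · have h1 : ‖∑ k ∈ Finset.Icc 1 n, χ (k : ZMod N)‖ ≤ N := by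
        calc _ ≤ ∑ k ∈ Finset.Icc 1 n, ‖χ (k : ZMod N)‖ := norm_sum_le _ _
          _ ≤ ∑ k ∈ Finset.Icc 1 n, (1 : ℝ) := Finset.sum_le_sum fun k _ => χ.norm_le_one _
          _ = n := by simp
          _ ≤ N := by exact_mod_cast h.le
      have h2 : ‖S / N * n‖ ≤ N := by
        rw [norm_mul, Complex.norm_natCast]
        calc ‖S / N‖ * n ≤ 1 * N := by
              apply mul_le_mul hc (by exact_mod_cast h.le) (by positivity) zero_le_one
          _ = N := one_mul _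
      calc _ ≤ ‖∑ k ∈ Finset.Icc 1 n, χ (k : ZMod N)‖ + ‖S / N * n‖ := norm_sub_le _ _
        _ ≤ N + N := add_le_add h1 h2
        _ = 2 * N := by ring
    · have h1 := ih (n - N) (by omega)
      have h2 : ∑ k ∈ Finset.Icc 1 n, χ (k : ZMod N) =
          ∑ k ∈ Finset.Icc 1 (n - N), χ (k : ZMod N) + S := by
        have e1 : ∀ m : ℕ, Finset.Icc 1 m = Finset.Ico 1 (m + 1) := fun m => by
          ext k; simp only [Finset.mem_Icc, Finset.mem_Ico]; omega
        rw [e1, e1, ← Finset.sum_Ico_consecutive _ (show 1 ≤ n - N + 1 by omega)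
          (show n - N + 1 ≤ n + 1 by omega)]
        have := lra_period χ (n - N + 1)
        rw [show n - N + 1 + N = n + 1 by omega] at this
        rw [this]
      have h3 : ∑ k ∈ Finset.Icc 1 n, χ (k : ZMod N) - S / N * n =
          ∑ k ∈ Finset.Icc 1 (n - N), χ (k : ZMod N) - S / N * ((n - N : ℕ) : ℂ) := by
        rw [h2, Nat.cast_sub h]
        field_simp
        ring
      rw [h3]
      exact h1

/-- the remainder -/
noncomputable def lra_B [NeZero N] (χ : DirichletCharacter ℂ N) (c : ℂ) (t : ℝ) : ℂ :=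
  ∑ k ∈ Finset.Icc 1 ⌊t⌋₊, χ (k : ZMod N) - c * t

theorem lra_B_le [NeZero N] (χ : DirichletCharacter ℂ N) {c : ℂ} (hc : ‖c‖ ≤ 1)
    (h : ∀ n : ℕ, ‖∑ k ∈ Finset.Icc 1 n, χ k - c * n‖ ≤ 2 * N) {t : ℝ} (ht : 0 ≤ t) :
    ‖lra_B χ c t‖ ≤ 2 * N + 1 := by
  have h1 : lra_B χ c t = (∑ k ∈ Finset.Icc 1 ⌊t⌋₊, χ (k : ZMod N) - c * (⌊t⌋₊ : ℕ)) -
      c * ((t - ⌊t⌋₊ : ℝ) : ℂ) := by
    unfold lra_B
    push_cast
    ring
  rw [h1]
  refine (norm_sub_le _ _).trans (add_le_add (h _) ?_)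
  rw [norm_mul, Complex.norm_real, Real.norm_eq_abs, abs_of_nonneg
    (sub_nonneg.2 (Nat.floor_le ht))]
  have h2 : t - ⌊t⌋₊ ≤ 1 := by
    have := (Nat.lt_floor_add_one t).le
    linarith
  calc ‖c‖ * (t - ⌊t⌋₊) ≤ 1 * 1 :=
        mul_le_mul hc h2 (sub_nonneg.2 (Nat.floor_le ht)) zero_le_one
    _ = 1 := one_mul _

theorem lra_B_meas [NeZero N] (χ : DirichletCharacter ℂ N) (c : ℂ) : Measurable (lra_B χ c) := by
  unfold lra_B
  apply Measurable.sub
  · exact (measurable_from_nat (f := fun n : ℕ => ∑ k ∈ Finset.Icc 1 n, χ (k : ZMod N))).comp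
      Nat.measurable_floor
  · fun_prop

/-- the error integral -/
noncomputable def lra_G [NeZero N] (χ : DirichletCharacter ℂ N) (c : ℂ) (s : ℂ) : ℂ :=
  ∫ t in Set.Ioi (1 : ℝ), lra_B χ c t * (t : ℂ) ^ (-(s + 1))

theorem lra_int [NeZero N] (χ : DirichletCharacter ℂ N) {c : ℂ} (hc : ‖c‖ ≤ 1)
    (h : ∀ n : ℕ, ‖∑ k ∈ Finset.Icc 1 n, χ k - c * n‖ ≤ 2 * N) {s : ℂ} (hs : 1 < s.re) :
    IntegrableOn (fun t : ℝ => lra_B χ c t * (t : ℂ) ^ (-(s + 1))) (Set.Ioi 1) := by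
  have h1 : IntegrableOn (fun t : ℝ => (2 * (N : ℝ) + 1) * t ^ (-s.re - 1)) (Set.Ioi 1) :=
    (integrableOn_Ioi_rpow_of_lt (by linarith) one_pos).const_mul _
  refine Integrable.mono' h1 ?_ ?_
  · apply Measurable.aestronglyMeasurable
    apply (lra_B_meas χ c).mul
    exact (Complex.measurable_ofReal).pow_const _
  · rw [ae_restrict_iff' measurableSet_Ioi]
    refine Filter.Eventually.of_forall fun t ht => ?_
    have ht0 : (0 : ℝ) < t := lt_trans one_pos ht
    rw [norm_mul, Complex.norm_cpow_eq_rpow_re_of_pos ht0]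
    have : (-(s + 1)).re = -s.re - 1 := by simp; ring
    rw [this]
    exact mul_le_mul_of_nonneg_right (lra_B_le χ hc h ht0.le) (by positivity)

theorem lra_rep [NeZero N] (χ : DirichletCharacter ℂ N) {c : ℂ} (hc : ‖c‖ ≤ 1)
    (h : ∀ n : ℕ, ‖∑ k ∈ Finset.Icc 1 n, χ k - c * n‖ ≤ 2 * N) {s : ℂ} (hs : 1 < s.re) :
    DirichletCharacter.LFunction χ s = s * (c / (s - 1) + lra_G χ c s) := by
  rw [DirichletCharacter.LFunction_eq_LSeries χ hs]
  have hO : (fun n : ℕ => ∑ k ∈ Finset.Icc 1 n, χ (k : ZMod N)) =O[atTop]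
      fun n => (n : ℝ) ^ (1 : ℝ) := by
    apply Asymptotics.IsBigO.of_bound 1
    refine Filter.Eventually.of_forall fun n => ?_
    rw [Real.rpow_one, one_mul, Real.norm_of_nonneg (Nat.cast_nonneg n)]
    calc _ ≤ ∑ k ∈ Finset.Icc 1 n, ‖χ (k : ZMod N)‖ := norm_sum_le _ _
      _ ≤ ∑ k ∈ Finset.Icc 1 n, (1 : ℝ) := Finset.sum_le_sum fun k _ => χ.norm_le_one _
      _ = n := by simp
  rw [LSeries_eq_mul_integral (fun n => χ (n : ZMod N)) zero_le_one hs
    (χ.LSeriesSummable_of_one_lt_re hs) hO]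
  congr 1
  have h1 : ∫ t in Set.Ioi (1 : ℝ), (t : ℂ) ^ (-s) = 1 / (s - 1) := by
    rw [integral_Ioi_cpow_of_lt (by simpa using hs) one_pos]
    have : s - 1 ≠ 0 := by
      intro h0
      have : s = 1 := by linear_combination h0
      rw [this] at hs
      simp at hs
    have h2 : -s + 1 ≠ 0 := by
      intro h0; apply this; linear_combination -h0
    simp only [Complex.ofReal_one, Complex.one_cpow]
    field_simp
    ring
  have hi : IntegrableOn (fun t : ℝ => (t : ℂ) ^ (-s)) (Set.Ioi 1) :=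
    integrableOn_Ioi_cpow_of_lt (by simpa using hs) one_pos
  have h2 : c / (s - 1) = ∫ t in Set.Ioi (1 : ℝ), c * (t : ℂ) ^ (-s) := by
    rw [integral_const_mul, h1]; ring
  rw [h2]
  unfold lra_G
  rw [← integral_add (hi.const_mul c) (lra_int χ hc h hs)]
  refine setIntegral_congr_fun measurableSet_Ioi fun t ht => ?_
  have ht0 : (t : ℂ) ≠ 0 := by
    have : (0 : ℝ) < t := lt_trans one_pos ht
    exact_mod_cast this.ne'
  simp only [lra_B]
  have h3 : (t : ℂ) ^ (-s) = t * (t : ℂ) ^ (-(s + 1)) := by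
    rw [show -s = 1 + (-(s + 1)) by ring, Complex.cpow_add _ _ ht0, Complex.cpow_one]
  rw [h3]; ring

theorem lra_G_le [NeZero N] (χ : DirichletCharacter ℂ N) {c : ℂ} (hc : ‖c‖ ≤ 1)
    (h : ∀ n : ℕ, ‖∑ k ∈ Finset.Icc 1 n, χ k - c * n‖ ≤ 2 * N) {s : ℂ} (hs : 1 < s.re) :
    ‖lra_G χ c s‖ ≤ 2 * N + 1 := by
  have h1 : IntegrableOn (fun t : ℝ => (2 * (N : ℝ) + 1) * t ^ (-s.re - 1)) (Set.Ioi 1) :=
    (integrableOn_Ioi_rpow_of_lt (by linarith) one_pos).const_mul _
  unfold lra_G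
  calc ‖∫ t in Set.Ioi (1 : ℝ), lra_B χ c t * (t : ℂ) ^ (-(s + 1))‖
      ≤ ∫ t in Set.Ioi (1 : ℝ), (2 * (N : ℝ) + 1) * t ^ (-s.re - 1) := by
        apply norm_integral_le_of_norm_le h1
        rw [ae_restrict_iff' measurableSet_Ioi]
        refine Filter.Eventually.of_forall fun t ht => ?_
        have ht0 : (0 : ℝ) < t := lt_trans one_pos ht
        rw [norm_mul, Complex.norm_cpow_eq_rpow_re_of_pos ht0]
        have : (-(s + 1)).re = -s.re - 1 := by simp; ring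
        rw [this]
        exact mul_le_mul_of_nonneg_right (lra_B_le χ hc h ht0.le) (by positivity)
    _ = (2 * (N : ℝ) + 1) * (1 / s.re) := by
        rw [integral_const_mul, integral_Ioi_rpow_of_lt (by linarith) one_pos]
        rw [Real.one_rpow]
        congr 1
        rw [show -s.re - 1 + 1 = -s.re by ring, neg_div_neg_eq]
    _ ≤ (2 * (N : ℝ) + 1) * 1 := by
        apply mul_le_mul_of_nonneg_left _ (by positivity)
        rw [div_le_one (by linarith)]; exact hs.le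
    _ = _ := mul_one _

theorem lra_pow_sub {a b κ t : ℝ} (ha : 1 < a) (hab : a ≤ b) (ht : 1 < t) :
    ‖(t : ℂ) ^ (-((a : ℂ) + κ * I + 1)) - (t : ℂ) ^ (-((b : ℂ) + κ * I + 1))‖ ≤
      2 * (b - a) * t ^ (-(3 / 2) : ℝ) := by
  have ht0 : 0 < t := by linarith
  have htc : (t : ℂ) ≠ 0 := by exact_mod_cast ht0.ne'
  have e1 : (t : ℂ) ^ (-((b : ℂ) + κ * I + 1)) =
      (t : ℂ) ^ (-((a : ℂ) + κ * I + 1)) * ((t ^ (-(b - a)) : ℝ) : ℂ) := by
    rw [Complex.ofReal_cpow ht0.le, ← Complex.cpow_add _ _ htc]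
    congr 1
    push_cast; ring
  rw [e1]
  have e2 : (t : ℂ) ^ (-((a : ℂ) + κ * I + 1)) - (t : ℂ) ^ (-((a : ℂ) + κ * I + 1)) *
      ((t ^ (-(b - a)) : ℝ) : ℂ) = (t : ℂ) ^ (-((a : ℂ) + κ * I + 1)) *
      ((1 - t ^ (-(b - a)) : ℝ) : ℂ) := by
    push_cast; ring
  rw [e2, norm_mul, Complex.norm_cpow_eq_rpow_re_of_pos ht0, Complex.norm_real, Real.norm_eq_abs]
  have e3 : (-((a : ℂ) + κ * I + 1)).re = -(a + 1) := by simp
  rw [e3]
  have h1 : 0 ≤ 1 - t ^ (-(b - a)) := by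
    have : t ^ (-(b - a)) ≤ 1 := Real.rpow_le_one_of_one_le_of_nonpos ht.le (by linarith)
    linarith
  have hlog : 0 ≤ Real.log t := Real.log_nonneg ht.le
  have h2 : 1 - t ^ (-(b - a)) ≤ (b - a) * Real.log t := by
    rw [Real.rpow_def_of_pos ht0]
    have := Real.add_one_le_exp (Real.log t * -(b - a))
    linarith
  have h3 : Real.log t ≤ 2 * t ^ (1 / 2 : ℝ) := by
    have := Real.log_le_rpow_div ht0.le (ε := 1 / 2) (by norm_num)
    linarith
  rw [abs_of_nonneg h1]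
  calc t ^ (-(a + 1)) * (1 - t ^ (-(b - a)))
      ≤ t ^ (-2 : ℝ) * ((b - a) * (2 * t ^ (1 / 2 : ℝ))) := by
        apply mul_le_mul _ _ h1 (by positivity)
        · exact Real.rpow_le_rpow_of_exponent_le ht.le (by linarith)
        · exact h2.trans (mul_le_mul_of_nonneg_left h3 (by linarith))
    _ = 2 * (b - a) * (t ^ (-2 : ℝ) * t ^ (1 / 2 : ℝ)) := by ring
    _ = _ := by
        rw [← Real.rpow_add ht0]
        norm_num

theorem lra_G_sub [NeZero N] (χ : DirichletCharacter ℂ N) {c : ℂ} (hc : ‖c‖ ≤ 1)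
    (h : ∀ n : ℕ, ‖∑ k ∈ Finset.Icc 1 n, χ k - c * n‖ ≤ 2 * N) {a b κ : ℝ} (ha : 1 < a)
    (hab : a ≤ b) :
    ‖lra_G χ c (a + κ * I) - lra_G χ c (b + κ * I)‖ ≤ (2 * N + 1) * (4 * (b - a)) := by
  have hb : 1 < b := by linarith
  have ia := lra_int χ hc h (s := (a : ℂ) + κ * I) (by simpa using ha)
  have ib := lra_int χ hc h (s := (b : ℂ) + κ * I) (by simpa using hb)
  unfold lra_G
  rw [← integral_sub ia ib]
  have h1 : IntegrableOn (fun t : ℝ => (2 * (N : ℝ) + 1) * (2 * (b - a) * t ^ (-(3 / 2) : ℝ)))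
      (Set.Ioi 1) :=
    ((integrableOn_Ioi_rpow_of_lt (by norm_num) one_pos).const_mul _).const_mul _
  calc _ ≤ ∫ t in Set.Ioi (1 : ℝ), (2 * (N : ℝ) + 1) * (2 * (b - a) * t ^ (-(3 / 2) : ℝ)) := by
        apply norm_integral_le_of_norm_le h1
        rw [ae_restrict_iff' measurableSet_Ioi]
        refine Filter.Eventually.of_forall fun t ht => ?_
        have ht0 : (0 : ℝ) < t := lt_trans one_pos ht
        rw [← mul_sub, norm_mul]
        exact mul_le_mul (lra_B_le χ hc h ht0.le) (lra_pow_sub ha hab ht) (norm_nonneg _)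
          (by positivity)
    _ = (2 * (N : ℝ) + 1) * (4 * (b - a)) := by
        rw [integral_const_mul, integral_const_mul, integral_Ioi_rpow_of_lt (by norm_num) one_pos,
          Real.one_rpow]
        have e : -(1 : ℝ) / (-(3 / 2) + 1) = 2 := by norm_num
        rw [e]
        ring

/-- upper bound -/
theorem lra_upper [NeZero N] (χ : DirichletCharacter ℂ N) {x κ : ℝ} (hx : 0 < x) (hx1 : x ≤ 1)
    (hκ : κ ≠ 0) : ‖DirichletCharacter.LFunction χ (1 + x + κ * I)‖ ≤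
      10 * (2 * N + 1) * (1 + |κ|) * (1 + |κ|⁻¹) := by
  obtain ⟨c, hc, h⟩ := lra_partial χ
  have hre : 1 < ((1 : ℂ) + x + κ * I).re := by simp; exact hx
  have hk : 0 < |κ| := abs_pos.2 hκ
  rw [lra_rep χ hc h hre, norm_mul]
  have h1 : ‖(1 : ℂ) + x + κ * I‖ ≤ 2 + |κ| := by
    calc ‖(1 : ℂ) + x + κ * I‖ ≤ ‖(1 : ℂ)‖ + ‖(x : ℂ)‖ + ‖(κ : ℂ) * I‖ := norm_add₃_le
      _ ≤ 2 + |κ| := by
          rw [norm_one, Complex.norm_real, norm_mul, Complex.norm_I, mul_one, Complex.norm_real,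
            Real.norm_eq_abs, Real.norm_eq_abs, abs_of_pos hx]
          linarith
  have h2 : ‖c / ((1 : ℂ) + x + κ * I - 1)‖ ≤ |κ|⁻¹ := by
    rw [norm_div, div_eq_mul_inv]
    have h3 : |κ| ≤ ‖(1 : ℂ) + x + κ * I - 1‖ := by
      have := Complex.abs_im_le_norm ((1 : ℂ) + x + κ * I - 1)
      simpa using this
    calc ‖c‖ * ‖(1 : ℂ) + x + κ * I - 1‖⁻¹ ≤ 1 * |κ|⁻¹ := by
          apply mul_le_mul hc _ (by positivity) zero_le_one
          exact inv_anti₀ hk h3
      _ = _ := one_mul _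
  have h3 := lra_G_le χ hc h hre
  have hN : (0 : ℝ) ≤ N := Nat.cast_nonneg N
  have hki : 0 < |κ|⁻¹ := inv_pos.2 hk
  calc _ ≤ (2 + |κ|) * (|κ|⁻¹ + (2 * N + 1)) := by
        apply mul_le_mul h1 ((norm_add_le _ _).trans (add_le_add h2 h3)) (norm_nonneg _)
          (by positivity)
    _ ≤ (2 * (1 + |κ|)) * ((2 * N + 1) * (1 + |κ|⁻¹)) := by
        apply mul_le_mul (by linarith) _ (by positivity) (by positivity)
        nlinarith
    _ ≤ _ := by
        have : 0 ≤ (1 + |κ|) * ((2 * N + 1) * (1 + |κ|⁻¹)) := by positivity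
        nlinarith

/-- upper bound on the real axis -/
theorem lra_real [NeZero N] (χ : DirichletCharacter ℂ N) {x : ℝ} (hx : 0 < x) (hx1 : x ≤ 1) :
    ‖DirichletCharacter.LFunction χ (1 + x)‖ ≤ 10 * (2 * N + 1) / x := by
  obtain ⟨c, hc, h⟩ := lra_partial χ
  have hre : 1 < ((1 : ℂ) + x).re := by simp; exact hx
  rw [lra_rep χ hc h hre, norm_mul]
  have h1 : ‖(1 : ℂ) + x‖ ≤ 2 := by
    calc ‖(1 : ℂ) + x‖ ≤ ‖(1 : ℂ)‖ + ‖(x : ℂ)‖ := norm_add_le _ _
      _ ≤ 2 := by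
          rw [norm_one, Complex.norm_real, Real.norm_eq_abs, abs_of_pos hx]
          linarith
  have h2 : ‖c / ((1 : ℂ) + x - 1)‖ ≤ 1 / x := by
    rw [show (1 : ℂ) + x - 1 = x by ring, norm_div, Complex.norm_real, Real.norm_eq_abs,
      abs_of_pos hx]
    exact div_le_div_of_nonneg_right hc hx.le
  have h3 := lra_G_le χ hc h hre
  have hN : (0 : ℝ) ≤ N := Nat.cast_nonneg N
  have hx2 : 1 ≤ 1 / x := by rw [le_div_iff₀ hx]; linarith
  calc _ ≤ 2 * (1 / x + (2 * N + 1)) := by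
        apply mul_le_mul h1 ((norm_add_le _ _).trans (add_le_add h2 h3)) (norm_nonneg _)
          (by positivity)
    _ ≤ 10 * (2 * N + 1) * (1 / x) := by nlinarith
    _ = _ := by ring

/-- mean value -/
theorem lra_mvi [NeZero N] (χ : DirichletCharacter ℂ N) {x y κ : ℝ} (hx : 0 < x) (hxy : x ≤ y)
    (hy1 : y ≤ 1) (hκ : 1 ≤ |κ|) : ‖DirichletCharacter.LFunction χ (1 + x + κ * I) -
      DirichletCharacter.LFunction χ (1 + y + κ * I)‖ ≤
      10 * (2 * N + 1) * (1 + |κ|) * (y - x) := by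
  obtain ⟨c, hc, h⟩ := lra_partial χ
  have hy : 0 < y := by linarith
  have hrex : 1 < ((1 : ℂ) + x + κ * I).re := by simp; exact hx
  have hrey : 1 < ((1 : ℂ) + y + κ * I).re := by simp; exact hy
  have hk : 0 < |κ| := by linarith
  rw [lra_rep χ hc h hrex, lra_rep χ hc h hrey]
  have h1 : ‖(1 : ℂ) + y + κ * I‖ ≤ 2 + |κ| := by
    calc ‖(1 : ℂ) + y + κ * I‖ ≤ ‖(1 : ℂ)‖ + ‖(y : ℂ)‖ + ‖(κ : ℂ) * I‖ := norm_add₃_le
      _ ≤ 2 + |κ| := by
          rw [norm_one, Complex.norm_real, norm_mul, Complex.norm_I, mul_one, Complex.norm_real,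
            Real.norm_eq_abs, Real.norm_eq_abs, abs_of_pos hy]
          linarith
  have hge : ∀ z : ℝ, 1 ≤ ‖(1 : ℂ) + z + κ * I - 1‖ := fun z => by
    have := Complex.abs_im_le_norm ((1 : ℂ) + z + κ * I - 1)
    simp at this
    exact hκ.trans (by simpa using this)
  set s : ℂ := (1 : ℂ) + x + κ * I with hs
  set s' : ℂ := (1 : ℂ) + y + κ * I with hs'
  have hne : s - 1 ≠ 0 := by
    intro h0
    have := hge x
    rw [← hs, h0, norm_zero] at this
    linarith
  have hne' : s' - 1 ≠ 0 := by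
    intro h0
    have := hge y
    rw [← hs', h0, norm_zero] at this
    linarith
  have hds : s' - s = ((y - x : ℝ) : ℂ) := by rw [hs, hs']; push_cast; ring
  have hdsn : ‖s' - s‖ = y - x := by
    rw [hds, Complex.norm_real, Real.norm_eq_abs, abs_of_nonneg (by linarith)]
  have hid : s * (c / (s - 1) + lra_G χ c s) - s' * (c / (s' - 1) + lra_G χ c s') =
      c * ((s' - s) / ((s - 1) * (s' - 1))) - (s' - s) * lra_G χ c s +
        s' * (lra_G χ c s - lra_G χ c s') := by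
    field_simp
    ring
  rw [hid]
  have e1 : ‖c * ((s' - s) / ((s - 1) * (s' - 1)))‖ ≤ y - x := by
    rw [norm_mul, norm_div, norm_mul, hdsn]
    have h2 : 1 ≤ ‖s - 1‖ * ‖s' - 1‖ := by
      have a1 := hge x
      have a2 := hge y
      rw [← hs] at a1
      rw [← hs'] at a2
      nlinarith
    calc ‖c‖ * ((y - x) / (‖s - 1‖ * ‖s' - 1‖)) ≤ 1 * (y - x) := by
          apply mul_le_mul hc _ (by positivity) zero_le_one
          exact div_le_self (by linarith) h2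
      _ = _ := one_mul _
  have e2 : ‖(s' - s) * lra_G χ c s‖ ≤ (y - x) * (2 * N + 1) := by
    rw [norm_mul, hdsn]
    exact mul_le_mul_of_nonneg_left (lra_G_le χ hc h hrex) (by linarith)
  have e3 : ‖s' * (lra_G χ c s - lra_G χ c s')‖ ≤ (2 + |κ|) * ((2 * N + 1) * (4 * (y - x))) := by
    rw [norm_mul]
    have h2 := lra_G_sub χ hc h (a := 1 + x) (b := 1 + y) (κ := κ) (by linarith) (by linarith)
    have h3 : ((1 + x : ℝ) : ℂ) + κ * I = s := by rw [hs]; push_cast; ring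
    have h4 : ((1 + y : ℝ) : ℂ) + κ * I = s' := by rw [hs']; push_cast; ring
    rw [h3, h4] at h2
    apply mul_le_mul h1 (h2.trans (le_of_eq (by ring))) (norm_nonneg _) (by positivity)
  have hN : (0 : ℝ) ≤ N := Nat.cast_nonneg N
  have hxy' : 0 ≤ y - x := by linarith
  calc _ ≤ (y - x) + (y - x) * (2 * N + 1) + (2 + |κ|) * ((2 * N + 1) * (4 * (y - x))) := by
        refine (norm_add_le _ _).trans (add_le_add ((norm_sub_le _ _).trans (add_le_add e1 e2)) e3)
    _ ≤ _ := by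
        have a1 : 0 ≤ (y - x) * (2 * N) := by positivity
        have a2 : 0 ≤ (y - x) * (|κ| - 1) := mul_nonneg hxy' (by linarith)
        have a3 : 0 ≤ (y - x) * (2 * N) * (|κ| - 1) := mul_nonneg a1 (by linarith)
        nlinarith

/-- lower bound for large `κ` -/
theorem lra_lower [NeZero N] (χ : DirichletCharacter ℂ N) {U : ℝ} (hU : U = 10 * (2 * N + 1))
    {x κ : ℝ} (hx : 0 < x) (hx1 : x ≤ 1) (hκ : 1 ≤ |κ|) :
    U * (1 / (64 * U ^ 8)) / (1 + |κ|) ^ 4 ≤
      ‖DirichletCharacter.LFunction χ (1 + x + κ * I)‖ := by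
  have hN : (0 : ℝ) ≤ N := Nat.cast_nonneg N
  have hU1 : 10 ≤ U := by rw [hU]; linarith
  have hU0 : 0 < U := by linarith
  set y : ℝ := 1 + |κ| with hy
  have hy2 : 2 ≤ y := by rw [hy]; linarith
  have hy0 : 0 < y := by linarith
  set c0 : ℝ := 1 / (64 * U ^ 8) with hc0
  have hc0p : 0 < c0 := by positivity
  have hc01 : c0 ≤ 1 := by
    rw [hc0, div_le_one (by positivity)]
    have : 1 ≤ U ^ 8 := one_le_pow₀ (by linarith)
    linarith
  set x0 : ℝ := c0 / y ^ 5 with hx0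
  have hx0p : 0 < x0 := by positivity
  have hx01 : x0 ≤ 1 := by
    rw [hx0, div_le_one (by positivity)]
    have : 1 ≤ y ^ 5 := one_le_pow₀ (by linarith)
    linarith
  have main : ∀ z : ℝ, x0 ≤ z → z ≤ 1 →
      2 * (U * c0 / y ^ 4) ≤ ‖DirichletCharacter.LFunction χ (1 + z + κ * I)‖ := by
    intro z hz hz1
    have hz0 : 0 < z := lt_of_lt_of_le hx0p hz
    have h := DirichletCharacter.norm_LFunction_product_ge_one (χ := χ) hz0 κ
    rw [norm_mul, norm_mul, norm_pow, norm_pow] at h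
    have h1 : ‖DirichletCharacter.LFunctionTrivChar N (1 + z)‖ ≤ U / z := by
      have := lra_real (1 : DirichletCharacter ℂ N) hz0 hz1
      rw [← hU] at this
      exact this
    have h2 : ‖DirichletCharacter.LFunction (χ ^ 2) (1 + z + 2 * I * κ)‖ ≤ 4 * U * y := by
      have := lra_upper (χ ^ 2) (κ := 2 * κ) hz0 hz1 (by
        intro h0
        have : κ = 0 := by linarith
        rw [this, abs_zero] at hκ
        linarith)
      rw [← hU, show (1 : ℂ) + z + ((2 * κ : ℝ) : ℂ) * I = 1 + z + 2 * I * κ by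
        push_cast; ring, abs_mul, abs_two] at this
      refine this.trans ?_
      have h3 : (2 * |κ|)⁻¹ ≤ 1 := by
        rw [inv_le_one₀ (by linarith)]; linarith
      calc U * (1 + 2 * |κ|) * (1 + (2 * |κ|)⁻¹) ≤ U * (2 * y) * 2 := by
            apply mul_le_mul _ (by linarith) (by positivity) (by positivity)
            apply mul_le_mul_of_nonneg_left _ hU0.le
            rw [hy]; linarith
        _ = 4 * U * y := by ring
    have e1 : (1 : ℂ) + z + I * κ = 1 + z + κ * I := by ring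
    rw [e1] at h
    set X := ‖DirichletCharacter.LFunction χ (1 + z + κ * I)‖ with hX
    have hX0 : 0 ≤ X := norm_nonneg _
    have h3 : 1 ≤ (U / z) ^ 3 * X ^ 4 * (4 * U * y) := by
      refine le_trans h ?_
      gcongr
    have h4 : z ^ 3 ≤ 4 * U ^ 4 * y * X ^ 4 := by
      have h5 : (U / z) ^ 3 * X ^ 4 * (4 * U * y) = 4 * U ^ 4 * y * X ^ 4 / z ^ 3 := by
        field_simp
      rw [h5, le_div_iff₀ (by positivity), one_mul] at h3
      exact h3
    by_contra hlt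
    rw [not_le] at hlt
    have e4 : X ^ 4 < (2 * (U * c0 / y ^ 4)) ^ 4 := pow_lt_pow_left₀ hlt hX0 (by norm_num)
    have e5 : x0 ^ 3 < 4 * U ^ 4 * y * (2 * (U * c0 / y ^ 4)) ^ 4 := by
      calc x0 ^ 3 ≤ z ^ 3 := pow_le_pow_left₀ hx0p.le hz 3
        _ ≤ 4 * U ^ 4 * y * X ^ 4 := h4
        _ < _ := by gcongr
    have e6 : 4 * U ^ 4 * y * (2 * (U * c0 / y ^ 4)) ^ 4 = x0 ^ 3 * (64 * U ^ 8 * c0) := by
      rw [hx0]
      field_simp
      ring
    have e7 : 64 * U ^ 8 * c0 = 1 := by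
      rw [hc0]; field_simp
    rw [e6, e7, mul_one] at e5
    exact lt_irrefl _ e5
  have hpos : 0 ≤ U * c0 / y ^ 4 := by positivity
  rcases le_total x0 x with h | h
  · have := main x h hx1
    linarith
  · have e1 := main x0 le_rfl hx01
    have e2 := lra_mvi χ hx h hx01 hκ
    rw [← hU, ← hy] at e2
    have e3 : U * y * (x0 - x) ≤ U * c0 / y ^ 4 := by
      calc U * y * (x0 - x) ≤ U * y * x0 := by
            apply mul_le_mul_of_nonneg_left (by linarith) (by positivity)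
        _ = U * c0 / y ^ 4 := by rw [hx0]; field_simp
    have e4 := norm_sub_norm_le (DirichletCharacter.LFunction χ (1 + x0 + κ * I))
      (DirichletCharacter.LFunction χ (1 + x + κ * I))
    rw [norm_sub_rev] at e2
    linarith

/-- lower bound for small `κ` -/
theorem lra_small [NeZero N] (χ : DirichletCharacter ℂ N) : ∃ c > 0, ∀ x κ : ℝ, 0 < x → x ≤ 1 →
    |κ| ≤ 1 → c ≤ ‖DirichletCharacter.LFunction χ (1 + x + κ * I)‖ := by
  set K : Set ℂ := Set.Icc (1 : ℝ) 2 ×ℂ Set.Icc (-1 : ℝ) 1 with hK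
  have hKc : IsCompact K := isCompact_Icc.reProdIm isCompact_Icc
  have hmem : ∀ x κ : ℝ, 0 < x → x ≤ 1 → |κ| ≤ 1 → (1 : ℂ) + x + κ * I ∈ K := by
    intro x κ hx hx1 hκ
    rw [hK, Complex.mem_reProdIm]
    rw [abs_le] at hκ
    constructor
    · simp only [add_re, one_re, ofReal_re, re_ofReal_mul, I_re, mul_zero, add_zero, Set.mem_Icc]
      constructor <;> linarith
    · simp only [add_im, one_im, ofReal_im, im_ofReal_mul, I_im, mul_one, zero_add, Set.mem_Icc]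
      exact hκ
  have hmem1 : (1 : ℂ) ∈ K := by
    rw [hK, Complex.mem_reProdIm]; simp
  have hre : ∀ s ∈ K, 1 ≤ s.re := fun s hs => by
    rw [hK, Complex.mem_reProdIm] at hs; exact hs.1.1
  by_cases hχ : χ = 1
  · subst hχ
    have hcont : ContinuousOn (fun s => ‖DirichletCharacter.LFunctionTrivChar₁ N s‖) K :=
      (DirichletCharacter.differentiable_LFunctionTrivChar₁ N).continuous.norm.continuousOn
    obtain ⟨z, hz, hmin⟩ := hKc.exists_isMinOn ⟨1, hmem1⟩ hcont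
    have hne : ∀ s ∈ K, DirichletCharacter.LFunctionTrivChar₁ N s ≠ 0 := by
      intro s hs
      by_cases h1 : s = 1
      · rw [h1]; exact DirichletCharacter.LFunctionTrivChar₁_apply_one_ne_zero N
      · unfold DirichletCharacter.LFunctionTrivChar₁
        rw [Function.update_of_ne h1]
        apply mul_ne_zero (sub_ne_zero.2 h1)
        exact DirichletCharacter.LFunction_ne_zero_of_one_le_re 1 (Or.inr h1) (hre s hs)
    refine ⟨‖DirichletCharacter.LFunctionTrivChar₁ N z‖ / 2, by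
      have := norm_pos_iff.2 (hne z hz); positivity, fun x κ hx hx1 hκ => ?_⟩
    have h1 := hmin (hmem x κ hx hx1 hκ)
    simp only [Set.mem_ofPred_eq] at h1
    have hs1 : (1 : ℂ) + x + κ * I ≠ 1 := by
      intro h0
      have := congrArg Complex.re h0
      simp at this
      linarith
    have h2 : DirichletCharacter.LFunctionTrivChar₁ N ((1 : ℂ) + x + κ * I) =
        ((1 : ℂ) + x + κ * I - 1) *
          DirichletCharacter.LFunction (1 : DirichletCharacter ℂ N) ((1 : ℂ) + x + κ * I) := by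
      unfold DirichletCharacter.LFunctionTrivChar₁
      rw [Function.update_of_ne hs1]
    rw [h2, norm_mul] at h1
    have h3 : ‖(1 : ℂ) + x + κ * I - 1‖ ≤ 2 := by
      rw [show (1 : ℂ) + x + κ * I - 1 = x + κ * I by ring]
      calc ‖(x : ℂ) + κ * I‖ ≤ ‖(x : ℂ)‖ + ‖(κ : ℂ) * I‖ := norm_add_le _ _
        _ ≤ 2 := by
            rw [norm_mul, Complex.norm_I, mul_one, Complex.norm_real, Complex.norm_real,
              Real.norm_eq_abs, Real.norm_eq_abs, abs_of_pos hx]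
            linarith
    have h4 : ‖DirichletCharacter.LFunctionTrivChar₁ N z‖ ≤
        2 * ‖DirichletCharacter.LFunction (1 : DirichletCharacter ℂ N) ((1 : ℂ) + x + κ * I)‖ :=
      h1.trans (mul_le_mul_of_nonneg_right h3 (norm_nonneg _))
    linarith
  · have hcont : ContinuousOn (fun s => ‖DirichletCharacter.LFunction χ s‖) K :=
      (DirichletCharacter.differentiable_LFunction hχ).continuous.norm.continuousOn
    obtain ⟨z, hz, hmin⟩ := hKc.exists_isMinOn ⟨1, hmem1⟩ hcont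
    have hne : DirichletCharacter.LFunction χ z ≠ 0 :=
      DirichletCharacter.LFunction_ne_zero_of_one_le_re χ (Or.inl hχ) (hre z hz)
    refine ⟨‖DirichletCharacter.LFunction χ z‖, norm_pos_iff.2 hne, fun x κ hx hx1 hκ => ?_⟩
    exact hmin (hmem x κ hx hx1 hκ)

theorem L_ratio [NeZero N] (χ : DirichletCharacter ℂ N) :
    ∃ (C : ℝ) (n : ℕ), ∀ (δ κ : ℝ), 0 < δ →
    δ ≤ 1 → κ ≠ 0 → ‖DirichletCharacter.LFunction χ (1 + κ * Complex.I)‖ ≤
      C * (1 + |κ|) ^ n * (1 + |κ|⁻¹) *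
        ‖DirichletCharacter.LFunction χ (1 + δ + κ * Complex.I)‖ := by
  obtain ⟨c1, hc1, hsmall⟩ := lra_small χ
  set U : ℝ := 10 * (2 * N + 1) with hU
  have hN : (0 : ℝ) ≤ N := Nat.cast_nonneg N
  have hU1 : 10 ≤ U := by rw [hU]; linarith
  have hU0 : 0 < U := by linarith
  have hup : ∀ κ : ℝ, κ ≠ 0 → ‖DirichletCharacter.LFunction χ (1 + κ * Complex.I)‖ ≤
      U * (1 + |κ|) * (1 + |κ|⁻¹) := by
    intro κ hκ
    have hs1 : (1 : ℂ) + κ * I ≠ 1 := by
      intro h0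
      have := congrArg Complex.im h0
      simp at this
      exact hκ this
    have hcont : ContinuousAt (DirichletCharacter.LFunction χ) ((1 : ℂ) + κ * I) :=
      (DirichletCharacter.differentiableAt_LFunction χ _ (Or.inl hs1)).continuousAt
    have hten : Tendsto (fun x : ℝ => ‖DirichletCharacter.LFunction χ (1 + x + κ * I)‖)
        (𝓝[>] 0) (𝓝 ‖DirichletCharacter.LFunction χ (1 + κ * I)‖) := by
      have h1 : Tendsto (fun x : ℝ => (1 : ℂ) + x + κ * I) (𝓝[>] 0) (𝓝 ((1 : ℂ) + κ * I)) := by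
        have h2 : Tendsto (fun x : ℝ => (1 : ℂ) + x + κ * I) (𝓝 0) (𝓝 ((1 : ℂ) + (0 : ℝ) + κ * I)) := by
          apply Continuous.tendsto
          fun_prop
        rw [Complex.ofReal_zero, add_zero] at h2
        exact h2.mono_left nhdsWithin_le_nhds
      exact (hcont.tendsto.comp h1).norm
    refine le_of_tendsto hten ?_
    have h1 : Set.Ioc (0 : ℝ) 1 ∈ 𝓝[>] (0 : ℝ) := Ioc_mem_nhdsGT one_pos
    filter_upwards [h1] with x hx
    exact lra_upper χ hx.1 hx.2 hκ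
  refine ⟨64 * U ^ 8 + U / c1, 5, fun δ κ hδ hδ1 hκ => ?_⟩
  have h1 := hup κ hκ
  have hk : 0 < |κ| := abs_pos.2 hκ
  have hki : 0 < |κ|⁻¹ := inv_pos.2 hk
  set Y := ‖DirichletCharacter.LFunction χ (1 + δ + κ * I)‖ with hY
  have hY0 : 0 ≤ Y := norm_nonneg _
  have hy1 : 1 ≤ 1 + |κ| := by linarith
  rcases le_total |κ| 1 with h | h
  · have h2 := hsmall δ κ hδ hδ1 h
    rw [← hY] at h2
    have h3 : 1 ≤ Y / c1 := by rw [le_div_iff₀ hc1]; linarith
    calc _ ≤ U * (1 + |κ|) * (1 + |κ|⁻¹) * 1 := by rw [mul_one]; exact h1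
      _ ≤ U * (1 + |κ|) ^ 5 * (1 + |κ|⁻¹) * (Y / c1) := by
          apply mul_le_mul _ h3 zero_le_one (by positivity)
          apply mul_le_mul_of_nonneg_right _ (by positivity)
          apply mul_le_mul_of_nonneg_left _ hU0.le
          exact le_self_pow₀ hy1 (by norm_num)
      _ = (U / c1) * (1 + |κ|) ^ 5 * (1 + |κ|⁻¹) * Y := by ring
      _ ≤ _ := by
          have : 0 ≤ 64 * U ^ 8 * (1 + |κ|) ^ 5 * (1 + |κ|⁻¹) * Y := by positivity
          nlinarith
  · have h2 := lra_lower χ hU hδ hδ1 h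
    rw [← hY] at h2
    have h3 : 1 ≤ 64 * U ^ 7 * (1 + |κ|) ^ 4 * Y := by
      have e1 : U * (1 / (64 * U ^ 8)) / (1 + |κ|) ^ 4 = 1 / (64 * U ^ 7 * (1 + |κ|) ^ 4) := by
        field_simp
      rw [e1, div_le_iff₀ (by positivity)] at h2
      linarith
    calc _ ≤ U * (1 + |κ|) * (1 + |κ|⁻¹) * 1 := by rw [mul_one]; exact h1
      _ ≤ U * (1 + |κ|) * (1 + |κ|⁻¹) * (64 * U ^ 7 * (1 + |κ|) ^ 4 * Y) := by
          apply mul_le_mul_of_nonneg_left h3 (by positivity)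
      _ = 64 * U ^ 8 * (1 + |κ|) ^ 5 * (1 + |κ|⁻¹) * Y := by ring
      _ ≤ _ := by
          have : 0 ≤ U / c1 * (1 + |κ|) ^ 5 * (1 + |κ|⁻¹) * Y := by positivity
          nlinarith

end Pool.Agent.JO
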