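import Pool.Agent.Lib_helper63.JO.Defs2
import Pool.Agent.Lib_helper58.Planch
/-! Block MPL of part E: Plancherel for the Mellin transform on `Re s = 1`.
Uses the landed file `Pool.Agent.Lib_helper58.Planch`. -/

namespace Pool.Agent.JO

open MeasureTheory FourierTransform Filter Topology Set
open scoped ENNReal ComplexConjugate

theorem mpl_integral_exp {E : Type*} [NormedAddCommGroup E] [NormedSpace ℝ E] (F : ℝ → E) :
    ∫ y in Ioi (0 : ℝ), F y = ∫ u : ℝ, Real.exp u • F (Real.exp u) := by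
  have h := integral_image_eq_integral_abs_deriv_smul (s := univ) (f := Real.exp)
    (f' := Real.exp) MeasurableSet.univ (fun x _ => (Real.hasDerivAt_exp x).hasDerivWithinAt)
    (Real.exp_injective.injOn) F
  rw [image_univ, Real.range_exp, Measure.restrict_univ] at h
  rw [h]
  simp only [Real.abs_exp]

/-- the function on the line -/
noncomputable def mpl_b (B : ℝ → ℂ) (u : ℝ) : ℂ := (Real.exp u : ℂ) * B (Real.exp u)

theorem mpl_meas {B : ℝ → ℂ} (hB : Measurable B) : Measurable (mpl_b B) := by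
  unfold mpl_b
  have h1 : Measurable fun u : ℝ => B (Real.exp u) := hB.comp Real.measurable_exp
  have h2 : Measurable fun u : ℝ => ((Real.exp u : ℝ) : ℂ) := by fun_prop
  exact h2.mul h1

theorem mpl_norm (B : ℝ → ℂ) (u : ℝ) : ‖mpl_b B u‖ = Real.exp u * ‖B (Real.exp u)‖ := by
  unfold mpl_b
  rw [norm_mul, Complex.norm_real, Real.norm_of_nonneg (Real.exp_nonneg _)]

theorem mpl_bound {B : ℝ → ℂ} {C R : ℝ}
    (hC : ∀ ρ, 0 < ρ → ‖B ρ‖ ≤ C) (hR : ∀ ρ, R < ρ → B ρ = 0) (u : ℝ) :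
    ‖mpl_b B u‖ ≤ (Iic (Real.log (max R 1))).indicator (fun u => C * Real.exp u) u := by
  have hm : 0 < max R 1 := lt_of_lt_of_le one_pos (le_max_right _ _)
  rw [mpl_norm]
  by_cases hu : u ∈ Iic (Real.log (max R 1))
  · rw [indicator_of_mem hu, mul_comm]
    exact mul_le_mul_of_nonneg_right (hC _ (Real.exp_pos _)) (Real.exp_nonneg _)
  · rw [indicator_of_notMem hu]
    rw [mem_Iic, not_le, Real.log_lt_iff_lt_exp hm] at hu
    rw [hR _ (lt_of_le_of_lt (le_max_left _ _) hu), norm_zero, mul_zero]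

theorem mpl_int {B : ℝ → ℂ} (hB : Measurable B) {C R : ℝ}
    (hC : ∀ ρ, 0 < ρ → ‖B ρ‖ ≤ C) (hR : ∀ ρ, R < ρ → B ρ = 0) : Integrable (mpl_b B) := by
  have h1 : Integrable ((Iic (Real.log (max R 1))).indicator (fun u => C * Real.exp u)) := by
    rw [integrable_indicator_iff measurableSet_Iic]
    exact (integrableOn_exp_Iic _).const_mul C
  exact h1.mono' (mpl_meas hB).aestronglyMeasurable
    (Filter.Eventually.of_forall (mpl_bound hC hR))

theorem mpl_sq {B : ℝ → ℂ} (hB : Measurable B) {C R : ℝ}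
    (hC : ∀ ρ, 0 < ρ → ‖B ρ‖ ≤ C) (hR : ∀ ρ, R < ρ → B ρ = 0) :
    Integrable (fun u => ‖mpl_b B u‖ ^ 2) := by
  have hC0 : 0 ≤ C := (norm_nonneg _).trans (hC 1 one_pos)
  have hm : 0 < max R 1 := lt_of_lt_of_le one_pos (le_max_right _ _)
  have hb : ∀ u, ‖mpl_b B u‖ ≤ C * max R 1 := fun u => by
    refine (mpl_bound hC hR u).trans ?_
    by_cases hu : u ∈ Iic (Real.log (max R 1))
    · rw [indicator_of_mem hu]
      apply mul_le_mul_of_nonneg_left _ hC0
      rw [mem_Iic] at hu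
      calc Real.exp u ≤ Real.exp (Real.log (max R 1)) := Real.exp_le_exp.2 hu
        _ = max R 1 := Real.exp_log hm
    · rw [indicator_of_notMem hu]
      positivity
  have h1 : Integrable (fun u => C * max R 1 * ‖mpl_b B u‖) :=
    (mpl_int hB hC hR).norm.const_mul _
  refine h1.mono' ?_ (Filter.Eventually.of_forall fun u => ?_)
  · exact ((mpl_meas hB).norm.pow_const 2).aestronglyMeasurable
  · rw [Real.norm_of_nonneg (by positivity), sq]
    exact mul_le_mul_of_nonneg_right (hb u) (norm_nonneg _)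

theorem mpl_mellin (B : ℝ → ℂ) (κ : ℝ) :
    mellin B (1 + κ * Complex.I) = 𝓕 (mpl_b B) (-κ / (2 * Real.pi)) := by
  unfold mellin
  rw [mpl_integral_exp, Real.fourier_real_eq_integral_exp_smul]
  refine integral_congr_ae (Filter.Eventually.of_forall fun u => ?_)
  simp only [mpl_b, smul_eq_mul, Complex.real_smul]
  have h1 : ((Real.exp u : ℝ) : ℂ) ^ (1 + (κ : ℂ) * Complex.I - 1) =
      Complex.exp (((-2 * Real.pi * u * (-κ / (2 * Real.pi)) : ℝ) : ℂ) * Complex.I) := by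
    have h0 : ((Real.exp u : ℝ) : ℂ) ≠ 0 := by
      exact_mod_cast (Real.exp_pos u).ne'
    rw [Complex.cpow_def_of_ne_zero h0, ← Complex.ofReal_log (Real.exp_pos u).le, Real.log_exp]
    congr 1
    have hp : (Real.pi : ℂ) ≠ 0 := by exact_mod_cast Real.pi_ne_zero
    push_cast
    field_simp
    ring_nf
  rw [h1]
  ring

theorem mellin_plancherel {B : ℝ → ℂ} (hB : Measurable B) {C R : ℝ}
    (hC : ∀ ρ, 0 < ρ → ‖B ρ‖ ≤ C) (hR : ∀ ρ, R < ρ → B ρ = 0) :
    Integrable (fun κ : ℝ => ‖mellin B (1 + κ * Complex.I)‖ ^ 2) ∧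
      ∫ ρ in Set.Ioi (0 : ℝ), ‖B ρ‖ ^ 2 * ρ =
        (2 * Real.pi)⁻¹ * ∫ κ : ℝ, ‖mellin B (1 + κ * Complex.I)‖ ^ 2 := by
  have h1 := mpl_int hB hC hR
  have hsq := mpl_sq hB hC hR
  have h2 : MemLp (mpl_b B) 2 :=
    (memLp_two_iff_integrable_sq_norm (mpl_meas hB).aestronglyMeasurable).2 hsq
  have hpl := H58.plancherel (mpl_b B) h1 h2
  have hcont : Continuous (𝓕 (mpl_b B)) :=
    (VectorFourier.fourierIntegral_continuous Real.continuous_fourierChar
      (by exact (innerSL ℝ (E := ℝ)).continuous₂) h1)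
  have hconv : ∀ g : ℝ → ℂ, ∀ x, ENNReal.ofReal (‖g x‖ ^ 2) = ‖g x‖ₑ ^ 2 := fun g x => by
    rw [ENNReal.ofReal_pow (norm_nonneg _), ofReal_norm]
  have hF : Integrable (fun ξ => ‖𝓕 (mpl_b B) ξ‖ ^ 2) := by
    refine ⟨(hcont.norm.pow 2).aestronglyMeasurable, ?_⟩
    rw [hasFiniteIntegral_iff_ofReal (Filter.Eventually.of_forall fun x => by positivity)]
    simp_rw [hconv]
    rw [hpl]
    have h3 := hsq.2
    rw [hasFiniteIntegral_iff_ofReal (Filter.Eventually.of_forall fun x => by positivity)] at h3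
    simp_rw [hconv] at h3
    exact h3
  have heq : ∫ ξ, ‖𝓕 (mpl_b B) ξ‖ ^ 2 = ∫ u, ‖mpl_b B u‖ ^ 2 := by
    rw [integral_eq_lintegral_of_nonneg_ae (Filter.Eventually.of_forall fun x => by positivity)
      hF.1, integral_eq_lintegral_of_nonneg_ae
      (Filter.Eventually.of_forall fun x => by positivity) hsq.1]
    simp_rw [hconv]
    rw [hpl]
  have hpi : (2 * Real.pi) ≠ 0 := by positivity
  have hm : (fun κ : ℝ => ‖mellin B (1 + κ * Complex.I)‖ ^ 2) =
      fun κ : ℝ => (fun ξ => ‖𝓕 (mpl_b B) ξ‖ ^ 2) (κ * (-1 / (2 * Real.pi))) := by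
    funext κ
    rw [mpl_mellin]
    simp only
    congr 3
    ring
  have hne : (-1 / (2 * Real.pi)) ≠ 0 := by
    apply div_ne_zero (by norm_num) hpi
  rw [hm]
  refine ⟨hF.comp_mul_right' hne, ?_⟩
  rw [Measure.integral_comp_mul_right (fun ξ => ‖𝓕 (mpl_b B) ξ‖ ^ 2) (-1 / (2 * Real.pi)), heq,
    mpl_integral_exp]
  have h4 : |(-1 / (2 * Real.pi))⁻¹| = 2 * Real.pi := by
    rw [show (-1 / (2 * Real.pi))⁻¹ = -(2 * Real.pi) by field_simp, abs_neg,
      abs_of_pos (by positivity)]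
  rw [h4, smul_eq_mul, ← mul_assoc, inv_mul_cancel₀ hpi, one_mul]
  refine integral_congr_ae (Filter.Eventually.of_forall fun u => ?_)
  simp only [smul_eq_mul, mpl_norm]
  ring

end Pool.Agent.JO
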