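import Pool.Agent.Lib_helper63.JO.Defs2
import Pool.Agent.Lib_helper63.JOE.BB1
import Pool.Agent.Lib_helper63.JOE.BB2
import Pool.Agent.Lib_helper63.JOE.LRA
import Pool.Agent.Lib_helper63.JOE.MPL
/-! JOE, block MOE: approximate Moebius inversion in the mean square (uses BB1 BB2 MPL LRA) -/

namespace Pool.Agent.JO

open Complex MeasureTheory Filter Topology UpperHalfPlane ModularGroup
open scoped MatrixGroups Modular ENNReal ComplexConjugate ContDiff

variable {N : ℕ}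

noncomputable def moe_c (δ : ℝ) (m : ℕ) : ℂ :=
  ((ArithmeticFunction.moebius m : ℝ) * (m : ℝ) ^ (-δ) : ℝ)

def moe_F (N M : ℕ) : Finset ℕ := (Finset.Icc 1 M).filter (fun m => m.Coprime N)

theorem moe_bM (δ : ℝ) (M k : ℕ) :
    (bM N δ M k : ℂ) = ∑ m ∈ moe_F N M, if m ∣ k then moe_c δ m else 0 := by
  unfold bM moe_F moe_c
  rw [← Finset.sum_filter, Finset.filter_filter]
  push_cast
  refine Finset.sum_congr ?_ fun _ _ => rfl
  ext m
  simp only [Finset.mem_filter]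
  tauto

theorem moe_tsum [NeZero N] (χ : DirichletCharacter ℂ N) (A : ℝ → ℂ) {m : ℕ} (hm : 1 ≤ m)
    (ρ : ℝ) :
    ∑' k : ℕ, (if k = 0 then 0 else if m ∣ k then χ k * A (k * ρ) else 0) =
      χ m * BB χ A (m * ρ) := by
  have hinj : Function.Injective (fun j : ℕ => m * j) := fun a b h =>
    Nat.eq_of_mul_eq_mul_left hm h
  have hs : Function.support (fun k : ℕ =>
      (if k = 0 then (0 : ℂ) else if m ∣ k then χ k * A (k * ρ) else 0)) ⊆
      Set.range (fun j : ℕ => m * j) := by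
    intro k hk
    rw [Function.mem_support] at hk
    by_cases h0 : k = 0
    · simp [h0] at hk
    · rw [if_neg h0] at hk
      by_cases h1 : m ∣ k
      · obtain ⟨j, rfl⟩ := h1
        exact ⟨j, rfl⟩
      · rw [if_neg h1] at hk
        exact absurd rfl hk
  rw [← hinj.tsum_eq hs]
  unfold BB
  rw [← tsum_mul_left]
  refine tsum_congr fun j => ?_
  by_cases hj : j = 0
  · simp [hj]
  · have h1 : m * j ≠ 0 := Nat.mul_ne_zero (by omega) hj
    simp only [h1, hj, if_false, dvd_mul_right, if_true]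
    push_cast
    rw [map_mul, mul_assoc, mul_comm (m : ℝ) (j : ℝ), mul_assoc (j : ℝ)]

theorem moe_fin {A : ℝ → ℂ} (hA : TA A) (ρ : ℝ) : ∃ K : ℕ, ∀ k : ℕ, K ≤ k → A (k * ρ) = 0 := by
  obtain ⟨r, R, hr, hsupp⟩ := hA.supp
  rcases le_or_gt ρ 0 with h | h
  · refine ⟨0, fun k _ => ?_⟩
    by_contra hne
    have h1 := (hsupp _ hne).1
    have h2 : (k : ℝ) * ρ ≤ 0 := mul_nonpos_of_nonneg_of_nonpos (Nat.cast_nonneg _) h
    linarith
  · obtain ⟨K, hK⟩ := exists_nat_gt (R / ρ)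
    refine ⟨K, fun k hk => ?_⟩
    by_contra hne
    have h1 := (hsupp _ hne).2
    rw [div_lt_iff₀ h] at hK
    have h2 : (K : ℝ) ≤ k := by exact_mod_cast hk
    have h3 : (K : ℝ) * ρ ≤ k * ρ := mul_le_mul_of_nonneg_right h2 h.le
    linarith

theorem moe_sum [NeZero N] (χ : DirichletCharacter ℂ N) {A : ℝ → ℂ} (hA : TA A) (δ : ℝ) (M : ℕ)
    (ρ : ℝ) :
    (∑' k : ℕ, if k = 0 then 0 else (bM N δ M k : ℂ) * χ k * A (k * ρ)) =
      ∑ m ∈ moe_F N M, moe_c δ m * (χ m * BB χ A (m * ρ)) := by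
  obtain ⟨K, hK⟩ := moe_fin hA ρ
  have e1 : ∀ k : ℕ, (if k = 0 then 0 else (bM N δ M k : ℂ) * χ k * A (k * ρ)) =
      ∑ m ∈ moe_F N M, moe_c δ m *
        (if k = 0 then 0 else if m ∣ k then χ k * A (k * ρ) else 0) := by
    intro k
    by_cases h0 : k = 0
    · simp [h0]
    · simp only [h0, if_false]
      rw [moe_bM, Finset.sum_mul, Finset.sum_mul]
      refine Finset.sum_congr rfl fun m _ => ?_
      split_ifs <;> ring
  rw [tsum_congr e1, Summable.tsum_finsetSum]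
  · refine Finset.sum_congr rfl fun m hm => ?_
    rw [tsum_mul_left, moe_tsum χ A (by
      unfold moe_F at hm
      rw [Finset.mem_filter, Finset.mem_Icc] at hm
      exact hm.1.1)]
  · intro m _
    refine Summable.mul_left _ (summable_of_ne_finset_zero (s := Finset.range K) fun k hk => ?_)
    rw [Finset.mem_range, not_lt] at hk
    rw [hK k hk]
    simp

theorem moe_conv {A : ℝ → ℂ} (hA : TA A) (s : ℂ) : MellinConvergent A s := by
  obtain ⟨r, R, hr, hsupp⟩ := hA.supp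
  have hloc : LocallyIntegrableOn A (Set.Ioi 0) :=
    (hA.smooth.continuous.locallyIntegrable).locallyIntegrableOn _
  have htop : A =O[atTop] (fun x : ℝ => x ^ (-(s.re + 1))) := by
    have : A =ᶠ[atTop] fun _ => 0 := by
      filter_upwards [eventually_gt_atTop R] with x hx
      by_contra hne
      exact absurd (hsupp x hne).2 (not_le.2 hx)
    exact this.trans_isBigO (Asymptotics.isBigO_zero _ _)
  have hbot : A =O[𝓝[>] 0] (fun x : ℝ => x ^ (-(s.re - 1))) := by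
    have : A =ᶠ[𝓝[>] 0] fun _ => 0 := by
      filter_upwards [mem_nhdsWithin_of_mem_nhds (Iio_mem_nhds hr)] with x hx
      by_contra hne
      exact absurd (hsupp x hne).1 (not_le.2 hx)
    exact this.trans_isBigO (Asymptotics.isBigO_zero _ _)
  exact mellinConvergent_of_isBigO_rpow hloc htop (by linarith) hbot (by linarith)

theorem moe_conv_bdd {B : ℝ → ℂ} (hB : Measurable B) {C R : ℝ}
    (hC : ∀ ρ, 0 < ρ → ‖B ρ‖ ≤ C) (hR : ∀ ρ, R < ρ → B ρ = 0) {s : ℂ} (hs : 0 < s.re) :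
    MellinConvergent B s := by
  have hint : IntegrableOn B (Set.Ioi 0) := by
    have h1 : Integrable (fun x : ℝ => (Set.Ioc 0 R).indicator (fun _ => C) x) := by
      rw [integrable_indicator_iff measurableSet_Ioc]
      exact integrableOn_const (by simp) (by simp)
    refine Integrable.mono' h1.integrableOn hB.aestronglyMeasurable ?_
    refine (ae_restrict_iff' measurableSet_Ioi).2 (Eventually.of_forall fun x hx => ?_)
    have hx0 : (0 : ℝ) < x := hx
    by_cases hxR : x ≤ R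
    · rw [Set.indicator_of_mem (show x ∈ Set.Ioc 0 R from ⟨hx0, hxR⟩)]
      exact hC x hx0
    · rw [hR x (not_le.1 hxR), Set.indicator_of_notMem (fun h => hxR h.2)]
      simp
  have hloc : LocallyIntegrableOn B (Set.Ioi 0) := hint.locallyIntegrableOn
  have htop : B =O[atTop] (fun x : ℝ => x ^ (-(s.re + 1))) := by
    have : B =ᶠ[atTop] fun _ => 0 := by
      filter_upwards [eventually_gt_atTop R] with x hx
      exact hR x hx
    exact this.trans_isBigO (Asymptotics.isBigO_zero _ _)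
  have hbot : B =O[𝓝[>] 0] (fun x : ℝ => x ^ (-(0 : ℝ))) := by
    refine Asymptotics.IsBigO.of_bound C ?_
    filter_upwards [self_mem_nhdsWithin] with x hx
    simpa using hC x hx
  exact mellinConvergent_of_isBigO_rpow hloc htop (by linarith) hbot hs

/-- the Mellin transform of the difference -/
theorem moe_mellin [NeZero N] (χ : DirichletCharacter ℂ N) {A : ℝ → ℂ} (hA : TA A) (δ : ℝ)
    (M : ℕ) {s : ℂ} (hs : 0 < s.re) (hs1 : s ≠ 1) :
    mellin (fun ρ => (∑ m ∈ moe_F N M, moe_c δ m * (χ m * BB χ A (m * ρ))) - A ρ) s =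
      ((∑ m ∈ moe_F N M, moe_c δ m * χ m * (m : ℂ) ^ (-s)) *
        DirichletCharacter.LFunction χ s - 1) * mellin A s := by
  obtain ⟨hm, C, R, hC, hR⟩ := BB_bdd χ hA
  have hcB : MellinConvergent (BB χ A) s := moe_conv_bdd hm hC hR hs
  have hcA := moe_conv hA s
  have hpos : ∀ m ∈ moe_F N M, (0 : ℝ) < m := by
    intro m hm
    unfold moe_F at hm
    rw [Finset.mem_filter, Finset.mem_Icc] at hm
    exact_mod_cast hm.1.1
  have hcm : ∀ m ∈ moe_F N M, MellinConvergent (fun ρ : ℝ => (moe_c δ m * χ m) •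
      BB χ A (m * ρ)) s := fun m hm =>
    ((MellinConvergent.comp_mul_left (hpos m hm)).2 hcB).const_smul _
  have hsumconv : MellinConvergent (fun ρ => ∑ m ∈ moe_F N M,
      moe_c δ m * (χ m * BB χ A (m * ρ))) s := by
    have h1 : IntegrableOn (fun t : ℝ => ∑ m ∈ moe_F N M, (t : ℂ) ^ (s - 1) •
        ((moe_c δ m * χ m) • BB χ A (m * t))) (Set.Ioi 0) :=
      integrable_finsetSum _ fun m hm => hcm m hm
    refine Integrable.congr h1 (Eventually.of_forall fun t => ?_)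
    simp only [smul_eq_mul, Finset.mul_sum]
    exact Finset.sum_congr rfl fun m _ => by ring
  rw [(hasMellin_sub hsumconv hcA).2]
  have e1 : mellin (fun ρ => ∑ m ∈ moe_F N M, moe_c δ m * (χ m * BB χ A (m * ρ))) s =
      ∑ m ∈ moe_F N M, moe_c δ m * χ m * ((m : ℂ) ^ (-s) * mellin (BB χ A) s) := by
    have e2 : ∀ m ∈ moe_F N M, mellin (fun ρ : ℝ => (moe_c δ m * χ m) • BB χ A (m * ρ)) s =
        moe_c δ m * χ m * ((m : ℂ) ^ (-s) * mellin (BB χ A) s) := by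
      intro m hm
      rw [mellin_const_smul, mellin_comp_mul_left _ _ (hpos m hm)]
      simp
    rw [← Finset.sum_congr rfl e2]
    unfold mellin
    rw [← integral_finsetSum _ fun m hm => hcm m hm]
    refine integral_congr_ae (Eventually.of_forall fun t => ?_)
    simp only [smul_eq_mul, Finset.mul_sum]
    exact Finset.sum_congr rfl fun m _ => by ring
  rw [e1, BB_mellin χ hA hs hs1, sub_mul, one_mul, Finset.sum_mul, Finset.sum_mul]
  congr 1
  exact Finset.sum_congr rfl fun m _ => by ring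

/-- the tail of the Dirichlet series -/
noncomputable def moe_tau (δ : ℝ) (M : ℕ) : ℝ := ∑' k : ℕ, (((k + (M + 1) : ℕ) : ℝ) ^ (1 + δ))⁻¹

theorem moe_tau_tendsto {δ : ℝ} : Tendsto (moe_tau δ) atTop (𝓝 0) := by
  have h := tendsto_sum_nat_add (fun k : ℕ => ((k : ℝ) ^ (1 + δ))⁻¹)
  exact h.comp (tendsto_add_atTop_nat 1)

theorem moe_tau_nonneg (δ : ℝ) (M : ℕ) : 0 ≤ moe_tau δ M := tsum_nonneg fun k => by positivity

theorem moe_tail [NeZero N] (χ : DirichletCharacter ℂ N) {δ : ℝ} (hδ : 0 < δ) (M : ℕ) (κ : ℝ) :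
    ‖(∑ m ∈ moe_F N M, moe_c δ m * χ m * (m : ℂ) ^ (-(1 + κ * Complex.I : ℂ))) -
      (DirichletCharacter.LFunction χ (1 + δ + κ * Complex.I))⁻¹‖ ≤ moe_tau δ M := by
  set s : ℂ := 1 + δ + κ * Complex.I with hs
  have hre : s.re = 1 + δ := by simp [hs]
  have hs1 : 1 < s.re := by rw [hre]; linarith
  set f : ℕ → ℂ := (fun n : ℕ => χ n) * (fun n : ℕ => (ArithmeticFunction.moebius n : ℂ)) with hf
  have hinv : (DirichletCharacter.LFunction χ s)⁻¹ = LSeries f s := by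
    rw [DirichletCharacter.LFunction_eq_LSeries χ hs1]
    exact (eq_inv_of_mul_eq_one_right (DirichletCharacter.LSeries.mul_mu_eq_one χ hs1)).symm
  have hnorm : ∀ n : ℕ, ‖LSeries.term f s n‖ ≤ ((n : ℝ) ^ (1 + δ))⁻¹ := by
    intro n
    rcases Nat.eq_zero_or_pos n with rfl | hn
    · simp
      positivity
    · have hn' : (0 : ℝ) < n := by exact_mod_cast hn
      rw [LSeries.norm_term_eq, if_neg hn.ne', hre, div_eq_mul_inv]
      have h1 : ‖f n‖ ≤ 1 := by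
        rw [hf, Pi.mul_apply, norm_mul]
        have h2 : ‖χ n‖ ≤ 1 := DirichletCharacter.norm_le_one χ n
        have h3 : ‖(ArithmeticFunction.moebius n : ℂ)‖ ≤ 1 := by
          rw [Complex.norm_intCast]
          exact_mod_cast ArithmeticFunction.abs_moebius_le_one
        exact mul_le_one₀ h2 (norm_nonneg _) h3
      have h4 : 0 ≤ ((n : ℝ) ^ (1 + δ))⁻¹ := by positivity
      exact mul_le_of_le_one_left h4 h1
  have hsumm : Summable (fun n : ℕ => ((n : ℝ) ^ (1 + δ))⁻¹) :=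
    Real.summable_nat_rpow_inv.2 (by linarith)
  have hsum2 : Summable (fun n => LSeries.term f s n) :=
    Summable.of_norm_bounded hsumm hnorm
  have hP : ∑ m ∈ moe_F N M, moe_c δ m * χ m * (m : ℂ) ^ (-(1 + κ * Complex.I : ℂ)) =
      ∑ n ∈ Finset.range (M + 1), LSeries.term f s n := by
    have e1 : ∑ n ∈ Finset.range (M + 1), LSeries.term f s n =
        ∑ n ∈ Finset.Icc 1 M, LSeries.term f s n := by
      rw [Finset.range_eq_Ico, Finset.sum_eq_sum_Ico_succ_bot (by omega)]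
      simp only [LSeries.term_zero, zero_add]
      rfl
    rw [e1]
    unfold moe_F
    rw [Finset.sum_filter]
    refine Finset.sum_congr rfl fun n hn => ?_
    rw [Finset.mem_Icc] at hn
    have hn0 : n ≠ 0 := by omega
    have hn' : (0 : ℝ) < n := by exact_mod_cast (Nat.pos_of_ne_zero hn0)
    rw [LSeries.term_of_ne_zero hn0]
    split_ifs with hc
    · simp only [hf, Pi.mul_apply, moe_c]
      have e2 : (n : ℂ) ^ s = (n : ℂ) ^ (δ : ℂ) * (n : ℂ) ^ (1 + κ * Complex.I : ℂ) := by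
        rw [← cpow_add _ _ (by exact_mod_cast hn0)]
        congr 1
        rw [hs]; ring
      rw [e2, cpow_neg]
      push_cast
      rw [ofReal_cpow hn'.le]
      push_cast
      rw [cpow_neg]
      have h5 : (n : ℂ) ^ (δ : ℂ) ≠ 0 := by
        rw [Ne, cpow_eq_zero_iff]
        simp [hn0]
      have h6 : (n : ℂ) ^ (1 + κ * Complex.I : ℂ) ≠ 0 := by
        rw [Ne, cpow_eq_zero_iff]
        simp [hn0]
      field_simp
    · have hz : χ n = 0 := by
        refine χ.map_nonunit fun hu => hc ?_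
        exact (ZMod.isUnit_iff_coprime n N).1 hu
      simp [hf, hz]
  rw [hP, hinv]
  unfold LSeries
  rw [← hsum2.sum_add_tsum_nat_add (M + 1)]
  rw [sub_add_eq_sub_sub, sub_self, zero_sub, norm_neg]
  have hs3 : Summable (fun k : ℕ => (((k + (M + 1) : ℕ) : ℝ) ^ (1 + δ))⁻¹) :=
    (summable_nat_add_iff (M + 1)).2 hsumm
  exact tsum_of_norm_bounded hs3.hasSum fun k => hnorm (k + (M + 1))

theorem moe_L2 [NeZero N] (χ : DirichletCharacter ℂ N) : ∃ Z : ℝ, 0 ≤ Z ∧ ∀ κ : ℝ,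
    ‖DirichletCharacter.LFunction χ (1 + (1 : ℝ) + κ * Complex.I)‖ ≤ Z := by
  refine ⟨∑' n : ℕ, ((n : ℝ) ^ (2 : ℝ))⁻¹, tsum_nonneg fun n => by positivity, fun κ => ?_⟩
  set s : ℂ := 1 + (1 : ℝ) + κ * Complex.I with hs
  have hre : s.re = 2 := by simp [hs]; norm_num
  rw [DirichletCharacter.LFunction_eq_LSeries χ (by rw [hre]; norm_num)]
  have hsumm : Summable (fun n : ℕ => ((n : ℝ) ^ (2 : ℝ))⁻¹) :=
    Real.summable_nat_rpow_inv.2 (by norm_num)
  refine tsum_of_norm_bounded hsumm.hasSum fun n => ?_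
  rcases Nat.eq_zero_or_pos n with rfl | hn
  · simp
  · rw [LSeries.norm_term_eq, if_neg hn.ne', hre, div_eq_mul_inv]
    have h4 : 0 ≤ ((n : ℝ) ^ (2 : ℝ))⁻¹ := by positivity
    exact mul_le_of_le_one_left h4 (DirichletCharacter.norm_le_one χ n)

theorem moe_min {κ : ℝ} (hκ : κ ≠ 0) : (1 + |κ|⁻¹) * min 1 |κ| ≤ 2 := by
  have h0 : 0 < |κ| := abs_pos.2 hκ
  rcases le_total |κ| 1 with h | h
  · rw [min_eq_right h, add_mul, one_mul, inv_mul_cancel₀ h0.ne']
    linarith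
  · rw [min_eq_left h, mul_one]
    have : |κ|⁻¹ ≤ 1 := inv_le_one_of_one_le₀ h
    linarith

/-- the weight -/
noncomputable def moe_w (κ : ℝ) : ℝ := (1 + ‖κ‖) ^ (-(4 : ℝ))

theorem moe_w_int : Integrable moe_w := by
  refine integrable_one_add_norm ?_
  simp

theorem moe_sqw (κ : ℝ) : ((1 + |κ|) ^ (-(2 : ℝ))) ^ 2 = moe_w κ := by
  unfold moe_w
  have h : (0 : ℝ) ≤ 1 + |κ| := by positivity
  rw [← Real.rpow_natCast, ← Real.rpow_mul h, Real.norm_eq_abs]
  norm_num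

theorem moe_prod {κ : ℝ} (hκ : κ ≠ 0) (n : ℕ) :
    (1 + |κ|) ^ n * (1 + |κ|⁻¹) * (min 1 |κ| * (1 + |κ|) ^ (-((n + 2 : ℕ) : ℝ))) ≤
      2 * (1 + |κ|) ^ (-(2 : ℝ)) := by
  have h : (0 : ℝ) < 1 + |κ| := by positivity
  have e : (1 + |κ|) ^ (-((n + 2 : ℕ) : ℝ)) = ((1 + |κ|) ^ n)⁻¹ * (1 + |κ|) ^ (-(2 : ℝ)) := by
    rw [← Real.rpow_natCast (1 + |κ|) n, ← Real.rpow_neg h.le, ← Real.rpow_add h]
    congr 1
    push_cast
    ring
  rw [e]
  have e2 : (1 + |κ|) ^ n * (1 + |κ|⁻¹) * (min 1 |κ| *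
      (((1 + |κ|) ^ n)⁻¹ * (1 + |κ|) ^ (-(2 : ℝ)))) =
      ((1 + |κ|⁻¹) * min 1 |κ|) * (1 + |κ|) ^ (-(2 : ℝ)) := by
    have : (1 + |κ|) ^ n ≠ 0 := by positivity
    field_simp
  rw [e2]
  exact mul_le_mul_of_nonneg_right (moe_min hκ) (by positivity)

theorem moe_prod1 (κ : ℝ) (n : ℕ) :
    min 1 |κ| * (1 + |κ|) ^ (-((n + 2 : ℕ) : ℝ)) ≤ (1 + |κ|) ^ (-(2 : ℝ)) := by
  have h : (1 : ℝ) ≤ 1 + |κ| := by have := abs_nonneg κ; linarith
  have h1 : (1 + |κ|) ^ (-((n + 2 : ℕ) : ℝ)) ≤ (1 + |κ|) ^ (-(2 : ℝ)) :=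
    Real.rpow_le_rpow_of_exponent_le h (by push_cast; have := (Nat.cast_nonneg n : (0 : ℝ) ≤ n); linarith)
  have h2 : min 1 |κ| ≤ 1 := min_le_left _ _
  have h3 : 0 ≤ min 1 |κ| := le_min zero_le_one (abs_nonneg _)
  calc min 1 |κ| * (1 + |κ|) ^ (-((n + 2 : ℕ) : ℝ)) ≤ 1 * (1 + |κ|) ^ (-(2 : ℝ)) := by
        gcongr
    _ = _ := one_mul _

theorem moe_meas [NeZero N] (χ : DirichletCharacter ℂ N) (δ : ℝ) (hδ : 0 ≤ δ) :
    Measurable (fun κ : ℝ => DirichletCharacter.LFunction χ (1 + δ + κ * Complex.I)) := by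
  refine measurable_of_continuousOn_compl_singleton 0 fun κ hκ => ?_
  have hκ0 : κ ≠ 0 := hκ
  have hne : (1 + δ + κ * Complex.I : ℂ) ≠ 1 := by
    intro h
    have := congrArg Complex.im h
    simp at this
    exact hκ0 this
  have h1 := (DirichletCharacter.differentiableAt_LFunction χ _ (Or.inl hne)).continuousAt
  have h2 : ContinuousAt (fun κ : ℝ => (1 + δ + κ * Complex.I : ℂ)) κ := by fun_prop
  exact (ContinuousAt.comp (f := fun κ : ℝ => (1 + δ + κ * Complex.I : ℂ)) h1 h2).continuousWithinAt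

/-- the square of the error of the regularisation -/
noncomputable def moe_G [NeZero N] (χ : DirichletCharacter ℂ N) (n : ℕ) (δ κ : ℝ) : ℝ :=
  ‖DirichletCharacter.LFunction χ (1 + κ * Complex.I) /
    DirichletCharacter.LFunction χ (1 + δ + κ * Complex.I) - 1‖ *
      (min 1 |κ| * (1 + |κ|) ^ (-((n + 2 : ℕ) : ℝ)))

theorem moe_G_nonneg [NeZero N] (χ : DirichletCharacter ℂ N) (n : ℕ) (δ κ : ℝ) :
    0 ≤ moe_G χ n δ κ := by
  unfold moe_G
  have h3 : 0 ≤ min 1 |κ| := le_min zero_le_one (abs_nonneg _)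
  positivity

theorem moe_G_meas [NeZero N] (χ : DirichletCharacter ℂ N) (n : ℕ) {δ : ℝ} (hδ : 0 ≤ δ) :
    Measurable (moe_G χ n δ) := by
  unfold moe_G
  have h0 := moe_meas χ 0 le_rfl
  simp only [ofReal_zero, add_zero] at h0
  have h1 := moe_meas χ δ hδ
  exact (((h0.div h1).sub_const 1).norm).mul (by fun_prop)

theorem moe_G_le [NeZero N] (χ : DirichletCharacter ℂ N) {C : ℝ} {n : ℕ} (hC0 : 0 ≤ C)
    (hC : ∀ (δ κ : ℝ), 0 < δ → δ ≤ 1 → κ ≠ 0 →
      ‖DirichletCharacter.LFunction χ (1 + κ * Complex.I)‖ ≤ C * (1 + |κ|) ^ n * (1 + |κ|⁻¹) *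
        ‖DirichletCharacter.LFunction χ (1 + δ + κ * Complex.I)‖)
    {δ κ : ℝ} (h0 : 0 < δ) (h1 : δ ≤ 1) (hκ : κ ≠ 0) :
    moe_G χ n δ κ ≤ (2 * C + 1) * (1 + |κ|) ^ (-(2 : ℝ)) := by
  have hne : DirichletCharacter.LFunction χ (1 + δ + κ * Complex.I) ≠ 0 := by
    refine DirichletCharacter.LFunction_ne_zero_of_one_le_re χ (Or.inr ?_) (by simp; linarith)
    intro h
    have := congrArg Complex.im h
    simp at this
    exact hκ this
  have hpos : 0 < ‖DirichletCharacter.LFunction χ (1 + δ + κ * Complex.I)‖ := norm_pos_iff.2 hne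
  have h3 : 0 ≤ min 1 |κ| := le_min zero_le_one (abs_nonneg _)
  have hW : 0 ≤ min 1 |κ| * (1 + |κ|) ^ (-((n + 2 : ℕ) : ℝ)) := by positivity
  have h2 : ‖DirichletCharacter.LFunction χ (1 + κ * Complex.I) /
      DirichletCharacter.LFunction χ (1 + δ + κ * Complex.I) - 1‖ ≤
      C * ((1 + |κ|) ^ n * (1 + |κ|⁻¹)) + 1 := by
    refine (norm_sub_le _ _).trans ?_
    rw [norm_one, norm_div]
    have : ‖DirichletCharacter.LFunction χ (1 + κ * Complex.I)‖ /
        ‖DirichletCharacter.LFunction χ (1 + δ + κ * Complex.I)‖ ≤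
        C * ((1 + |κ|) ^ n * (1 + |κ|⁻¹)) := by
      rw [div_le_iff₀ hpos]
      have := hC δ κ h0 h1 hκ
      linarith [this]
    linarith
  unfold moe_G
  calc _ ≤ (C * ((1 + |κ|) ^ n * (1 + |κ|⁻¹)) + 1) *
        (min 1 |κ| * (1 + |κ|) ^ (-((n + 2 : ℕ) : ℝ))) := mul_le_mul_of_nonneg_right h2 hW
    _ = C * ((1 + |κ|) ^ n * (1 + |κ|⁻¹) * (min 1 |κ| * (1 + |κ|) ^ (-((n + 2 : ℕ) : ℝ)))) +
        min 1 |κ| * (1 + |κ|) ^ (-((n + 2 : ℕ) : ℝ)) := by ring
    _ ≤ C * (2 * (1 + |κ|) ^ (-(2 : ℝ))) + (1 + |κ|) ^ (-(2 : ℝ)) :=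
        add_le_add (mul_le_mul_of_nonneg_left (moe_prod hκ n) hC0) (moe_prod1 κ n)
    _ = _ := by ring

theorem moe_ae_ne : ∀ᵐ κ : ℝ, κ ≠ 0 := by
  have : (volume : Measure ℝ) {0} = 0 := by simp
  rw [ae_iff]
  simpa using this

theorem moe_G_sq_int [NeZero N] (χ : DirichletCharacter ℂ N) {C : ℝ} {n : ℕ} (hC0 : 0 ≤ C)
    (hC : ∀ (δ κ : ℝ), 0 < δ → δ ≤ 1 → κ ≠ 0 →
      ‖DirichletCharacter.LFunction χ (1 + κ * Complex.I)‖ ≤ C * (1 + |κ|) ^ n * (1 + |κ|⁻¹) *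
        ‖DirichletCharacter.LFunction χ (1 + δ + κ * Complex.I)‖)
    {δ : ℝ} (h0 : 0 < δ) (h1 : δ ≤ 1) :
    (∀ᵐ κ : ℝ, ‖moe_G χ n δ κ ^ 2‖ ≤ (2 * C + 1) ^ 2 * moe_w κ) ∧
    Integrable (fun κ => moe_G χ n δ κ ^ 2) := by
  have hb : ∀ᵐ κ : ℝ, ‖moe_G χ n δ κ ^ 2‖ ≤ (2 * C + 1) ^ 2 * moe_w κ := by
    filter_upwards [moe_ae_ne] with κ hκ
    rw [Real.norm_of_nonneg (by positivity), ← moe_sqw, ← mul_pow]
    exact pow_le_pow_left₀ (moe_G_nonneg χ n δ κ) (moe_G_le χ hC0 hC h0 h1 hκ) 2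
  exact ⟨hb, Integrable.mono' (moe_w_int.const_mul _)
    ((moe_G_meas χ n h0.le).pow_const 2).aestronglyMeasurable hb⟩

theorem moe_G_tendsto [NeZero N] (χ : DirichletCharacter ℂ N) {C : ℝ} {n : ℕ} (hC0 : 0 ≤ C)
    (hC : ∀ (δ κ : ℝ), 0 < δ → δ ≤ 1 → κ ≠ 0 →
      ‖DirichletCharacter.LFunction χ (1 + κ * Complex.I)‖ ≤ C * (1 + |κ|) ^ n * (1 + |κ|⁻¹) *
        ‖DirichletCharacter.LFunction χ (1 + δ + κ * Complex.I)‖) :
    Tendsto (fun δ : ℝ => ∫ κ : ℝ, moe_G χ n δ κ ^ 2) (𝓝[>] 0) (𝓝 0) := by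
  have key : Tendsto (fun δ : ℝ => ∫ κ : ℝ, moe_G χ n δ κ ^ 2) (𝓝[>] 0)
      (𝓝 (∫ κ : ℝ, (0 : ℝ))) := ?_
  · simpa using key
  refine tendsto_integral_filter_of_dominated_convergence
    (fun κ => (2 * C + 1) ^ 2 * moe_w κ) ?_ ?_ (moe_w_int.const_mul _) ?_
  · filter_upwards [self_mem_nhdsWithin] with δ hδ
    exact ((moe_G_meas χ n (le_of_lt hδ)).pow_const 2).aestronglyMeasurable
  · filter_upwards [self_mem_nhdsWithin, mem_nhdsWithin_of_mem_nhds (Iio_mem_nhds one_pos)]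
      with δ hδ hδ1
    exact (moe_G_sq_int χ hC0 hC hδ (le_of_lt hδ1)).1
  · filter_upwards [moe_ae_ne] with κ hκ
    have hne : (1 + κ * Complex.I : ℂ) ≠ 1 := by
      intro h
      have := congrArg Complex.im h
      simp at this
      exact hκ this
    have hL := DirichletCharacter.LFunction_ne_zero_of_one_le_re χ (Or.inr hne) (by simp)
    have hc := (DirichletCharacter.differentiableAt_LFunction χ _ (Or.inl hne)).continuousAt
    have h1 : Tendsto (fun δ : ℝ => DirichletCharacter.LFunction χ (1 + δ + κ * Complex.I))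
        (𝓝[>] 0) (𝓝 (DirichletCharacter.LFunction χ (1 + κ * Complex.I))) := by
      have h2 : Tendsto (fun δ : ℝ => (1 + δ + κ * Complex.I : ℂ)) (𝓝[>] 0)
          (𝓝 (1 + κ * Complex.I)) := by
        have h3 : ContinuousAt (fun δ : ℝ => (1 + δ + κ * Complex.I : ℂ)) 0 := by fun_prop
        have h4 := h3.tendsto
        simp only [ofReal_zero, add_zero] at h4
        exact h4.mono_left nhdsWithin_le_nhds
      exact hc.tendsto.comp h2
    have h5 : Tendsto (fun δ : ℝ => moe_G χ n δ κ ^ 2) (𝓝[>] 0)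
        (𝓝 ((‖DirichletCharacter.LFunction χ (1 + κ * Complex.I) /
          DirichletCharacter.LFunction χ (1 + κ * Complex.I) - 1‖ *
            (min 1 |κ| * (1 + |κ|) ^ (-((n + 2 : ℕ) : ℝ)))) ^ 2)) := by
      unfold moe_G
      exact ((((tendsto_const_nhds.div h1 hL).sub_const 1).norm).mul_const _).pow 2
    rw [div_self hL, sub_self, norm_zero, zero_mul] at h5
    simpa using h5

/-- `L²` convergence of the truncated inversions, in one dimension, uniformly in a family -/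
theorem moebius_one [NeZero N] (χ : DirichletCharacter ℂ N) {ι : Type} {A : ι → ℝ → ℂ}
    (hA : TAF A) {e : ℝ} (he : 0 < e) : ∃ δ₀ > 0, ∀ δ, 0 < δ → δ ≤ δ₀ → ∃ M₀ : ℕ, ∀ M ≥ M₀, ∀ i,
      IntegrableOn (fun ρ : ℝ => ‖(∑' k : ℕ, if k = 0 then 0 else
        (bM N δ M k : ℂ) * χ k * A i (k * ρ)) - A i ρ‖ ^ 2 * ρ) (Set.Ioi 0) ∧
      ∫ ρ in Set.Ioi (0 : ℝ), ‖(∑' k : ℕ, if k = 0 then 0 else
        (bM N δ M k : ℂ) * χ k * A i (k * ρ)) - A i ρ‖ ^ 2 * ρ < e := by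
  obtain ⟨C₁, n, hC₁⟩ := L_ratio χ
  obtain ⟨Z, hZ0, hZ⟩ := moe_L2 χ
  obtain ⟨C₂, hC₂⟩ := mellin_TA hA (n + 2)
  -- nonnegative constants
  set C : ℝ := max C₁ 0 with hCdef
  have hC0 : 0 ≤ C := le_max_right _ _
  have hC : ∀ (δ κ : ℝ), 0 < δ → δ ≤ 1 → κ ≠ 0 →
      ‖DirichletCharacter.LFunction χ (1 + κ * Complex.I)‖ ≤ C * (1 + |κ|) ^ n * (1 + |κ|⁻¹) *
        ‖DirichletCharacter.LFunction χ (1 + δ + κ * Complex.I)‖ := by
    intro δ κ h0 h1 hκ
    refine (hC₁ δ κ h0 h1 hκ).trans ?_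
    have : C₁ ≤ C := le_max_left _ _
    gcongr
  set D : ℝ := max C₂ 0 with hDdef
  have hD0 : 0 ≤ D := le_max_right _ _
  have hD : ∀ i, ∀ κ : ℝ, ‖mellin (A i) (1 + κ * Complex.I)‖ ≤
      D * (min 1 |κ| * (1 + |κ|) ^ (-((n + 2 : ℕ) : ℝ))) := by
    intro i κ
    refine (hC₂ i κ).trans ?_
    have h1 : C₂ ≤ D := le_max_left _ _
    have h3 : 0 ≤ min 1 |κ| := le_min zero_le_one (abs_nonneg _)
    rw [mul_assoc]
    exact mul_le_mul_of_nonneg_right h1 (by positivity)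
  have hLD : ∀ i, ∀ κ : ℝ, κ ≠ 0 → ‖DirichletCharacter.LFunction χ (1 + κ * Complex.I)‖ *
      ‖mellin (A i) (1 + κ * Complex.I)‖ ≤ (2 * C * Z * D) * (1 + |κ|) ^ (-(2 : ℝ)) := by
    intro i κ hκ
    have h1 := hC 1 κ one_pos le_rfl hκ
    have h2 : ‖DirichletCharacter.LFunction χ (1 + κ * Complex.I)‖ ≤
        C * (1 + |κ|) ^ n * (1 + |κ|⁻¹) * Z :=
      h1.trans (mul_le_mul_of_nonneg_left (hZ κ) (by positivity))
    have h3 : 0 ≤ min 1 |κ| := le_min zero_le_one (abs_nonneg _)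
    calc _ ≤ (C * (1 + |κ|) ^ n * (1 + |κ|⁻¹) * Z) *
          (D * (min 1 |κ| * (1 + |κ|) ^ (-((n + 2 : ℕ) : ℝ)))) :=
          mul_le_mul h2 (hD i κ) (norm_nonneg _) (by positivity)
      _ = (C * Z * D) * ((1 + |κ|) ^ n * (1 + |κ|⁻¹) *
          (min 1 |κ| * (1 + |κ|) ^ (-((n + 2 : ℕ) : ℝ)))) := by ring
      _ ≤ (C * Z * D) * (2 * (1 + |κ|) ^ (-(2 : ℝ))) :=
          mul_le_mul_of_nonneg_left (moe_prod hκ n) (by positivity)
      _ = _ := by ring
  set K : ℝ := (2 * C * Z * D) ^ 2 * ∫ κ, moe_w κ with hK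
  have hw0 : 0 ≤ ∫ κ, moe_w κ := integral_nonneg fun κ => by unfold moe_w; positivity
  have hK0 : 0 ≤ K := by positivity
  -- choice of δ₀
  have hJ := (moe_G_tendsto χ hC0 hC).const_mul (D ^ 2)
  rw [mul_zero] at hJ
  have hev := (hJ.eventually (gt_mem_nhds he)).and
    (mem_nhdsWithin_of_mem_nhds (Iio_mem_nhds one_pos) : Set.Iio (1 : ℝ) ∈ 𝓝[>] 0)
  rw [eventually_nhdsWithin_iff, Metric.eventually_nhds_iff] at hev
  obtain ⟨d, hd0, hd⟩ := hev
  refine ⟨d / 2, half_pos hd0, fun δ hδ hδd => ?_⟩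
  have hδ' := hd (y := δ) (by rw [dist_zero_right, Real.norm_of_nonneg hδ.le]; linarith) hδ
  obtain ⟨hJδ, hδ1⟩ := hδ'
  have hδ1' : δ ≤ 1 := le_of_lt hδ1
  -- choice of M₀
  have hτ : Tendsto (fun M => moe_tau δ M ^ 2 * K) atTop (𝓝 0) := by
    have h1 := ((moe_tau_tendsto (δ := δ)).pow 2).mul_const K
    simpa using h1
  obtain ⟨M₀, hM₀⟩ := (hτ.eventually (gt_mem_nhds he)).exists_forall_of_atTop
  refine ⟨M₀, fun M hM i => ?_⟩
  have hτM := hM₀ M hM
  have hTA := hA.ta i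
  obtain ⟨hmB, CB, RB, hCB, hRB⟩ := BB_bdd χ hTA
  obtain ⟨r, R, hr, hsupp⟩ := hTA.supp
  -- the function
  set B : ℝ → ℂ := fun ρ => (∑ m ∈ moe_F N M, moe_c δ m * (χ m * BB χ (A i) (m * ρ))) - A i ρ
    with hB
  have hfun : (fun ρ : ℝ => ‖(∑' k : ℕ, if k = 0 then 0 else
      (bM N δ M k : ℂ) * χ k * A i (k * ρ)) - A i ρ‖ ^ 2 * ρ) = fun ρ => ‖B ρ‖ ^ 2 * ρ := by
    funext ρ
    rw [moe_sum χ hTA δ M ρ]
  have hBmeas : Measurable B := by
    have h1 : Measurable (fun ρ : ℝ => ∑ m ∈ moe_F N M,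
        moe_c δ m * (χ m * BB χ (A i) (m * ρ))) := by
      refine Finset.measurable_fun_sum _ fun m _ => ?_
      have h2 : Measurable fun ρ : ℝ => BB χ (A i) (m * ρ) := hmB.comp (by fun_prop)
      exact (h2.const_mul _).const_mul _
    exact h1.sub hTA.smooth.continuous.measurable
  have hpos : ∀ m ∈ moe_F N M, (1 : ℝ) ≤ m := by
    intro m hm
    unfold moe_F at hm
    rw [Finset.mem_filter, Finset.mem_Icc] at hm
    exact_mod_cast hm.1.1
  obtain ⟨CA, hCA⟩ := hA.der 0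
  have hBbd : ∃ CC : ℝ, ∀ ρ, 0 < ρ → ‖B ρ‖ ≤ CC := by
    refine ⟨(∑ m ∈ moe_F N M, ‖moe_c δ m‖ * (‖χ m‖ * CB)) + CA, fun ρ hρ => ?_⟩
    refine (norm_sub_le _ _).trans (add_le_add ?_ ?_)
    · refine (norm_sum_le _ _).trans (Finset.sum_le_sum fun m hm => ?_)
      rw [norm_mul, norm_mul]
      have h1 := hCB (m * ρ) (mul_pos (by linarith [hpos m hm]) hρ)
      gcongr
    · simpa using hCA i ρ
  obtain ⟨CC, hCC⟩ := hBbd
  have hBR : ∀ ρ, max (max RB R) 0 < ρ → B ρ = 0 := by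
    intro ρ hρ
    have h0 : 0 < ρ := (le_max_right _ _).trans_lt hρ
    have h1 : RB < ρ := ((le_max_left _ _).trans (le_max_left _ _)).trans_lt hρ
    have h2 : R < ρ := ((le_max_right _ _).trans (le_max_left _ _)).trans_lt hρ
    have h3 : A i ρ = 0 := by
      by_contra hne
      exact absurd (hsupp ρ hne).2 (not_le.2 h2)
    simp only [hB]
    rw [h3, sub_zero]
    refine Finset.sum_eq_zero fun m hm => ?_
    rw [hRB (m * ρ) (by nlinarith [hpos m hm])]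
    simp
  obtain ⟨hint, hpl⟩ := mellin_plancherel hBmeas hCC hBR
  rw [hfun]
  refine ⟨?_, ?_⟩
  · -- integrability
    set R₁ : ℝ := max (max RB R) 0 with hR₁
    have h1 : Integrable (fun x : ℝ => (Set.Ioc 0 R₁).indicator (fun _ => CC ^ 2 * R₁) x) := by
      rw [integrable_indicator_iff measurableSet_Ioc]
      exact integrableOn_const (by simp) enorm_ne_top
    refine Integrable.mono' h1.integrableOn
      (((hBmeas.norm).pow_const 2).mul measurable_id).aestronglyMeasurable ?_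
    refine (ae_restrict_iff' measurableSet_Ioi).2 (Eventually.of_forall fun x hx => ?_)
    have hx0 : (0 : ℝ) < x := hx
    by_cases hxR : x ≤ R₁
    · rw [Set.indicator_of_mem (show x ∈ Set.Ioc 0 R₁ from ⟨hx0, hxR⟩),
        Real.norm_of_nonneg (by positivity)]
      have h2 := pow_le_pow_left₀ (norm_nonneg _) (hCC x hx0) 2
      exact mul_le_mul h2 hxR hx0.le (by positivity)
    · rw [hBR x (not_le.1 hxR), Set.indicator_of_notMem (fun h => hxR h.2)]
      simp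
  · -- the bound
    rw [hpl]
    have hGint := moe_G_sq_int χ hC0 hC hδ hδ1'
    have hbound : ∀ᵐ κ : ℝ, ‖mellin B (1 + κ * Complex.I)‖ ^ 2 ≤
        2 * (moe_tau δ M ^ 2 * (2 * C * Z * D) ^ 2) * moe_w κ +
          2 * D ^ 2 * moe_G χ n δ κ ^ 2 := by
      filter_upwards [moe_ae_ne] with κ hκ
      have hne : (1 + κ * Complex.I : ℂ) ≠ 1 := by
        intro h
        have := congrArg Complex.im h
        simp at this
        exact hκ this
      have hne2 : DirichletCharacter.LFunction χ (1 + δ + κ * Complex.I) ≠ 0 := by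
        refine DirichletCharacter.LFunction_ne_zero_of_one_le_re χ (Or.inr ?_) (by simp; linarith)
        intro h
        have := congrArg Complex.im h
        simp at this
        exact hκ this
      have e1 := moe_mellin χ hTA δ M (s := 1 + κ * Complex.I) (by simp) hne
      set P : ℂ := ∑ m ∈ moe_F N M, moe_c δ m * χ m * (m : ℂ) ^ (-(1 + κ * Complex.I : ℂ)) with hP
      set L : ℂ := DirichletCharacter.LFunction χ (1 + κ * Complex.I) with hL
      set L' : ℂ := DirichletCharacter.LFunction χ (1 + δ + κ * Complex.I) with hL'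
      set a : ℂ := mellin (A i) (1 + κ * Complex.I) with ha
      have htail : ‖P - L'⁻¹‖ ≤ moe_tau δ M := moe_tail χ hδ M κ
      have e2 : mellin B (1 + κ * Complex.I) = (P - L'⁻¹) * (L * a) + (L / L' - 1) * a := by
        rw [hB]
        rw [e1]
        field_simp
        ring
      have h1 : ‖(P - L'⁻¹) * (L * a)‖ ≤
          moe_tau δ M * ((2 * C * Z * D) * (1 + |κ|) ^ (-(2 : ℝ))) := by
        rw [norm_mul, norm_mul]
        exact mul_le_mul htail (hLD i κ hκ) (by positivity) (moe_tau_nonneg δ M)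
      have h2 : ‖(L / L' - 1) * a‖ ≤ D * moe_G χ n δ κ := by
        rw [norm_mul]
        unfold moe_G
        calc ‖L / L' - 1‖ * ‖a‖ ≤ ‖L / L' - 1‖ *
              (D * (min 1 |κ| * (1 + |κ|) ^ (-((n + 2 : ℕ) : ℝ)))) :=
              mul_le_mul_of_nonneg_left (hD i κ) (norm_nonneg _)
          _ = _ := by ring
      have h3 : ‖mellin B (1 + κ * Complex.I)‖ ≤
          moe_tau δ M * ((2 * C * Z * D) * (1 + |κ|) ^ (-(2 : ℝ))) + D * moe_G χ n δ κ := by
        rw [e2]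
        exact (norm_add_le _ _).trans (add_le_add h1 h2)
      have h4 := pow_le_pow_left₀ (norm_nonneg _) h3 2
      refine h4.trans ?_
      rw [← moe_sqw]
      nlinarith [sq_nonneg (moe_tau δ M * ((2 * C * Z * D) * (1 + |κ|) ^ (-(2 : ℝ))) -
        D * moe_G χ n δ κ)]
    have hI1 : Integrable (fun κ : ℝ => 2 * (moe_tau δ M ^ 2 * (2 * C * Z * D) ^ 2) * moe_w κ) :=
      moe_w_int.const_mul _
    have hI2 : Integrable (fun κ : ℝ => 2 * D ^ 2 * moe_G χ n δ κ ^ 2) :=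
      hGint.2.const_mul _
    have hle : ∫ κ : ℝ, ‖mellin B (1 + κ * Complex.I)‖ ^ 2 ≤
        ∫ κ : ℝ, (2 * (moe_tau δ M ^ 2 * (2 * C * Z * D) ^ 2) * moe_w κ +
          2 * D ^ 2 * moe_G χ n δ κ ^ 2) := integral_mono_ae hint (hI1.add hI2) hbound
    have hcalc : ∫ κ : ℝ, (2 * (moe_tau δ M ^ 2 * (2 * C * Z * D) ^ 2) * moe_w κ +
          2 * D ^ 2 * moe_G χ n δ κ ^ 2) =
        2 * (moe_tau δ M ^ 2 * K) + 2 * (D ^ 2 * ∫ κ : ℝ, moe_G χ n δ κ ^ 2) := by
      rw [integral_add hI1 hI2, integral_const_mul, integral_const_mul, hK]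
      ring
    rw [hcalc] at hle
    have hlt : ∫ κ : ℝ, ‖mellin B (1 + κ * Complex.I)‖ ^ 2 < 4 * e := by
      have h1 : D ^ 2 * ∫ κ : ℝ, moe_G χ n δ κ ^ 2 < e := hJδ
      linarith
    have hpi : (4 : ℝ) ≤ 2 * Real.pi := by
      have := Real.pi_gt_three
      linarith
    have h5 : (2 * Real.pi)⁻¹ * ∫ κ : ℝ, ‖mellin B (1 + κ * Complex.I)‖ ^ 2 <
        (2 * Real.pi)⁻¹ * (4 * e) := by
      have : 0 < (2 * Real.pi)⁻¹ := by positivity
      exact mul_lt_mul_of_pos_left hlt this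
    refine h5.trans_le ?_
    rw [inv_mul_le_iff₀ (by positivity)]
    nlinarith

end Pool.Agent.JO
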