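import Pool.Agent.Lib_helper63.JO.Defs2
import Pool.Agent.Lib_helper63.JOE.CHP
import Pool.Agent.Lib_helper63.JOE.MOE
import Pool.Agent.Lib_helper63.JOE.ROW
import Pool.Agent.Lib_helper63.JOE.ZB2
/-! Project JO, part E, block APX: approximation of test functions by `Z(w)` (helper6). Cites
`ZZ_InL` (block ZB2) besides the blocks listed under `uses`. -/

namespace Pool.Agent.JO

open Complex MeasureTheory Filter Topology UpperHalfPlane ModularGroup
open scoped MatrixGroups Modular ENNReal ComplexConjugate ContDiff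

variable {N : ℕ}

/-! ## one-dimensional sections of test functions -/

/-- the section along a ray -/
noncomputable def apx_cut (g : ℂ → ℂ) (e : ℂ) (ρ : ℝ) : ℂ := if 0 < ρ then g (ρ * e) else 0

/-- the section along the whole line -/
noncomputable def apx_line (g : ℂ → ℂ) (e : ℂ) (ρ : ℝ) : ℂ := g (ρ * e)

theorem apx_line_eq (g : ℂ → ℂ) (e : ℂ) : apx_line g e =
    g ∘ ((ContinuousLinearMap.id ℝ ℝ).smulRight e) := by
  funext ρ
  simp [apx_line]

theorem apx_line_smooth {g : ℂ → ℂ} (hg : ContDiff ℝ ∞ g) (e : ℂ) :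
    ContDiff ℝ ∞ (apx_line g e) := by
  rw [apx_line_eq]
  exact hg.comp (ContinuousLinearMap.contDiff _)

theorem apx_local {g : ℂ → ℂ} {r : ℝ} (hr : 0 < r) (hs : ∀ x, g x ≠ 0 → r ≤ ‖x‖) {e : ℂ}
    (he : ‖e‖ = 1) (x : ℝ) : apx_cut g e =ᶠ[𝓝 x] apx_line g e ∨
      apx_cut g e =ᶠ[𝓝 x] fun _ => 0 := by
  rcases lt_or_ge 0 x with hx | hx
  · left
    filter_upwards [lt_mem_nhds hx] with y hy
    rw [apx_cut, if_pos hy, apx_line]
  · right
    have : x < r := lt_of_le_of_lt hx hr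
    filter_upwards [gt_mem_nhds this] with y hy
    rw [apx_cut]
    split_ifs with h
    · by_contra hne
      have h1 := hs _ hne
      rw [norm_mul, he, mul_one, Complex.norm_real, Real.norm_eq_abs, abs_of_pos h] at h1
      linarith
    · rfl

theorem apx_cut_smooth {g : ℂ → ℂ} (hg : ContDiff ℝ ∞ g) {r : ℝ} (hr : 0 < r)
    (hs : ∀ x, g x ≠ 0 → r ≤ ‖x‖) {e : ℂ} (he : ‖e‖ = 1) : ContDiff ℝ ∞ (apx_cut g e) := by
  rw [contDiff_iff_contDiffAt]
  intro x
  rcases apx_local hr hs he x with h | h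
  · exact (apx_line_smooth hg e).contDiffAt.congr_of_eventuallyEq h
  · exact contDiffAt_const.congr_of_eventuallyEq h

theorem apx_deriv {g : ℂ → ℂ} (hg : ContDiff ℝ ∞ g) {R : ℝ}
    (hR : ∀ x, g x ≠ 0 → ‖x‖ ≤ R) (n : ℕ) : ∃ C : ℝ, 0 ≤ C ∧ ∀ (e : ℂ), ‖e‖ = 1 → ∀ x : ℝ,
      ‖iteratedDeriv n (apx_line g e) x‖ ≤ C := by
  have hc : HasCompactSupport g := by
    refine HasCompactSupport.of_support_subset_isCompact (isCompact_closedBall (0 : ℂ) R) ?_
    intro x hx
    rw [Metric.mem_closedBall, dist_zero_right]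
    exact hR x hx
  have hcont : Continuous (iteratedFDeriv ℝ n g) :=
    (hg.of_le (by exact_mod_cast le_top)).continuous_iteratedFDeriv le_rfl
  obtain ⟨C, hC⟩ := hcont.bounded_above_of_compact_support (hc.iteratedFDeriv n)
  have hC0 : 0 ≤ C := (norm_nonneg _).trans (hC 0)
  refine ⟨C, hC0, fun e he x => ?_⟩
  rw [← norm_iteratedFDeriv_eq_norm_iteratedDeriv, apx_line_eq]
  rw [ContinuousLinearMap.iteratedFDeriv_comp_right _ hg _ (by exact_mod_cast le_top)]
  refine le_trans (ContinuousMultilinearMap.norm_compContinuousLinearMap_le _ _) ?_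
  have h1 : ‖(ContinuousLinearMap.id ℝ ℝ).smulRight e‖ ≤ 1 := by
    refine ContinuousLinearMap.opNorm_le_bound _ zero_le_one fun y => ?_
    simp [he]
  calc _ ≤ C * 1 := by
        refine mul_le_mul (hC _) ?_ (Finset.prod_nonneg fun _ _ => norm_nonneg _) hC0
        exact Finset.prod_le_one (fun _ _ => norm_nonneg _) (fun _ _ => h1)
    _ = C := mul_one C

theorem apx_taf {J : Type} [Fintype J] (g : J → ℂ → ℂ) (hg : ∀ j, ContDiff ℝ ∞ (g j)) {r R : ℝ}
    (hr : 0 < r) (hs : ∀ j x, g j x ≠ 0 → r ≤ ‖x‖ ∧ ‖x‖ ≤ R)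
    (hrad : ∀ (e : ℂ) (j), ‖e‖ = 1 → ∫ ρ in Set.Ioi (0 : ℝ), g j (ρ * e) = 0) :
    TAF (fun (i : {e : ℂ // ‖e‖ = 1} × J) => apx_cut (g i.2) i.1) := by
  have hsup : ∀ (i : {e : ℂ // ‖e‖ = 1} × J) (x : ℝ), apx_cut (g i.2) i.1 x ≠ 0 →
      r ≤ x ∧ x ≤ R := by
    rintro ⟨⟨e, he⟩, j⟩ x hx
    rw [apx_cut] at hx
    split_ifs at hx with h
    · have h1 := hs j _ hx
      simp only at h1
      rw [norm_mul, he, mul_one, Complex.norm_real, Real.norm_eq_abs, abs_of_pos h] at h1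
      exact h1
    · exact absurd rfl hx
  refine ⟨fun i => ⟨?_, ⟨r, R, hr, hsup i⟩, ?_⟩, ⟨r, R, hr, hsup⟩, fun n => ?_⟩
  · exact apx_cut_smooth (hg i.2) hr (fun x hx => (hs i.2 x hx).1) i.1.2
  · rw [← hrad i.1 i.2 i.1.2]
    refine setIntegral_congr_fun measurableSet_Ioi fun ρ hρ => ?_
    rw [apx_cut, if_pos (show (0 : ℝ) < ρ from hρ)]
  · choose C hC0 hC using fun j => apx_deriv (hg j) (fun x hx => (hs j x hx).2) n
    refine ⟨∑ j, C j, fun i x => ?_⟩
    have hle : C i.2 ≤ ∑ j, C j := Finset.single_le_sum (fun j _ => hC0 j) (Finset.mem_univ _)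
    rcases apx_local hr (fun x hx => (hs i.2 x hx).1) i.1.2 x with h | h
    · rw [h.iteratedDeriv_eq n]
      exact (hC i.2 i.1 i.1.2 x).trans hle
    · rw [h.iteratedDeriv_eq n]
      have : iteratedDeriv n (fun _ : ℝ => (0 : ℂ)) x = 0 := by simp
      rw [this, norm_zero]
      exact (hC0 i.2).trans hle

/-! ## characters -/

/-- the component of `α` at the character `χ` -/
noncomputable def apx_g [NeZero N] (χ : DirichletCharacter ℂ N) (α : ℂ → ZMod N × ZMod N → ℂ)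
    (v : ZMod N × ZMod N) (x : ℂ) : ℂ :=
  ∑ a : (ZMod N)ˣ, conj (χ (a : ZMod N)) * α x ((a : ZMod N) * v.1, (a : ZMod N) * v.2)

theorem apx_char [NeZero N] (χ : DirichletCharacter ℂ N) {α : ℂ → ZMod N × ZMod N → ℂ}
    (hp : ∀ x v, v ∉ PV N → α x v = 0) (v : ZMod N × ZMod N) (x : ℂ) (k : ℕ) :
    ∑ a : (ZMod N)ˣ, conj (χ (a : ZMod N)) *
      α x ((k : ZMod N) * ((a : ZMod N) * v.1), (k : ZMod N) * ((a : ZMod N) * v.2)) =
      χ (k : ZMod N) * apx_g χ α v x := by
  by_cases hk : k.Coprime N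
  · set κ : (ZMod N)ˣ := ZMod.unitOfCoprime k hk with hκ
    have hκk : (κ : ZMod N) = k := ZMod.coe_unitOfCoprime k hk
    have h1 : apx_g χ α v x = conj (χ (k : ZMod N)) * ∑ a : (ZMod N)ˣ, conj (χ (a : ZMod N)) *
      α x ((k : ZMod N) * ((a : ZMod N) * v.1), (k : ZMod N) * ((a : ZMod N) * v.2)) := by
      rw [apx_g, ← Equiv.sum_comp (Equiv.mulLeft κ), Finset.mul_sum]
      refine Finset.sum_congr rfl fun a _ => ?_
      rw [Equiv.coe_mulLeft, Units.val_mul, map_mul, map_mul, hκk, mul_assoc, mul_assoc, mul_assoc]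
    rw [h1, ← mul_assoc, Complex.mul_conj]
    have h2 : ‖χ (k : ZMod N)‖ = 1 := by
      rw [← hκk]
      exact DirichletCharacter.unit_norm_eq_one χ κ
    rw [Complex.normSq_eq_norm_sq, h2]
    simp
  · have h1 : χ (k : ZMod N) = 0 := by
      apply MulChar.map_nonunit
      rw [ZMod.isUnit_iff_coprime]
      exact hk
    rw [h1, zero_mul]
    refine Finset.sum_eq_zero fun a _ => ?_
    rw [hp _ _ (fun h => hk ((mul_mem_PV ((a : ZMod N) * v.1, (a : ZMod N) * v.2) k).1 h).2),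
      mul_zero]

/-- the difference at `a v` -/
noncomputable def apx_D [NeZero N] (α : ℂ → ZMod N × ZMod N → ℂ) (δ : ℝ) (M : ℕ)
    (v : ZMod N × ZMod N) (x : ℂ) (a : ZMod N) : ℂ :=
  (∑' k : ℕ, if k = 0 then 0 else (bM N δ M k : ℂ) *
    α (k * x) ((k : ZMod N) * (a * v.1), (k : ZMod N) * (a * v.2))) - α x (a * v.1, a * v.2)

/-- the one-dimensional difference -/
noncomputable def apx_E [NeZero N] (χ : DirichletCharacter ℂ N) (δ : ℝ) (M : ℕ) (A : ℝ → ℂ)
    (ρ : ℝ) : ℂ :=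
  (∑' k : ℕ, if k = 0 then 0 else (bM N δ M k : ℂ) * χ k * A (k * ρ)) - A ρ

theorem apx_key [NeZero N] (χ : DirichletCharacter ℂ N) {α : ℂ → ZMod N × ZMod N → ℂ} {R : ℝ}
    (hR : ∀ x v, α x v ≠ 0 → ‖x‖ ≤ R)
    (hp : ∀ x v, v ∉ PV N → α x v = 0) (v : ZMod N × ZMod N) {u : ℂ} (hu : ‖u‖ = 1) {ρ : ℝ}
    (hρ : 0 < ρ) (δ : ℝ) (M : ℕ) :
    ∑ a : (ZMod N)ˣ, conj (χ (a : ZMod N)) * apx_D α δ M v (ρ * u) a =
      apx_E χ δ M (apx_cut (apx_g χ α v) u) ρ := by
  have hbig : ∀ k : ℕ, k ∉ Finset.range (⌊R / ρ⌋₊ + 1) → ∀ w, α (k * (ρ * u)) w = 0 := by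
    intro k hk w
    by_contra hne
    have h1 := hR _ _ hne
    rw [norm_mul, norm_mul, hu, mul_one, Complex.norm_real, Real.norm_eq_abs, abs_of_pos hρ,
      Complex.norm_natCast] at h1
    apply hk
    rw [Finset.mem_range]
    have h2 : (k : ℝ) ≤ R / ρ := by rwa [le_div_iff₀ hρ]
    exact Nat.lt_succ_of_le (Nat.le_floor h2)
  have hcut : ∀ k : ℕ, k ≠ 0 → apx_cut (apx_g χ α v) u (k * ρ) =
      apx_g χ α v (k * (ρ * u)) := by
    intro k hk
    have h1 : (0 : ℝ) < k * ρ := mul_pos (by exact_mod_cast Nat.pos_of_ne_zero hk) hρ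
    rw [apx_cut, if_pos h1]
    push_cast
    rw [mul_assoc]
  have hgbig : ∀ k : ℕ, k ∉ Finset.range (⌊R / ρ⌋₊ + 1) →
      apx_g χ α v (k * (ρ * u)) = 0 := by
    intro k hk
    rw [apx_g]
    refine Finset.sum_eq_zero fun a _ => ?_
    rw [hbig k hk, mul_zero]
  have hD : ∀ a : ZMod N, apx_D α δ M v (ρ * u) a =
      (∑ k ∈ Finset.range (⌊R / ρ⌋₊ + 1), if k = 0 then 0 else (bM N δ M k : ℂ) *
        α (k * (ρ * u)) ((k : ZMod N) * (a * v.1), (k : ZMod N) * (a * v.2))) -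
        α (ρ * u) (a * v.1, a * v.2) := by
    intro a
    rw [apx_D, tsum_eq_sum]
    intro k hk
    rw [hbig k hk, mul_zero, ite_self]
  have hE : apx_E χ δ M (apx_cut (apx_g χ α v) u) ρ =
      (∑ k ∈ Finset.range (⌊R / ρ⌋₊ + 1), if k = 0 then 0 else (bM N δ M k : ℂ) * χ k *
        apx_g χ α v (k * (ρ * u))) - apx_g χ α v (ρ * u) := by
    rw [apx_E, tsum_eq_sum (s := Finset.range (⌊R / ρ⌋₊ + 1))]
    · congr 1
      · refine Finset.sum_congr rfl fun k _ => ?_
        by_cases hk : k = 0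
        · rw [if_pos hk, if_pos hk]
        · rw [if_neg hk, if_neg hk, hcut k hk]
      · rw [apx_cut, if_pos hρ]
    · intro k hk
      by_cases hk0 : k = 0
      · rw [if_pos hk0]
      · rw [if_neg hk0, hcut k hk0, hgbig k hk, mul_zero]
  rw [hE]
  simp only [hD, mul_sub, Finset.sum_sub_distrib, Finset.mul_sum]
  congr 1
  rw [Finset.sum_comm]
  refine Finset.sum_congr rfl fun k _ => ?_
  by_cases hk : k = 0
  · simp [hk]
  · simp only [hk, if_false]
    rw [mul_assoc, ← apx_char χ hp v _ k, Finset.mul_sum]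
    refine Finset.sum_congr rfl fun a _ => ?_
    ring

theorem apx_ineq [NeZero N] {α : ℂ → ZMod N × ZMod N → ℂ} {R : ℝ}
    (hR : ∀ x v, α x v ≠ 0 → ‖x‖ ≤ R)
    (hp : ∀ x v, v ∉ PV N → α x v = 0) (v : ZMod N × ZMod N) {u : ℂ} (hu : ‖u‖ = 1) {ρ : ℝ}
    (hρ : 0 < ρ) (δ : ℝ) (M : ℕ) :
    ‖apx_D α δ M v (ρ * u) 1‖ ^ 2 ≤
      ∑ χ : DirichletCharacter ℂ N, ‖apx_E χ δ M (apx_cut (apx_g χ α v) u) ρ‖ ^ 2 := by
  have h1 := char_parseval (apx_D α δ M v (ρ * u))
  have h2 : ‖apx_D α δ M v (ρ * u) 1‖ ^ 2 ≤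
      ∑ a : (ZMod N)ˣ, ‖apx_D α δ M v (ρ * u) a‖ ^ 2 := by
    have := Finset.single_le_sum (f := fun a : (ZMod N)ˣ => ‖apx_D α δ M v (ρ * u) a‖ ^ 2)
      (fun a _ => by positivity) (Finset.mem_univ (1 : (ZMod N)ˣ))
    simpa using this
  refine h2.trans ?_
  rw [h1]
  have hφ : (1 : ℝ) ≤ (Nat.totient N : ℝ) := by
    exact_mod_cast Nat.totient_pos.2 (Nat.pos_of_ne_zero (NeZero.ne N))
  simp only [apx_key _ hR hp v hu hρ δ M]
  have h3 : 0 ≤ ∑ χ : DirichletCharacter ℂ N,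
      ‖apx_E χ δ M (apx_cut (apx_g χ α v) u) ρ‖ ^ 2 :=
    Finset.sum_nonneg fun χ _ => by positivity
  exact mul_le_of_le_one_left h3 (inv_le_one_of_one_le₀ hφ)

/-! ## polar coordinates -/

theorem apx_polar {f : ℂ → ℂ} (hf : Measurable f) {B : ℝ} (hB : 0 ≤ B)
    (h : ∀ u : ℂ, ‖u‖ = 1 → ∫⁻ ρ in Set.Ioi (0 : ℝ), ENNReal.ofReal (‖f (ρ * u)‖ ^ 2 * ρ) ≤
      ENNReal.ofReal B) :
    Integrable (fun x => ‖f x‖ ^ 2) ∧ ∫ x : ℂ, ‖f x‖ ^ 2 ≤ 2 * Real.pi * B := by
  have hm : Measurable (fun x => ENNReal.ofReal (‖f x‖ ^ 2)) :=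
    (hf.norm.pow_const 2).ennreal_ofReal
  have hle : ∫⁻ x : ℂ, ENNReal.ofReal (‖f x‖ ^ 2) ≤ ENNReal.ofReal (2 * Real.pi * B) := by
    rw [← Complex.lintegral_comp_polarCoord_symm]
    have ht : polarCoord.target = Set.Ioi (0 : ℝ) ×ˢ Set.Ioo (-Real.pi) Real.pi := rfl
    rw [ht, Measure.volume_eq_prod, ← Measure.prod_restrict, lintegral_prod_symm]
    · calc ∫⁻ θ in Set.Ioo (-Real.pi) Real.pi, ∫⁻ ρ in Set.Ioi (0 : ℝ),
            ENNReal.ofReal (ρ, θ).1 • ENNReal.ofReal (‖f (Complex.polarCoord.symm (ρ, θ))‖ ^ 2)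
          ≤ ∫⁻ θ in Set.Ioo (-Real.pi) Real.pi, ENNReal.ofReal B := by
            refine lintegral_mono fun θ => ?_
            have hu : ‖(Real.cos θ + Real.sin θ * Complex.I : ℂ)‖ = 1 := by
              have := Complex.norm_exp_ofReal_mul_I θ
              rwa [Complex.exp_mul_I, ← Complex.ofReal_cos, ← Complex.ofReal_sin] at this
            refine le_trans (le_of_eq ?_) (h _ hu)
            refine setLIntegral_congr_fun measurableSet_Ioi fun ρ hρ => ?_
            have hρ' : (0 : ℝ) < ρ := hρ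
            simp only [Complex.polarCoord_symm_apply, smul_eq_mul]
            rw [mul_comm, ENNReal.ofReal_mul (by positivity)]
        _ = ENNReal.ofReal (2 * Real.pi * B) := by
            rw [lintegral_const, Measure.restrict_apply MeasurableSet.univ, Set.univ_inter,
              Real.volume_Ioo, ← ENNReal.ofReal_mul hB]
            congr 1
            ring
    · refine Measurable.aemeasurable ?_
      simp only [smul_eq_mul]
      refine Measurable.mul (measurable_fst.ennreal_ofReal) (hm.comp ?_)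
      have h1 : (fun p : ℝ × ℝ => Complex.polarCoord.symm p) =
          fun p => (p.1 : ℂ) * (Real.cos p.2 + Real.sin p.2 * Complex.I) := by
        funext p
        exact Complex.polarCoord_symm_apply p
      show Measurable (fun p : ℝ × ℝ => Complex.polarCoord.symm p)
      rw [h1]
      fun_prop
  have hint : Integrable (fun x => ‖f x‖ ^ 2) := by
    refine ⟨(hf.norm.pow_const 2).aestronglyMeasurable, ?_⟩
    rw [hasFiniteIntegral_iff_ofReal (Eventually.of_forall fun x => by positivity)]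
    exact lt_of_le_of_lt hle ENNReal.ofReal_lt_top
  refine ⟨hint, ?_⟩
  rw [integral_eq_lintegral_of_nonneg_ae (Eventually.of_forall fun x => by positivity)
    hint.aestronglyMeasurable]
  exact ENNReal.toReal_le_of_le_ofReal (by positivity) hle

/-! ## the main theorem -/

theorem apx_g_taf [NeZero N] (χ : DirichletCharacter ℂ N) {α : ℂ → ZMod N × ZMod N → ℂ}
    (hα : TW α) : TAF (fun (i : {e : ℂ // ‖e‖ = 1} × (ZMod N × ZMod N)) =>
      apx_cut (apx_g χ α i.2) i.1) := by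
  obtain ⟨r, R, hr, hs⟩ := hα.supp
  refine apx_taf (R := R) (fun v => apx_g χ α v) (fun v => ?_) hr (fun v x hx => ?_)
    (fun e v he => ?_)
  · unfold apx_g
    exact ContDiff.sum fun a _ => contDiff_const.mul (hα.smooth _)
  · by_contra hne
    apply hx
    show apx_g χ α v x = 0
    rw [apx_g]
    refine Finset.sum_eq_zero fun a _ => ?_
    have : α x ((a : ZMod N) * v.1, (a : ZMod N) * v.2) = 0 := by
      by_contra h
      exact hne (hs _ _ h)
    rw [this, mul_zero]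
  · have hint : ∀ w, Integrable (fun ρ : ℝ => α (ρ * e) w) := by
      intro w
      have hc : Continuous (fun ρ : ℝ => α (ρ * e) w) :=
        (hα.smooth w).continuous.comp (by fun_prop)
      refine hc.integrable_of_hasCompactSupport ?_
      refine HasCompactSupport.of_support_subset_isCompact (isCompact_closedBall (0 : ℝ) R) ?_
      intro ρ hρ
      have h1 := (hs _ _ hρ).2
      rw [norm_mul, he, mul_one, Complex.norm_real] at h1
      rwa [Metric.mem_closedBall, dist_zero_right]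
    unfold apx_g
    rw [integral_finsetSum]
    · refine Finset.sum_eq_zero fun a _ => ?_
      rw [integral_const_mul, hα.rad e _ he, mul_zero]
    · intro a _
      exact ((hint _).const_mul _).integrableOn

theorem apx_choose [NeZero N] {α : ℂ → ZMod N × ZMod N → ℂ} (hα : TW α) {e : ℝ} (he : 0 < e) :
    ∃ (δ : ℝ) (M : ℕ), ∀ (χ : DirichletCharacter ℂ N)
      (i : {e : ℂ // ‖e‖ = 1} × (ZMod N × ZMod N)),
      IntegrableOn (fun ρ : ℝ => ‖apx_E χ δ M (apx_cut (apx_g χ α i.2) i.1) ρ‖ ^ 2 * ρ)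
        (Set.Ioi 0) ∧
      ∫ ρ in Set.Ioi (0 : ℝ), ‖apx_E χ δ M (apx_cut (apx_g χ α i.2) i.1) ρ‖ ^ 2 * ρ < e := by
  choose δ₀ hδ₀ h using fun χ : DirichletCharacter ℂ N => moebius_one χ (apx_g_taf χ hα) he
  obtain ⟨δ, hδ, hle⟩ : ∃ δ > 0, ∀ χ, δ ≤ δ₀ χ := by
    refine ⟨Finset.univ.inf' Finset.univ_nonempty δ₀, ?_, fun χ => ?_⟩
    · rw [gt_iff_lt, Finset.lt_inf'_iff]
      intro χ _
      exact hδ₀ χ
    · exact Finset.inf'_le _ (Finset.mem_univ χ)
  choose M hM using fun χ => h χ δ hδ (hle χ)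
  refine ⟨δ, ∑ χ, M χ, fun χ i => ?_⟩
  have hMχ : M χ ≤ ∑ χ, M χ := Finset.single_le_sum (fun _ _ => Nat.zero_le _) (Finset.mem_univ χ)
  exact hM χ _ hMχ i

theorem ZZ_approx [NeZero N] {α : ℂ → ZMod N × ZMod N → ℂ} (hα : TW α) (he : Evn α)
    (hp : ∀ x v, v ∉ PV N → α x v = 0) {e : ℝ} (h0 : 0 < e) :
    ∃ w : ℂ → ZMod N × ZMod N → ℂ, TW w ∧ nL (fun x v => ZZ w x v - α x v) < e ∧
      ∑ v ∈ PV N, ∫ x : ℂ, ‖ZZ w x v - α x v‖ < e := by
  obtain ⟨r, R, hR0, hr, hs⟩ : ∃ r R : ℝ, 0 ≤ R ∧ 0 < r ∧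
      ∀ x v, α x v ≠ 0 → r ≤ ‖x‖ ∧ ‖x‖ ≤ R := by
    obtain ⟨r, R, hr, hs⟩ := hα.supp
    exact ⟨r, max R 0, le_max_right _ _, hr,
      fun x v h => ⟨(hs x v h).1, (hs x v h).2.trans (le_max_left _ _)⟩⟩
  have hNpos : (0 : ℝ) < N := by exact_mod_cast Nat.pos_of_ne_zero (NeZero.ne N)
  set V : ℝ := (volume (Metric.closedBall (0 : ℂ) R)).toReal with hV
  have hV0 : 0 ≤ V := ENNReal.toReal_nonneg
  set P : ℝ := ((PV N).card : ℝ) with hP
  have hP0 : 0 ≤ P := Nat.cast_nonneg _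
  set X : ℝ := (Fintype.card (DirichletCharacter ℂ N) : ℝ) with hX
  have hX0 : 0 ≤ X := Nat.cast_nonneg _
  set η : ℝ := e / (P * V + 1) with hη
  have hη0 : 0 < η := by positivity
  set e₂ : ℝ := min (e * η) (e / (4 * N)) with he₂
  have he₂0 : 0 < e₂ := lt_min (by positivity) (by positivity)
  set e' : ℝ := e₂ / (P * (2 * Real.pi) * X + 1) with he'
  have he'0 : 0 < e' := by positivity
  obtain ⟨δ, M, hE⟩ := apx_choose hα he'0
  obtain ⟨hw, hZ⟩ := ZZ_moebius hα he hp δ M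
  set w : ℂ → ZMod N × ZMod N → ℂ := fun x v => (1 / 2 : ℂ) *
    ∑ m ∈ (Finset.Icc 1 M).filter (fun m => m.Coprime N),
      ((ArithmeticFunction.moebius m : ℝ) * (m : ℝ) ^ (-δ) : ℝ) * dil m α x v with hwdef
  have hdiff : ∀ x v, v ∈ PV N → x ≠ 0 → ZZ w x v - α x v = apx_D α δ M v x 1 := by
    intro x v hv hx
    rw [hZ x v hv hx, apx_D]
    simp only [dil, one_mul]
  obtain ⟨hZI, -, -, -⟩ := ZZ_InL hw
  have hmeas : ∀ v, Measurable (fun x => ZZ w x v - α x v) := fun v =>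
    (hZI.meas v).sub (hα.smooth v).continuous.measurable
  have hR : ∀ x v, α x v ≠ 0 → ‖x‖ ≤ R := fun x v h => (hs x v h).2
  have hvan : ∀ x v, v ∈ PV N → x ∉ Metric.closedBall (0 : ℂ) R →
      ZZ w x v - α x v = 0 := by
    intro x v hv hx
    rw [Metric.mem_closedBall, dist_zero_right, not_le] at hx
    by_cases hx0 : x = 0
    · rw [hx0, norm_zero] at hx
      exact absurd hx (not_lt.2 hR0)
    · have hbig : ∀ (k : ℕ), k ≠ 0 → ∀ v', α (k * x) v' = 0 := by
        intro k hk v'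
        by_contra hne
        have h1 := hR _ _ hne
        rw [norm_mul, Complex.norm_natCast] at h1
        have h2 : (1 : ℝ) ≤ k := by exact_mod_cast Nat.one_le_iff_ne_zero.2 hk
        nlinarith [norm_nonneg x]
      rw [hdiff x v hv hx0, apx_D]
      have h1 : α x ((1 : ZMod N) * v.1, (1 : ZMod N) * v.2) = 0 := by
        have := hbig 1 one_ne_zero ((1 : ZMod N) * v.1, (1 : ZMod N) * v.2)
        rwa [Nat.cast_one, one_mul] at this
      rw [h1, sub_zero]
      have h2 : (fun k : ℕ => if k = 0 then 0 else (bM N δ M k : ℂ) *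
          α (k * x) ((k : ZMod N) * (1 * v.1), (k : ZMod N) * (1 * v.2))) = fun _ => 0 := by
        funext k
        split_ifs with hk
        · rfl
        · rw [hbig k hk, mul_zero]
      rw [h2, tsum_zero]
  have hL2 : ∀ v ∈ PV N, Integrable (fun x => ‖ZZ w x v - α x v‖ ^ 2) ∧
      ∫ x : ℂ, ‖ZZ w x v - α x v‖ ^ 2 ≤ 2 * Real.pi * (X * e') := by
    intro v hv
    refine apx_polar (hmeas v) (by positivity) fun u hu => ?_
    calc ∫⁻ ρ in Set.Ioi (0 : ℝ), ENNReal.ofReal (‖ZZ w (ρ * u) v - α (ρ * u) v‖ ^ 2 * ρ)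
        ≤ ∫⁻ ρ in Set.Ioi (0 : ℝ), ENNReal.ofReal (∑ χ : DirichletCharacter ℂ N,
            ‖apx_E χ δ M (apx_cut (apx_g χ α v) u) ρ‖ ^ 2 * ρ) := by
          refine setLIntegral_mono' measurableSet_Ioi fun ρ hρ => ?_
          have hρ' : (0 : ℝ) < ρ := hρ
          apply ENNReal.ofReal_le_ofReal
          have hne : (ρ * u : ℂ) ≠ 0 := by
            refine mul_ne_zero (Complex.ofReal_ne_zero.2 hρ'.ne') ?_
            rintro rfl
            simp at hu
          rw [hdiff _ v hv hne, ← Finset.sum_mul]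
          exact mul_le_mul_of_nonneg_right (apx_ineq hR hp v hu hρ' δ M) hρ'.le
      _ = ENNReal.ofReal (∫ ρ in Set.Ioi (0 : ℝ), ∑ χ : DirichletCharacter ℂ N,
            ‖apx_E χ δ M (apx_cut (apx_g χ α v) u) ρ‖ ^ 2 * ρ) := by
          rw [ofReal_integral_eq_lintegral_ofReal]
          · exact integrable_finsetSum _ fun χ _ => (hE χ (⟨u, hu⟩, v)).1
          · rw [EventuallyLE, ae_restrict_iff' measurableSet_Ioi]
            refine Eventually.of_forall fun ρ hρ => ?_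
            have hρ' : (0 : ℝ) < ρ := hρ
            exact Finset.sum_nonneg fun χ _ => by positivity
      _ ≤ ENNReal.ofReal (X * e') := by
          apply ENNReal.ofReal_le_ofReal
          rw [integral_finsetSum _ fun χ _ => (hE χ (⟨u, hu⟩, v)).1]
          calc _ ≤ ∑ χ : DirichletCharacter ℂ N, e' :=
                Finset.sum_le_sum fun χ _ => (hE χ (⟨u, hu⟩, v)).2.le
            _ = X * e' := by
                rw [Finset.sum_const, Finset.card_univ, nsmul_eq_mul]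
  have hS : ∑ v ∈ PV N, ∫ x : ℂ, ‖ZZ w x v - α x v‖ ^ 2 ≤ e₂ := by
    calc ∑ v ∈ PV N, ∫ x : ℂ, ‖ZZ w x v - α x v‖ ^ 2
        ≤ ∑ v ∈ PV N, 2 * Real.pi * (X * e') := Finset.sum_le_sum fun v hv => (hL2 v hv).2
      _ = (P * (2 * Real.pi) * X) * e' := by
          rw [Finset.sum_const, nsmul_eq_mul]
          ring
      _ ≤ (P * (2 * Real.pi) * X + 1) * e' := by nlinarith
      _ = e₂ := by
          rw [he']
          field_simp
  refine ⟨w, hw, ?_, ?_⟩
  · calc nL (fun x v => ZZ w x v - α x v)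
        = 2 * N * ∑ v ∈ PV N, ∫ x : ℂ, ‖ZZ w x v - α x v‖ ^ 2 := rfl
      _ ≤ 2 * N * e₂ := mul_le_mul_of_nonneg_left hS (by positivity)
      _ ≤ 2 * N * (e / (4 * N)) := mul_le_mul_of_nonneg_left (min_le_right _ _) (by positivity)
      _ = e / 2 := by
          field_simp
          norm_num
      _ < e := by linarith
  · have hL1 : ∀ v ∈ PV N, ∫ x : ℂ, ‖ZZ w x v - α x v‖ ≤
        V * (η / 2) + (∫ x : ℂ, ‖ZZ w x v - α x v‖ ^ 2) * (1 / (2 * η)) := by
      intro v hv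
      have hi1 : Integrable (fun x => (Metric.closedBall (0 : ℂ) R).indicator
          (fun _ => η / 2) x) := by
        rw [integrable_indicator_iff Metric.isClosed_closedBall.measurableSet]
        exact integrableOn_const (isCompact_closedBall _ _).measure_lt_top.ne
      have hi2 := (hL2 v hv).1.mul_const (1 / (2 * η))
      have hpt : ∀ x, ‖ZZ w x v - α x v‖ ≤ (Metric.closedBall (0 : ℂ) R).indicator
          (fun _ => η / 2) x + ‖ZZ w x v - α x v‖ ^ 2 * (1 / (2 * η)) := by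
        intro x
        by_cases hx : x ∈ Metric.closedBall (0 : ℂ) R
        · rw [Set.indicator_of_mem hx]
          have h1 : ‖ZZ w x v - α x v‖ ^ 2 * (1 / (2 * η)) = ‖ZZ w x v - α x v‖ ^ 2 / (2 * η) := by
            ring
          rw [h1, ← sub_nonneg]
          have h2 : η / 2 + ‖ZZ w x v - α x v‖ ^ 2 / (2 * η) - ‖ZZ w x v - α x v‖ =
              (‖ZZ w x v - α x v‖ - η) ^ 2 / (2 * η) := by
            field_simp
            ring
          rw [h2]
          positivity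
        · rw [hvan x v hv hx, Set.indicator_of_notMem hx]
          simp
      have hi : Integrable (fun x => ‖ZZ w x v - α x v‖) := by
        refine (hi1.add hi2).mono (hmeas v).norm.aestronglyMeasurable ?_
        refine Eventually.of_forall fun x => ?_
        rw [norm_norm]
        exact (hpt x).trans (le_abs_self _)
      calc ∫ x : ℂ, ‖ZZ w x v - α x v‖
          ≤ ∫ x : ℂ, ((Metric.closedBall (0 : ℂ) R).indicator
              (fun _ => η / 2) x + ‖ZZ w x v - α x v‖ ^ 2 * (1 / (2 * η))) :=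
            integral_mono hi (hi1.add hi2) hpt
        _ = V * (η / 2) + (∫ x : ℂ, ‖ZZ w x v - α x v‖ ^ 2) * (1 / (2 * η)) := by
            rw [integral_add hi1 hi2, integral_indicator Metric.isClosed_closedBall.measurableSet,
              setIntegral_const, integral_mul_const, smul_eq_mul]
            rfl
    calc ∑ v ∈ PV N, ∫ x : ℂ, ‖ZZ w x v - α x v‖
        ≤ ∑ v ∈ PV N, (V * (η / 2) + (∫ x : ℂ, ‖ZZ w x v - α x v‖ ^ 2) * (1 / (2 * η))) :=
          Finset.sum_le_sum hL1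
      _ = P * V * (η / 2) + (∑ v ∈ PV N, ∫ x : ℂ, ‖ZZ w x v - α x v‖ ^ 2) * (1 / (2 * η)) := by
          rw [Finset.sum_add_distrib, Finset.sum_const, nsmul_eq_mul, ← Finset.sum_mul]
          ring
      _ ≤ P * V * (η / 2) + (e * η) * (1 / (2 * η)) := by
          have := hS.trans (min_le_left _ _)
          gcongr
      _ = P * V * (η / 2) + e / 2 := by
          congr 1
          field_simp
      _ < (P * V + 1) * (η / 2) + e / 2 := by nlinarith
      _ = e := by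
          rw [hη]
          field_simp
          ring

end Pool.Agent.JO
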