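import Pool.Agent.Lib_helper63.JO.Defs2
/-!
# Block DEN: density of the test functions
-/

namespace Pool.Agent.JO

open Complex MeasureTheory Filter Topology UpperHalfPlane ModularGroup
open scoped MatrixGroups Modular ENNReal ComplexConjugate ContDiff

variable {N : ℕ}

theorem den_trunc {f : ℂ → ℝ} (hf : Integrable f) (A : ℕ → Set ℂ)
    (hA : ∀ n, MeasurableSet (A n)) (h : ∀ x ≠ 0, ∀ᶠ n in atTop, x ∈ A n) :
    Tendsto (fun n => ∫ x, (A n)ᶜ.indicator f x) atTop (𝓝 0) := by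
  have key : Tendsto (fun n => ∫ x, (A n)ᶜ.indicator f x) atTop (𝓝 (∫ _ : ℂ, (0 : ℝ))) := by
    refine tendsto_integral_of_dominated_convergence (fun x => ‖f x‖) ?_ hf.norm ?_ ?_
    · intro n
      exact hf.aestronglyMeasurable.indicator (hA n).compl
    · intro n
      refine ae_of_all _ fun x => ?_
      by_cases hx : x ∈ A n <;> simp [hx]
    · have hne : ∀ᵐ x : ℂ, x ≠ 0 := by
        rw [ae_iff]
        simp
      filter_upwards [hne] with x hx
      refine tendsto_const_nhds.congr' ?_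
      filter_upwards [h x hx] with n hn
      simp [hn]
  simpa using key

/-- a smooth cutoff -/
noncomputable def den_cut (r R : ℝ) (x : ℂ) : ℝ :=
  Real.smoothTransition (4 * ‖x‖ ^ 2 / r ^ 2 - 3) * Real.smoothTransition (2 - ‖x‖ ^ 2 / R ^ 2)

theorem den_cut_smooth (r R : ℝ) : ContDiff ℝ ∞ (den_cut r R) := by
  have h : ContDiff ℝ ∞ (fun x : ℂ => ‖x‖ ^ 2) := contDiff_norm_sq ℝ
  unfold den_cut
  refine ContDiff.mul ?_ ?_
  · exact Real.smoothTransition.contDiff.comp (((contDiff_const.mul h).div_const _).sub contDiff_const)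
  · exact Real.smoothTransition.contDiff.comp (contDiff_const.sub (h.div_const _))

theorem den_cut_mem (r R : ℝ) (x : ℂ) : 0 ≤ den_cut r R x ∧ den_cut r R x ≤ 1 := by
  unfold den_cut
  refine ⟨mul_nonneg (Real.smoothTransition.nonneg _) (Real.smoothTransition.nonneg _), ?_⟩
  exact mul_le_one₀ (Real.smoothTransition.le_one _) (Real.smoothTransition.nonneg _)
    (Real.smoothTransition.le_one _)

theorem den_cut_one {r R : ℝ} (hr : 0 < r) (hR : 0 < R) {x : ℂ} (h1 : r ≤ ‖x‖) (h2 : ‖x‖ ≤ R) :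
    den_cut r R x = 1 := by
  unfold den_cut
  rw [Real.smoothTransition.one_of_one_le, Real.smoothTransition.one_of_one_le, one_mul]
  · have : ‖x‖ ^ 2 / R ^ 2 ≤ 1 := by
      rw [div_le_one (by positivity)]
      exact pow_le_pow_left₀ (norm_nonneg _) h2 _
    linarith
  · have : 4 ≤ 4 * ‖x‖ ^ 2 / r ^ 2 := by
      rw [le_div_iff₀ (by positivity)]
      have := pow_le_pow_left₀ hr.le h1 2
      linarith
    linarith

theorem den_cut_supp {r R : ℝ} (hr : 0 < r) (hR : 0 < R) {x : ℂ} (h : den_cut r R x ≠ 0) :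
    r / 2 ≤ ‖x‖ ∧ ‖x‖ ≤ 2 * R := by
  unfold den_cut at h
  constructor
  · by_contra hc
    push Not at hc
    refine h ?_
    rw [Real.smoothTransition.zero_of_nonpos, zero_mul]
    have : 4 * ‖x‖ ^ 2 / r ^ 2 ≤ 3 := by
      rw [div_le_iff₀ (by positivity)]
      nlinarith [norm_nonneg x]
    linarith
  · by_contra hc
    push Not at hc
    refine h ?_
    rw [Real.smoothTransition.zero_of_nonpos (x := 2 - ‖x‖ ^ 2 / R ^ 2), mul_zero]
    have : 2 ≤ ‖x‖ ^ 2 / R ^ 2 := by
      rw [le_div_iff₀ (by positivity)]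
      nlinarith [norm_nonneg x]
    linarith

/-- an `L²` function with support in an annulus is approximated by test functions -/
theorem den_smooth {g : ℂ → ℂ} (hg : MemLp g 2) {r R : ℝ} (hr : 0 < r) (hR : 0 < R)
    (hs : ∀ x, g x ≠ 0 → r ≤ ‖x‖ ∧ ‖x‖ ≤ R) {e : ℝ} (he : 0 < e) :
    ∃ b : ℂ → ℂ, ContDiff ℝ ∞ b ∧ (∀ x, b x ≠ 0 → r / 2 ≤ ‖x‖ ∧ ‖x‖ ≤ 2 * R) ∧
      Integrable (fun x => ‖b x - g x‖ ^ 2) ∧ ∫ x, ‖b x - g x‖ ^ 2 < e ∧
      Integrable (fun x => ‖b x - g x‖) ∧ ∫ x, ‖b x - g x‖ < e := by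
  set K : Set ℂ := Metric.closedBall (0 : ℂ) (2 * R) with hK
  set V : ℝ := (volume K).toReal with hV
  have hV0 : 0 ≤ V := ENNReal.toReal_nonneg
  have hKf : volume K < ⊤ := (isCompact_closedBall _ _).measure_lt_top
  -- parameters
  set d : ℝ := e / (V + 1) with hd
  have hd0 : 0 < d := by positivity
  set q : ℝ := min (e / 2) (e * d / 2) with hq
  have hq0 : 0 < q := by
    rw [hq]
    exact lt_min (by positivity) (by positivity)
  obtain ⟨g', g1, g2, g3⟩ := MemLp.exist_eLpNorm_sub_le (μ := (volume : Measure ℂ)) (p := 2)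
    (by norm_num) (by norm_num) hg (Real.sqrt_pos.2 hq0)
  have hg' : MemLp g' 2 := g2.continuous.memLp_of_hasCompactSupport g1
  have hgg : MemLp (g - g') 2 := hg.sub hg'
  have i1 : Integrable (fun x => ‖(g - g') x‖ ^ 2) :=
    (memLp_two_iff_integrable_sq_norm hgg.aestronglyMeasurable).1 hgg
  have b1 : ∫ x, ‖(g - g') x‖ ^ 2 ≤ q := by
    rw [hgg.eLpNorm_eq_integral_rpow_norm (by norm_num) (by norm_num)] at g3
    have h4 := (ENNReal.ofReal_le_ofReal_iff (Real.sqrt_nonneg _)).1 g3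
    simp only [ENNReal.toReal_ofNat] at h4
    have h5 : ∫ x, ‖(g - g') x‖ ^ (2 : ℝ) = ∫ x, ‖(g - g') x‖ ^ 2 := by
      simp_rw [Real.rpow_two]
    rw [h5] at h4
    have h6 : 0 ≤ ∫ x, ‖(g - g') x‖ ^ 2 := integral_nonneg fun _ => by positivity
    rw [← one_div, ← Real.sqrt_eq_rpow] at h4
    exact (Real.sqrt_le_sqrt_iff hq0.le).1 h4
  refine ⟨fun x => (den_cut r R x : ℂ) * g' x, ?_, ?_, ?_⟩
  · exact (Complex.ofRealCLM.contDiff.comp (den_cut_smooth r R)).mul g2
  · intro x hx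
    apply den_cut_supp hr hR
    intro h0
    apply hx
    simp [h0]
  · have hle : ∀ x, ‖(den_cut r R x : ℂ) * g' x - g x‖ ≤ ‖(g - g') x‖ := by
      intro x
      have h1 : (den_cut r R x : ℂ) * g x = g x := by
        by_cases h : g x = 0
        · simp [h]
        · rw [den_cut_one hr hR (hs x h).1 (hs x h).2]
          simp
      have h2 : (den_cut r R x : ℂ) * g' x - g x = (den_cut r R x : ℂ) * (g' x - g x) := by
        rw [mul_sub, h1]
      rw [h2, norm_mul, Complex.norm_real, Real.norm_of_nonneg (den_cut_mem r R x).1,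
        Pi.sub_apply, norm_sub_rev (g x)]
      exact mul_le_of_le_one_left (norm_nonneg _) (den_cut_mem r R x).2
    have hm : AEStronglyMeasurable (fun x => (den_cut r R x : ℂ) * g' x - g x) :=
      (((Complex.continuous_ofReal.comp (den_cut_smooth r R).continuous).mul
        g2.continuous).aestronglyMeasurable).sub hg.aestronglyMeasurable
    have hsq : ∀ x, ‖(den_cut r R x : ℂ) * g' x - g x‖ ^ 2 ≤ ‖(g - g') x‖ ^ 2 := fun x =>
      pow_le_pow_left₀ (norm_nonneg _) (hle x) 2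
    have i2 : Integrable (fun x => ‖(den_cut r R x : ℂ) * g' x - g x‖ ^ 2) := by
      refine i1.mono' (hm.norm.pow 2) (ae_of_all _ fun x => ?_)
      rw [Real.norm_of_nonneg (by positivity)]
      exact hsq x
    have b2 : ∫ x, ‖(den_cut r R x : ℂ) * g' x - g x‖ ^ 2 ≤ q :=
      (integral_mono i2 i1 hsq).trans b1
    have hb : ∀ x, ‖(den_cut r R x : ℂ) * g' x - g x‖ ≤
        K.indicator (fun _ => d / 2) x + (1 / (2 * d)) *
          ‖(den_cut r R x : ℂ) * g' x - g x‖ ^ 2 := by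
      intro x
      set t := ‖(den_cut r R x : ℂ) * g' x - g x‖ with ht
      have ht0 : 0 ≤ t := norm_nonneg _
      by_cases hx : x ∈ K
      · rw [Set.indicator_of_mem hx]
        have : 0 ≤ (t - d) ^ 2 / (2 * d) := by positivity
        have h2 : (t - d) ^ 2 / (2 * d) = 1 / (2 * d) * t ^ 2 - t + d / 2 := by
          field_simp
          ring
        linarith
      · have h1 : den_cut r R x = 0 := by
          by_contra h
          exact hx (mem_closedBall_zero_iff.2 (den_cut_supp hr hR h).2)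
        have h2 : g x = 0 := by
          by_contra h
          refine hx (mem_closedBall_zero_iff.2 ((hs x h).2.trans (by linarith)))
        have : t = 0 := by
          rw [ht, h1, h2]
          simp
        rw [this]
        simp [hx]
    have i3 : Integrable (fun x => K.indicator (fun _ => d / 2) x + (1 / (2 * d)) *
          ‖(den_cut r R x : ℂ) * g' x - g x‖ ^ 2) := by
      refine Integrable.add ?_ (i2.const_mul _)
      rw [integrable_indicator_iff measurableSet_closedBall]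
      exact integrableOn_const hKf.ne
    have i4 : Integrable (fun x => ‖(den_cut r R x : ℂ) * g' x - g x‖) := by
      refine i3.mono' hm.norm (ae_of_all _ fun x => ?_)
      rw [norm_norm]
      exact hb x
    refine ⟨i2, b2.trans_lt ?_, i4, ?_⟩
    · exact (min_le_left _ _).trans_lt (by linarith)
    · refine (integral_mono i4 i3 hb).trans_lt ?_
      rw [integral_add ?_ (i2.const_mul _), integral_indicator measurableSet_closedBall,
        integral_const_mul]
      · have h7 : ∫ _ in K, d / 2 = V * (d / 2) := by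
          rw [setIntegral_const, smul_eq_mul]
          rfl
        rw [h7]
        have h8 : 1 / (2 * d) * ∫ x, ‖(den_cut r R x : ℂ) * g' x - g x‖ ^ 2 ≤ e / 4 := by
          have h9 : ∫ x, ‖(den_cut r R x : ℂ) * g' x - g x‖ ^ 2 ≤ e * d / 2 :=
            b2.trans (min_le_right _ _)
          calc 1 / (2 * d) * ∫ x, ‖(den_cut r R x : ℂ) * g' x - g x‖ ^ 2
              ≤ 1 / (2 * d) * (e * d / 2) := by gcongr
            _ = e / 4 := by field_simp; ring
        have h10 : V * (d / 2) ≤ e / 2 := by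
          rw [hd]
          have : V * (e / (V + 1)) ≤ e := by
            rw [← mul_div_assoc, div_le_iff₀ (by positivity)]
            nlinarith
          linarith
        linarith
      · rw [integrable_indicator_iff measurableSet_closedBall]
        exact integrableOn_const hKf.ne

/-- the correction of the radial integrals -/
theorem den_dilate {b : ℂ → ℂ} (hb : ContDiff ℝ ∞ b) {r R : ℝ} (hr : 0 < r) (hR : 0 < R)
    (hs : ∀ x, b x ≠ 0 → r ≤ ‖x‖ ∧ ‖x‖ ≤ R) {e : ℝ} (he : 0 < e) :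
    ∃ a : ℂ → ℂ, ContDiff ℝ ∞ a ∧
      (∃ r' R' : ℝ, 0 < r' ∧ ∀ x, a x ≠ 0 → r' ≤ ‖x‖ ∧ ‖x‖ ≤ R') ∧
      (∀ u : ℂ, ‖u‖ = 1 → ∫ ρ in Set.Ioi (0 : ℝ), a (ρ * u) = 0) ∧
      Integrable (fun x => ‖a x - b x‖ ^ 2) ∧ ∫ x, ‖a x - b x‖ ^ 2 < e ∧
      Integrable (fun x => ‖a x - b x‖) ∧ ∫ x, ‖a x - b x‖ < e := by
  have hcs : HasCompactSupport b := by
    refine HasCompactSupport.of_support_subset_isCompact (isCompact_closedBall (0 : ℂ) R) ?_
    intro η hη
    rw [mem_closedBall_zero_iff]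
    exact (hs η hη).2
  set l : ℝ := R / r + 2 with hl
  have hl1 : 1 < l := by
    have : 0 < R / r := by positivity
    linarith
  have hl0 : 0 < l := by linarith
  have hlR : R < l * r := by
    rw [hl, add_mul, div_mul_cancel₀ _ hr.ne']
    linarith
  have i1 : Integrable (fun x => ‖b x‖) :=
    (hb.continuous.integrable_of_hasCompactSupport hcs).norm
  have i2 : Integrable (fun x => ‖b x‖ ^ 2) := by
    have : Continuous (fun x => ‖b x‖ ^ 2) := hb.continuous.norm.pow 2
    refine this.integrable_of_hasCompactSupport ?_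
    refine HasCompactSupport.of_support_subset_isCompact (isCompact_closedBall (0 : ℂ) R) ?_
    intro η hη
    rw [mem_closedBall_zero_iff]
    refine (hs η ?_).2
    intro h0
    apply hη
    simp [h0]
  set B1 : ℝ := ∫ x, ‖b x‖ with hB1
  set B2 : ℝ := ∫ x, ‖b x‖ ^ 2 with hB2
  have hB10 : 0 ≤ B1 := integral_nonneg fun _ => norm_nonneg _
  have hB20 : 0 ≤ B2 := integral_nonneg fun _ => by positivity
  obtain ⟨n, hn⟩ := exists_nat_gt ((B1 + B2) / e)
  have hn0 : 0 < (n : ℝ) := lt_of_le_of_lt (by positivity) hn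
  rw [div_lt_iff₀ he] at hn
  -- the terms
  set T : ℕ → ℂ → ℂ := fun j x => (l : ℂ) ^ j * b ((l : ℂ) ^ j * x) with hT
  have hnl : ∀ (j : ℕ) (x : ℂ), ‖(l : ℂ) ^ j * x‖ = l ^ j * ‖x‖ := by
    intro j x
    rw [norm_mul, norm_pow, Complex.norm_real, Real.norm_of_nonneg hl0.le]
  have hTn : ∀ j x, ‖T j x‖ = l ^ j * ‖b ((l : ℂ) ^ j * x)‖ := by
    intro j x
    rw [hT]
    simp only
    rw [norm_mul, norm_pow, Complex.norm_real, Real.norm_of_nonneg hl0.le]
  have hTs : ∀ j x, T j x ≠ 0 → r ≤ l ^ j * ‖x‖ ∧ l ^ j * ‖x‖ ≤ R := by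
    intro j x h
    have h2 : b ((l : ℂ) ^ j * x) ≠ 0 := by
      intro h0
      apply h
      rw [hT]
      simp [h0]
    have := hs _ h2
    rwa [hnl] at this
  have hsm : ∀ (j : ℕ) (F : ℂ → ℝ), ∫ x, F ((l : ℂ) ^ j * x) = (l ^ j)⁻¹ ^ 2 * ∫ x, F x := by
    intro j F
    have h := Measure.integral_comp_smul_of_nonneg (volume : Measure ℂ) F (l ^ j) (hR := by positivity)
    rw [Complex.finrank_real_complex, smul_eq_mul, ← inv_pow] at h
    rw [← h]
    refine integral_congr_ae (ae_of_all _ fun x => ?_)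
    simp
  have hsi : ∀ (j : ℕ) (F : ℂ → ℝ), Integrable F → Integrable (fun x => F ((l : ℂ) ^ j * x)) := by
    intro j F hF
    have h := hF.comp_smul (R := l ^ j) (by positivity)
    refine h.congr (ae_of_all _ fun x => ?_)
    simp
  have hdis : ∀ x : ℂ, ∀ j k : ℕ, j < k → T j x ≠ 0 → T k x ≠ 0 → False := by
    intro x j k hjk h1 h2
    have g1 := (hTs j x h1).1
    have g2 := (hTs k x h2).2
    have g3 : l ^ (j + 1) ≤ l ^ k := pow_le_pow_right₀ hl1.le hjk
    have g4 : l * (l ^ j * ‖x‖) ≤ l ^ k * ‖x‖ := by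
      calc l * (l ^ j * ‖x‖) = l ^ (j + 1) * ‖x‖ := by ring
        _ ≤ l ^ k * ‖x‖ := mul_le_mul_of_nonneg_right g3 (norm_nonneg _)
    nlinarith
  have hsum2 : ∀ x : ℂ, ‖∑ j ∈ Finset.Icc 1 n, T j x‖ ^ 2 = ∑ j ∈ Finset.Icc 1 n, ‖T j x‖ ^ 2 := by
    intro x
    by_cases h : ∃ j ∈ Finset.Icc 1 n, T j x ≠ 0
    · obtain ⟨j, hj, hj2⟩ := h
      have hz : ∀ k ≠ j, T k x = 0 := by
        intro k hk
        by_contra hk2
        rcases lt_or_gt_of_ne hk with h3 | h3
        · exact hdis x k j h3 hk2 hj2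
        · exact hdis x j k h3 hj2 hk2
      rw [Finset.sum_eq_single_of_mem j hj (fun k _ hk => hz k hk),
        Finset.sum_eq_single_of_mem j hj (fun k _ hk => by rw [hz k hk]; simp)]
    · push Not at h
      rw [Finset.sum_eq_zero h, Finset.sum_eq_zero (fun k hk => by rw [h k hk]; simp)]
      simp
  refine ⟨fun x => b x - (n : ℂ)⁻¹ * ∑ j ∈ Finset.Icc 1 n, T j x, ?_, ?_, ?_, ?_⟩
  · refine hb.sub (contDiff_const.mul (ContDiff.sum fun j _ => ?_))
    exact contDiff_const.mul (hb.comp (contDiff_const.mul contDiff_id))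
  · refine ⟨r / l ^ n, R, by positivity, fun x hx => ?_⟩
    have : b x ≠ 0 ∨ ∃ j ∈ Finset.Icc 1 n, T j x ≠ 0 := by
      by_contra hc
      push Not at hc
      apply hx
      simp only
      rw [hc.1, Finset.sum_eq_zero hc.2]
      simp
    rcases this with h | ⟨j, hj, h⟩
    · refine ⟨le_trans ?_ (hs x h).1, (hs x h).2⟩
      exact div_le_self hr.le (one_le_pow₀ hl1.le)
    · have h2 := hTs j x h
      rw [Finset.mem_Icc] at hj
      constructor
      · rw [div_le_iff₀ (by positivity)]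
        refine h2.1.trans ?_
        rw [mul_comm]
        exact mul_le_mul_of_nonneg_left (pow_le_pow_right₀ hl1.le hj.2) (norm_nonneg _)
      · refine le_trans ?_ h2.2
        exact le_mul_of_one_le_left (norm_nonneg _) (one_le_pow₀ hl1.le)
  · intro u hu
    have hui : ∀ c : ℝ, 0 < c → IntegrableOn (fun ρ : ℝ => b (c * (ρ * u))) (Set.Ioi 0) := by
      intro c hc
      have hcont : Continuous (fun ρ : ℝ => b (c * (ρ * u))) := hb.continuous.comp (by fun_prop)
      refine (hcont.integrable_of_hasCompactSupport ?_).integrableOn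
      refine HasCompactSupport.of_support_subset_isCompact (isCompact_closedBall (0 : ℝ) (R / c)) ?_
      intro t ht
      have := (hs _ ht).2
      rw [mem_closedBall_zero_iff, le_div_iff₀ hc]
      rw [norm_mul, norm_mul, hu, mul_one, Complex.norm_real, Complex.norm_real,
        Real.norm_of_nonneg hc.le] at this
      linarith
    have hi0 : IntegrableOn (fun ρ : ℝ => b (ρ * u)) (Set.Ioi 0) := by
      have := hui 1 one_pos
      simpa using this
    have hiT : ∀ j, IntegrableOn (fun ρ : ℝ => T j (ρ * u)) (Set.Ioi 0) := by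
      intro j
      have h := (hui (l ^ j) (by positivity)).const_mul ((l : ℂ) ^ j)
      simp only [Complex.ofReal_pow] at h
      exact h
    have hval : ∀ j, ∫ ρ in Set.Ioi (0 : ℝ), T j (ρ * u) = ∫ ρ in Set.Ioi (0 : ℝ), b (ρ * u) := by
      intro j
      have h3 := integral_comp_mul_left_Ioi (fun t : ℝ => b (t * u)) 0 (b := l ^ j) (by positivity)
      rw [mul_zero] at h3
      rw [hT]
      simp only
      rw [integral_const_mul]
      have h4 : ∫ ρ in Set.Ioi (0 : ℝ), b ((l : ℂ) ^ j * (ρ * u)) =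
          ∫ ρ in Set.Ioi (0 : ℝ), b (((l ^ j * ρ : ℝ) : ℂ) * u) := by
        refine setIntegral_congr_fun measurableSet_Ioi fun t _ => ?_
        congr 1
        push_cast
        ring
      rw [h4, h3]
      have : (l : ℂ) ≠ 0 := by exact_mod_cast hl0.ne'
      rw [Complex.real_smul]
      generalize (∫ x in Set.Ioi (0 : ℝ), b (↑x * u)) = J
      push_cast
      field_simp
    rw [integral_sub hi0 ((integrable_finsetSum _ fun j _ => hiT j).const_mul _),
      integral_const_mul, integral_finsetSum _ (fun j _ => hiT j)]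
    simp_rw [hval]
    have hnc : (n : ℂ) ≠ 0 := by exact_mod_cast hn0.ne'
    rw [Finset.sum_const, Nat.card_Icc, Nat.add_sub_cancel, nsmul_eq_mul]
    generalize (∫ x in Set.Ioi (0 : ℝ), b (↑x * u)) = J
    field_simp
    ring
  · have e1 : ∀ x, ‖b x - (n : ℂ)⁻¹ * ∑ j ∈ Finset.Icc 1 n, T j x - b x‖ =
        (n : ℝ)⁻¹ * ‖∑ j ∈ Finset.Icc 1 n, T j x‖ := by
      intro x
      have : b x - (n : ℂ)⁻¹ * ∑ j ∈ Finset.Icc 1 n, T j x - b x =
          -((n : ℂ)⁻¹ * ∑ j ∈ Finset.Icc 1 n, T j x) := by ring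
      rw [this, norm_neg, norm_mul, norm_inv, Complex.norm_natCast]
    simp_rw [e1]
    have e2 : ∀ x, ((n : ℝ)⁻¹ * ‖∑ j ∈ Finset.Icc 1 n, T j x‖) ^ 2 =
        ((n : ℝ)⁻¹) ^ 2 * ∑ j ∈ Finset.Icc 1 n, (l ^ j) ^ 2 * ‖b ((l : ℂ) ^ j * x)‖ ^ 2 := by
      intro x
      rw [mul_pow, hsum2]
      congr 1
      refine Finset.sum_congr rfl fun j _ => ?_
      rw [hTn, mul_pow]
    simp_rw [e2]
    have j2 : ∀ j ∈ Finset.Icc 1 n,
        Integrable (fun x => (l ^ j) ^ 2 * ‖b ((l : ℂ) ^ j * x)‖ ^ 2) := fun j _ =>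
      (hsi j (fun x => ‖b x‖ ^ 2) i2).const_mul _
    have j1 : ∀ j ∈ Finset.Icc 1 n, Integrable (fun x => l ^ j * ‖b ((l : ℂ) ^ j * x)‖) :=
      fun j _ => (hsi j (fun x => ‖b x‖) i1).const_mul _
    have j1' : Integrable (fun x => (n : ℝ)⁻¹ * ∑ j ∈ Finset.Icc 1 n,
        l ^ j * ‖b ((l : ℂ) ^ j * x)‖) := (integrable_finsetSum _ j1).const_mul _
    have hbd : ∀ x, (n : ℝ)⁻¹ * ‖∑ j ∈ Finset.Icc 1 n, T j x‖ ≤
        (n : ℝ)⁻¹ * ∑ j ∈ Finset.Icc 1 n, l ^ j * ‖b ((l : ℂ) ^ j * x)‖ := by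
      intro x
      refine mul_le_mul_of_nonneg_left ?_ (by positivity)
      refine (norm_sum_le _ _).trans (le_of_eq ?_)
      exact Finset.sum_congr rfl fun j _ => hTn j x
    have hTc : ∀ j, Continuous (T j) := fun j =>
      continuous_const.mul (hb.continuous.comp (by fun_prop))
    have j3 : Integrable (fun x => (n : ℝ)⁻¹ * ‖∑ j ∈ Finset.Icc 1 n, T j x‖) := by
      refine j1'.mono' ?_ (ae_of_all _ fun x => ?_)
      · exact (continuous_const.mul
          (continuous_finsetSum _ fun j _ => hTc j).norm).aestronglyMeasurable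
      · rw [Real.norm_of_nonneg (by positivity)]
        exact hbd x
    refine ⟨(integrable_finsetSum _ j2).const_mul _, ?_, j3, ?_⟩
    · rw [integral_const_mul, integral_finsetSum _ j2]
      have : ∀ j ∈ Finset.Icc 1 n, ∫ x, (l ^ j) ^ 2 * ‖b ((l : ℂ) ^ j * x)‖ ^ 2 = B2 := by
        intro j _
        rw [integral_const_mul, hsm j (fun x => ‖b x‖ ^ 2), hB2]
        field_simp
      rw [Finset.sum_congr rfl this, Finset.sum_const, Nat.card_Icc, Nat.add_sub_cancel,
        nsmul_eq_mul]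
      have : (n : ℝ)⁻¹ ^ 2 * (n * B2) = B2 / n := by field_simp
      rw [this, div_lt_iff₀ hn0]
      linarith
    · refine (integral_mono j3 j1' hbd).trans_lt ?_
      rw [integral_const_mul, integral_finsetSum _ j1]
      have : ∀ j ∈ Finset.Icc 1 n, ∫ x, l ^ j * ‖b ((l : ℂ) ^ j * x)‖ ≤ (1 / 2) ^ j * B1 := by
        intro j _
        rw [integral_const_mul, hsm j (fun x => ‖b x‖), ← hB1]
        have h5 : l ^ j * ((l ^ j)⁻¹ ^ 2 * B1) = (l⁻¹) ^ j * B1 := by
          have hL : l ^ j ≠ 0 := by positivity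
          rw [inv_pow l j]
          generalize l ^ j = L at hL
          field_simp
        rw [h5]
        refine mul_le_mul_of_nonneg_right ?_ hB10
        refine pow_le_pow_left₀ (by positivity) ?_ _
        rw [one_div]
        refine inv_anti₀ (by norm_num) ?_
        have : 0 < R / r := by positivity
        linarith
      have h6 : ∑ j ∈ Finset.Icc 1 n, ∫ x, l ^ j * ‖b ((l : ℂ) ^ j * x)‖ ≤ B1 := by
        refine (Finset.sum_le_sum this).trans ?_
        rw [← Finset.sum_mul]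
        have h7 : ∑ j ∈ Finset.Icc 1 n, (1 / 2 : ℝ) ^ j ≤ 1 := by
          have h8 : ∀ m : ℕ, ∑ j ∈ Finset.Icc 1 m, (1 / 2 : ℝ) ^ j = 1 - (1 / 2) ^ m := by
            intro m
            induction m with
            | zero => simp
            | succ m ih =>
              rw [Finset.sum_Icc_succ_top (by omega), ih]
              ring
          rw [h8]
          have : (0 : ℝ) ≤ (1 / 2) ^ n := by positivity
          linarith
        nlinarith
      calc (n : ℝ)⁻¹ * ∑ j ∈ Finset.Icc 1 n, ∫ x, l ^ j * ‖b ((l : ℂ) ^ j * x)‖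
          ≤ (n : ℝ)⁻¹ * B1 := mul_le_mul_of_nonneg_left h6 (by positivity)
        _ < e := by
          rw [inv_mul_eq_div, div_lt_iff₀ hn0]
          linarith

/-- one function -/
theorem den_one {f : ℂ → ℂ} (hm : Measurable f) (h1 : Integrable f)
    (h2 : Integrable (fun x => ‖f x‖ ^ 2)) {e : ℝ} (he : 0 < e) :
    ∃ a : ℂ → ℂ, ContDiff ℝ ∞ a ∧
      (∃ r' R' : ℝ, 0 < r' ∧ ∀ x, a x ≠ 0 → r' ≤ ‖x‖ ∧ ‖x‖ ≤ R') ∧
      (∀ u : ℂ, ‖u‖ = 1 → ∫ ρ in Set.Ioi (0 : ℝ), a (ρ * u) = 0) ∧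
      Integrable (fun x => ‖a x - f x‖ ^ 2) ∧ ∫ x, ‖a x - f x‖ ^ 2 < e ∧
      Integrable (fun x => ‖a x - f x‖) ∧ ∫ x, ‖a x - f x‖ < e := by
  classical
  set A : ℕ → Set ℂ := fun n => {x | ((n : ℝ) + 1)⁻¹ ≤ ‖x‖ ∧ ‖x‖ ≤ (n : ℝ) + 1} with hA
  have hAm : ∀ n, MeasurableSet (A n) := fun n =>
    (measurableSet_le measurable_const measurable_norm).inter
      (measurableSet_le measurable_norm measurable_const)
  have hAe : ∀ x ≠ 0, ∀ᶠ n in atTop, x ∈ A n := by
    intro x hx
    have hx0 : 0 < ‖x‖ := norm_pos_iff.2 hx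
    obtain ⟨m, hm⟩ := exists_nat_ge (max ‖x‖ (‖x‖⁻¹))
    filter_upwards [eventually_ge_atTop m] with n hn
    have hmn : (m : ℝ) ≤ n := by exact_mod_cast hn
    have h3 := (le_max_left _ _).trans hm
    have h4 := (le_max_right _ _).trans hm
    refine ⟨?_, by linarith⟩
    rw [inv_le_comm₀ (by positivity) hx0]
    linarith
  have t1 := den_trunc h1.norm A hAm hAe
  have t2 := den_trunc h2 A hAm hAe
  have hep : 0 < e / 9 := by positivity
  obtain ⟨n, hn1, hn2⟩ := ((t1.eventually (gt_mem_nhds hep)).and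
    (t2.eventually (gt_mem_nhds hep))).exists
  set g : ℂ → ℂ := (A n).indicator f with hg
  have hgl : MemLp g 2 :=
    ((memLp_two_iff_integrable_sq_norm hm.aestronglyMeasurable).2 h2).indicator (hAm n)
  have hn0 : (0 : ℝ) < (n : ℝ) + 1 := by positivity
  obtain ⟨b, b1, b2, b3, b4, b5, b6⟩ := den_smooth hgl (r := ((n : ℝ) + 1)⁻¹) (R := (n : ℝ) + 1)
    (by positivity) hn0 (by
      intro x hx
      by_contra h
      exact hx (Set.indicator_of_notMem (s := A n) h f)) hep
  obtain ⟨a, a1, a2, a3, a4, a5, a6, a7⟩ := den_dilate b1 (r := ((n : ℝ) + 1)⁻¹ / 2)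
    (R := 2 * ((n : ℝ) + 1)) (by positivity) (by positivity) b2 hep
  have e1 : ∀ x, ‖g x - f x‖ = (A n)ᶜ.indicator (fun x => ‖f x‖) x := by
    intro x
    by_cases hx : x ∈ A n
    · rw [hg, Set.indicator_of_mem hx]
      simp [hx]
    · rw [hg, Set.indicator_of_notMem hx]
      simp [hx]
  have e2 : ∀ x, ‖g x - f x‖ ^ 2 = (A n)ᶜ.indicator (fun x => ‖f x‖ ^ 2) x := by
    intro x
    rw [e1]
    by_cases hx : x ∈ A n <;> simp [hx]
  have gf : AEStronglyMeasurable (fun x => g x - f x) :=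
    hgl.aestronglyMeasurable.sub hm.aestronglyMeasurable
  have c1 : Integrable (fun x => ‖g x - f x‖) := by
    refine h1.norm.mono' gf.norm (ae_of_all _ fun x => ?_)
    rw [norm_norm, e1]
    by_cases hx : x ∈ A n <;> simp [hx]
  have c2 : Integrable (fun x => ‖g x - f x‖ ^ 2) := by
    refine h2.mono' (gf.norm.pow 2) (ae_of_all _ fun x => ?_)
    rw [Real.norm_of_nonneg (by positivity), e2]
    by_cases hx : x ∈ A n <;> simp [hx]
  have c3 : ∫ x, ‖g x - f x‖ < e / 9 := by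
    simp_rw [e1]
    exact hn1
  have c4 : ∫ x, ‖g x - f x‖ ^ 2 < e / 9 := by
    simp_rw [e2]
    exact hn2
  have key1 : ∀ x, ‖a x - f x‖ ≤ ‖a x - b x‖ + ‖b x - g x‖ + ‖g x - f x‖ := by
    intro x
    have : a x - f x = (a x - b x) + (b x - g x) + (g x - f x) := by ring
    rw [this]
    exact norm_add₃_le
  have key2 : ∀ x, ‖a x - f x‖ ^ 2 ≤
      3 * ‖a x - b x‖ ^ 2 + 3 * ‖b x - g x‖ ^ 2 + 3 * ‖g x - f x‖ ^ 2 := by
    intro x
    have h5 := pow_le_pow_left₀ (norm_nonneg _) (key1 x) 2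
    nlinarith [sq_nonneg (‖a x - b x‖ - ‖b x - g x‖), sq_nonneg (‖b x - g x‖ - ‖g x - f x‖),
      sq_nonneg (‖a x - b x‖ - ‖g x - f x‖)]
  have af : AEStronglyMeasurable (fun x => a x - f x) :=
    a1.continuous.aestronglyMeasurable.sub hm.aestronglyMeasurable
  have d1 : Integrable (fun x => ‖a x - b x‖ + ‖b x - g x‖ + ‖g x - f x‖) :=
    (a6.add b5).add c1
  have d2 : Integrable (fun x =>
      3 * ‖a x - b x‖ ^ 2 + 3 * ‖b x - g x‖ ^ 2 + 3 * ‖g x - f x‖ ^ 2) :=
    ((a4.const_mul 3).add (b3.const_mul 3)).add (c2.const_mul 3)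
  have d3 : Integrable (fun x => ‖a x - f x‖) :=
    d1.mono' af.norm (ae_of_all _ fun x => by rw [norm_norm]; exact key1 x)
  have d4 : Integrable (fun x => ‖a x - f x‖ ^ 2) :=
    d2.mono' (af.norm.pow 2) (ae_of_all _ fun x => by
      rw [Real.norm_of_nonneg (by positivity)]; exact key2 x)
  refine ⟨a, a1, a2, a3, d4, ?_, d3, ?_⟩
  · refine (integral_mono d4 d2 key2).trans_lt ?_
    have s1 : ∫ x, (3 * ‖a x - b x‖ ^ 2 + 3 * ‖b x - g x‖ ^ 2 + 3 * ‖g x - f x‖ ^ 2) =
        (∫ x, (3 * ‖a x - b x‖ ^ 2 + 3 * ‖b x - g x‖ ^ 2)) + ∫ x, 3 * ‖g x - f x‖ ^ 2 :=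
      integral_add ((a4.const_mul 3).add (b3.const_mul 3)) (c2.const_mul 3)
    rw [s1, integral_add (a4.const_mul 3) (b3.const_mul 3), integral_const_mul,
      integral_const_mul, integral_const_mul]
    linarith
  · refine (integral_mono d3 d1 key1).trans_lt ?_
    have s1 : ∫ x, (‖a x - b x‖ + ‖b x - g x‖ + ‖g x - f x‖) =
        (∫ x, (‖a x - b x‖ + ‖b x - g x‖)) + ∫ x, ‖g x - f x‖ := integral_add (a6.add b5) c1
    rw [s1, integral_add a6 b5]
    linarith

theorem den_neg_mem [NeZero N] {v : ZMod N × ZMod N} (hv : v ∈ PV N) : -v ∈ PV N := by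
  classical
  unfold PV at hv ⊢
  rw [Finset.mem_image] at hv ⊢
  obtain ⟨s, -, rfl⟩ := hv
  refine ⟨-s, Finset.mem_univ _, ?_⟩
  simp [bot]

theorem den_arith {n P e : ℝ} (hn : 0 < n) (hP : 0 ≤ P) (he : 0 < e) :
    P * (e / ((2 * n + 1) * (P + 1))) < e ∧ 2 * n * (P * (e / ((2 * n + 1) * (P + 1)))) < e := by
  have h0 : 0 < (2 * n + 1) * (P + 1) := by positivity
  have h1 : 0 ≤ n * P := by positivity
  constructor
  · rw [← mul_div_assoc, div_lt_iff₀ h0]
    nlinarith
  · rw [← mul_div_assoc, ← mul_div_assoc, div_lt_iff₀ h0]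
    nlinarith

theorem TW_dense [NeZero N] {c : ℂ → ZMod N × ZMod N → ℂ} (h1 : InL c) (h2 : SqL c)
    (hc : ∀ᵐ x : ℂ, ∀ v ∈ PV N, c (-x) (-v) = c x v) {e : ℝ} (he : 0 < e) :
    ∃ α : ℂ → ZMod N × ZMod N → ℂ, TW α ∧ Evn α ∧ (∀ x v, v ∉ PV N → α x v = 0) ∧
      nL (fun x v => α x v - c x v) < e ∧ ∑ v ∈ PV N, ∫ x : ℂ, ‖α x v - c x v‖ < e := by
  classical
  set P : ℝ := ((PV N).card : ℝ) with hP
  have hP0 : 0 ≤ P := by positivity
  have hN0 : (0 : ℝ) < N := Nat.cast_pos.2 (NeZero.pos N)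
  set d : ℝ := e / ((2 * N + 1) * (P + 1)) with hd
  have hd0 : 0 < d := by positivity
  have hex : ∀ v : ZMod N × ZMod N, ∃ a : ℂ → ℂ, ContDiff ℝ ∞ a ∧
      (∃ r' R' : ℝ, 0 < r' ∧ ∀ x, a x ≠ 0 → r' ≤ ‖x‖ ∧ ‖x‖ ≤ R') ∧
      (∀ u : ℂ, ‖u‖ = 1 → ∫ ρ in Set.Ioi (0 : ℝ), a (ρ * u) = 0) ∧
      (v ∈ PV N → Integrable (fun x => ‖a x - c x v‖ ^ 2) ∧ ∫ x, ‖a x - c x v‖ ^ 2 < d ∧
        Integrable (fun x => ‖a x - c x v‖) ∧ ∫ x, ‖a x - c x v‖ < d) := by
    intro v
    by_cases hv : v ∈ PV N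
    · obtain ⟨a, a1, a2, a3, a4⟩ := den_one (h1.meas v) (h1.int v hv) (h2.sq v hv) hd0
      exact ⟨a, a1, a2, a3, fun _ => a4⟩
    · exact ⟨fun _ => 0, contDiff_const, ⟨1, 1, one_pos, fun x hx => absurd rfl hx⟩,
        fun u _ => by simp, fun h => absurd h hv⟩
  choose a a1 a2 a3 a4 using hex
  choose r R hr hR using a2
  -- the symmetrised function
  set α : ℂ → ZMod N × ZMod N → ℂ := fun x v =>
    if v ∈ PV N then (a v x + a (-v) (-x)) / 2 else 0 with hα
  have hmem : ∀ v, v ∈ PV N ↔ -v ∈ PV N := fun v =>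
    ⟨den_neg_mem, fun h => by simpa using den_neg_mem h⟩
  have hTW : TW α := by
    refine ⟨fun v => ?_, ?_, ?_⟩
    · by_cases hv : v ∈ PV N
      · simp only [hα, if_pos hv]
        exact ((a1 v).add ((a1 (-v)).comp contDiff_neg)).div_const _
      · simp only [hα, if_neg hv]
        exact contDiff_const
    · refine ⟨Finset.univ.inf' Finset.univ_nonempty r, Finset.univ.sup' Finset.univ_nonempty R,
        ?_, fun x v hx => ?_⟩
      · rw [Finset.lt_inf'_iff]
        exact fun v _ => hr v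
      · have h3 : a v x ≠ 0 ∨ a (-v) (-x) ≠ 0 := by
          by_contra hcon
          push Not at hcon
          apply hx
          simp [hα, hcon.1, hcon.2]
        rcases h3 with h3 | h3
        · have h4 := hR v x h3
          exact ⟨(Finset.inf'_le _ (Finset.mem_univ v)).trans h4.1,
            h4.2.trans (Finset.le_sup' _ (Finset.mem_univ v))⟩
        · have h4 := hR (-v) (-x) h3
          rw [norm_neg] at h4
          exact ⟨(Finset.inf'_le _ (Finset.mem_univ (-v))).trans h4.1,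
            h4.2.trans (Finset.le_sup' _ (Finset.mem_univ (-v)))⟩
    · intro u v hu
      by_cases hv : v ∈ PV N
      · simp only [hα, if_pos hv]
        have hint : ∀ (v' : ZMod N × ZMod N) (u' : ℂ), ‖u'‖ = 1 →
            IntegrableOn (fun ρ : ℝ => a v' (ρ * u')) (Set.Ioi 0) := by
          intro v' u' hu'
          have hcont : Continuous (fun ρ : ℝ => a v' (ρ * u')) :=
            (a1 v').continuous.comp (by fun_prop)
          refine (hcont.integrable_of_hasCompactSupport ?_).integrableOn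
          refine HasCompactSupport.of_support_subset_isCompact
            (isCompact_closedBall (0 : ℝ) (R v')) ?_
          intro t ht
          have := (hR v' _ ht).2
          rwa [norm_mul, hu', mul_one, Complex.norm_real, ← mem_closedBall_zero_iff] at this
        have e1 : ∀ ρ : ℝ, a (-v) (-(ρ * u)) = a (-v) (ρ * (-u)) := by
          intro ρ
          rw [mul_neg]
        simp_rw [e1]
        rw [integral_div, integral_add (hint v u hu) (hint (-v) (-u) (by rw [norm_neg, hu])),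
          a3 v u hu, a3 (-v) (-u) (by rw [norm_neg, hu])]
        simp
      · simp [hα, hv]
  have hEv : Evn α := by
    intro x v
    by_cases hv : v ∈ PV N
    · simp only [hα, if_pos hv, if_pos ((hmem v).1 hv), neg_neg]
      ring
    · have hv' : -v ∉ PV N := fun h => hv ((hmem v).2 h)
      simp only [hα, if_neg hv, if_neg hv']
  have b1 : ∀ v ∈ PV N, ∫ x, ‖α x v - c x v‖ ≤ d := by
    intro v hv
    obtain ⟨-, -, p3, p4⟩ := a4 v hv
    obtain ⟨-, -, q3, q4⟩ := a4 (-v) ((hmem v).1 hv)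
    have q3' := q3.comp_neg
    have q4' : ∫ x, ‖a (-v) (-x) - c (-x) (-v)‖ < d := by
      rw [integral_neg_eq_self (fun x => ‖a (-v) x - c x (-v)‖)]
      exact q4
    have hle : (fun x => ‖α x v - c x v‖) ≤ᵐ[volume]
        fun x => (‖a v x - c x v‖ + ‖a (-v) (-x) - c (-x) (-v)‖) / 2 := by
      filter_upwards [hc] with x hx
      have : α x v - c x v = ((a v x - c x v) + (a (-v) (-x) - c (-x) (-v))) / 2 := by
        simp only [hα, if_pos hv]
        rw [hx v hv]
        ring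
      rw [this, norm_div, Complex.norm_ofNat]
      gcongr
      exact norm_add_le _ _
    refine (integral_mono_of_nonneg (ae_of_all _ fun _ => norm_nonneg _)
      ((p3.add q3').div_const 2) hle).trans ?_
    rw [integral_div, integral_add' p3 q3']
    linarith
  have b2 : ∀ v ∈ PV N, ∫ x, ‖α x v - c x v‖ ^ 2 ≤ d := by
    intro v hv
    obtain ⟨p3, p4, -, -⟩ := a4 v hv
    obtain ⟨q3, q4, -, -⟩ := a4 (-v) ((hmem v).1 hv)
    have q3' := q3.comp_neg
    have q4' : ∫ x, ‖a (-v) (-x) - c (-x) (-v)‖ ^ 2 < d := by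
      rw [integral_neg_eq_self (fun x => ‖a (-v) x - c x (-v)‖ ^ 2)]
      exact q4
    have hle : (fun x => ‖α x v - c x v‖ ^ 2) ≤ᵐ[volume]
        fun x => (‖a v x - c x v‖ ^ 2 + ‖a (-v) (-x) - c (-x) (-v)‖ ^ 2) / 2 := by
      filter_upwards [hc] with x hx
      have h5 : α x v - c x v = ((a v x - c x v) + (a (-v) (-x) - c (-x) (-v))) / 2 := by
        simp only [hα, if_pos hv]
        rw [hx v hv]
        ring
      have h6 := norm_add_le (a v x - c x v) (a (-v) (-x) - c (-x) (-v))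
      rw [h5, norm_div, Complex.norm_ofNat]
      have h7 := pow_le_pow_left₀ (norm_nonneg _) h6 2
      nlinarith [sq_nonneg (‖a v x - c x v‖ - ‖a (-v) (-x) - c (-x) (-v)‖)]
    refine (integral_mono_of_nonneg (ae_of_all _ fun _ => by positivity)
      ((p3.add q3').div_const 2) hle).trans ?_
    rw [integral_div, integral_add' p3 q3']
    linarith
  refine ⟨α, hTW, hEv, fun x v hv => by simp [hα, hv], ?_, ?_⟩
  · unfold nL
    have h8 : ∑ v ∈ PV N, ∫ x : ℂ, ‖α x v - c x v‖ ^ 2 ≤ P * d := by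
      refine (Finset.sum_le_sum b2).trans (le_of_eq ?_)
      rw [Finset.sum_const, nsmul_eq_mul]
    refine lt_of_le_of_lt ?_ (den_arith hN0 hP0 he).2
    exact mul_le_mul_of_nonneg_left h8 (by positivity)
  · have h8 : ∑ v ∈ PV N, ∫ x : ℂ, ‖α x v - c x v‖ ≤ P * d := by
      refine (Finset.sum_le_sum b1).trans (le_of_eq ?_)
      rw [Finset.sum_const, nsmul_eq_mul]
    exact h8.trans_lt (den_arith hN0 hP0 he).1

theorem SqL_trunc [NeZero N] {c : ℂ → ZMod N × ZMod N → ℂ} (h2 : SqL c) {e : ℝ} (he : 0 < e) :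
    ∃ R : ℝ, 0 < R ∧ InL (fun x v => if ‖x‖ ≤ R then c x v else 0) ∧
      SqL (fun x v => if ‖x‖ ≤ R then c x v else 0) ∧
      nL (fun x v => (if ‖x‖ ≤ R then c x v else 0) - c x v) < e := by
  classical
  set A : ℕ → Set ℂ := fun n => {x | ‖x‖ ≤ (n : ℝ) + 1} with hA
  have hAm : ∀ n, MeasurableSet (A n) := fun n => measurableSet_le measurable_norm measurable_const
  have hAe : ∀ x ≠ 0, ∀ᶠ n in atTop, x ∈ A n := by
    intro x _
    obtain ⟨m, hm⟩ := exists_nat_ge ‖x‖
    filter_upwards [eventually_ge_atTop m] with n hn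
    have hmn : (m : ℝ) ≤ n := by exact_mod_cast hn
    change ‖x‖ ≤ (n : ℝ) + 1
    linarith
  have t : Tendsto (fun n => 2 * (N : ℝ) * ∑ v ∈ PV N,
      ∫ x, (A n)ᶜ.indicator (fun x => ‖c x v‖ ^ 2) x) atTop (𝓝 (2 * N * ∑ v ∈ PV N, 0)) := by
    refine Tendsto.const_mul _ (tendsto_finsetSum _ fun v hv => ?_)
    exact den_trunc (h2.sq v hv) A hAm hAe
  rw [Finset.sum_const_zero, mul_zero] at t
  obtain ⟨n, hn⟩ := (t.eventually (gt_mem_nhds he)).exists
  have hmeas : ∀ v, Measurable (fun x => if ‖x‖ ≤ (n : ℝ) + 1 then c x v else 0) := fun v =>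
    Measurable.ite (hAm n) (h2.meas v) measurable_const
  refine ⟨(n : ℝ) + 1, by positivity, ⟨hmeas, fun v hv => ?_⟩, ⟨hmeas, fun v hv => ?_⟩, ?_⟩
  · have hi : Integrable (fun x => (A n).indicator (fun _ => (1 : ℝ)) x + ‖c x v‖ ^ 2) := by
      refine Integrable.add ?_ (h2.sq v hv)
      rw [integrable_indicator_iff (hAm n)]
      refine integrableOn_const ?_
      have : A n = Metric.closedBall (0 : ℂ) ((n : ℝ) + 1) := by
        ext x
        simp [hA]
      rw [this]
      exact (isCompact_closedBall _ _).measure_lt_top.ne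
    refine hi.mono' (hmeas v).aestronglyMeasurable (ae_of_all _ fun x => ?_)
    by_cases hx : x ∈ A n
    · have hx' : ‖x‖ ≤ (n : ℝ) + 1 := hx
      rw [Set.indicator_of_mem hx, if_pos hx']
      nlinarith [sq_nonneg (‖c x v‖ - 1), norm_nonneg (c x v)]
    · have hx' : ¬ ‖x‖ ≤ (n : ℝ) + 1 := hx
      rw [Set.indicator_of_notMem hx, if_neg hx', norm_zero]
      positivity
  · refine (h2.sq v hv).mono' ((hmeas v).norm.pow_const 2).aestronglyMeasurable
      (ae_of_all _ fun x => ?_)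
    rw [Real.norm_of_nonneg (by positivity)]
    by_cases hx : ‖x‖ ≤ (n : ℝ) + 1
    · rw [if_pos hx]
    · rw [if_neg hx, norm_zero, zero_pow two_ne_zero]
      positivity
  · unfold nL
    refine lt_of_le_of_lt (le_of_eq ?_) hn
    congr 1
    refine Finset.sum_congr rfl fun v _ => ?_
    refine integral_congr_ae (ae_of_all _ fun x => ?_)
    by_cases hx : ‖x‖ ≤ (n : ℝ) + 1
    · have hx' : x ∈ A n := hx
      simp [hx, hx']
    · have hx' : x ∉ A n := hx
      simp [hx, hx']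

end Pool.Agent.JO
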