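import Pool.Agent.Lib_helper63.JO.Defs2
import Pool.Agent.Lib_helper63.JOE.ALG
import Pool.Agent.Lib_helper63.JOE.APX
import Pool.Agent.Lib_helper63.JOE.DEN
import Pool.Agent.Lib_helper63.JOE.FAT
import Pool.Agent.Lib_helper63.JOE.MFE
import Pool.Agent.Lib_helper63.JOE.ZB2
/-! Block E1: the bound of `T0`. -/

namespace Pool.Agent.JO

open Complex MeasureTheory Filter Topology UpperHalfPlane ModularGroup
open scoped MatrixGroups Modular ENNReal ComplexConjugate ContDiff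

variable {N : ℕ}

section e1

variable [NeZero N]

theorem e1_mem {c : ℂ → ZMod N × ZMod N → ℂ} (hc : SqL c) {v : ZMod N × ZMod N} (hv : v ∈ PV N) :
    MemLp (fun x => c x v) 2 volume :=
  (memLp_two_iff_integrable_sq_norm (hc.meas v).aestronglyMeasurable).2 (hc.sq v hv)

theorem e1_sub {c d : ℂ → ZMod N × ZMod N → ℂ} (hc : SqL c) (hd : SqL d) :
    SqL (fun x v => c x v - d x v) := by
  refine ⟨fun v => (hc.meas v).sub (hd.meas v), fun v hv => ?_⟩
  have h := (e1_mem hc hv).sub (e1_mem hd hv)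
  exact (memLp_two_iff_integrable_sq_norm h.1).1 h

theorem e1_nonneg (c : ℂ → ZMod N × ZMod N → ℂ) : 0 ≤ nL c := by
  unfold nL
  refine mul_nonneg (by positivity) (Finset.sum_nonneg fun v _ => ?_)
  exact integral_nonneg fun x => by positivity

theorem e1_pert {α β : ℂ → ZMod N × ZMod N → ℂ} (hα : SqL α) (hβ : SqL β) {t : ℝ} (ht : 0 < t) :
    nL β ≤ (1 + t) * nL α + (1 + t⁻¹) * nL (fun x v => β x v - α x v) := by
  have key : ∀ v ∈ PV N, ∫ x : ℂ, ‖β x v‖ ^ 2 ≤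
      (1 + t) * (∫ x : ℂ, ‖α x v‖ ^ 2) + (1 + t⁻¹) * ∫ x : ℂ, ‖β x v - α x v‖ ^ 2 := by
    intro v hv
    have hd := (e1_sub hβ hα).sq v hv
    have e1 := integral_add (f := fun x : ℂ => (1 + t) * ‖α x v‖ ^ 2)
      (g := fun x : ℂ => (1 + t⁻¹) * ‖β x v - α x v‖ ^ 2)
      ((hα.sq v hv).const_mul (1 + t)) (hd.const_mul (1 + t⁻¹))
    rw [← integral_const_mul, ← integral_const_mul, ← e1]
    refine integral_mono (hβ.sq v hv) (((hα.sq v hv).const_mul (1 + t)).add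
      (hd.const_mul (1 + t⁻¹))) fun x => ?_
    have h1 : ‖β x v‖ ≤ ‖α x v‖ + ‖β x v - α x v‖ := by
      have : β x v = α x v + (β x v - α x v) := by ring
      calc ‖β x v‖ = ‖α x v + (β x v - α x v)‖ := by rw [← this]
        _ ≤ _ := norm_add_le _ _
    have h0 := norm_nonneg (β x v)
    have h2 : ‖β x v‖ ^ 2 ≤ (‖α x v‖ + ‖β x v - α x v‖) ^ 2 := by gcongr
    have h3 : 0 ≤ t⁻¹ * (t * ‖α x v‖ - ‖β x v - α x v‖) ^ 2 := by positivity
    have h4 : t⁻¹ * (t * ‖α x v‖ - ‖β x v - α x v‖) ^ 2 = t * ‖α x v‖ ^ 2 -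
        2 * (‖α x v‖ * ‖β x v - α x v‖) + t⁻¹ * ‖β x v - α x v‖ ^ 2 := by
      field_simp
      ring
    show ‖β x v‖ ^ 2 ≤ (1 + t) * ‖α x v‖ ^ 2 + (1 + t⁻¹) * ‖β x v - α x v‖ ^ 2
    nlinarith
  unfold nL
  calc 2 * (N : ℝ) * ∑ v ∈ PV N, ∫ x : ℂ, ‖β x v‖ ^ 2
      ≤ 2 * N * ∑ v ∈ PV N, ((1 + t) * (∫ x : ℂ, ‖α x v‖ ^ 2) +
          (1 + t⁻¹) * ∫ x : ℂ, ‖β x v - α x v‖ ^ 2) := by
        gcongr with v hv
        exact key v hv
    _ = _ := by
        rw [Finset.sum_add_distrib, ← Finset.mul_sum, ← Finset.mul_sum]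
        ring

theorem e1_choose {α : ℂ → ZMod N × ZMod N → ℂ} (hα : SqL α) {e : ℝ} (he : 0 < e) :
    ∃ e' : ℝ, 0 < e' ∧ e' ≤ e ∧ ∀ β : ℂ → ZMod N × ZMod N → ℂ, SqL β →
      nL (fun x v => β x v - α x v) < e' → 2 * nL β ≤ 2 * nL α + e := by
  have hA := e1_nonneg α
  set t : ℝ := e / (4 * (nL α + 1)) with ht
  have ht0 : 0 < t := by positivity
  refine ⟨min e (e / (4 * (1 + t⁻¹))), by positivity, min_le_left _ _, fun β hβ h => ?_⟩
  have h1 := e1_pert hα hβ ht0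
  have h2 : nL (fun x v => β x v - α x v) ≤ e / (4 * (1 + t⁻¹)) := h.le.trans (min_le_right _ _)
  have h3 : (1 + t⁻¹) * nL (fun x v => β x v - α x v) ≤ e / 4 := by
    have h4 : 0 < 1 + t⁻¹ := by positivity
    calc (1 + t⁻¹) * nL (fun x v => β x v - α x v) ≤ (1 + t⁻¹) * (e / (4 * (1 + t⁻¹))) := by
          gcongr
      _ = e / 4 := by
          field_simp
  have h5 : t * nL α ≤ e / 4 := by
    rw [ht, div_mul_eq_mul_div, div_le_div_iff₀ (by positivity) (by norm_num)]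
    nlinarith
  nlinarith

theorem e1_tw {α : ℂ → ZMod N × ZMod N → ℂ} (hα : TW α) : InL α ∧ SqL α := by
  obtain ⟨r, R', hr, hs⟩ := hα.supp
  have hc : ∀ v, HasCompactSupport (fun x => α x v) := fun v => by
    refine HasCompactSupport.intro (isCompact_closedBall (0 : ℂ) R') fun x hx => ?_
    by_contra hne
    exact hx (by simpa using (hs x v hne).2)
  refine ⟨⟨fun v => (hα.smooth v).continuous.measurable, fun v _ =>
    (hα.smooth v).continuous.integrable_of_hasCompactSupport (hc v)⟩,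
    fun v => (hα.smooth v).continuous.measurable, fun v _ => ?_⟩
  refine Continuous.integrable_of_hasCompactSupport (by
    have := (hα.smooth v).continuous
    fun_prop) ?_
  refine HasCompactSupport.intro (isCompact_closedBall (0 : ℂ) R') fun x hx => ?_
  have : α x v = 0 := by
    by_contra hne
    exact hx (by simpa using (hs x v hne).2)
  simp [this]

theorem e1_neg {v : ZMod N × ZMod N} (hv : v ∈ PV N) : -v ∈ PV N := by
  unfold PV at *
  obtain ⟨s, -, hs⟩ := Finset.mem_image.1 hv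
  refine Finset.mem_image.2 ⟨-s, Finset.mem_univ _, ?_⟩
  rw [← hs]
  ext <;> simp [bot]

theorem T0_E1 {α : ℂ → ZMod N × ZMod N → ℂ} (h1 : InL α) (h2 : SqL α) :
    SqF (T0 α) ∧ mean (T0 α) = 0 ∧ (ip (T0 α) (T0 α)).re ≤ 2 * nL α := by
  -- step 1
  have step1 : ∀ α : ℂ → ZMod N × ZMod N → ℂ, TW α → Evn α → (∀ x v, v ∉ PV N → α x v = 0) →
      SqF (T0 α) ∧ (ip (T0 α) (T0 α)).re ≤ 2 * nL α := by
    intro α hα hev hp
    obtain ⟨hi, hs⟩ := e1_tw hα
    refine T0_fatou hi fun e he => ?_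
    obtain ⟨e', he', hle, hch⟩ := e1_choose hs he
    obtain ⟨w, hw, h3, h4⟩ := ZZ_approx hα hev hp he'
    have hz := ZZ_InL hw
    refine ⟨ZZ w, hz.1, (T0_hat hw).2.1, ?_, h4.trans_le hle⟩
    exact ((T0_alg hw hw).2.2.2).trans (hch _ hz.2.1 h3)
  -- step 2
  have step2 : ∀ α : ℂ → ZMod N × ZMod N → ℂ, InL α → SqL α →
      (∀ᵐ x : ℂ, ∀ v ∈ PV N, α (-x) (-v) = α x v) →
      SqF (T0 α) ∧ (ip (T0 α) (T0 α)).re ≤ 2 * nL α := by
    intro α hi hs hev
    refine T0_fatou hi fun e he => ?_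
    obtain ⟨e', he', hle, hch⟩ := e1_choose hs he
    obtain ⟨β, hβ, hβe, hβp, h3, h4⟩ := TW_dense hi hs hev he'
    have h5 := step1 β hβ hβe hβp
    exact ⟨β, (e1_tw hβ).1, h5.1, h5.2.trans (hch _ (e1_tw hβ).2 h3), h4.trans_le hle⟩
  -- step 3
  set β : ℂ → ZMod N × ZMod N → ℂ := fun x v => (α x v + α (-x) (-v)) / 2 with hβ
  have hmp : MeasurePreserving (fun x : ℂ => -x) volume volume := Measure.measurePreserving_neg _
  have hin : InL (fun x v => α (-x) (-v)) :=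
    ⟨fun v => (h1.meas (-v)).comp measurable_neg, fun v hv =>
      (hmp.integrable_comp (h1.meas (-v)).aestronglyMeasurable).2 (h1.int (-v) (e1_neg hv))⟩
  have hsn : SqL (fun x v => α (-x) (-v)) :=
    ⟨fun v => (h1.meas (-v)).comp measurable_neg, fun v hv =>
      (hmp.integrable_comp ((h1.meas (-v)).norm.pow_const 2).aestronglyMeasurable).2
        (h2.sq (-v) (e1_neg hv))⟩
  have hbi : InL β := ⟨fun v => ((h1.meas v).add (hin.meas v)).div_const 2,
    fun v hv => ((h1.int v hv).add (hin.int v hv)).div_const 2⟩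
  have hbs : SqL β := by
    refine ⟨hbi.meas, fun v hv => ?_⟩
    have h := ((e1_mem h2 hv).add (e1_mem hsn hv)).const_mul ((1 : ℂ) / 2)
    have h3 := (memLp_two_iff_integrable_sq_norm h.1).1 h
    refine h3.congr (Eventually.of_forall fun x => ?_)
    show ‖(1 : ℂ) / 2 * (α x v + α (-x) (-v))‖ ^ 2 = ‖(α x v + α (-x) (-v)) / 2‖ ^ 2
    congr 2
    ring
  have hnn : nL (fun x v => α (-x) (-v)) = nL α := by
    unfold nL
    congr 1
    refine Finset.sum_nbij' (fun v => -v) (fun v => -v) (fun v hv => e1_neg hv)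
      (fun v hv => e1_neg hv) (fun v _ => neg_neg v) (fun v _ => neg_neg v) fun v _ => ?_
    exact integral_neg_eq_self (fun x : ℂ => ‖α x (-v)‖ ^ 2) volume
  have hnb : nL β ≤ nL α := by
    have key : ∀ v ∈ PV N, ∫ x : ℂ, ‖β x v‖ ^ 2 ≤
        ((∫ x : ℂ, ‖α x v‖ ^ 2) + ∫ x : ℂ, ‖α (-x) (-v)‖ ^ 2) / 2 := by
      intro v hv
      have e1 := integral_add (f := fun x : ℂ => ‖α x v‖ ^ 2)
        (g := fun x : ℂ => ‖α (-x) (-v)‖ ^ 2) (h2.sq v hv) (hsn.sq v hv)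
      rw [← e1, ← integral_div]
      refine integral_mono (hbs.sq v hv) (((h2.sq v hv).add (hsn.sq v hv)).div_const 2) fun x => ?_
      show ‖(α x v + α (-x) (-v)) / 2‖ ^ 2 ≤ (‖α x v‖ ^ 2 + ‖α (-x) (-v)‖ ^ 2) / 2
      have h3 : ‖(α x v + α (-x) (-v)) / 2‖ ≤ (‖α x v‖ + ‖α (-x) (-v)‖) / 2 := by
        rw [norm_div, RCLike.norm_ofNat]
        gcongr
        exact norm_add_le _ _
      have h0 := norm_nonneg ((α x v + α (-x) (-v)) / 2)
      have h4 : ‖(α x v + α (-x) (-v)) / 2‖ ^ 2 ≤ ((‖α x v‖ + ‖α (-x) (-v)‖) / 2) ^ 2 := by gcongr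
      nlinarith [sq_nonneg (‖α x v‖ - ‖α (-x) (-v)‖)]
    have : nL β ≤ (nL α + nL (fun x v => α (-x) (-v))) / 2 := by
      unfold nL
      calc 2 * (N : ℝ) * ∑ v ∈ PV N, ∫ x : ℂ, ‖β x v‖ ^ 2
          ≤ 2 * N * ∑ v ∈ PV N, ((∫ x : ℂ, ‖α x v‖ ^ 2) + ∫ x : ℂ, ‖α (-x) (-v)‖ ^ 2) / 2 := by
            gcongr with v hv
            exact key v hv
        _ = _ := by
            rw [← Finset.sum_div, Finset.sum_add_distrib]
            ring
    rw [hnn] at this
    linarith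
  have h3 := step2 β hbi hbs (Eventually.of_forall fun x v _ => by
    simp only [hβ, neg_neg]
    rw [add_comm])
  have hae := T0_even h1
  have hmf : MF (T0 α) := by
    have h := mf_EE α h1.meas
    refine ⟨fun γ s g => ?_, fun s => ?_⟩
    · unfold T0
      rw [h.1 γ s g]
    · exact (h.2 s).sub measurable_const
  refine ⟨⟨hmf, fun s => ?_⟩, T0_mean h1, ?_⟩
  · refine (h3.1.sq s).congr ?_
    filter_upwards [hae s] with p hp
    show ‖T0 β s (gg p.1 p.2)‖ ^ 2 = _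
    rw [hβ, hp]
  · have h4 : ip (T0 α) (T0 α) = ip (T0 β) (T0 β) := by
      unfold ip
      refine Finset.sum_congr rfl fun s _ => integral_congr_ae ?_
      filter_upwards [hae s] with p hp
      show _ = T0 β s (gg p.1 p.2) * conj (T0 β s (gg p.1 p.2))
      rw [hβ, hp]
    rw [h4]
    linarith [h3.2]

end e1

end Pool.Agent.JO
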