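import Pool.Agent.Lib_helper63.JO.Defs2
import Pool.Agent.Lib_helper63.JOE.BOR
import Pool.Agent.Lib_helper63.JOE.CF1
import Pool.Agent.Lib_helper63.JOE.CF2
import Pool.Agent.Lib_helper63.JOE.CRD
import Pool.Agent.Lib_helper63.JOE.DEN
import Pool.Agent.Lib_helper63.JOE.E1
import Pool.Agent.Lib_helper63.JOE.FAT
import Pool.Agent.Lib_helper63.JOE.HI1
import Pool.Agent.Lib_helper63.JOE.UNI
/-! Block E2: the Bessel inequality. -/

namespace Pool.Agent.JO

open Complex MeasureTheory Filter Topology UpperHalfPlane ModularGroup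
open scoped MatrixGroups Modular ENNReal ComplexConjugate ContDiff

variable {N : ℕ}

section e2L

variable [NeZero N]

theorem e2_mem {c : ℂ → ZMod N × ZMod N → ℂ} (hc : SqL c) {v : ZMod N × ZMod N} (hv : v ∈ PV N) :
    MemLp (fun x => c x v) 2 volume :=
  (memLp_two_iff_integrable_sq_norm (hc.meas v).aestronglyMeasurable).2 (hc.sq v hv)

theorem e2_memc {c : ℂ → ZMod N × ZMod N → ℂ} (hc : SqL c) {v : ZMod N × ZMod N} (hv : v ∈ PV N) :
    MemLp (fun x => conj (c x v)) 2 volume := by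
  refine (memLp_two_iff_integrable_sq_norm ?_).2 ?_
  · exact (continuous_conj.measurable.comp (hc.meas v)).aestronglyMeasurable
  · simpa using hc.sq v hv

theorem e2_prod {c d : ℂ → ZMod N × ZMod N → ℂ} (hc : SqL c) (hd : SqL d) {v : ZMod N × ZMod N}
    (hv : v ∈ PV N) : Integrable (fun x => c x v * conj (d x v)) :=
  (e2_mem hc hv).integrable_mul (e2_memc hd hv)

theorem e2_lin {c d : ℂ → ZMod N × ZMod N → ℂ} (hc : SqL c) (hd : SqL d) (a b : ℂ) :
    SqL (fun x v => a * c x v + b * d x v) := by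
  refine ⟨fun v => ((hc.meas v).const_mul a).add ((hd.meas v).const_mul b), fun v hv => ?_⟩
  have h := ((e2_mem hc hv).const_mul a).add ((e2_mem hd hv).const_mul b)
  have h2 := (memLp_two_iff_integrable_sq_norm h.1).1 h
  exact h2

theorem e2_sub {c d : ℂ → ZMod N × ZMod N → ℂ} (hc : SqL c) (hd : SqL d) :
    SqL (fun x v => c x v - d x v) := by
  have h := e2_lin hc hd 1 (-1)
  have e : (fun (x : ℂ) (v : ZMod N × ZMod N) => (1 : ℂ) * c x v + -1 * d x v) =
      fun x v => c x v - d x v := by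
    funext x v
    ring
  rwa [e] at h

theorem e2_nonneg (c : ℂ → ZMod N × ZMod N → ℂ) : 0 ≤ nL c := by
  unfold nL
  refine mul_nonneg (by positivity) (Finset.sum_nonneg fun v _ => ?_)
  exact integral_nonneg fun x => by positivity

theorem e2_congr {c d : ℂ → ZMod N × ZMod N → ℂ}
    (h : ∀ v ∈ PV N, ∀ᵐ x : ℂ, c x v = d x v) : nL c = nL d := by
  unfold nL
  congr 1
  refine Finset.sum_congr rfl fun v hv => ?_
  refine integral_congr_ae ?_
  filter_upwards [h v hv] with x hx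
  simp only [hx]

theorem e2_nL_sub {c d : ℂ → ZMod N × ZMod N → ℂ} (hc : SqL c) (hd : SqL d) :
    nL (fun x v => c x v - d x v) = nL c - 2 * (ipL c d).re + nL d := by
  have key : ∀ v ∈ PV N, ∫ x : ℂ, ‖c x v - d x v‖ ^ 2 = (∫ x : ℂ, ‖c x v‖ ^ 2) -
      2 * (∫ x : ℂ, c x v * conj (d x v)).re + ∫ x : ℂ, ‖d x v‖ ^ 2 := by
    intro v hv
    have h1 : ∀ x : ℂ, ‖c x v - d x v‖ ^ 2 = ‖c x v‖ ^ 2 - 2 * (c x v * conj (d x v)).re +
        ‖d x v‖ ^ 2 := by
      intro x
      rw [← Complex.normSq_eq_norm_sq, ← Complex.normSq_eq_norm_sq, ← Complex.normSq_eq_norm_sq,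
        Complex.normSq_sub]
      ring
    simp only [h1]
    have hi := e2_prod hc hd hv
    have e1 := integral_add (f := fun x : ℂ => ‖c x v‖ ^ 2 - 2 * (c x v * conj (d x v)).re)
      (g := fun x : ℂ => ‖d x v‖ ^ 2) ((hc.sq v hv).sub (hi.re.const_mul 2)) (hd.sq v hv)
    have e2 := integral_sub (f := fun x : ℂ => ‖c x v‖ ^ 2)
      (g := fun x : ℂ => 2 * (c x v * conj (d x v)).re) (hc.sq v hv) (hi.re.const_mul 2)
    rw [e1, e2, integral_const_mul]
    have h2 : ∫ x : ℂ, (c x v * conj (d x v)).re = (∫ x : ℂ, c x v * conj (d x v)).re :=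
      integral_re hi
    rw [h2]
  unfold nL
  rw [Finset.sum_congr rfl key, Finset.sum_add_distrib, Finset.sum_sub_distrib, ← Finset.mul_sum]
  have h3 : (ipL c d).re = 2 * N * ∑ v ∈ PV N, (∫ x : ℂ, c x v * conj (d x v)).re := by
    unfold ipL
    have : (2 * (N : ℂ)) = ((2 * N : ℝ) : ℂ) := by push_cast; ring
    rw [this, Complex.re_ofReal_mul, Complex.re_sum]
  rw [h3]
  ring

theorem e2_bound {c d : ℂ → ZMod N × ZMod N → ℂ} (hc : SqL c) (hd : SqL d) {t : ℝ} (ht : 0 < t) :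
    ‖ipL c d‖ ≤ (t * nL c + t⁻¹ * nL d) / 2 := by
  have key : ∀ v ∈ PV N, ‖∫ x : ℂ, c x v * conj (d x v)‖ ≤
      (t * (∫ x : ℂ, ‖c x v‖ ^ 2) + t⁻¹ * ∫ x : ℂ, ‖d x v‖ ^ 2) / 2 := by
    intro v hv
    have h1 : ∀ x : ℂ, ‖c x v * conj (d x v)‖ ≤
        (t * ‖c x v‖ ^ 2 + t⁻¹ * ‖d x v‖ ^ 2) / 2 := by
      intro x
      rw [norm_mul, RCLike.norm_conj]
      have h2 : 0 ≤ t⁻¹ * (t * ‖c x v‖ - ‖d x v‖) ^ 2 := by positivity
      have h3 : t⁻¹ * (t * ‖c x v‖ - ‖d x v‖) ^ 2 = t * ‖c x v‖ ^ 2 - 2 * (‖c x v‖ * ‖d x v‖) +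
          t⁻¹ * ‖d x v‖ ^ 2 := by
        field_simp
        ring
      linarith
    have hi : Integrable (fun x : ℂ => (t * ‖c x v‖ ^ 2 + t⁻¹ * ‖d x v‖ ^ 2) / 2) :=
      (((hc.sq v hv).const_mul t).add ((hd.sq v hv).const_mul t⁻¹)).div_const 2
    refine (norm_integral_le_of_norm_le hi (Eventually.of_forall h1)).trans (le_of_eq ?_)
    rw [integral_div, integral_add ((hc.sq v hv).const_mul t) ((hd.sq v hv).const_mul t⁻¹),
      integral_const_mul, integral_const_mul]
  unfold ipL nL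
  have h0 : ‖(2 * (N : ℂ))‖ = 2 * N := by
    rw [norm_mul, Complex.norm_natCast]
    simp
  rw [norm_mul, h0]
  calc 2 * (N : ℝ) * ‖∑ v ∈ PV N, ∫ x : ℂ, c x v * conj (d x v)‖
      ≤ 2 * N * ∑ v ∈ PV N, (t * (∫ x : ℂ, ‖c x v‖ ^ 2) + t⁻¹ * ∫ x : ℂ, ‖d x v‖ ^ 2) / 2 := by
        gcongr
        exact (norm_sum_le _ _).trans (Finset.sum_le_sum key)
    _ = _ := by
        rw [← Finset.sum_div, Finset.sum_add_distrib, ← Finset.mul_sum, ← Finset.mul_sum]
        ring

theorem e2_ipL_sub {c d d' : ℂ → ZMod N × ZMod N → ℂ} (hc : SqL c) (hd : SqL d) (hd' : SqL d') :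
    ipL c (fun x v => d x v - d' x v) = ipL c d - ipL c d' := by
  unfold ipL
  rw [← mul_sub, ← Finset.sum_sub_distrib]
  congr 1
  refine Finset.sum_congr rfl fun v hv => ?_
  rw [← integral_sub (e2_prod hc hd hv) (e2_prod hc hd' hv)]
  refine integral_congr_ae (Eventually.of_forall fun x => ?_)
  simp only [map_sub]
  ring

theorem e2_ipL_conj (c d : ℂ → ZMod N × ZMod N → ℂ) : conj (ipL c d) = ipL d c := by
  unfold ipL
  rw [map_mul, map_sum, map_mul]
  congr 1
  · rw [Complex.conj_natCast]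
    congr 1
    exact map_ofNat (starRingEnd ℂ) 2
  · refine Finset.sum_congr rfl fun v _ => ?_
    rw [← integral_conj]
    refine integral_congr_ae (Eventually.of_forall fun x => ?_)
    simp only [map_mul, Complex.conj_conj]
    ring

/-- `(a + b + c)² ≤ 3 (a² + b² + c²)` -/
theorem e2_nL_add3 {a b c : ℂ → ZMod N × ZMod N → ℂ} (ha : SqL a) (hb : SqL b) (hc : SqL c)
    {f : ℂ → ZMod N × ZMod N → ℂ}
    (hf : ∀ v ∈ PV N, ∀ᵐ x : ℂ, ‖f x v‖ ≤ ‖a x v‖ + ‖b x v‖ + ‖c x v‖) :
    nL f ≤ 3 * (nL a + nL b + nL c) := by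
  have key : ∀ v ∈ PV N, ∫ x : ℂ, ‖f x v‖ ^ 2 ≤
      3 * ((∫ x : ℂ, ‖a x v‖ ^ 2) + (∫ x : ℂ, ‖b x v‖ ^ 2) + ∫ x : ℂ, ‖c x v‖ ^ 2) := by
    intro v hv
    have e1 := integral_add (f := fun x : ℂ => ‖a x v‖ ^ 2 + ‖b x v‖ ^ 2)
      (g := fun x : ℂ => ‖c x v‖ ^ 2) ((ha.sq v hv).add (hb.sq v hv)) (hc.sq v hv)
    have e2 := integral_add (f := fun x : ℂ => ‖a x v‖ ^ 2) (g := fun x : ℂ => ‖b x v‖ ^ 2)
      (ha.sq v hv) (hb.sq v hv)
    rw [← e2, ← e1, ← integral_const_mul]
    refine integral_mono_of_nonneg (Eventually.of_forall fun x => by positivity)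
      ((((ha.sq v hv).add (hb.sq v hv)).add (hc.sq v hv)).const_mul 3) ?_
    filter_upwards [hf v hv] with x hx
    have h0 := norm_nonneg (f x v)
    have h1 : ‖f x v‖ ^ 2 ≤ (‖a x v‖ + ‖b x v‖ + ‖c x v‖) ^ 2 := by gcongr
    nlinarith [sq_nonneg (‖a x v‖ - ‖b x v‖), sq_nonneg (‖a x v‖ - ‖c x v‖),
      sq_nonneg (‖b x v‖ - ‖c x v‖)]
  unfold nL
  calc 2 * (N : ℝ) * ∑ v ∈ PV N, ∫ x : ℂ, ‖f x v‖ ^ 2
      ≤ 2 * N * ∑ v ∈ PV N, 3 * ((∫ x : ℂ, ‖a x v‖ ^ 2) + (∫ x : ℂ, ‖b x v‖ ^ 2) +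
          ∫ x : ℂ, ‖c x v‖ ^ 2) := by
        gcongr with v hv
        exact key v hv
    _ = _ := by
        rw [← Finset.mul_sum, Finset.sum_add_distrib, Finset.sum_add_distrib]
        ring

theorem e2_zero {c : ℂ → ZMod N × ZMod N → ℂ} (hc : SqL c) (h : nL c ≤ 0) :
    ∀ v ∈ PV N, ∀ᵐ x : ℂ, c x v = 0 := by
  intro v hv
  have hN : (0 : ℝ) < N := Nat.cast_pos.2 (NeZero.pos N)
  have h1 : ∑ v ∈ PV N, ∫ x : ℂ, ‖c x v‖ ^ 2 = 0 := by
    refine le_antisymm ?_ (Finset.sum_nonneg fun v _ => integral_nonneg fun x => by positivity)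
    by_contra hh
    push Not at hh
    have : 0 < nL c := by
      unfold nL
      positivity
    linarith
  have h2 := (Finset.sum_eq_zero_iff_of_nonneg
    (fun v _ => integral_nonneg fun x => by positivity)).1 h1 v hv
  have h3 := (integral_eq_zero_iff_of_nonneg (fun x => by positivity) (hc.sq v hv)).1 h2
  filter_upwards [h3] with x hx
  have : ‖c x v‖ ^ 2 = 0 := hx
  simpa using this

end e2L

section e2F

variable [NeZero N]

theorem e2_ip_lin {F G K : QN N → SL(2, ℝ) → ℂ} (hF : SqF F) (hG : SqF G) (hK : SqF K) (a b : ℂ) :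
    ip (fun s g => a * F s g + b * G s g) K = a * ip F K + b * ip G K := by
  unfold ip
  rw [Finset.mul_sum, Finset.mul_sum, ← Finset.sum_add_distrib]
  refine Finset.sum_congr rfl fun s _ => ?_
  rw [← integral_const_mul, ← integral_const_mul,
    ← integral_add (((ip_cs hF hK).1 s).const_mul a) (((ip_cs hG hK).1 s).const_mul b)]
  refine integral_congr_ae (Eventually.of_forall fun p => ?_)
  simp only []
  ring

theorem e2_ip_conj (F G : QN N → SL(2, ℝ) → ℂ) : conj (ip F G) = ip G F := by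
  unfold ip
  rw [map_sum]
  refine Finset.sum_congr rfl fun s _ => ?_
  rw [← integral_conj]
  refine integral_congr_ae (Eventually.of_forall fun p => ?_)
  simp only [map_mul, Complex.conj_conj]
  ring

theorem e2_ip_lin' {F G K : QN N → SL(2, ℝ) → ℂ} (hF : SqF F) (hG : SqF G) (hK : SqF K)
    (a b : ℂ) :
    ip K (fun s g => a * F s g + b * G s g) = conj a * ip K F + conj b * ip K G := by
  rw [← e2_ip_conj, e2_ip_lin hF hG hK, map_add, map_mul, map_mul, e2_ip_conj, e2_ip_conj]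

theorem e2_ip_congr {F F' G G' : QN N → SL(2, ℝ) → ℂ}
    (h : ∀ s : QN N, ∀ᵐ p : ℍ × ℝ ∂muG, F s (gg p.1 p.2) = F' s (gg p.1 p.2))
    (h' : ∀ s : QN N, ∀ᵐ p : ℍ × ℝ ∂muG, G s (gg p.1 p.2) = G' s (gg p.1 p.2)) :
    ip F G = ip F' G' := by
  unfold ip
  refine Finset.sum_congr rfl fun s _ => integral_congr_ae ?_
  filter_upwards [h s, h' s] with p hp hp'
  rw [hp, hp']

theorem e2_one : SqF (fun (_ : QN N) (_ : SL(2, ℝ)) => (1 : ℂ)) := by
  have hmf : MF (fun (_ : QN N) (_ : SL(2, ℝ)) => (1 : ℂ)) :=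
    ⟨fun _ _ _ => rfl, fun _ => measurable_const⟩
  exact SqF_of_bdd hmf (C := 1) (fun _ _ => by simp)

theorem e2_mean {F : QN N → SL(2, ℝ) → ℂ} : mean F = 0 ↔ ip F (fun _ _ => 1) = 0 := by
  obtain ⟨V, hV, h⟩ := ip_one (N := N)
  unfold mean
  rw [h, div_eq_zero_iff]
  have : (V : ℂ) ≠ 0 := by exact_mod_cast hV.ne'
  simp [this]

theorem e2_mean_lin {F G : QN N → SL(2, ℝ) → ℂ} (hF : SqF F) (hG : SqF G) (h0 : mean F = 0)
    (h1 : mean G = 0) (a b : ℂ) : mean (fun s g => a * F s g + b * G s g) = 0 := by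
  rw [e2_mean] at *
  rw [e2_ip_lin hF hG e2_one, h0, h1]
  simp

/-- limits of inner products -/
theorem e2_lim {A : ℂ} {K : ℝ} (h : ∀ e : ℝ, 0 < e → ‖A‖ ≤ K * √e) : A = 0 := by
  by_contra hA
  have h0 : 0 < ‖A‖ := norm_pos_iff.2 hA
  have h1 := h ((‖A‖ / (2 * (|K| + 1))) ^ 2) (by positivity)
  rw [Real.sqrt_sq (by positivity)] at h1
  have h2 : K * (‖A‖ / (2 * (|K| + 1))) ≤ ‖A‖ / 2 := by
    rw [mul_div_assoc', div_le_div_iff₀ (by positivity) (by norm_num)]
    nlinarith [le_abs_self K, abs_nonneg K]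
  linarith

end e2F


theorem e2_meas {F : QN N → SL(2, ℝ) → ℂ} (hF : MF F) (s : QN N) :
    Measurable (fun q : ℂ × ℝ => F s (gx q.1 q.2)) := by
  letI : MeasurableSpace SL(2, ℝ) := borel _
  haveI : BorelSpace SL(2, ℝ) := ⟨rfl⟩
  have h1 : Measurable (F s) := (MF_borel.1 hF).2 s
  have h2 : Measurable (fun q : ℂ × ℝ => gx q.1 q.2) := by
    classical
    have h3 : (fun q : ℂ × ℝ => gx q.1 q.2) =
        Set.piecewise {q : ℂ × ℝ | q.1 ≠ 0} (fun q => gx q.1 q.2) (fun _ => 1) := by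
      funext q
      by_cases hq : q.1 = 0
      · simp [Set.piecewise, hq, gx]
      · simp [Set.piecewise, hq]
    rw [h3]
    exact gx_cont.measurable_piecewise continuousOn_const
      (measurable_fst (measurableSet_singleton (0 : ℂ))).compl
  exact h1.comp h2

section e2M

variable [NeZero N]

theorem e2_mt {F : QN N → SL(2, ℝ) → ℂ} (hF : MF F) (s : QN N) (x : ℂ) :
    Measurable (fun t : ℝ => F s (gx x t)) :=
  (e2_meas hF s).comp measurable_prodMk_left

theorem e2_CFm {F : QN N → SL(2, ℝ) → ℂ} (hF : MF F) (v : ZMod N × ZMod N) :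
    Measurable (fun x : ℂ => CF F x v) := by
  classical
  have h := CF_meas hF v
  have h2 : (fun x : ℂ => CF F x v) =
      fun x : ℂ => if x = 0 then CF F 0 v else (if x = 0 then 0 else CF F x v) := by
    funext x
    by_cases hx : x = 0
    · simp [hx]
    · simp [hx]
  rw [h2]
  exact Measurable.ite (measurableSet_singleton 0) measurable_const h

theorem e2_ii {F : QN N → SL(2, ℝ) → ℂ} (hF : SqF F) :
    ∀ᵐ x : ℂ, ∀ s : QN N, IntervalIntegrable (fun t => F s (gx x t)) volume 0 1 := by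
  have key : ∀ n : ℕ, ∀ᵐ x : ℂ, x ∈ Metric.closedBall (0 : ℂ) n →
      ∀ s : QN N, IntervalIntegrable (fun t => F s (gx x t)) volume 0 1 := by
    intro n
    refine (ae_restrict_iff' Metric.isClosed_closedBall.measurableSet).1 ?_
    obtain ⟨C, -, hC⟩ := CF_loc (N := N) n
    have h1 := (hC F hF).1
    refine (ae_all_iff).2 fun s => ?_
    filter_upwards [(h1 s).prod_right_ae] with x hx
    rw [intervalIntegrable_iff_integrableOn_Ioc_of_le zero_le_one]
    have h2 : MemLp (fun t => F s (gx x t)) 2 (volume.restrict (Set.Ioc (0 : ℝ) 1)) :=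
      (memLp_two_iff_integrable_sq_norm (e2_mt hF.mf s x).aestronglyMeasurable).2 hx
    exact h2.integrable one_le_two
  filter_upwards [ae_all_iff.2 key] with x hx
  obtain ⟨n, hn⟩ := exists_nat_ge ‖x‖
  exact hx n (by simpa using hn)

theorem CF_lin {F G : QN N → SL(2, ℝ) → ℂ} (hF : SqF F) (hG : SqF G) (a b : ℂ) :
    ∀ᵐ x : ℂ, ∀ v : ZMod N × ZMod N, CF (fun s g => a * F s g + b * G s g) x v =
      a * CF F x v + b * CF G x v := by
  filter_upwards [e2_ii hF, e2_ii hG] with x hx hx' v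
  unfold CF
  rw [mul_left_comm a, mul_left_comm b, ← mul_add]
  congr 1
  rw [Finset.mul_sum, Finset.mul_sum, ← Finset.sum_add_distrib]
  refine Finset.sum_congr rfl fun s _ => ?_
  by_cases hs : bot s = v
  · rw [if_pos hs, if_pos hs, if_pos hs, ← intervalIntegral.integral_const_mul,
      ← intervalIntegral.integral_const_mul,
      ← intervalIntegral.integral_add ((hx s).const_mul a) ((hx' s).const_mul b)]
  · rw [if_neg hs, if_neg hs, if_neg hs, mul_zero, mul_zero, add_zero]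

/-- unfolding for bounded support -/
theorem e2_unf {F : QN N → SL(2, ℝ) → ℂ} (hF : SqF F) (h0 : mean F = 0)
    {α : ℂ → ZMod N × ZMod N → ℂ} (h1 : InL α) (h2 : SqL α) {R : ℝ}
    (hR : ∀ x v, R < ‖x‖ → α x v = 0) : ip F (T0 α) = ipL (CF F) α := by
  have hint : ∀ s : QN N, Integrable (fun q : ℂ × ℝ => F s (gx q.1 q.2) * conj (α q.1 (bot s)))
      ((volume : Measure ℂ).prod (volume.restrict (Set.Ioc (0 : ℝ) 1))) := by
    intro s
    have hbs : bot s ∈ PV N := Finset.mem_image_of_mem _ (Finset.mem_univ s)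
    set B := Metric.closedBall (0 : ℂ) R with hB
    obtain ⟨C, -, hC⟩ := CF_loc (N := N) R
    have h3 := (hC F hF).1 s
    have hmF := (e2_meas hF.mf s).aestronglyMeasurable
      (μ := ((volume.restrict B).prod (volume.restrict (Set.Ioc (0 : ℝ) 1))))
    have h4 : MemLp (fun q : ℂ × ℝ => F s (gx q.1 q.2)) 2
        ((volume.restrict B).prod (volume.restrict (Set.Ioc (0 : ℝ) 1))) :=
      (memLp_two_iff_integrable_sq_norm hmF).2 h3
    have hma : Measurable (fun q : ℂ × ℝ => conj (α q.1 (bot s))) :=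
      continuous_conj.measurable.comp ((h1.meas (bot s)).comp measurable_fst)
    have h5 : MemLp (fun q : ℂ × ℝ => conj (α q.1 (bot s))) 2
        ((volume.restrict B).prod (volume.restrict (Set.Ioc (0 : ℝ) 1))) := by
      refine (memLp_two_iff_integrable_sq_norm hma.aestronglyMeasurable).2 ?_
      have h6 : Integrable (fun q : ℂ × ℝ => ‖α q.1 (bot s)‖ ^ 2 * (1 : ℝ))
          ((volume.restrict B).prod (volume.restrict (Set.Ioc (0 : ℝ) 1))) :=
        (h2.sq _ hbs).restrict.mul_prod (integrable_const (1 : ℝ))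
      refine h6.congr (Eventually.of_forall fun q => ?_)
      simp
    have h7 := h4.integrable_mul h5
    have h8 : (volume.restrict B).prod (volume.restrict (Set.Ioc (0 : ℝ) 1)) =
        ((volume : Measure ℂ).prod (volume.restrict (Set.Ioc (0 : ℝ) 1))).restrict
          (B ×ˢ Set.univ) := by
      rw [← Measure.prod_restrict, Measure.restrict_univ]
    rw [h8] at h7
    refine (integrableOn_iff_integrable_of_support_subset ?_).1 h7
    intro q hq
    rw [Function.mem_support] at hq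
    refine ⟨?_, Set.mem_univ _⟩
    by_contra hne
    refine hq ?_
    have : R < ‖q.1‖ := by
      rw [hB, Metric.mem_closedBall, dist_zero_right] at hne
      exact lt_of_not_ge hne
    show F s (gx q.1 q.2) * conj (α q.1 (bot s)) = 0
    rw [hR _ _ this, map_zero, mul_zero]
  have h3 := unf_int hF.mf h1.meas hint
  rw [← h3.2]
  have h4 : ip F (fun _ _ => 1) = 0 := e2_mean.1 h0
  have h5 : ip F (T0 α) = ip F (EE α) - conj (mean (EE α)) * ip F (fun _ _ => 1) := by
    unfold ip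
    rw [Finset.mul_sum, ← Finset.sum_sub_distrib]
    refine Finset.sum_congr rfl fun s _ => ?_
    rw [← integral_const_mul, ← integral_sub (h3.1 s) (((ip_cs hF e2_one).1 s).const_mul _)]
    refine integral_congr_ae (Eventually.of_forall fun p => ?_)
    simp only [T0, map_sub, map_one]
    ring
  rw [h5, h4, mul_zero, sub_zero]

theorem e2_en {F : QN N → SL(2, ℝ) → ℂ} : 0 ≤ (ip F F).re := by
  unfold ip
  rw [Complex.re_sum]
  refine Finset.sum_nonneg fun s _ => ?_
  have h6 : ∀ p : ℍ × ℝ, F s (gg p.1 p.2) * conj (F s (gg p.1 p.2)) =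
      ((‖F s (gg p.1 p.2)‖ ^ 2 : ℝ) : ℂ) := fun p => by
    rw [Complex.mul_conj, Complex.normSq_eq_norm_sq]
  simp only [h6]
  have h7 : ∫ p : ℍ × ℝ, ((‖F s (gg p.1 p.2)‖ ^ 2 : ℝ) : ℂ) ∂muG =
    ((∫ p : ℍ × ℝ, ‖F s (gg p.1 p.2)‖ ^ 2 ∂muG : ℝ) : ℂ) := integral_ofReal
  rw [h7, Complex.ofReal_re]
  exact integral_nonneg fun p => by positivity

theorem CF_SqL {F : QN N → SL(2, ℝ) → ℂ} (hF : SqF F) (h0 : mean F = 0) :
    SqL (CF F) ∧ nL (CF F) ≤ 2 * (ip F F).re := by
  -- the truncated constant term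
  have htr : ∀ R : ℝ, (∀ v ∈ PV N, IntegrableOn (fun x => ‖CF F x v‖ ^ 2)
      (Metric.closedBall (0 : ℂ) R)) ∧
      2 * N * ∑ v ∈ PV N, ∫ x in Metric.closedBall (0 : ℂ) R, ‖CF F x v‖ ^ 2 ≤
        2 * (ip F F).re := by
    intro R
    classical
    set B := Metric.closedBall (0 : ℂ) R with hB
    have hBm : MeasurableSet B := Metric.isClosed_closedBall.measurableSet
    obtain ⟨C, -, hC⟩ := CF_loc (N := N) R
    have h1 := (hC F hF).2.1
    refine ⟨h1, ?_⟩
    set α : ℂ → ZMod N × ZMod N → ℂ := fun x v => B.indicator (fun x => CF F x v) x with hα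
    have hαm : ∀ v, Measurable (fun x => α x v) := fun v => (e2_CFm hF.mf v).indicator hBm
    have hsq : ∀ v, (fun x => ‖α x v‖ ^ 2) = B.indicator (fun x => ‖CF F x v‖ ^ 2) := by
      intro v
      funext x
      by_cases hx : x ∈ B
      · simp [hα, hx]
      · simp [hα, hx]
    have hαs : SqL α := by
      refine ⟨hαm, fun v hv => ?_⟩
      rw [hsq v]
      exact (h1 v hv).integrable_indicator hBm
    have hαi : InL α := by
      refine ⟨hαm, fun v hv => ?_⟩
      have h2 : MemLp (fun x => CF F x v) 2 (volume.restrict B) :=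
        (memLp_two_iff_integrable_sq_norm (e2_CFm hF.mf v).aestronglyMeasurable).2 (h1 v hv)
      haveI : IsFiniteMeasure (volume.restrict B) :=
        ⟨by
          rw [Measure.restrict_apply_univ]
          exact (isCompact_closedBall _ _).measure_lt_top⟩
      have h3 : IntegrableOn (fun x => CF F x v) B := h2.integrable one_le_two
      exact h3.integrable_indicator hBm
    have hun := e2_unf hF h0 hαi hαs (R := R) (fun x v hx => by
      refine Set.indicator_of_notMem ?_ _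
      rw [hB, Metric.mem_closedBall, dist_zero_right]
      exact not_le.2 hx)
    have hE := T0_E1 hαi hαs
    have hn : ipL (CF F) α = (nL α : ℂ) := by
      unfold ipL nL
      push_cast
      congr 1
      refine Finset.sum_congr rfl fun v _ => ?_
      have h : ∀ x : ℂ, CF F x v * conj (α x v) = ((‖α x v‖ ^ 2 : ℝ) : ℂ) := fun x => by
        by_cases hx : x ∈ B
        · simp only [hα, Set.indicator_of_mem hx]
          rw [Complex.mul_conj, Complex.normSq_eq_norm_sq]
        · simp [hα, Set.indicator_of_notMem hx]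
      simp only [h]
      exact integral_ofReal
    have hnn := e2_nonneg α
    have hcs := (ip_cs hF hE.1).2
    rw [hun, hn, Complex.norm_real, Real.norm_of_nonneg hnn] at hcs
    have h5 : nL α ^ 2 ≤ (ip F F).re * (2 * nL α) :=
      hcs.trans (mul_le_mul_of_nonneg_left hE.2.2 e2_en)
    have h6 : nL α ≤ 2 * (ip F F).re := by
      rcases hnn.eq_or_lt with h | h
      · rw [← h]
        have := e2_en (F := F)
        positivity
      · nlinarith
    have h7 : nL α = 2 * N * ∑ v ∈ PV N, ∫ x in B, ‖CF F x v‖ ^ 2 := by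
      unfold nL
      congr 1
      refine Finset.sum_congr rfl fun v _ => ?_
      rw [hsq v, integral_indicator hBm]
    rw [← h7]
    exact h6
  have hN : (0 : ℝ) < 2 * N := by
    have := Nat.cast_pos (α := ℝ).2 (NeZero.pos N)
    positivity
  have hcov : AECover (volume : Measure ℂ) atTop
      (fun n : ℕ => Metric.closedBall (0 : ℂ) (n : ℝ)) :=
    aecover_closedBall tendsto_natCast_atTop_atTop
  have hint : ∀ v ∈ PV N, Integrable (fun x => ‖CF F x v‖ ^ 2) := by
    intro v hv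
    refine hcov.integrable_of_integral_bounded_of_nonneg_ae (2 * (ip F F).re / (2 * N))
      (fun n => (htr n).1 v hv) (Eventually.of_forall fun x => by positivity)
      (Eventually.of_forall fun n => ?_)
    rw [le_div_iff₀ hN, mul_comm]
    refine le_trans ?_ (htr n).2
    refine mul_le_mul_of_nonneg_left ?_ hN.le
    exact Finset.single_le_sum (f := fun v => ∫ x in Metric.closedBall (0 : ℂ) (n : ℝ),
      ‖CF F x v‖ ^ 2) (fun v _ => integral_nonneg fun x => by positivity) hv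
  refine ⟨⟨fun v => e2_CFm hF.mf v, hint⟩, ?_⟩
  have hlim : Tendsto (fun n : ℕ => 2 * (N : ℝ) * ∑ v ∈ PV N,
      ∫ x in Metric.closedBall (0 : ℂ) (n : ℝ), ‖CF F x v‖ ^ 2) atTop (𝓝 (nL (CF F))) := by
    unfold nL
    refine Tendsto.const_mul _ (tendsto_finset_sum _ fun v hv => ?_)
    exact hcov.integral_tendsto_of_countably_generated (hint v hv)
  exact le_of_tendsto' hlim fun n => (htr n).2

theorem ip_T0_gen {F : QN N → SL(2, ℝ) → ℂ} (hF : SqF F) (h0 : mean F = 0)
    {α : ℂ → ZMod N × ZMod N → ℂ} (h1 : InL α) (h2 : SqL α) : ip F (T0 α) = ipL (CF F) α := by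
  have hcF := CF_SqL hF h0
  rw [← sub_eq_zero]
  refine e2_lim (K := √(ip F F).re * √2 + (nL (CF F) + 1)) fun e he => ?_
  obtain ⟨R, hR, h3, h4, h5⟩ := SqL_trunc h2 he
  set β : ℂ → ZMod N × ZMod N → ℂ := fun x v => if ‖x‖ ≤ R then α x v else 0 with hβ
  have hun := e2_unf hF h0 h3 h4 (R := R) (fun x v hx => by
    simp only [hβ]
    rw [if_neg (not_le.2 hx)])
  have hin : InL (fun x v => 1 * β x v + (-1) * α x v) :=
    ⟨fun v => ((h3.meas v).const_mul 1).add ((h1.meas v).const_mul (-1)),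
      fun v hv => ((h3.int v hv).const_mul 1).add ((h1.int v hv).const_mul (-1))⟩
  have hsq : SqL (fun x v => 1 * β x v + (-1) * α x v) := e2_lin h4 h2 1 (-1)
  have hE := T0_E1 hin hsq
  have hEα := T0_E1 h1 h2
  have hEβ := T0_E1 h3 h4
  have hfe : (fun (x : ℂ) (v : ZMod N × ZMod N) => (1 : ℂ) * β x v + (-1) * α x v) =
      fun x v => β x v - α x v := by
    funext x v
    ring
  have h6 : ip F (T0 α) - ipL (CF F) α =
      -(ip F (T0 (fun x v => 1 * β x v + (-1) * α x v))) +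
        ipL (CF F) (fun x v => β x v - α x v) := by
    have h7 : ip F (T0 (fun x v => 1 * β x v + (-1) * α x v)) =
        ip F (fun s g => 1 * T0 β s g + (-1) * T0 α s g) :=
      e2_ip_congr (fun s => Eventually.of_forall fun p => rfl) (T0_lin h3 h1 1 (-1))
    rw [h7, e2_ip_lin' hEβ.1 hEα.1 hF, e2_ipL_sub hcF.1 h4 h2, hun]
    simp only [map_one, map_neg]
    ring
  rw [h6]
  have h8 : ‖ip F (T0 (fun x v => 1 * β x v + (-1) * α x v))‖ ≤ √(ip F F).re * √2 * √e := by
    have h9 := (ip_cs hF hE.1).2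
    rw [← Real.sqrt_mul e2_en, ← Real.sqrt_mul (mul_nonneg e2_en (by norm_num)),
      ← Real.sqrt_sq (norm_nonneg (ip F _))]
    apply Real.sqrt_le_sqrt
    refine h9.trans ?_
    rw [mul_assoc]
    refine mul_le_mul_of_nonneg_left ?_ e2_en
    refine hE.2.2.trans ?_
    rw [hfe]
    exact mul_le_mul_of_nonneg_left h5.le (by norm_num)
  have h10 : ‖ipL (CF F) (fun x v => β x v - α x v)‖ ≤ (nL (CF F) + 1) * √e := by
    have h11 := e2_bound hcF.1 (e2_sub h4 h2) (t := √e) (Real.sqrt_pos.2 he)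
    refine h11.trans ?_
    have h12 : (√e)⁻¹ * nL (fun x v => β x v - α x v) ≤ √e := by
      rw [inv_mul_le_iff₀ (Real.sqrt_pos.2 he), Real.mul_self_sqrt he.le]
      exact h5.le
    have h13 := e2_nonneg (CF F)
    have h14 := Real.sqrt_nonneg e
    nlinarith [mul_nonneg h13 h14]
  calc ‖-(ip F (T0 (fun x v => 1 * β x v + (-1) * α x v))) +
        ipL (CF F) (fun x v => β x v - α x v)‖
      ≤ √(ip F F).re * √2 * √e + (nL (CF F) + 1) * √e := by
        refine (norm_add_le _ _).trans (add_le_add ?_ h10)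
        rw [norm_neg]
        exact h8
    _ = _ := by ring

end e2M

end Pool.Agent.JO
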