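import Pool.Agent.Lib_helper63.JO.Defs2
import Pool.Agent.Lib_helper63.JOE.ALG
import Pool.Agent.Lib_helper63.JOE.APX
import Pool.Agent.Lib_helper63.JOE.BOR
import Pool.Agent.Lib_helper63.JOE.CF1
import Pool.Agent.Lib_helper63.JOE.DEN
import Pool.Agent.Lib_helper63.JOE.E1
import Pool.Agent.Lib_helper63.JOE.E2
import Pool.Agent.Lib_helper63.JOE.FAT
import Pool.Agent.Lib_helper63.JOE.HI1
import Pool.Agent.Lib_helper63.JOE.HI2
import Pool.Agent.Lib_helper63.JOE.ZB2
/-! Block E3: the projection onto the continuous spectrum. -/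

namespace Pool.Agent.JO

open Complex MeasureTheory Filter Topology UpperHalfPlane ModularGroup
open scoped MatrixGroups Modular ENNReal ComplexConjugate ContDiff

variable {N : ℕ}

section e3L

variable [NeZero N]

theorem e3_mem {c : ℂ → ZMod N × ZMod N → ℂ} (hc : SqL c) {v : ZMod N × ZMod N} (hv : v ∈ PV N) :
    MemLp (fun x => c x v) 2 volume :=
  (memLp_two_iff_integrable_sq_norm (hc.meas v).aestronglyMeasurable).2 (hc.sq v hv)

theorem e3_memc {c : ℂ → ZMod N × ZMod N → ℂ} (hc : SqL c) {v : ZMod N × ZMod N} (hv : v ∈ PV N) :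
    MemLp (fun x => conj (c x v)) 2 volume := by
  refine (memLp_two_iff_integrable_sq_norm ?_).2 ?_
  · exact (continuous_conj.measurable.comp (hc.meas v)).aestronglyMeasurable
  · simpa using hc.sq v hv

theorem e3_prod {c d : ℂ → ZMod N × ZMod N → ℂ} (hc : SqL c) (hd : SqL d) {v : ZMod N × ZMod N}
    (hv : v ∈ PV N) : Integrable (fun x => c x v * conj (d x v)) :=
  (e3_mem hc hv).integrable_mul (e3_memc hd hv)

theorem e3_lin {c d : ℂ → ZMod N × ZMod N → ℂ} (hc : SqL c) (hd : SqL d) (a b : ℂ) :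
    SqL (fun x v => a * c x v + b * d x v) := by
  refine ⟨fun v => ((hc.meas v).const_mul a).add ((hd.meas v).const_mul b), fun v hv => ?_⟩
  have h := ((e3_mem hc hv).const_mul a).add ((e3_mem hd hv).const_mul b)
  have h2 := (memLp_two_iff_integrable_sq_norm h.1).1 h
  exact h2

theorem e3_sub {c d : ℂ → ZMod N × ZMod N → ℂ} (hc : SqL c) (hd : SqL d) :
    SqL (fun x v => c x v - d x v) := by
  have h := e3_lin hc hd 1 (-1)
  have e : (fun (x : ℂ) (v : ZMod N × ZMod N) => (1 : ℂ) * c x v + -1 * d x v) =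
      fun x v => c x v - d x v := by
    funext x v
    ring
  rwa [e] at h

theorem e3_nonneg (c : ℂ → ZMod N × ZMod N → ℂ) : 0 ≤ nL c := by
  unfold nL
  refine mul_nonneg (by positivity) (Finset.sum_nonneg fun v _ => ?_)
  exact integral_nonneg fun x => by positivity

theorem e3_congr {c d : ℂ → ZMod N × ZMod N → ℂ}
    (h : ∀ v ∈ PV N, ∀ᵐ x : ℂ, c x v = d x v) : nL c = nL d := by
  unfold nL
  congr 1
  refine Finset.sum_congr rfl fun v hv => ?_
  refine integral_congr_ae ?_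
  filter_upwards [h v hv] with x hx
  simp only [hx]

theorem e3_nL_sub {c d : ℂ → ZMod N × ZMod N → ℂ} (hc : SqL c) (hd : SqL d) :
    nL (fun x v => c x v - d x v) = nL c - 2 * (ipL c d).re + nL d := by
  have key : ∀ v ∈ PV N, ∫ x : ℂ, ‖c x v - d x v‖ ^ 2 = (∫ x : ℂ, ‖c x v‖ ^ 2) -
      2 * (∫ x : ℂ, c x v * conj (d x v)).re + ∫ x : ℂ, ‖d x v‖ ^ 2 := by
    intro v hv
    have h1 : ∀ x : ℂ, ‖c x v - d x v‖ ^ 2 = ‖c x v‖ ^ 2 - 2 * (c x v * conj (d x v)).re +
        ‖d x v‖ ^ 2 := by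
      intro x
      rw [← Complex.normSq_eq_norm_sq, ← Complex.normSq_eq_norm_sq, ← Complex.normSq_eq_norm_sq,
        Complex.normSq_sub]
      ring
    simp only [h1]
    have hi := e3_prod hc hd hv
    have e1 := integral_add (f := fun x : ℂ => ‖c x v‖ ^ 2 - 2 * (c x v * conj (d x v)).re)
      (g := fun x : ℂ => ‖d x v‖ ^ 2) ((hc.sq v hv).sub (hi.re.const_mul 2)) (hd.sq v hv)
    have e2 := integral_sub (f := fun x : ℂ => ‖c x v‖ ^ 2)
      (g := fun x : ℂ => 2 * (c x v * conj (d x v)).re) (hc.sq v hv) (hi.re.const_mul 2)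
    rw [e1, e2, integral_const_mul]
    have h2 : ∫ x : ℂ, (c x v * conj (d x v)).re = (∫ x : ℂ, c x v * conj (d x v)).re :=
      integral_re hi
    rw [h2]
  unfold nL
  rw [Finset.sum_congr rfl key, Finset.sum_add_distrib, Finset.sum_sub_distrib, ← Finset.mul_sum]
  have h3 : (ipL c d).re = 2 * N * ∑ v ∈ PV N, (∫ x : ℂ, c x v * conj (d x v)).re := by
    unfold ipL
    have : (2 * (N : ℂ)) = ((2 * N : ℝ) : ℂ) := by push_cast; ring
    rw [this, Complex.re_ofReal_mul, Complex.re_sum]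
  rw [h3]
  ring

theorem e3_bound {c d : ℂ → ZMod N × ZMod N → ℂ} (hc : SqL c) (hd : SqL d) {t : ℝ} (ht : 0 < t) :
    ‖ipL c d‖ ≤ (t * nL c + t⁻¹ * nL d) / 2 := by
  have key : ∀ v ∈ PV N, ‖∫ x : ℂ, c x v * conj (d x v)‖ ≤
      (t * (∫ x : ℂ, ‖c x v‖ ^ 2) + t⁻¹ * ∫ x : ℂ, ‖d x v‖ ^ 2) / 2 := by
    intro v hv
    have h1 : ∀ x : ℂ, ‖c x v * conj (d x v)‖ ≤
        (t * ‖c x v‖ ^ 2 + t⁻¹ * ‖d x v‖ ^ 2) / 2 := by
      intro x
      rw [norm_mul, RCLike.norm_conj]
      have h2 : 0 ≤ t⁻¹ * (t * ‖c x v‖ - ‖d x v‖) ^ 2 := by positivity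
      have h3 : t⁻¹ * (t * ‖c x v‖ - ‖d x v‖) ^ 2 = t * ‖c x v‖ ^ 2 - 2 * (‖c x v‖ * ‖d x v‖) +
          t⁻¹ * ‖d x v‖ ^ 2 := by
        field_simp
        ring
      linarith
    have hi : Integrable (fun x : ℂ => (t * ‖c x v‖ ^ 2 + t⁻¹ * ‖d x v‖ ^ 2) / 2) :=
      (((hc.sq v hv).const_mul t).add ((hd.sq v hv).const_mul t⁻¹)).div_const 2
    refine (norm_integral_le_of_norm_le hi (Eventually.of_forall h1)).trans (le_of_eq ?_)
    rw [integral_div, integral_add ((hc.sq v hv).const_mul t) ((hd.sq v hv).const_mul t⁻¹),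
      integral_const_mul, integral_const_mul]
  unfold ipL nL
  have h0 : ‖(2 * (N : ℂ))‖ = 2 * N := by
    rw [norm_mul, Complex.norm_natCast]
    simp
  rw [norm_mul, h0]
  calc 2 * (N : ℝ) * ‖∑ v ∈ PV N, ∫ x : ℂ, c x v * conj (d x v)‖
      ≤ 2 * N * ∑ v ∈ PV N, (t * (∫ x : ℂ, ‖c x v‖ ^ 2) + t⁻¹ * ∫ x : ℂ, ‖d x v‖ ^ 2) / 2 := by
        gcongr
        exact (norm_sum_le _ _).trans (Finset.sum_le_sum key)
    _ = _ := by
        rw [← Finset.sum_div, Finset.sum_add_distrib, ← Finset.mul_sum, ← Finset.mul_sum]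
        ring

theorem e3_ipL_sub {c d d' : ℂ → ZMod N × ZMod N → ℂ} (hc : SqL c) (hd : SqL d) (hd' : SqL d') :
    ipL c (fun x v => d x v - d' x v) = ipL c d - ipL c d' := by
  unfold ipL
  rw [← mul_sub, ← Finset.sum_sub_distrib]
  congr 1
  refine Finset.sum_congr rfl fun v hv => ?_
  rw [← integral_sub (e3_prod hc hd hv) (e3_prod hc hd' hv)]
  refine integral_congr_ae (Eventually.of_forall fun x => ?_)
  simp only [map_sub]
  ring

theorem e3_ipL_conj (c d : ℂ → ZMod N × ZMod N → ℂ) : conj (ipL c d) = ipL d c := by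
  unfold ipL
  rw [map_mul, map_sum, map_mul]
  congr 1
  · rw [Complex.conj_natCast]
    congr 1
    exact map_ofNat (starRingEnd ℂ) 2
  · refine Finset.sum_congr rfl fun v _ => ?_
    rw [← integral_conj]
    refine integral_congr_ae (Eventually.of_forall fun x => ?_)
    simp only [map_mul, Complex.conj_conj]
    ring

/-- `(a + b + c)² ≤ 3 (a² + b² + c²)` -/
theorem e3_nL_add3 {a b c : ℂ → ZMod N × ZMod N → ℂ} (ha : SqL a) (hb : SqL b) (hc : SqL c)
    {f : ℂ → ZMod N × ZMod N → ℂ}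
    (hf : ∀ v ∈ PV N, ∀ᵐ x : ℂ, ‖f x v‖ ≤ ‖a x v‖ + ‖b x v‖ + ‖c x v‖) :
    nL f ≤ 3 * (nL a + nL b + nL c) := by
  have key : ∀ v ∈ PV N, ∫ x : ℂ, ‖f x v‖ ^ 2 ≤
      3 * ((∫ x : ℂ, ‖a x v‖ ^ 2) + (∫ x : ℂ, ‖b x v‖ ^ 2) + ∫ x : ℂ, ‖c x v‖ ^ 2) := by
    intro v hv
    have e1 := integral_add (f := fun x : ℂ => ‖a x v‖ ^ 2 + ‖b x v‖ ^ 2)
      (g := fun x : ℂ => ‖c x v‖ ^ 2) ((ha.sq v hv).add (hb.sq v hv)) (hc.sq v hv)
    have e2 := integral_add (f := fun x : ℂ => ‖a x v‖ ^ 2) (g := fun x : ℂ => ‖b x v‖ ^ 2)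
      (ha.sq v hv) (hb.sq v hv)
    rw [← e2, ← e1, ← integral_const_mul]
    refine integral_mono_of_nonneg (Eventually.of_forall fun x => by positivity)
      ((((ha.sq v hv).add (hb.sq v hv)).add (hc.sq v hv)).const_mul 3) ?_
    filter_upwards [hf v hv] with x hx
    have h0 := norm_nonneg (f x v)
    have h1 : ‖f x v‖ ^ 2 ≤ (‖a x v‖ + ‖b x v‖ + ‖c x v‖) ^ 2 := by gcongr
    nlinarith [sq_nonneg (‖a x v‖ - ‖b x v‖), sq_nonneg (‖a x v‖ - ‖c x v‖),
      sq_nonneg (‖b x v‖ - ‖c x v‖)]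
  unfold nL
  calc 2 * (N : ℝ) * ∑ v ∈ PV N, ∫ x : ℂ, ‖f x v‖ ^ 2
      ≤ 2 * N * ∑ v ∈ PV N, 3 * ((∫ x : ℂ, ‖a x v‖ ^ 2) + (∫ x : ℂ, ‖b x v‖ ^ 2) +
          ∫ x : ℂ, ‖c x v‖ ^ 2) := by
        gcongr with v hv
        exact key v hv
    _ = _ := by
        rw [← Finset.mul_sum, Finset.sum_add_distrib, Finset.sum_add_distrib]
        ring

theorem e3_zero {c : ℂ → ZMod N × ZMod N → ℂ} (hc : SqL c) (h : nL c ≤ 0) :
    ∀ v ∈ PV N, ∀ᵐ x : ℂ, c x v = 0 := by
  intro v hv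
  have hN : (0 : ℝ) < N := Nat.cast_pos.2 (NeZero.pos N)
  have h1 : ∑ v ∈ PV N, ∫ x : ℂ, ‖c x v‖ ^ 2 = 0 := by
    refine le_antisymm ?_ (Finset.sum_nonneg fun v _ => integral_nonneg fun x => by positivity)
    by_contra hh
    push Not at hh
    have : 0 < nL c := by
      unfold nL
      positivity
    linarith
  have h2 := (Finset.sum_eq_zero_iff_of_nonneg
    (fun v _ => integral_nonneg fun x => by positivity)).1 h1 v hv
  have h3 := (integral_eq_zero_iff_of_nonneg (fun x => by positivity) (hc.sq v hv)).1 h2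
  filter_upwards [h3] with x hx
  have : ‖c x v‖ ^ 2 = 0 := hx
  simpa using this

end e3L

section e3F

variable [NeZero N]

theorem e3_ip_lin {F G K : QN N → SL(2, ℝ) → ℂ} (hF : SqF F) (hG : SqF G) (hK : SqF K) (a b : ℂ) :
    ip (fun s g => a * F s g + b * G s g) K = a * ip F K + b * ip G K := by
  unfold ip
  rw [Finset.mul_sum, Finset.mul_sum, ← Finset.sum_add_distrib]
  refine Finset.sum_congr rfl fun s _ => ?_
  rw [← integral_const_mul, ← integral_const_mul,
    ← integral_add (((ip_cs hF hK).1 s).const_mul a) (((ip_cs hG hK).1 s).const_mul b)]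
  refine integral_congr_ae (Eventually.of_forall fun p => ?_)
  simp only []
  ring

theorem e3_ip_conj (F G : QN N → SL(2, ℝ) → ℂ) : conj (ip F G) = ip G F := by
  unfold ip
  rw [map_sum]
  refine Finset.sum_congr rfl fun s _ => ?_
  rw [← integral_conj]
  refine integral_congr_ae (Eventually.of_forall fun p => ?_)
  simp only [map_mul, Complex.conj_conj]
  ring

theorem e3_ip_lin' {F G K : QN N → SL(2, ℝ) → ℂ} (hF : SqF F) (hG : SqF G) (hK : SqF K)
    (a b : ℂ) :
    ip K (fun s g => a * F s g + b * G s g) = conj a * ip K F + conj b * ip K G := by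
  rw [← e3_ip_conj, e3_ip_lin hF hG hK, map_add, map_mul, map_mul, e3_ip_conj, e3_ip_conj]

theorem e3_ip_congr {F F' G G' : QN N → SL(2, ℝ) → ℂ}
    (h : ∀ s : QN N, ∀ᵐ p : ℍ × ℝ ∂muG, F s (gg p.1 p.2) = F' s (gg p.1 p.2))
    (h' : ∀ s : QN N, ∀ᵐ p : ℍ × ℝ ∂muG, G s (gg p.1 p.2) = G' s (gg p.1 p.2)) :
    ip F G = ip F' G' := by
  unfold ip
  refine Finset.sum_congr rfl fun s _ => integral_congr_ae ?_
  filter_upwards [h s, h' s] with p hp hp'
  rw [hp, hp']

theorem e3_one : SqF (fun (_ : QN N) (_ : SL(2, ℝ)) => (1 : ℂ)) := by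
  have hmf : MF (fun (_ : QN N) (_ : SL(2, ℝ)) => (1 : ℂ)) :=
    ⟨fun _ _ _ => rfl, fun _ => measurable_const⟩
  exact SqF_of_bdd hmf (C := 1) (fun _ _ => by simp)

theorem e3_mean {F : QN N → SL(2, ℝ) → ℂ} : mean F = 0 ↔ ip F (fun _ _ => 1) = 0 := by
  obtain ⟨V, hV, h⟩ := ip_one (N := N)
  unfold mean
  rw [h, div_eq_zero_iff]
  have : (V : ℂ) ≠ 0 := by exact_mod_cast hV.ne'
  simp [this]

theorem e3_mean_lin {F G : QN N → SL(2, ℝ) → ℂ} (hF : SqF F) (hG : SqF G) (h0 : mean F = 0)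
    (h1 : mean G = 0) (a b : ℂ) : mean (fun s g => a * F s g + b * G s g) = 0 := by
  rw [e3_mean] at *
  rw [e3_ip_lin hF hG e3_one, h0, h1]
  simp

/-- limits of inner products -/
theorem e3_lim {A : ℂ} {K : ℝ} (h : ∀ e : ℝ, 0 < e → ‖A‖ ≤ K * √e) : A = 0 := by
  by_contra hA
  have h0 : 0 < ‖A‖ := norm_pos_iff.2 hA
  have h1 := h ((‖A‖ / (2 * (|K| + 1))) ^ 2) (by positivity)
  rw [Real.sqrt_sq (by positivity)] at h1
  have h2 : K * (‖A‖ / (2 * (|K| + 1))) ≤ ‖A‖ / 2 := by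
    rw [mul_div_assoc', div_le_div_iff₀ (by positivity) (by norm_num)]
    nlinarith [le_abs_self K, abs_nonneg K]
  linarith

end e3F

/-- the approximation of the constant terms by `Z(w)` -/
theorem e3_approx [NeZero N] {c : ℂ → ZMod N × ZMod N → ℂ} (hc : SqL c)
    (he : ∀ᵐ x : ℂ, ∀ v ∈ PV N, c (-x) (-v) = c x v) {e : ℝ} (h0 : 0 < e) :
    ∃ w : ℂ → ZMod N × ZMod N → ℂ, TW w ∧ nL (fun x v => ZZ w x v - c x v) < e := by
  obtain ⟨R, hR, h1, h2, h3⟩ := SqL_trunc hc (e := e / 9) (by positivity)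
  obtain ⟨α, hα, hαe, hαp, h4, -⟩ := TW_dense h1 h2 (by
    filter_upwards [he] with x hx v hv
    simp only [norm_neg, hx v hv]) (e := e / 9) (by positivity)
  obtain ⟨w, hw, h5, -⟩ := ZZ_approx hα hαe hαp (e := e / 9) (by positivity)
  refine ⟨w, hw, ?_⟩
  have hαs : SqL α := by
    refine ⟨fun v => (hα.smooth v).continuous.measurable, fun v _ => ?_⟩
    obtain ⟨r, R', hr, hs⟩ := hα.supp
    refine Continuous.integrable_of_hasCompactSupport (by
      have := (hα.smooth v).continuous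
      fun_prop) ?_
    refine HasCompactSupport.intro (isCompact_closedBall (0 : ℂ) R') fun x hx => ?_
    have : α x v = 0 := by
      by_contra hne
      exact hx (by simpa using (hs x v hne).2)
    simp [this]
  have h6 := e3_nL_add3 (f := fun x v => ZZ w x v - c x v) (e3_sub (ZZ_InL hw).2.1 hαs)
    (e3_sub hαs h2) (e3_sub h2 hc) (fun v _ => Eventually.of_forall fun x => by
      have : ZZ w x v - c x v = (ZZ w x v - α x v) + (α x v - (if ‖x‖ ≤ R then c x v else 0)) +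
        ((if ‖x‖ ≤ R then c x v else 0) - c x v) := by ring
      rw [this]
      exact (norm_add_le _ _).trans (add_le_add_left (norm_add_le _ _) _))
  linarith

theorem eis_proj [NeZero N] {F : QN N → SL(2, ℝ) → ℂ} (hF : SqF F) (h0 : mean F = 0) :
    ∃ G : QN N → SL(2, ℝ) → ℂ, SqF G ∧ mean G = 0 ∧ (∀ᵐ x : ℂ, ∀ v ∈ PV N, CF G x v = 0) ∧
      ∀ F' : QN N → SL(2, ℝ) → ℂ, SqF F' → mean F' = 0 →
        ip F F' = ip G F' + (1 / 2) * ipL (CF F) (CF F') := by
  have hx0 : ∀ᵐ x : ℂ, x ≠ 0 := by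
    have : volume ({(0 : ℂ)} : Set ℂ) = 0 := by simp
    filter_upwards [measure_eq_zero_iff_ae_notMem.1 this] with x hx
    simpa using hx
  obtain ⟨hc, hcb⟩ := CF_SqL hF h0
  have hce : ∀ᵐ x : ℂ, ∀ v ∈ PV N, CF F (-x) (-v) = CF F x v := by
    filter_upwards [hx0] with x hx v _
    exact CF_even hF.mf.1 hx v
  have hej : ∀ j : ℕ, (0 : ℝ) < 1 / ((j : ℝ) + 1) := fun j => by positivity
  choose w hw hwe using fun j : ℕ => e3_approx hc hce (hej j)
  -- the second approximation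
  have hwh : ∀ j, nL (fun x v => ZZ (hat (w j)) x v - CF F x v) < 1 / ((j : ℝ) + 1) := by
    intro j
    have hz := ZZ_InL (hw j)
    have h1 := e3_nL_sub hz.2.1 hc
    have h2 := e3_nL_sub hz.2.2.2 hc
    have h3 := (T0_alg (hw j) (hw j)).2.2.1
    have h4 : ipL (CF F) (ZZ (hat (w j))) = ipL (CF F) (ZZ (w j)) := by
      rw [← ip_T0_gen hF h0 hz.1 hz.2.1, ← ip_T0_gen hF h0 hz.2.2.1 hz.2.2.2]
      exact e3_ip_congr (fun s => Eventually.of_forall fun p => rfl)
        (fun s => Eventually.of_forall fun p => ((T0_hat (hw j)).1 _ _).symm)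
    have h5 : ipL (ZZ (hat (w j))) (CF F) = ipL (ZZ (w j)) (CF F) := by
      rw [← e3_ipL_conj, h4, e3_ipL_conj]
    rw [h2, h3, h5, ← h1]
    exact hwe j
  -- the sequence
  set T : ℕ → QN N → SL(2, ℝ) → ℂ := fun j => T0 (ZZ (w j)) with hT
  have hTs : ∀ j, SqF (T j) := fun j => (T0_hat (hw j)).2.1
  have hTm : ∀ j, mean (T j) = 0 := fun j => (T0_hat (hw j)).2.2.1
  have hcau : ∀ e : ℝ, 0 < e → ∃ J, ∀ i ≥ J, ∀ j ≥ J,
      (ip (fun s g => T i s g - T j s g) (fun s g => T i s g - T j s g)).re ≤ e := by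
    intro e he
    obtain ⟨J, hJ⟩ := exists_nat_gt (12 / e)
    refine ⟨J, fun i hi j hj => ?_⟩
    have hzi := ZZ_InL (hw i)
    have hzj := ZZ_InL (hw j)
    have hin : InL (fun x v => 1 * ZZ (w i) x v + (-1) * ZZ (w j) x v) :=
      ⟨fun v => ((hzi.1.meas v).const_mul 1).add ((hzj.1.meas v).const_mul (-1)),
        fun v hv => ((hzi.1.int v hv).const_mul 1).add ((hzj.1.int v hv).const_mul (-1))⟩
    have h1 := (T0_E1 hin (e3_lin hzi.2.1 hzj.2.1 1 (-1))).2.2
    have h2 : ip (fun s g => T i s g - T j s g) (fun s g => T i s g - T j s g) =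
        ip (T0 (fun x v => 1 * ZZ (w i) x v + (-1) * ZZ (w j) x v))
          (T0 (fun x v => 1 * ZZ (w i) x v + (-1) * ZZ (w j) x v)) := by
      have h3 : ∀ s : QN N, ∀ᵐ p : ℍ × ℝ ∂muG, T i s (gg p.1 p.2) - T j s (gg p.1 p.2) =
          T0 (fun x v => 1 * ZZ (w i) x v + (-1) * ZZ (w j) x v) s (gg p.1 p.2) := by
        intro s
        filter_upwards [T0_lin hzi.1 hzj.1 1 (-1) s] with p hp
        rw [hp]
        ring
      exact e3_ip_congr h3 h3
    rw [h2]
    refine h1.trans ?_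
    have h4 : nL (fun x v => 1 * ZZ (w i) x v + (-1) * ZZ (w j) x v) ≤
        3 * (nL (fun x v => ZZ (w i) x v - CF F x v) + nL (fun x v => ZZ (w j) x v - CF F x v) +
          nL (fun _ _ => (0 : ℂ)) (N := N)) := by
      refine e3_nL_add3 (e3_sub hzi.2.1 hc) (e3_sub hzj.2.1 hc)
        ⟨fun _ => measurable_const, fun v _ => by simp⟩ fun v _ => Eventually.of_forall fun x => ?_
      have : (1 : ℂ) * ZZ (w i) x v + -1 * ZZ (w j) x v =
        (ZZ (w i) x v - CF F x v) - (ZZ (w j) x v - CF F x v) := by ring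
      rw [this, norm_zero, add_zero]
      exact norm_sub_le _ _
    have h5 : nL (fun _ _ => (0 : ℂ)) (N := N) = 0 := by
      unfold nL
      simp
    have hJ0 : (0 : ℝ) < J := lt_of_le_of_lt (by positivity) hJ
    have h6 : ∀ n : ℕ, J ≤ n → 1 / ((n : ℝ) + 1) ≤ e / 12 := by
      intro n hn
      have : (J : ℝ) ≤ n := Nat.cast_le.2 hn
      rw [div_le_div_iff₀ (by positivity) (by norm_num)]
      rw [div_lt_iff₀ he] at hJ
      nlinarith
    have h7 := h6 i hi
    have h8 := h6 j hj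
    have h9 := hwe i
    have h10 := hwe j
    linarith
  obtain ⟨T', hT', hlim⟩ := SqF_complete T hTs hcau
  -- `D j = T j - T'`
  have hD : ∀ j, SqF (fun s g => 1 * T j s g + (-1) * T' s g) :=
    fun j => SqF_lin (hTs j) hT' 1 (-1)
  have hDe : ∀ j, (fun (s : QN N) (g : SL(2, ℝ)) => (1 : ℂ) * T j s g + (-1) * T' s g) =
      fun s g => T j s g - T' s g := fun j => by
    funext s g
    ring
  -- for every e there is j with everything smaller than e
  have hsmall : ∀ e : ℝ, 0 < e → ∃ j : ℕ, 1 / ((j : ℝ) + 1) < e ∧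
      (ip (fun s g => 1 * T j s g + (-1) * T' s g) (fun s g => 1 * T j s g + (-1) * T' s g)).re
        < e := by
    intro e he
    have h1 : ∀ᶠ j : ℕ in atTop, (ip (fun s g => T j s g - T' s g)
        (fun s g => T j s g - T' s g)).re < e := hlim.eventually_lt_const he
    have h2 : ∀ᶠ j : ℕ in atTop, 1 / ((j : ℝ) + 1) < e :=
      tendsto_one_div_add_atTop_nhds_zero_nat.eventually_lt_const he
    obtain ⟨j, hj1, hj2⟩ := (h1.and h2).exists
    refine ⟨j, hj2, ?_⟩
    rw [hDe]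
    exact hj1
  have hTm' : mean T' = 0 := by
    rw [e3_mean]
    refine e3_lim (K := √(ip (N := N) (fun _ _ => 1) (fun _ _ => 1)).re) fun e he => ?_
    obtain ⟨j, -, hj⟩ := hsmall e he
    have h1 := (ip_cs (hD j) e3_one).2
    have h2 : ip (fun s g => 1 * T j s g + (-1) * T' s g) (fun _ _ => 1) =
        - ip T' (fun _ _ => 1) := by
      rw [e3_ip_lin (hTs j) hT' e3_one, e3_mean.1 (hTm j)]
      ring
    rw [h2, norm_neg] at h1
    have h3 : 0 ≤ (ip (N := N) (fun _ _ => 1) (fun _ _ => 1)).re := by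
      obtain ⟨V, hV, h⟩ := ip_one (N := N)
      rw [h]
      simpa using hV.le
    rw [← Real.sqrt_mul h3, ← Real.sqrt_sq (norm_nonneg (ip T' fun _ _ => 1))]
    apply Real.sqrt_le_sqrt
    refine h1.trans ?_
    rw [mul_comm]
    exact mul_le_mul_of_nonneg_left hj.le h3
  -- the constant term of `T'`
  have hcT' := CF_SqL hT' hTm'
  have hCT : ∀ v ∈ PV N, ∀ᵐ x : ℂ, CF T' x v = 2 * CF F x v := by
    have hs : SqL (fun x v => 1 * CF T' x v + (-2) * CF F x v) := e3_lin hcT'.1 hc 1 (-2)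
    have hz : nL (fun x v => 1 * CF T' x v + (-2) * CF F x v) ≤ 0 := by
      refine le_of_forall_pos_le_add fun e he => ?_
      obtain ⟨j, hj1, hj2⟩ := hsmall (e / 15) (by positivity)
      have hmD : mean (fun s g => 1 * T j s g + (-1) * T' s g) = 0 :=
        e3_mean_lin (hTs j) hT' (hTm j) hTm' 1 (-1)
      have hDj := CF_SqL (hD j) hmD
      have hzj := ZZ_InL (hw j)
      have hlin := CF_lin (hTs j) hT' 1 (-1)
      have h1 := e3_nL_add3 (f := fun x v => 1 * CF T' x v + (-2) * CF F x v) hDj.1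
        (e3_sub hzj.2.1 hc) (e3_sub hzj.2.2.2 hc) (by
          intro v hv
          filter_upwards [hlin, hx0] with x hx hxx
          have h2 := hx v
          have h3 : CF (T j) x v = ZZ (w j) x v + ZZ (hat (w j)) x v := CF_T0 (hw j) hxx hv
          have h4 : (1 : ℂ) * CF T' x v + -2 * CF F x v =
              -(CF (fun s g => 1 * T j s g + (-1) * T' s g) x v) + (ZZ (w j) x v - CF F x v) +
                (ZZ (hat (w j)) x v - CF F x v) := by
            rw [h2, h3]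
            ring
          rw [h4]
          refine (norm_add_le _ _).trans (add_le_add_left ?_ _)
          refine (norm_add_le _ _).trans (add_le_add_left ?_ _)
          rw [norm_neg])
      have h5 := hwe j
      have h6 := hwh j
      have h7 := hDj.2
      linarith
    intro v hv
    filter_upwards [e3_zero hs hz v hv] with x hx
    linear_combination hx
  -- the projection
  refine ⟨fun s g => 1 * F s g + (-(1 / 2)) * T' s g, SqF_lin hF hT' 1 (-(1 / 2)),
    e3_mean_lin hF hT' h0 hTm' 1 (-(1 / 2)), ?_, ?_⟩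
  · have h1 := CF_lin hF hT' 1 (-(1 / 2))
    have h2 : ∀ᵐ x : ℂ, ∀ v ∈ PV N, CF T' x v = 2 * CF F x v :=
      (Finset.eventually_all (PV N)).2 hCT
    filter_upwards [h1, h2] with x hx1 hx2 v hv
    rw [hx1 v, hx2 v hv]
    ring
  · intro F' hF' h0'
    have hcF' := CF_SqL hF' h0'
    have key : ip F' T' = ipL (CF F') (CF F) := by
      rw [← sub_eq_zero]
      set K1 := √(ip F' F').re with hK1
      refine e3_lim (K := K1 + (nL (CF F') + 1)) fun e he => ?_
      obtain ⟨j, hj1, hj2⟩ := hsmall e he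
      have hzj := ZZ_InL (hw j)
      have h1 : ip F' (T j) = ipL (CF F') (ZZ (w j)) := ip_T0_gen hF' h0' hzj.1 hzj.2.1
      have h2 : ip F' T' - ipL (CF F') (CF F) =
          -(ip F' (fun s g => 1 * T j s g + (-1) * T' s g)) +
            ipL (CF F') (fun x v => ZZ (w j) x v - CF F x v) := by
        rw [e3_ip_lin' (hTs j) hT' hF', e3_ipL_sub hcF'.1 hzj.2.1 hc, h1]
        simp only [map_one, map_neg]
        ring
      rw [h2]
      have h3 : ‖ip F' (fun s g => 1 * T j s g + (-1) * T' s g)‖ ≤ K1 * √e := by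
        have h4 := (ip_cs hF' (hD j)).2
        have h5 : 0 ≤ (ip F' F').re := by
          unfold ip
          rw [Complex.re_sum]
          refine Finset.sum_nonneg fun s _ => ?_
          have h6 : ∀ p : ℍ × ℝ, F' s (gg p.1 p.2) * conj (F' s (gg p.1 p.2)) =
              ((‖F' s (gg p.1 p.2)‖ ^ 2 : ℝ) : ℂ) := fun p => by
            rw [Complex.mul_conj, Complex.normSq_eq_norm_sq]
          simp only [h6]
          have h7 : ∫ p : ℍ × ℝ, ((‖F' s (gg p.1 p.2)‖ ^ 2 : ℝ) : ℂ) ∂muG =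
            ((∫ p : ℍ × ℝ, ‖F' s (gg p.1 p.2)‖ ^ 2 ∂muG : ℝ) : ℂ) := integral_ofReal
          rw [h7, Complex.ofReal_re]
          exact integral_nonneg fun p => by positivity
        rw [hK1, ← Real.sqrt_mul h5, ← Real.sqrt_sq (norm_nonneg (ip F' _))]
        apply Real.sqrt_le_sqrt
        exact h4.trans (mul_le_mul_of_nonneg_left hj2.le h5)
      have h7 : ‖ipL (CF F') (fun x v => ZZ (w j) x v - CF F x v)‖ ≤ (nL (CF F') + 1) * √e := by
        have h8 := e3_bound hcF'.1 (e3_sub hzj.2.1 hc) (t := √e) (Real.sqrt_pos.2 he)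
        refine h8.trans ?_
        have h9 : (√e)⁻¹ * nL (fun x v => ZZ (w j) x v - CF F x v) ≤ √e := by
          rw [inv_mul_le_iff₀ (Real.sqrt_pos.2 he), Real.mul_self_sqrt he.le]
          exact ((hwe j).trans hj1).le
        have h10 := e3_nonneg (CF F')
        have h11 := Real.sqrt_nonneg e
        nlinarith [mul_nonneg h10 h11]
      calc ‖-(ip F' (fun s g => 1 * T j s g + (-1) * T' s g)) +
            ipL (CF F') (fun x v => ZZ (w j) x v - CF F x v)‖
          ≤ K1 * √e + (nL (CF F') + 1) * √e := by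
            refine (norm_add_le _ _).trans (add_le_add ?_ h7)
            rw [norm_neg]
            exact h3
        _ = _ := by ring
    have h12 : ip T' F' = ipL (CF F) (CF F') := by
      rw [← e3_ip_conj, key, e3_ipL_conj]
    rw [e3_ip_lin hF hT' hF', h12]
    ring

end Pool.Agent.JO
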