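import Pool.Agent.Lib_helper63.JO.Defs2
import Pool.Agent.Lib_helper63.JOE.CF2
import Pool.Agent.Lib_helper63.JOE.CRD
import Pool.Agent.Lib_helper97.JO.HKN
/-!
# Project JO, part E, block HEC: the constant term of `T_{m²} F`
-/

namespace Pool.Agent.JO

open Complex MeasureTheory Filter Topology UpperHalfPlane ModularGroup
open scoped MatrixGroups Modular ENNReal ComplexConjugate ContDiff

variable {N : ℕ}

/-! ### the matrices -/

theorem hec_hR_apply {m : ℕ} (hm : 0 < m) {t : ℕ × ℕ × ℕ} (ht : t ∈ HM (m ^ 2)) :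
    hR m t 0 0 = t.1 / m ∧ hR m t 0 1 = t.2.1 / m ∧ hR m t 1 0 = 0 ∧ hR m t 1 1 = t.2.2 / m := by
  have h := hk_hR_coe hm ht
  refine ⟨?_, ?_, ?_, ?_⟩
  · show (hR m t : Matrix (Fin 2) (Fin 2) ℝ) 0 0 = _
    rw [h]
    simp [hkd, div_eq_inv_mul]
  · show (hR m t : Matrix (Fin 2) (Fin 2) ℝ) 0 1 = _
    rw [h]
    simp [hkd, div_eq_inv_mul]
  · show (hR m t : Matrix (Fin 2) (Fin 2) ℝ) 1 0 = _
    rw [h]
    simp [hkd]
  · show (hR m t : Matrix (Fin 2) (Fin 2) ℝ) 1 1 = _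
    rw [h]
    simp [hkd, div_eq_inv_mul]

theorem hec_hQ_apply {m : ℕ} (hm : 0 < m) (hmN : m.Coprime N) {t : ℕ × ℕ × ℕ}
    (ht : t ∈ HM (m ^ 2)) :
    hQ N m t 1 0 = 0 ∧ hQ N m t 1 1 = (t.2.2 : ZMod N) * (m : ZMod N)⁻¹ := by
  have h := hk_hQ_coe hm hmN ht
  refine ⟨?_, ?_⟩
  · show (hQ N m t : Matrix (Fin 2) (Fin 2) (ZMod N)) 1 0 = _
    rw [h]
    simp [hkd]
  · show (hQ N m t : Matrix (Fin 2) (Fin 2) (ZMod N)) 1 1 = _
    rw [h]
    simp [hkd, mul_comm]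

/-- the action of `hR` in the coordinates `gx` -/
theorem hec_hR_gx {m : ℕ} (hm : 0 < m) {t : ℕ × ℕ × ℕ} (ht : t ∈ HM (m ^ 2)) {x : ℂ} (hx : x ≠ 0)
    (u : ℝ) : hR m t * gx x u =
      gx ((((t.2.2 : ℝ) / m : ℝ) : ℂ) * x) (((t.1 : ℝ) / t.2.2) * u + (t.2.1 : ℝ) / t.2.2) := by
  have h0 := (hk_mem_HM (pow_pos hm 2) t).1 ht
  obtain ⟨ha, hd, -⟩ := hk_cube (pow_pos hm 2) h0.1 h0.2
  have hm' : (0 : ℝ) < m := by exact_mod_cast hm
  have ha' : (0 : ℝ) < t.1 := by exact_mod_cast ha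
  have hd' : (0 : ℝ) < t.2.2 := by exact_mod_cast hd
  have had : (t.1 : ℝ) * t.2.2 = (m : ℝ) ^ 2 := by exact_mod_cast h0.1
  obtain ⟨r00, r01, r10, r11⟩ := hec_hR_apply hm ht
  obtain ⟨g00, g01, g10, g11⟩ := crd_gx hx u
  have hc : (((t.2.2 : ℝ) / m : ℝ) : ℂ) ≠ 0 := by
    exact_mod_cast (div_pos hd' hm').ne'
  obtain ⟨k00, k01, k10, k11⟩ := crd_gx (mul_ne_zero hc hx)
    (((t.1 : ℝ) / t.2.2) * u + (t.2.1 : ℝ) / t.2.2)
  have hn : Complex.normSq x ≠ 0 := by rwa [Ne, Complex.normSq_eq_zero]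
  rw [Complex.normSq_mul, Complex.normSq_ofReal, Complex.re_ofReal_mul,
    Complex.im_ofReal_mul] at k00 k01
  rw [Complex.re_ofReal_mul] at k10
  rw [Complex.im_ofReal_mul] at k11
  apply crd_ext
  · rw [crd_mul_apply, r00, r01, g00, g10, k00]
    field_simp
    linear_combination (x.im) * had
  · rw [crd_mul_apply, r00, r01, g01, g11, k01]
    field_simp
    linear_combination (-x.re) * had
  · rw [crd_mul_apply, r10, r11, g00, g10, k10]
    ring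
  · rw [crd_mul_apply, r10, r11, g01, g11, k11]
    ring

theorem hec_bot {m : ℕ} (hm : 0 < m) (hmN : m.Coprime N) {t : ℕ × ℕ × ℕ}
    (ht : t ∈ HM (m ^ 2)) (s : QN N) (v : ZMod N × ZMod N) :
    bot s = v ↔ bot (hQ N m t * s) = ((t.2.2 : ZMod N) * (m : ZMod N)⁻¹ * v.1,
      (t.2.2 : ZMod N) * (m : ZMod N)⁻¹ * v.2) := by
  have h0 := (hk_mem_HM (pow_pos hm 2) t).1 ht
  obtain ⟨q10, q11⟩ := hec_hQ_apply hm hmN ht
  have e : ∀ j : Fin 2, (hQ N m t * s) 1 j = (t.2.2 : ZMod N) * (m : ZMod N)⁻¹ * s 1 j := by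
    intro j
    rw [Matrix.SpecialLinearGroup.coe_mul, Matrix.mul_apply, Fin.sum_univ_two, q10, q11, zero_mul,
      zero_add]
  rw [bot, bot, e, e]
  constructor
  · rintro rfl
    rfl
  · intro h
    have hu := hk_unit hmN
    have had : (t.1 : ZMod N) * (t.2.2 : ZMod N) = (m : ZMod N) ^ 2 := by
      exact_mod_cast congrArg (Nat.cast : ℕ → ZMod N) h0.1
    have hc : ∀ a b : ZMod N, (t.2.2 : ZMod N) * (m : ZMod N)⁻¹ * a =
        (t.2.2 : ZMod N) * (m : ZMod N)⁻¹ * b → a = b := by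
      intro a b hab
      have h1 : (t.1 : ZMod N) * (m : ZMod N)⁻¹ * ((t.2.2 : ZMod N) * (m : ZMod N)⁻¹ * a) =
          (t.1 : ZMod N) * (m : ZMod N)⁻¹ * ((t.2.2 : ZMod N) * (m : ZMod N)⁻¹ * b) := by rw [hab]
      have h2 : ∀ c : ZMod N, (t.1 : ZMod N) * (m : ZMod N)⁻¹ *
          ((t.2.2 : ZMod N) * (m : ZMod N)⁻¹ * c) = c := by
        intro c
        calc (t.1 : ZMod N) * (m : ZMod N)⁻¹ * ((t.2.2 : ZMod N) * (m : ZMod N)⁻¹ * c)
            = ((t.1 : ZMod N) * (t.2.2 : ZMod N)) * (m : ZMod N)⁻¹ ^ 2 * c := by ring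
          _ = ((m : ZMod N) * (m : ZMod N)⁻¹) ^ 2 * c := by rw [had]; ring
          _ = c := by rw [hu]; ring
      rwa [h2, h2] at h1
    exact Prod.ext (hc _ _ (congrArg Prod.fst h)) (hc _ _ (congrArg Prod.snd h))

/-! ### periodicity -/

theorem hec_toR_mul (γ δ : SL(2, ℤ)) : toR (γ * δ) = toR γ * toR δ := map_mul _ _ _

theorem hec_shift {F : QN N → SL(2, ℝ) → ℂ} (hF : Fam F) {x : ℂ} (hx : x ≠ 0) (s : QN N) (u : ℝ)
    (j : ℤ) : F s (gx x (u + j)) = F (red N (ModularGroup.T ^ (-j)) * s) (gx x u) := by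
  rw [← gx_T x hx u j]
  have h := hF (ModularGroup.T ^ (-j)) s (toR (ModularGroup.T ^ j) * gx x u)
  have h1 : toR (1 : SL(2, ℤ)) = 1 := map_one _
  rw [← mul_assoc, ← hec_toR_mul, ← zpow_add, neg_add_cancel, zpow_zero, h1, one_mul] at h
  exact h.symm

theorem hec_int [NeZero N] {F : QN N → SL(2, ℝ) → ℂ} (hF : Fam F) {x : ℂ} (hx : x ≠ 0)
    (hi : ∀ s : QN N, IntervalIntegrable (fun t => F s (gx x t)) volume 0 1) (s : QN N) (α β : ℝ) :
    IntervalIntegrable (fun t => F s (gx x t)) volume α β := by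
  have h1 : ∀ j : ℕ, IntervalIntegrable (fun t => F s (gx x t)) volume (j : ℝ) ((j + 1 : ℕ) : ℝ) := by
    intro j
    have h2 := (hi (red N (ModularGroup.T ^ (-(j : ℤ))) * s)).comp_sub_right (j : ℝ)
    rw [zero_add] at h2
    have h3 : (1 : ℝ) + j = ((j + 1 : ℕ) : ℝ) := by push_cast; ring
    rw [h3] at h2
    refine h2.congr ?_
    intro t _
    show F (red N (ModularGroup.T ^ (-(j : ℤ))) * s) (gx x (t - j)) = F s (gx x t)
    have h4 := hec_shift hF hx s (t - j) (j : ℤ)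
    rw [Int.cast_natCast, sub_add_cancel] at h4
    exact h4.symm
  have h2 : IntervalIntegrable (fun t => F s (gx x t)) volume ((0 : ℕ) : ℝ) (N : ℝ) :=
    IntervalIntegrable.trans_iterate fun j _ => h1 j
  have hT : red N (ModularGroup.T ^ (-(N : ℤ))) = 1 := by
    ext i j
    show (((ModularGroup.T ^ (-(N : ℤ))) i j : ℤ) : ZMod N) = (1 : QN N) i j
    rw [ModularGroup.coe_T_zpow]
    fin_cases i <;> fin_cases j <;> simp
  have hper : Function.Periodic (fun t => F s (gx x t)) (N : ℝ) := by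
    intro t
    have h4 := hec_shift hF hx s t (N : ℤ)
    rw [Int.cast_natCast, hT, one_mul] at h4
    exact h4
  have hN : (N : ℝ) ≠ 0 := Nat.cast_ne_zero.2 (NeZero.ne N)
  refine hper.intervalIntegrable hN (t := 0) ?_ α β
  rw [zero_add]
  simpa using h2

theorem hec_comp {g : ℝ → ℂ} (hg : ∀ α β, IntervalIntegrable g volume α β) {c : ℝ} (hc : c ≠ 0)
    (e α β : ℝ) : IntervalIntegrable (fun u => g (c * u + e)) volume α β := by
  have h1 : ∀ α β, IntervalIntegrable (fun w => g (w + e)) volume α β := by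
    intro α β
    have := (hg (α + e) (β + e)).comp_add_right e
    rwa [add_sub_cancel_right, add_sub_cancel_right] at this
  have h2 := (h1 (c * α) (c * β)).comp_mul_left (c := c)
  rwa [mul_div_cancel_left₀ _ hc, mul_div_cancel_left₀ _ hc] at h2

theorem hec_avg {H : ℝ → ℂ} (hper : Function.Periodic H 1)
    (hint : ∀ α β, IntervalIntegrable H volume α β) {a d : ℕ} (ha : 0 < a) (hd : 0 < d) :
    ∑ b ∈ Finset.range d, ∫ u in (0 : ℝ)..1, H (((a : ℝ) / d) * u + (b : ℝ) / d) =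
      d * ∫ u in (0 : ℝ)..1, H u := by
  have ha' : (0 : ℝ) < a := by exact_mod_cast ha
  have hd' : (0 : ℝ) < d := by exact_mod_cast hd
  have hc : (a : ℝ) / d ≠ 0 := (div_pos ha' hd').ne'
  have h1 : ∀ b : ℕ, ∫ u in (0 : ℝ)..1, H (((a : ℝ) / d) * u + (b : ℝ) / d) =
      ((d : ℂ) / a) * ∑ j ∈ Finset.range a, ∫ u in (((b + j : ℕ) : ℝ) / d)..(((b + (j + 1) : ℕ) : ℝ) / d), H u := by
    intro b
    rw [intervalIntegral.integral_comp_mul_add _ hc,
      intervalIntegral.sum_integral_adjacent_intervals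
        (a := fun j : ℕ => (((b + j : ℕ) : ℝ) / d)) fun j _ => hint _ _]
    have e1 : (a : ℝ) / d * 0 + (b : ℝ) / d = ((b + 0 : ℕ) : ℝ) / d := by
      push_cast; ring
    have e2 : (a : ℝ) / d * 1 + (b : ℝ) / d = ((b + a : ℕ) : ℝ) / d := by
      push_cast; ring
    rw [e1, e2, Complex.real_smul]
    congr 1
    push_cast
    rw [inv_div]
  have h2 : ∀ j : ℕ, ∑ b ∈ Finset.range d,
      ∫ u in (((b + j : ℕ) : ℝ) / d)..(((b + (j + 1) : ℕ) : ℝ) / d), H u =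
      ∫ u in (0 : ℝ)..1, H u := by
    intro j
    have h3 := intervalIntegral.sum_integral_adjacent_intervals (f := H) (μ := volume)
      (a := fun b : ℕ => (((b + j : ℕ) : ℝ) / d)) (n := d) fun b _ => hint _ _
    have h4 : ∀ b : ℕ, b + 1 + j = b + (j + 1) := fun b => by ring
    simp only [h4] at h3
    rw [h3]
    have e1 : ((d + j : ℕ) : ℝ) / d = ((0 + j : ℕ) : ℝ) / d + 1 := by
      push_cast
      field_simp
      ring
    rw [e1, hper.intervalIntegral_add_eq _ 0, zero_add]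
  simp_rw [h1]
  rw [← Finset.mul_sum, Finset.sum_comm]
  simp_rw [h2]
  rw [Finset.sum_const, Finset.card_range, nsmul_eq_mul, ← mul_assoc]
  have ha'' : (a : ℂ) ≠ 0 := by exact_mod_cast ha.ne'
  rw [div_mul_cancel₀ _ ha'']

/-! ### the constant term -/

/-- the sum of the components with bottom row `v` -/
noncomputable def hecH [NeZero N] (F : QN N → SL(2, ℝ) → ℂ) (x : ℂ) (v : ZMod N × ZMod N) (w : ℝ) :
    ℂ := ∑ s : QN N, if bot s = v then F s (gx x w) else 0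

theorem hecH_per [NeZero N] {F : QN N → SL(2, ℝ) → ℂ} (hF : Fam F) {x : ℂ} (hx : x ≠ 0)
    (v : ZMod N × ZMod N) : Function.Periodic (hecH F x v) 1 := by
  intro w
  have h1 : ∀ s : QN N, F s (gx x (w + 1)) = F (red N (ModularGroup.T ^ (-(1 : ℤ))) * s) (gx x w) := by
    intro s
    have := hec_shift hF hx s w 1
    rwa [Int.cast_one] at this
  have h2 : ∀ s : QN N, bot (red N (ModularGroup.T ^ (-(1 : ℤ))) * s) = bot s := by
    intro s
    have e : ∀ j : Fin 2, (red N (ModularGroup.T ^ (-(1 : ℤ))) * s) 1 j = s 1 j := by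
      intro j
      rw [Matrix.SpecialLinearGroup.coe_mul, Matrix.mul_apply, Fin.sum_univ_two]
      have e1 : red N (ModularGroup.T ^ (-(1 : ℤ))) 1 0 = 0 := by
        show (((ModularGroup.T ^ (-(1 : ℤ))) 1 0 : ℤ) : ZMod N) = 0
        rw [ModularGroup.coe_T_zpow]
        simp
      have e2 : red N (ModularGroup.T ^ (-(1 : ℤ))) 1 1 = 1 := by
        show (((ModularGroup.T ^ (-(1 : ℤ))) 1 1 : ℤ) : ZMod N) = 1
        rw [ModularGroup.coe_T_zpow]
        simp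
      rw [e1, e2, zero_mul, zero_add, one_mul]
    rw [bot, bot, e, e]
  rw [hecH, hecH, ← Equiv.sum_comp (Equiv.mulLeft (red N (ModularGroup.T ^ (-(1 : ℤ)))))
    (fun s : QN N => if bot s = v then F s (gx x w) else 0)]
  refine Finset.sum_congr rfl fun s _ => ?_
  rw [h1]
  show _ = if bot (red N (ModularGroup.T ^ (-(1 : ℤ))) * s) = v then
    F (red N (ModularGroup.T ^ (-(1 : ℤ))) * s) (gx x w) else 0
  rw [h2]

theorem hecH_int [NeZero N] {F : QN N → SL(2, ℝ) → ℂ}  {x : ℂ}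
    (hi : ∀ (s : QN N) (α β : ℝ), IntervalIntegrable (fun t => F s (gx x t)) volume α β)
    (v : ZMod N × ZMod N) (α β : ℝ) : IntervalIntegrable (hecH F x v) volume α β := by
  have h := IntervalIntegrable.sum Finset.univ (μ := volume) (a := α) (b := β)
    (f := fun (s : QN N) (w : ℝ) => if bot s = v then F s (gx x w) else 0) (by
      intro s _
      by_cases h : bot s = v
      · simp only [if_pos h]
        exact hi s α β
      · simp only [if_neg h]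
        exact intervalIntegrable_const)
  have e : hecH F x v = ∑ s : QN N, fun w : ℝ => if bot s = v then F s (gx x w) else 0 := by
    funext w
    rw [Finset.sum_apply]
    rfl
  rw [e]
  exact h

/-- the integral of `hecH` along an affine map -/
theorem hecH_integral [NeZero N] {F : QN N → SL(2, ℝ) → ℂ}  {x : ℂ}
    (hi : ∀ (s : QN N) (α β : ℝ), IntervalIntegrable (fun t => F s (gx x t)) volume α β)
    (v : ZMod N × ZMod N) {c : ℝ} (hc : c ≠ 0) (e : ℝ) :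
    ∑ s : QN N, (if bot s = v then ∫ u in (0 : ℝ)..1, F s (gx x (c * u + e)) else 0) =
      ∫ u in (0 : ℝ)..1, hecH F x v (c * u + e) := by
  have h1 : ∀ s : QN N, (if bot s = v then ∫ u in (0 : ℝ)..1, F s (gx x (c * u + e)) else 0) =
      ∫ u in (0 : ℝ)..1, if bot s = v then F s (gx x (c * u + e)) else 0 := by
    intro s
    by_cases h : bot s = v
    · simp only [if_pos h]
    · simp only [if_neg h, intervalIntegral.integral_zero]
  simp_rw [h1]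
  rw [← intervalIntegral.integral_finsetSum]
  · rfl
  · intro s _
    by_cases h : bot s = v
    · simp only [if_pos h]
      exact hec_comp (hi s) hc e 0 1
    · simp only [if_neg h]
      exact intervalIntegrable_const

theorem CF_Tm [NeZero N] {F : QN N → SL(2, ℝ) → ℂ} (hF : Fam F) {m : ℕ} (hm : m.Coprime N)
    (h0 : m ≠ 0) {x : ℂ} (hx : x ≠ 0)
    (hi : ∀ (s : QN N) (d : ℕ), d ∣ m ^ 2 →
      IntervalIntegrable (fun t => F s (gx (((d : ℝ) / m : ℝ) * x) t)) volume 0 1)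
    {v : ZMod N × ZMod N} (hv : v ∈ PV N) :
    CF (Tm m F) x v = (m : ℂ)⁻¹ * ∑ d ∈ (m ^ 2).divisors, (d : ℂ) * CF F (((d : ℝ) / m : ℝ) * x)
      ((d : ZMod N) * (m : ZMod N)⁻¹ * v.1, (d : ZMod N) * (m : ZMod N)⁻¹ * v.2) := by
  have hm0 : 0 < m := Nat.pos_of_ne_zero h0
  have hmR : (0 : ℝ) < m := by exact_mod_cast hm0
  have hm2 : 0 < m ^ 2 := pow_pos hm0 2
  -- the points
  have hxd : ∀ d : ℕ, 0 < d → (((d : ℝ) / m : ℝ) : ℂ) * x ≠ 0 := by
    intro d hd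
    have h1 : (0 : ℝ) < (d : ℝ) / m := div_pos (by exact_mod_cast hd) hmR
    exact mul_ne_zero (by exact_mod_cast h1.ne') hx
  have hI : ∀ (s : QN N) (d : ℕ), d ∣ m ^ 2 → ∀ α β : ℝ,
      IntervalIntegrable (fun t => F s (gx (((d : ℝ) / m : ℝ) * x) t)) volume α β := by
    intro s d hd α β
    exact hec_int hF (hxd d (Nat.pos_of_dvd_of_pos hd hm2)) (fun s' => hi s' d hd) s α β
  -- data of an element of `HM`
  have hdata : ∀ t ∈ HM (m ^ 2), 0 < t.1 ∧ 0 < t.2.2 ∧ t.2.2 ∣ m ^ 2 := by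
    intro t ht
    have h1 := (hk_mem_HM hm2 t).1 ht
    obtain ⟨ha, hd, -⟩ := hk_cube hm2 h1.1 h1.2
    exact ⟨ha, hd, Dvd.intro_left _ h1.1⟩
  -- step A
  have hA : ∀ s : QN N, ∫ u in (0 : ℝ)..1, Tm m F s (gx x u) =
      (m : ℂ)⁻¹ * ∑ t ∈ HM (m ^ 2), ∫ u in (0 : ℝ)..1, F (hQ N m t * s)
        (gx ((((t.2.2 : ℝ) / m : ℝ) : ℂ) * x)
          (((t.1 : ℝ) / t.2.2) * u + (t.2.1 : ℝ) / t.2.2)) := by
    intro s
    rw [← intervalIntegral.integral_finsetSum]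
    · rw [← intervalIntegral.integral_const_mul]
      congr 1
      funext u
      rw [Tm]
      congr 1
      refine Finset.sum_congr rfl fun t ht => ?_
      rw [hec_hR_gx hm0 ht hx]
    · intro t ht
      obtain ⟨ha, hd, hdvd⟩ := hdata t ht
      have hc : (t.1 : ℝ) / t.2.2 ≠ 0 :=
        (div_pos (by exact_mod_cast ha : (0 : ℝ) < t.1) (by exact_mod_cast hd)).ne'
      exact hec_comp (hI (hQ N m t * s) t.2.2 hdvd) hc _ 0 1
  -- step B
  have hB : CF (Tm m F) x v = (m : ℂ)⁻¹ * ∑ t ∈ HM (m ^ 2), (N : ℂ)⁻¹ *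
      ∫ u in (0 : ℝ)..1, hecH F ((((t.2.2 : ℝ) / m : ℝ) : ℂ) * x)
        ((t.2.2 : ZMod N) * (m : ZMod N)⁻¹ * v.1, (t.2.2 : ZMod N) * (m : ZMod N)⁻¹ * v.2)
        (((t.1 : ℝ) / t.2.2) * u + (t.2.1 : ℝ) / t.2.2) := by
    have h1 : ∀ t ∈ HM (m ^ 2), ∫ u in (0 : ℝ)..1, hecH F ((((t.2.2 : ℝ) / m : ℝ) : ℂ) * x)
        ((t.2.2 : ZMod N) * (m : ZMod N)⁻¹ * v.1, (t.2.2 : ZMod N) * (m : ZMod N)⁻¹ * v.2)
        (((t.1 : ℝ) / t.2.2) * u + (t.2.1 : ℝ) / t.2.2) =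
        ∑ s : QN N, if bot s = v then ∫ u in (0 : ℝ)..1, F (hQ N m t * s)
        (gx ((((t.2.2 : ℝ) / m : ℝ) : ℂ) * x)
          (((t.1 : ℝ) / t.2.2) * u + (t.2.1 : ℝ) / t.2.2)) else 0 := by
      intro t ht
      obtain ⟨ha, hd, hdvd⟩ := hdata t ht
      have hc : (t.1 : ℝ) / t.2.2 ≠ 0 :=
        (div_pos (by exact_mod_cast ha : (0 : ℝ) < t.1) (by exact_mod_cast hd)).ne'
      rw [← hecH_integral (fun s => hI s t.2.2 hdvd) _ hc,
        ← Equiv.sum_comp (Equiv.mulLeft (hQ N m t))]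
      refine Finset.sum_congr rfl fun s _ => ?_
      show (if bot (hQ N m t * s) = _ then _ else _) = _
      exact if_congr (hec_bot hm0 hm ht s v).symm rfl rfl
    rw [Finset.sum_congr rfl fun t ht => by rw [h1 t ht]]
    rw [CF]
    simp_rw [hA]
    have h2 : ∀ (s : QN N) (I : ℕ × ℕ × ℕ → ℂ),
        (if bot s = v then (m : ℂ)⁻¹ * ∑ t ∈ HM (m ^ 2), I t else 0) =
        (m : ℂ)⁻¹ * ∑ t ∈ HM (m ^ 2), if bot s = v then I t else 0 := by
      intro s I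
      by_cases h : bot s = v
      · simp only [if_pos h]
      · simp only [if_neg h, Finset.sum_const_zero, mul_zero]
    simp_rw [h2]
    rw [← Finset.mul_sum, Finset.sum_comm, ← Finset.mul_sum]
    ring
  rw [hB, hk_HM_sum hm2]
  congr 1
  rw [← Nat.sum_div_divisors (m ^ 2) fun d : ℕ => (d : ℂ) * CF F (((d : ℝ) / m : ℝ) * x)
      ((d : ZMod N) * (m : ZMod N)⁻¹ * v.1, (d : ZMod N) * (m : ZMod N)⁻¹ * v.2)]
  refine Finset.sum_congr rfl fun a ha => ?_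
  rw [Nat.mem_divisors] at ha
  have ha0 : 0 < a := Nat.pos_of_dvd_of_pos ha.1 hm2
  have hd0 : 0 < m ^ 2 / a := Nat.div_pos (Nat.le_of_dvd hm2 ha.1) ha0
  have hdvd : m ^ 2 / a ∣ m ^ 2 := Nat.div_dvd_of_dvd ha.1
  dsimp only
  rw [← Finset.mul_sum, hec_avg (hecH_per hF (hxd _ hd0) _)
    (hecH_int (fun s => hI s _ hdvd) _) ha0 hd0, CF]
  have h3 := hecH_integral (fun s => hI s _ hdvd) (((m ^ 2 / a : ℕ) : ZMod N) * (m : ZMod N)⁻¹ * v.1,
    ((m ^ 2 / a : ℕ) : ZMod N) * (m : ZMod N)⁻¹ * v.2) one_ne_zero 0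
  simp only [one_mul, add_zero] at h3
  rw [h3]
  ring

/-! ### almost everywhere -/

theorem hec_meas {F : QN N → SL(2, ℝ) → ℂ} (hF : MF F) (s : QN N) {x : ℂ} (hx : x ≠ 0) :
    Measurable (fun t : ℝ => F s (gx x t)) := by
  have hxn : 0 < ‖x‖ := norm_pos_iff.2 hx
  have hy : ∀ t : ℝ, 0 < ((t : ℂ) + ((((‖x‖ ^ 2)⁻¹ : ℝ)) : ℂ) * Complex.I).im := by
    intro t
    have : 0 < (‖x‖ ^ 2)⁻¹ := by positivity
    rwa [Complex.add_im, Complex.ofReal_im, Complex.im_ofReal_mul, Complex.I_im, mul_one, zero_add]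
  set a : ℝ := Complex.arg (x / Complex.I) with ha
  have h1 : ∀ t : ℝ, gx x t = gg ⟨(t : ℂ) + ((((‖x‖ ^ 2)⁻¹ : ℝ)) : ℂ) * Complex.I, hy t⟩ a := by
    intro t
    rw [gx_eq_gg]
    have e1 : UpperHalfPlane.im ⟨(t : ℂ) + ((((‖x‖ ^ 2)⁻¹ : ℝ)) : ℂ) * Complex.I, hy t⟩ =
        (‖x‖ ^ 2)⁻¹ := by
      show ((t : ℂ) + ((((‖x‖ ^ 2)⁻¹ : ℝ)) : ℂ) * Complex.I).im = _
      rw [Complex.add_im, Complex.ofReal_im, Complex.im_ofReal_mul, Complex.I_im, mul_one, zero_add]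
    have e2 : UpperHalfPlane.re ⟨(t : ℂ) + ((((‖x‖ ^ 2)⁻¹ : ℝ)) : ℂ) * Complex.I, hy t⟩ = t := by
      show ((t : ℂ) + ((((‖x‖ ^ 2)⁻¹ : ℝ)) : ℂ) * Complex.I).re = _
      rw [Complex.add_re, Complex.ofReal_re, Complex.re_ofReal_mul, Complex.I_re, mul_zero, add_zero]
    have e3 : √((‖x‖ ^ 2)⁻¹) = ‖x‖⁻¹ := by
      rw [Real.sqrt_inv, Real.sqrt_sq hxn.le]
    have e4 : Complex.I * cexp (a * Complex.I) / ((‖x‖⁻¹ : ℝ) : ℂ) = x := by
      have h2 := Complex.norm_mul_exp_arg_mul_I (x / Complex.I)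
      rw [norm_div, Complex.norm_I, div_one, ← ha] at h2
      have h3 : ((‖x‖ : ℝ) : ℂ) ≠ 0 := by exact_mod_cast hxn.ne'
      rw [Complex.ofReal_inv, div_inv_eq_mul]
      calc Complex.I * cexp (a * Complex.I) * ((‖x‖ : ℝ) : ℂ)
          = Complex.I * (((‖x‖ : ℝ) : ℂ) * cexp (a * Complex.I)) := by ring
        _ = Complex.I * (x / Complex.I) := by rw [h2]
        _ = x := by rw [mul_div_cancel₀]; exact Complex.I_ne_zero
    rw [e1, e2, e3, e4]
  have h2 : Continuous fun t : ℝ =>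
      ((⟨(t : ℂ) + ((((‖x‖ ^ 2)⁻¹ : ℝ)) : ℂ) * Complex.I, hy t⟩ : ℍ), a) := by
    refine Continuous.prodMk ?_ continuous_const
    rw [UpperHalfPlane.isOpenEmbedding_coe.isInducing.continuous_iff]
    exact Complex.continuous_ofReal.add continuous_const
  have h3 := (hF.2 s).comp h2.measurable
  have h4 : (fun t : ℝ => F s (gx x t)) = (fun p : ℍ × ℝ => F s (gg p.1 p.2)) ∘ fun t : ℝ =>
      ((⟨(t : ℂ) + ((((‖x‖ ^ 2)⁻¹ : ℝ)) : ℂ) * Complex.I, hy t⟩ : ℍ), a) := by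
    funext t
    rw [Function.comp_apply, h1 t]
  rw [h4]
  exact h3

theorem hec_good [NeZero N] {F : QN N → SL(2, ℝ) → ℂ} (hF : SqF F) :
    ∀ᵐ x : ℂ, ∀ s : QN N, IntervalIntegrable (fun t => F s (gx x t)) volume 0 1 := by
  rw [ae_all_iff]
  intro s
  have h1 : ∀ R : ℕ, ∀ᵐ x : ℂ, x ∈ Metric.closedBall (0 : ℂ) R →
      Integrable (fun t : ℝ => ‖F s (gx x t)‖ ^ 2) (volume.restrict (Set.Ioc (0 : ℝ) 1)) := by
    intro R
    obtain ⟨C, -, hC⟩ := CF_loc (N := N) (R : ℝ)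
    have h2 := ((hC F hF).1 s).prod_right_ae
    rwa [ae_restrict_iff' Metric.isClosed_closedBall.measurableSet] at h2
  have h0 : ∀ᵐ x : ℂ, x ≠ 0 := by
    rw [ae_iff]
    have : {x : ℂ | ¬ x ≠ 0} = {0} := by ext x; simp
    rw [this]
    exact measure_singleton 0
  filter_upwards [ae_all_iff.2 h1, h0] with x hx hx0
  obtain ⟨R, hR⟩ := exists_nat_ge ‖x‖
  have h2 := hx R (by rwa [mem_closedBall_zero_iff])
  rw [intervalIntegrable_iff_integrableOn_Ioc_of_le zero_le_one, IntegrableOn]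
  have h3 : AEStronglyMeasurable (fun t : ℝ => F s (gx x t)) (volume.restrict (Set.Ioc (0 : ℝ) 1)) :=
    (hec_meas hF.mf s hx0).aestronglyMeasurable
  have h4 : MemLp (fun t : ℝ => F s (gx x t)) 2 (volume.restrict (Set.Ioc (0 : ℝ) 1)) :=
    (memLp_two_iff_integrable_sq_norm h3).2 h2
  exact h4.integrable one_le_two

theorem hec_scale {P : ℂ → Prop} (h : ∀ᵐ x : ℂ, P x) {c : ℝ} (hc : c ≠ 0) :
    ∀ᵐ x : ℂ, P ((c : ℂ) * x) := by
  rw [ae_iff] at h ⊢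
  have h1 : {x : ℂ | ¬ P ((c : ℂ) * x)} = (fun x : ℂ => c • x) ⁻¹' {x : ℂ | ¬ P x} := by
    ext x
    simp [Complex.real_smul]
  rw [h1, Measure.addHaar_preimage_smul volume hc, h, mul_zero]

theorem CF_Tm_ae [NeZero N] {F : QN N → SL(2, ℝ) → ℂ} (hF : SqF F) {m : ℕ} (hm : m.Coprime N)
    (h0 : m ≠ 0) : ∀ᵐ x : ℂ, ∀ v ∈ PV N,
    CF (Tm m F) x v = (m : ℂ)⁻¹ * ∑ d ∈ (m ^ 2).divisors, (d : ℂ) * CF F (((d : ℝ) / m : ℝ) * x)
      ((d : ZMod N) * (m : ZMod N)⁻¹ * v.1, (d : ZMod N) * (m : ZMod N)⁻¹ * v.2) := by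
  have hm0 : 0 < m := Nat.pos_of_ne_zero h0
  have hmR : (0 : ℝ) < m := by exact_mod_cast hm0
  have hm2 : 0 < m ^ 2 := pow_pos hm0 2
  have hg := hec_good hF
  have h1 : ∀ᵐ x : ℂ, ∀ d ∈ ((m ^ 2).divisors : Set ℕ), ∀ s : QN N,
      IntervalIntegrable (fun t => F s (gx (((d : ℝ) / m : ℝ) * x) t)) volume 0 1 := by
    rw [ae_ball_iff (Finset.countable_toSet _)]
    intro d hd
    have hd' := Nat.mem_divisors.1 (Finset.mem_coe.1 hd)
    have hd0 : 0 < d := Nat.pos_of_dvd_of_pos hd'.1 hm2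
    have hc : (d : ℝ) / m ≠ 0 := (div_pos (by exact_mod_cast hd0 : (0 : ℝ) < d) hmR).ne'
    exact hec_scale hg hc
  have h2 : ∀ᵐ x : ℂ, x ≠ 0 := by
    rw [ae_iff]
    have : {x : ℂ | ¬ x ≠ 0} = {0} := by ext x; simp
    rw [this]
    exact measure_singleton 0
  filter_upwards [h1, h2] with x hx hx0 v hv
  refine CF_Tm hF.mf.1 hm h0 hx0 (fun s d hd => ?_) hv
  exact hx d (Finset.mem_coe.2 (Nat.mem_divisors.2 ⟨hd, hm2.ne'⟩)) s

end Pool.Agent.JO
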