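import Pool.Agent.Lib_helper63.JO.Defs2
import Pool.Agent.Lib_helper63.JOE.CRD
/-!
# Part E, block RA1: families on the upper half plane
-/

namespace Pool.Agent.JO

open Complex MeasureTheory Filter Topology UpperHalfPlane ModularGroup
open scoped MatrixGroups Modular ENNReal ComplexConjugate ContDiff

variable {N : ℕ}

theorem ra1_liftH_gg (f : QN N → ℍ → ℂ) (s : QN N) (z : ℍ) (a : ℝ) :
    liftH f s (gg z a) = f s z := by
  unfold liftH
  rw [gg_I]

theorem ra1_fam {f : QN N → ℍ → ℂ} (hf : FamH f) : Fam (liftH f) := by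
  intro γ s g
  unfold liftH
  rw [mul_smul]
  exact hf γ s _

theorem ra1_ip [NeZero N] (f f' : QN N → ℍ → ℂ) :
    ip (liftH f) (liftH f') = 2 * Real.pi * ipH f f' := by
  unfold ip ipH
  rw [Finset.mul_sum]
  refine Finset.sum_congr rfl fun s _ => ?_
  simp only [ra1_liftH_gg]
  unfold muG
  have h := integral_fun_fst (μ := volume.restrict (𝒟ᵒ : Set ℍ))
    (ν := (volume : Measure ℝ).restrict (Set.Ioc 0 (2 * Real.pi)))
    (fun z : ℍ => f s z * conj (f' s z))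
  rw [h]
  have h2 : ((volume : Measure ℝ).restrict (Set.Ioc 0 (2 * Real.pi))).real Set.univ =
      2 * Real.pi := by
    rw [measureReal_restrict_apply_univ, Real.volume_real_Ioc_of_le (by positivity)]
    ring
  rw [h2, Complex.real_smul]
  push_cast
  ring

theorem liftH_sq [NeZero N] {f : QN N → ℍ → ℂ} (hf : SqH f) :
    SqF (liftH f) ∧ mean (liftH f) = meanH f ∧
      ∀ f' : QN N → ℍ → ℂ, SqH f' → ip (liftH f) (liftH f') = 2 * Real.pi * ipH f f' := by
  refine ⟨⟨⟨ra1_fam hf.fam, fun s => ?_⟩, fun s => ?_⟩, ?_, fun f' _ => ra1_ip f f'⟩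
  · simp only [ra1_liftH_gg]
    exact (hf.meas s).comp measurable_fst
  · simp only [ra1_liftH_gg]
    exact Integrable.comp_fst (hf.sq s) _
  · unfold mean meanH
    have h1 : (fun (_ : QN N) (_ : SL(2, ℝ)) => (1 : ℂ)) =
        liftH (fun (_ : QN N) (_ : ℍ) => (1 : ℂ)) := rfl
    rw [h1, ra1_ip, ra1_ip]
    have h2 : (2 * (Real.pi : ℂ)) ≠ 0 := by
      exact_mod_cast (by positivity : (2 * Real.pi : ℝ) ≠ 0)
    exact mul_div_mul_left _ _ h2

theorem ra1_gx_I {x : ℂ} (hx : x ≠ 0) (t : ℝ) : gx x t • UpperHalfPlane.I =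
    UpperHalfPlane.ofComplex (t + ((Complex.normSq x)⁻¹ : ℝ) * Complex.I) := by
  have hn : 0 < Complex.normSq x := Complex.normSq_pos.2 hx
  have him : 0 < ((t : ℂ) + ((Complex.normSq x)⁻¹ : ℝ) * Complex.I).im := by
    simp [hn]
  set z : ℍ := ⟨(t : ℂ) + ((Complex.normSq x)⁻¹ : ℝ) * Complex.I, him⟩ with hz
  have hzim : z.im = (Complex.normSq x)⁻¹ := by
    show ((t : ℂ) + ((Complex.normSq x)⁻¹ : ℝ) * Complex.I).im = _
    simp
  have hzre : z.re = t := by
    show ((t : ℂ) + ((Complex.normSq x)⁻¹ : ℝ) * Complex.I).re = _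
    simp
  have hsq : (√z.im : ℝ) = ‖x‖⁻¹ := by
    rw [hzim, Complex.normSq_eq_norm_sq, ← inv_pow, Real.sqrt_sq (by positivity)]
  have h := gx_eq_gg z (Complex.arg (-(Complex.I * x)))
  have hx2 : Complex.I * cexp ((Complex.arg (-(Complex.I * x)) : ℝ) * Complex.I) /
      ((√z.im : ℝ) : ℂ) = x := by
    have h1 := Complex.norm_mul_exp_arg_mul_I (-(Complex.I * x))
    have h2 : ‖-(Complex.I * x)‖ = ‖x‖ := by simp
    rw [h2] at h1
    have h3 : (‖x‖ : ℂ) ≠ 0 := by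
      exact_mod_cast norm_ne_zero_iff.2 hx
    rw [hsq]
    push_cast
    rw [div_inv_eq_mul, mul_assoc, mul_comm (cexp _) _, h1]
    linear_combination (-x) * Complex.I_sq
  rw [hx2, hzre] at h
  rw [← h, gg_I]
  rw [UpperHalfPlane.ofComplex_apply_of_im_pos him]

theorem CF_liftH [NeZero N] (f : QN N → ℍ → ℂ) {x : ℂ} (hx : x ≠ 0) (v : ZMod N × ZMod N) :
    CF (liftH f) x v = cH f v (Complex.normSq x)⁻¹ := by
  unfold CF cH liftH
  simp only [ra1_gx_I hx]

theorem ra1_rad (h : ℝ → ℂ) : ∫ x : ℂ, h (Complex.normSq x)⁻¹ =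
    Real.pi * ∫ y in Set.Ioi (0 : ℝ), h y / (y : ℂ) ^ 2 := by
  have h1 := integral_fun_norm_addHaar (volume : Measure ℂ) (fun r : ℝ => h (r ^ 2)⁻¹)
  have h0 : ∀ x : ℂ, h (Complex.normSq x)⁻¹ = h (‖x‖ ^ 2)⁻¹ := fun x => by
    rw [Complex.normSq_eq_norm_sq]
  simp only [h0]
  rw [h1, Complex.finrank_real_complex]
  have h2 : (volume : Measure ℂ).real (Metric.ball 0 1) = Real.pi := by
    rw [measureReal_def, Complex.volume_ball]
    simp
  rw [h2]
  have h3 := integral_comp_rpow_Ioi (fun y : ℝ => h y / (y : ℂ) ^ 2) (p := -2) (by norm_num)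
  rw [← h3]
  rw [← integral_const_mul]
  rw [nsmul_eq_mul, ← Complex.coe_smul, smul_eq_mul, ← integral_const_mul, ← integral_const_mul]
  refine setIntegral_congr_fun measurableSet_Ioi fun r hr => ?_
  have hr0 : (0 : ℝ) < r := hr
  have e1 : r ^ (-2 : ℝ) = (r ^ 2)⁻¹ := by
    rw [Real.rpow_neg hr0.le]
    norm_num
  have e2 : r ^ (-2 - 1 : ℝ) = (r ^ 3)⁻¹ := by
    rw [show (-2 - 1 : ℝ) = -(3 : ℕ) by norm_num, Real.rpow_neg hr0.le, Real.rpow_natCast]
  have e3 : |(-2 : ℝ)| = 2 := by norm_num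
  simp only [e1, e2, e3]
  rw [Complex.real_smul, Complex.real_smul]
  have hrc : (r : ℂ) ≠ 0 := by exact_mod_cast hr0.ne'
  push_cast
  field_simp

theorem ipL_rad [NeZero N] (c c' : ZMod N × ZMod N → ℝ → ℂ) :
    ipL (fun x v => c v (Complex.normSq x)⁻¹) (fun x v => c' v (Complex.normSq x)⁻¹) =
      2 * Real.pi * N * ∑ v ∈ PV N, ∫ y in Set.Ioi (0 : ℝ), c v y * conj (c' v y) / (y : ℂ) ^ 2 := by
  unfold ipL
  have h : ∀ v, ∫ x : ℂ, c v (Complex.normSq x)⁻¹ * conj (c' v (Complex.normSq x)⁻¹) =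
      Real.pi * ∫ y in Set.Ioi (0 : ℝ), c v y * conj (c' v y) / (y : ℂ) ^ 2 := fun v =>
    ra1_rad (fun y => c v y * conj (c' v y))
  simp only [h]
  rw [← Finset.mul_sum]
  ring

end Pool.Agent.JO
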