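import Pool.Agent.Lib_helper63.JO.Defs2
import Pool.Agent.Lib_helper63.JOE.CF2
import Pool.Agent.Lib_helper63.JOE.CRD
import Pool.Agent.Lib_helper63.JOE.E3
import Pool.Agent.Lib_helper63.JOE.HI1
import Pool.Agent.Lib_helper63.JOE.RA1
/-!
# Block RA2: averaging over the circle
(besides the blocks under `uses` this file cites `CF_loc` of block CF2)
-/

namespace Pool.Agent.JO

open Complex MeasureTheory Filter Topology UpperHalfPlane ModularGroup
open scoped MatrixGroups Modular ENNReal ComplexConjugate ContDiff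

variable {N : ℕ}

/-! ## the average -/

/-- the average over the circle -/
noncomputable def ra2_g (G : QN N → SL(2, ℝ) → ℂ) (s : QN N) (z : ℍ) : ℂ :=
  ((1 / (2 * Real.pi) : ℝ) : ℂ) * ∫ a in (0 : ℝ)..(2 * Real.pi), G s (gg z a)

theorem ra2_per (G : QN N → SL(2, ℝ) → ℂ) (s : QN N) (z : ℍ) :
    Function.Periodic (fun a => G s (gg z a)) (2 * Real.pi) := by
  intro a
  show G s (gg z (a + 2 * Real.pi)) = G s (gg z a)
  rw [(gg_per z a).1]

theorem ra2_fam {G : QN N → SL(2, ℝ) → ℂ} (hG : Fam G) : FamH (ra2_g G) := by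
  intro γ s z
  unfold ra2_g
  congr 1
  obtain ⟨b, hb⟩ := gg_mul (toR γ) z
  have h1 : ∀ a, G s (gg z a) = G (red N γ * s) (gg (γ • z) (a + b)) := by
    intro a
    rw [← hG γ s (gg z a), hb a]
    rfl
  have h2 := (ra2_per G (red N γ * s) (γ • z)).intervalIntegral_add_eq 0 b
  rw [zero_add] at h2
  rw [h2]
  have h3 : ∫ a in (0 : ℝ)..(2 * Real.pi), G s (gg z a) =
      ∫ a in (0 : ℝ)..(2 * Real.pi), G (red N γ * s) (gg (γ • z) (a + b)) :=
    intervalIntegral.integral_congr fun a _ => h1 a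
  rw [h3, intervalIntegral.integral_comp_add_right
    (fun a => G (red N γ * s) (gg (γ • z) a)) b, zero_add, add_comm b]

theorem ra2_g_eq (G : QN N → SL(2, ℝ) → ℂ) (s : QN N) (z : ℍ) :
    ra2_g G s z = ((1 / (2 * Real.pi) : ℝ) : ℂ) *
      ∫ a, G s (gg z a) ∂(volume.restrict (Set.Ioc 0 (2 * Real.pi))) := by
  unfold ra2_g
  rw [intervalIntegral.integral_of_le (by positivity)]

theorem ra2_meas {G : QN N → SL(2, ℝ) → ℂ} (hG : MF G) (s : QN N) : Measurable (ra2_g G s) := by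
  have h1 : Measurable (fun z : ℍ => ∫ a, G s (gg z a)
      ∂(volume.restrict (Set.Ioc 0 (2 * Real.pi)))) :=
    ((hG.2 s).stronglyMeasurable.integral_prod_right
      (ν := volume.restrict (Set.Ioc 0 (2 * Real.pi)))).measurable
  have h2 : ra2_g G s = fun z => ((1 / (2 * Real.pi) : ℝ) : ℂ) *
      ∫ a, G s (gg z a) ∂(volume.restrict (Set.Ioc 0 (2 * Real.pi))) :=
    funext fun z => ra2_g_eq G s z
  rw [h2]
  exact h1.const_mul _

theorem ra2_cs {β : Type} [MeasurableSpace β] (μ : Measure β) {f : β → ℂ} (hf : Measurable f) :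
    ‖∫ a, f a ∂μ‖ₑ ^ 2 ≤ μ Set.univ * ∫⁻ a, ‖f a‖ₑ ^ 2 ∂μ := by
  have h1 : ‖∫ a, f a ∂μ‖ₑ ≤ ∫⁻ a, ‖f a‖ₑ ∂μ := enorm_integral_le_lintegral_enorm f
  have h2 := ENNReal.lintegral_mul_le_Lp_mul_Lq μ Real.HolderConjugate.two_two
    (f := fun a => ‖f a‖ₑ) (g := fun _ => 1) hf.enorm.aemeasurable aemeasurable_const
  have h3 : ∫⁻ a, ((fun a => ‖f a‖ₑ) * (fun _ => (1 : ℝ≥0∞)) : β → ℝ≥0∞) a ∂μ =
      ∫⁻ a, ‖f a‖ₑ ∂μ := by
    congr 1
    funext a
    show ‖f a‖ₑ * 1 = _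
    rw [mul_one]
  rw [h3] at h2
  have h4 : ∫⁻ a, ‖f a‖ₑ ^ (2 : ℝ) ∂μ = ∫⁻ a, ‖f a‖ₑ ^ 2 ∂μ := by
    congr 1
    funext a
    rw [ENNReal.rpow_two]
  have h5 : ∫⁻ _, (1 : ℝ≥0∞) ^ (2 : ℝ) ∂μ = μ Set.univ := by
    simp
  rw [h4, h5] at h2
  have h6 : ∀ x : ℝ≥0∞, (x ^ (1 / (2 : ℝ))) ^ 2 = x := by
    intro x
    rw [← ENNReal.rpow_natCast, ← ENNReal.rpow_mul]
    norm_num
  calc ‖∫ a, f a ∂μ‖ₑ ^ 2 ≤ (∫⁻ a, ‖f a‖ₑ ∂μ) ^ 2 := pow_le_pow_left' h1 2
    _ ≤ ((∫⁻ a, ‖f a‖ₑ ^ 2 ∂μ) ^ (1 / (2 : ℝ)) * (μ Set.univ) ^ (1 / (2 : ℝ))) ^ 2 :=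
        pow_le_pow_left' h2 2
    _ = μ Set.univ * ∫⁻ a, ‖f a‖ₑ ^ 2 ∂μ := by
        rw [mul_pow, h6, h6, mul_comm]

theorem ra2_sqe (z : ℂ) : ‖(‖z‖ ^ 2 : ℝ)‖ₑ = ‖z‖ₑ ^ 2 := by
  rw [Real.enorm_of_nonneg (by positivity), ENNReal.ofReal_pow (norm_nonneg z), ofReal_norm]

theorem ra2_sqH [NeZero N] {G : QN N → SL(2, ℝ) → ℂ} (hG : SqF G) : SqH (ra2_g G) := by
  refine ⟨ra2_fam hG.mf.1, ra2_meas hG.mf, fun s => ?_⟩
  refine ⟨((ra2_meas hG.mf s).norm.pow_const 2).aestronglyMeasurable, ?_⟩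
  rw [hasFiniteIntegral_iff_enorm]
  simp only [ra2_sqe]
  obtain ⟨K, hK⟩ : ∃ K : ℝ≥0∞, K = ‖((1 / (2 * Real.pi) : ℝ) : ℂ)‖ₑ ^ 2 *
    (volume.restrict (Set.Ioc 0 (2 * Real.pi)) : Measure ℝ) Set.univ := ⟨_, rfl⟩
  have hK' : K ≠ ⊤ := by
    rw [hK]
    refine ENNReal.mul_ne_top (ENNReal.pow_ne_top enorm_ne_top) ?_
    rw [Measure.restrict_apply_univ, Real.volume_Ioc]
    exact ENNReal.ofReal_ne_top
  have h1 : ∀ z : ℍ, ‖ra2_g G s z‖ₑ ^ 2 ≤ K * ∫⁻ a, ‖G s (gg z a)‖ₑ ^ 2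
      ∂(volume.restrict (Set.Ioc 0 (2 * Real.pi))) := by
    intro z
    have hm : Measurable (fun a : ℝ => G s (gg z a)) :=
      (hG.mf.2 s).comp (measurable_const.prodMk measurable_id)
    rw [ra2_g_eq, enorm_mul, mul_pow, hK, mul_assoc]
    exact mul_le_mul_right (ra2_cs _ hm) _
  have h2 : ∫⁻ z in (𝒟ᵒ : Set ℍ), ‖ra2_g G s z‖ₑ ^ 2 ≤
      K * ∫⁻ p : ℍ × ℝ, ‖G s (gg p.1 p.2)‖ₑ ^ 2 ∂muG := by
    have hm2 : Measurable (fun p : ℍ × ℝ => ‖G s (gg p.1 p.2)‖ₑ ^ 2) :=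
      (hG.mf.2 s).enorm.pow_const 2
    unfold muG
    rw [lintegral_prod _ hm2.aemeasurable, ← lintegral_const_mul']
    · exact lintegral_mono fun z => h1 z
    · exact hK'
  refine lt_of_le_of_lt h2 (ENNReal.mul_lt_top hK'.lt_top ?_)
  have h3 := (hG.sq s).2
  rw [hasFiniteIntegral_iff_enorm] at h3
  simp only [ra2_sqe] at h3
  exact h3

theorem ra2_ip [NeZero N] {G : QN N → SL(2, ℝ) → ℂ} (hG : SqF G) {f' : QN N → ℍ → ℂ}
    (hf : SqH f') : ip G (liftH f') = 2 * Real.pi * ipH (ra2_g G) f' := by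
  unfold ip ipH
  rw [Finset.mul_sum]
  refine Finset.sum_congr rfl fun s _ => ?_
  have hi := (ip_cs hG (liftH_sq hf).1).1 s
  have hl : ∀ z a, liftH f' s (gg z a) = f' s z := by
    intro z a
    show f' s (gg z a • UpperHalfPlane.I) = f' s z
    rw [gg_I]
  simp only [hl] at hi ⊢
  unfold muG at hi ⊢
  rw [integral_prod _ hi, ← integral_const_mul]
  congr 1
  funext z
  show ∫ a, G s (gg z a) * conj (f' s z) ∂(volume.restrict (Set.Ioc 0 (2 * Real.pi))) = _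
  rw [ra2_g_eq, integral_mul_const]
  have hpi : (Real.pi : ℂ) ≠ 0 := by exact_mod_cast Real.pi_ne_zero
  push_cast
  field_simp

/-! ## the mean value -/

theorem ra2_fin : IsFiniteMeasure (volume.restrict (𝒟ᵒ : Set ℍ)) := by
  obtain ⟨V, hV, h⟩ := ip_one (N := 1)
  have h0 : ip (N := 1) (fun _ _ => 1) (fun _ _ => 1) =
      ∑ s : QN 1, ∫ p : ℍ × ℝ, (1 : ℂ) ∂muG := by
    unfold ip
    refine Finset.sum_congr rfl fun s _ => ?_
    congr 1
    funext p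
    rw [map_one, mul_one]
  rw [h0] at h
  simp only [integral_const] at h
  have h1 : muG Set.univ ≠ ⊤ := by
    intro h1
    have h3 : muG.real Set.univ = 0 := by
      rw [Measure.real, h1, ENNReal.toReal_top]
    rw [h3] at h
    have h4 : ((V : ℝ) : ℂ) = 0 := by
      rw [← h]
      simp
    exact hV.ne' (ofReal_eq_zero.1 h4)
  refine ⟨lt_top_iff_ne_top.2 fun h2 => h1 ?_⟩
  unfold muG
  rw [← Set.univ_prod_univ, Measure.prod_prod, h2, Measure.restrict_apply_univ, Real.volume_Ioc]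
  refine ENNReal.top_mul ?_
  rw [sub_zero]
  exact (ENNReal.ofReal_pos.2 (by positivity)).ne'

theorem ra2_one [NeZero N] : SqH (fun (_ : QN N) (_ : ℍ) => (1 : ℂ)) := by
  have := ra2_fin
  refine ⟨fun γ s z => rfl, fun s => measurable_const, fun s => ?_⟩
  exact integrable_const _

theorem ra2_mean [NeZero N] {G : QN N → SL(2, ℝ) → ℂ} (hG : SqF G) :
    meanH (ra2_g G) = mean G := by
  have h1 := ra2_ip hG (ra2_one (N := N))
  have h2 := (liftH_sq (ra2_one (N := N))).2.2 _ (ra2_one (N := N))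
  have h3 : liftH (fun (_ : QN N) (_ : ℍ) => (1 : ℂ)) = fun _ _ => 1 := rfl
  rw [h3] at h1 h2
  unfold mean meanH
  rw [h1, h2, mul_div_mul_left]
  exact mul_ne_zero two_ne_zero (by exact_mod_cast Real.pi_ne_zero)

/-! ## polar coordinates -/

/-- the point `r e^{iθ}` -/
noncomputable def ra2_pt (r θ : ℝ) : ℂ := (r : ℂ) * (((Real.cos θ : ℝ) : ℂ) +
  ((Real.sin θ : ℝ) : ℂ) * Complex.I)

theorem ra2_pt_norm {r : ℝ} (hr : 0 < r) (θ : ℝ) : ‖ra2_pt r θ‖ = r := by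
  unfold ra2_pt
  rw [norm_mul, Complex.norm_real, Real.norm_of_nonneg hr.le, Complex.ofReal_cos,
    Complex.ofReal_sin, Complex.norm_cos_add_sin_mul_I, mul_one]

theorem ra2_pt_ne {r : ℝ} (hr : 0 < r) (θ : ℝ) : ra2_pt r θ ≠ 0 := by
  intro h
  have := ra2_pt_norm hr θ
  rw [h, norm_zero] at this
  exact hr.ne this

theorem ra2_pt_cont : Continuous (fun q : ℝ × ℝ => ra2_pt q.1 q.2) := by
  unfold ra2_pt
  fun_prop

theorem ra2_polar (h : ℂ → ℝ≥0∞) (hm : Measurable h) : ∫⁻ x, h x =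
    ∫⁻ r, ENNReal.ofReal r * (∫⁻ θ, h (ra2_pt r θ)
      ∂(volume.restrict (Set.Ioo (-Real.pi) Real.pi))) ∂(volume.restrict (Set.Ioi 0)) := by
  have hm2 : Measurable (fun q : ℝ × ℝ => h (ra2_pt q.1 q.2)) :=
    hm.comp ra2_pt_cont.measurable
  rw [← Complex.lintegral_comp_polarCoord_symm]
  have h1 : polarCoord.target = Set.Ioi (0 : ℝ) ×ˢ Set.Ioo (-Real.pi) Real.pi := rfl
  rw [h1, Measure.volume_eq_prod, ← Measure.prod_restrict, lintegral_prod]
  · refine lintegral_congr fun r => ?_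
    rw [← lintegral_const_mul]
    · refine lintegral_congr fun θ => ?_
      rw [Complex.polarCoord_symm_apply]
      rfl
    · exact hm2.comp (measurable_const.prodMk measurable_id)
  · refine Measurable.aemeasurable ?_
    have h2 : (fun q : ℝ × ℝ => ENNReal.ofReal q.1 • h (Complex.polarCoord.symm q)) =
        fun q : ℝ × ℝ => ENNReal.ofReal q.1 * h (ra2_pt q.1 q.2) := by
      funext q
      rw [Complex.polarCoord_symm_apply]
      rfl
    rw [h2]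
    exact (ENNReal.measurable_ofReal.comp measurable_fst).mul hm2

theorem ra2_polar_meas (h : ℂ → ℝ≥0∞) (hm : Measurable h) : Measurable (fun r : ℝ =>
    ENNReal.ofReal r * (∫⁻ θ, h (ra2_pt r θ)
      ∂(volume.restrict (Set.Ioo (-Real.pi) Real.pi)))) :=
  ENNReal.measurable_ofReal.mul ((hm.comp ra2_pt_cont.measurable).lintegral_prod_right')

theorem ra2_polar_top (h : ℂ → ℝ≥0∞) (hm : Measurable h) (hfin : ∫⁻ x, h x ≠ ⊤) :
    ∀ᵐ r ∂(volume.restrict (Set.Ioi (0 : ℝ))), ∫⁻ θ, h (ra2_pt r θ)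
      ∂(volume.restrict (Set.Ioo (-Real.pi) Real.pi)) ≠ ⊤ := by
  rw [ra2_polar h hm] at hfin
  have h1 := ae_lt_top (ra2_polar_meas h hm) hfin
  filter_upwards [h1, ae_restrict_mem measurableSet_Ioi] with r hr hr0
  intro htop
  rw [htop, ENNReal.mul_top (ENNReal.ofReal_pos.2 hr0).ne'] at hr
  exact lt_irrefl _ hr

theorem ra2_polar_zero (h : ℂ → ℝ≥0∞) (hm : Measurable h) (h0 : ∫⁻ x, h x = 0) :
    ∀ᵐ r ∂(volume.restrict (Set.Ioi (0 : ℝ))), ∫⁻ θ, h (ra2_pt r θ)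
      ∂(volume.restrict (Set.Ioo (-Real.pi) Real.pi)) = 0 := by
  rw [ra2_polar h hm, lintegral_eq_zero_iff (ra2_polar_meas h hm)] at h0
  filter_upwards [h0, ae_restrict_mem measurableSet_Ioi] with r hr hr0
  rcases mul_eq_zero.1 hr with h1 | h1
  · exact absurd h1 (ENNReal.ofReal_pos.2 hr0).ne'
  · exact h1

/-- transfer from the radius to `y = r⁻²` -/
theorem ra2_transfer {Q : ℝ → Prop} (h : ∀ᵐ r ∂(volume.restrict (Set.Ioi (0 : ℝ))), Q r) :
    ∀ᵐ y ∂(volume.restrict (Set.Ioi (0 : ℝ))), Q (1 / √y) := by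
  rw [ae_restrict_iff' measurableSet_Ioi] at h ⊢
  rw [ae_iff] at h ⊢
  have h1 : DifferentiableOn ℝ (fun r : ℝ => (r ^ 2)⁻¹)
      {r | ¬ (r ∈ Set.Ioi (0 : ℝ) → Q r)} := by
    intro r hr
    have hr' : r ∈ Set.Ioi (0 : ℝ) := (not_forall.1 hr).1
    have hr0 : r ≠ 0 := (Set.mem_Ioi.1 hr').ne'
    have h2 : DifferentiableAt ℝ (fun r : ℝ => (r ^ 2)⁻¹) r :=
      (differentiableAt_id.pow 2).inv (pow_ne_zero 2 hr0)
    exact h2.differentiableWithinAt
  have h2 := addHaar_image_eq_zero_of_differentiableOn_of_addHaar_eq_zero volume h1 h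
  refine measure_mono_null ?_ h2
  intro y hy
  obtain ⟨hy1, hy2⟩ := not_forall.1 hy
  have hy0 : 0 < y := hy1
  refine ⟨1 / √y, not_forall.2 ⟨?_, hy2⟩, ?_⟩
  · exact Set.mem_Ioi.2 (one_div_pos.2 (Real.sqrt_pos.2 hy0))
  · show ((1 / √y) ^ 2)⁻¹ = y
    rw [one_div, inv_pow, inv_inv, Real.sq_sqrt hy0.le]

/-! ## a measurable version of `G s (gx x t)` -/

/-- the point `t + i/|x|²` -/
noncomputable def ra2_z (x : ℂ) (t : ℝ) : ℍ :=
  ⟨(t : ℂ) + ((if x = 0 then 1 else (Complex.normSq x)⁻¹ : ℝ) : ℂ) * Complex.I, by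
    have h : (0 : ℝ) < if x = 0 then 1 else (Complex.normSq x)⁻¹ := by
      split_ifs with h
      · exact one_pos
      · exact inv_pos.2 (Complex.normSq_pos.2 h)
    simpa using h⟩

theorem ra2_z_meas : Measurable (fun q : ℂ × ℝ => ra2_z q.1 q.2) := by
  rw [← measurableEmbedding_coe.measurable_comp_iff]
  have h1 : Measurable (fun q : ℂ × ℝ => (if q.1 = 0 then (1 : ℝ) else (Complex.normSq q.1)⁻¹)) := by
    refine Measurable.ite ?_ measurable_const ?_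
    · exact measurable_fst (measurableSet_singleton (0 : ℂ))
    · exact ((Complex.continuous_normSq.measurable.comp measurable_fst)).inv
  have h2 : Measurable (fun q : ℂ × ℝ => ((q.2 : ℝ) : ℂ) +
      (((if q.1 = 0 then (1 : ℝ) else (Complex.normSq q.1)⁻¹) : ℝ) : ℂ) * Complex.I) :=
    (Complex.measurable_ofReal.comp measurable_snd).add
      ((Complex.measurable_ofReal.comp h1).mul measurable_const)
  exact h2

theorem ra2_gx {x : ℂ} (hx : x ≠ 0) (t : ℝ) :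
    gx x t = gg (ra2_z x t) (Complex.arg (-Complex.I * x)) := by
  have him : (ra2_z x t).im = (Complex.normSq x)⁻¹ := by
    show ((t : ℂ) + ((if x = 0 then 1 else (Complex.normSq x)⁻¹ : ℝ) : ℂ) * Complex.I).im = _
    rw [if_neg hx]
    simp
  have hre : (ra2_z x t).re = t := by
    show ((t : ℂ) + ((if x = 0 then 1 else (Complex.normSq x)⁻¹ : ℝ) : ℂ) * Complex.I).re = _
    simp
  rw [gx_eq_gg, hre, him]
  congr 1
  have hs : √((Complex.normSq x)⁻¹) = ‖x‖⁻¹ := by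
    rw [Real.sqrt_inv, Complex.normSq_eq_norm_sq, Real.sqrt_sq (norm_nonneg x)]
  rw [hs]
  have h2 : (‖-Complex.I * x‖ : ℂ) * cexp (Complex.arg (-Complex.I * x) * Complex.I) =
      -Complex.I * x := Complex.norm_mul_exp_arg_mul_I _
  have h3 : ‖-Complex.I * x‖ = ‖x‖ := by
    rw [norm_mul, norm_neg, Complex.norm_I, one_mul]
  rw [h3] at h2
  rw [Complex.ofReal_inv, div_inv_eq_mul]
  calc x = Complex.I * (-Complex.I * x) := by
        rw [← mul_assoc, mul_neg, Complex.I_mul_I, neg_neg, one_mul]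
    _ = Complex.I * ((‖x‖ : ℂ) * cexp (Complex.arg (-Complex.I * x) * Complex.I)) := by rw [h2]
    _ = _ := by ring

/-- the measurable version -/
noncomputable def ra2_Phi (G : QN N → SL(2, ℝ) → ℂ) (s : QN N) (q : ℂ × ℝ) : ℂ :=
  G s (gg (ra2_z q.1 q.2) (Complex.arg (-Complex.I * q.1)))

theorem ra2_Phi_meas {G : QN N → SL(2, ℝ) → ℂ} (hG : MF G) (s : QN N) :
    Measurable (ra2_Phi G s) := by
  have h0 : Measurable (fun q : ℂ × ℝ => -Complex.I * q.1) :=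
    (measurable_const_mul (-Complex.I)).comp measurable_fst
  have h1 : Measurable (fun q : ℂ × ℝ => Complex.arg (-Complex.I * q.1)) :=
    Complex.measurable_arg.comp h0
  have h2 : Measurable (fun q : ℂ × ℝ => (ra2_z q.1 q.2, Complex.arg (-Complex.I * q.1))) :=
    ra2_z_meas.prodMk h1
  have h3 : Measurable (fun p : ℍ × ℝ => G s (gg p.1 p.2)) := hG.2 s
  have h4 : Measurable ((fun p : ℍ × ℝ => G s (gg p.1 p.2)) ∘
    (fun q : ℂ × ℝ => (ra2_z q.1 q.2, Complex.arg (-Complex.I * q.1)))) := h3.comp h2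
  have h5 : ((fun p : ℍ × ℝ => G s (gg p.1 p.2)) ∘
    (fun q : ℂ × ℝ => (ra2_z q.1 q.2, Complex.arg (-Complex.I * q.1)))) = ra2_Phi G s := rfl
  rw [h5] at h4
  exact h4

theorem ra2_Phi_eq (G : QN N → SL(2, ℝ) → ℂ) (s : QN N) {x : ℂ} (hx : x ≠ 0) (t : ℝ) :
    ra2_Phi G s (x, t) = G s (gx x t) := by
  rw [ra2_gx hx]
  rfl

theorem ra2_CF [NeZero N] (G : QN N → SL(2, ℝ) → ℂ) {x : ℂ} (hx : x ≠ 0) (v : ZMod N × ZMod N) :
    CF G x v = (N : ℂ)⁻¹ * ∑ s : QN N, if bot s = v then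
      ∫ t, ra2_Phi G s (x, t) ∂(volume.restrict (Set.Ioc (0 : ℝ) 1)) else 0 := by
  unfold CF
  congr 1
  refine Finset.sum_congr rfl fun s _ => ?_
  congr 1
  rw [intervalIntegral.integral_of_le zero_le_one]
  refine integral_congr_ae (ae_of_all _ fun t => ?_)
  exact (ra2_Phi_eq G s hx t).symm

/-- for almost all radii the function is square integrable on the circle times the interval -/
theorem ra2_loc [NeZero N] {G : QN N → SL(2, ℝ) → ℂ} (hG : SqF G) :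
    ∀ᵐ r ∂(volume.restrict (Set.Ioi (0 : ℝ))), ∀ s : QN N,
      ∫⁻ θ, (∫⁻ t, ‖ra2_Phi G s (ra2_pt r θ, t)‖ₑ ^ 2 ∂(volume.restrict (Set.Ioc (0 : ℝ) 1)))
        ∂(volume.restrict (Set.Ioo (-Real.pi) Real.pi)) ≠ ⊤ := by
  have key : ∀ n : ℕ, ∀ s : QN N, ∀ᵐ r ∂(volume.restrict (Set.Ioi (0 : ℝ))),
      ∫⁻ θ, (Metric.closedBall (0 : ℂ) n).indicator (fun x =>
        ∫⁻ t, ‖ra2_Phi G s (x, t)‖ₑ ^ 2 ∂(volume.restrict (Set.Ioc (0 : ℝ) 1))) (ra2_pt r θ)
        ∂(volume.restrict (Set.Ioo (-Real.pi) Real.pi)) ≠ ⊤ := by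
    intro n s
    have hm : Measurable (fun x : ℂ => ∫⁻ t, ‖ra2_Phi G s (x, t)‖ₑ ^ 2
        ∂(volume.restrict (Set.Ioc (0 : ℝ) 1))) :=
      ((ra2_Phi_meas hG.mf s).enorm.pow_const 2).lintegral_prod_right'
    refine ra2_polar_top _ (hm.indicator Metric.isClosed_closedBall.measurableSet) ?_
    rw [lintegral_indicator Metric.isClosed_closedBall.measurableSet]
    obtain ⟨C, hC, h1⟩ := CF_loc (N := N) (n : ℝ)
    have h2 := ((h1 G hG).1 s).2
    rw [hasFiniteIntegral_iff_enorm] at h2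
    simp only [ra2_sqe] at h2
    have h3 : ∫⁻ q : ℂ × ℝ, ‖G s (gx q.1 q.2)‖ₑ ^ 2
        ∂((volume.restrict (Metric.closedBall (0 : ℂ) (n : ℝ))).prod
          (volume.restrict (Set.Ioc (0 : ℝ) 1))) =
        ∫⁻ q : ℂ × ℝ, ‖ra2_Phi G s q‖ₑ ^ 2
        ∂((volume.restrict (Metric.closedBall (0 : ℂ) (n : ℝ))).prod
          (volume.restrict (Set.Ioc (0 : ℝ) 1))) := by
      refine lintegral_congr_ae ?_
      have h4 : ∀ᵐ x : ℂ ∂(volume.restrict (Metric.closedBall (0 : ℂ) (n : ℝ))), x ≠ 0 := by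
        refine ae_restrict_of_ae ?_
        rw [ae_iff]
        simp
      have h5 : ∀ᵐ q : ℂ × ℝ ∂((volume.restrict (Metric.closedBall (0 : ℂ) (n : ℝ))).prod
          (volume.restrict (Set.Ioc (0 : ℝ) 1))), q.1 ≠ 0 :=
        Measure.quasiMeasurePreserving_fst.ae h4
      filter_upwards [h5] with q hq
      rw [show ra2_Phi G s q = ra2_Phi G s (q.1, q.2) from rfl, ra2_Phi_eq G s hq]
    rw [h3, lintegral_prod _ ((ra2_Phi_meas hG.mf s).enorm.pow_const 2).aemeasurable] at h2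
    exact h2.ne
  have key2 : ∀ᵐ r ∂(volume.restrict (Set.Ioi (0 : ℝ))), ∀ n : ℕ, ∀ s : QN N,
      ∫⁻ θ, (Metric.closedBall (0 : ℂ) n).indicator (fun x =>
        ∫⁻ t, ‖ra2_Phi G s (x, t)‖ₑ ^ 2 ∂(volume.restrict (Set.Ioc (0 : ℝ) 1))) (ra2_pt r θ)
        ∂(volume.restrict (Set.Ioo (-Real.pi) Real.pi)) ≠ ⊤ :=
    ae_all_iff.2 fun n => ae_all_iff.2 fun s => key n s
  filter_upwards [key2, ae_restrict_mem measurableSet_Ioi] with r hr hr0
  intro s
  obtain ⟨n, hn⟩ := exists_nat_ge r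
  have h1 := hr n s
  have h2 : ∀ θ, (Metric.closedBall (0 : ℂ) n).indicator (fun x =>
      ∫⁻ t, ‖ra2_Phi G s (x, t)‖ₑ ^ 2 ∂(volume.restrict (Set.Ioc (0 : ℝ) 1))) (ra2_pt r θ) =
      ∫⁻ t, ‖ra2_Phi G s (ra2_pt r θ, t)‖ₑ ^ 2 ∂(volume.restrict (Set.Ioc (0 : ℝ) 1)) := by
    intro θ
    rw [Set.indicator_of_mem]
    rw [mem_closedBall_zero_iff, ra2_pt_norm hr0]
    exact hn
  simp only [h2] at h1
  exact h1

/-- for almost all radii the constant term vanishes on the circle -/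
theorem ra2_bad {P : ℂ → Prop} (h : ∀ᵐ x : ℂ, P x) :
    ∀ᵐ r ∂(volume.restrict (Set.Ioi (0 : ℝ))),
      ∀ᵐ θ ∂(volume.restrict (Set.Ioo (-Real.pi) Real.pi)), P (ra2_pt r θ) := by
  rw [ae_iff] at h
  obtain ⟨B, hB⟩ : ∃ B : Set ℂ, B = toMeasurable volume {x | ¬ P x} := ⟨_, rfl⟩
  have hBm : MeasurableSet B := by
    rw [hB]
    exact measurableSet_toMeasurable _ _
  have hB0 : volume B = 0 := by
    rw [hB, measure_toMeasurable, h]
  have hBs : ∀ x, ¬ P x → x ∈ B := fun x hx => by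
    rw [hB]
    exact subset_toMeasurable _ _ hx
  have hm : Measurable (B.indicator (fun _ : ℂ => (1 : ℝ≥0∞))) := measurable_const.indicator hBm
  have h1 := ra2_polar_zero (B.indicator fun _ => 1) hm
    (by rw [lintegral_indicator hBm, setLIntegral_one, hB0])
  filter_upwards [h1] with r hr
  have hm2 : Measurable (fun θ : ℝ => B.indicator (fun _ : ℂ => (1 : ℝ≥0∞)) (ra2_pt r θ)) :=
    (hm.comp ra2_pt_cont.measurable).comp (measurable_const.prodMk measurable_id)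
  rw [lintegral_eq_zero_iff hm2] at hr
  filter_upwards [hr] with θ hθ
  by_contra hP
  have h3 := hBs _ hP
  have h4 : B.indicator (fun _ : ℂ => (1 : ℝ≥0∞)) (ra2_pt r θ) = 0 := hθ
  rw [Set.indicator_of_mem h3] at h4
  exact one_ne_zero h4

theorem ra2_le (x : ℝ≥0∞) : x ≤ 1 + x ^ 2 := by
  rcases le_total x 1 with h | h
  · exact h.trans le_self_add
  · calc x = x * 1 := (mul_one x).symm
      _ ≤ x * x := mul_le_mul_right h x
      _ = x ^ 2 := (sq x).symm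
      _ ≤ 1 + x ^ 2 := le_add_self

/-! ## the average in the coordinates `(r, θ)` -/

theorem ra2_avg (G : QN N → SL(2, ℝ) → ℂ) (s : QN N) (t : ℝ) {y : ℝ} (hy : 0 < y) :
    ra2_g G s (UpperHalfPlane.ofComplex (t + y * Complex.I)) =
      ((1 / (2 * Real.pi) : ℝ) : ℂ) * ∫ θ, ra2_Phi G s (ra2_pt (1 / √y) θ, t)
        ∂(volume.restrict (Set.Ioo (-Real.pi) Real.pi)) := by
  have hy' : 0 < ((t : ℂ) + y * Complex.I).im := by simpa using hy
  obtain ⟨z, hz⟩ : ∃ z : ℍ, z = UpperHalfPlane.ofComplex (t + y * Complex.I) := ⟨_, rfl⟩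
  have hzc : (z : ℂ) = t + y * Complex.I := by
    rw [hz, ofComplex_apply_of_im_pos hy']
  have hre : z.re = t := by
    show (z : ℂ).re = t
    rw [hzc]
    simp
  have him : z.im = y := by
    show (z : ℂ).im = y
    rw [hzc]
    simp
  rw [← hz]
  unfold ra2_g
  congr 1
  have h1 := (ra2_per G s z).intervalIntegral_add_eq 0 (-Real.pi - Real.pi / 2)
  rw [zero_add] at h1
  rw [h1]
  have h2 : -Real.pi - Real.pi / 2 + 2 * Real.pi = Real.pi - Real.pi / 2 := by ring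
  rw [h2, ← intervalIntegral.integral_comp_sub_right (fun a => G s (gg z a)) (Real.pi / 2),
    intervalIntegral.integral_of_le (by linarith [Real.pi_pos]), ← restrict_Ioo_eq_restrict_Ioc]
  refine integral_congr_ae (ae_of_all _ fun θ => ?_)
  show G s (gg z (θ - Real.pi / 2)) = ra2_Phi G s (ra2_pt (1 / √y) θ, t)
  have hr : 0 < 1 / √y := one_div_pos.2 (Real.sqrt_pos.2 hy)
  rw [ra2_Phi_eq G s (ra2_pt_ne hr θ), gx_eq_gg, hre, him]
  congr 2
  unfold ra2_pt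
  have h3 : Complex.I * cexp (((θ - Real.pi / 2 : ℝ) : ℂ) * Complex.I) = cexp (θ * Complex.I) := by
    push_cast
    rw [sub_mul, Complex.exp_sub]
    have h4 : cexp (↑Real.pi / 2 * Complex.I) = Complex.I := by
      rw [Complex.exp_mul_I, ← Complex.ofReal_ofNat, ← Complex.ofReal_div, ← Complex.ofReal_cos,
        ← Complex.ofReal_sin, Real.cos_pi_div_two, Real.sin_pi_div_two]
      simp
    rw [h4]
    field_simp
  rw [h3, Complex.exp_mul_I, ← Complex.ofReal_cos, ← Complex.ofReal_sin]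
  push_cast
  ring

theorem ra2_const [NeZero N] {G : QN N → SL(2, ℝ) → ℂ} (hG : SqF G)
    (h : ∀ᵐ x : ℂ, ∀ v ∈ PV N, CF G x v = 0) (v : ZMod N × ZMod N) (hv : v ∈ PV N) :
    ∀ᵐ y : ℝ ∂(volume.restrict (Set.Ioi 0)), cH (ra2_g G) v y = 0 := by
  filter_upwards [ra2_transfer (ra2_loc hG), ra2_transfer (ra2_bad h),
    ae_restrict_mem measurableSet_Ioi] with y h1 h2 hy
  have hy0 : 0 < y := hy
  obtain ⟨r, hr⟩ : ∃ r : ℝ, r = 1 / √y := ⟨_, rfl⟩
  have hr0 : 0 < r := by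
    rw [hr]
    exact one_div_pos.2 (Real.sqrt_pos.2 hy0)
  rw [← hr] at h1 h2
  have hm : ∀ s : QN N, Measurable (fun q : ℝ × ℝ => ra2_Phi G s (ra2_pt r q.1, q.2)) := by
    intro s
    have h3 : Measurable (fun q : ℝ × ℝ => ((ra2_pt r q.1, q.2) : ℂ × ℝ)) := by
      refine Measurable.prodMk ?_ measurable_snd
      exact ra2_pt_cont.measurable.comp (measurable_const.prodMk measurable_fst)
    exact (ra2_Phi_meas hG.mf s).comp h3
  -- integrability
  have hint : ∀ s : QN N, Integrable (fun q : ℝ × ℝ => ra2_Phi G s (ra2_pt r q.1, q.2))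
      ((volume.restrict (Set.Ioo (-Real.pi) Real.pi)).prod
        (volume.restrict (Set.Ioc (0 : ℝ) 1))) := by
    intro s
    refine ⟨(hm s).aestronglyMeasurable, ?_⟩
    rw [hasFiniteIntegral_iff_enorm]
    have h3 : ∫⁻ q : ℝ × ℝ, ‖ra2_Phi G s (ra2_pt r q.1, q.2)‖ₑ
        ∂((volume.restrict (Set.Ioo (-Real.pi) Real.pi)).prod
          (volume.restrict (Set.Ioc (0 : ℝ) 1))) ≤
        ∫⁻ q : ℝ × ℝ, (1 + ‖ra2_Phi G s (ra2_pt r q.1, q.2)‖ₑ ^ 2)
        ∂((volume.restrict (Set.Ioo (-Real.pi) Real.pi)).prod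
          (volume.restrict (Set.Ioc (0 : ℝ) 1))) := lintegral_mono fun q => ra2_le _
    refine lt_of_le_of_lt h3 ?_
    rw [lintegral_add_left measurable_const]
    refine ENNReal.add_lt_top.2 ⟨?_, ?_⟩
    · rw [lintegral_one]
      exact measure_lt_top _ _
    · rw [lintegral_prod _ ((hm s).enorm.pow_const 2).aemeasurable]
      exact (h1 s).lt_top
  have hJ : ∀ s : QN N, Integrable (fun θ : ℝ => ∫ t, ra2_Phi G s (ra2_pt r θ, t)
      ∂(volume.restrict (Set.Ioc (0 : ℝ) 1))) (volume.restrict (Set.Ioo (-Real.pi) Real.pi)) :=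
    fun s => (hint s).integral_prod_left
  -- the interchange
  have hswap : ∀ s : QN N, ∫ t in (0 : ℝ)..1,
      ra2_g G s (UpperHalfPlane.ofComplex (t + y * Complex.I)) =
      ((1 / (2 * Real.pi) : ℝ) : ℂ) * ∫ θ, (∫ t, ra2_Phi G s (ra2_pt r θ, t)
        ∂(volume.restrict (Set.Ioc (0 : ℝ) 1)))
        ∂(volume.restrict (Set.Ioo (-Real.pi) Real.pi)) := by
    intro s
    rw [intervalIntegral.integral_of_le zero_le_one]
    have h3 : ∀ t : ℝ, ra2_g G s (UpperHalfPlane.ofComplex (t + y * Complex.I)) =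
        ((1 / (2 * Real.pi) : ℝ) : ℂ) * ∫ θ, ra2_Phi G s (ra2_pt r θ, t)
          ∂(volume.restrict (Set.Ioo (-Real.pi) Real.pi)) := by
      intro t
      rw [ra2_avg G s t hy0, hr]
    simp only [h3]
    rw [integral_const_mul]
    congr 1
    exact (integral_integral_swap (f := fun θ t => ra2_Phi G s (ra2_pt r θ, t)) (hint s)).symm
  unfold cH
  simp only [hswap]
  have h4 : (N : ℂ)⁻¹ * ∑ s : QN N, (if bot s = v then
      ((1 / (2 * Real.pi) : ℝ) : ℂ) * ∫ θ, (∫ t, ra2_Phi G s (ra2_pt r θ, t)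
        ∂(volume.restrict (Set.Ioc (0 : ℝ) 1)))
        ∂(volume.restrict (Set.Ioo (-Real.pi) Real.pi)) else 0) =
      ((1 / (2 * Real.pi) : ℝ) : ℂ) * ∫ θ, CF G (ra2_pt r θ) v
        ∂(volume.restrict (Set.Ioo (-Real.pi) Real.pi)) := by
    have h5 : ∀ θ, CF G (ra2_pt r θ) v = (N : ℂ)⁻¹ * ∑ s : QN N, if bot s = v then
        ∫ t, ra2_Phi G s (ra2_pt r θ, t) ∂(volume.restrict (Set.Ioc (0 : ℝ) 1)) else 0 :=
      fun θ => ra2_CF G (ra2_pt_ne hr0 θ) v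
    simp only [h5]
    rw [integral_const_mul, integral_finsetSum]
    · rw [mul_left_comm]
      congr 1
      rw [Finset.mul_sum]
      refine Finset.sum_congr rfl fun s _ => ?_
      by_cases hs : bot s = v
      · simp only [if_pos hs]
      · simp only [if_neg hs]
        rw [integral_zero, mul_zero]
    · intro s _
      by_cases hs : bot s = v
      · simp only [if_pos hs]
        exact hJ s
      · simp only [if_neg hs]
        exact integrable_zero _ _ _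
  rw [h4]
  have h6 : ∫ θ, CF G (ra2_pt r θ) v ∂(volume.restrict (Set.Ioo (-Real.pi) Real.pi)) = 0 := by
    rw [← integral_zero ℝ ℂ (μ := volume.restrict (Set.Ioo (-Real.pi) Real.pi))]
    refine integral_congr_ae ?_
    filter_upwards [h2] with θ hθ
    exact hθ v hv
  rw [h6, mul_zero]

/-- averaging over the circle -/
theorem avg_K [NeZero N] {G : QN N → SL(2, ℝ) → ℂ} (hG : SqF G) :
    ∃ g : QN N → ℍ → ℂ, SqH g ∧ meanH g = mean G ∧
      (∀ f' : QN N → ℍ → ℂ, SqH f' → ip G (liftH f') = 2 * Real.pi * ipH g f') ∧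
      ((∀ᵐ x : ℂ, ∀ v ∈ PV N, CF G x v = 0) →
        ∀ v ∈ PV N, ∀ᵐ y : ℝ ∂(volume.restrict (Set.Ioi 0)), cH g v y = 0) :=
  ⟨ra2_g G, ra2_sqH hG, ra2_mean hG, fun _ hf => ra2_ip hG hf, fun h v hv => ra2_const hG h v hv⟩

/-- the decomposition for families on the upper half plane -/
theorem eis_projH [NeZero N] {f : QN N → ℍ → ℂ} (hf : SqH f) (h0 : meanH f = 0) :
    ∃ g : QN N → ℍ → ℂ, SqH g ∧ meanH g = 0 ∧
      (∀ v ∈ PV N, ∀ᵐ y : ℝ ∂(volume.restrict (Set.Ioi 0)), cH g v y = 0) ∧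
      ∀ f' : QN N → ℍ → ℂ, SqH f' → meanH f' = 0 →
        ipH f f' = ipH g f' + (N / 2 : ℂ) * ∑ v ∈ PV N,
          ∫ y in Set.Ioi (0 : ℝ), cH f v y * conj (cH f' v y) / (y : ℂ) ^ 2 := by
  obtain ⟨hF, hmean, hip⟩ := liftH_sq hf
  obtain ⟨G, hG, hG0, hGc, hGi⟩ := eis_proj hF (hmean.trans h0)
  obtain ⟨g, hg, hg0, hgi, hgc⟩ := avg_K hG
  refine ⟨g, hg, hg0.trans hG0, hgc hGc, fun f' hf' h0' => ?_⟩
  obtain ⟨hF', hmean', -⟩ := liftH_sq hf'
  have h1 := hGi (liftH f') hF' (hmean'.trans h0')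
  rw [hip f' hf', hgi f' hf'] at h1
  have h2 : ipL (CF (liftH f)) (CF (liftH f')) = 2 * Real.pi * N * ∑ v ∈ PV N,
      ∫ y in Set.Ioi (0 : ℝ), cH f v y * conj (cH f' v y) / (y : ℂ) ^ 2 := by
    rw [← ipL_rad]
    unfold ipL
    congr 1
    refine Finset.sum_congr rfl fun v _ => ?_
    refine integral_congr_ae ?_
    have h3 : ∀ᵐ x : ℂ, x ≠ 0 := by
      rw [ae_iff]
      simp
    filter_upwards [h3] with x hx
    rw [CF_liftH f hx, CF_liftH f' hx]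
  rw [h2] at h1
  have hpi : (Real.pi : ℂ) ≠ 0 := by exact_mod_cast Real.pi_ne_zero
  have h4 : (2 * Real.pi : ℂ) * ipH f f' = (2 * Real.pi : ℂ) * (ipH g f' +
      (N / 2 : ℂ) * ∑ v ∈ PV N,
        ∫ y in Set.Ioi (0 : ℝ), cH f v y * conj (cH f' v y) / (y : ℂ) ^ 2) := by
    rw [h1]
    ring
  exact mul_left_cancel₀ (mul_ne_zero two_ne_zero hpi) h4

end Pool.Agent.JO
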